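import Pool.Agent.Helper39.Anco.LDefs

/-!
# SOB0: an `L²` function in all Sobolev spaces is smooth
-/

open scoped ContDiff Topology Manifold InnerProductSpace SchwartzMap
open Set MeasureTheory Filter FourierTransform

set_option maxSynthPendingDepth 3

noncomputable section
namespace ANCO

variable {n : ℕ}

/-- a real test function as a Schwartz function -/
theorem sob_test (g : E n → ℝ) (hg : ContDiff ℝ ∞ g) (hc : HasCompactSupport g) :
    ∃ G : 𝓢(E n, ℂ), ∀ x, G x = (g x : ℂ) := by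
  have h1 : HasCompactSupport (Complex.ofRealCLM ∘ g) := hc.comp_left rfl
  have h2 : ContDiff ℝ ∞ (Complex.ofRealCLM ∘ g) := by fun_prop
  exact ⟨h1.toSchwartzMap h2, fun x => rfl⟩

theorem sob_weight (F : Lp ℂ 2 (volume : Measure (E n))) (k : ℕ)
    (v : Lp ℂ 1 (volume : Measure (E n)))
    (h : TemperedDistribution.smulLeftCLM ℂ
      (fun x : E n => (((1 + ‖x‖ ^ 2) ^ ((k : ℝ) / 2) : ℝ) : ℂ)) (F : 𝓢'(E n, ℂ)) =
        (v : 𝓢'(E n, ℂ))) :
    Integrable (fun x => ‖x‖ ^ k * ‖F x‖) := by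
  have htg : (fun x : E n => (((1 + ‖x‖ ^ 2) ^ ((k : ℝ) / 2) : ℝ) : ℂ)).HasTemperateGrowth := by
    fun_prop
  have hv : Integrable v := L1.integrable_coeFn v
  have hF : LocallyIntegrable F := (Lp.memLp F).locallyIntegrable (by norm_num)
  have hae : ∀ᵐ x, (((1 + ‖x‖ ^ 2) ^ ((k : ℝ) / 2) : ℝ) : ℂ) * F x = v x := by
    refine ae_eq_of_integral_contDiff_smul_eq ?_ hv.locallyIntegrable ?_
    · have := hF.continuous_smul (f := F) (g := fun x : E n =>
        (((1 + ‖x‖ ^ 2) ^ ((k : ℝ) / 2) : ℝ) : ℂ)) htg.1.continuous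
      exact this
    · intro g hg hc
      obtain ⟨G, hG⟩ := sob_test g hg hc
      have h1 := congrArg (fun T : 𝓢'(E n, ℂ) => T G) h
      simp only [TemperedDistribution.smulLeftCLM_apply_apply,
        Lp.toTemperedDistribution_apply] at h1
      have h2 : ∀ x, SchwartzMap.smulLeftCLM ℂ
          (fun x : E n => (((1 + ‖x‖ ^ 2) ^ ((k : ℝ) / 2) : ℝ) : ℂ)) G x =
          (((1 + ‖x‖ ^ 2) ^ ((k : ℝ) / 2) : ℝ) : ℂ) * (g x : ℂ) := by
        intro x
        rw [SchwartzMap.smulLeftCLM_apply_apply htg, hG, smul_eq_mul]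
      simp_rw [h2, hG] at h1
      calc ∫ x, g x • ((((1 + ‖x‖ ^ 2) ^ ((k : ℝ) / 2) : ℝ) : ℂ) * F x)
          = ∫ x, ((((1 + ‖x‖ ^ 2) ^ ((k : ℝ) / 2) : ℝ) : ℂ) * (g x : ℂ)) • F x := by
            congr 1
            funext x
            rw [Complex.real_smul, smul_eq_mul]
            ring
        _ = ∫ x, (g x : ℂ) • v x := h1
        _ = ∫ x, g x • v x := by
            congr 1
  refine Integrable.mono' hv.norm ?_ ?_
  · exact ((continuous_norm.pow k).aestronglyMeasurable).mul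
      (Lp.memLp F).aestronglyMeasurable.norm
  · filter_upwards [hae] with x hx
    have e1 : ‖‖x‖ ^ k * ‖F x‖‖ = ‖x‖ ^ k * ‖F x‖ := abs_of_nonneg (by positivity)
    have e2 : ‖(((1 + ‖x‖ ^ 2) ^ ((k : ℝ) / 2) : ℝ) : ℂ) * F x‖ =
        (1 + ‖x‖ ^ 2) ^ ((k : ℝ) / 2) * ‖F x‖ := by
      rw [norm_mul, Complex.norm_real, Real.norm_eq_abs, abs_of_nonneg (by positivity)]
    rw [← hx, e1, e2]
    gcongr
    calc ‖x‖ ^ k = (‖x‖ ^ 2) ^ ((k : ℝ) / 2) := by
          rw [← Real.rpow_natCast, ← Real.rpow_natCast, ← Real.rpow_mul (norm_nonneg x)]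
          congr 1
          push_cast
          ring
      _ ≤ (1 + ‖x‖ ^ 2) ^ ((k : ℝ) / 2) := by
          apply Real.rpow_le_rpow (by positivity) (by linarith) (by positivity)

/-- a tempered `L²` function all of whose Sobolev norms are finite is smooth -/
theorem smooth_of_memSobolev (f : Lp ℂ 2 (volume : Measure (E n)))
    (hf : ∀ m : ℕ, TemperedDistribution.MemSobolev (m : ℝ) 2 (f : 𝓢'(E n, ℂ))) :
    ∃ u : E n → ℂ, ContDiff ℝ ∞ u ∧ (∀ᵐ y, f y = u y) := by
  set F : Lp ℂ 2 (volume : Measure (E n)) := 𝓕 f with hFdef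
  have hFT : 𝓕 (f : 𝓢'(E n, ℂ)) = (F : 𝓢'(E n, ℂ)) := Lp.fourier_toTemperedDistribution_eq f
  have hint : ∀ k : ℕ, Integrable (fun x => ‖x‖ ^ k * ‖F x‖) := by
    intro k
    have h1 : TemperedDistribution.MemSobolev ((n + 1 : ℕ) : ℝ) 2
        (TemperedDistribution.besselPotential (E n) ℂ (k : ℝ) (f : 𝓢'(E n, ℂ))) := by
      rw [TemperedDistribution.memSobolev_besselPotential_iff]
      have := hf (k + (n + 1))
      push_cast at this ⊢
      exact this
    obtain ⟨v, hv⟩ := h1.fourier_memL1 (by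
      rw [finrank_euclideanSpace_fin]
      push_cast
      have : (0 : ℝ) ≤ n := Nat.cast_nonneg n
      linarith)
    rw [TemperedDistribution.fourier_besselPotential_eq_smulLeftCLM_fourier_apply, hFT] at hv
    exact sob_weight F k v hv
  have hF1 : Integrable F := by
    have := hint 0
    simp only [pow_zero, one_mul] at this
    exact (integrable_norm_iff (Lp.memLp F).aestronglyMeasurable).mp this
  have hcd : ContDiff ℝ ∞ (𝓕 (F : E n → ℂ)) := by
    have := Real.contDiff_fourier (f := (F : E n → ℂ)) (N := ⊤) (fun k _ => hint k)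
    exact this
  have hcd' : ContDiff ℝ ∞ (𝓕⁻ (F : E n → ℂ)) := by
    have h1 : 𝓕⁻ (F : E n → ℂ) = fun x => 𝓕 (F : E n → ℂ) (-x) :=
      funext (fun x => Real.fourierInv_eq_fourier_neg _ x)
    rw [h1]
    exact hcd.comp contDiff_neg
  refine ⟨𝓕⁻ (F : E n → ℂ), hcd', ?_⟩
  refine ae_eq_of_integral_contDiff_smul_eq
    ((Lp.memLp f).locallyIntegrable (by norm_num)) hcd'.continuous.locallyIntegrable ?_
  intro g hg hc
  obtain ⟨G, hG⟩ := sob_test g hg hc
  have h1 : (f : 𝓢'(E n, ℂ)) G = (F : 𝓢'(E n, ℂ)) (𝓕⁻ G) := by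
    rw [← hFT]
    simp
  rw [Lp.toTemperedDistribution_apply, Lp.toTemperedDistribution_apply] at h1
  have h2 : ∫ ξ, (𝓕⁻ G) ξ • F ξ = ∫ x, G x • 𝓕⁻ (F : E n → ℂ) x := by
    have h3 := VectorFourier.integral_fourierIntegral_smul_eq_flip (L := -innerₗ (E n))
      (μ := (volume : Measure (E n))) (ν := (volume : Measure (E n)))
      (f := (G : E n → ℂ)) (g := (F : E n → ℂ)) Real.continuous_fourierChar
      (by
        have : Continuous fun p : E n × E n => -(inner ℝ p.1 p.2 : ℝ) :=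
          (continuous_inner).neg
        exact this) G.integrable hF1
    have h4 : (-innerₗ (E n)).flip = -innerₗ (E n) := by
      ext x y
      simp [real_inner_comm]
    rw [h4] at h3
    rw [SchwartzMap.fourierInv_coe]
    exact h3
  rw [h2] at h1
  simp_rw [hG] at h1
  calc ∫ x, g x • f x = ∫ x, (g x : ℂ) • f x := by
        congr 1
    _ = ∫ x, (g x : ℂ) • 𝓕⁻ (F : E n → ℂ) x := h1
    _ = ∫ x, g x • 𝓕⁻ (F : E n → ℂ) x := by
        congr 1

end ANCO
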