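import Pool.Agent.Helper39.Anco.CoreRealA
import Pool.Agent.Helper39.Anco.Sob0

/-!
# Local Sobolev regularity of all orders implies smoothness
-/

open scoped ContDiff Topology Manifold InnerProductSpace SchwartzMap
open Set MeasureTheory Filter

set_option maxSynthPendingDepth 3

noncomputable section
namespace ANCO

variable {n : ℕ}

open TemperedDistribution in
theorem sob_bessel_two (f : 𝓢'(E n, ℂ)) : besselPotential (E n) ℂ 2 f =
    f + ((-(2 * Real.pi) ^ 2)⁻¹ : ℝ) • Laplacian.laplacian f := by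
  have hπ : (-(2 * Real.pi) ^ 2 : ℝ) ≠ 0 := by
    have := Real.pi_pos
    have : (0:ℝ) < (2 * Real.pi) ^ 2 := by positivity
    linarith
  have h0 : (fun x : E n => (((1 + ‖x‖ ^ 2) ^ ((2 : ℝ) / 2) : ℝ) : ℂ)) =
      (fun _ : E n => (1 : ℂ)) + fun x : E n => ((‖x‖ ^ 2 : ℝ) : ℂ) := by
    funext x
    simp
  have h1 : smulLeftCLM ℂ ((fun _ : E n => (1 : ℂ)) + fun x : E n => ((‖x‖ ^ 2 : ℝ) : ℂ)) =
      smulLeftCLM ℂ (fun _ : E n => (1 : ℂ)) + smulLeftCLM ℂ (fun x : E n =>
        ((‖x‖ ^ 2 : ℝ) : ℂ)) := smulLeftCLM_add (by fun_prop) (by fun_prop)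
  rw [laplacian_eq_fourierMultiplierCLM, smul_smul, inv_mul_cancel₀ hπ, one_smul, besselPotential,
    h0, fourierMultiplierCLM_apply, h1, _root_.add_apply, smulLeftCLM_const, one_smul,
    FourierTransform.fourierInv_add, FourierTransform.fourierInv_fourier_eq]
  rfl

open TemperedDistribution in
theorem sob_sum {σ : Type*} (s : Finset σ) {m : ℝ} {f : σ → 𝓢'(E n, ℂ)}
    (h : ∀ a ∈ s, MemSobolev m 2 (f a)) : MemSobolev m 2 (∑ a ∈ s, f a) := by
  classical
  induction s using Finset.induction_on with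
  | empty =>
    rw [Finset.sum_empty]
    exact memSobolev_fun_zero (E n) ℂ m 2
  | insert a s ha ih =>
    rw [Finset.sum_insert ha]
    exact (h a (Finset.mem_insert_self _ _)).add
      (ih fun b hb => h b (Finset.mem_insert_of_mem hb))

open TemperedDistribution LineDeriv in
theorem sob_step {m : ℝ} {f : 𝓢'(E n, ℂ)} (hf : MemSobolev m 2 f)
    (hd : ∀ j : Fin n, MemSobolev m 2 (∂_{(e j : E n)} f : 𝓢'(E n, ℂ))) :
    MemSobolev (m + 1) 2 f := by
  have h1 : MemSobolev (m - 1) 2 (besselPotential (E n) ℂ 2 f) := by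
    rw [sob_bessel_two]
    refine (hf.mono (by linarith)).add ?_
    have h2 : MemSobolev (m - 1) 2 (Laplacian.laplacian f) := by
      rw [laplacian_eq_sum (EuclideanSpace.basisFun (Fin n) ℝ)]
      apply sob_sum
      intro j _
      have h3 : (EuclideanSpace.basisFun (Fin n) ℝ) j = (e j : E n) := by
        rw [EuclideanSpace.basisFun_apply]; rfl
      rw [h3]
      exact (hd j).lineDerivOp
    have h4 := h2.smul (((-(2 * Real.pi) ^ 2)⁻¹ : ℝ) : ℂ)
    rwa [Complex.coe_smul] at h4
  rw [memSobolev_besselPotential_iff] at h1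
  convert h1 using 1
  ring

theorem sob_hloc_mono {ι : Type} [Fintype ι] {U : Set (E n)} {m : ℕ} {k : E n → Wd ι}
    (h : HLoc U (m + 1) k) : HLoc U m k := by
  induction m generalizing k with
  | zero => exact h.1
  | succ m ih =>
    refine ⟨h.1, fun j => ?_⟩
    obtain ⟨k', hk', hm⟩ := h.2 j
    exact ⟨k', hk', ih hm⟩

/-- cutoffs of locally `L²` functions -/
theorem sob_memLp {ι : Type} [Fintype ι] {U : Set (E n)} {k : E n → Wd ι} (hk : LocL2 U k)
    {χ : E n → ℝ} (hχ : Continuous χ) (hc : HasCompactSupport χ) (hs : tsupport χ ⊆ U) (α : ι) :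
    MemLp (fun y => ((χ y * k y α : ℝ) : ℂ)) 2 (volume : Measure (E n)) := by
  have hK : IsCompact (tsupport χ) := hc
  have hkK := hk _ hs hK
  obtain ⟨C, hC⟩ := hχ.bounded_above_of_compact_support hc
  have h1 : (fun y => ((χ y * k y α : ℝ) : ℂ)) =
      (tsupport χ).indicator (fun y => ((χ y * k y α : ℝ) : ℂ)) := by
    funext y
    by_cases hy : y ∈ tsupport χ
    · rw [indicator_of_mem hy]
    · rw [indicator_of_notMem hy, image_eq_zero_of_notMem_tsupport hy]
      simp
  rw [h1, memLp_indicator_iff_restrict hK.measurableSet]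
  refine hkK.of_le_mul (c := C) ?_ ?_
  · have h2 : AEStronglyMeasurable (fun y => k y α) (volume.restrict (tsupport χ)) :=
      (EuclideanSpace.proj (𝕜 := ℝ) α : Wd ι →L[ℝ] ℝ).continuous.comp_aestronglyMeasurable hkK.1
    exact Complex.continuous_ofReal.comp_aestronglyMeasurable
      (hχ.aestronglyMeasurable.mul h2)
  · filter_upwards with y
    rw [Complex.norm_real, norm_mul]
    have h3 : ‖k y α‖ ≤ ‖k y‖ := PiLp.norm_apply_le _ _
    have h4 := hC y
    have h5 : 0 ≤ C := (norm_nonneg _).trans h4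
    gcongr

open LineDeriv in
/-- distributional derivative of a cut-off function -/
theorem sob_deriv {ι : Type} [Fintype ι] {U : Set (E n)} {k k' : E n → Wd ι}
    (hk : LocL2 U k) (hk' : LocL2 U k') {j : Fin n} (hw : WDer U j k k') {χ : E n → ℝ}
    (hχ : ContDiff ℝ ∞ χ) (hc : HasCompactSupport χ) (hs : tsupport χ ⊆ U) (α : ι)
    (h0 : MemLp (fun y => ((χ y * k y α : ℝ) : ℂ)) 2 (volume : Measure (E n)))
    (h1 : MemLp (fun y => ((fderiv ℝ χ y (e j) * k y α : ℝ) : ℂ)) 2 (volume : Measure (E n)))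
    (h2 : MemLp (fun y => ((χ y * k' y α : ℝ) : ℂ)) 2 (volume : Measure (E n))) :
    ∂_{(e j : E n)} ((h0.toLp _ : Lp ℂ 2 (volume : Measure (E n))) : 𝓢'(E n, ℂ)) =
      ((h1.toLp _ : Lp ℂ 2 (volume : Measure (E n))) : 𝓢'(E n, ℂ)) +
      ((h2.toLp _ : Lp ℂ 2 (volume : Measure (E n))) : 𝓢'(E n, ℂ)) := by
  classical
  ext φ
  have hφs : ContDiff ℝ ∞ φ := φ.smooth'
  rw [TemperedDistribution.lineDerivOp_apply_apply, map_neg, _root_.add_apply,
    Lp.toTemperedDistribution_apply, Lp.toTemperedDistribution_apply,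
    Lp.toTemperedDistribution_apply]
  have e0 : ∫ y, (∂_{e j} φ) y • (h0.toLp _ : Lp ℂ 2 (volume : Measure (E n))) y =
      ∫ y, fderiv ℝ φ y (e j) * ((χ y * k y α : ℝ) : ℂ) := by
    apply integral_congr_ae
    filter_upwards [h0.coeFn_toLp] with y hy
    rw [hy, SchwartzMap.lineDerivOp_apply_eq_fderiv, smul_eq_mul]
  have e1 : ∫ y, φ y • (h1.toLp _ : Lp ℂ 2 (volume : Measure (E n))) y =
      ∫ y, φ y * ((fderiv ℝ χ y (e j) * k y α : ℝ) : ℂ) := by
    apply integral_congr_ae
    filter_upwards [h1.coeFn_toLp] with y hy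
    rw [hy, smul_eq_mul]
  have e2 : ∫ y, φ y • (h2.toLp _ : Lp ℂ 2 (volume : Measure (E n))) y =
      ∫ y, φ y * ((χ y * k' y α : ℝ) : ℂ) := by
    apply integral_congr_ae
    filter_upwards [h2.coeFn_toLp] with y hy
    rw [hy, smul_eq_mul]
  rw [e0, e1, e2]
  have hφm : MemLp φ 2 (volume : Measure (E n)) := φ.memLp 2
  have hdm : MemLp (fun y => fderiv ℝ φ y (e j)) 2 (volume : Measure (E n)) := by
    have := (∂_{e j} φ : 𝓢(E n, ℂ)).memLp (μ := volume) 2
    refine this.ae_eq ?_
    filter_upwards with y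
    exact SchwartzMap.lineDerivOp_apply_eq_fderiv _ _ _
  have i0 : Integrable (fun y => fderiv ℝ φ y (e j) * ((χ y * k y α : ℝ) : ℂ)) :=
    hdm.integrable_mul h0
  have i1 : Integrable (fun y => φ y * ((fderiv ℝ χ y (e j) * k y α : ℝ) : ℂ)) :=
    hφm.integrable_mul h1
  have i2 : Integrable (fun y => φ y * ((χ y * k' y α : ℝ) : ℂ)) :=
    hφm.integrable_mul h2
  have key : ∀ (P : ℂ →L[ℝ] ℝ), (∀ (a : ℝ) (z : ℂ), P (z * (a : ℂ)) = P z * a) →
      P (-∫ y, fderiv ℝ φ y (e j) * ((χ y * k y α : ℝ) : ℂ)) =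
      P ((∫ y, φ y * ((fderiv ℝ χ y (e j) * k y α : ℝ) : ℂ)) +
        ∫ y, φ y * ((χ y * k' y α : ℝ) : ℂ)) := by
    intro P hP
    rw [map_neg, map_add, ← P.integral_comp_comm i0, ← P.integral_comp_comm i1,
      ← P.integral_comp_comm i2]
    have k0 := P.integrable_comp i0
    have k1 := P.integrable_comp i1
    have k2 := P.integrable_comp i2
    simp only [hP] at k0 k1 k2 ⊢
    have hPφ : ContDiff ℝ ∞ (fun y => P (φ y)) := P.contDiff.comp hφs
    have hPd : ∀ y v, fderiv ℝ (fun y => P (φ y)) y v = P (fderiv ℝ φ y v) := by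
      intro y v
      have h3 := (P.hasFDerivAt.comp y (hφs.contDiffAt.differentiableAt (by simp) :
        DifferentiableAt ℝ φ y).hasFDerivAt).fderiv
      have h4 : (fun y => P (φ y)) = P ∘ φ := rfl
      rw [h4, h3]; rfl
    have hψt : Test U (fun y => (χ y * P (φ y)) • (EuclideanSpace.single α (1 : ℝ) : Wd ι)) := by
      have := lt_test_cutoff (U := univ) isOpen_univ hχ hc (subset_univ _)
        (f := fun y => P (φ y) • (EuclideanSpace.single α (1 : ℝ) : Wd ι))
        ((hPφ.smul contDiff_const).contDiffOn)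
      refine ⟨by simpa only [smul_smul] using this.1, by simpa only [smul_smul] using this.2.1, ?_⟩
      refine Subset.trans ?_ hs
      apply closure_mono
      intro y hy hz
      exact hy (by simp [hz])
    have h3 := hw _ hψt
    have h4 : ∀ y, fderiv ℝ (fun y => (χ y * P (φ y)) •
        (EuclideanSpace.single α (1 : ℝ) : Wd ι)) y (e j) =
        (χ y * P (fderiv ℝ φ y (e j)) + P (φ y) * fderiv ℝ χ y (e j)) •
          (EuclideanSpace.single α (1 : ℝ) : Wd ι) := by
      intro y
      have d1 : DifferentiableAt ℝ χ y := hχ.contDiffAt.differentiableAt (by simp)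
      have d2 : DifferentiableAt ℝ (fun y => P (φ y)) y :=
        hPφ.contDiffAt.differentiableAt (by simp)
      have h5 : DifferentiableAt ℝ (fun y => χ y * P (φ y)) y := d1.fun_mul d2
      rw [fderiv_smul_const h5, fderiv_fun_mul d1 d2]
      simp [hPd]
    simp only [h4, inner_smul_right, EuclideanSpace.inner_single_right, one_mul,
      conj_trivial] at h3
    have h5 : ∫ y, (χ y * P (fderiv ℝ φ y (e j)) + P (φ y) * fderiv ℝ χ y (e j)) * k y α =
        (∫ y, P (fderiv ℝ φ y (e j)) * (χ y * k y α)) +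
        ∫ y, P (φ y) * (fderiv ℝ χ y (e j) * k y α) := by
      rw [← integral_add k0 k1]
      congr 1
      funext y
      ring
    have h6 : ∫ y, χ y * P (φ y) * k' y α = ∫ y, P (φ y) * (χ y * k' y α) := by
      congr 1
      funext y
      ring
    rw [h5, h6] at h3
    linarith
  apply Complex.ext
  · exact key Complex.reCLM (fun a z => by simp)
  · exact key Complex.imCLM (fun a z => by simp)

open TemperedDistribution in
theorem sob_mem {ι : Type} [Fintype ι] {U : Set (E n)} (m : ℕ) : ∀ {k : E n → Wd ι}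
    (_ : HLoc U m k) {χ : E n → ℝ} (_ : ContDiff ℝ ∞ χ) (_ : HasCompactSupport χ)
    (_ : tsupport χ ⊆ U) (α : ι)
    (h0 : MemLp (fun y => ((χ y * k y α : ℝ) : ℂ)) 2 (volume : Measure (E n))),
    MemSobolev (m : ℝ) 2 ((h0.toLp _ : Lp ℂ 2 (volume : Measure (E n))) : 𝓢'(E n, ℂ)) := by
  induction m with
  | zero =>
    intro k hk χ hχ hc hs α h0
    rw [Nat.cast_zero, memSobolev_zero_iff]
    exact ⟨_, rfl⟩
  | succ m ih =>
    intro k hk χ hχ hc hs α h0
    have hd : ∀ j : Fin n, ContDiff ℝ ∞ (fun y => fderiv ℝ χ y (e j)) := fun j =>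
      (hχ.fderiv_right (m := ∞) (by simp)).clm_apply contDiff_const
    have hdc : ∀ j : Fin n, HasCompactSupport (fun y => fderiv ℝ χ y (e j)) := fun j =>
      hc.fderiv_apply ℝ (e j)
    have hds : ∀ j : Fin n, tsupport (fun y => fderiv ℝ χ y (e j)) ⊆ U := by
      intro j
      refine Subset.trans ?_ hs
      refine Subset.trans ?_ (tsupport_fderiv_subset ℝ (f := χ))
      apply closure_mono
      intro y hy hz
      exact hy (by simp [hz])
    rw [Nat.cast_succ]
    apply sob_step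
    · exact ih (sob_hloc_mono hk) hχ hc hs α h0
    · intro j
      obtain ⟨k', hk', hm⟩ := hk.2 j
      have h1 := sob_memLp hk.1 (hd j).continuous (hdc j) (hds j) α
      have h2 := sob_memLp (lt_hloc_locL2 hm) hχ.continuous hc hs α
      rw [sob_deriv hk.1 (lt_hloc_locL2 hm) hk' hχ hc hs α h0 h1 h2]
      exact (ih (sob_hloc_mono hk) (hd j) (hdc j) (hds j) α h1).add (ih hm hχ hc hs α h2)

theorem smooth_of_HLoc {ι : Type} [Fintype ι] {U : Set (E n)} (hU : IsOpen U) {k : E n → Wd ι}
    (hk : ∀ m, HLoc U m k) : ∃ k' : E n → Wd ι, ContDiffOn ℝ ∞ k' U ∧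
      (∀ᵐ y ∂(volume.restrict U), k y = k' y) := by
  -- local representatives
  have hloc : ∀ x ∈ U, ∃ (V : Set (E n)) (v : E n → Wd ι), IsOpen V ∧ x ∈ V ∧ V ⊆ U ∧
      ContDiff ℝ ∞ v ∧ ∀ᵐ y, y ∈ V → k y = v y := by
    intro x hx
    obtain ⟨r, hr, hball⟩ := Metric.nhds_basis_closedBall.mem_iff.mp (hU.mem_nhds hx)
    let f : ContDiffBump x := ⟨r / 2, r, by positivity, by linarith⟩
    have hf : ContDiff ℝ ∞ f := f.contDiff
    have hfs : tsupport f ⊆ U := by
      rw [f.tsupport_eq]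
      exact hball
    have hm : ∀ α, MemLp (fun y => ((f y * k y α : ℝ) : ℂ)) 2 (volume : Measure (E n)) :=
      fun α => sob_memLp (hk 0) hf.continuous f.hasCompactSupport hfs α
    have hu : ∀ α, ∃ u : E n → ℂ, ContDiff ℝ ∞ u ∧ (∀ᵐ y, (hm α).toLp _ y = u y) := fun α =>
      smooth_of_memSobolev _ (fun m => sob_mem m (hk m) hf f.hasCompactSupport hfs α (hm α))
    choose u hu1 hu2 using hu
    refine ⟨Metric.ball x (r / 2), fun y => WithLp.toLp 2 (fun α => (u α y).re),
      Metric.isOpen_ball, Metric.mem_ball_self (by positivity), ?_, ?_, ?_⟩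
    · refine Subset.trans ?_ hball
      exact Metric.ball_subset_closedBall.trans
        (Metric.closedBall_subset_closedBall (by linarith))
    · rw [contDiff_euclidean]
      intro α
      exact Complex.reCLM.contDiff.comp (hu1 α)
    · have h1 : ∀ᵐ y, ∀ α, ((f y * k y α : ℝ) : ℂ) = u α y := by
        rw [ae_all_iff]
        intro α
        filter_upwards [(hm α).coeFn_toLp, hu2 α] with y hy1 hy2
        rw [← hy1, hy2]
      filter_upwards [h1] with y hy hyV
      ext α
      have h2 : f y = 1 := f.one_of_mem_closedBall (Metric.ball_subset_closedBall hyV)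
      have h3 := hy α
      rw [h2, one_mul] at h3
      change k y α = (u α y).re
      rw [← h3]
      simp
  choose! V v hV hxV hVU hv hae using hloc
  -- any two representatives agree on the overlap
  have hagree : ∀ x ∈ U, ∀ z ∈ U, EqOn (v x) (v z) (V x ∩ V z) := by
    intro x hx z hz
    refine Measure.eqOn_open_of_ae_eq (μ := volume) ?_ ((hV x hx).inter (hV z hz))
      (hv x hx).continuous.continuousOn (hv z hz).continuous.continuousOn
    rw [EventuallyEq, ae_restrict_iff' ((hV x hx).inter (hV z hz)).measurableSet]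
    filter_upwards [hae x hx, hae z hz] with y h1 h2 hy
    rw [← h1 hy.1, ← h2 hy.2]
  refine ⟨fun y => v y y, ?_, ?_⟩
  · intro x hx
    have h1 : (fun y => v y y) =ᶠ[𝓝 x] v x := by
      filter_upwards [(hV x hx).mem_nhds (hxV x hx)] with z hz
      exact hagree z (hVU x hx hz) x hx ⟨hxV z (hVU x hx hz), hz⟩
    exact ((hv x hx).contDiffAt.congr_of_eventuallyEq h1).contDiffWithinAt
  · rw [ae_restrict_iff' hU.measurableSet, ae_iff]
    apply measure_null_of_locally_null
    intro x hx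
    have hxU : x ∈ U := by
      by_contra h
      exact hx (fun h' => absurd h' h)
    refine ⟨V x ∩ {y | ¬ (y ∈ V x → k y = v x y)} ∪ (V x ∩ {y | ¬ (y ∈ U → k y = v y y)}), ?_, ?_⟩
    · have h1 : V x ∈ 𝓝[{a | ¬(a ∈ U → k a = v a a)}] x :=
        mem_nhdsWithin_of_mem_nhds ((hV x hxU).mem_nhds (hxV x hxU))
      filter_upwards [h1, self_mem_nhdsWithin] with y hy1 hy2
      exact Or.inr ⟨hy1, hy2⟩
    · rw [measure_union_null_iff]
      have h2 : volume {y | ¬ (y ∈ V x → k y = v x y)} = 0 := hae x hxU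
      refine ⟨measure_mono_null inter_subset_right h2, measure_mono_null ?_ h2⟩
      rintro y ⟨hy1, hy2⟩ hy3
      apply hy2
      intro hyU
      rw [hy3 hy1]
      exact hagree x hxU y hyU ⟨hy1, hxV y hyU⟩

end ANCO
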