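import Pool.Agent.Helper39.Anco.AbsDefs

/-!
# Abstract Hodge theory, part 1: finiteness of small eigenspaces
-/

open scoped Topology InnerProductSpace
open Filter

noncomputable section
namespace ANCO

section Inner

variable {V : Type} [NormedAddCommGroup V] [InnerProductSpace ℝ V]

theorem eig1_decomp {W : Type} [AddCommGroup W] [Module ℝ W] {D : W →ₗ[ℝ] W} {Λ : ℝ} {v : W}
    (hv : v ∈ Eig D Λ) :
    ∃ f : ℝ →₀ W, (∀ l, Λ < l → f l = 0) ∧ (∀ l, D (D (f l)) = l • f l) ∧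
      ∑ l ∈ f.support, f l = v := by
  rw [Eig, Submodule.mem_iSup_iff_exists_finsupp] at hv
  obtain ⟨f, hf, hsum⟩ := hv
  have h0 : ∀ l, Λ < l → f l = 0 := by
    intro l hl
    have := hf l
    have hn : ¬ l ∈ Set.Iic Λ := by simpa using hl
    simpa [hn] using this
  refine ⟨f, h0, fun l => ?_, hsum⟩
  by_cases hl : l ≤ Λ
  · have := hf l
    have hl' : l ∈ Set.Iic Λ := hl
    simp only [hl', iSup_pos] at this
    rw [LinearMap.mem_ker] at this
    simpa [sub_eq_zero] using this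
  · rw [h0 l (not_le.1 hl)]
    simp

theorem eig1_mem {W : Type} [AddCommGroup W] [Module ℝ W] {D : W →ₗ[ℝ] W} {Λ l : ℝ} (hl : l ≤ Λ)
    {v : W} (hv : D (D v) = l • v) : v ∈ Eig D Λ := by
  have : v ∈ LinearMap.ker (D ∘ₗ D - l • LinearMap.id) := by
    rw [LinearMap.mem_ker]
    simp [hv]
  exact Submodule.mem_iSup_of_mem l (Submodule.mem_iSup_of_mem (show l ∈ Set.Iic Λ from hl) this)

theorem eig1_DD {W : Type} [AddCommGroup W] [Module ℝ W] {D : W →ₗ[ℝ] W} {Λ : ℝ}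
    {v : W} (hv : v ∈ Eig D Λ) : D (D v) ∈ Eig D Λ := by
  obtain ⟨f, h0, hf, hsum⟩ := eig1_decomp hv
  rw [← hsum, map_sum, map_sum]
  refine Submodule.sum_mem _ fun l _ => ?_
  rw [hf l]
  by_cases hl : l ≤ Λ
  · exact Submodule.smul_mem _ _ (eig1_mem hl (hf l))
  · rw [h0 l (not_le.1 hl)]
    simp

theorem eig1_orth {D : V →ₗ[ℝ] V} (hD : ∀ u v : V, ⟪D u, v⟫_ℝ = ⟪u, D v⟫_ℝ) {l m : ℝ}
    (hlm : l ≠ m) {u v : V} (hu : D (D u) = l • u) (hv : D (D v) = m • v) : ⟪u, v⟫_ℝ = 0 := by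
  have h1 : ⟪D (D u), v⟫_ℝ = ⟪u, D (D v)⟫_ℝ := by rw [hD, hD]
  rw [hu, hv, real_inner_smul_left, real_inner_smul_right] at h1
  have h2 : (l - m) * ⟪u, v⟫_ℝ = 0 := by linarith
  rcases mul_eq_zero.1 h2 with h | h
  · exact absurd (sub_eq_zero.1 h) hlm
  · exact h

theorem eig1_nonneg {D : V →ₗ[ℝ] V} (hD : ∀ u v : V, ⟪D u, v⟫_ℝ = ⟪u, D v⟫_ℝ) {l : ℝ}
    (hl : l < 0) {u : V} (hu : D (D u) = l • u) : u = 0 := by
  have h1 : ⟪D (D u), u⟫_ℝ = ⟪D u, D u⟫_ℝ := by rw [hD]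
  rw [hu, real_inner_smul_left, real_inner_self_eq_norm_sq, real_inner_self_eq_norm_sq] at h1
  have h2 : 0 ≤ ‖D u‖ ^ 2 := by positivity
  have h3 : ‖u‖ ^ 2 ≤ 0 := by
    by_contra h
    have := mul_neg_of_neg_of_pos hl (not_le.1 h)
    linarith
  have h4 : ‖u‖ = 0 := by
    have := sq_nonneg ‖u‖
    exact pow_eq_zero_iff (two_ne_zero) |>.1 (le_antisymm h3 this)
  exact norm_eq_zero.1 h4

theorem eig1_norm {D : V →ₗ[ℝ] V} (hD : ∀ u v : V, ⟪D u, v⟫_ℝ = ⟪u, D v⟫_ℝ)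
    (f : ℝ →₀ V) (hf : ∀ l, D (D (f l)) = l • f l) :
    ‖∑ l ∈ f.support, f l‖ ^ 2 = ∑ l ∈ f.support, ‖f l‖ ^ 2 ∧
    ‖D (∑ l ∈ f.support, f l)‖ ^ 2 = ∑ l ∈ f.support, l * ‖f l‖ ^ 2 := by
  classical
  constructor
  · rw [← real_inner_self_eq_norm_sq, sum_inner]
    refine Finset.sum_congr rfl fun l hl => ?_
    rw [inner_sum, Finset.sum_eq_single l]
    · exact real_inner_self_eq_norm_sq _
    · intro m _ hm
      exact eig1_orth hD (Ne.symm hm) (hf l) (hf m)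
    · intro h; exact absurd hl h
  · rw [← real_inner_self_eq_norm_sq, hD, map_sum, map_sum, sum_inner]
    refine Finset.sum_congr rfl fun l hl => ?_
    rw [inner_sum, Finset.sum_eq_single l]
    · rw [hf l, real_inner_smul_right, real_inner_self_eq_norm_sq]
    · intro m _ hm
      rw [hf m, real_inner_smul_right, eig1_orth hD (Ne.symm hm) (hf l) (hf m), mul_zero]
    · intro h; exact absurd hl h

theorem eig1_le {D : V →ₗ[ℝ] V} (hD : ∀ u v : V, ⟪D u, v⟫_ℝ = ⟪u, D v⟫_ℝ)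
    {Λ : ℝ} {v : V} (hv : v ∈ Eig D Λ) : ‖D v‖ ^ 2 ≤ Λ * ‖v‖ ^ 2 := by
  obtain ⟨f, h0, hf, hsum⟩ := eig1_decomp hv
  obtain ⟨h1, h2⟩ := eig1_norm hD f hf
  rw [hsum] at h1 h2
  rw [h1, h2, Finset.mul_sum]
  refine Finset.sum_le_sum fun l _ => ?_
  by_cases hl : l ≤ Λ
  · exact mul_le_mul_of_nonneg_right hl (by positivity)
  · rw [h0 l (not_le.1 hl)]
    simp

theorem eig1_exists_orthonormal {W : Submodule ℝ V} (hW : ¬ FiniteDimensional ℝ W) :
    ∃ u : ℕ → V, Orthonormal ℝ u ∧ ∀ m, u m ∈ W := by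
  let b := Module.Basis.ofVectorSpace ℝ W
  have hinf : Infinite (Module.Basis.ofVectorSpaceIndex ℝ W) := by
    by_contra h
    rw [not_infinite_iff_finite] at h
    exact hW (Module.Finite.of_basis b)
  let em : ℕ ↪ (Module.Basis.ofVectorSpaceIndex ℝ W) := Infinite.natEmbedding _
  let f : ℕ → V := fun m => (b (em m) : V)
  have hli : LinearIndependent ℝ f := by
    have h1 : LinearIndependent ℝ (fun m => b (em m)) := b.linearIndependent.comp em em.injective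
    exact h1.map' W.subtype (Submodule.ker_subtype W)
  refine ⟨InnerProductSpace.gramSchmidtNormed ℝ f, InnerProductSpace.gramSchmidtNormed_orthonormal hli, fun m => ?_⟩
  have h1 : InnerProductSpace.gramSchmidtNormed ℝ f m ∈ Submodule.span ℝ (Set.range f) := by
    rw [← InnerProductSpace.span_gramSchmidt ℝ f, ← InnerProductSpace.span_gramSchmidtNormed_range]
    exact Submodule.subset_span ⟨m, rfl⟩
  refine (Submodule.span_le.2 ?_) h1
  rintro _ ⟨k, rfl⟩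
  exact (b (em k)).2

theorem eig1_finite {D : V →ₗ[ℝ] V} (hD : ∀ u v : V, ⟪D u, v⟫_ℝ = ⟪u, D v⟫_ℝ)
    (hc : ∀ v : ℕ → V, (∀ m, ‖v m‖ ≤ 1) → (∀ m, ‖D (v m)‖ ≤ 1) →
      ∃ φ : ℕ → ℕ, StrictMono φ ∧ CauchySeq (fun m => v (φ m))) (Λ : ℝ) :
    FiniteDimensional ℝ (Eig D Λ) := by
  by_contra hfin
  obtain ⟨u, hu, hmem⟩ := eig1_exists_orthonormal hfin
  set t : ℝ := (1 + |Λ|)⁻¹ with ht
  have htpos : 0 < t := by positivity
  have ht1 : t ≤ 1 := inv_le_one_of_one_le₀ (by linarith [abs_nonneg Λ])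
  have hnorm : ∀ m, ‖t • u m‖ ≤ 1 := by
    intro m
    rw [norm_smul, hu.1 m, Real.norm_of_nonneg htpos.le, mul_one]
    exact ht1
  have hDnorm : ∀ m, ‖D (t • u m)‖ ≤ 1 := by
    intro m
    have h1 := eig1_le hD (hmem m)
    rw [hu.1 m] at h1
    have h2 : ‖D (u m)‖ ^ 2 ≤ (1 + |Λ|) ^ 2 := by
      have := le_abs_self Λ
      have := abs_nonneg Λ
      nlinarith
    have h3 : ‖D (u m)‖ ≤ 1 + |Λ| := by
      have := abs_nonneg Λ
      exact (pow_le_pow_iff_left₀ (norm_nonneg _) (by positivity) two_ne_zero).1 h2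
    rw [map_smul, norm_smul, Real.norm_of_nonneg htpos.le, ht]
    rw [inv_mul_le_iff₀ (by positivity)]
    linarith
  obtain ⟨φ, hφ, hcau⟩ := hc (fun m => t • u m) hnorm hDnorm
  rw [Metric.cauchySeq_iff] at hcau
  obtain ⟨N, hN⟩ := hcau t htpos
  have h1 := hN N le_rfl (N + 1) (Nat.le_succ N)
  have hne : φ N ≠ φ (N + 1) := (hφ (Nat.lt_succ_self N)).ne
  rw [dist_eq_norm, ← smul_sub, norm_smul, Real.norm_of_nonneg htpos.le] at h1
  have h2 : ‖u (φ N) - u (φ (N + 1))‖ ^ 2 = 2 := by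
    rw [norm_sub_sq_real, hu.1, hu.1, hu.2 hne]
    norm_num
  have h3 : 1 < ‖u (φ N) - u (φ (N + 1))‖ := by
    by_contra h
    have h4 : ‖u (φ N) - u (φ (N + 1))‖ ^ 2 ≤ 1 := pow_le_one₀ (norm_nonneg _) (not_lt.1 h)
    linarith
  have h5 : t * 1 < t * ‖u (φ N) - u (φ (N + 1))‖ := mul_lt_mul_of_pos_left h3 htpos
  linarith

end Inner

variable {V : Type} [AddCommGroup V] [Module ℝ V]

/-- the inner product space structure given by a positive definite form -/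
@[reducible] def eig1_core (B : V →ₗ[ℝ] V →ₗ[ℝ] ℝ) (hsymm : ∀ u v, B u v = B v u)
    (hpos : ∀ u, u ≠ 0 → 0 < B u u) : InnerProductSpace.Core ℝ V where
  inner u v := B u v
  conj_inner_symm u v := by simp [hsymm u v]
  re_inner_nonneg u := by
    by_cases h : u = 0
    · simp [h]
    · simpa using (hpos u h).le
  add_left u v w := by simp
  smul_left u v r := by simp
  definite u hu := by
    by_contra h
    exact (hpos u h).ne' hu

theorem eig1_cauchy (B : V →ₗ[ℝ] V →ₗ[ℝ] ℝ) (hsymm : ∀ u v, B u v = B v u)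
    (hpos : ∀ u, u ≠ 0 → 0 < B u u) (v : ℕ → V) :
    letI : NormedAddCommGroup V := (eig1_core B hsymm hpos).toNormedAddCommGroup
    BCauchy B v ↔ CauchySeq v := by
  let _ : NormedAddCommGroup V := (eig1_core B hsymm hpos).toNormedAddCommGroup
  let _ : InnerProductSpace ℝ V := InnerProductSpace.ofCore (eig1_core B hsymm hpos).toCore
  have hB : ∀ u : V, B u u = ‖u‖ ^ 2 := fun u => (real_inner_self_eq_norm_sq u)
  constructor
  · intro h
    rw [Metric.cauchySeq_iff]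
    intro ε hε
    obtain ⟨N, hN⟩ := h (ε ^ 2) (by positivity)
    refine ⟨N, fun a ha b hb => ?_⟩
    have := hN a ha b hb
    rw [hB] at this
    rw [dist_eq_norm]
    exact lt_of_pow_lt_pow_left₀ 2 hε.le this
  · intro h ε hε
    rw [Metric.cauchySeq_iff] at h
    obtain ⟨N, hN⟩ := h (Real.sqrt ε) (Real.sqrt_pos.2 hε)
    refine ⟨N, fun a ha b hb => ?_⟩
    have := hN a ha b hb
    rw [dist_eq_norm] at this
    rw [hB, ← Real.sq_sqrt hε.le]
    exact pow_lt_pow_left₀ this (norm_nonneg _) two_ne_zero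

theorem eig1_cpt (B : V →ₗ[ℝ] V →ₗ[ℝ] ℝ) (hsymm : ∀ u v, B u v = B v u)
    (hpos : ∀ u, u ≠ 0 → 0 < B u u) (D : V →ₗ[ℝ] V) (hc : CptProp B D) :
    letI : NormedAddCommGroup V := (eig1_core B hsymm hpos).toNormedAddCommGroup
    ∀ v : ℕ → V, (∀ m, ‖v m‖ ≤ 1) → (∀ m, ‖D (v m)‖ ≤ 1) →
      ∃ φ : ℕ → ℕ, StrictMono φ ∧ CauchySeq (fun m => v (φ m)) := by
  let _ : NormedAddCommGroup V := (eig1_core B hsymm hpos).toNormedAddCommGroup
  let _ : InnerProductSpace ℝ V := InnerProductSpace.ofCore (eig1_core B hsymm hpos).toCore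
  have hB : ∀ u : V, B u u = ‖u‖ ^ 2 := fun u => (real_inner_self_eq_norm_sq u)
  intro v hv1 hv2
  obtain ⟨φ, hφ, h⟩ := hc v (fun m => by rw [hB]; exact pow_le_one₀ (norm_nonneg _) (hv1 m))
    (fun m => by rw [hB]; exact pow_le_one₀ (norm_nonneg _) (hv2 m))
  exact ⟨φ, hφ, (eig1_cauchy B hsymm hpos _).1 h⟩

theorem eig_finite (B : V →ₗ[ℝ] V →ₗ[ℝ] ℝ) (hsymm : ∀ u v, B u v = B v u)
    (hpos : ∀ u, u ≠ 0 → 0 < B u u) (D : V →ₗ[ℝ] V) (hD : ∀ u v, B (D u) v = B u (D v))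
    (hc : CptProp B D) (Λ : ℝ) : FiniteDimensional ℝ (Eig D Λ) := by
  let _ : NormedAddCommGroup V := (eig1_core B hsymm hpos).toNormedAddCommGroup
  let _ : InnerProductSpace ℝ V := InnerProductSpace.ofCore (eig1_core B hsymm hpos).toCore
  exact eig1_finite hD (eig1_cpt B hsymm hpos D hc) Λ

theorem eig_le (B : V →ₗ[ℝ] V →ₗ[ℝ] ℝ) (hsymm : ∀ u v, B u v = B v u)
    (hpos : ∀ u, u ≠ 0 → 0 < B u u) (D : V →ₗ[ℝ] V) (hD : ∀ u v, B (D u) v = B u (D v))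
    (Λ : ℝ) (v : V) (hv : v ∈ Eig D Λ) : B (D v) (D v) ≤ Λ * B v v := by
  let _ : NormedAddCommGroup V := (eig1_core B hsymm hpos).toNormedAddCommGroup
  let _ : InnerProductSpace ℝ V := InnerProductSpace.ofCore (eig1_core B hsymm hpos).toCore
  have hB : ∀ u : V, B u u = ‖u‖ ^ 2 := fun u => (real_inner_self_eq_norm_sq u)
  rw [hB, hB]
  exact eig1_le hD hv

end ANCO
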