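import Pool.Agent.Helper39.Anco.Abs1

/-!
# Abstract Hodge theory, part 2: spectral gap above the small eigenspaces
-/

open scoped Topology InnerProductSpace
open Filter

noncomputable section
namespace ANCO

section Inner

variable {V : Type} [NormedAddCommGroup V] [InnerProductSpace ℝ V]

/-- The part of the regularity property which we use, in an inner product space. -/
def eig2_Reg (D : V →ₗ[ℝ] V) : Prop :=
  ∀ h k : ℕ → V, CauchySeq h → CauchySeq k → ∀ (c : ℝ) (f : V),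
    (∀ φ, Tendsto (fun m => ⟪h m, D φ⟫_ℝ - ⟪k m, φ⟫_ℝ) atTop (𝓝 0)) →
    (∀ φ, Tendsto (fun m => ⟪k m, D φ⟫_ℝ + c * ⟪h m, φ⟫_ℝ) atTop (𝓝 ⟪f, φ⟫_ℝ)) →
    ∃ v w : V, Tendsto h atTop (𝓝 v) ∧ Tendsto k atTop (𝓝 w)

theorem eig2_sol {D : V →ₗ[ℝ] V} (hD : ∀ u v : V, ⟪D u, v⟫_ℝ = ⟪u, D v⟫_ℝ) (hr : eig2_Reg D)
    {h k : ℕ → V} (hh : CauchySeq h) (hk : CauchySeq k) {c : ℝ} {f : V}
    (h1 : ∀ φ, Tendsto (fun m => ⟪h m, D φ⟫_ℝ - ⟪k m, φ⟫_ℝ) atTop (𝓝 0))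
    (h2 : ∀ φ, Tendsto (fun m => ⟪k m, D φ⟫_ℝ + c * ⟪h m, φ⟫_ℝ) atTop (𝓝 ⟪f, φ⟫_ℝ)) :
    ∃ v : V, Tendsto h atTop (𝓝 v) ∧ D (D v) + c • v = f := by
  obtain ⟨v, w, hv, hw⟩ := hr h k hh hk c f h1 h2
  have e1 : D v = w := by
    have : ∀ φ, ⟪D v - w, φ⟫_ℝ = 0 := by
      intro φ
      have t1 : Tendsto (fun m => ⟪h m, D φ⟫_ℝ - ⟪k m, φ⟫_ℝ) atTop (𝓝 (⟪v, D φ⟫_ℝ - ⟪w, φ⟫_ℝ)) :=
        (hv.inner tendsto_const_nhds).sub (hw.inner tendsto_const_nhds)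
      have := tendsto_nhds_unique t1 (h1 φ)
      rw [inner_sub_left, hD, this]
    have := this (D v - w)
    rw [inner_self_eq_zero, sub_eq_zero] at this
    exact this
  have e2 : D w + c • v = f := by
    have : ∀ φ, ⟪D w + c • v - f, φ⟫_ℝ = 0 := by
      intro φ
      have t1 : Tendsto (fun m => ⟪k m, D φ⟫_ℝ + c * ⟪h m, φ⟫_ℝ) atTop
          (𝓝 (⟪w, D φ⟫_ℝ + c * ⟪v, φ⟫_ℝ)) :=
        (hw.inner tendsto_const_nhds).add ((hv.inner tendsto_const_nhds).const_mul c)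
      have := tendsto_nhds_unique t1 (h2 φ)
      rw [inner_sub_left, inner_add_left, hD, real_inner_smul_left, this, sub_self]
    have := this (D w + c • v - f)
    rw [inner_self_eq_zero, sub_eq_zero] at this
    exact this
  exact ⟨v, hv, by rw [e1, e2]⟩

theorem eig2_expand {D : V →ₗ[ℝ] V} (μ t : ℝ) (u φ : V) :
    ‖D (u + t • φ)‖ ^ 2 - μ * ‖u + t • φ‖ ^ 2 =
      (‖D φ‖ ^ 2 - μ * ‖φ‖ ^ 2) * (t * t) + 2 * (⟪D u, D φ⟫_ℝ - μ * ⟪u, φ⟫_ℝ) * t +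
        (‖D u‖ ^ 2 - μ * ‖u‖ ^ 2) := by
  rw [map_add, map_smul, norm_add_sq_real, norm_add_sq_real, norm_smul, norm_smul,
    real_inner_smul_right, real_inner_smul_right, mul_pow, mul_pow, Real.norm_eq_abs, sq_abs]
  ring

theorem eig2_cs {D : V →ₗ[ℝ] V} {K : Submodule ℝ V} {μ : ℝ}
    (hμ : ∀ u ∈ K, μ * ‖u‖ ^ 2 ≤ ‖D u‖ ^ 2) {u φ : V} (hu : u ∈ K) (hφ : φ ∈ K) :
    (⟪D u, D φ⟫_ℝ - μ * ⟪u, φ⟫_ℝ) ^ 2 ≤
      (‖D φ‖ ^ 2 - μ * ‖φ‖ ^ 2) * (‖D u‖ ^ 2 - μ * ‖u‖ ^ 2) := by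
  have h := discrim_le_zero (a := ‖D φ‖ ^ 2 - μ * ‖φ‖ ^ 2)
    (b := 2 * (⟪D u, D φ⟫_ℝ - μ * ⟪u, φ⟫_ℝ)) (c := ‖D u‖ ^ 2 - μ * ‖u‖ ^ 2) (fun t => by
      rw [← eig2_expand μ t u φ]
      have := hμ (u + t • φ) (K.add_mem hu (K.smul_mem t hφ))
      linarith)
  rw [discrim] at h
  nlinarith

theorem eig2_tendsto_zero {a : ℕ → ℝ} {C : ℝ} (hC : 0 ≤ C)
    (h : ∀ m, a m ^ 2 ≤ C * (1 / ((m : ℝ) + 1))) : Tendsto a atTop (𝓝 0) := by
  have h1 : Tendsto (fun m : ℕ => C * (1 / ((m : ℝ) + 1))) atTop (𝓝 0) := by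
    have := (tendsto_one_div_add_atTop_nhds_zero_nat (𝕜 := ℝ)).const_mul C
    simpa using this
  have h2 : Tendsto (fun m => a m ^ 2) atTop (𝓝 0) :=
    squeeze_zero (fun m => sq_nonneg _) h h1
  have h3 : Tendsto (fun m => |a m|) atTop (𝓝 0) := by
    have := (Real.continuous_sqrt.tendsto 0).comp h2
    simpa [Function.comp_def, Real.sqrt_sq_eq_abs] using this
  exact (tendsto_zero_iff_abs_tendsto_zero a).2 h3

theorem eig2_gap {D : V →ₗ[ℝ] V} (hD : ∀ u v : V, ⟪D u, v⟫_ℝ = ⟪u, D v⟫_ℝ)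
    (hc : ∀ v : ℕ → V, (∀ m, ‖v m‖ ≤ 1) → (∀ m, ‖D (v m)‖ ≤ 1) →
      ∃ φ : ℕ → ℕ, StrictMono φ ∧ CauchySeq (fun m => v (φ m)))
    (hr : eig2_Reg D) (Λ : ℝ) (v : V) (hv : ∀ e ∈ Eig D Λ, ⟪v, e⟫_ℝ = 0) :
    Λ * ‖v‖ ^ 2 ≤ ‖D v‖ ^ 2 := by
  by_contra hlt
  rw [not_le] at hlt
  haveI hfd : FiniteDimensional ℝ (Eig D Λ) := eig1_finite hD hc Λ
  set K : Submodule ℝ V := (Eig D Λ)ᗮ with hK
  have hv0 : v ≠ 0 := by
    rintro rfl
    simp at hlt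
  have hvn : 0 < ‖v‖ := norm_pos_iff.2 hv0
  have hvK : v ∈ K := by
    rw [hK, Submodule.mem_orthogonal]
    intro u hu
    rw [real_inner_comm]
    exact hv u hu
  let S : Set V := {u | u ∈ K ∧ ‖u‖ = 1}
  let T : Set ℝ := (fun u => ‖D u‖ ^ 2) '' S
  have hbdd : BddBelow T := ⟨0, by rintro _ ⟨u, _, rfl⟩; positivity⟩
  have hmemS : ∀ u ∈ K, u ≠ 0 → ‖u‖⁻¹ • u ∈ S := by
    intro u hu hu0
    refine ⟨K.smul_mem _ hu, ?_⟩
    rw [norm_smul, norm_inv, norm_norm, inv_mul_cancel₀ (norm_ne_zero_iff.2 hu0)]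
  have hne : T.Nonempty := ⟨_, _, hmemS v hvK hv0, rfl⟩
  set μ : ℝ := sInf T with hμdef
  have hμ0 : 0 ≤ μ := le_csInf hne (by rintro _ ⟨u, _, rfl⟩; positivity)
  have hscale : ∀ u : V, u ≠ 0 → ‖D (‖u‖⁻¹ • u)‖ ^ 2 = ‖D u‖ ^ 2 / ‖u‖ ^ 2 := by
    intro u hu0
    rw [map_smul, norm_smul, norm_inv, norm_norm, mul_pow, inv_pow]
    field_simp
  have hμ : ∀ u ∈ K, μ * ‖u‖ ^ 2 ≤ ‖D u‖ ^ 2 := by
    intro u hu
    by_cases hu0 : u = 0
    · simp [hu0]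
    have h1 : μ ≤ ‖D (‖u‖⁻¹ • u)‖ ^ 2 := csInf_le hbdd ⟨_, hmemS u hu hu0, rfl⟩
    rw [hscale u hu0] at h1
    have h2 : 0 < ‖u‖ ^ 2 := by
      have := norm_pos_iff.2 hu0
      positivity
    exact (le_div_iff₀ h2).1 h1
  have hμΛ : μ < Λ := by
    have h1 : μ ≤ ‖D (‖v‖⁻¹ • v)‖ ^ 2 := csInf_le hbdd ⟨_, hmemS v hvK hv0, rfl⟩
    rw [hscale v hv0] at h1
    have h2 : 0 < ‖v‖ ^ 2 := by positivity
    exact lt_of_le_of_lt h1 ((div_lt_iff₀ h2).2 hlt)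
  -- minimising sequence
  have hex : ∀ m : ℕ, ∃ u ∈ S, ‖D u‖ ^ 2 < μ + 1 / ((m : ℝ) + 1) := by
    intro m
    have hpos : (0 : ℝ) < 1 / ((m : ℝ) + 1) := by positivity
    obtain ⟨_, ⟨u, hu, rfl⟩, h⟩ := exists_lt_of_csInf_lt hne (show sInf T < μ + 1 / ((m : ℝ) + 1) by
      rw [← hμdef]; linarith)
    exact ⟨u, hu, h⟩
  choose u huS hu using hex
  set R : ℝ := μ + 2 with hR
  have hR1 : 1 ≤ R := by linarith
  have hRpos : 0 < R := by linarith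
  have hDu : ∀ m, ‖D (u m)‖ ≤ R := by
    intro m
    have h1 := hu m
    have h2 : (1 : ℝ) / ((m : ℝ) + 1) ≤ 1 := by
      rw [div_le_one (by positivity)]
      have : (0 : ℝ) ≤ m := Nat.cast_nonneg m
      linarith
    have h3 : ‖D (u m)‖ ^ 2 ≤ R ^ 2 := by nlinarith
    exact (pow_le_pow_iff_left₀ (norm_nonneg _) hRpos.le two_ne_zero).1 h3
  obtain ⟨φ, hφ, hcau⟩ := hc (fun m => R⁻¹ • u m)
    (fun m => by
      rw [norm_smul, (huS m).2, Real.norm_of_nonneg (inv_nonneg.2 hRpos.le), mul_one]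
      exact inv_le_one_of_one_le₀ hR1)
    (fun m => by
      rw [map_smul, norm_smul, Real.norm_of_nonneg (inv_nonneg.2 hRpos.le),
        inv_mul_le_iff₀ hRpos, mul_one]
      exact hDu m)
  set h : ℕ → V := fun m => u (φ m) with hh
  have hhK : ∀ m, h m ∈ K := fun m => (huS (φ m)).1
  have hhn : ∀ m, ‖h m‖ = 1 := fun m => (huS (φ m)).2
  have hhD : ∀ m : ℕ, ‖D (h m)‖ ^ 2 ≤ μ + 1 / ((m : ℝ) + 1) := by
    intro m
    have h1 := (hu (φ m)).le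
    have h2 : m ≤ φ m := hφ.id_le m
    have h3 : (1 : ℝ) / ((φ m : ℝ) + 1) ≤ 1 / ((m : ℝ) + 1) := by
      apply one_div_le_one_div_of_le (by positivity)
      have : (m : ℝ) ≤ φ m := by exact_mod_cast h2
      linarith
    show ‖D (u (φ m))‖ ^ 2 ≤ _
    linarith
  have hcauh : CauchySeq h := by
    rw [Metric.cauchySeq_iff] at hcau ⊢
    intro ε hε
    obtain ⟨N, hN⟩ := hcau (R⁻¹ * ε) (by positivity)
    refine ⟨N, fun a ha b hb => ?_⟩
    have h1 := hN a ha b hb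
    rw [dist_eq_norm, ← smul_sub, norm_smul, Real.norm_of_nonneg (inv_nonneg.2 hRpos.le)] at h1
    rw [dist_eq_norm]
    exact lt_of_mul_lt_mul_left h1 (inv_nonneg.2 hRpos.le)
  have hpar : ∀ a b, ‖D (h a) - D (h b)‖ ^ 2 ≤
      2 * (1 / ((a : ℝ) + 1)) + 2 * (1 / ((b : ℝ) + 1)) + μ * ‖h a - h b‖ ^ 2 := by
    intro a b
    have h1 := hμ (h a + h b) (K.add_mem (hhK a) (hhK b))
    rw [map_add, norm_add_sq_real, norm_add_sq_real, hhn, hhn] at h1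
    rw [norm_sub_sq_real, norm_sub_sq_real, hhn, hhn]
    have h2 := hhD a
    have h3 := hhD b
    nlinarith
  have hcauD : CauchySeq (fun m => D (h m)) := by
    rw [Metric.cauchySeq_iff]
    intro ε hε
    rw [Metric.cauchySeq_iff] at hcauh
    obtain ⟨N, hN⟩ := hcauh (ε / (2 * R)) (by positivity)
    obtain ⟨N', hN'⟩ := exists_nat_one_div_lt (show (0 : ℝ) < ε ^ 2 / 8 by positivity)
    refine ⟨max N N', fun a ha b hb => ?_⟩
    have h1 := hN a (le_trans (le_max_left _ _) ha) b (le_trans (le_max_left _ _) hb)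
    rw [dist_eq_norm] at h1 ⊢
    have h2 : ∀ a : ℕ, N' ≤ a → (1 : ℝ) / ((a : ℝ) + 1) < ε ^ 2 / 8 := by
      intro a ha
      refine lt_of_le_of_lt ?_ hN'
      apply one_div_le_one_div_of_le (by positivity)
      have : (N' : ℝ) ≤ a := by exact_mod_cast ha
      linarith
    have h3 := h2 a (le_trans (le_max_right _ _) ha)
    have h4 := h2 b (le_trans (le_max_right _ _) hb)
    have h5 : μ * ‖h a - h b‖ ^ 2 ≤ ε ^ 2 / 4 := by
      have h6 : ‖h a - h b‖ ^ 2 ≤ (ε / (2 * R)) ^ 2 := pow_le_pow_left₀ (norm_nonneg _) h1.le 2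
      have h7 : μ ≤ R ^ 2 := by nlinarith
      calc μ * ‖h a - h b‖ ^ 2 ≤ R ^ 2 * (ε / (2 * R)) ^ 2 :=
            mul_le_mul h7 h6 (by positivity) (by positivity)
        _ = ε ^ 2 / 4 := by field_simp; ring
    have h8 := hpar a b
    have h9 : ‖D (h a) - D (h b)‖ ^ 2 < ε ^ 2 := by
      have : 0 < ε ^ 2 := by positivity
      linarith
    exact lt_of_pow_lt_pow_left₀ 2 hε.le h9
  obtain ⟨w, hw, hDw⟩ := eig2_sol hD hr hcauh hcauD (c := -μ) (f := 0)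
    (fun ψ => by
      have : (fun m => ⟪h m, D ψ⟫_ℝ - ⟪D (h m), ψ⟫_ℝ) = fun _ => 0 := by
        funext m
        rw [hD, sub_self]
      rw [this]
      exact tendsto_const_nhds)
    (fun ψ => by
      obtain ⟨ψ₁, hψ₁, ψ₂, hψ₂, rfl⟩ := (Eig D Λ).exists_add_mem_mem_orthogonal ψ
      have hz : ∀ m, ∀ e ∈ Eig D Λ, ⟪h m, e⟫_ℝ = 0 := by
        intro m e he
        rw [real_inner_comm]
        exact (Submodule.mem_orthogonal _ _).1 (hhK m) e he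
      have : (fun m => ⟪D (h m), D (ψ₁ + ψ₂)⟫_ℝ + -μ * ⟪h m, ψ₁ + ψ₂⟫_ℝ) =
          fun m => ⟪D (h m), D ψ₂⟫_ℝ - μ * ⟪h m, ψ₂⟫_ℝ := by
        funext m
        rw [map_add, inner_add_right, inner_add_right, hz m _ hψ₁, hD (h m) (D ψ₁),
          hz m _ (eig1_DD hψ₁)]
        ring
      rw [this, inner_zero_left]
      refine eig2_tendsto_zero (C := ‖D ψ₂‖ ^ 2 - μ * ‖ψ₂‖ ^ 2) ?_ ?_
      · have := hμ ψ₂ hψ₂
        linarith
      · intro m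
        refine (eig2_cs hμ (hhK m) hψ₂).trans ?_
        refine mul_le_mul_of_nonneg_left ?_ ?_
        · rw [hhn]
          have := hhD m
          linarith
        · have := hμ ψ₂ hψ₂
          linarith)
  have hwn : ‖w‖ = 1 := by
    have := hw.norm
    simp only [hhn] at this
    exact (tendsto_nhds_unique this tendsto_const_nhds)
  have hwK : w ∈ K := by
    have hcl : IsClosed (K : Set V) := Submodule.isClosed_orthogonal _
    exact hcl.mem_of_tendsto hw (Eventually.of_forall hhK)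
  have hwE : w ∈ Eig D Λ := by
    refine eig1_mem hμΛ.le (l := μ) ?_
    have : D (D w) - μ • w = 0 := by
      rw [← hDw, neg_smul, sub_eq_add_neg]
    exact sub_eq_zero.1 this
  have : ⟪w, w⟫_ℝ = 0 := (Submodule.mem_orthogonal _ _).1 hwK w hwE
  rw [real_inner_self_eq_norm_sq, hwn] at this
  norm_num at this

end Inner

variable {V : Type} [AddCommGroup V] [Module ℝ V]

theorem eig2_tends (B : V →ₗ[ℝ] V →ₗ[ℝ] ℝ) (hsymm : ∀ u v, B u v = B v u)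
    (hpos : ∀ u, u ≠ 0 → 0 < B u u) (v : ℕ → V) (w : V) :
    letI : NormedAddCommGroup V := (eig1_core B hsymm hpos).toNormedAddCommGroup
    BTends B v w ↔ Tendsto v atTop (𝓝 w) := by
  let _ : NormedAddCommGroup V := (eig1_core B hsymm hpos).toNormedAddCommGroup
  let _ : InnerProductSpace ℝ V := InnerProductSpace.ofCore (eig1_core B hsymm hpos).toCore
  have hB : ∀ u : V, B u u = ‖u‖ ^ 2 := fun u => (real_inner_self_eq_norm_sq u)
  show Tendsto (fun m => B (v m - w) (v m - w)) atTop (𝓝 0) ↔ _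
  simp only [hB]
  refine Iff.trans ?_ tendsto_iff_norm_sub_tendsto_zero.symm
  constructor
  · intro h
    have := (Real.continuous_sqrt.tendsto 0).comp h
    simpa [Function.comp_def] using this
  · intro h
    have := h.pow 2
    simpa using this

theorem eig2_reg (B : V →ₗ[ℝ] V →ₗ[ℝ] ℝ) (hsymm : ∀ u v, B u v = B v u)
    (hpos : ∀ u, u ≠ 0 → 0 < B u u) (D : V →ₗ[ℝ] V) (hr : RegProp B D) :
    letI : NormedAddCommGroup V := (eig1_core B hsymm hpos).toNormedAddCommGroup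
    letI : InnerProductSpace ℝ V := InnerProductSpace.ofCore (eig1_core B hsymm hpos).toCore
    eig2_Reg D := by
  let _ : NormedAddCommGroup V := (eig1_core B hsymm hpos).toNormedAddCommGroup
  let _ : InnerProductSpace ℝ V := InnerProductSpace.ofCore (eig1_core B hsymm hpos).toCore
  have hB : ∀ u v : V, B u v = ⟪u, v⟫_ℝ := fun u v => rfl
  intro h k hh hk c f h1 h2
  obtain ⟨v, w, hv, hw⟩ := hr h k ((eig1_cauchy B hsymm hpos _).2 hh)
    ((eig1_cauchy B hsymm hpos _).2 hk) 0 (-1) c 0 0 f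
    (fun φ => by
      have := h1 φ
      rw [map_zero, LinearMap.zero_apply]
      convert! this using 2
      rw [hB, hB, hB]
      ring)
    (fun φ => by
      have := h2 φ
      convert! this using 2
      rw [hB, hB, hB]
      ring)
  exact ⟨v, w, (eig2_tends B hsymm hpos _ _).1 hv, (eig2_tends B hsymm hpos _ _).1 hw⟩

theorem eig_gap (B : V →ₗ[ℝ] V →ₗ[ℝ] ℝ) (hsymm : ∀ u v, B u v = B v u)
    (hpos : ∀ u, u ≠ 0 → 0 < B u u) (D : V →ₗ[ℝ] V) (hD : ∀ u v, B (D u) v = B u (D v))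
    (hc : CptProp B D) (hr : RegProp B D) (Λ : ℝ) (v : V) (hv : ∀ e ∈ Eig D Λ, B v e = 0) :
    Λ * B v v ≤ B (D v) (D v) := by
  let _ : NormedAddCommGroup V := (eig1_core B hsymm hpos).toNormedAddCommGroup
  let _ : InnerProductSpace ℝ V := InnerProductSpace.ofCore (eig1_core B hsymm hpos).toCore
  have hB : ∀ u : V, B u u = ‖u‖ ^ 2 := fun u => (real_inner_self_eq_norm_sq u)
  rw [hB, hB]
  exact eig2_gap hD (eig1_cpt B hsymm hpos D hc) (eig2_reg B hsymm hpos D hr) Λ v hv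

end ANCO
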