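import Pool.Agent.Helper39.Anco.Abs2

/-!
# Abstract Hodge theory, part 3: solving `D (D w) = v`
-/

open scoped Topology InnerProductSpace
open Filter

noncomputable section
namespace ANCO

section Inner

variable {V : Type} [NormedAddCommGroup V] [InnerProductSpace ℝ V]

theorem eig3_fin {D : V →ₗ[ℝ] V} (hD : ∀ u v : V, ⟪D u, v⟫_ℝ = ⟪u, D v⟫_ℝ) {Λ : ℝ} {v : V}
    (hv : v ∈ Eig D Λ) (hv0 : ∀ e ∈ Eig D 0, ⟪v, e⟫_ℝ = 0) : ∃ w, D (D w) = v := by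
  classical
  obtain ⟨f, h0, hf, hsum⟩ := eig1_decomp hv
  have hf0 : f 0 = 0 := by
    have h1 : f 0 ∈ Eig D 0 := eig1_mem le_rfl (hf 0)
    have h2 := hv0 _ h1
    rw [← hsum, sum_inner] at h2
    have h3 : ∑ l ∈ f.support, ⟪f l, f 0⟫_ℝ = ⟪f 0, f 0⟫_ℝ := by
      refine Finset.sum_eq_single 0 ?_ ?_
      · intro m _ hm
        exact eig1_orth hD hm (hf m) (hf 0)
      · intro h
        rw [Finsupp.notMem_support_iff] at h
        rw [h, inner_zero_left]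
    rw [h3] at h2
    exact inner_self_eq_zero.1 h2
  refine ⟨∑ l ∈ f.support, l⁻¹ • f l, ?_⟩
  rw [map_sum, map_sum, ← hsum]
  refine Finset.sum_congr rfl fun l hl => ?_
  rw [map_smul, map_smul, hf l, smul_smul]
  have hl0 : l ≠ 0 := by
    rintro rfl
    exact (Finsupp.mem_support_iff.1 hl) hf0
  rw [inv_mul_cancel₀ hl0, one_smul]

theorem eig3_mono {D : V →ₗ[ℝ] V} {Λ Λ' : ℝ} (h : Λ ≤ Λ') : Eig D Λ ≤ Eig D Λ' := by
  intro v hv
  obtain ⟨f, h0, hf, hsum⟩ := eig1_decomp hv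
  rw [← hsum]
  refine Submodule.sum_mem _ fun l _ => ?_
  by_cases hl : l ≤ Λ
  · exact eig1_mem (hl.trans h) (hf l)
  · rw [h0 l (not_le.1 hl)]
    exact Submodule.zero_mem _

theorem eig3_solve {D : V →ₗ[ℝ] V} (hD : ∀ u v : V, ⟪D u, v⟫_ℝ = ⟪u, D v⟫_ℝ)
    (hc : ∀ v : ℕ → V, (∀ m, ‖v m‖ ≤ 1) → (∀ m, ‖D (v m)‖ ≤ 1) →
      ∃ φ : ℕ → ℕ, StrictMono φ ∧ CauchySeq (fun m => v (φ m)))
    (hr : eig2_Reg D) (v : V) (hv : ∀ e ∈ Eig D 1, ⟪v, e⟫_ℝ = 0) :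
    ∃ w, D (D w) = v := by
  haveI hfd : FiniteDimensional ℝ (Eig D 1) := eig1_finite hD hc 1
  set K : Submodule ℝ V := (Eig D 1)ᗮ with hK
  have hz : ∀ u ∈ K, ∀ e ∈ Eig D 1, ⟪u, e⟫_ℝ = 0 := by
    intro u hu e he
    rw [real_inner_comm]
    exact (Submodule.mem_orthogonal _ _).1 hu e he
  have hgap : ∀ u ∈ K, ‖u‖ ≤ ‖D u‖ := by
    intro u hu
    have h1 := eig2_gap hD hc hr 1 u (hz u hu)
    rw [one_mul] at h1
    exact (pow_le_pow_iff_left₀ (norm_nonneg _) (norm_nonneg _) two_ne_zero).1 h1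
  let J : V → ℝ := fun w => (1 / 2) * ‖D w‖ ^ 2 - ⟪v, w⟫_ℝ
  have hJ : ∀ w, J w = (1 / 2) * ‖D w‖ ^ 2 - ⟪v, w⟫_ℝ := fun w => rfl
  have hlow : ∀ w ∈ K, -(1 / 2) * ‖v‖ ^ 2 ≤ J w := by
    intro w hw
    have h1 := hgap w hw
    have h2 := real_inner_le_norm v w
    have h3 : ‖v‖ * ‖w‖ ≤ ‖v‖ * ‖D w‖ := mul_le_mul_of_nonneg_left h1 (norm_nonneg _)
    rw [hJ]
    nlinarith [sq_nonneg (‖D w‖ - ‖v‖)]
  let T : Set ℝ := J '' (K : Set V)
  have hbdd : BddBelow T := ⟨-(1 / 2) * ‖v‖ ^ 2, by rintro _ ⟨w, hw, rfl⟩; exact hlow w hw⟩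
  have hne : T.Nonempty := ⟨_, 0, K.zero_mem, rfl⟩
  set j : ℝ := sInf T with hj
  have hjle : ∀ w ∈ K, j ≤ J w := fun w hw => csInf_le hbdd ⟨w, hw, rfl⟩
  have hex : ∀ m : ℕ, ∃ u ∈ K, J u < j + 1 / ((m : ℝ) + 1) := by
    intro m
    have hpos : (0 : ℝ) < 1 / ((m : ℝ) + 1) := by positivity
    obtain ⟨_, ⟨u, hu, rfl⟩, h⟩ := exists_lt_of_csInf_lt hne (show sInf T < j + 1 / ((m : ℝ) + 1) by
      rw [← hj]; linarith)
    exact ⟨u, hu, h⟩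
  choose u huK hu using hex
  have hpar : ∀ a b, ‖D (u a) - D (u b)‖ ^ 2 ≤
      4 * (1 / ((a : ℝ) + 1)) + 4 * (1 / ((b : ℝ) + 1)) := by
    intro a b
    have h1 := hjle ((1 / 2 : ℝ) • (u a + u b)) (K.smul_mem _ (K.add_mem (huK a) (huK b)))
    have h2 := hu a
    have h3 := hu b
    rw [hJ] at h1 h2 h3
    rw [map_smul, map_add, norm_smul, mul_pow, norm_add_sq_real, real_inner_smul_right,
      inner_add_right, Real.norm_of_nonneg (by norm_num : (0 : ℝ) ≤ 1 / 2)] at h1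
    rw [norm_sub_sq_real]
    linarith
  have hcauD : CauchySeq (fun m => D (u m)) := by
    rw [Metric.cauchySeq_iff]
    intro ε hε
    obtain ⟨N', hN'⟩ := exists_nat_one_div_lt (show (0 : ℝ) < ε ^ 2 / 8 by positivity)
    refine ⟨N', fun a ha b hb => ?_⟩
    rw [dist_eq_norm]
    have h2 : ∀ a : ℕ, N' ≤ a → (1 : ℝ) / ((a : ℝ) + 1) < ε ^ 2 / 8 := by
      intro a ha
      refine lt_of_le_of_lt ?_ hN'
      apply one_div_le_one_div_of_le (by positivity)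
      have : (N' : ℝ) ≤ a := by exact_mod_cast ha
      linarith
    have h3 := h2 a ha
    have h4 := h2 b hb
    have h8 := hpar a b
    have h9 : ‖D (u a) - D (u b)‖ ^ 2 < ε ^ 2 := by linarith
    exact lt_of_pow_lt_pow_left₀ 2 hε.le h9
  have hcau : CauchySeq u := by
    rw [Metric.cauchySeq_iff] at hcauD ⊢
    intro ε hε
    obtain ⟨N, hN⟩ := hcauD ε hε
    refine ⟨N, fun a ha b hb => ?_⟩
    have h1 := hN a ha b hb
    rw [dist_eq_norm] at h1 ⊢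
    have h2 := hgap (u a - u b) (K.sub_mem (huK a) (huK b))
    rw [map_sub] at h2
    linarith
  obtain ⟨w, _, hDw⟩ := eig2_sol hD hr hcau hcauD (c := 0) (f := v)
    (fun ψ => by
      have : (fun m => ⟪u m, D ψ⟫_ℝ - ⟪D (u m), ψ⟫_ℝ) = fun _ => 0 := by
        funext m
        rw [hD, sub_self]
      rw [this]
      exact tendsto_const_nhds)
    (fun ψ => by
      obtain ⟨ψ₁, hψ₁, ψ₂, hψ₂, rfl⟩ := (Eig D 1).exists_add_mem_mem_orthogonal ψ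
      have h1 : Tendsto (fun m => ⟪D (u m), D ψ₂⟫_ℝ - ⟪v, ψ₂⟫_ℝ) atTop (𝓝 0) := by
        refine eig2_tendsto_zero (C := 2 * ‖D ψ₂‖ ^ 2) (by positivity) ?_
        intro m
        have h := discrim_le_zero (a := (1 / 2) * ‖D ψ₂‖ ^ 2)
          (b := ⟪D (u m), D ψ₂⟫_ℝ - ⟪v, ψ₂⟫_ℝ) (c := J (u m) - j) (fun t => by
            have h1 := hjle (u m + t • ψ₂) (K.add_mem (huK m) (K.smul_mem t hψ₂))
            rw [hJ, map_add, map_smul, norm_add_sq_real, norm_smul, real_inner_smul_right,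
              inner_add_right, real_inner_smul_right, mul_pow, Real.norm_eq_abs, sq_abs] at h1
            rw [hJ]
            linarith)
        rw [discrim] at h
        have h2 : J (u m) - j ≤ 1 / ((m : ℝ) + 1) := by
          have := hu m
          linarith
        have h3 : 2 * ‖D ψ₂‖ ^ 2 * (J (u m) - j) ≤ 2 * ‖D ψ₂‖ ^ 2 * (1 / ((m : ℝ) + 1)) :=
          mul_le_mul_of_nonneg_left h2 (by positivity)
        linarith
      have h2 := h1.add_const ⟪v, ψ₂⟫_ℝ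
      have h3 : (fun m => ⟪D (u m), D (ψ₁ + ψ₂)⟫_ℝ + 0 * ⟪u m, ψ₁ + ψ₂⟫_ℝ) =
          fun m => ⟪D (u m), D ψ₂⟫_ℝ - ⟪v, ψ₂⟫_ℝ + ⟪v, ψ₂⟫_ℝ := by
        funext m
        rw [map_add, inner_add_right, hD (u m) (D ψ₁), hz _ (huK m) _ (eig1_DD hψ₁)]
        ring
      rw [h3, inner_add_right, hv _ hψ₁]
      exact h2)
  exact ⟨w, by rw [← hDw, zero_smul, add_zero]⟩

end Inner

variable {V : Type} [AddCommGroup V] [Module ℝ V]

theorem eig_solve (B : V →ₗ[ℝ] V →ₗ[ℝ] ℝ) (hsymm : ∀ u v, B u v = B v u)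
    (hpos : ∀ u, u ≠ 0 → 0 < B u u) (D : V →ₗ[ℝ] V) (hD : ∀ u v, B (D u) v = B u (D v))
    (hc : CptProp B D) (hr : RegProp B D) (v : V) (hv : ∀ e ∈ Eig D 0, B v e = 0) :
    ∃ w, D (D w) = v := by
  let _ : NormedAddCommGroup V := (eig1_core B hsymm hpos).toNormedAddCommGroup
  let _ : InnerProductSpace ℝ V := InnerProductSpace.ofCore (eig1_core B hsymm hpos).toCore
  have hc' := eig1_cpt B hsymm hpos D hc
  have hr' := eig2_reg B hsymm hpos D hr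
  haveI hfd : FiniteDimensional ℝ (Eig D 1) := eig1_finite hD hc' 1
  obtain ⟨v₁, hv₁, v₂, hv₂, rfl⟩ := (Eig D 1).exists_add_mem_mem_orthogonal v
  have hz : ∀ e ∈ Eig D 1, ⟪v₂, e⟫_ℝ = 0 := by
    intro e he
    rw [real_inner_comm]
    exact (Submodule.mem_orthogonal _ _).1 hv₂ e he
  obtain ⟨w₂, hw₂⟩ := eig3_solve hD hc' hr' v₂ hz
  obtain ⟨w₁, hw₁⟩ := eig3_fin hD hv₁ (fun e he => by
    have h1 : ⟪v₁ + v₂, e⟫_ℝ = 0 := hv e he
    rw [inner_add_left, hz e (eig3_mono zero_le_one he), add_zero] at h1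
    exact h1)
  exact ⟨w₁ + w₂, by rw [map_add, map_add, hw₁, hw₂]⟩

end ANCO
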