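import Mathlib

open scoped Topology
open Filter

noncomputable section
namespace ANCO

variable {V : Type} [AddCommGroup V] [Module ℝ V]

/-- Sum of the eigenspaces of `D²` with eigenvalue `≤ Λ`. -/
def Eig (D : V →ₗ[ℝ] V) (Λ : ℝ) : Submodule ℝ V :=
  ⨆ l ∈ Set.Iic Λ, LinearMap.ker (D ∘ₗ D - l • LinearMap.id)

/-- cycles of degree `p` -/
def cyc (pr : ℕ → V →ₗ[ℝ] V) (d : V →ₗ[ℝ] V) (p : ℕ) : Submodule ℝ V :=
  LinearMap.ker d ⊓ LinearMap.range (pr p)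

/-- boundaries of degree `p` -/
def bnd (pr : ℕ → V →ₗ[ℝ] V) (d : V →ₗ[ℝ] V) : ℕ → Submodule ℝ V
  | 0 => ⊥
  | p + 1 => (LinearMap.range (pr p)).map d

/-- Betti numbers of a graded complex. -/
def bettiA (pr : ℕ → V →ₗ[ℝ] V) (d : V →ₗ[ℝ] V) (p : ℕ) : ℕ :=
  Module.finrank ℝ (cyc pr d p ⧸ (bnd pr d p).submoduleOf (cyc pr d p))

/-- `B`-Cauchy sequences -/
def BCauchy (B : V →ₗ[ℝ] V →ₗ[ℝ] ℝ) (v : ℕ → V) : Prop :=
  ∀ ε > 0, ∃ N, ∀ a ≥ N, ∀ b ≥ N, B (v a - v b) (v a - v b) < ε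

/-- `B`-convergence -/
def BTends (B : V →ₗ[ℝ] V →ₗ[ℝ] ℝ) (v : ℕ → V) (w : V) : Prop :=
  Tendsto (fun m => B (v m - w) (v m - w)) atTop (𝓝 0)

/-- Compactness property of a symmetric first order elliptic operator. -/
def CptProp (B : V →ₗ[ℝ] V →ₗ[ℝ] ℝ) (D : V →ₗ[ℝ] V) : Prop :=
  ∀ v : ℕ → V, (∀ m, B (v m) (v m) ≤ 1) → (∀ m, B (D (v m)) (D (v m)) ≤ 1) →
    ∃ φ : ℕ → ℕ, StrictMono φ ∧ BCauchy B (fun m => v (φ m))

/-- Regularity property of a symmetric first order elliptic operator: weak solutions of the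
`2 × 2` systems with smooth right hand side are smooth. -/
def RegProp (B : V →ₗ[ℝ] V →ₗ[ℝ] ℝ) (D : V →ₗ[ℝ] V) : Prop :=
  ∀ h k : ℕ → V, BCauchy B h → BCauchy B k → ∀ (a b c e : ℝ) (f₁ f₂ : V),
    (∀ φ, Tendsto (fun m => B (h m) (D φ) + a * B (h m) φ + b * B (k m) φ) atTop (𝓝 (B f₁ φ))) →
    (∀ φ, Tendsto (fun m => B (k m) (D φ) + c * B (h m) φ + e * B (k m) φ) atTop (𝓝 (B f₂ φ))) →
    ∃ v w : V, BTends B h v ∧ BTends B k w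

/-- Abstract data of a graded complex with adjoint, total degree `≤ n`. -/
structure GrCplx (V : Type) [AddCommGroup V] [Module ℝ V] (n : ℕ) where
  B : V →ₗ[ℝ] V →ₗ[ℝ] ℝ
  symm : ∀ u v, B u v = B v u
  pos : ∀ u, u ≠ 0 → 0 < B u u
  pr : ℕ → V →ₗ[ℝ] V
  pr_pr : ∀ p q v, pr p (pr q v) = if p = q then pr p v else 0
  pr_sum : ∀ v, ∑ p ∈ Finset.range (n + 1), pr p v = v
  pr_symm : ∀ p u v, B (pr p u) v = B u (pr p v)
  d : V →ₗ[ℝ] V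
  de : V →ₗ[ℝ] V
  d_d : ∀ v, d (d v) = 0
  adj : ∀ u v, B (d u) v = B u (de v)
  d_pr : ∀ p v, pr (p + 1) (d v) = d (pr p v)
  d_pr0 : ∀ v, pr 0 (d v) = 0

/-- The Dirac type operator `D = d + d^*`. -/
def GrCplx.D {n : ℕ} (C : GrCplx V n) : V →ₗ[ℝ] V := C.d + C.de

/-- The part of degree `p` of the small eigenspace. -/
def GrCplx.Ep {n : ℕ} (C : GrCplx V n) (Λ : ℝ) (p : ℕ) : Submodule ℝ V :=
  Eig C.D Λ ⊓ LinearMap.range (C.pr p)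

end ANCO
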