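import Pool.Agent.Helper39.Anco.Fock1

open scoped ContDiff Topology Manifold InnerProductSpace
open Set MeasureTheory

set_option maxSynthPendingDepth 3

noncomputable section
namespace ANCO

variable {n : ℕ}

theorem act_expand (v : E n) : v = ∑ i, v i • e i := by
  ext j
  simp [e, Pi.single_apply]

theorem act_apply (A : E n →L[ℝ] E n) (x : X n) :
    act A x = ∑ k, ∑ l, (A (e k)) l • eps k (iota l x) := by
  simp [act]

theorem act_epsv_apply (α : E n →L[ℝ] ℝ) (x : X n) : epsv α x = ∑ i, α (e i) • eps i x := by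
  simp [epsv]

theorem act_iotav_apply (v : E n) (x : X n) : iotav v x = ∑ i, v i • iota i x := by
  simp [iotav]

theorem act_coord (v : E n) (i : Fin n) : ⟪e i, v⟫_ℝ = v i := by
  simp [e, EuclideanSpace.inner_single_left]

theorem act_inner_iota (i : Fin n) (x y : X n) : ⟪iota i x, y⟫_ℝ = ⟪x, eps i y⟫_ℝ := by
  rw [real_inner_comm, ← inner_eps, real_inner_comm]

theorem inner_act (A : E n →L[ℝ] E n) (hA : ∀ u v, ⟪A u, v⟫_ℝ = -⟪u, A v⟫_ℝ) (x y : X n) :
    ⟪act A x, y⟫_ℝ = -⟪x, act A y⟫_ℝ := by
  have hskew : ∀ k l, (A (e k)) l = -(A (e l)) k := by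
    intro k l
    rw [← act_coord, ← act_coord, real_inner_comm, hA]
  rw [act_apply, act_apply, sum_inner, inner_sum, ← Finset.sum_neg_distrib]
  simp only [sum_inner, inner_sum, inner_smul_left, inner_smul_right]
  rw [Finset.sum_comm]
  refine Finset.sum_congr rfl (fun k _ => ?_)
  rw [← Finset.sum_neg_distrib]
  refine Finset.sum_congr rfl (fun l _ => ?_)
  rw [inner_eps, act_inner_iota, hskew]
  simp

theorem iota_act (A : E n →L[ℝ] E n) (i : Fin n) (x : X n) :
    iota i (act A x) = act A (iota i x) + iotav (A (e i)) x := by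
  have h : ∀ k l, iota i (eps k (iota l x)) =
      eps k (iota l (iota i x)) + if k = i then iota l x else 0 := by
    intro k l
    have h1 := eps_iota k i (iota l x)
    have h2 := iota_iota i l x
    rw [h2, map_neg] at h1
    rw [← h1]
    abel
  rw [act_apply, act_apply, act_iotav_apply, map_sum]
  simp only [map_sum, map_smul, h, smul_add, Finset.sum_add_distrib]
  congr 1
  rw [Finset.sum_eq_single i]
  · simp
  · intro k _ hk
    simp [hk]
  · simp

theorem act_eps_one (A : E n →L[ℝ] E n) (j : Fin n) (x : X n) :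
    act A (eps j x) = eps j (act A x) + ∑ k, (A (e k)) j • eps k x := by
  have h : ∀ k l, eps k (iota l (eps j x)) =
      eps j (eps k (iota l x)) + if j = l then eps k x else 0 := by
    intro k l
    have h1 := eps_iota j l x
    have h2 : iota l (eps j x) = (if j = l then x else 0) - eps j (iota l x) := by
      rw [← h1]; abel
    rw [h2, map_sub, eps_eps k j]
    split_ifs <;> simp [add_comm]
  rw [act_apply, act_apply, map_sum]
  simp only [map_sum, map_smul, h, smul_add, Finset.sum_add_distrib]
  congr 1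
  refine Finset.sum_congr rfl (fun k _ => ?_)
  rw [Finset.sum_eq_single j]
  · simp
  · intro l _ hl
    simp [Ne.symm hl]
  · simp

theorem act_eps (A : E n →L[ℝ] E n) (α : E n →L[ℝ] ℝ) (x : X n) :
    act A (epsv α x) = epsv α (act A x) + epsv (α ∘L A) x := by
  have hα : ∀ k, (α ∘L A) (e k) = ∑ l, (A (e k)) l * α (e l) := by
    intro k
    change α (A (e k)) = _
    conv_lhs => rw [act_expand (A (e k))]
    simp [map_sum, map_smul]
  rw [act_epsv_apply, act_epsv_apply, act_epsv_apply, map_sum]
  simp only [map_smul, act_eps_one, smul_add, Finset.sum_add_distrib, hα, Finset.sum_smul,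
    Finset.smul_sum, smul_smul]
  congr 1
  rw [Finset.sum_comm]
  refine Finset.sum_congr rfl (fun k _ => Finset.sum_congr rfl (fun l _ => ?_))
  rw [mul_comm]

theorem act_vac (A : E n →L[ℝ] E n) : act A (eX ∅) = 0 := by
  rw [act_apply]
  refine Finset.sum_eq_zero (fun k _ => Finset.sum_eq_zero (fun l _ => ?_))
  rw [iota_eX]
  simp

end ANCO
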