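import Pool.Agent.Helper39.Anco.Fock

/-!
# Degree projections and parity on Fock space
-/

open scoped ContDiff Topology Manifold InnerProductSpace
open Set MeasureTheory

set_option maxSynthPendingDepth 3

noncomputable section
namespace ANCO

variable {n : ℕ}

theorem prj_apply (p : ℕ) (x : X n) (I : Finset (Fin n)) :
    prj p x I = if I.card = p then x I else 0 := rfl

private theorem fock2_eps (i : Fin n) (x : X n) (J : Finset (Fin n)) :
    eps i x J = if i ∈ J then sg i J * x (J.erase i) else 0 := rfl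

private theorem fock2_iota (i : Fin n) (x : X n) (J : Finset (Fin n)) :
    iota i x J = if i ∈ J then 0 else sg i J * x (insert i J) := rfl

private theorem fock2_par (x : X n) (J : Finset (Fin n)) :
    par x J = (-1) ^ J.card * x J := rfl

private theorem fock2_eX (I J : Finset (Fin n)) : (eX I : X n) J = if J = I then 1 else 0 := by
  simp [eX]

private theorem fock2_inner (x y : X n) : ⟪x, y⟫_ℝ = ∑ J, x J * y J := by
  rw [PiLp.inner_apply]
  refine Finset.sum_congr rfl fun J _ => ?_
  simp [mul_comm]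

theorem prj_eX (p : ℕ) (I : Finset (Fin n)) :
    prj p (eX I) = if I.card = p then eX I else 0 := by
  ext J
  rw [prj_apply, fock2_eX]
  by_cases hI : I.card = p
  · rw [if_pos hI, fock2_eX]
    by_cases hJ : J = I
    · rw [hJ, if_pos hI]
    · rw [if_neg hJ, ite_self]
  · rw [if_neg hI]
    by_cases hJ : J = I
    · rw [hJ, if_neg hI]; rfl
    · rw [if_neg hJ, ite_self]; rfl

theorem prj_prj (p q : ℕ) (x : X n) : prj p (prj q x) = if p = q then prj p x else 0 := by
  ext J
  rw [prj_apply, prj_apply]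
  by_cases h : p = q
  · rw [if_pos h, prj_apply, h]
    split_ifs <;> rfl
  · rw [if_neg h]
    show _ = (0 : ℝ)
    by_cases hp : J.card = p
    · rw [if_pos hp, if_neg (fun hq => h (hp.symm.trans hq))]
    · rw [if_neg hp]

theorem prj_of_lt (p : ℕ) (hp : n < p) (x : X n) : prj p x = 0 := by
  ext J
  rw [prj_apply, if_neg]
  · rfl
  · have := Finset.card_le_univ J
    rw [Fintype.card_fin] at this
    omega

theorem sum_prj (x : X n) : ∑ p ∈ Finset.range (n + 1), prj p x = x := by
  ext J
  have h1 : (∑ p ∈ Finset.range (n + 1), prj p x) J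
      = ∑ p ∈ Finset.range (n + 1), (prj p x) J := by
    simp
  rw [h1]
  simp only [prj_apply]
  rw [Finset.sum_ite_eq, if_pos]
  have := Finset.card_le_univ J
  rw [Fintype.card_fin] at this
  exact Finset.mem_range.2 (by omega)

theorem inner_prj (p : ℕ) (x y : X n) : ⟪prj p x, y⟫_ℝ = ⟪x, prj p y⟫_ℝ := by
  rw [fock2_inner, fock2_inner]
  refine Finset.sum_congr rfl fun J _ => ?_
  rw [prj_apply, prj_apply]
  split_ifs <;> simp

theorem prj_eps (p : ℕ) (i : Fin n) (x : X n) : prj (p + 1) (eps i x) = eps i (prj p x) := by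
  ext J
  rw [prj_apply, fock2_eps, fock2_eps, prj_apply]
  by_cases hi : i ∈ J
  · rw [if_pos hi, if_pos hi]
    have h1 := Finset.card_erase_add_one hi
    by_cases hp : J.card = p + 1
    · rw [if_pos hp, if_pos (by omega)]
    · rw [if_neg hp, if_neg (by omega), mul_zero]
  · rw [if_neg hi, if_neg hi, ite_self]

theorem prj_zero_eps (i : Fin n) (x : X n) : prj 0 (eps i x) = 0 := by
  ext J
  rw [prj_apply, fock2_eps]
  by_cases hi : i ∈ J
  · rw [if_neg (Finset.card_ne_zero_of_mem hi)]; rfl
  · rw [if_neg hi, ite_self]; rfl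

theorem prj_iota (p : ℕ) (i : Fin n) (x : X n) : prj p (iota i x) = iota i (prj (p + 1) x) := by
  ext J
  rw [prj_apply, fock2_iota, fock2_iota, prj_apply]
  by_cases hi : i ∈ J
  · rw [if_pos hi, if_pos hi, ite_self]
  · rw [if_neg hi, if_neg hi]
    have h1 := Finset.card_insert_of_notMem hi
    by_cases hp : J.card = p
    · rw [if_pos hp, if_pos (by omega)]
    · rw [if_neg hp, if_neg (by omega), mul_zero]

theorem par_par (x : X n) : par (par x) = x := by
  ext J
  rw [fock2_par, fock2_par, ← mul_assoc, ← mul_pow]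
  simp

theorem par_eps (i : Fin n) (x : X n) : par (eps i x) = -eps i (par x) := by
  ext J
  show par (eps i x) J = -(eps i (par x) J)
  rw [fock2_par, fock2_eps, fock2_eps, fock2_par]
  by_cases hi : i ∈ J
  · rw [if_pos hi, if_pos hi, ← Finset.card_erase_add_one hi, pow_succ]
    ring
  · rw [if_neg hi, if_neg hi, mul_zero, neg_zero]

theorem par_iota (i : Fin n) (x : X n) : par (iota i x) = -iota i (par x) := by
  ext J
  show par (iota i x) J = -(iota i (par x) J)
  rw [fock2_par, fock2_iota, fock2_iota, fock2_par]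
  by_cases hi : i ∈ J
  · rw [if_pos hi, if_pos hi, mul_zero, neg_zero]
  · rw [if_neg hi, if_neg hi, Finset.card_insert_of_notMem hi, pow_succ]
    ring

theorem par_prj (p : ℕ) (x : X n) : par (prj p x) = (-1 : ℝ) ^ p • prj p x := by
  ext J
  show par (prj p x) J = (-1 : ℝ) ^ p * prj p x J
  rw [fock2_par, prj_apply]
  by_cases hp : J.card = p
  · rw [hp]
  · rw [if_neg hp, mul_zero, mul_zero]

theorem inner_par (x y : X n) : ⟪par x, y⟫_ℝ = ⟪x, par y⟫_ℝ := by
  rw [fock2_inner, fock2_inner]
  refine Finset.sum_congr rfl fun J _ => ?_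
  rw [fock2_par, fock2_par]
  ring

theorem prj_zero_eq (x : X n) : prj 0 x = x ∅ • eX ∅ := by
  ext J
  show prj 0 x J = x ∅ * (eX ∅ : X n) J
  rw [prj_apply, fock2_eX]
  by_cases hJ : J = ∅
  · rw [hJ]; simp
  · rw [if_neg hJ, if_neg (fun h => hJ (Finset.card_eq_zero.1 h)), mul_zero]

end ANCO
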