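import Pool.Agent.Helper39.Anco.Rho
import Pool.Agent.Helper39.Anco.Act

/-!
Derivative of the pull-back.
-/

open scoped ContDiff Topology Manifold InnerProductSpace
open Set MeasureTheory

set_option maxSynthPendingDepth 3

noncomputable section
namespace ANCO

variable {n : ℕ}

theorem rho_contDiff : ContDiff ℝ ∞ (rho : (E n →L[ℝ] E n) → (X n →L[ℝ] X n)) := by
  rw [contDiff_clm_apply_iff]
  intro x
  simp only [rho_apply]
  refine ContDiff.sum (fun p _ => ?_)
  rw [contDiff_euclidean]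
  intro I
  set w : Alt n p := dec p (prj p x) with hw
  by_cases h : I.card = p
  · have h1 : (fun b : E n →L[ℝ] E n => (cmp p (w.compContinuousLinearMap b)) I) =
        fun b => w (fun a => b (e (I.orderEmbOfFin h a))) := by
      funext b
      simp [cmp, h]
      rfl
    rw [h1]
    have h2 : ContDiff ℝ ∞ (fun v : Fin p → E n => w v) :=
      w.toContinuousMultilinearMap.contDiff
    refine h2.comp ?_
    rw [contDiff_pi]
    intro a
    exact (ContinuousLinearMap.apply ℝ (E n) (e (I.orderEmbOfFin h a))).contDiff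
  · have h1 : (fun b : E n →L[ℝ] E n => (cmp p (w.compContinuousLinearMap b)) I) =
        fun b => 0 := by
      funext b
      simp [cmp, h]
    rw [h1]
    exact contDiff_const

theorem rhod_curve (b B : E n →L[ℝ] E n) : HasDerivAt (fun t : ℝ => rho (b + t • B))
    (fderiv ℝ (rho : (E n →L[ℝ] E n) → (X n →L[ℝ] X n)) b B) 0 := by
  have h1 : HasFDerivAt (rho : (E n →L[ℝ] E n) → (X n →L[ℝ] X n)) (fderiv ℝ rho b)
      (b + (0:ℝ) • B) := by
    rw [zero_smul, add_zero]
    exact (rho_contDiff.differentiable (by simp) b).hasFDerivAt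
  have h2 : HasDerivAt (fun t : ℝ => b + t • B) B 0 := by
    simpa using ((hasDerivAt_id (0:ℝ)).smul_const B).const_add b
  exact h1.comp_hasDerivAt (0:ℝ) h2

theorem rhod_curve_apply (b B : E n →L[ℝ] E n) (x : X n) :
    HasDerivAt (fun t : ℝ => rho (b + t • B) x)
    (fderiv ℝ (rho : (E n →L[ℝ] E n) → (X n →L[ℝ] X n)) b B x) 0 := by
  have h := (rhod_curve b B).clm_apply (hasDerivAt_const (0:ℝ) x)
  simpa using h

theorem rhod_eps (A : E n →L[ℝ] E n) (α : E n →L[ℝ] ℝ) (x : X n) :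
    fderiv ℝ (rho : (E n →L[ℝ] E n) → (X n →L[ℝ] X n)) (ContinuousLinearMap.id ℝ (E n)) A
      (epsv α x) = epsv α (fderiv ℝ (rho : (E n →L[ℝ] E n) → (X n →L[ℝ] X n))
      (ContinuousLinearMap.id ℝ (E n)) A x) + epsv (α ∘L A) x := by
  have h1 := rhod_curve_apply (ContinuousLinearMap.id ℝ (E n)) A (epsv α x)
  have h2 : (fun t : ℝ => rho (ContinuousLinearMap.id ℝ (E n) + t • A) (epsv α x)) =
      fun t => ∑ i, (α (e i) + t * α (A (e i))) •
        eps i (rho (ContinuousLinearMap.id ℝ (E n) + t • A) x) := by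
    funext t
    rw [rho_epsv, act_epsv_apply]
    refine Finset.sum_congr rfl (fun i _ => ?_)
    congr 1
    simp
  rw [h2] at h1
  have h3 : HasDerivAt (fun t : ℝ => ∑ i, (α (e i) + t * α (A (e i))) •
        eps i (rho (ContinuousLinearMap.id ℝ (E n) + t • A) x))
      (∑ i, ((α (e i) + 0 * α (A (e i))) • eps i (fderiv ℝ
        (rho : (E n →L[ℝ] E n) → (X n →L[ℝ] X n)) (ContinuousLinearMap.id ℝ (E n)) A x) +
        α (A (e i)) • eps i (rho (ContinuousLinearMap.id ℝ (E n) + (0:ℝ) • A) x))) 0 := by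
    refine HasDerivAt.fun_sum (fun i _ => ?_)
    refine HasDerivAt.fun_smul ?_ ?_
    · simpa using ((hasDerivAt_id (0:ℝ)).mul_const (α (A (e i)))).const_add (α (e i))
    · exact (eps i : X n →L[ℝ] X n).hasFDerivAt.comp_hasDerivAt (0:ℝ)
        (rhod_curve_apply (ContinuousLinearMap.id ℝ (E n)) A x)
  rw [h1.unique h3, act_epsv_apply, act_epsv_apply, ← Finset.sum_add_distrib]
  refine Finset.sum_congr rfl (fun i _ => ?_)
  rw [zero_mul, add_zero, zero_smul, add_zero, rho_id]
  rfl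

theorem rho_fderiv_id (A : E n →L[ℝ] E n) :
    fderiv ℝ (rho : (E n →L[ℝ] E n) → (X n →L[ℝ] X n)) (ContinuousLinearMap.id ℝ (E n)) A = act A := by
  set D := fderiv ℝ (rho : (E n →L[ℝ] E n) → (X n →L[ℝ] X n)) (ContinuousLinearMap.id ℝ (E n)) A
    with hD
  ext1 x
  let S : Submodule ℝ (X n) := LinearMap.ker (D - act A : X n →L[ℝ] X n).toLinearMap
  have hS : ∀ y, y ∈ S ↔ D y = act A y := by
    intro y
    change D y - act A y = 0 ↔ _
    rw [sub_eq_zero]
  rw [← hS]
  refine rho_span ?_ ?_ x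
  · rw [hS, act_vac]
    have h1 := rhod_curve_apply (ContinuousLinearMap.id ℝ (E n)) A (eX ∅)
    simp only [rho_vac] at h1
    exact h1.unique (hasDerivAt_const (0:ℝ) _)
  · intro i y hy
    rw [hS] at hy ⊢
    rw [← epsv_proj, rhod_eps, act_eps, ← hD, hy]

/-- Derivative of `rho` at `b` in the direction `b ∘ A`. -/
theorem rho_fderiv_right (b A : E n →L[ℝ] E n) :
    fderiv ℝ (rho : (E n →L[ℝ] E n) → (X n →L[ℝ] X n)) b (b ∘L A) = act A ∘L rho b := by
  ext1 x
  have h1 := rhod_curve_apply b (b ∘L A) x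
  have h2 := rhod_curve_apply (ContinuousLinearMap.id ℝ (E n)) A (rho b x)
  rw [rho_fderiv_id] at h2
  have h3 : (fun t : ℝ => rho (b + t • (b ∘L A)) x) =
      fun t => rho (ContinuousLinearMap.id ℝ (E n) + t • A) (rho b x) := by
    funext t
    rw [← rho_comp]
    congr 1
    ext v
    simp
  rw [h3] at h1
  exact h1.unique h2

/-- Derivative of `rho` at `b` in the direction `A ∘ b`. -/
theorem rho_fderiv_left (b A : E n →L[ℝ] E n) :
    fderiv ℝ (rho : (E n →L[ℝ] E n) → (X n →L[ℝ] X n)) b (A ∘L b) = rho b ∘L act A := by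
  ext1 x
  have h1 := rhod_curve_apply b (A ∘L b) x
  have h2 := (rho b).hasFDerivAt.comp_hasDerivAt (0:ℝ)
    (rhod_curve_apply (ContinuousLinearMap.id ℝ (E n)) A x)
  rw [rho_fderiv_id] at h2
  have h3 : (fun t : ℝ => rho (b + t • (A ∘L b)) x) =
      (rho b) ∘ fun t => rho (ContinuousLinearMap.id ℝ (E n) + t • A) x := by
    funext t
    change _ = rho b (rho _ x)
    rw [← rho_comp]
    congr 1
  rw [h3] at h1
  exact h1.unique h2

end ANCO
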