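import Pool.Agent.Helper39.Anco.Tr
import Pool.Agent.Helper39.Anco.RhoD
import Pool.Agent.Helper39.Anco.Fock2

/-! ANCO module CLOSA: closure properties of the space of total forms. -/

open scoped ContDiff Topology Manifold InnerProductSpace
open Set MeasureTheory Filter

set_option maxSynthPendingDepth 3

noncomputable section
namespace ANCO

variable {n : ℕ} {M : Type} [TopologicalSpace M] [ChartedSpace (E n) M]

theorem prT_mem (p : ℕ) {s : M → E n → X n} (hs : s ∈ TForm n M) : prT p s ∈ TForm n M := by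
  obtain ⟨h1, h2, h3⟩ := hs
  refine ⟨fun x y hy => ?_, fun x => ?_, fun x x' y hy => ?_⟩
  · simp [prT, h1 x y hy]
  · exact (prj p).contDiff.comp_contDiffOn (h2 x)
  · rw [prT, prT, h3 x x' y hy, prj_rho]

theorem mulT_mem {f : M → ℝ} (hf : IsSm n M f) {s : M → E n → X n} (hs : s ∈ TForm n M) :
    mulT f s ∈ TForm n M := by
  obtain ⟨h1, h2, h3⟩ := hs
  refine ⟨fun x y hy => ?_, fun x => ?_, fun x x' y hy => ?_⟩
  · simp [mulT, h1 x y hy]
  · exact (hf x).smul (h2 x)
  · rw [mulT, mulT, h3 x x' y hy, map_smul, tr_symm_apply hy]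

theorem fnT_mem {f : M → ℝ} (hf : IsSm n M f) : fnT f ∈ TForm n M := by
  refine ⟨fun x y hy => ?_, fun x => ?_, fun x x' y hy => ?_⟩
  · simp [fnT, hy]
  · refine ((hf x).smul contDiffOn_const (g := fun _ => (eX ∅ : X n))).congr ?_
    intro y hy
    simp [fnT, hy]
  · rw [fnT, fnT, if_pos (mem_tr_source.1 hy).1, if_pos (mem_tr_source.1 (tr_mem hy)).1, map_smul,
      rho_vac, tr_symm_apply hy]

theorem extT_mem [IsManifold (𝓡 n) ∞ M] [T2Space M] (x : M) {w : E n → X n}
    (hw : ContDiff ℝ ∞ w) (hc : HasCompactSupport w) (hs : tsupport w ⊆ tgt n M x) :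
    extT x w ∈ TForm n M := by
  refine ⟨fun x' y hy => ?_, fun x' => ?_, fun x' x'' y hy => ?_⟩
  · rw [extT, if_neg]
    exact fun h => hy (mem_tr_source.1 h).1
  · intro y hy
    refine ContDiffAt.contDiffWithinAt ?_
    by_cases h : y ∈ (tr n M x' x).source
    · have hU : (tr n M x' x).source ∈ 𝓝 y := (tr n M x' x).open_source.mem_nhds h
      have h1 : ContDiffAt ℝ ∞ (tr n M x' x) y := (tr_smooth x' x).contDiffAt hU
      have h2 : ContDiffAt ℝ ∞ (fun y => fderiv ℝ (tr n M x' x) y) y :=
        h1.fderiv_right (by simp)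
      have h3 : ContDiffAt ℝ ∞ (fun y => rho (fderiv ℝ (tr n M x' x) y)) y :=
        rho_contDiff.contDiffAt.comp y h2
      have h4 : ContDiffAt ℝ ∞ (fun y => w (tr n M x' x y)) y := hw.contDiffAt.comp y h1
      refine (h3.clm_apply h4).congr_of_eventuallyEq ?_
      filter_upwards [hU] with z hz
      rw [extT, if_pos hz]
    · have hK : IsClosed ((chartAt (E n) x).symm '' tsupport w) := by
        have : IsCompact ((chartAt (E n) x).symm '' tsupport w) :=
          hc.isCompact.image_of_continuousOn ((chartAt (E n) x).continuousOn_symm.mono hs)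
        exact this.isClosed
      have hopen : IsOpen (tgt n M x' ∩ (chartAt (E n) x').symm ⁻¹'
          ((chartAt (E n) x).symm '' tsupport w)ᶜ) :=
        (chartAt (E n) x').continuousOn_symm.isOpen_inter_preimage (chartAt (E n) x').open_target
          hK.isOpen_compl
      have hmem : y ∈ tgt n M x' ∩ (chartAt (E n) x').symm ⁻¹'
          ((chartAt (E n) x).symm '' tsupport w)ᶜ := by
        refine ⟨hy, ?_⟩
        rintro ⟨z, hz, hzy⟩
        apply h
        rw [mem_tr_source]
        refine ⟨hy, ?_⟩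
        rw [← hzy]
        exact (chartAt (E n) x).map_target (hs hz)
      refine (contDiffAt_const (c := (0 : X n))).congr_of_eventuallyEq ?_
      filter_upwards [hopen.mem_nhds hmem] with z hz
      rw [extT]
      split_ifs with h5
      · have : w (tr n M x' x z) = 0 := by
          apply image_eq_zero_of_notMem_tsupport
          intro h6
          apply hz.2
          refine ⟨_, h6, tr_symm_apply h5⟩
        rw [this, map_zero]
      · rfl
  · by_cases h : y ∈ (tr n M x' x).source
    · have h' : tr n M x' x'' y ∈ (tr n M x'' x).source := by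
        rw [mem_tr_source, tr_symm_apply hy]
        exact ⟨(mem_tr_source.1 (tr_mem hy)).1, (mem_tr_source.1 h).2⟩
      obtain ⟨-, h2, h3⟩ := tr_cocycle hy h'
      rw [extT, extT, if_pos h, if_pos h', h3, rho_comp, h2]
    · have h' : tr n M x' x'' y ∉ (tr n M x'' x).source := fun h' => h (tr_cocycle hy h').1
      rw [extT, extT, if_neg h, if_neg h', map_zero]

theorem extT_self (x : M) {w : E n → X n} (hs : tsupport w ⊆ tgt n M x) :
    extT x w x = w := by
  funext y
  by_cases h : y ∈ tgt n M x
  · obtain ⟨h1, h2⟩ := tr_self_fderiv h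
    have h3 : tr n M x x y = y := (chartAt (E n) x).right_inv h
    rw [extT, if_pos h1, h2, rho_id, h3]
  · rw [extT, if_neg (fun h' => h (mem_tr_source.1 h').1)]
    exact (image_eq_zero_of_notMem_tsupport (fun h' => h (hs h'))).symm

theorem deg0 {s : M → E n → X n} (hs : s ∈ TForm n M) (h0 : prT 0 s = s) :
    ∃ f, IsSm n M f ∧ s = fnT f := by
  obtain ⟨h1, h2, h3⟩ := hs
  have key : ∀ x, ∀ y ∈ tgt n M x, s x y = (s ((chartAt (E n) x).symm y)
      (ctr n ((chartAt (E n) x).symm y))) ∅ • eX ∅ := by
    intro x y hy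
    set p := (chartAt (E n) x).symm y with hp
    have hsrc : y ∈ (tr n M x p).source := by
      rw [mem_tr_source]
      exact ⟨hy, by rw [← hp]; exact mem_chart_source (E n) p⟩
    have htr : tr n M x p y = ctr n p := by
      rw [tr_apply_aux, ← hp]
    have h4 : s p (ctr n p) = (s p (ctr n p)) ∅ • eX ∅ := by
      have : s p (ctr n p) = prj 0 (s p (ctr n p)) := by
        conv_lhs => rw [← h0]
        rfl
      rw [this, prj_zero_eq]
      simp [eX]
    rw [h3 x p y hsrc, htr, h4, map_smul, rho_vac]
    simp [eX]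
  refine ⟨fun p => (s p (ctr n p)) ∅, fun x => ?_, ?_⟩
  · have h5 : ContDiffOn ℝ ∞ (fun y => (s x y) ∅) (tgt n M x) :=
      (EuclideanSpace.proj (𝕜 := ℝ) (∅ : Finset (Fin n))).contDiff.comp_contDiffOn (h2 x)
    refine h5.congr ?_
    intro y hy
    rw [key x y hy]
    simp [eX]
  · funext x y
    rw [fnT]
    split_ifs with h
    · exact key x y h
    · exact h1 x y h

end ANCO
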