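import Pool.Agent.Helper39.Anco.Geo

/-!
# Christoffel symbols (module ANCO-CHR)
-/

open scoped ContDiff Topology Manifold InnerProductSpace
open Set MeasureTheory

set_option maxSynthPendingDepth 3

noncomputable section
namespace ANCO

variable {n : ℕ}

theorem chr_finrank : Module.finrank ℝ (E n →L[ℝ] ℝ) = Module.finrank ℝ (E n) := by
  have h1 : Module.finrank ℝ (E n →L[ℝ] ℝ) = Module.finrank ℝ (E n →ₗ[ℝ] ℝ) :=
    (LinearMap.toContinuousLinearMap (𝕜 := ℝ) (E := E n) (F' := ℝ)).symm.finrank_eq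
  rw [h1]
  exact Subspace.dual_finrank_eq

theorem chr_injective {G : Coef n} {U : Set (E n)} (h : IsMet G U) {y : E n} (hy : y ∈ U) :
    Function.Injective (G y) := by
  rw [injective_iff_map_eq_zero]
  intro u hu
  by_contra hne
  have := h.pos y hy u hne
  rw [hu] at this
  simp at this

theorem chr_exists_equiv {G : Coef n} {U : Set (E n)} (h : IsMet G U) {y : E n} (hy : y ∈ U) :
    ∃ e : E n ≃L[ℝ] (E n →L[ℝ] ℝ), (e : E n →L[ℝ] (E n →L[ℝ] ℝ)) = G y := by
  have hinj : Function.Injective (G y).toLinearMap := chr_injective h hy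
  refine ⟨(LinearEquiv.ofInjectiveOfFinrankEq (G y).toLinearMap hinj
    chr_finrank.symm).toContinuousLinearEquiv, ?_⟩
  ext u v
  rfl

theorem inverse_apply {G : Coef n} {U : Set (E n)} (h : IsMet G U) {y : E n} (hy : y ∈ U)
    (α : E n →L[ℝ] ℝ) : G y (ContinuousLinearMap.inverse (G y) α) = α := by
  obtain ⟨e, he⟩ := chr_exists_equiv h hy
  rw [← he, ContinuousLinearMap.inverse_equiv]
  simp

theorem inverse_smooth {G : Coef n} {U : Set (E n)} (h : IsMet G U) :
    ContDiffOn ℝ ∞ (fun y => ContinuousLinearMap.inverse (G y)) U := by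
  intro y hy
  obtain ⟨e, he⟩ := chr_exists_equiv h hy
  have h1 : ContDiffAt ℝ ∞ ContinuousLinearMap.inverse (G y) := by
    rw [← he]
    exact contDiffAt_map_inverse e
  exact h1.comp_contDiffWithinAt y (h.smooth y hy)

theorem chr_fderiv_smooth {G : Coef n} {U : Set (E n)} (h : IsMet G U) :
    ContDiffOn ℝ ∞ (fderiv ℝ G) U :=
  h.smooth.fderiv_of_isOpen h.isOpen (by simp)

theorem chr_koszul_smooth {G : Coef n} {U : Set (E n)} (h : IsMet G U) :
    ContDiffOn ℝ ∞ (koszul G) U := by
  have h1 := chr_fderiv_smooth h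
  have h2 : ContDiffOn ℝ ∞ (fun y => (fderiv ℝ G y).flip) U :=
    (ContinuousLinearMap.flipₗᵢ ℝ (E n) (E n) (E n →L[ℝ] ℝ)).contDiff.comp_contDiffOn h1
  unfold koszul
  refine ContDiffOn.const_smul (1 / 2 : ℝ) ((h1.add h2).sub ?_)
  exact contDiffOn_const.clm_comp h2

theorem christ_smooth {G : Coef n} {U : Set (E n)} (h : IsMet G U) :
    ContDiffOn ℝ ∞ (christ G) U := by
  unfold christ
  refine ContDiffOn.clm_comp ?_ (chr_koszul_smooth h)
  exact (ContinuousLinearMap.compL ℝ (E n) (E n →L[ℝ] ℝ) (E n)).contDiff.comp_contDiffOn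
    (inverse_smooth h)

theorem chr_koszul_apply (G : Coef n) (y u v w : E n) : koszul G y u v w =
    (1 / 2) * (fderiv ℝ G y u v w + fderiv ℝ G y v u w - fderiv ℝ G y w u v) := by
  unfold koszul
  rfl

theorem christ_spec {G : Coef n} {U : Set (E n)} (h : IsMet G U) {y : E n} (hy : y ∈ U)
    (u v w : E n) : G y (christ G y u v) w =
      (1 / 2) * (fderiv ℝ G y u v w + fderiv ℝ G y v u w - fderiv ℝ G y w u v) := by
  rw [← chr_koszul_apply]
  have : christ G y u v = ContinuousLinearMap.inverse (G y) (koszul G y u v) := rfl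
  rw [this, inverse_apply h hy]

theorem chr_differentiableAt {G : Coef n} {U : Set (E n)} (h : IsMet G U) {y : E n} (hy : y ∈ U) :
    DifferentiableAt ℝ G y :=
  (h.smooth.contDiffAt (h.isOpen.mem_nhds hy)).differentiableAt (by simp)

theorem chr_fderiv_apply {G : Coef n} {y : E n} (hG : DifferentiableAt ℝ G y) (u v w : E n) :
    fderiv ℝ (fun y => G y u v) y w = fderiv ℝ G y w u v := by
  have h1 : HasFDerivAt (fun y => G y u v)
      ((((fderiv ℝ G y).flip u).flip v)) y := by
    have h2 := (hG.hasFDerivAt.clm_apply (hasFDerivAt_const u y)).clm_apply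
      (hasFDerivAt_const v y)
    refine h2.congr_fderiv ?_
    ext w
    simp
  rw [h1.fderiv]
  rfl

theorem chr_fderiv_symm {G : Coef n} {U : Set (E n)} (h : IsMet G U) {y : E n} (hy : y ∈ U)
    (w u v : E n) : fderiv ℝ G y w u v = fderiv ℝ G y w v u := by
  have hG := chr_differentiableAt h hy
  rw [← chr_fderiv_apply hG, ← chr_fderiv_apply hG]
  have : (fun y => G y u v) =ᶠ[𝓝 y] fun y => G y v u := by
    filter_upwards [h.isOpen.mem_nhds hy] with y' hy'
    exact h.symm y' hy' u v
  rw [this.fderiv_eq]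

theorem christ_symm {G : Coef n} {U : Set (E n)} (h : IsMet G U) {y : E n} (hy : y ∈ U)
    (u v : E n) : christ G y u v = christ G y v u := by
  apply chr_injective h hy
  ext w
  rw [christ_spec h hy, christ_spec h hy, chr_fderiv_symm h hy w u v]
  ring

theorem metric_compat {G : Coef n} {U : Set (E n)} (h : IsMet G U) {y : E n} (hy : y ∈ U)
    (w u v : E n) :
    fderiv ℝ G y w u v = G y (christ G y w u) v + G y u (christ G y w v) := by
  rw [h.symm y hy u, christ_spec h hy, christ_spec h hy, chr_fderiv_symm h hy w v u,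
    chr_fderiv_symm h hy v w u, chr_fderiv_symm h hy u w v]
  ring

end ANCO
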