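import Pool.Agent.Helper39.Anco.LDefs

open scoped ContDiff Topology Manifold InnerProductSpace
open Set MeasureTheory

set_option maxSynthPendingDepth 3

noncomputable section
namespace ANCO

variable {n : ℕ}

private theorem frame_gs {G : Coef n} {U : Set (E n)} (h : IsMet G U) (m : ℕ) (hm : m ≤ n) :
    ∃ u : ℕ → E n → E n, (∀ i < m, ContDiffOn ℝ ∞ (u i) U) ∧
      (∀ y ∈ U, ∀ i < m, ∀ j < m, G y (u i y) (u j y) = if i = j then 1 else 0) ∧
      (∀ y ∈ U, ∀ i < m, ∀ k : Fin n, m ≤ (k : ℕ) → u i y k = 0) := by
  induction m with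
  | zero =>
    exact ⟨fun _ _ => 0, fun i hi => absurd hi (Nat.not_lt_zero i),
      fun _ _ i hi => absurd hi (Nat.not_lt_zero i), fun _ _ i hi => absurd hi (Nat.not_lt_zero i)⟩
  | succ m ih =>
    obtain ⟨u, hu1, hu2, hu3⟩ := ih (Nat.le_of_succ_le hm)
    set em : E n := e ⟨m, hm⟩ with hem
    set v : E n → E n := fun y => em - ∑ i ∈ Finset.range m, G y em (u i y) • u i y with hv
    have hv1 : ContDiffOn ℝ ∞ v U := by
      refine contDiffOn_const.sub (ContDiffOn.sum fun i hi => ?_)
      have hui := hu1 i (Finset.mem_range.1 hi)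
      exact ((h.smooth.clm_apply contDiffOn_const).clm_apply hui).smul hui
    have hvm : ∀ y ∈ U, v y ⟨m, hm⟩ = 1 := by
      intro y hy
      simp only [hv, PiLp.sub_apply]
      have : (∑ i ∈ Finset.range m, G y em (u i y) • u i y) ⟨m, hm⟩ = 0 := by
        rw [WithLp.ofLp_sum, Finset.sum_apply]
        refine Finset.sum_eq_zero fun i hi => ?_
        rw [PiLp.smul_apply, hu3 y hy i (Finset.mem_range.1 hi) _ le_rfl, smul_zero]
      rw [this, sub_zero]
      simp [hem, e]
    have hv0 : ∀ y ∈ U, v y ≠ 0 := by
      intro y hy h0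
      have := hvm y hy
      rw [h0] at this
      simp at this
    have hvorth : ∀ y ∈ U, ∀ j < m, G y (v y) (u j y) = 0 := by
      intro y hy j hj
      simp only [hv, map_sub, _root_.sub_apply, map_sum, _root_.sum_apply, map_smul,
        _root_.smul_apply]
      rw [Finset.sum_eq_single j]
      · rw [hu2 y hy j hj j hj, if_pos rfl, smul_eq_mul, mul_one, sub_self]
      · intro i hi hij
        rw [hu2 y hy i (Finset.mem_range.1 hi) j hj, if_neg hij, smul_zero]
      · intro hj'
        exact absurd (Finset.mem_range.2 hj) hj'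
    have hGv : ContDiffOn ℝ ∞ (fun y => G y (v y) (v y)) U :=
      (h.smooth.clm_apply hv1).clm_apply hv1
    have hpos : ∀ y ∈ U, 0 < G y (v y) (v y) := fun y hy => h.pos y hy _ (hv0 y hy)
    set w : E n → E n := fun y => (Real.sqrt (G y (v y) (v y)))⁻¹ • v y with hw
    have hw1 : ContDiffOn ℝ ∞ w U := by
      refine ContDiffOn.smul (ContDiffOn.inv (hGv.sqrt fun y hy => (hpos y hy).ne') ?_) hv1
      intro y hy
      exact (Real.sqrt_pos.2 (hpos y hy)).ne'
    have hwu : ∀ y ∈ U, ∀ j < m, G y (w y) (u j y) = 0 := by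
      intro y hy j hj
      simp only [hw, map_smul, _root_.smul_apply, hvorth y hy j hj, smul_zero]
    have hww : ∀ y ∈ U, G y (w y) (w y) = 1 := by
      intro y hy
      simp only [hw, map_smul, _root_.smul_apply, smul_eq_mul]
      have h1 := Real.mul_self_sqrt (hpos y hy).le
      have h2 := (Real.sqrt_pos.2 (hpos y hy)).ne'
      field_simp
      nlinarith
    refine ⟨Function.update u m w, ?_, ?_, ?_⟩
    · intro i hi
      by_cases him : i = m
      · subst him
        rw [Function.update_self]
        exact hw1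
      · rw [Function.update_of_ne him]
        exact hu1 i (by omega)
    · intro y hy i hi j hj
      by_cases him : i = m
      · subst him
        rw [Function.update_self]
        by_cases hji : j = i
        · subst hji
          rw [Function.update_self, hww y hy, if_pos rfl]
        · rw [Function.update_of_ne hji, hwu y hy j (by omega), if_neg (Ne.symm hji)]
      · rw [Function.update_of_ne him]
        by_cases hji : j = m
        · subst hji
          rw [Function.update_self, h.symm y hy, hwu y hy i (by omega), if_neg him]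
        · rw [Function.update_of_ne hji, hu2 y hy i (by omega) j (by omega)]
    · intro y hy i hi k hk
      by_cases him : i = m
      · subst him
        rw [Function.update_self]
        simp only [hw, hv, PiLp.smul_apply, PiLp.sub_apply]
        have : (∑ j ∈ Finset.range i, G y em (u j y) • u j y) k = 0 := by
          rw [WithLp.ofLp_sum, Finset.sum_apply]
          refine Finset.sum_eq_zero fun j hj => ?_
          rw [PiLp.smul_apply, hu3 y hy j (Finset.mem_range.1 hj) _ (by omega), smul_zero]
        rw [this, sub_zero]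
        have hne : k ≠ ⟨i, hm⟩ := by
          intro hk'
          rw [hk'] at hk
          simp at hk
        simp [hem, e, hne]
      · rw [Function.update_of_ne him]
        exact hu3 y hy i (by omega) k (by omega)

theorem exists_frame {G : Coef n} {U : Set (E n)} (h : IsMet G U) : ∃ B, IsFrameField G U B := by
  obtain ⟨u, hu1, hu2, -⟩ := frame_gs h n le_rfl
  refine ⟨fun y => ∑ i : Fin n,
    (EuclideanSpace.proj i : E n →L[ℝ] ℝ).smulRight (u i y), ?_, ?_⟩
  · refine ContDiffOn.sum fun i _ => ?_
    exact (ContinuousLinearMap.smulRightL ℝ (E n) (E n)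
      (EuclideanSpace.proj i : E n →L[ℝ] ℝ)).contDiff.comp_contDiffOn (hu1 i i.2)
  · intro y hy a b
    simp only [_root_.sum_apply, ContinuousLinearMap.smulRight_apply, map_sum, map_smul,
      _root_.smul_apply, smul_eq_mul]
    rw [PiLp.inner_apply]
    refine Finset.sum_congr rfl fun i _ => ?_
    rw [Finset.sum_eq_single i]
    · rw [hu2 y hy i i.2 i i.2, if_pos rfl]
      simp
    · intro j _ hji
      rw [hu2 y hy j j.2 i i.2, if_neg (fun h => hji (Fin.ext h))]
      ring
    · intro h'
      exact absurd (Finset.mem_univ _) h'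

/-- orthonormal frames are invertible, and two of them differ by an isometry -/
theorem iso_inv {G : Coef n} {U : Set (E n)} (h : IsMet G U) {z : Fr n} (hz : z.1 ∈ U)
    (hiso : IsoFr G z) : ∃ c : E n →L[ℝ] E n, c ∘L z.2 = ContinuousLinearMap.id ℝ (E n) ∧
      z.2 ∘L c = ContinuousLinearMap.id ℝ (E n) := by
  have hinj : Function.Injective z.2.toLinearMap := by
    rw [← LinearMap.ker_eq_bot, LinearMap.ker_eq_bot']
    intro m hm
    have h1 := hiso m m
    have hm' : z.2 m = 0 := hm
    rw [hm', map_zero] at h1
    exact inner_self_eq_zero.1 h1.symm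
  let q := (LinearEquiv.ofInjectiveEndo z.2.toLinearMap hinj)
  refine ⟨LinearMap.toContinuousLinearMap q.symm.toLinearMap, ?_, ?_⟩
  · ext1 x
    change q.symm (q x) = x
    exact q.symm_apply_apply x
  · ext1 x
    change q (q.symm x) = x
    exact q.apply_symm_apply x

theorem iso_diff {G : Coef n} {U : Set (E n)} (h : IsMet G U) {y : E n} (hy : y ∈ U)
    {b b' : E n →L[ℝ] E n} (hb : IsoFr G (y, b)) (hb' : IsoFr G (y, b')) :
    ∃ k, IsOrth k ∧ b' = b ∘L k := by
  obtain ⟨c, -, hc⟩ := iso_inv h (z := (y, b)) hy hb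
  have hbc : ∀ x, b (c x) = x := fun x => DFunLike.congr_fun hc x
  refine ⟨c ∘L b', fun u v => ?_, ?_⟩
  · have h1 := hb ((c ∘L b') u) ((c ∘L b') v)
    rw [← h1, ← hb' u v]
    simp only [ContinuousLinearMap.comp_apply, hbc]
  · ext1 x
    simp only [ContinuousLinearMap.comp_apply, hbc]

theorem iso_right {G : Coef n} {y : E n} {b k : E n →L[ℝ] E n} (hb : IsoFr G (y, b))
    (hk : IsOrth k) : IsoFr G (y, b ∘L k) := by
  intro u v
  rw [← hk u v]
  exact hb (k u) (k v)

end ANCO
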