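import Pool.Agent.Helper39.Anco.Rho
import Pool.Agent.Helper39.Anco.RhoD
import Pool.Agent.Helper39.Anco.Chr

/-!
# Horizontal vector fields on the frame bundle (module ANCO-HV)
-/

open scoped ContDiff Topology Manifold InnerProductSpace
open Set MeasureTheory

set_option maxSynthPendingDepth 3

noncomputable section
namespace ANCO

variable {n : ℕ}

theorem hv_fst_mapsTo (U : Set (E n)) :
    MapsTo (Prod.fst : Fr n → E n) (U ×ˢ univ) U := fun _ hz => hz.1

theorem hv_isOpen {U : Set (E n)} (hU : IsOpen U) : IsOpen (U ×ˢ univ : Set (Fr n)) :=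
  hU.prod isOpen_univ

theorem hv_apply_smooth (u : E n) : ContDiff ℝ ∞ (fun z : Fr n => z.2 u) :=
  contDiff_snd.clm_apply contDiff_const

theorem hv_christ_smooth {G : Coef n} {U : Set (E n)} (h : IsMet G U) :
    ContDiffOn ℝ ∞ (fun z : Fr n => christ G z.1) (U ×ˢ univ) :=
  (christ_smooth h).comp contDiff_fst.contDiffOn (hv_fst_mapsTo U)

/-- the open set of frames over `U` -/
theorem hv_smooth {G : Coef n} {U : Set (E n)} (h : IsMet G U) (u : E n) :
    ContDiffOn ℝ ∞ (hv G u) (U ×ˢ univ) := by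
  unfold hv
  refine (hv_apply_smooth u).contDiffOn.prodMk ?_
  refine ContDiffOn.neg ?_
  exact ((hv_christ_smooth h).clm_apply (hv_apply_smooth u).contDiffOn).clm_comp
    contDiff_snd.contDiffOn

theorem Hd_smooth {W : Type} [NormedAddCommGroup W] [NormedSpace ℝ W] {G : Coef n} {U : Set (E n)}
    (h : IsMet G U) (u : E n) {F : Fr n → W} (hF : ContDiffOn ℝ ∞ F (U ×ˢ univ)) :
    ContDiffOn ℝ ∞ (Hd G u F) (U ×ˢ univ) := by
  unfold Hd
  exact (hF.fderiv_of_isOpen (hv_isOpen h.isOpen) (by simp)).clm_apply (hv_smooth h u)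

theorem lift_smooth {U : Set (E n)} {w : E n → X n} (hw : ContDiffOn ℝ ∞ w U) :
    ContDiffOn ℝ ∞ (lift w) (U ×ˢ univ) := by
  unfold lift
  exact (rho_contDiff.comp contDiff_snd).contDiffOn.clm_apply
    (hw.comp contDiff_fst.contDiffOn (hv_fst_mapsTo U))

/-- the derivative of a lift -/
theorem hv_fderiv_lift {w : E n → X n} {z : Fr n} (hw : DifferentiableAt ℝ w z.1) (a : E n)
    (c : E n →L[ℝ] E n) : fderiv ℝ (lift w) z (a, c) =
      fderiv ℝ (rho : (E n →L[ℝ] E n) → (X n →L[ℝ] X n)) z.2 c (w z.1) +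
        rho z.2 (fderiv ℝ w z.1 a) := by
  have h1 : HasFDerivAt (fun z : Fr n => rho z.2)
      ((fderiv ℝ (rho : (E n →L[ℝ] E n) → (X n →L[ℝ] X n)) z.2) ∘L
        ContinuousLinearMap.snd ℝ (E n) (E n →L[ℝ] E n)) z :=
    ((rho_contDiff.differentiable (by simp)) z.2).hasFDerivAt.comp z hasFDerivAt_snd
  have h2 : HasFDerivAt (fun z : Fr n => w z.1)
      ((fderiv ℝ w z.1) ∘L ContinuousLinearMap.fst ℝ (E n) (E n →L[ℝ] E n)) z :=
    hw.hasFDerivAt.comp z hasFDerivAt_fst
  have h3 := h1.clm_apply h2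
  have h4 : fderiv ℝ (lift w) z = _ := h3.fderiv
  rw [h4]
  simp [add_comm]

theorem Hd_lift {G : Coef n} {w : E n → X n} {z : Fr n} (hw : DifferentiableAt ℝ w z.1) (u : E n) :
    Hd G u (lift w) z = rho z.2 (cov G w z.1 (z.2 u)) := by
  unfold Hd hv cov
  rw [hv_fderiv_lift hw, map_neg, rho_fderiv_left, map_sub, neg_apply,
    ContinuousLinearMap.comp_apply]
  abel

/-- `H_u` of the lift of a section, at `b ∘ k`. -/
theorem Hd_lift_right {G : Coef n} {w : E n → X n} {y : E n} (hw : DifferentiableAt ℝ w y)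
    (b k : E n →L[ℝ] E n) (u : E n) :
    Hd G u (lift w) (y, b ∘L k) = rho k (Hd G (k u) (lift w) (y, b)) := by
  rw [Hd_lift (z := (y, b ∘L k)) hw, Hd_lift (z := (y, b)) hw, rho_comp]
  rfl

theorem Hd_linear {G : Coef n} {W : Type} [NormedAddCommGroup W] [NormedSpace ℝ W]
    (F : Fr n → W) (z : Fr n) (u v : E n) (a b : ℝ) :
    Hd G (a • u + b • v) F z = a • Hd G u F z + b • Hd G v F z := by
  unfold Hd
  have : hv G (a • u + b • v) z = a • hv G u z + b • hv G v z := by
    unfold hv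
    ext1
    · simp
    · simp only [map_add, map_smul, Prod.snd_add, Prod.smul_snd, ContinuousLinearMap.add_comp,
        ContinuousLinearMap.smul_comp]
      module
  rw [this, map_add, map_smul, map_smul]

end ANCO
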