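import Pool.Agent.Helper39.Anco.Fock1
import Pool.Agent.Helper39.Anco.Fock2

/-! Components of alternating forms. -/

open scoped ContDiff Topology Manifold InnerProductSpace
open Set MeasureTheory

set_option maxSynthPendingDepth 3

noncomputable section
namespace ANCO

variable {n : ℕ}

theorem cmp_aux_apply (p : ℕ) (w : Alt n p) (I : Finset (Fin n)) :
    cmp p w I = if h : I.card = p then w (fun a => e (I.orderEmbOfFin h a)) else 0 := rfl

theorem cmp_aux_apply_of (p : ℕ) (w : Alt n p) {I : Finset (Fin n)} (h : I.card = p) :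
    cmp p w I = w (fun a => e (I.orderEmbOfFin h a)) := by
  rw [cmp_aux_apply, dif_pos h]

theorem cmp_aux_apply_not (p : ℕ) (w : Alt n p) {I : Finset (Fin n)} (h : I.card ≠ p) :
    cmp p w I = 0 := by
  rw [cmp_aux_apply, dif_neg h]

/-- An injective map is the increasing enumeration of its range after a permutation. -/
theorem cmp_aux_perm {p : ℕ} (v : Fin p → Fin n) (hv : Function.Injective v)
    (h : (Finset.univ.image v).card = p) :
    ∃ σ : Equiv.Perm (Fin p), ∀ a, v a = (Finset.univ.image v).orderEmbOfFin h (σ a) := by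
  have hex : ∀ a, ∃ b, (Finset.univ.image v).orderEmbOfFin h b = v a := by
    intro a
    have : v a ∈ Set.range ((Finset.univ.image v).orderEmbOfFin h) := by
      rw [Finset.range_orderEmbOfFin]
      simp
    exact this
  choose s hs using hex
  have hsinj : Function.Injective s := by
    intro a b hab
    apply hv
    rw [← hs a, ← hs b, hab]
  refine ⟨Equiv.ofBijective s (Finite.injective_iff_bijective.mp hsinj), fun a => ?_⟩
  rw [Equiv.ofBijective_apply, hs]

theorem cmp_injective (p : ℕ) : Function.Injective (cmp p : Alt n p →ₗ[ℝ] X n) := by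
  rw [← LinearMap.ker_eq_bot, LinearMap.ker_eq_bot']
  intro w hw
  apply ContinuousAlternatingMap.toAlternatingMap_injective
  refine Module.Basis.ext_alternating (EuclideanSpace.basisFun (Fin n) ℝ).toBasis ?_
  intro v hv
  have hbas : ∀ i : Fin n, (EuclideanSpace.basisFun (Fin n) ℝ).toBasis i = e i := by
    intro i
    simp [e]
  have hcard : (Finset.univ.image v).card = p := by
    rw [Finset.card_image_of_injective _ hv, Finset.card_univ, Fintype.card_fin]
  obtain ⟨σ, hσ⟩ := cmp_aux_perm v hv hcard
  have h0 : w (fun a => e ((Finset.univ.image v).orderEmbOfFin hcard a)) = 0 := by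
    rw [← cmp_aux_apply_of p w hcard, hw]
    rfl
  have h1 : (fun i => (EuclideanSpace.basisFun (Fin n) ℝ).toBasis (v i))
      = (fun a => e ((Finset.univ.image v).orderEmbOfFin hcard a)) ∘ σ := by
    funext a
    rw [hbas, Function.comp_apply, hσ a]
  rw [h1, AlternatingMap.map_perm]
  have h2 : w.toAlternatingMap (fun a => e ((Finset.univ.image v).orderEmbOfFin hcard a)) = 0 := h0
  rw [h2, smul_zero]
  rfl

theorem dec_cmp (p : ℕ) (w : Alt n p) : dec p (cmp p w) = w := by
  have hex : ∃ f : X n →ₗ[ℝ] Alt n p, ∀ w, f (cmp p w) = w := by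
    obtain ⟨g, hg⟩ := LinearMap.exists_leftInverse_of_injective (cmp p : Alt n p →ₗ[ℝ] X n)
      (LinearMap.ker_eq_bot.mpr (cmp_injective p))
    exact ⟨g, fun w => congrArg (fun f : Alt n p →ₗ[ℝ] Alt n p => f w) hg⟩
  rw [dec, dif_pos hex]
  exact hex.choose_spec w

theorem prj_cmp (p q : ℕ) (w : Alt n p) : prj q (cmp p w) = if q = p then cmp p w else 0 := by
  ext J
  rw [prj_apply]
  by_cases hqp : q = p
  · subst hqp
    rw [if_pos rfl]
    by_cases hJ : J.card = q
    · rw [if_pos hJ]
    · rw [if_neg hJ, cmp_aux_apply_not q w hJ]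
  · rw [if_neg hqp]
    by_cases hJ : J.card = q
    · rw [if_pos hJ, cmp_aux_apply_not p w (fun h => hqp (hJ.symm.trans h))]
      rfl
    · rw [if_neg hJ]
      rfl

theorem cmp_aux_filter {p : ℕ} {J : Finset (Fin n)} (h : J.card = p + 1) (k : Fin (p + 1)) :
    (J.filter (· < J.orderEmbOfFin h k)).card = k := by
  have h1 : J.filter (· < J.orderEmbOfFin h k)
      = (Finset.univ.filter (· < k)).map (J.orderEmbOfFin h).toEmbedding := by
    ext x
    simp only [Finset.mem_filter, Finset.mem_map, Finset.mem_univ, true_and,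
      RelEmbedding.coe_toEmbedding]
    constructor
    · rintro ⟨hx, hlt⟩
      have : x ∈ Set.range (J.orderEmbOfFin h) := by
        rw [Finset.range_orderEmbOfFin]
        exact hx
      obtain ⟨a, rfl⟩ := this
      exact ⟨a, (J.orderEmbOfFin h).lt_iff_lt.mp hlt, rfl⟩
    · rintro ⟨a, ha, rfl⟩
      exact ⟨Finset.orderEmbOfFin_mem J h a, (J.orderEmbOfFin h).lt_iff_lt.mpr ha⟩
  rw [h1, Finset.card_map]
  have h2 : Finset.univ.filter (· < k) = Finset.Iio k := by
    ext a
    simp
  rw [h2, Fin.card_Iio]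

theorem cmp_aux_erase {p : ℕ} {J : Finset (Fin n)} (h : J.card = p + 1) (k : Fin (p + 1))
    (h' : (J.erase (J.orderEmbOfFin h k)).card = p) :
    (fun a => (J.erase (J.orderEmbOfFin h k)).orderEmbOfFin h' a)
      = fun a => J.orderEmbOfFin h (k.succAbove a) := by
  symm
  refine Finset.orderEmbOfFin_unique h' ?_ ?_
  · intro a
    rw [Finset.mem_erase]
    refine ⟨fun hc => ?_, Finset.orderEmbOfFin_mem J h _⟩
    exact Fin.succAbove_ne k a ((J.orderEmbOfFin h).injective hc)
  · exact (J.orderEmbOfFin h).strictMono.comp (Fin.strictMono_succAbove k)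

theorem cmp_wedge (p : ℕ) (f : E n →L[ℝ] Alt n p) :
    cmp (p + 1) (ContinuousAlternatingMap.alternatizeUncurryFin f)
      = ∑ i, eps i (cmp p (f (e i))) := by
  ext J
  have hR : (∑ i, eps i (cmp p (f (e i)))) J
      = ∑ i ∈ J, sg i J * cmp p (f (e i)) (J.erase i) := by
    have : (∑ i, eps i (cmp p (f (e i)))) J = ∑ i, (eps i (cmp p (f (e i)))) J := by
      simp [WithLp.ofLp_sum, Finset.sum_apply]
    rw [this]
    simp only [fock1_eps_apply]
    rw [← Finset.sum_filter]
    congr 1
    ext i
    simp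
  rw [hR]
  by_cases hJ : J.card = p + 1
  · rw [cmp_aux_apply_of (p + 1) _ hJ, ContinuousAlternatingMap.alternatizeUncurryFin_apply]
    have hre : ∑ i ∈ J, sg i J * cmp p (f (e i)) (J.erase i)
        = ∑ k : Fin (p + 1), sg (J.orderEmbOfFin hJ k) J *
          cmp p (f (e (J.orderEmbOfFin hJ k))) (J.erase (J.orderEmbOfFin hJ k)) := by
      conv_lhs => rw [← Finset.map_orderEmbOfFin_univ J hJ]
      rw [Finset.sum_map]
      simp only [RelEmbedding.coe_toEmbedding, Finset.map_orderEmbOfFin_univ]
    rw [hre]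
    refine Finset.sum_congr rfl fun k _ => ?_
    have hc : (J.erase (J.orderEmbOfFin hJ k)).card = p := by
      rw [Finset.card_erase_of_mem (Finset.orderEmbOfFin_mem J hJ k), hJ, Nat.add_sub_cancel]
    rw [cmp_aux_apply_of p _ hc, sg, cmp_aux_filter hJ k, zsmul_eq_mul]
    push_cast
    congr 2
    funext a
    rw [Fin.removeNth_apply]
    exact congrArg e (congrFun (cmp_aux_erase hJ k hc) a).symm
  · rw [cmp_aux_apply_not (p + 1) _ hJ]
    symm
    refine Finset.sum_eq_zero fun i hi => ?_
    have hc : (J.erase i).card ≠ p := by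
      rw [Finset.card_erase_of_mem hi]
      have := Finset.card_pos.mpr ⟨i, hi⟩
      omega
    rw [cmp_aux_apply_not p _ hc, mul_zero]

theorem cmp_aux_surj (p : ℕ) : ∀ I : Finset (Fin n), I.card = p → ∃ w : Alt n p, cmp p w = eX I := by
  induction p with
  | zero =>
    intro I hI
    have hI' : I = ∅ := Finset.card_eq_zero.mp hI
    subst hI'
    refine ⟨ContinuousAlternatingMap.constOfIsEmpty ℝ (E n) (Fin 0) (1 : ℝ), ?_⟩
    ext J
    rw [fock1_eX_apply]
    by_cases hJ : J = ∅
    · subst hJ
      rw [if_pos rfl, cmp_aux_apply_of 0 _ Finset.card_empty]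
      rfl
    · rw [if_neg hJ, cmp_aux_apply_not]
      exact fun h => hJ (Finset.card_eq_zero.mp h)
  | succ p ih =>
    intro I hI
    obtain ⟨i, hi⟩ : I.Nonempty := Finset.card_pos.mp (by omega)
    have hc : (I.erase i).card = p := by
      rw [Finset.card_erase_of_mem hi, hI, Nat.add_sub_cancel]
    obtain ⟨w, hw⟩ := ih _ hc
    have h1 := cmp_wedge p ((EuclideanSpace.proj i : E n →L[ℝ] ℝ).smulRight w)
    have h2 : ∑ j, eps j (cmp p (((EuclideanSpace.proj i : E n →L[ℝ] ℝ).smulRight w) (e j)))
        = sg i (I.erase i) • eX I := by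
      rw [Finset.sum_eq_single i]
      · have : ((EuclideanSpace.proj i : E n →L[ℝ] ℝ).smulRight w) (e i) = w := by
          simp [e]
        rw [this, hw, eps_eX, if_neg (Finset.notMem_erase i I), Finset.insert_erase hi]
      · intro j _ hj
        have : ((EuclideanSpace.proj i : E n →L[ℝ] ℝ).smulRight w) (e j) = 0 := by
          simp [e, hj.symm]
        rw [this, map_zero, map_zero]
      · intro h
        exact absurd (Finset.mem_univ i) h
    rw [h2] at h1
    have hsg : sg i (I.erase i) * sg i (I.erase i) = 1 := by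
      unfold sg
      rw [← mul_pow]
      simp
    refine ⟨sg i (I.erase i) • ContinuousAlternatingMap.alternatizeUncurryFin
      ((EuclideanSpace.proj i : E n →L[ℝ] ℝ).smulRight w), ?_⟩
    rw [map_smul, h1, smul_smul, hsg, one_smul]

theorem cmp_dec (p : ℕ) (x : X n) (hx : prj p x = x) : cmp p (dec p x) = x := by
  have hrange : x ∈ LinearMap.range (cmp p : Alt n p →ₗ[ℝ] X n) := by
    have hsum : x = ∑ I, x I • eX I := by
      ext J
      have : (∑ I, x I • eX I : X n) J = ∑ I, (x I • eX I : X n) J := by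
        simp [WithLp.ofLp_sum, Finset.sum_apply]
      rw [this]
      simp [fock1_eX_apply]
    rw [hsum]
    refine Submodule.sum_mem _ fun I _ => ?_
    by_cases hI : I.card = p
    · refine Submodule.smul_mem _ _ ?_
      obtain ⟨w, hw⟩ := cmp_aux_surj p I hI
      exact ⟨w, hw⟩
    · have : x I = 0 := by
        rw [← hx, prj_apply, if_neg hI]
      rw [this, zero_smul]
      exact Submodule.zero_mem _
  obtain ⟨w, rfl⟩ := hrange
  rw [dec_cmp]

end ANCO
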