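import Pool.Agent.Helper39.Anco.Fock1
import Pool.Agent.Helper39.Anco.Fock2
import Pool.Agent.Helper39.Anco.Cmp

open scoped ContDiff Topology Manifold InnerProductSpace
open Set MeasureTheory

set_option maxSynthPendingDepth 3

noncomputable section
namespace ANCO

variable {n : ℕ}

theorem rho_apply (b : E n →L[ℝ] E n) (x : X n) : rho b x = ∑ p ∈ Finset.range (n + 1),
    cmp p ((dec p (prj p x)).compContinuousLinearMap b) := by
  simp [rho]

theorem rho_cmp (b : E n →L[ℝ] E n) (p : ℕ) (w : Alt n p) :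
    rho b (cmp p w) = cmp p (w.compContinuousLinearMap b) := by
  rw [rho_apply]
  by_cases hp : p ≤ n
  · rw [Finset.sum_eq_single p]
    · rw [prj_cmp, if_pos rfl, dec_cmp]
    · intro q _ hq
      rw [prj_cmp, if_neg hq, map_zero]
      have : (0 : Alt n q).compContinuousLinearMap b = 0 := rfl
      rw [this, map_zero]
    · intro h
      exact absurd (Finset.mem_range.2 (by omega)) h
  · have h1 : cmp p (w.compContinuousLinearMap b) = 0 := by
      have := prj_cmp p p (w.compContinuousLinearMap b)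
      rw [if_pos rfl] at this
      rw [← this]
      exact prj_of_lt p (by omega) _
    rw [h1]
    refine Finset.sum_eq_zero (fun q hq => ?_)
    have hqp : q ≠ p := by
      have := Finset.mem_range.1 hq
      omega
    rw [prj_cmp, if_neg hqp, map_zero]
    have : (0 : Alt n q).compContinuousLinearMap b = 0 := rfl
    rw [this, map_zero]

/-- Every element is a sum of components of alternating forms. -/
theorem rho_decomp (x : X n) : x = ∑ p ∈ Finset.range (n + 1), cmp p (dec p (prj p x)) := by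
  conv_lhs => rw [← sum_prj x]
  refine Finset.sum_congr rfl (fun p _ => ?_)
  rw [cmp_dec]
  rw [prj_prj, if_pos rfl]

theorem rho_ext {Y : Type*} [AddCommGroup Y] [Module ℝ Y] (S T : X n →ₗ[ℝ] Y)
    (h : ∀ p w, S (cmp p w) = T (cmp p w)) (x : X n) : S x = T x := by
  rw [rho_decomp x, map_sum, map_sum]
  exact Finset.sum_congr rfl (fun p _ => h p _)

theorem rho_id (x : X n) : rho (ContinuousLinearMap.id ℝ (E n)) x = x := by
  refine rho_ext (rho (ContinuousLinearMap.id ℝ (E n))).toLinearMap LinearMap.id (fun p w => ?_) x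
  change rho _ (cmp p w) = cmp p w
  rw [rho_cmp]
  rfl

theorem rho_comp (a b : E n →L[ℝ] E n) (x : X n) : rho (a ∘L b) x = rho b (rho a x) := by
  refine rho_ext (rho (a ∘L b)).toLinearMap (rho b ∘L rho a).toLinearMap (fun p w => ?_) x
  change rho _ (cmp p w) = rho b (rho a (cmp p w))
  rw [rho_cmp, rho_cmp, rho_cmp]
  rfl

theorem prj_rho (p : ℕ) (b : E n →L[ℝ] E n) (x : X n) : prj p (rho b x) = rho b (prj p x) := by
  refine rho_ext (prj p ∘L rho b).toLinearMap (rho b ∘L prj p).toLinearMap (fun q w => ?_) x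
  change prj p (rho b (cmp q w)) = rho b (prj p (cmp q w))
  rw [rho_cmp, prj_cmp, prj_cmp]
  split_ifs
  · rw [rho_cmp]
  · rw [map_zero]

theorem rho_vac_cmp : (eX ∅ : X n) = cmp 0 (ContinuousAlternatingMap.constOfIsEmpty ℝ (E n)
    (Fin 0) (1:ℝ)) := by
  ext I
  by_cases h : I = ∅
  · subst h
    simp [cmp, eX]
  · have h' : I.card ≠ 0 := fun hc => h (Finset.card_eq_zero.1 hc)
    simp [cmp, eX, h]

theorem rho_vac (b : E n →L[ℝ] E n) : rho b (eX ∅) = eX ∅ := by
  rw [rho_vac_cmp, rho_cmp]
  rfl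

theorem rho_epsv_cmp (α : E n →L[ℝ] ℝ) (p : ℕ) (w : Alt n p) :
    epsv α (cmp p w) = cmp (p + 1)
      (ContinuousAlternatingMap.alternatizeUncurryFin (α.smulRight w)) := by
  rw [cmp_wedge]
  simp [epsv]

theorem rho_epsv (b : E n →L[ℝ] E n) (α : E n →L[ℝ] ℝ) (x : X n) :
    rho b (epsv α x) = epsv (α ∘L b) (rho b x) := by
  refine rho_ext (rho b ∘L epsv α).toLinearMap (epsv (α ∘L b) ∘L rho b).toLinearMap
    (fun p w => ?_) x
  change rho b (epsv α (cmp p w)) = epsv (α ∘L b) (rho b (cmp p w))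
  rw [rho_epsv_cmp, rho_cmp, rho_cmp, rho_epsv_cmp]
  congr 1
  ext v
  rw [ContinuousAlternatingMap.compContinuousLinearMap_apply,
    ContinuousAlternatingMap.alternatizeUncurryFin_apply,
    ContinuousAlternatingMap.alternatizeUncurryFin_apply]
  rfl

/-- Induction over the basis. -/
theorem rho_span {S : Submodule ℝ (X n)} (h0 : eX ∅ ∈ S) (hs : ∀ i x, x ∈ S → eps i x ∈ S)
    (x : X n) : x ∈ S := by
  have h1 : ∀ I : Finset (Fin n), eX I ∈ S := by
    intro I
    induction I using Finset.induction_on with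
    | empty => exact h0
    | insert i I hi ih =>
      have h2 := hs i _ ih
      rw [eps_eX, if_neg hi] at h2
      have h3 : sg i I ≠ 0 := by
        unfold sg
        exact pow_ne_zero _ (by norm_num)
      have h4 := S.smul_mem (sg i I)⁻¹ h2
      rwa [smul_smul, inv_mul_cancel₀ h3, one_smul] at h4
  have h2 : x = ∑ I, x I • eX I := by
    ext J
    simp [eX, Pi.single_apply]
  rw [h2]
  exact S.sum_mem (fun I _ => S.smul_mem _ (h1 I))

theorem rho_iotav_vac (v : E n) : iotav v (eX ∅ : X n) = 0 := by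
  simp [iotav, iota_eX]

theorem rho_iotav (b : E n →L[ℝ] E n) (v : E n) (x : X n) :
    rho b (iotav (b v) x) = iotav v (rho b x) := by
  let S : Submodule ℝ (X n) := LinearMap.ker
    ((rho b ∘L iotav (b v)) - (iotav v ∘L rho b) : X n →L[ℝ] X n).toLinearMap
  have hS : ∀ y, y ∈ S ↔ rho b (iotav (b v) y) = iotav v (rho b y) := by
    intro y
    change rho b (iotav (b v) y) - iotav v (rho b y) = 0 ↔ _
    rw [sub_eq_zero]
  rw [← hS]
  refine rho_span ?_ ?_ x
  · rw [hS, rho_iotav_vac, map_zero, rho_vac, rho_iotav_vac]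
  · intro i y hy
    rw [hS] at hy ⊢
    rw [← epsv_proj]
    set α : E n →L[ℝ] ℝ := EuclideanSpace.proj i with hα
    have h1 := epsv_iotav α (b v) y
    have h2 : iotav (b v) (epsv α y) = α (b v) • y - epsv α (iotav (b v) y) := by
      rw [← h1]; abel
    have h3 := epsv_iotav (α ∘L b) v (rho b y)
    have h4 : iotav v (epsv (α ∘L b) (rho b y)) =
        (α ∘L b) v • rho b y - epsv (α ∘L b) (iotav v (rho b y)) := by
      rw [← h3]; abel
    rw [h2, map_sub, map_smul, rho_epsv, rho_epsv, h4, hy]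
    rfl

end ANCO
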