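import Pool.Agent.Helper39.Anco.Fock1
import Pool.Agent.Helper39.Anco.Rho
import Pool.Agent.Helper39.Anco.Chr
import Pool.Agent.Helper39.Anco.Hv
import Pool.Agent.Helper39.Anco.Frame

/-!
# Exterior derivative and codifferential in frames
-/

open scoped ContDiff Topology Manifold InnerProductSpace
open Set MeasureTheory

set_option maxSynthPendingDepth 3

noncomputable section
namespace ANCO

variable {n : ℕ}

theorem del1_sum_e (v : E n) : ∑ i, v i • (e i : E n) = v := by
  ext j
  simp [e, Finset.sum_apply, Pi.single_apply]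

theorem del1_lin {W : Type} [AddCommGroup W] [Module ℝ W] [TopologicalSpace W]
    (L : E n →L[ℝ] W) (v : E n) : L v = ∑ i, v i • L (e i) := by
  conv_lhs => rw [← del1_sum_e v]
  rw [map_sum]
  simp only [map_smul]

theorem del1_rho_eps (b : E n →L[ℝ] E n) (i : Fin n) (x : X n) :
    rho b (eps i x) = ∑ k, (b (e k)) i • eps k (rho b x) := by
  rw [← epsv_proj, rho_epsv]
  unfold epsv
  rw [_root_.sum_apply]
  rfl

/-- change of frame in an exterior sum -/
theorem del1_sum (b : E n →L[ℝ] E n) (L : E n →L[ℝ] X n) :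
    rho b (∑ i, eps i (L (e i))) = ∑ k, eps k (rho b (L (b (e k)))) := by
  rw [map_sum]
  simp only [del1_rho_eps]
  rw [Finset.sum_comm]
  refine Finset.sum_congr rfl fun k _ => ?_
  rw [del1_lin L (b (e k)), map_sum, map_sum]
  simp only [map_smul]

theorem del1_cov_apply (G : Coef n) (w : E n → X n) (y u : E n) :
    cov G w y u = fderiv ℝ w y u - act (christ G y u) (w y) := rfl

/-- `act` is linear -/
theorem del1_act_apply (A : E n →L[ℝ] E n) (x : X n) :
    act A x = ∑ k, ∑ l, (A (e k)) l • eps k (iota l x) := by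
  unfold act
  rw [_root_.sum_apply]
  refine Finset.sum_congr rfl fun k _ => ?_
  rw [_root_.sum_apply]
  rfl

/-- `u ↦ act (Γ u) x` as a continuous linear map -/
def del1_L (Γ : E n →L[ℝ] E n →L[ℝ] E n) (x : X n) : E n →L[ℝ] X n :=
  LinearMap.toContinuousLinearMap
    { toFun := fun u => act (Γ u) x
      map_add' := by
        intro a b
        simp only [del1_act_apply, map_add, _root_.add_apply, PiLp.add_apply,
          add_smul, Finset.sum_add_distrib]
      map_smul' := by
        intro c a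
        simp only [del1_act_apply, map_smul, _root_.smul_apply, PiLp.smul_apply,
          smul_eq_mul, mul_smul, Finset.smul_sum, RingHom.id_apply] }

theorem del1_L_apply (Γ : E n →L[ℝ] E n →L[ℝ] E n) (x : X n) (u : E n) :
    del1_L Γ x u = act (Γ u) x := rfl

theorem del1_torsion (Γ : E n →L[ℝ] E n →L[ℝ] E n) (hΓ : ∀ u v, Γ u v = Γ v u) (x : X n) :
    ∑ i, eps i (act (Γ (e i)) x) = 0 := by
  have h1 : ∀ i, eps i (act (Γ (e i)) x) =
      ∑ k, ∑ l, (Γ (e i) (e k)) l • eps i (eps k (iota l x)) := by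
    intro i
    rw [del1_act_apply, map_sum]
    refine Finset.sum_congr rfl fun k _ => ?_
    rw [map_sum]
    simp only [map_smul]
  have h2 : ∑ i, eps i (act (Γ (e i)) x) = -∑ i, eps i (act (Γ (e i)) x) := by
    simp only [h1]
    conv_lhs => rw [Finset.sum_comm]
    rw [← Finset.sum_neg_distrib]
    refine Finset.sum_congr rfl fun k _ => ?_
    rw [← Finset.sum_neg_distrib]
    refine Finset.sum_congr rfl fun i _ => ?_
    rw [← Finset.sum_neg_distrib]
    refine Finset.sum_congr rfl fun l _ => ?_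
    rw [eps_eps i k, hΓ (e i) (e k), smul_neg]
  have h3 : (2 : ℝ) • (∑ i, eps i (act (Γ (e i)) x)) = 0 := by
    rw [two_smul]
    exact add_eq_zero_iff_eq_neg.mpr h2
  exact (smul_eq_zero.mp h3).resolve_left (by norm_num)

theorem lift_dloc {G : Coef n} {U : Set (E n)} (h : IsMet G U) {w : E n → X n} {z : Fr n}
    (hz : z.1 ∈ U) (hw : DifferentiableAt ℝ w z.1) :
    lift (dloc w) z = ∑ i, eps i (Hd G (e i) (lift w) z) := by
  have h1 : lift (dloc w) z = ∑ k, eps k (rho z.2 (fderiv ℝ w z.1 (z.2 (e k)))) := by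
    show rho z.2 (∑ i, eps i (fderiv ℝ w z.1 (e i))) = _
    rw [del1_sum]
  have h2 : ∑ k, eps k (rho z.2 (act (christ G z.1 (z.2 (e k))) (w z.1))) = 0 := by
    have h3 := del1_sum z.2 (del1_L (christ G z.1) (w z.1))
    simp only [del1_L_apply] at h3
    rw [← h3, del1_torsion _ (fun u v => christ_symm h hz u v), map_zero]
  rw [h1]
  simp only [Hd_lift hw, del1_cov_apply, map_sub, Finset.sum_sub_distrib]
  rw [h2, sub_zero]

/-- inverse metric coefficients in an orthonormal frame -/
theorem del1_ginv {G : Coef n} {U : Set (E n)} (h : IsMet G U) {z : Fr n} (hz : z.1 ∈ U)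
    (hiso : IsoFr G z) (i j : Fin n) : ginv G z.1 i j = ∑ k, (z.2 (e k)) i * (z.2 (e k)) j := by
  obtain ⟨c, hc1, hc2⟩ := iso_inv h hz hiso
  set v : E n := ContinuousLinearMap.inverse (G z.1) (EuclideanSpace.proj j) with hv
  have h1 : ∀ k, (c v) k = (z.2 (e k)) j := by
    intro k
    have h2 := hiso (c v) (e k)
    have h3 : z.2 (c v) = v := by
      have := congrArg (fun f => f v) hc2
      simpa using this
    rw [h3] at h2
    have h4 : G z.1 v = (EuclideanSpace.proj j : E n →L[ℝ] ℝ) := inverse_apply h hz _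
    rw [h4] at h2
    have h5 : ⟪c v, e k⟫_ℝ = (c v) k := by
      simp [e, EuclideanSpace.inner_single_right]
    rw [h5] at h2
    rw [← h2]
    rfl
  show v i = _
  have h3 : z.2 (c v) = v := by
    have := congrArg (fun f => f v) hc2
    simpa using this
  conv_lhs => rw [← h3, del1_lin z.2 (c v)]
  simp only [h1]
  simp [Finset.sum_apply, mul_comm]

theorem del1_rho_iota (b c : E n →L[ℝ] E n) (hbc : b ∘L c = ContinuousLinearMap.id ℝ (E n))
    (j : Fin n) (x : X n) : rho b (iota j x) = ∑ i, (c (e j)) i • iota i (rho b x) := by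
  have h1 : b (c (e j)) = e j := by
    have := congrArg (fun f => f (e j : E n)) hbc
    simpa using this
  have h2 := rho_iotav b (c (e j)) x
  rw [h1, iotav_e] at h2
  rw [h2]
  unfold iotav
  rw [_root_.sum_apply]
  rfl

/-- `u ↦ cov u` as a continuous linear map -/
def del1_cov (G : Coef n) (w : E n → X n) (y : E n) : E n →L[ℝ] X n :=
  fderiv ℝ w y - del1_L (christ G y) (w y)

theorem del1_cov_eq (G : Coef n) (w : E n → X n) (y u : E n) :
    del1_cov G w y u = cov G w y u := rfl

theorem lift_deloc {G : Coef n} {U : Set (E n)} (h : IsMet G U) {w : E n → X n} {z : Fr n}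
    (hz : z.1 ∈ U) (hiso : IsoFr G z) (hw : DifferentiableAt ℝ w z.1) :
    lift (deloc G w) z = -∑ i, iota i (Hd G (e i) (lift w) z) := by
  obtain ⟨c, hc1, hc2⟩ := iso_inv h hz hiso
  have h0 : ∀ m i, ∑ j, (z.2 (e m)) j * (c (e j)) i = if i = m then (1 : ℝ) else 0 := by
    intro m i
    have h1 : c (z.2 (e m)) = e m := by
      have := congrArg (fun f => f (e m : E n)) hc1
      simpa using this
    rw [del1_lin c (z.2 (e m))] at h1
    have h2 := congrArg (fun v : E n => v i) h1
    simp only [e, WithLp.ofLp_sum, WithLp.ofLp_smul, Finset.sum_apply, Pi.smul_apply,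
      smul_eq_mul, PiLp.single_apply] at h2
    simpa [e] using h2
  show rho z.2 (-∑ j, ∑ k, ginv G z.1 j k • iota j (cov G w z.1 (e k))) = _
  rw [map_neg, map_sum]
  congr 1
  have h1 : ∀ j, rho z.2 (∑ k, ginv G z.1 j k • iota j (cov G w z.1 (e k))) =
      ∑ k, ∑ m, ∑ i, ((z.2 (e m)) j * (z.2 (e m)) k * (c (e j)) i) •
        iota i (rho z.2 (cov G w z.1 (e k))) := by
    intro j
    rw [map_sum]
    refine Finset.sum_congr rfl fun k _ => ?_
    rw [map_smul, del1_rho_iota z.2 c hc2, del1_ginv h hz hiso, Finset.sum_smul]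
    refine Finset.sum_congr rfl fun m _ => ?_
    rw [Finset.smul_sum]
    refine Finset.sum_congr rfl fun i _ => ?_
    rw [smul_smul]
  simp only [h1]
  -- interchange the sums
  have h2 : ∑ j, ∑ k, ∑ m, ∑ i, ((z.2 (e m)) j * (z.2 (e m)) k * (c (e j)) i) •
        iota i (rho z.2 (cov G w z.1 (e k))) =
      ∑ m, ∑ k, ∑ i, ((z.2 (e m)) k * ∑ j, (z.2 (e m)) j * (c (e j)) i) •
        iota i (rho z.2 (cov G w z.1 (e k))) := by
    rw [Finset.sum_comm]
    have h3 : ∀ k, ∑ j, ∑ m, ∑ i, ((z.2 (e m)) j * (z.2 (e m)) k * (c (e j)) i) •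
        iota i (rho z.2 (cov G w z.1 (e k))) = ∑ m, ∑ i, ((z.2 (e m)) k *
          ∑ j, (z.2 (e m)) j * (c (e j)) i) • iota i (rho z.2 (cov G w z.1 (e k))) := by
      intro k
      rw [Finset.sum_comm]
      refine Finset.sum_congr rfl fun m _ => ?_
      rw [Finset.sum_comm]
      refine Finset.sum_congr rfl fun i _ => ?_
      rw [Finset.mul_sum, Finset.sum_smul]
      refine Finset.sum_congr rfl fun j _ => ?_
      congr 1
      ring
    simp only [h3]
    rw [Finset.sum_comm]
  rw [h2]
  refine Finset.sum_congr rfl fun m _ => ?_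
  rw [Hd_lift hw]
  simp only [h0]
  have h4 : ∀ k, ∑ i, ((z.2 (e m)) k * if i = m then (1 : ℝ) else 0) •
      iota i (rho z.2 (cov G w z.1 (e k))) = (z.2 (e m)) k • iota m (rho z.2 (cov G w z.1 (e k))) := by
    intro k
    rw [Finset.sum_eq_single m]
    · simp
    · intro i _ hi
      simp [hi]
    · intro hm
      exact absurd (Finset.mem_univ _) hm
  simp only [h4]
  rw [← del1_cov_eq, del1_lin (del1_cov G w z.1) (z.2 (e m)), map_sum, map_sum]
  simp only [map_smul, del1_cov_eq]

theorem dloc_smooth {U : Set (E n)} (hU : IsOpen U) {w : E n → X n} (hw : ContDiffOn ℝ ∞ w U) :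
    ContDiffOn ℝ ∞ (dloc w) U := by
  have h1 : ContDiffOn ℝ ∞ (fderiv ℝ w) U := hw.fderiv_of_isOpen hU (by simp)
  unfold dloc
  refine ContDiffOn.sum fun i _ => ?_
  exact (eps i).contDiff.comp_contDiffOn (h1.clm_apply contDiffOn_const)

theorem del1_ginv_smooth {G : Coef n} {U : Set (E n)} (h : IsMet G U) (j k : Fin n) :
    ContDiffOn ℝ ∞ (fun y => ginv G y j k) U := by
  have h1 : ContDiffOn ℝ ∞ (fun y => ContinuousLinearMap.inverse (G y)
      (EuclideanSpace.proj k : E n →L[ℝ] ℝ)) U := (inverse_smooth h).clm_apply contDiffOn_const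
  exact (EuclideanSpace.proj j : E n →L[ℝ] ℝ).contDiff.comp_contDiffOn h1

theorem del1_christ_smooth {G : Coef n} {U : Set (E n)} (h : IsMet G U) (u v : E n) (l : Fin n) :
    ContDiffOn ℝ ∞ (fun y => (christ G y u v) l) U := by
  have h1 : ContDiffOn ℝ ∞ (fun y => christ G y u v) U :=
    ((christ_smooth h).clm_apply contDiffOn_const).clm_apply contDiffOn_const
  exact (EuclideanSpace.proj l : E n →L[ℝ] ℝ).contDiff.comp_contDiffOn h1

theorem deloc_smooth {G : Coef n} {U : Set (E n)} (h : IsMet G U) {w : E n → X n}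
    (hw : ContDiffOn ℝ ∞ w U) : ContDiffOn ℝ ∞ (deloc G w) U := by
  have h1 : ContDiffOn ℝ ∞ (fderiv ℝ w) U := hw.fderiv_of_isOpen h.isOpen (by simp)
  have h2 : ∀ u : E n, ContDiffOn ℝ ∞ (fun y => cov G w y u) U := by
    intro u
    unfold cov
    refine (h1.clm_apply contDiffOn_const).sub ?_
    simp only [del1_act_apply]
    refine ContDiffOn.sum fun k _ => ContDiffOn.sum fun l _ => ?_
    exact (del1_christ_smooth h u (e k) l).smul
      ((eps k).contDiff.comp_contDiffOn ((iota l).contDiff.comp_contDiffOn hw))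
  unfold deloc
  refine ContDiffOn.neg (ContDiffOn.sum fun j _ => ContDiffOn.sum fun k _ => ?_)
  exact (del1_ginv_smooth h j k).smul ((iota j).contDiff.comp_contDiffOn (h2 (e k)))

end ANCO
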