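import Pool.Agent.Helper39.Anco.Fock

/-! Exterior multiplication and contraction on the Fock space. -/

open scoped ContDiff Topology Manifold InnerProductSpace
open Set MeasureTheory

set_option maxSynthPendingDepth 3

noncomputable section
namespace ANCO

variable {n : ℕ}

theorem fock1_eps_apply (i : Fin n) (w : X n) (J : Finset (Fin n)) :
    eps i w J = if i ∈ J then sg i J * w (J.erase i) else 0 := rfl

theorem fock1_iota_apply (i : Fin n) (w : X n) (J : Finset (Fin n)) :
    iota i w J = if i ∈ J then 0 else sg i J * w (insert i J) := rfl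

theorem fock1_eX_apply (I J : Finset (Fin n)) : eX I J = if J = I then 1 else 0 := by
  simp [eX, EuclideanSpace.single_apply]

theorem fock1_sg_insert {i j : Fin n} {J : Finset (Fin n)} (hj : j ∉ J) :
    sg i (insert j J) = (if j < i then -1 else 1) * sg i J := by
  unfold sg
  rw [Finset.filter_insert]
  by_cases h : j < i
  · rw [if_pos h, if_pos h, Finset.card_insert_of_notMem, pow_succ]
    · ring
    · simp [hj]
  · rw [if_neg h, if_neg h, one_mul]

theorem fock1_sg_erase {i j : Fin n} {J : Finset (Fin n)} (hj : j ∈ J) :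
    sg i (J.erase j) = (if j < i then -1 else 1) * sg i J := by
  have h := fock1_sg_insert (i := i) (Finset.notMem_erase j J)
  rw [Finset.insert_erase hj] at h
  rw [h]
  by_cases h' : j < i <;> simp [h']

theorem fock1_sg_sq (i : Fin n) (J : Finset (Fin n)) : sg i J * sg i J = 1 := by
  unfold sg
  rw [← pow_add, ← two_mul, pow_mul]
  norm_num

theorem fock1_sg_insert_self (i : Fin n) (J : Finset (Fin n)) : sg i (insert i J) = sg i J := by
  by_cases h : i ∈ J
  · rw [Finset.insert_eq_of_mem h]
  · rw [fock1_sg_insert h]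
    simp

theorem fock1_sg_erase_self (i : Fin n) (J : Finset (Fin n)) : sg i (J.erase i) = sg i J := by
  by_cases h : i ∈ J
  · rw [fock1_sg_erase h]
    simp
  · rw [Finset.erase_eq_of_notMem h]

theorem eps_eX (i : Fin n) (I : Finset (Fin n)) :
    eps i (eX I) = if i ∈ I then 0 else sg i I • eX (insert i I) := by
  ext J
  rw [fock1_eps_apply, fock1_eX_apply]
  by_cases hI : i ∈ I
  · rw [if_pos hI]
    by_cases hJ : i ∈ J
    · rw [if_pos hJ, if_neg]
      · simp
      · rintro rfl
        simp at hI
    · rw [if_neg hJ]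
      rfl
  · rw [if_neg hI, PiLp.smul_apply, fock1_eX_apply]
    by_cases hJ : i ∈ J
    · rw [if_pos hJ]
      by_cases h : J.erase i = I
      · have h' : J = insert i I := by rw [← h, Finset.insert_erase hJ]
        rw [if_pos h, if_pos h', h', fock1_sg_insert_self]
        simp
      · have h' : J ≠ insert i I := by
          rintro rfl
          exact h (Finset.erase_insert hI)
        rw [if_neg h, if_neg h']
        simp
    · have h' : J ≠ insert i I := by
        rintro rfl
        simp at hJ
      rw [if_neg hJ, if_neg h']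
      simp

theorem iota_eX (i : Fin n) (I : Finset (Fin n)) :
    iota i (eX I) = if i ∈ I then sg i I • eX (I.erase i) else 0 := by
  ext J
  rw [fock1_iota_apply, fock1_eX_apply]
  by_cases hI : i ∈ I
  · rw [if_pos hI, PiLp.smul_apply, fock1_eX_apply]
    by_cases hJ : i ∈ J
    · have h' : J ≠ I.erase i := by
        rintro rfl
        simp at hJ
      rw [if_pos hJ, if_neg h']
      simp
    · rw [if_neg hJ]
      by_cases h : insert i J = I
      · have h' : J = I.erase i := by rw [← h, Finset.erase_insert hJ]
        rw [if_pos h, if_pos h', h', fock1_sg_erase_self]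
        simp
      · have h' : J ≠ I.erase i := by
          rintro rfl
          exact h (Finset.insert_erase hI)
        rw [if_neg h, if_neg h']
        simp
  · rw [if_neg hI]
    by_cases hJ : i ∈ J
    · rw [if_pos hJ]
      rfl
    · rw [if_neg hJ, if_neg]
      · simp
      · rintro rfl
        simp at hI

theorem eps_eps (i j : Fin n) (x : X n) : eps i (eps j x) = -eps j (eps i x) := by
  ext J
  rw [PiLp.neg_apply, fock1_eps_apply, fock1_eps_apply, fock1_eps_apply, fock1_eps_apply]
  rcases eq_or_ne i j with rfl | hij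
  · simp
  by_cases hi : i ∈ J
  · by_cases hj : j ∈ J
    · rw [if_pos hi, if_pos (Finset.mem_erase.mpr ⟨hij.symm, hj⟩), if_pos hj,
        if_pos (Finset.mem_erase.mpr ⟨hij, hi⟩), fock1_sg_erase hi, fock1_sg_erase hj,
        Finset.erase_right_comm]
      rcases lt_or_gt_of_ne hij with h | h
      · rw [if_pos h, if_neg h.not_gt]
        ring
      · rw [if_pos h, if_neg h.not_gt]
        ring
    · rw [if_pos hi, if_neg (fun h => hj (Finset.mem_of_mem_erase h)), if_neg hj]
      simp
  · rw [if_neg hi, if_neg (fun h => hi (Finset.mem_of_mem_erase h))]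
    simp

theorem iota_iota (i j : Fin n) (x : X n) : iota i (iota j x) = -iota j (iota i x) := by
  ext J
  rw [PiLp.neg_apply, fock1_iota_apply, fock1_iota_apply, fock1_iota_apply, fock1_iota_apply]
  rcases eq_or_ne i j with rfl | hij
  · simp
  by_cases hi : i ∈ J
  · rw [if_pos hi, if_pos (Finset.mem_insert_of_mem hi)]
    simp
  · by_cases hj : j ∈ J
    · rw [if_pos hj, if_pos (Finset.mem_insert_of_mem hj)]
      simp
    · have h1 : j ∉ insert i J := by
        rw [Finset.mem_insert]
        rintro (h | h)
        · exact hij h.symm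
        · exact hj h
      have h2 : i ∉ insert j J := by
        rw [Finset.mem_insert]
        rintro (h | h)
        · exact hij h
        · exact hi h
      rw [if_neg hi, if_neg hj, if_neg h1, if_neg h2, fock1_sg_insert hi, fock1_sg_insert hj,
        Finset.insert_comm]
      rcases lt_or_gt_of_ne hij with h | h
      · rw [if_pos h, if_neg h.not_gt]
        ring
      · rw [if_pos h, if_neg h.not_gt]
        ring

theorem eps_iota (i j : Fin n) (x : X n) :
    eps i (iota j x) + iota j (eps i x) = if i = j then x else 0 := by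
  ext J
  rw [PiLp.add_apply, fock1_eps_apply, fock1_iota_apply, fock1_iota_apply, fock1_eps_apply]
  rcases eq_or_ne i j with rfl | hij
  · rw [if_pos rfl]
    by_cases hi : i ∈ J
    · rw [if_pos hi, if_neg (Finset.notMem_erase i J), if_pos hi, fock1_sg_erase_self,
        Finset.insert_erase hi, ← mul_assoc, fock1_sg_sq]
      simp
    · rw [if_neg hi, if_neg hi, if_pos (Finset.mem_insert_self i J), fock1_sg_insert_self,
        Finset.erase_insert hi, ← mul_assoc, fock1_sg_sq]
      simp
  · rw [if_neg hij]
    by_cases hj : j ∈ J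
    · rw [if_pos hj, if_pos (Finset.mem_erase.mpr ⟨hij.symm, hj⟩)]
      simp
    · rw [if_neg hj, if_neg (fun h => hj (Finset.mem_of_mem_erase h))]
      by_cases hi : i ∈ J
      · rw [if_pos hi, if_pos (Finset.mem_insert_of_mem hi), fock1_sg_erase hi,
          fock1_sg_insert hj, Finset.erase_insert_of_ne hij.symm]
        rcases lt_or_gt_of_ne hij with h | h
        · rw [if_pos h, if_neg h.not_gt]
          simp
          ring
        · rw [if_pos h, if_neg h.not_gt]
          simp
          ring
      · have h2 : i ∉ insert j J := by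
          rw [Finset.mem_insert]
          rintro (h | h)
          · exact hij h
          · exact hi h
        rw [if_neg hi, if_neg h2]
        simp

theorem fock1_inner (x y : X n) : ⟪x, y⟫_ℝ = ∑ I, x I * y I := by
  rw [PiLp.inner_apply]
  refine Finset.sum_congr rfl fun I _ => ?_
  simp [mul_comm]

theorem inner_eps (i : Fin n) (x y : X n) : ⟪eps i x, y⟫_ℝ = ⟪x, iota i y⟫_ℝ := by
  rw [fock1_inner, fock1_inner]
  have h1 : ∑ J, eps i x J * y J = ∑ J ∈ Finset.univ.filter (fun J : Finset (Fin n) => i ∈ J),
      sg i J * x (J.erase i) * y J := by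
    rw [Finset.sum_filter]
    refine Finset.sum_congr rfl fun J _ => ?_
    rw [fock1_eps_apply]
    split_ifs <;> simp
  have h2 : ∑ J, x J * iota i y J = ∑ J ∈ Finset.univ.filter (fun J : Finset (Fin n) => i ∉ J),
      x J * (sg i J * y (insert i J)) := by
    rw [Finset.sum_filter]
    refine Finset.sum_congr rfl fun J _ => ?_
    rw [fock1_iota_apply]
    split_ifs <;> simp_all
  rw [h1, h2]
  refine Finset.sum_nbij' (fun J => J.erase i) (fun J => insert i J) ?_ ?_ ?_ ?_ ?_
  · intro J _
    simp
  · intro J _
    simp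
  · intro J hJ
    exact Finset.insert_erase (by simpa using hJ)
  · intro J hJ
    exact Finset.erase_insert (by simpa using hJ)
  · intro J hJ
    rw [fock1_sg_erase_self, Finset.insert_erase (by simpa using hJ)]
    ring

theorem fock1_norm (i : Fin n) (x : X n) : ‖eps i x‖ ^ 2 + ‖iota i x‖ ^ 2 = ‖x‖ ^ 2 := by
  have h := eps_iota i i x
  rw [if_pos rfl] at h
  have h1 : ⟪eps i x, eps i x⟫_ℝ = ⟪x, iota i (eps i x)⟫_ℝ := inner_eps i x (eps i x)
  have h2 : ⟪iota i x, iota i x⟫_ℝ = ⟪x, eps i (iota i x)⟫_ℝ := by
    rw [← inner_eps, real_inner_comm]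
  rw [← real_inner_self_eq_norm_sq, ← real_inner_self_eq_norm_sq, ← real_inner_self_eq_norm_sq,
    h1, h2, ← inner_add_right, add_comm, h]

theorem norm_eps_le (i : Fin n) (x : X n) : ‖eps i x‖ ≤ ‖x‖ := by
  have h := fock1_norm i x
  have h1 : ‖eps i x‖ ^ 2 ≤ ‖x‖ ^ 2 := by nlinarith [sq_nonneg ‖iota i x‖]
  exact (sq_le_sq₀ (norm_nonneg _) (norm_nonneg _)).mp h1

theorem norm_iota_le (i : Fin n) (x : X n) : ‖iota i x‖ ≤ ‖x‖ := by
  have h := fock1_norm i x
  have h1 : ‖iota i x‖ ^ 2 ≤ ‖x‖ ^ 2 := by nlinarith [sq_nonneg ‖eps i x‖]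
  exact (sq_le_sq₀ (norm_nonneg _) (norm_nonneg _)).mp h1

theorem epsv_proj (i : Fin n) : epsv (EuclideanSpace.proj i : E n →L[ℝ] ℝ) = (eps i : X n →L[ℝ] X n) := by
  unfold epsv
  rw [Finset.sum_eq_single i]
  · simp [e]
  · intro j _ hj
    simp [e, Ne.symm hj]
  · simp

theorem iotav_e (i : Fin n) : iotav (e i) = (iota i : X n →L[ℝ] X n) := by
  unfold iotav
  rw [Finset.sum_eq_single i]
  · simp [e]
  · intro j _ hj
    simp [e, hj]
  · simp

theorem epsv_iotav (α : E n →L[ℝ] ℝ) (v : E n) (x : X n) :
    epsv α (iotav v x) + iotav v (epsv α x) = α v • x := by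
  have hv : v = ∑ j, v j • e j := by
    ext k
    simp [e, Pi.single_apply]
  have h1 : epsv α (iotav v x) = ∑ j, ∑ k, (α (e j) * v k) • eps j (iota k x) := by
    simp only [epsv, iotav, ContinuousLinearMap.sum_apply, ContinuousLinearMap.smul_apply,
      map_sum, map_smul, Finset.smul_sum, smul_smul]
    rw [Finset.sum_comm]
    refine Finset.sum_congr rfl fun j _ => Finset.sum_congr rfl fun k _ => ?_
    rw [mul_comm]
  have h2 : iotav v (epsv α x) = ∑ j, ∑ k, (α (e j) * v k) • iota k (eps j x) := by
    simp only [epsv, iotav, ContinuousLinearMap.sum_apply, ContinuousLinearMap.smul_apply,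
      map_sum, map_smul, Finset.smul_sum, smul_smul]
  rw [h1, h2, ← Finset.sum_add_distrib]
  have h3 : ∀ j, (∑ k, (α (e j) * v k) • eps j (iota k x)) +
      ∑ k, (α (e j) * v k) • iota k (eps j x) = (α (e j) * v j) • x := by
    intro j
    rw [← Finset.sum_add_distrib, Finset.sum_eq_single j]
    · rw [← smul_add, eps_iota, if_pos rfl]
    · intro k _ hk
      rw [← smul_add, eps_iota, if_neg (Ne.symm hk), smul_zero]
    · simp
  rw [Finset.sum_congr rfl fun j _ => h3 j, ← Finset.sum_smul]
  congr 1
  conv_rhs => rw [hv]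
  rw [map_sum]
  refine Finset.sum_congr rfl fun j _ => ?_
  rw [map_smul, smul_eq_mul, mul_comm]

end ANCO
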