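import Pool.Agent.Helper39.Anco.Chr

/-!
# Skew symmetries of the curvature tensor (module ANCO-RSK)
-/

open scoped ContDiff Topology Manifold InnerProductSpace
open Set MeasureTheory

set_option maxSynthPendingDepth 3

noncomputable section
namespace ANCO

variable {n : ℕ}

theorem rsk_riem (G : Coef n) (y u v : E n) : riem G y u v = -riem G y v u := by
  unfold riem
  abel

theorem rm_skew12 (G : Coef n) (y u v w z : E n) : rm G y u v w z = -rm G y v u w z := by
  unfold rm
  rw [rsk_riem, neg_apply, map_neg, neg_apply]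

theorem rsk_fderiv_diff {G : Coef n} {U : Set (E n)} (h : IsMet G U) {y : E n} (hy : y ∈ U) :
    DifferentiableAt ℝ (fderiv ℝ G) y :=
  ((chr_fderiv_smooth h).contDiffAt (h.isOpen.mem_nhds hy)).differentiableAt (by simp)

theorem rsk_christ_diff {G : Coef n} {U : Set (E n)} (h : IsMet G U) {y : E n} (hy : y ∈ U) :
    DifferentiableAt ℝ (christ G) y :=
  ((christ_smooth h).contDiffAt (h.isOpen.mem_nhds hy)).differentiableAt (by simp)

/-- the derivative of `y ↦ G y (christ G y w u) v` -/
theorem rsk_deriv1 {G : Coef n} {U : Set (E n)} (h : IsMet G U) {y : E n} (hy : y ∈ U)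
    (w u v : E n) : HasFDerivAt (fun y => G y (christ G y w u) v)
      (((fderiv ℝ G y).flip (christ G y w u)).flip v +
        ((G y).flip v) ∘L (((fderiv ℝ (christ G) y).flip w).flip u)) y := by
  have hG := (chr_differentiableAt h hy).hasFDerivAt
  have hC := (rsk_christ_diff h hy).hasFDerivAt
  have h1 := (hC.clm_apply (hasFDerivAt_const w y)).clm_apply (hasFDerivAt_const u y)
  have h2 := (hG.clm_apply h1).clm_apply (hasFDerivAt_const v y)
  refine h2.congr_fderiv ?_
  ext t
  simp [add_comm]

theorem rsk_second {G : Coef n} {U : Set (E n)} (h : IsMet G U) {y : E n} (hy : y ∈ U)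
    (t w u v : E n) : fderiv ℝ (fderiv ℝ G) y t w u v =
      fderiv ℝ G y t (christ G y w u) v + G y (fderiv ℝ (christ G) y t w u) v +
      (fderiv ℝ G y t (christ G y w v) u + G y (fderiv ℝ (christ G) y t w v) u) := by
  have hD := (rsk_fderiv_diff h hy).hasFDerivAt
  have h1 : HasFDerivAt (fun y => fderiv ℝ G y w u v)
      ((((fderiv ℝ (fderiv ℝ G) y).flip w).flip u).flip v) y := by
    have h2 := ((hD.clm_apply (hasFDerivAt_const w y)).clm_apply
      (hasFDerivAt_const u y)).clm_apply (hasFDerivAt_const v y)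
    refine h2.congr_fderiv ?_
    ext t
    simp
  have h3 := (rsk_deriv1 h hy w u v).add (rsk_deriv1 h hy w v u)
  have h4 : (fun y => fderiv ℝ G y w u v) =ᶠ[𝓝 y]
      ((fun y => G y (christ G y w u) v) + fun y => G y (christ G y w v) u) := by
    filter_upwards [h.isOpen.mem_nhds hy] with y' hy'
    rw [metric_compat h hy' w u v, h.symm y' hy' u]
    rfl
  have h5 := (h3.congr_of_eventuallyEq h4).unique h1
  have h6 := congrArg (fun L => L t) h5
  simp only [add_apply, ContinuousLinearMap.comp_apply, ContinuousLinearMap.flip_apply] at h6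
  rw [← h6]

theorem rsk_second_symm {G : Coef n} {U : Set (E n)} (h : IsMet G U) {y : E n} (hy : y ∈ U)
    (t w : E n) : fderiv ℝ (fderiv ℝ G) y t w = fderiv ℝ (fderiv ℝ G) y w t := by
  have h1 : ContDiffAt ℝ ∞ G y := h.smooth.contDiffAt (h.isOpen.mem_nhds hy)
  refine (h1.isSymmSndFDerivAt ?_) t w
  rw [minSmoothness_of_isRCLikeNormedField]
  exact WithTop.coe_le_coe.mpr (le_top : (2 : ℕ∞) ≤ ⊤)

theorem rm_skew34 {G : Coef n} {U : Set (E n)} (h : IsMet G U) {y : E n} (hy : y ∈ U)
    (u v w z : E n) : rm G y u v w z = -rm G y u v z w := by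
  have h1 := rsk_second h hy u v w z
  have h2 := rsk_second h hy v u w z
  have h3 : fderiv ℝ (fderiv ℝ G) y u v w z = fderiv ℝ (fderiv ℝ G) y v u w z := by
    rw [rsk_second_symm h hy u v]
  rw [h1, h2] at h3
  rw [metric_compat h hy u, metric_compat h hy u, metric_compat h hy v,
    metric_compat h hy v] at h3
  unfold rm riem
  simp only [add_apply, sub_apply, map_add, map_sub, ContinuousLinearMap.comp_apply]
  have e1 := h.symm y hy (christ G y v w) (christ G y u z)
  have e2 := h.symm y hy (christ G y v z) (christ G y u w)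
  linarith

end ANCO
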