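import Pool.Agent.Helper39.Anco.Chr
import Pool.Agent.Helper39.Anco.Frame

/-! Module TANG: horizontal vectors are tangent to the bundle of orthonormal frames. -/

open scoped ContDiff Topology Manifold InnerProductSpace
open Set MeasureTheory

set_option maxSynthPendingDepth 3

noncomputable section
namespace ANCO

variable {n : ℕ}

theorem tang_exp_orth (A : E n →L[ℝ] E n) (hA : ∀ p q, ⟪A p, q⟫_ℝ + ⟪p, A q⟫_ℝ = 0) (t : ℝ)
    {k : E n →L[ℝ] E n} (hk : IsOrth k) : IsOrth (NormedSpace.exp (t • A) ∘L k) := by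
  have hskew : t • A ∈ skewAdjoint (E n →L[ℝ] E n) := by
    rw [skewAdjoint.mem_iff, ContinuousLinearMap.star_eq_adjoint]
    ext1 x
    refine ext_inner_right ℝ fun y => ?_
    rw [ContinuousLinearMap.adjoint_inner_left]
    have := hA x y
    simp only [ContinuousLinearMap.smul_apply, ContinuousLinearMap.neg_apply, inner_smul_left,
      inner_smul_right, inner_neg_left]
    simp only [conj_trivial]
    linear_combination t * this
  letI : NormedAlgebra ℚ (E n →L[ℝ] E n) := NormedAlgebra.restrictScalars ℚ ℝ _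
  have hu := NormedSpace.exp_mem_unitary_of_mem_skewAdjoint hskew
  intro x y
  simp only [ContinuousLinearMap.comp_apply]
  rw [ContinuousLinearMap.inner_map_map_of_mem_unitary hu, hk]

theorem tang_exists_curve {G : Coef n} {U : Set (E n)} (h : IsMet G U) {z : Fr n}
    (hz : z.1 ∈ U) (hiso : IsoFr G z) (u : E n) : ∃ γ : ℝ → Fr n, γ 0 = z ∧
      HasDerivAt γ (hv G u z) 0 ∧ (∀ᶠ t in 𝓝 (0 : ℝ), (γ t).1 ∈ U ∧ IsoFr G (γ t)) := by
  obtain ⟨B, hB⟩ := exists_frame h
  obtain ⟨y, b⟩ := z
  simp only at hz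
  have hBy := hB.2 y hz
  obtain ⟨k, hk, hbk⟩ := iso_diff h hz hBy hiso
  obtain ⟨c, hc1, hc2⟩ := iso_inv h hz hBy
  simp only at hc1 hc2
  set v : E n := b u with hvdef
  set N : E n →L[ℝ] E n := fderiv ℝ B y v + (christ G y v) ∘L (B y) with hN
  set A : E n →L[ℝ] E n := -(c ∘L N) with hA
  have hUn : U ∈ 𝓝 y := h.isOpen.mem_nhds hz
  have hBd : DifferentiableAt ℝ B y :=
    ((hB.1 y hz).contDiffAt hUn).differentiableAt (by simp)
  have hGd : DifferentiableAt ℝ G y :=
    ((h.smooth y hz).contDiffAt hUn).differentiableAt (by simp)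
  have hBA : ∀ x, B y (A x) = -N x := by
    intro x
    have := congrArg (fun T : E n →L[ℝ] E n => T (N x)) hc2
    simp only [ContinuousLinearMap.comp_apply, ContinuousLinearMap.id_apply] at this
    simp only [hA, ContinuousLinearMap.neg_apply, ContinuousLinearMap.comp_apply, map_neg]
    rw [this]
  have hskew : ∀ p q, ⟪A p, q⟫_ℝ + ⟪p, A q⟫_ℝ = 0 := by
    intro p q
    have e1 : ⟪A p, q⟫_ℝ = -G y (N p) (B y q) := by
      rw [← hBy (A p) q]
      simp only
      rw [hBA, map_neg, ContinuousLinearMap.neg_apply]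
    have e2 : ⟪p, A q⟫_ℝ = -G y (B y p) (N q) := by
      rw [← hBy p (A q)]
      simp only
      rw [hBA, map_neg]
    have hconst : (fun y' => G y' (B y' p) (B y' q)) =ᶠ[𝓝 y] fun _ => ⟪p, q⟫_ℝ := by
      filter_upwards [hUn] with y' hy'
      exact hB.2 y' hy' p q
    have hBp : HasFDerivAt (fun y' => B y' p) ((fderiv ℝ B y).flip p) y := by
      have := hBd.hasFDerivAt.clm_apply (hasFDerivAt_const p y)
      refine this.congr_fderiv ?_
      ext w; simp
    have hBq : HasFDerivAt (fun y' => B y' q) ((fderiv ℝ B y).flip q) y := by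
      have := hBd.hasFDerivAt.clm_apply (hasFDerivAt_const q y)
      refine this.congr_fderiv ?_
      ext w; simp
    have h3 := (hGd.hasFDerivAt.clm_apply hBp).clm_apply hBq
    have h4 := h3.unique ((hasFDerivAt_const (⟪p, q⟫_ℝ) y).congr_of_eventuallyEq hconst)
    have h5 := congrArg (fun T : E n →L[ℝ] ℝ => T v) h4
    simp only [ContinuousLinearMap.add_apply, ContinuousLinearMap.comp_apply,
      ContinuousLinearMap.flip_apply, ContinuousLinearMap.zero_apply] at h5
    have h6 := metric_compat h hz v (B y p) (B y q)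
    rw [e1, e2]
    simp only [hN, ContinuousLinearMap.add_apply, ContinuousLinearMap.comp_apply, map_add]
    linarith
  refine ⟨fun t => (y + t • v, B (y + t • v) ∘L (NormedSpace.exp (t • A) ∘L k)), ?_, ?_, ?_⟩
  · simp only [zero_smul, add_zero, NormedSpace.exp_zero]
    rw [hbk]
    rfl
  · have hvk : v = B y (k u) := by rw [hvdef, hbk]; rfl
    have hline : HasDerivAt (fun t : ℝ => y + t • v) v 0 := by
      simpa using ((hasDerivAt_id (0 : ℝ)).smul_const v).const_add y
    have hBl : HasDerivAt (fun t : ℝ => B (y + t • v)) (fderiv ℝ B y v) 0 := by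
      have h1 : HasFDerivAt B (fderiv ℝ B y) (y + (0 : ℝ) • v) := by
        simpa using hBd.hasFDerivAt
      exact h1.comp_hasDerivAt (0 : ℝ) hline
    have hE : HasDerivAt (fun t : ℝ => NormedSpace.exp (t • A)) A 0 := by
      have := hasDerivAt_exp_smul_const (𝕂 := ℝ) A (0 : ℝ)
      simpa using this
    have hEk : HasDerivAt (fun t : ℝ => NormedSpace.exp (t • A) ∘L k) (A ∘L k) 0 := by
      have := hE.clm_comp (hasDerivAt_const (0 : ℝ) k)
      simpa using this
    have hprod := hBl.clm_comp hEk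
    have := hline.prodMk hprod
    refine this.congr_deriv ?_
    unfold hv
    ext1
    · rfl
    · simp only [zero_smul, add_zero, NormedSpace.exp_zero]
      ext1 x
      simp only [ContinuousLinearMap.add_apply, ContinuousLinearMap.comp_apply,
        ContinuousLinearMap.neg_apply]
      rw [hBA, hbk]
      simp only [hN, ContinuousLinearMap.add_apply, ContinuousLinearMap.comp_apply,
        ContinuousLinearMap.one_apply]
      rw [← hvk]
      abel
  · have hcont : Filter.Tendsto (fun t : ℝ => y + t • v) (𝓝 0) (𝓝 y) := by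
      have : Continuous fun t : ℝ => y + t • v := by fun_prop
      simpa using this.tendsto 0
    filter_upwards [hcont.eventually_mem hUn] with t ht
    exact ⟨ht, iso_right (hB.2 _ ht) (tang_exp_orth A hskew t hk)⟩

/-! ## G6 TANG : file Anco/Tang.lean -/

theorem Hd_eq_of_iso {W : Type} [NormedAddCommGroup W] [NormedSpace ℝ W] {G : Coef n}
    {U : Set (E n)} (h : IsMet G U) {F₁ F₂ : Fr n → W} {z : Fr n} (hz : z.1 ∈ U)
    (hiso : IsoFr G z) (h₁ : DifferentiableAt ℝ F₁ z) (h₂ : DifferentiableAt ℝ F₂ z)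
    (heq : ∀ z' : Fr n, z'.1 ∈ U → IsoFr G z' → F₁ z' = F₂ z') (u : E n) :
    Hd G u F₁ z = Hd G u F₂ z := by
  obtain ⟨γ, h0, hd, hev⟩ := tang_exists_curve h hz hiso u
  have e1 : HasDerivAt (fun t => F₁ (γ t)) (fderiv ℝ F₁ z (hv G u z)) 0 := by
    have : HasFDerivAt F₁ (fderiv ℝ F₁ z) (γ 0) := by rw [h0]; exact h₁.hasFDerivAt
    exact this.comp_hasDerivAt (0 : ℝ) hd
  have e2 : HasDerivAt (fun t => F₂ (γ t)) (fderiv ℝ F₂ z (hv G u z)) 0 := by
    have : HasFDerivAt F₂ (fderiv ℝ F₂ z) (γ 0) := by rw [h0]; exact h₂.hasFDerivAt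
    exact this.comp_hasDerivAt (0 : ℝ) hd
  have e3 : (fun t => F₁ (γ t)) =ᶠ[𝓝 0] fun t => F₂ (γ t) := by
    filter_upwards [hev] with t ht
    exact heq _ ht.1 ht.2
  exact e1.unique (e2.congr_of_eventuallyEq e3)

end ANCO
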