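import Pool.Agent.Helper39.Anco.Fock1

open scoped ContDiff Topology Manifold InnerProductSpace
open Set MeasureTheory

set_option maxSynthPendingDepth 3

noncomputable section
namespace ANCO

variable {n : ℕ}

private theorem walg_inner_iota (i : Fin n) (x y : X n) : ⟪iota i x, y⟫_ℝ = ⟪x, eps i y⟫_ℝ := by
  rw [real_inner_comm, ← inner_eps, real_inner_comm]

theorem weitz_alg (R : Fin n → Fin n → Fin n → Fin n → ℝ) (κ : ℝ) (hκ : 0 ≤ κ)
    (h12 : ∀ i j k l, R i j k l = -R j i k l) (h34 : ∀ i j k l, R i j k l = -R i j l k)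
    (hop : ∀ c : Fin n → Fin n → ℝ, -κ * ∑ i, ∑ j, c i j * (c i j - c j i) ≤
      ∑ i, ∑ j, ∑ k, ∑ l, c i j * c k l * R i j l k) (x : X n) :
    -(2 * (n : ℝ) ^ 2 * κ) * ‖x‖ ^ 2 ≤
      ⟪∑ i, ∑ j, ∑ k, ∑ l, R i j k l • eps i (iota j (eps k (iota l x))), x⟫_ℝ := by
  set c : Finset (Fin n) → Fin n → Fin n → ℝ := fun I i j => (eps i (iota j x)) I with hc
  have h1 : ⟪∑ i, ∑ j, ∑ k, ∑ l, R i j k l • eps i (iota j (eps k (iota l x))), x⟫_ℝ =
      ∑ I, ∑ i, ∑ j, ∑ k, ∑ l, c I i j * c I k l * R i j l k := by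
    simp only [sum_inner, real_inner_smul_left]
    rw [Finset.sum_comm]
    have h2 : ∀ i j k l, R j i k l * ⟪eps j (iota i (eps k (iota l x))), x⟫_ℝ =
        ∑ I, c I i j * c I k l * R i j l k := by
      intro i j k l
      rw [inner_eps, walg_inner_iota, h12, h34, neg_neg, PiLp.inner_apply, Finset.mul_sum]
      refine Finset.sum_congr rfl fun I _ => ?_
      simp only [hc, RCLike.inner_apply, conj_trivial]
      ring
    simp only [h2]
    rw [Finset.sum_comm]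
    rw [Finset.sum_comm]
    simp only [Finset.sum_comm (γ := Finset (Fin n))]
  have h3 : ∀ I, -κ * (2 * ∑ i, ∑ j, c I i j ^ 2) ≤
      ∑ i, ∑ j, ∑ k, ∑ l, c I i j * c I k l * R i j l k := by
    intro I
    refine le_trans ?_ (hop (c I))
    have h4 : ∑ i, ∑ j, c I i j * (c I i j - c I j i) ≤ 2 * ∑ i, ∑ j, c I i j ^ 2 := by
      have h5 : ∑ i, ∑ j, c I j i ^ 2 = ∑ i, ∑ j, c I i j ^ 2 := Finset.sum_comm
      have h6 : ∑ i, ∑ j, c I i j * (c I i j - c I j i) ≤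
          ∑ i, ∑ j, ((3 / 2) * c I i j ^ 2 + (1 / 2) * c I j i ^ 2) := by
        refine Finset.sum_le_sum fun i _ => Finset.sum_le_sum fun j _ => ?_
        nlinarith [sq_nonneg (c I i j + c I j i)]
      refine h6.trans (le_of_eq ?_)
      simp only [Finset.sum_add_distrib, ← Finset.mul_sum]
      rw [h5]
      ring
    nlinarith
  have h7 : ∑ I, ∑ i, ∑ j, c I i j ^ 2 ≤ (n : ℝ) ^ 2 * ‖x‖ ^ 2 := by
    have h8 : ∑ I, ∑ i, ∑ j, c I i j ^ 2 = ∑ i : Fin n, ∑ j : Fin n, ‖eps i (iota j x)‖ ^ 2 := by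
      rw [Finset.sum_comm]
      refine Finset.sum_congr rfl fun i _ => ?_
      rw [Finset.sum_comm]
      refine Finset.sum_congr rfl fun j _ => ?_
      rw [EuclideanSpace.norm_sq_eq]
      refine Finset.sum_congr rfl fun I _ => ?_
      simp [hc]
    rw [h8]
    calc ∑ i : Fin n, ∑ j : Fin n, ‖eps i (iota j x)‖ ^ 2
        ≤ ∑ i : Fin n, ∑ j : Fin n, ‖x‖ ^ 2 := by
          refine Finset.sum_le_sum fun i _ => Finset.sum_le_sum fun j _ => ?_
          exact pow_le_pow_left₀ (norm_nonneg _) ((norm_eps_le i _).trans (norm_iota_le j x)) 2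
      _ = (n : ℝ) ^ 2 * ‖x‖ ^ 2 := by
          simp
          ring
  rw [h1]
  calc -(2 * (n : ℝ) ^ 2 * κ) * ‖x‖ ^ 2 = -κ * (2 * ((n : ℝ) ^ 2 * ‖x‖ ^ 2)) := by ring
    _ ≤ -κ * (2 * ∑ I, ∑ i, ∑ j, c I i j ^ 2) := by nlinarith
    _ = ∑ I, -κ * (2 * ∑ i, ∑ j, c I i j ^ 2) := by simp only [Finset.mul_sum]
    _ ≤ _ := Finset.sum_le_sum fun I _ => h3 I

end ANCO
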