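import Pool.Agent.Helper39.Anco.Hcomm
import Pool.Agent.Helper39.Anco.Rsk
import Pool.Agent.Helper39.Anco.Del1
import Pool.Agent.Helper39.Anco.Fock1
import Pool.Agent.Helper39.Anco.Walg
import Pool.Agent.Helper39.Anco.Tang

/-! Module WEITZ: the Weitzenböck formula. -/

open scoped ContDiff Topology Manifold InnerProductSpace
open Set MeasureTheory

set_option maxSynthPendingDepth 3

noncomputable section
namespace ANCO

variable {n : ℕ}

/-! ## G10 WEITZ : file Anco/Weitz.lean -/

theorem dloc_dloc {U : Set (E n)} (hU : IsOpen U) {w : E n → X n} (hw : ContDiffOn ℝ ∞ w U)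
    {y : E n} (hy : y ∈ U) : dloc (dloc w) y = 0 := by
  have hUn : U ∈ 𝓝 y := hU.mem_nhds hy
  have hwy : ContDiffAt ℝ ∞ w y := (hw y hy).contDiffAt hUn
  have hd : DifferentiableAt ℝ (fderiv ℝ w) y := by
    have h1 : ContDiffAt ℝ ∞ (fderiv ℝ w) y := hwy.fderiv_right (by simp)
    exact h1.differentiableAt (by simp)
  have h1 : ∀ j, fderiv ℝ (dloc w) y (e j) = ∑ i, eps i (fderiv ℝ (fderiv ℝ w) y (e j) (e i)) := by
    intro j
    have h2 : HasFDerivAt (dloc w) (∑ i, (eps i) ∘L ((fderiv ℝ (fderiv ℝ w) y).flip (e i))) y := by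
      unfold dloc
      refine HasFDerivAt.fun_sum fun i _ => ?_
      have h3 := hd.hasFDerivAt.clm_apply (hasFDerivAt_const (e i) y)
      have h4 := ((eps i : X n →L[ℝ] X n).hasFDerivAt (x := fderiv ℝ w y (e i))).comp y h3
      refine h4.congr_fderiv ?_
      ext1 u
      simp
    rw [h2.fderiv]
    simp
  have hsymm : ∀ i j, fderiv ℝ (fderiv ℝ w) y (e j) (e i) = fderiv ℝ (fderiv ℝ w) y (e i) (e j) := by
    intro i j
    have : IsSymmSndFDerivAt ℝ w y := hwy.isSymmSndFDerivAt (by
      rw [minSmoothness_of_isRCLikeNormedField]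
      exact WithTop.coe_le_coe.2 (le_top : (2 : ℕ∞) ≤ ⊤))
    exact this (e j) (e i)
  unfold dloc at *
  rw [Finset.sum_congr rfl fun j _ => by rw [h1 j, map_sum]]
  set S := ∑ j : Fin n, ∑ i : Fin n, eps j (eps i (fderiv ℝ (fderiv ℝ w) y (e j) (e i))) with hS
  have h5 : S = -S := by
    conv_lhs => rw [hS, Finset.sum_comm]
    rw [hS, ← Finset.sum_neg_distrib]
    refine Finset.sum_congr rfl fun i _ => ?_
    rw [← Finset.sum_neg_distrib]
    refine Finset.sum_congr rfl fun j _ => ?_
    rw [eps_eps, hsymm]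
  have h6 : (2 : ℝ) • S = 0 := by
    rw [two_smul]
    nth_rewrite 1 [h5]
    simp
  exact (smul_eq_zero.1 h6).resolve_left two_ne_zero

theorem weitz_aux_lift (f g : E n → X n) (z : Fr n) :
    lift (fun y => f y + g y) z = lift f z + lift g z := by
  simp [lift]

theorem weitz_aux_diff {U : Set (Fr n)} (hU : IsOpen U) {F : Fr n → X n}
    (hF : ContDiffOn ℝ ∞ F U) {z : Fr n} (hz : z ∈ U) : DifferentiableAt ℝ F z :=
  ((hF z hz).contDiffAt (hU.mem_nhds hz)).differentiableAt (by simp)

theorem weitz_aux_Hd_sum {G : Coef n} {z : Fr n} (u : E n) (T : Fin n → X n →L[ℝ] X n)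
    (F : Fin n → Fr n → X n) (hF : ∀ i, DifferentiableAt ℝ (F i) z) :
    Hd G u (fun z' => ∑ i, T i (F i z')) z = ∑ i, T i (Hd G u (F i) z) := by
  unfold Hd
  have h1 : HasFDerivAt (fun z' => ∑ i, T i (F i z')) (∑ i, (T i) ∘L (fderiv ℝ (F i) z)) z := by
    refine HasFDerivAt.fun_sum fun i _ => ?_
    exact ((T i).hasFDerivAt (x := F i z)).comp z (hF i).hasFDerivAt
  rw [h1.fderiv]
  simp

theorem weitz_loc {G : Coef n} {U : Set (E n)} (h : IsMet G U) {w : E n → X n}
    (hw : ContDiffOn ℝ ∞ w U) {z : Fr n} (hz : z.1 ∈ U) (hiso : IsoFr G z) :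
    lift (fun y => dloc (deloc G w) y + deloc G (dloc w) y) z =
      -rough G w z + weitz G z (lift w z) := by
  have hUo : IsOpen (U ×ˢ (univ : Set (E n →L[ℝ] E n))) := h.isOpen.prod isOpen_univ
  have hzU : z ∈ U ×ˢ (univ : Set (E n →L[ℝ] E n)) := ⟨hz, mem_univ _⟩
  have hlift := lift_smooth hw
  have hH : ∀ i, ContDiffOn ℝ ∞ (Hd G (e i) (lift w)) (U ×ˢ univ) := fun i => Hd_smooth h _ hlift
  have hHd : ∀ i, DifferentiableAt ℝ (Hd G (e i) (lift w)) z := fun i =>
    weitz_aux_diff hUo (hH i) hzU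
  have hwd : ∀ y ∈ U, DifferentiableAt ℝ w y := fun y hy =>
    ((hw y hy).contDiffAt (h.isOpen.mem_nhds hy)).differentiableAt (by simp)
  have hde := deloc_smooth h hw
  have hdl := dloc_smooth h.isOpen hw
  have hded : DifferentiableAt ℝ (deloc G w) z.1 :=
    ((hde _ hz).contDiffAt (h.isOpen.mem_nhds hz)).differentiableAt (by simp)
  have hdld : DifferentiableAt ℝ (dloc w) z.1 :=
    ((hdl _ hz).contDiffAt (h.isOpen.mem_nhds hz)).differentiableAt (by simp)
  -- first term
  have e1 : ∀ j, Hd G (e j) (lift (deloc G w)) z =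
      -∑ i, iota i (Hd G (e j) (Hd G (e i) (lift w)) z) := by
    intro j
    have h1 : Hd G (e j) (lift (deloc G w)) z =
        Hd G (e j) (fun z' => ∑ i, (-(iota i : X n →L[ℝ] X n)) (Hd G (e i) (lift w) z')) z := by
      refine Hd_eq_of_iso h hz hiso (weitz_aux_diff hUo (lift_smooth hde) hzU) ?_ ?_ _
      · refine DifferentiableAt.fun_sum fun i _ => ?_
        exact ((-(iota i : X n →L[ℝ] X n)).differentiableAt).comp z (hHd i)
      · intro z' hz' hiso'
        rw [lift_deloc h hz' hiso' (hwd _ hz')]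
        simp
    rw [h1, weitz_aux_Hd_sum _ _ _ hHd]
    simp
  have e2 : ∀ j, Hd G (e j) (lift (dloc w)) z =
      ∑ i, eps i (Hd G (e j) (Hd G (e i) (lift w)) z) := by
    intro j
    have h1 : Hd G (e j) (lift (dloc w)) z =
        Hd G (e j) (fun z' => ∑ i, (eps i : X n →L[ℝ] X n) (Hd G (e i) (lift w) z')) z := by
      refine Hd_eq_of_iso h hz hiso (weitz_aux_diff hUo (lift_smooth hdl) hzU) ?_ ?_ _
      · refine DifferentiableAt.fun_sum fun i _ => ?_
        exact ((eps i : X n →L[ℝ] X n).differentiableAt).comp z (hHd i)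
      · intro z' hz' hiso'
        rw [lift_dloc h hz' (hwd _ hz')]
    rw [h1, weitz_aux_Hd_sum _ _ _ hHd]
  rw [weitz_aux_lift (dloc (deloc G w)) (deloc G (dloc w)), lift_dloc h hz hded,
    lift_deloc h hz hiso hdld]
  simp only [e1, e2]
  have hcomm : ∀ i j, Hd G (e i) (Hd G (e j) (lift w)) z = Hd G (e j) (Hd G (e i) (lift w)) z
      - ∑ k, ∑ l, rm G z.1 (z.2 (e i)) (z.2 (e j)) (z.2 (e k)) (z.2 (e l)) •
        eps k (iota l (lift w z)) := by
    intro i j
    have := Hd_comm_lift h hw hz hiso (e i) (e j)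
    rw [sub_eq_iff_eq_add] at this
    rw [this]
    abel
  have hei := fun (i j : Fin n) (x : X n) => eps_iota i j x
  have e3 : ∑ i, iota i (∑ j, eps j (Hd G (e i) (Hd G (e j) (lift w)) z)) =
      rough G w z - ∑ i, ∑ j, eps i (iota j (Hd G (e j) (Hd G (e i) (lift w)) z)) := by
    have e4 : ∀ i, iota i (∑ j, eps j (Hd G (e i) (Hd G (e j) (lift w)) z)) =
        Hd G (e i) (Hd G (e i) (lift w)) z -
        ∑ j, eps j (iota i (Hd G (e i) (Hd G (e j) (lift w)) z)) := by
      intro i
      rw [map_sum]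
      have e5 : ∀ j, iota i (eps j (Hd G (e i) (Hd G (e j) (lift w)) z)) =
          (if j = i then Hd G (e i) (Hd G (e j) (lift w)) z else 0) -
          eps j (iota i (Hd G (e i) (Hd G (e j) (lift w)) z)) := by
        intro j
        rw [← eps_iota j i]
        abel
      simp only [e5]
      rw [Finset.sum_sub_distrib, Finset.sum_ite_eq' Finset.univ i]
      simp
    simp only [e4]
    rw [Finset.sum_sub_distrib]
    unfold rough
    congr 1
    rw [Finset.sum_comm]
  rw [e3]
  have e6 : ∑ j, eps j (-∑ i, iota i (Hd G (e j) (Hd G (e i) (lift w)) z)) =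
      -∑ i, ∑ j, eps i (iota j (Hd G (e j) (Hd G (e i) (lift w)) z)) + weitz G z (lift w z) := by
    unfold weitz
    simp only [ContinuousLinearMap.sum_apply, ContinuousLinearMap.smul_apply,
      ContinuousLinearMap.comp_apply]
    rw [← Finset.sum_neg_distrib, ← Finset.sum_add_distrib]
    refine Finset.sum_congr rfl fun i _ => ?_
    rw [map_neg, map_sum, ← Finset.sum_neg_distrib, ← Finset.sum_neg_distrib,
      ← Finset.sum_add_distrib]
    refine Finset.sum_congr rfl fun j _ => ?_
    rw [hcomm i j, map_sub, map_sub, neg_sub, sub_eq_neg_add]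
    simp only [map_sum, map_smul]
  rw [e6]
  abel

theorem weitz_aux_rm (G : Coef n) (y u v w z : E n) (a b : ℝ) :
    rm G y (a • u) v w (b • z) = a * b * rm G y u v w z := by
  simp only [rm, riem, map_smul, ContinuousLinearMap.smul_apply, smul_eq_mul,
    ContinuousLinearMap.add_apply, ContinuousLinearMap.sub_apply, ContinuousLinearMap.comp_apply,
    map_add, map_sub]
  ring

theorem weitz_ge {G : Coef n} {U : Set (E n)} (h : IsMet G U) {z : Fr n} (hz : z.1 ∈ U)
    (hiso : IsoFr G z) {κ : ℝ} (hκ : 0 ≤ κ) (hc : CurvOpGE G (-κ) z.1) (x : X n) :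
    -(2 * (n : ℝ) ^ 2 * κ) * ‖x‖ ^ 2 ≤ ⟪weitz G z x, x⟫_ℝ := by
  have hmain := weitz_alg
    (fun i j k l => rm G z.1 (z.2 (e i)) (z.2 (e j)) (z.2 (e k)) (z.2 (e l))) κ hκ
    (fun i j k l => rm_skew12 _ _ _ _ _ _) (fun i j k l => rm_skew34 h hz _ _ _ _) ?_ x
  · refine hmain.trans (le_of_eq ?_)
    unfold weitz
    simp only [ContinuousLinearMap.sum_apply, ContinuousLinearMap.smul_apply,
      ContinuousLinearMap.comp_apply]
  · intro c
    let q := Fintype.equivFin (Fin n × Fin n)
    have h1 := hc (Fintype.card (Fin n × Fin n))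
      (fun a => c (q.symm a).1 (q.symm a).2 • z.2 (e (q.symm a).1)) (fun a => z.2 (e (q.symm a).2))
    have hsum : ∀ f : Fin n × Fin n → Fin n × Fin n → ℝ,
        ∑ a, ∑ b, f (q.symm a) (q.symm b) = ∑ i, ∑ j, ∑ k, ∑ l, f (i, j) (k, l) := by
      intro f
      rw [Equiv.sum_comp q.symm fun a => ∑ b, f a (q.symm b)]
      rw [Fintype.sum_prod_type]
      refine Finset.sum_congr rfl fun i _ => Finset.sum_congr rfl fun j _ => ?_
      rw [Equiv.sum_comp q.symm fun b => f (i, j) b, Fintype.sum_prod_type]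
    have h2 := hsum (fun a b => G z.1 (c a.1 a.2 • z.2 (e a.1)) (c b.1 b.2 • z.2 (e b.1)) *
      G z.1 (z.2 (e a.2)) (z.2 (e b.2)) - G z.1 (c a.1 a.2 • z.2 (e a.1)) (z.2 (e b.2)) *
      G z.1 (z.2 (e a.2)) (c b.1 b.2 • z.2 (e b.1)))
    have h3 := hsum (fun a b => rm G z.1 (c a.1 a.2 • z.2 (e a.1)) (z.2 (e a.2)) (z.2 (e b.2))
      (c b.1 b.2 • z.2 (e b.1)))
    simp only at h2 h3
    rw [h2, h3] at h1
    have hG : ∀ i j, G z.1 (z.2 (e i)) (z.2 (e j)) = if i = j then 1 else 0 := by
      intro i j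
      rw [hiso]
      simp [e, EuclideanSpace.inner_single_left]
    refine le_trans (le_of_eq ?_) (h1.trans (le_of_eq ?_))
    · congr 1
      refine Finset.sum_congr rfl fun i _ => Finset.sum_congr rfl fun j _ => ?_
      simp only [map_smul, ContinuousLinearMap.smul_apply, smul_eq_mul, hG]
      simp only [Finset.sum_sub_distrib, mul_ite, mul_one, mul_zero, ite_mul, zero_mul]
      have s1 : ∑ k, ∑ l, (if j = l then (if i = k then c i j * c k l else 0) else 0) =
          c i j * c i j := by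
        simp only [Finset.sum_ite_eq, Finset.mem_univ, if_true]
      have s2 : ∑ k, ∑ l, (if j = k then (if i = l then c i j * c k l else 0) else 0) =
          c i j * c j i := by
        have : ∀ k, ∑ l, (if j = k then (if i = l then c i j * c k l else 0) else 0) =
            if j = k then c i j * c k i else 0 := by
          intro k
          by_cases hk : j = k
          · simp [hk]
          · simp [hk]
        simp only [this, Finset.sum_ite_eq, Finset.mem_univ, if_true]
      rw [mul_sub, ← s1, ← s2]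
      congr 1
      · refine Finset.sum_congr rfl fun k _ => Finset.sum_congr rfl fun l _ => ?_
        split_ifs <;> ring
    · refine Finset.sum_congr rfl fun i _ => Finset.sum_congr rfl fun j _ =>
        Finset.sum_congr rfl fun k _ => Finset.sum_congr rfl fun l _ => ?_
      rw [weitz_aux_rm]

end ANCO
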