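import Pool.Agent.Helper39.Anco.Valch
import Pool.Agent.Helper39.Anco.Clos
import Pool.Agent.Helper39.Anco.Del1
import Pool.Agent.Helper39.Anco.Weitz

/-! ANCO module CLOSB: exterior derivative and codifferential on total forms. -/

open scoped ContDiff Topology Manifold InnerProductSpace
open Set MeasureTheory Filter

set_option maxSynthPendingDepth 3

noncomputable section
namespace ANCO

variable {n : ℕ} {M : Type} [TopologicalSpace M] [ChartedSpace (E n) M]

theorem closb_diff {s : M → E n → X n} (hs : s ∈ TForm n M) {x : M} {y : E n}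
    (hy : y ∈ tgt n M x) : DifferentiableAt ℝ (s x) y :=
  ((hs.2.1 x).contDiffAt ((chartAt (E n) x).open_target.mem_nhds hy)).differentiableAt (by simp)

theorem dT_mem [IsManifold (𝓡 n) ∞ M] (g : RMetric n M) {s : M → E n → X n}
    (hs : s ∈ TForm n M) : dT s ∈ TForm n M := by
  refine ⟨fun x y hy => by rw [dT, if_neg hy], fun x => ?_, fun x x' y hy => ?_⟩
  · refine (dloc_smooth (chartAt (E n) x).open_target (hs.2.1 x)).congr ?_
    intro y hy
    rw [dT, if_pos hy]
  · have hy1 := (mem_tr_source.1 hy).1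
    have hy2 := (mem_tr_source.1 (tr_mem hy)).1
    rw [dT, dT, if_pos hy1, if_pos hy2]
    have h1 := lift_dloc (g.isMet x) (z := (y, ContinuousLinearMap.id ℝ (E n))) hy1
      (closb_diff hs hy1)
    have h2 := lift_dloc (g.isMet x') (z := (tr n M x x' y, fderiv ℝ (tr n M x x') y ∘L
      ContinuousLinearMap.id ℝ (E n))) hy2 (closb_diff hs hy2)
    have h3 : ∀ i, Hd (g.g x) (e i) (lift (s x)) (y, ContinuousLinearMap.id ℝ (E n)) =
        Hd (g.g x') (e i) (lift (s x')) (tr n M x x' y, fderiv ℝ (tr n M x x') y ∘L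
          ContinuousLinearMap.id ℝ (E n)) := fun i => valch_Hd_nat g hs hy (e i)
    simp only [h3] at h1
    rw [← h2] at h1
    simp only [lift, rho_id, ContinuousLinearMap.comp_id] at h1
    exact h1

theorem deT_mem [IsManifold (𝓡 n) ∞ M] (g : RMetric n M) {s : M → E n → X n}
    (hs : s ∈ TForm n M) : deT g s ∈ TForm n M := by
  refine ⟨fun x y hy => by rw [deT, if_neg hy], fun x => ?_, fun x x' y hy => ?_⟩
  · refine (deloc_smooth (g.isMet x) (hs.2.1 x)).congr ?_
    intro y hy
    rw [deT, if_pos hy]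
  · have hy1 := (mem_tr_source.1 hy).1
    have hy2 := (mem_tr_source.1 (tr_mem hy)).1
    rw [deT, deT, if_pos hy1, if_pos hy2]
    have hb := (Bf_spec g x).2 y hy1
    have h1 := lift_deloc (g.isMet x) (z := (y, Bf g x y)) hy1 hb (closb_diff hs hy1)
    have h2 := lift_deloc (g.isMet x') (z := (tr n M x x' y, fderiv ℝ (tr n M x x') y ∘L
      Bf g x y)) hy2 (iso_tr g hy hb) (closb_diff hs hy2)
    have h3 : ∀ i, Hd (g.g x) (e i) (lift (s x)) (y, Bf g x y) =
        Hd (g.g x') (e i) (lift (s x')) (tr n M x x' y, fderiv ℝ (tr n M x x') y ∘L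
          Bf g x y) := fun i => valch_Hd_nat g hs hy (e i)
    simp only [h3] at h1
    rw [← h2] at h1
    simp only [lift, rho_comp] at h1
    obtain ⟨c, -, hc⟩ := iso_inv (g.isMet x) hy1 hb
    have h4 := congrArg (rho c) h1
    simp only [← rho_comp] at h4
    simp only at hc
    have h5 : ∀ v : X n, rho (Bf g x y ∘L c) v = v := by
      intro v
      rw [hc, rho_id]
    rw [h5] at h4
    rw [h4, ContinuousLinearMap.comp_assoc, hc, ContinuousLinearMap.comp_id]

theorem dT_add {s t : M → E n → X n} (hs : s ∈ TForm n M) (ht : t ∈ TForm n M) :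
    dT (s + t) = dT s + dT t := by
  funext x y
  show dT (s + t) x y = dT s x y + dT t x y
  by_cases hy : y ∈ tgt n M x
  · have h : fderiv ℝ ((s + t) x) y = fderiv ℝ (s x) y + fderiv ℝ (t x) y :=
      fderiv_add (closb_diff hs hy) (closb_diff ht hy)
    rw [dT, dT, dT, if_pos hy, if_pos hy, if_pos hy, dloc, dloc, dloc, ← Finset.sum_add_distrib]
    refine Finset.sum_congr rfl fun i _ => ?_
    rw [← map_add, h]
    rfl
  · simp [dT, hy]

theorem dT_smul (c : ℝ) {s : M → E n → X n} (hs : s ∈ TForm n M) : dT (c • s) = c • dT s := by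
  funext x y
  by_cases hy : y ∈ tgt n M x
  · have h : fderiv ℝ ((c • s) x) y = c • fderiv ℝ (s x) y :=
      fderiv_const_smul (closb_diff hs hy) c
    show dT (c • s) x y = c • dT s x y
    rw [dT, dT, if_pos hy, if_pos hy, dloc, dloc, Finset.smul_sum]
    refine Finset.sum_congr rfl fun i _ => ?_
    rw [h, ← map_smul]
    rfl
  · simp [dT, hy]

theorem closb_deloc_add (g : RMetric n M) {s t : M → E n → X n} (hs : s ∈ TForm n M)
    (ht : t ∈ TForm n M) {x : M} {y : E n} (hy : y ∈ tgt n M x) :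
    deloc (g.g x) ((s + t) x) y = deloc (g.g x) (s x) y + deloc (g.g x) (t x) y := by
  have h : fderiv ℝ ((s + t) x) y = fderiv ℝ (s x) y + fderiv ℝ (t x) y :=
    fderiv_add (closb_diff hs hy) (closb_diff ht hy)
  have h2 : ∀ u, cov (g.g x) ((s + t) x) y u = cov (g.g x) (s x) y u + cov (g.g x) (t x) y u := by
    intro u
    rw [cov, cov, cov, h]
    show _ - act (christ (g.g x) y u) (s x y + t x y) = _
    rw [map_add, add_apply]
    abel
  simp only [deloc, h2, map_add, smul_add, Finset.sum_add_distrib, neg_add]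

theorem closb_deloc_smul (g : RMetric n M) (c : ℝ) {s : M → E n → X n} (hs : s ∈ TForm n M)
    {x : M} {y : E n} (hy : y ∈ tgt n M x) :
    deloc (g.g x) ((c • s) x) y = c • deloc (g.g x) (s x) y := by
  have h : fderiv ℝ ((c • s) x) y = c • fderiv ℝ (s x) y :=
    fderiv_const_smul (closb_diff hs hy) c
  have h2 : ∀ u, cov (g.g x) ((c • s) x) y u = c • cov (g.g x) (s x) y u := by
    intro u
    rw [cov, cov, h]
    show _ - act (christ (g.g x) y u) (c • s x y) = _
    rw [map_smul, smul_apply, smul_sub]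
  simp only [deloc, h2, map_smul, smul_neg, Finset.smul_sum]
  congr 1
  refine Finset.sum_congr rfl fun j _ => Finset.sum_congr rfl fun k _ => ?_
  rw [smul_comm]

theorem deT_add (g : RMetric n M) {s t : M → E n → X n} (hs : s ∈ TForm n M)
    (ht : t ∈ TForm n M) : deT g (s + t) = deT g s + deT g t := by
  funext x y
  show deT g (s + t) x y = deT g s x y + deT g t x y
  by_cases hy : y ∈ tgt n M x
  · rw [deT, deT, deT, if_pos hy, if_pos hy, if_pos hy, closb_deloc_add g hs ht hy]
  · simp [deT, hy]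

theorem deT_smul (g : RMetric n M) (c : ℝ) {s : M → E n → X n} (hs : s ∈ TForm n M) :
    deT g (c • s) = c • deT g s := by
  funext x y
  show deT g (c • s) x y = c • deT g s x y
  by_cases hy : y ∈ tgt n M x
  · rw [deT, deT, if_pos hy, if_pos hy, closb_deloc_smul g c hs hy]
  · simp [deT, hy]

theorem dT_dT {s : M → E n → X n} (hs : s ∈ TForm n M) : dT (dT s) = 0 := by
  funext x y
  show dT (dT s) x y = 0
  by_cases hy : y ∈ tgt n M x
  · have h1 : dT s x =ᶠ[𝓝 y] dloc (s x) := by
      filter_upwards [(chartAt (E n) x).open_target.mem_nhds hy] with z hz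
      rw [dT, if_pos hz]
    have h2 := dloc_dloc (chartAt (E n) x).open_target (hs.2.1 x) hy
    rw [dT, if_pos hy, dloc, h1.fderiv_eq]
    exact h2
  · rw [dT, if_neg hy]

theorem prT_dT (p : ℕ) {s : M → E n → X n} (hs : s ∈ TForm n M) :
    prT (p + 1) (dT s) = dT (prT p s) := by
  funext x y
  by_cases hy : y ∈ tgt n M x
  · have h : fderiv ℝ (prT p s x) y = (prj p) ∘L (fderiv ℝ (s x) y) :=
      (prj p).hasFDerivAt.comp y (closb_diff hs hy).hasFDerivAt |>.fderiv
    rw [prT, dT, dT, if_pos hy, if_pos hy, dloc, dloc, map_sum]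
    refine Finset.sum_congr rfl fun i _ => ?_
    rw [prj_eps, h]
    rfl
  · simp [prT, dT, hy]

theorem prT_zero_dT {s : M → E n → X n} (hs : s ∈ TForm n M) : prT 0 (dT s) = 0 := by
  have _ := hs
  funext x y
  show prj 0 (dT s x y) = 0
  by_cases hy : y ∈ tgt n M x
  · rw [dT, if_pos hy, dloc, map_sum]
    exact Finset.sum_eq_zero fun i _ => prj_zero_eps i _
  · simp [dT, hy]

end ANCO
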