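import Pool.Agent.Helper39.Anco.ClosB

/-! ANCO module CLOSC: values and covariant derivatives of basic operations. -/

open scoped ContDiff Topology Manifold InnerProductSpace
open Set MeasureTheory Filter

set_option maxSynthPendingDepth 3

noncomputable section
namespace ANCO

variable {n : ℕ} {M : Type} [TopologicalSpace M] [ChartedSpace (E n) M]

theorem closc_ctr (x : M) : ctr n x ∈ tgt n M x :=
  (chartAt (E n) x).map_source (mem_chart_source (E n) x)

theorem closc_symm (x : M) : (chartAt (E n) x).symm (ctr n x) = x :=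
  (chartAt (E n) x).left_inv (mem_chart_source (E n) x)

theorem closc_iso (g : RMetric n M) (x : M) : IsoFr (g.g x) (fr g x) :=
  (Bf_spec g x).2 _ (closc_ctr x)

/-- the covariant derivative depends only on the lift near the frame -/
theorem closc_nab_eq (g : RMetric n M) {s : M → E n → X n} {x : M} {F : Fr n → X n}
    (h : lift (s x) =ᶠ[𝓝 (fr g x)] F) (i : Fin n) :
    nab g s x i = Hd (g.g x) (e i) F (fr g x) := by
  rw [nab, Hd, Hd, h.fderiv_eq]

theorem closc_nhds (g : RMetric n M) (x : M) :
    (tgt n M x) ×ˢ (univ : Set (E n →L[ℝ] E n)) ∈ 𝓝 (fr g x) :=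
  ((chartAt (E n) x).open_target.prod isOpen_univ).mem_nhds ⟨closc_ctr x, mem_univ _⟩

theorem closc_lift_diff (g : RMetric n M) {s : M → E n → X n} (hs : s ∈ TForm n M) (x : M) :
    DifferentiableAt ℝ (lift (s x)) (fr g x) :=
  valch_lift_diff hs (closc_ctr x) _

theorem val_dT (g : RMetric n M) {s : M → E n → X n} (hs : s ∈ TForm n M) (x : M) :
    val g (dT s) x = ∑ i, eps i (nab g s x i) := by
  have h := lift_dloc (g.isMet x) (z := fr g x) (closc_ctr x) (closb_diff hs (closc_ctr x))
  show lift (dT s x) (fr g x) = _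
  have h1 : lift (dT s x) (fr g x) = lift (dloc (s x)) (fr g x) := by
    show rho _ (dT s x (ctr n x)) = rho _ (dloc (s x) (ctr n x))
    rw [dT, if_pos (closc_ctr x)]
  rw [h1, h]
  rfl

theorem val_deT (g : RMetric n M) {s : M → E n → X n} (hs : s ∈ TForm n M) (x : M) :
    val g (deT g s) x = -∑ i, iota i (nab g s x i) := by
  have h := lift_deloc (g.isMet x) (z := fr g x) (closc_ctr x) (closc_iso g x)
    (closb_diff hs (closc_ctr x))
  show lift (deT g s x) (fr g x) = _
  have h1 : lift (deT g s x) (fr g x) = lift (deloc (g.g x) (s x)) (fr g x) := by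
    show rho _ (deT g s x (ctr n x)) = rho _ (deloc (g.g x) (s x) (ctr n x))
    rw [deT, if_pos (closc_ctr x)]
  rw [h1, h]
  rfl

theorem val_prT (g : RMetric n M) (p : ℕ) (s : M → E n → X n) (x : M) :
    val g (prT p s) x = prj p (val g s x) := by
  show rho _ (prj p (s x (ctr n x))) = prj p (rho _ (s x (ctr n x)))
  rw [prj_rho]

/-- horizontal derivative after a linear map -/
theorem closc_Hd_clm {G : Coef n} {F : Fr n → X n} {z : Fr n} (hF : DifferentiableAt ℝ F z)
    (L : X n →L[ℝ] X n) (u : E n) : Hd G u (fun z => L (F z)) z = L (Hd G u F z) := by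
  have : fderiv ℝ (fun z => L (F z)) z = L ∘L fderiv ℝ F z :=
    (L.hasFDerivAt.comp z hF.hasFDerivAt).fderiv
  rw [Hd, this]
  rfl

theorem nab_prT (g : RMetric n M) (p : ℕ) {s : M → E n → X n} (hs : s ∈ TForm n M) (x : M)
    (i : Fin n) : nab g (prT p s) x i = prj p (nab g s x i) := by
  have h : lift (prT p s x) =ᶠ[𝓝 (fr g x)] fun z => prj p (lift (s x) z) := by
    refine Filter.Eventually.of_forall fun z => ?_
    show rho _ (prj p (s x z.1)) = prj p (rho _ (s x z.1))
    rw [prj_rho]
  rw [closc_nab_eq g h i, closc_Hd_clm (closc_lift_diff g hs x) (prj p) (e i)]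
  rfl

theorem val_fnT (g : RMetric n M) (f : M → ℝ) (x : M) : val g (fnT f) x = f x • eX ∅ := by
  show rho _ (fnT f x (ctr n x)) = _
  rw [fnT, if_pos (closc_ctr x), map_smul, rho_vac, closc_symm]

theorem nab_fnT (g : RMetric n M) {f : M → ℝ} (hf : IsSm n M f) (x : M) (i : Fin n) :
    nab g (fnT f) x i = (fderiv ℝ (fun y => f ((chartAt (E n) x).symm y)) (ctr n x)
      (Bf g x (ctr n x) (e i))) • eX ∅ := by
  have h : lift (fnT f x) =ᶠ[𝓝 (fr g x)] fun z => f ((chartAt (E n) x).symm z.1) • eX ∅ := by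
    filter_upwards [closc_nhds g x] with z hz
    show rho _ (fnT f x z.1) = _
    rw [fnT, if_pos hz.1, map_smul, rho_vac]
  rw [closc_nab_eq g h i, Hd]
  have hd : DifferentiableAt ℝ (fun y => f ((chartAt (E n) x).symm y)) (ctr n x) :=
    ((hf x).contDiffAt ((chartAt (E n) x).open_target.mem_nhds (closc_ctr x))).differentiableAt
      (by simp)
  have h1 : HasFDerivAt (fun z : Fr n => f ((chartAt (E n) x).symm z.1))
      ((fderiv ℝ (fun y => f ((chartAt (E n) x).symm y)) (ctr n x)) ∘L
        ContinuousLinearMap.fst ℝ (E n) (E n →L[ℝ] E n)) (fr g x) :=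
    HasFDerivAt.comp (fr g x) (g := fun y => f ((chartAt (E n) x).symm y)) hd.hasFDerivAt
      hasFDerivAt_fst
  have h2 := (h1.smul_const (eX ∅ : X n)).fderiv
  rw [h2]
  rfl

theorem val_mulT (g : RMetric n M) (f : M → ℝ) (s : M → E n → X n) (x : M) :
    val g (mulT f s) x = f x • val g s x := by
  show rho _ (f ((chartAt (E n) x).symm (ctr n x)) • s x (ctr n x)) = _
  rw [map_smul, closc_symm]
  rfl

theorem val_add (g : RMetric n M) (s t : M → E n → X n) (x : M) :
    val g (s + t) x = val g s x + val g t x :=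
  map_add (rho (fr g x).2) _ _

theorem val_smul (g : RMetric n M) (c : ℝ) (s : M → E n → X n) (x : M) :
    val g (c • s) x = c • val g s x :=
  map_smul (rho (fr g x).2) c _

theorem nab_add (g : RMetric n M) {s t : M → E n → X n} (hs : s ∈ TForm n M) (ht : t ∈ TForm n M)
    (x : M) (i : Fin n) : nab g (s + t) x i = nab g s x i + nab g t x i := by
  have h : lift ((s + t) x) = lift (s x) + lift (t x) := by
    funext z
    exact map_add (rho z.2) _ _
  rw [nab, h, Hd, fderiv_add (closc_lift_diff g hs x) (closc_lift_diff g ht x)]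
  rfl

theorem nab_smul (g : RMetric n M) (c : ℝ) {s : M → E n → X n} (hs : s ∈ TForm n M)
    (x : M) (i : Fin n) : nab g (c • s) x i = c • nab g s x i := by
  have h : lift ((c • s) x) = c • lift (s x) := by
    funext z
    exact map_smul (rho z.2) c _
  rw [nab, h, Hd, fderiv_const_smul (closc_lift_diff g hs x) c]
  rfl

end ANCO
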