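import Pool.Agent.Helper39.Anco.LDefs

open scoped ContDiff Topology Manifold InnerProductSpace
open Set MeasureTheory

set_option maxSynthPendingDepth 3

noncomputable section
namespace ANCO

variable {n : ℕ}

theorem div1_aux {F : Type*} [NormedAddCommGroup F] [NormedSpace ℝ F] {f : E n → F}
    (hf : ContDiff ℝ 1 f) (hc : HasCompactSupport f) (v : E n) :
    ∫ y, fderiv ℝ f y v = 0 := by
  have hint : Integrable (fun x => fderiv ℝ f x v) := by
    apply Continuous.integrable_of_hasCompactSupport
    · exact (hf.continuous_fderiv one_ne_zero).clm_apply continuous_const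
    · exact hc.fderiv_apply ℝ v
  have h := integral_smul_fderiv_eq_neg_fderiv_smul_of_integrable (μ := volume)
    (f := fun _ : E n => (1 : ℝ)) (g := f) (v := v)
    (by simp) (by simpa using hint)
    (by simpa using hf.continuous.integrable_of_hasCompactSupport hc)
    (fun x _ => differentiableAt_const _)
    (fun x _ => (hf.differentiable one_ne_zero) x)
  simpa using h

/-- integral of a divergence of a compactly supported field -/
theorem integral_div_zero {U : Set (E n)} (hU : IsOpen U) {Y : E n → E n} (hY : ContDiffOn ℝ 1 Y U)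
    {K : Set (E n)} (hK : IsCompact K) (hKU : K ⊆ U) (h0 : ∀ y ∉ K, Y y = 0) :
    ∫ y in U, ∑ j, (fderiv ℝ Y y (e j)) j = 0 := by
  have hKc : ∀ y ∉ K, Y =ᶠ[𝓝 y] fun _ => 0 := by
    intro y hy
    filter_upwards [hK.isClosed.isOpen_compl.mem_nhds hy] with z hz
    exact h0 z hz
  have hsm : ContDiff ℝ 1 Y := by
    rw [contDiff_iff_contDiffAt]
    intro y
    by_cases hy : y ∈ K
    · exact hY.contDiffAt (hU.mem_nhds (hKU hy))
    · exact contDiffAt_const.congr_of_eventuallyEq (hKc y hy)
  have hcs : HasCompactSupport Y := HasCompactSupport.intro hK h0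
  have hz : ∀ y ∉ U, ∑ j, (fderiv ℝ Y y (e j)) j = 0 := by
    intro y hy
    have h1 := (hKc y (fun h => hy (hKU h))).fderiv_eq (𝕜 := ℝ)
    rw [h1]
    simp
  rw [setIntegral_eq_integral_of_forall_compl_eq_zero hz]
  have hcomp : ∀ j : Fin n, ∀ y, (fderiv ℝ Y y (e j)) j = fderiv ℝ (fun y => Y y j) y (e j) := by
    intro j y
    have h1 : HasFDerivAt (fun y => (EuclideanSpace.proj j : E n →L[ℝ] ℝ) (Y y))
        ((EuclideanSpace.proj j : E n →L[ℝ] ℝ) ∘L fderiv ℝ Y y) y :=
      (EuclideanSpace.proj j : E n →L[ℝ] ℝ).hasFDerivAt.comp y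
        ((hsm.differentiable one_ne_zero) y).hasFDerivAt
    have h2 : HasFDerivAt (fun y => Y y j)
        ((EuclideanSpace.proj j : E n →L[ℝ] ℝ) ∘L fderiv ℝ Y y) y := h1
    rw [h2.fderiv]
    rfl
  have hsmj : ∀ j : Fin n, ContDiff ℝ 1 (fun y => Y y j) := fun j =>
    (EuclideanSpace.proj j : E n →L[ℝ] ℝ).contDiff.comp hsm
  have hcsj : ∀ j : Fin n, HasCompactSupport (fun y => Y y j) := fun j =>
    HasCompactSupport.intro hK fun y hy => by rw [h0 y hy]; rfl
  simp only [hcomp]
  rw [integral_finset_sum]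
  · exact Finset.sum_eq_zero fun j _ => div1_aux (hsmj j) (hcsj j) (e j)
  · intro j _
    apply Continuous.integrable_of_hasCompactSupport
    · exact ((hsmj j).continuous_fderiv one_ne_zero).clm_apply continuous_const
    · exact (hcsj j).fderiv_apply ℝ (e j)

end ANCO
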