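import Pool.Agent.Helper39.Anco.Chr
import Pool.Agent.Helper39.Anco.Frame
import Pool.Agent.Helper39.Anco.Del1
import Pool.Agent.Helper39.Anco.Fock1
import Pool.Agent.Helper39.Anco.RhoD
import Pool.Agent.Helper39.Anco.Act

open scoped ContDiff Topology Manifold InnerProductSpace
open Set MeasureTheory

set_option maxSynthPendingDepth 3

noncomputable section
namespace ANCO

variable {n : ℕ}

/-! ### Determinant and trace -/

/-- the matrix of an endomorphism -/
def div2_mat (b : E n →L[ℝ] E n) : Matrix (Fin n) (Fin n) ℝ := Matrix.of fun i j => (b (e j)) i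

theorem div2_toMatrix (b : E n →L[ℝ] E n) :
    LinearMap.toMatrix (EuclideanSpace.basisFun (Fin n) ℝ).toBasis
      (EuclideanSpace.basisFun (Fin n) ℝ).toBasis b.toLinearMap = div2_mat b := by
  ext i j
  rw [LinearMap.toMatrix_apply]
  simp [div2_mat, e]

theorem div2_det_eq (b : E n →L[ℝ] E n) : LinearMap.det b.toLinearMap = (div2_mat b).det := by
  rw [← LinearMap.det_toMatrix (EuclideanSpace.basisFun (Fin n) ℝ).toBasis, div2_toMatrix]

theorem div2_trace_eq (b : E n →L[ℝ] E n) :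
    LinearMap.trace ℝ (E n) b.toLinearMap = ∑ i, (b (e i)) i := by
  rw [LinearMap.trace_eq_matrix_trace ℝ (EuclideanSpace.basisFun (Fin n) ℝ).toBasis,
    div2_toMatrix]
  rfl

theorem div2_det_contDiff : ContDiff ℝ ∞ (fun b : E n →L[ℝ] E n => LinearMap.det b.toLinearMap) := by
  have h : (fun b : E n →L[ℝ] E n => LinearMap.det b.toLinearMap) = fun b =>
      ∑ σ : Equiv.Perm (Fin n), (Equiv.Perm.sign σ : ℤ) • ∏ i, (b (e i)) (σ i) := by
    funext b
    rw [div2_det_eq, Matrix.det_apply]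
    rfl
  rw [h]
  refine ContDiff.sum fun σ _ => ?_
  refine ContDiff.const_smul _ ?_
  refine contDiff_prod fun i _ => ?_
  have h1 : ContDiff ℝ ∞ (fun b : E n →L[ℝ] E n =>
      (EuclideanSpace.proj (σ i) : E n →L[ℝ] ℝ) ((ContinuousLinearMap.apply ℝ (E n) (e i)) b)) :=
    (EuclideanSpace.proj (σ i) : E n →L[ℝ] ℝ).contDiff.comp
      (ContinuousLinearMap.apply ℝ (E n) (e i)).contDiff
  exact h1

theorem div2_det_one (A : E n →L[ℝ] E n) :
    fderiv ℝ (fun b : E n →L[ℝ] E n => LinearMap.det b.toLinearMap)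
      (ContinuousLinearMap.id ℝ (E n)) A = ∑ i, (A (e i)) i := by
  have h1 : HasFDerivAt (fun b : E n →L[ℝ] E n => LinearMap.det b.toLinearMap)
      (fderiv ℝ (fun b : E n →L[ℝ] E n => LinearMap.det b.toLinearMap)
        (ContinuousLinearMap.id ℝ (E n))) (ContinuousLinearMap.id ℝ (E n)) :=
    (div2_det_contDiff.differentiable (by simp) _).hasFDerivAt
  have h2 : HasDerivAt (fun t : ℝ => ContinuousLinearMap.id ℝ (E n) + t • A) A 0 := by
    have := ((hasDerivAt_id (0 : ℝ)).smul_const A).const_add (ContinuousLinearMap.id ℝ (E n))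
    simpa using this
  have h3 : HasDerivAt (fun t : ℝ =>
      LinearMap.det (ContinuousLinearMap.id ℝ (E n) + t • A).toLinearMap)
      (fderiv ℝ (fun b : E n →L[ℝ] E n => LinearMap.det b.toLinearMap)
        (ContinuousLinearMap.id ℝ (E n)) A) 0 := by
    have h10 : HasFDerivAt (fun b : E n →L[ℝ] E n => LinearMap.det b.toLinearMap)
        (fderiv ℝ (fun b : E n →L[ℝ] E n => LinearMap.det b.toLinearMap)
          (ContinuousLinearMap.id ℝ (E n))) (ContinuousLinearMap.id ℝ (E n) + (0 : ℝ) • A) := by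
      rw [zero_smul, add_zero]
      exact h1
    exact h10.comp_hasDerivAt 0 h2
  have h4 : ∀ t : ℝ, LinearMap.det (ContinuousLinearMap.id ℝ (E n) + t • A).toLinearMap =
      1 + (div2_mat A).trace * t +
        (Matrix.det (1 + (Polynomial.X : Polynomial ℝ) • (div2_mat A).map Polynomial.C)).divX.divX.eval t
          * t ^ 2 := by
    intro t
    rw [div2_det_eq, ← Matrix.det_one_add_smul]
    congr 1
    ext i j
    simp [div2_mat, e, Matrix.one_apply, Pi.single_apply]
  have h5 : HasDerivAt (fun t : ℝ => 1 + (div2_mat A).trace * t +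
        (Matrix.det (1 + (Polynomial.X : Polynomial ℝ) • (div2_mat A).map Polynomial.C)).divX.divX.eval t
          * t ^ 2) ((div2_mat A).trace) 0 := by
    have h6 := ((hasDerivAt_id (0 : ℝ)).const_mul (div2_mat A).trace).const_add 1
    have h7 := (Polynomial.hasDerivAt (Matrix.det (1 + (Polynomial.X : Polynomial ℝ) •
      (div2_mat A).map Polynomial.C)).divX.divX (0 : ℝ)).mul ((hasDerivAt_id (0 : ℝ)).pow 2)
    have h8 := h6.add h7
    refine (h8.congr_deriv ?_)
    simp
  have h6 := h3.unique (h5.congr_of_eventuallyEq (Filter.Eventually.of_forall h4))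
  rw [h6]
  rfl

theorem div2_det_fderiv (b c A : E n →L[ℝ] E n) (hbc : b ∘L c = ContinuousLinearMap.id ℝ (E n))
    (hcb : c ∘L b = ContinuousLinearMap.id ℝ (E n)) :
    fderiv ℝ (fun b : E n →L[ℝ] E n => LinearMap.det b.toLinearMap) b A =
      LinearMap.det b.toLinearMap * ∑ i, ((c ∘L A) (e i)) i := by
  have h1 : (fun b' : E n →L[ℝ] E n => LinearMap.det b'.toLinearMap) =
      fun b' => LinearMap.det b.toLinearMap *
        (fun b : E n →L[ℝ] E n => LinearMap.det b.toLinearMap)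
          ((ContinuousLinearMap.compL ℝ (E n) (E n) (E n) c) b') := by
    funext b'
    change LinearMap.det b'.toLinearMap =
      LinearMap.det b.toLinearMap * LinearMap.det (c ∘L b').toLinearMap
    rw [← LinearMap.det_comp]
    congr 1
    have h2 : b ∘L (c ∘L b') = b' := by
      rw [← ContinuousLinearMap.comp_assoc, hbc, ContinuousLinearMap.id_comp]
    calc b'.toLinearMap = (b ∘L (c ∘L b')).toLinearMap := by rw [h2]
      _ = _ := rfl
  have h2 : HasFDerivAt (fun b : E n →L[ℝ] E n => LinearMap.det b.toLinearMap)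
      (fderiv ℝ (fun b : E n →L[ℝ] E n => LinearMap.det b.toLinearMap)
        (ContinuousLinearMap.id ℝ (E n))) ((ContinuousLinearMap.compL ℝ (E n) (E n) (E n) c) b) := by
    have h3 : (ContinuousLinearMap.compL ℝ (E n) (E n) (E n) c) b = ContinuousLinearMap.id ℝ (E n) :=
      hcb
    rw [h3]
    exact (div2_det_contDiff.differentiable (by simp) _).hasFDerivAt
  have h3 := (h2.comp b (ContinuousLinearMap.compL ℝ (E n) (E n) (E n) c).hasFDerivAt).const_mul
    (LinearMap.det b.toLinearMap)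
  have h4 : HasFDerivAt (fun b' : E n →L[ℝ] E n => LinearMap.det b'.toLinearMap)
      (LinearMap.det b.toLinearMap • (fderiv ℝ (fun b : E n →L[ℝ] E n =>
        LinearMap.det b.toLinearMap) (ContinuousLinearMap.id ℝ (E n)) ∘L
          (ContinuousLinearMap.compL ℝ (E n) (E n) (E n) c))) b :=
    h3.congr_of_eventuallyEq (Filter.Eventually.of_forall fun b' => congrFun h1 b')
  rw [h4.fderiv]
  change LinearMap.det b.toLinearMap * fderiv ℝ (fun b : E n →L[ℝ] E n =>
        LinearMap.det b.toLinearMap) (ContinuousLinearMap.id ℝ (E n)) (c ∘L A) = _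
  rw [div2_det_one]

theorem div2_det_ne {b c : E n →L[ℝ] E n} (hbc : b ∘L c = ContinuousLinearMap.id ℝ (E n)) :
    LinearMap.det b.toLinearMap ≠ 0 := by
  intro h0
  have h1 : LinearMap.det (b ∘L c).toLinearMap = 1 := by
    rw [hbc]
    exact LinearMap.det_id
  have h2 : LinearMap.det (b ∘L c).toLinearMap =
      LinearMap.det b.toLinearMap * LinearMap.det c.toLinearMap := by
    rw [← LinearMap.det_comp]
    rfl
  rw [h2, h0, zero_mul] at h1
  exact zero_ne_one h1

theorem div2_abs_inv {x : ℝ} (hx : x ≠ 0) : HasDerivAt (fun x : ℝ => |x|⁻¹) (-|x|⁻¹ * x⁻¹) x := by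
  rcases lt_or_gt_of_ne hx with h | h
  · have h1 : HasDerivAt (fun x : ℝ => -(x⁻¹)) (-(-(x ^ 2)⁻¹)) x := (hasDerivAt_inv hx).neg
    have h2 : (fun x : ℝ => |x|⁻¹) =ᶠ[𝓝 x] fun x => -(x⁻¹) := by
      filter_upwards [gt_mem_nhds h] with z hz
      rw [abs_of_neg hz, inv_neg]
    refine (h1.congr_of_eventuallyEq h2).congr_deriv ?_
    rw [abs_of_neg h, inv_neg]
    field_simp
  · have h1 : HasDerivAt (fun x : ℝ => x⁻¹) (-(x ^ 2)⁻¹) x := hasDerivAt_inv hx
    have h2 : (fun x : ℝ => |x|⁻¹) =ᶠ[𝓝 x] fun x => x⁻¹ := by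
      filter_upwards [lt_mem_nhds h] with z hz
      rw [abs_of_pos hz]
    refine (h1.congr_of_eventuallyEq h2).congr_deriv ?_
    rw [abs_of_pos h]
    field_simp

/-- conjugation invariance of the trace -/
theorem div2_trace_conj (b c L : E n →L[ℝ] E n) (hbc : b ∘L c = ContinuousLinearMap.id ℝ (E n)) :
    ∑ i, ((c ∘L L ∘L b) (e i)) i = ∑ i, (L (e i)) i := by
  rw [← div2_trace_eq, ← div2_trace_eq]
  have h1 : (c ∘L L ∘L b).toLinearMap = c.toLinearMap ∘ₗ (L.toLinearMap ∘ₗ b.toLinearMap) := rfl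
  rw [h1, LinearMap.trace_comp_comm']
  have h2 : (L.toLinearMap ∘ₗ b.toLinearMap) ∘ₗ c.toLinearMap = (L ∘L (b ∘L c)).toLinearMap := rfl
  rw [h2, hbc, ContinuousLinearMap.comp_id]

/-- trace of a skew map -/
theorem div2_trace_skew {S : E n →L[ℝ] E n} (hS : ∀ u v, ⟪S u, v⟫_ℝ = -⟪u, S v⟫_ℝ) :
    ∑ i, (S (e i)) i = 0 := by
  refine Finset.sum_eq_zero fun i _ => ?_
  have h := hS (e i) (e i)
  simp only [e, EuclideanSpace.inner_single_left, EuclideanSpace.inner_single_right, map_one,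
    one_mul, conj_trivial] at h
  have h2 : (S (EuclideanSpace.single i 1)) i = -(S (EuclideanSpace.single i 1)) i := h
  have h3 : (S (e i)) i = -(S (e i)) i := h2
  linarith

theorem div2_skew_entry {S : E n →L[ℝ] E n} (hS : ∀ u v, ⟪S u, v⟫_ℝ = -⟪u, S v⟫_ℝ) (i j : Fin n) :
    (S (e i)) j = -(S (e j)) i := by
  have h := hS (e i) (e j)
  simp only [e, EuclideanSpace.inner_single_left, EuclideanSpace.inner_single_right, map_one,
    one_mul, conj_trivial] at h
  exact h

theorem div2_sum_coord (L : E n →L[ℝ] ℝ) (v : E n) : ∑ j, L (e j) * v j = L v := by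
  have h : v = ∑ j, v j • e j := by
    ext k
    simp [e, Finset.sum_apply, Pi.single_apply]
  conv_rhs => rw [h, map_sum]
  refine Finset.sum_congr rfl fun j _ => ?_
  rw [map_smul, smul_eq_mul, mul_comm]

/-! ### Derivative of a lift -/

theorem div2_lift_deriv {w : E n → X n} {y : E n} (hw : DifferentiableAt ℝ w y)
    (b : E n →L[ℝ] E n) (v : E n) (A : E n →L[ℝ] E n) :
    fderiv ℝ (lift w) (y, b) (v, A) = rho b (fderiv ℝ w y v) +
      (fderiv ℝ (rho : (E n →L[ℝ] E n) → (X n →L[ℝ] X n)) b A) (w y) := by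
  have h1 : HasFDerivAt (fun z : Fr n => rho z.2)
      ((fderiv ℝ (rho : (E n →L[ℝ] E n) → (X n →L[ℝ] X n)) b) ∘L
        (ContinuousLinearMap.snd ℝ (E n) (E n →L[ℝ] E n))) (y, b) := by
    have h2 : HasFDerivAt (rho : (E n →L[ℝ] E n) → (X n →L[ℝ] X n))
        (fderiv ℝ (rho : (E n →L[ℝ] E n) → (X n →L[ℝ] X n)) b) ((y, b) : Fr n).2 :=
      (rho_contDiff.differentiable (by simp) _).hasFDerivAt
    exact h2.comp (y, b) (ContinuousLinearMap.snd ℝ (E n) (E n →L[ℝ] E n)).hasFDerivAt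
  have h3 : HasFDerivAt (fun z : Fr n => w z.1)
      ((fderiv ℝ w y) ∘L (ContinuousLinearMap.fst ℝ (E n) (E n →L[ℝ] E n))) (y, b) := by
    have h4 : HasFDerivAt w (fderiv ℝ w y) ((y, b) : Fr n).1 := hw.hasFDerivAt
    exact h4.comp (y, b) (ContinuousLinearMap.fst ℝ (E n) (E n →L[ℝ] E n)).hasFDerivAt
  have h5 := h1.clm_apply h3
  have h6 : HasFDerivAt (lift w) _ (y, b) := h5
  rw [h6.fderiv]
  simp

theorem div2_lift_diff {w : E n → X n} {z : Fr n} (hw : DifferentiableAt ℝ w z.1) :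
    DifferentiableAt ℝ (lift w) z := by
  have h1 : DifferentiableAt ℝ (fun z : Fr n => rho z.2) z := by
    have h2 : DifferentiableAt ℝ (rho : (E n →L[ℝ] E n) → (X n →L[ℝ] X n)) z.2 :=
      rho_contDiff.differentiable (by simp) _
    exact h2.comp z differentiableAt_snd
  have h3 : DifferentiableAt ℝ (fun z : Fr n => w z.1) z := hw.comp z differentiableAt_fst
  exact h1.clm_apply h3

theorem div2_lift_vert {w : E n → X n} {y : E n} (hw : DifferentiableAt ℝ w y)
    (b S : E n →L[ℝ] E n) :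
    fderiv ℝ (lift w) (y, b) (0, b ∘L S) = act S (lift w (y, b)) := by
  rw [div2_lift_deriv hw, map_zero, map_zero, zero_add, rho_fderiv_right]
  rfl

/-! ### The components -/

/-- the function `⟪ω, ι_i ω'⟫` on the frame bundle -/
def div2_F (w w' : E n → X n) (i : Fin n) (z : Fr n) : ℝ := ⟪lift w z, iota i (lift w' z)⟫_ℝ

theorem div2_F_deriv {w w' : E n → X n} {z : Fr n} (hw : DifferentiableAt ℝ w z.1)
    (hw' : DifferentiableAt ℝ w' z.1) (i : Fin n) (v : Fr n) :
    fderiv ℝ (div2_F w w' i) z v = ⟪fderiv ℝ (lift w) z v, iota i (lift w' z)⟫_ℝ +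
      ⟪lift w z, iota i (fderiv ℝ (lift w') z v)⟫_ℝ := by
  have h1 : HasFDerivAt (lift w) (fderiv ℝ (lift w) z) z := (div2_lift_diff hw).hasFDerivAt
  have h2 : HasFDerivAt (lift w') (fderiv ℝ (lift w') z) z := (div2_lift_diff hw').hasFDerivAt
  have h3 : HasFDerivAt (fun z => iota i (lift w' z)) ((iota i : X n →L[ℝ] X n) ∘L
      fderiv ℝ (lift w') z) z := (iota i : X n →L[ℝ] X n).hasFDerivAt.comp z h2
  have h4 := h1.inner ℝ h3
  have h5 : HasFDerivAt (div2_F w w' i) _ z := h4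
  rw [h5.fderiv]
  simp only [ContinuousLinearMap.comp_apply, ContinuousLinearMap.prod_apply, fderivInnerCLM_apply]
  ring

theorem div2_F_diff {w w' : E n → X n} {z : Fr n} (hw : DifferentiableAt ℝ w z.1)
    (hw' : DifferentiableAt ℝ w' z.1) (i : Fin n) : DifferentiableAt ℝ (div2_F w w' i) z := by
  have h1 := div2_lift_diff hw
  have h3 : DifferentiableAt ℝ (fun z => iota i (lift w' z)) z :=
    (iota i : X n →L[ℝ] X n).differentiableAt.comp z (div2_lift_diff hw')
  exact h1.inner ℝ h3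

/-- vertical derivatives: only the contraction with `S e_i` remains -/
theorem div2_F_vert {w w' : E n → X n} {y : E n} (hw : DifferentiableAt ℝ w y)
    (hw' : DifferentiableAt ℝ w' y) (b : E n →L[ℝ] E n) {S : E n →L[ℝ] E n}
    (hS : ∀ u v, ⟪S u, v⟫_ℝ = -⟪u, S v⟫_ℝ) (i : Fin n) :
    fderiv ℝ (div2_F w w' i) (y, b) (0, b ∘L S) =
      ∑ j, (S (e i)) j * div2_F w w' j (y, b) := by
  rw [div2_F_deriv (z := (y, b)) hw hw', div2_lift_vert hw, div2_lift_vert hw', inner_act S hS,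
    iota_act, inner_add_right]
  have h1 : ⟪lift w (y, b), iotav (S (e i)) (lift w' (y, b))⟫_ℝ =
      ∑ j, (S (e i)) j * div2_F w w' j (y, b) := by
    unfold iotav div2_F
    rw [sum_apply, inner_sum]
    refine Finset.sum_congr rfl fun j _ => ?_
    rw [smul_apply, inner_smul_right]
  rw [h1]
  ring

/-- the connection matrix of a frame field is skew -/
theorem div2_skew {G : Coef n} {U : Set (E n)} (h : IsMet G U) {B : E n → E n →L[ℝ] E n}
    (hB : IsFrameField G U B) {y : E n} (hy : y ∈ U) {c : E n →L[ℝ] E n}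
    (hbc : B y ∘L c = ContinuousLinearMap.id ℝ (E n))
    (hcb : c ∘L B y = ContinuousLinearMap.id ℝ (E n)) (v : E n) (u u' : E n) :
    ⟪(c ∘L (fderiv ℝ B y v + christ G y v ∘L B y)) u, u'⟫_ℝ =
      -⟪u, (c ∘L (fderiv ℝ B y v + christ G y v ∘L B y)) u'⟫_ℝ := by
  have hU := h.isOpen.mem_nhds hy
  have hBd : HasFDerivAt B (fderiv ℝ B y) y :=
    ((hB.1.contDiffAt hU).differentiableAt (by simp)).hasFDerivAt
  have hGd : HasFDerivAt G (fderiv ℝ G y) y :=
    ((h.smooth.contDiffAt hU).differentiableAt (by simp)).hasFDerivAt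
  have hu : ∀ u : E n, HasFDerivAt (fun y => B y u) ((fderiv ℝ B y).flip u) y := fun u =>
    hBd.clm_apply (hasFDerivAt_const u y) |>.congr_fderiv (by ext; simp)
  have h1 := (hGd.clm_apply (hu u)).clm_apply (hu u')
  have h2 : (fun y => G y (B y u) (B y u')) =ᶠ[𝓝 y] fun _ => ⟪u, u'⟫_ℝ := by
    filter_upwards [hU] with z hz
    exact hB.2 z hz u u'
  have h3 := (hasFDerivAt_const (𝕜 := ℝ) (⟪u, u'⟫_ℝ : ℝ) y).congr_of_eventuallyEq h2
  have h4 := congrArg (fun L : E n →L[ℝ] ℝ => L v) (h1.unique h3)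
  simp only [add_apply, ContinuousLinearMap.comp_apply,
    ContinuousLinearMap.flip_apply, ContinuousLinearMap.zero_apply] at h4
  have h5 := metric_compat h hy v (B y u) (B y u')
  have hbc' : ∀ x, B y (c x) = x := fun x => congrArg (fun L : E n →L[ℝ] E n => L x) hbc
  have hcb' : ∀ x, c (B y x) = x := fun x => congrArg (fun L : E n →L[ℝ] E n => L x) hcb
  have h6 : ∀ x x', ⟪c x, c x'⟫_ℝ = G y x x' := by
    intro x x'
    rw [← hB.2 y hy (c x) (c x')]
    change G y (B y (c x)) (B y (c x')) = _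
    rw [hbc', hbc']
  have h7 : ⟪(c ∘L (fderiv ℝ B y v + christ G y v ∘L B y)) u, u'⟫_ℝ =
      G y (fderiv ℝ B y v u + christ G y v (B y u)) (B y u') := by
    rw [← h6, hcb']
    rfl
  have h8 : ⟪u, (c ∘L (fderiv ℝ B y v + christ G y v ∘L B y)) u'⟫_ℝ =
      G y (B y u) (fderiv ℝ B y v u' + christ G y v (B y u')) := by
    rw [← h6, hcb']
    rfl
  rw [h7, h8]
  simp only [map_add, add_apply]
  linarith

/-- the divergence of the frame fields -/
theorem div2_trace {G : Coef n} {U : Set (E n)} (h : IsMet G U) {B : E n → E n →L[ℝ] E n}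
    (hB : IsFrameField G U B) {y : E n} (hy : y ∈ U) {c : E n →L[ℝ] E n}
    (hbc : B y ∘L c = ContinuousLinearMap.id ℝ (E n))
    (hcb : c ∘L B y = ContinuousLinearMap.id ℝ (E n)) (j : Fin n) :
    ∑ i, ((c ∘L (fderiv ℝ B y (B y (e i)) + christ G y (B y (e i)) ∘L B y)) (e i)) j =
      -(∑ i, (fderiv ℝ B y (e i) (e j)) i + ∑ i, (christ G y (B y (e j)) (e i)) i) := by
  have hS := fun v => div2_skew h hB hy hbc hcb v
  have h1 : ∀ i, ((c ∘L (fderiv ℝ B y (B y (e i)) + christ G y (B y (e i)) ∘L B y)) (e i)) j =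
      -((c ∘L (fderiv ℝ B y (B y (e i)) + christ G y (B y (e i)) ∘L B y)) (e j)) i := fun i =>
    div2_skew_entry (hS (B y (e i))) i j
  simp only [h1]
  rw [Finset.sum_neg_distrib]
  congr 1
  -- the map `v ↦ (D_v B) e_j + Γ(v) (B e_j)`
  let L : E n →L[ℝ] E n := (fderiv ℝ B y).flip (e j) + (christ G y).flip (B y (e j))
  have h2 : ∀ i, (c ∘L (fderiv ℝ B y (B y (e i)) + christ G y (B y (e i)) ∘L B y)) (e j) =
      (c ∘L L ∘L B y) (e i) := fun i => rfl
  simp only [h2]
  rw [div2_trace_conj (B y) c L hbc, ← Finset.sum_add_distrib]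
  refine Finset.sum_congr rfl fun i _ => ?_
  have h3 : L (e i) = fderiv ℝ B y (e i) (e j) + christ G y (e i) (B y (e j)) := rfl
  rw [h3, christ_symm h hy]
  rfl

/-- pointwise divergence identity, multiplied by the density of a frame field -/
theorem div_identity {G : Coef n} {U : Set (E n)} (h : IsMet G U) {B : E n → E n →L[ℝ] E n}
    (hB : IsFrameField G U B) {w w' : E n → X n} (hw : ContDiffOn ℝ ∞ w U)
    (hw' : ContDiffOn ℝ ∞ w' U) {y : E n} (hy : y ∈ U) :
    (⟪lift (dloc w) (y, B y), lift w' (y, B y)⟫_ℝ - ⟪lift w (y, B y), lift (deloc G w') (y, B y)⟫_ℝ)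
      * |LinearMap.det (B y).toLinearMap|⁻¹ =
    ∑ j, (fderiv ℝ (fun y => |LinearMap.det (B y).toLinearMap|⁻¹ •
      ∑ i, ⟪lift w (y, B y), iota i (lift w' (y, B y))⟫_ℝ • B y (e i)) y (e j)) j := by
  have hU := h.isOpen.mem_nhds hy
  have hwd : DifferentiableAt ℝ w y := (hw.contDiffAt hU).differentiableAt (by simp)
  have hwd' : DifferentiableAt ℝ w' y := (hw'.contDiffAt hU).differentiableAt (by simp)
  have hBd : HasFDerivAt B (fderiv ℝ B y) y :=
    ((hB.1.contDiffAt hU).differentiableAt (by simp)).hasFDerivAt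
  have hiso : IsoFr G (y, B y) := hB.2 y hy
  obtain ⟨c, hcb, hbc⟩ := iso_inv h (z := (y, B y)) hy hiso
  change c ∘L B y = _ at hcb
  change B y ∘L c = _ at hbc
  -- the left side
  have hL : ⟪lift (dloc w) (y, B y), lift w' (y, B y)⟫_ℝ -
      ⟪lift w (y, B y), lift (deloc G w') (y, B y)⟫_ℝ =
      ∑ i, Hd G (e i) (div2_F w w' i) (y, B y) := by
    rw [lift_dloc h (z := (y, B y)) hy hwd, lift_deloc h (z := (y, B y)) hy hiso hwd',
      sum_inner, inner_neg_right, inner_sum, sub_neg_eq_add, ← Finset.sum_add_distrib]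
    refine Finset.sum_congr rfl fun i _ => ?_
    rw [inner_eps]
    unfold Hd
    rw [div2_F_deriv (z := (y, B y)) hwd hwd']
  -- derivative of the coefficients along the frame fields
  have hpair : HasFDerivAt (fun y => ((y, B y) : Fr n))
      ((ContinuousLinearMap.id ℝ (E n)).prod (fderiv ℝ B y)) y := (hasFDerivAt_id y).prodMk hBd
  have hc : ∀ i, HasFDerivAt (fun y => div2_F w w' i (y, B y))
      ((fderiv ℝ (div2_F w w' i) (y, B y)) ∘L
        ((ContinuousLinearMap.id ℝ (E n)).prod (fderiv ℝ B y))) y := by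
    intro i
    have h0 : HasFDerivAt (div2_F w w' i) (fderiv ℝ (div2_F w w' i) (y, B y)) (y, B y) :=
      (div2_F_diff (z := (y, B y)) hwd hwd' i).hasFDerivAt
    exact HasFDerivAt.comp (g := div2_F w w' i) (f := fun y => ((y, B y) : Fr n)) y h0 hpair
  set S : Fin n → E n →L[ℝ] E n := fun i =>
    c ∘L (fderiv ℝ B y (B y (e i)) + christ G y (B y (e i)) ∘L B y) with hSdef
  have hSskew : ∀ i, ∀ u v, ⟪S i u, v⟫_ℝ = -⟪u, S i v⟫_ℝ := fun i =>
    div2_skew h hB hy hbc hcb (B y (e i))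
  have hdc : ∀ i, fderiv ℝ (div2_F w w' i) (y, B y) (B y (e i), fderiv ℝ B y (B y (e i))) =
      Hd G (e i) (div2_F w w' i) (y, B y) + ∑ j, (S i (e i)) j * div2_F w w' j (y, B y) := by
    intro i
    rw [← div2_F_vert hwd hwd' (B y) (hSskew i) i]
    unfold Hd
    rw [← map_add]
    congr 1
    unfold hv
    rw [Prod.mk_add_mk, add_zero]
    congr 1
    have h1 : B y ∘L S i = fderiv ℝ B y (B y (e i)) + christ G y (B y (e i)) ∘L B y := by
      rw [hSdef]
      change B y ∘L (c ∘L _) = _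
      rw [← ContinuousLinearMap.comp_assoc, hbc, ContinuousLinearMap.id_comp]
    rw [h1]
    abel
  -- derivative of the density
  have hdet0 : LinearMap.det (B y).toLinearMap ≠ 0 := div2_det_ne hbc
  have hD : HasFDerivAt (fun y => |LinearMap.det (B y).toLinearMap|⁻¹)
      ((-|LinearMap.det (B y).toLinearMap|⁻¹ * (LinearMap.det (B y).toLinearMap)⁻¹) •
        ((fderiv ℝ (fun b : E n →L[ℝ] E n => LinearMap.det b.toLinearMap) (B y)) ∘L
          fderiv ℝ B y)) y := by
    have h1 : HasFDerivAt (fun b : E n →L[ℝ] E n => LinearMap.det b.toLinearMap)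
        (fderiv ℝ (fun b : E n →L[ℝ] E n => LinearMap.det b.toLinearMap) (B y)) (B y) :=
      (div2_det_contDiff.differentiable (by simp) _).hasFDerivAt
    have h2 : HasFDerivAt (fun y => LinearMap.det (B y).toLinearMap) _ y := h1.comp y hBd
    exact HasDerivAt.comp_hasFDerivAt (h₂ := fun x : ℝ => |x|⁻¹) y (div2_abs_inv hdet0) h2
  have hDv : ∀ v, ((-|LinearMap.det (B y).toLinearMap|⁻¹ * (LinearMap.det (B y).toLinearMap)⁻¹) •
        ((fderiv ℝ (fun b : E n →L[ℝ] E n => LinearMap.det b.toLinearMap) (B y)) ∘L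
          fderiv ℝ B y)) v = -|LinearMap.det (B y).toLinearMap|⁻¹ *
            ∑ k, ((c ∘L fderiv ℝ B y v) (e k)) k := by
    intro v
    rw [smul_apply, ContinuousLinearMap.comp_apply,
      div2_det_fderiv (B y) c _ hbc hcb, smul_eq_mul]
    field_simp
  -- trace of the logarithmic derivative
  have htr : ∀ i, ∑ k, ((c ∘L fderiv ℝ B y (B y (e i))) (e k)) k =
      -∑ k, (christ G y (B y (e i)) (e k)) k := by
    intro i
    have h1 := div2_trace_skew (hSskew i)
    have h2 : ∀ k, (S i (e k)) k = ((c ∘L fderiv ℝ B y (B y (e i))) (e k)) k +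
        ((c ∘L christ G y (B y (e i)) ∘L B y) (e k)) k := by
      intro k
      change (c ((fderiv ℝ B y (B y (e i)) + christ G y (B y (e i)) ∘L B y) (e k))) k = _
      rw [add_apply, map_add]
      rfl
    simp only [h2, Finset.sum_add_distrib] at h1
    rw [div2_trace_conj (B y) c (christ G y (B y (e i))) hbc] at h1
    linarith
  -- derivative of the field
  have hBe : ∀ i, HasFDerivAt (fun y => B y (e i)) ((fderiv ℝ B y).flip (e i)) y := fun i =>
    hBd.clm_apply (hasFDerivAt_const (e i) y) |>.congr_fderiv (by ext; simp)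
  have hV : HasFDerivAt (fun y => ∑ i, div2_F w w' i (y, B y) • B y (e i)) _ y :=
    HasFDerivAt.fun_sum fun i _ => (hc i).smul (hBe i)
  have hDV := hD.smul hV
  have hfun : (fun y => |LinearMap.det (B y).toLinearMap|⁻¹ •
      ∑ i, ⟪lift w (y, B y), iota i (lift w' (y, B y))⟫_ℝ • B y (e i)) =
      (fun y => |LinearMap.det (B y).toLinearMap|⁻¹ •
        ∑ i, div2_F w w' i (y, B y) • B y (e i)) := rfl
  rw [hfun]
  have hfd : ∀ v, fderiv ℝ (fun y => |LinearMap.det (B y).toLinearMap|⁻¹ •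
        ∑ i, div2_F w w' i (y, B y) • B y (e i)) y v =
      |LinearMap.det (B y).toLinearMap|⁻¹ • ∑ i, (div2_F w w' i (y, B y) • fderiv ℝ B y v (e i) +
        (fderiv ℝ (div2_F w w' i) (y, B y) (v, fderiv ℝ B y v)) • B y (e i)) +
      (-|LinearMap.det (B y).toLinearMap|⁻¹ * ∑ k, ((c ∘L fderiv ℝ B y v) (e k)) k) •
        ∑ i, div2_F w w' i (y, B y) • B y (e i) := by
    intro v
    have h1 : HasFDerivAt (fun y => |LinearMap.det (B y).toLinearMap|⁻¹ •
        ∑ i, div2_F w w' i (y, B y) • B y (e i)) _ y := hDV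
    rw [h1.fderiv]
    rw [add_apply, smul_apply,
      ContinuousLinearMap.smulRight_apply, hDv v, sum_apply]
    rfl
  simp only [hfd]
  rw [hL]
  set D : ℝ := |LinearMap.det (B y).toLinearMap|⁻¹ with hDdef
  set f : Fin n → ℝ := fun i => div2_F w w' i (y, B y) with hfdef
  -- the three traces
  have hcoord : ∀ v : E n, v = ∑ j, v j • e j := by
    intro v
    ext k
    simp [e, Finset.sum_apply, Pi.single_apply]
  have t1 : ∀ i, ∑ j, fderiv ℝ (div2_F w w' i) (y, B y) (e j, fderiv ℝ B y (e j)) * (B y (e i)) j =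
      fderiv ℝ (div2_F w w' i) (y, B y) (B y (e i), fderiv ℝ B y (B y (e i))) := by
    intro i
    exact div2_sum_coord ((fderiv ℝ (div2_F w w' i) (y, B y)) ∘L
        ((ContinuousLinearMap.id ℝ (E n)).prod (fderiv ℝ B y))) (B y (e i))
  have t2 : ∀ v : E n, ∑ j, (∑ k, ((c ∘L fderiv ℝ B y (e j)) (e k)) k) * v j =
      ∑ k, ((c ∘L fderiv ℝ B y v) (e k)) k := by
    intro v
    have h1 : ∀ v, ∑ k, ((c ∘L fderiv ℝ B y v) (e k)) k =
        (∑ k, (EuclideanSpace.proj k : E n →L[ℝ] ℝ) ∘L c ∘L (fderiv ℝ B y).flip (e k)) v := by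
      intro v
      rw [sum_apply]
      rfl
    simp only [h1]
    exact div2_sum_coord _ v
  have e1 : ∀ j, ((D • ∑ i, (f i • fderiv ℝ B y (e j) (e i) +
        (fderiv ℝ (div2_F w w' i) (y, B y) (e j, fderiv ℝ B y (e j))) • B y (e i)) +
      (-D * ∑ k, ((c ∘L fderiv ℝ B y (e j)) (e k)) k) • ∑ i, f i • B y (e i)) : E n) j =
      D * (∑ i, f i * (fderiv ℝ B y (e j) (e i)) j) +
      D * (∑ i, fderiv ℝ (div2_F w w' i) (y, B y) (e j, fderiv ℝ B y (e j)) * (B y (e i)) j) -
      D * ((∑ k, ((c ∘L fderiv ℝ B y (e j)) (e k)) k) * (∑ i, f i • B y (e i) : E n) j) := by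
    intro j
    have h1 : ((∑ i, (f i • fderiv ℝ B y (e j) (e i) +
        (fderiv ℝ (div2_F w w' i) (y, B y) (e j, fderiv ℝ B y (e j))) • B y (e i)) : E n)) j =
        ∑ i, f i * (fderiv ℝ B y (e j) (e i)) j +
        ∑ i, fderiv ℝ (div2_F w w' i) (y, B y) (e j, fderiv ℝ B y (e j)) * (B y (e i)) j := by
      rw [← Finset.sum_add_distrib]
      simp
    rw [PiLp.add_apply, PiLp.smul_apply, PiLp.smul_apply, h1, smul_eq_mul, smul_eq_mul]
    ring
  rw [Finset.sum_congr rfl fun j _ => e1 j]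
  rw [Finset.sum_sub_distrib, Finset.sum_add_distrib, ← Finset.mul_sum, ← Finset.mul_sum,
    ← Finset.mul_sum, t2]
  have e2 : ∑ j, ∑ i, f i * (fderiv ℝ B y (e j) (e i)) j =
      ∑ i, f i * ∑ j, (fderiv ℝ B y (e j) (e i)) j := by
    rw [Finset.sum_comm]
    exact Finset.sum_congr rfl fun i _ => (Finset.mul_sum _ _ _).symm
  have e3 : ∑ j, ∑ i, fderiv ℝ (div2_F w w' i) (y, B y) (e j, fderiv ℝ B y (e j)) *
      (B y (e i)) j = ∑ i, Hd G (e i) (div2_F w w' i) (y, B y) +
        ∑ j, f j * ∑ i, (S i (e i)) j := by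
    rw [Finset.sum_comm]
    simp only [t1, hdc, Finset.sum_add_distrib]
    congr 1
    rw [Finset.sum_comm]
    refine Finset.sum_congr rfl fun j _ => ?_
    rw [Finset.mul_sum]
    exact Finset.sum_congr rfl fun i _ => mul_comm _ _
  have e4 : ∑ k, ((c ∘L fderiv ℝ B y (∑ i, f i • B y (e i))) (e k)) k =
      ∑ i, f i * ∑ k, ((c ∘L fderiv ℝ B y (B y (e i))) (e k)) k := by
    have h1 : ∀ v, ∑ k, ((c ∘L fderiv ℝ B y v) (e k)) k =
        (∑ k, (EuclideanSpace.proj k : E n →L[ℝ] ℝ) ∘L c ∘L (fderiv ℝ B y).flip (e k)) v := by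
      intro v
      rw [sum_apply]
      rfl
    simp only [h1]
    rw [map_sum]
    exact Finset.sum_congr rfl fun i _ => by rw [map_smul, smul_eq_mul]
  have e5 : ∀ j, ∑ i, (S i (e i)) j =
      -(∑ i, (fderiv ℝ B y (e i) (e j)) i + ∑ i, (christ G y (B y (e j)) (e i)) i) := fun j =>
    div2_trace h hB hy hbc hcb j
  rw [e2, e3, e4]
  simp only [e5, htr]
  have e6 : ∀ j, f j * -(∑ i, (fderiv ℝ B y (e i) (e j)) i + ∑ i, (christ G y (B y (e j)) (e i)) i) =
      -(f j * ∑ i, (fderiv ℝ B y (e i) (e j)) i) - f j * ∑ i, (christ G y (B y (e j)) (e i)) i :=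
    fun j => by ring
  have e7 : ∀ j, f j * -∑ k, (christ G y (B y (e j)) (e k)) k =
      -(f j * ∑ k, (christ G y (B y (e j)) (e k)) k) := fun j => by ring
  simp only [e6, e7, Finset.sum_sub_distrib, Finset.sum_neg_distrib]
  ring

end ANCO
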