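import Pool.Agent.Helper39.Anco.Geo

/-! ANCO module TR: transition maps between the preferred charts. -/

open scoped ContDiff Topology Manifold InnerProductSpace
open Set MeasureTheory Filter

set_option maxSynthPendingDepth 3

noncomputable section
namespace ANCO

variable {n : ℕ} {M : Type} [TopologicalSpace M] [ChartedSpace (E n) M]

theorem mem_tr_source {x x' : M} {y : E n} : y ∈ (tr n M x x').source ↔
    y ∈ tgt n M x ∧ (chartAt (E n) x).symm y ∈ (chartAt (E n) x').source := by
  simp [tr]

theorem tr_smooth [IsManifold (𝓡 n) ∞ M] (x x' : M) :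
    ContDiffOn ℝ ∞ (tr n M x x') (tr n M x x').source := by
  have h := (contDiffGroupoid ∞ (𝓡 n)).compatible (chart_mem_atlas (E n) x)
    (chart_mem_atlas (E n) x')
  have := (mem_groupoid_of_pregroupoid.1 h).1
  simpa [tr, contDiffPregroupoid] using this

theorem tr_apply_aux (x x' : M) (y : E n) :
    tr n M x x' y = chartAt (E n) x' ((chartAt (E n) x).symm y) := rfl

theorem tr_symm_apply {x x' : M} {y : E n} (hy : y ∈ (tr n M x x').source) :
    (chartAt (E n) x').symm (tr n M x x' y) = (chartAt (E n) x).symm y := by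
  rw [tr_apply_aux, (chartAt (E n) x').left_inv (mem_tr_source.1 hy).2]

theorem tr_mem {x x' : M} {y : E n} (hy : y ∈ (tr n M x x').source) :
    tr n M x x' y ∈ (tr n M x' x).source := by
  rw [mem_tr_source, tr_symm_apply hy]
  exact ⟨(chartAt (E n) x').map_source (mem_tr_source.1 hy).2,
    (chartAt (E n) x).map_target (mem_tr_source.1 hy).1⟩

theorem tr_tr {x x' : M} {y : E n} (hy : y ∈ (tr n M x x').source) :
    tr n M x' x (tr n M x x' y) = y := by
  rw [tr_apply_aux x' x, tr_symm_apply hy, (chartAt (E n) x).right_inv (mem_tr_source.1 hy).1]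

theorem tr_differentiableAt_aux [IsManifold (𝓡 n) ∞ M] {x x' : M} {y : E n}
    (hy : y ∈ (tr n M x x').source) : DifferentiableAt ℝ (tr n M x x') y :=
  ((tr_smooth x x').contDiffAt ((tr n M x x').open_source.mem_nhds hy)).differentiableAt
    (by simp)

theorem tr_fderiv_inv [IsManifold (𝓡 n) ∞ M] {x x' : M} {y : E n}
    (hy : y ∈ (tr n M x x').source) :
    fderiv ℝ (tr n M x' x) (tr n M x x' y) ∘L fderiv ℝ (tr n M x x') y =
      ContinuousLinearMap.id ℝ (E n) := by
  rw [← fderiv_comp y (tr_differentiableAt_aux (tr_mem hy)) (tr_differentiableAt_aux hy)]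
  have h : (tr n M x' x ∘ tr n M x x') =ᶠ[𝓝 y] id := by
    filter_upwards [(tr n M x x').open_source.mem_nhds hy] with z hz
    exact tr_tr hz
  rw [h.fderiv_eq, fderiv_id]

theorem tr_cocycle [IsManifold (𝓡 n) ∞ M] {x x' x'' : M} {y : E n}
    (hy : y ∈ (tr n M x x').source) (hy' : tr n M x x' y ∈ (tr n M x' x'').source) :
    y ∈ (tr n M x x'').source ∧ tr n M x x'' y = tr n M x' x'' (tr n M x x' y) ∧
    fderiv ℝ (tr n M x x'') y =
      fderiv ℝ (tr n M x' x'') (tr n M x x' y) ∘L fderiv ℝ (tr n M x x') y := by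
  have key : ∀ z ∈ (tr n M x x').source, tr n M x x'' z = tr n M x' x'' (tr n M x x' z) := by
    intro z hz
    rw [tr_apply_aux x x'', tr_apply_aux x' x'', tr_symm_apply hz]
  refine ⟨?_, key y hy, ?_⟩
  · rw [mem_tr_source]
    refine ⟨(mem_tr_source.1 hy).1, ?_⟩
    have := (mem_tr_source.1 hy').2
    rwa [tr_symm_apply hy] at this
  · rw [← fderiv_comp y (tr_differentiableAt_aux hy') (tr_differentiableAt_aux hy)]
    refine Filter.EventuallyEq.fderiv_eq ?_
    filter_upwards [(tr n M x x').open_source.mem_nhds hy] with z hz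
    exact key z hz

theorem tr_self_fderiv {x : M} {y : E n} (hy : y ∈ tgt n M x) :
    y ∈ (tr n M x x).source ∧ fderiv ℝ (tr n M x x) y = ContinuousLinearMap.id ℝ (E n) := by
  refine ⟨mem_tr_source.2 ⟨hy, (chartAt (E n) x).map_target hy⟩, ?_⟩
  have h : (tr n M x x : E n → E n) =ᶠ[𝓝 y] id := by
    filter_upwards [(chartAt (E n) x).open_target.mem_nhds hy] with z hz
    exact (chartAt (E n) x).right_inv hz
  rw [h.fderiv_eq, fderiv_id]

end ANCO
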