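import Pool.Agent.Helper39.Anco.Valch
import Pool.Agent.Helper39.Anco.Tr
import Pool.Agent.Helper39.Anco.Frame

/-!
# The Riemannian volume measure
-/

open scoped ContDiff Topology Manifold InnerProductSpace
open Set MeasureTheory

set_option maxSynthPendingDepth 3

noncomputable section
namespace ANCO

variable {n : ℕ} {M : Type} [TopologicalSpace M] [ChartedSpace (E n) M]

theorem vol_detfr_ne {G : Coef n} {U : Set (E n)} (h : IsMet G U) {y : E n} {b : E n →L[ℝ] E n}
    (hz : y ∈ U) (hiso : IsoFr G (y, b)) : LinearMap.det b.toLinearMap ≠ 0 := by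
  obtain ⟨c, h1, h2⟩ := iso_inv h (z := (y, b)) hz hiso
  intro h0
  have h3 := congrArg (fun f : E n →L[ℝ] E n => LinearMap.det f.toLinearMap) h1
  simp only [ContinuousLinearMap.toLinearMap_comp, LinearMap.det_comp] at h3
  rw [h0, mul_zero] at h3
  have : (ContinuousLinearMap.id ℝ (E n)).toLinearMap = LinearMap.id := rfl
  rw [this, LinearMap.det_id] at h3
  exact zero_ne_one h3

theorem vol_det_orth {k : E n →L[ℝ] E n} (hk : IsOrth k) :
    |LinearMap.det k.toLinearMap| = 1 := by
  let f : E n →ₗᵢ[ℝ] E n := ⟨k.toLinearMap, fun v => by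
    have := hk v v
    rw [real_inner_self_eq_norm_sq, real_inner_self_eq_norm_sq] at this
    exact (sq_eq_sq₀ (norm_nonneg _) (norm_nonneg _)).1 this⟩
  have h := f.normDet_eq_one
  rw [LinearMap.normDet_eq_abs_det] at h
  exact h

theorem vol_dens_pos (g : RMetric n M) (x : M) {y : E n} (hy : y ∈ tgt n M x) :
    0 < dens g x y :=
  inv_pos.2 (abs_pos.2 (vol_detfr_ne (RMetric.isMet g x) hy ((Bf_spec g x).2 y hy)))

theorem vol_dens_cont (g : RMetric n M) (x : M) : ContinuousOn (dens g x) (tgt n M x) := by
  have h1 : ContinuousOn (Bf g x) (tgt n M x) := (Bf_spec g x).1.continuousOn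
  have h2 : ContinuousOn (fun y => LinearMap.det (Bf g x y).toLinearMap) (tgt n M x) :=
    ContinuousLinearMap.continuous_det.comp_continuousOn h1
  exact (h2.abs).inv₀ fun y hy => (abs_pos.2
    (vol_detfr_ne (RMetric.isMet g x) hy ((Bf_spec g x).2 y hy))).ne'

theorem vol_dens_tr (g : RMetric n M) {x x' : M} {y : E n} (hy : y ∈ (tr n M x x').source) :
    dens g x y = |LinearMap.det (fderiv ℝ (tr n M x x') y).toLinearMap| *
      dens g x' (tr n M x x' y) := by
  have hyx : y ∈ tgt n M x := (mem_tr_source.1 hy).1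
  have hyx' : tr n M x x' y ∈ tgt n M x' := (mem_tr_source.1 (tr_mem hy)).1
  have hb := iso_tr g hy ((Bf_spec g x).2 y hyx)
  have hb' := (Bf_spec g x').2 _ hyx'
  obtain ⟨k, hk, hk'⟩ := iso_diff (RMetric.isMet g x') hyx' hb' hb
  have h1 := congrArg (fun f : E n →L[ℝ] E n => |LinearMap.det f.toLinearMap|) hk'
  simp only [ContinuousLinearMap.toLinearMap_comp, LinearMap.det_comp, abs_mul] at h1
  rw [vol_det_orth hk, mul_one] at h1
  have hne := abs_pos.2 (vol_detfr_ne (RMetric.isMet g x) hyx ((Bf_spec g x).2 y hyx))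
  have hne' := abs_pos.2 (vol_detfr_ne (RMetric.isMet g x') hyx' hb')
  unfold dens
  rw [← h1] at hne' ⊢
  have hd : |LinearMap.det (fderiv ℝ (tr n M x x') y).toLinearMap| ≠ 0 := by
    intro h0
    rw [h0, zero_mul] at hne'
    exact lt_irrefl _ hne'
  field_simp

/-- the integral over the chart at `x` of `f` against the Riemannian density -/
def volI (g : RMetric n M) (x : M) (f : M → ENNReal) : ENNReal :=
  ∫⁻ y in tgt n M x, f ((chartAt (E n) x).symm y) * ENNReal.ofReal (dens g x y)

theorem vol_tgt_meas (x : M) : MeasurableSet (tgt n M x) :=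
  (chartAt (E n) x).open_target.measurableSet

theorem vol_symm_aem [MeasurableSpace M] [BorelSpace M] (x : M) :
    AEMeasurable (chartAt (E n) x).symm (volume.restrict (tgt n M x)) :=
  (chartAt (E n) x).continuousOn_symm.aemeasurable (vol_tgt_meas x)

theorem vol_dens_aem (g : RMetric n M) (x : M) :
    AEMeasurable (fun y => ENNReal.ofReal (dens g x y)) (volume.restrict (tgt n M x)) :=
  ((vol_dens_cont g x).aemeasurable (vol_tgt_meas x)).ennreal_ofReal

/-- the local integral only depends on the function when restricted to overlaps of charts -/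
theorem volI_overlap [IsManifold (𝓡 n) ∞ M] (g : RMetric n M) (x x' : M)
    (f : M → ENNReal) (h1 : ∀ p ∉ (chartAt (E n) x).source, f p = 0)
    (h2 : ∀ p ∉ (chartAt (E n) x').source, f p = 0) : volI g x' f = volI g x f := by
  have hS : MeasurableSet (tr n M x x').source := (tr n M x x').open_source.measurableSet
  have hS' : MeasurableSet (tr n M x' x).source := (tr n M x' x).open_source.measurableSet
  have hsub : ∀ a b : M, (∀ p ∉ (chartAt (E n) b).source, f p = 0) →
      volI g a f = ∫⁻ y in (tr n M a b).source,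
        f ((chartAt (E n) a).symm y) * ENNReal.ofReal (dens g a y) := by
    intro a b hb
    unfold volI
    have hss : (tr n M a b).source ⊆ tgt n M a := fun y hy => (mem_tr_source.1 hy).1
    have h3 : ∫⁻ y in tgt n M a, f ((chartAt (E n) a).symm y) * ENNReal.ofReal (dens g a y) =
        ∫⁻ y in tgt n M a, (tr n M a b).source.indicator
          (fun y => f ((chartAt (E n) a).symm y) * ENNReal.ofReal (dens g a y)) y := by
      refine setLIntegral_congr_fun (vol_tgt_meas a) fun y hy => ?_
      by_cases hys : y ∈ (tr n M a b).source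
      · simp only [indicator_of_mem hys]
      · simp only [indicator_of_notMem hys]
        rw [hb _ (fun h => hys (mem_tr_source.2 ⟨hy, h⟩)), zero_mul]
    rw [h3, setLIntegral_indicator (tr n M a b).open_source.measurableSet,
      inter_eq_left.2 hss]
  rw [hsub x' x h1, hsub x x' h2]
  have himg : (tr n M x' x).source = (tr n M x x') '' (tr n M x x').source := by
    ext y
    constructor
    · intro hy
      exact ⟨tr n M x' x y, tr_mem hy, tr_tr hy⟩
    · rintro ⟨z, hz, rfl⟩
      exact tr_mem hz
  have hfd : ∀ y ∈ (tr n M x x').source, HasFDerivWithinAt (tr n M x x')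
      (fderiv ℝ (tr n M x x') y) (tr n M x x').source y := by
    intro y hy
    have hd : DifferentiableAt ℝ (tr n M x x') y :=
      ((tr_smooth x x').contDiffAt ((tr n M x x').open_source.mem_nhds hy)).differentiableAt
        (by simp)
    exact hd.hasFDerivAt.hasFDerivWithinAt
  have hinj : InjOn (tr n M x x') (tr n M x x').source := (tr n M x x').injOn
  rw [himg, lintegral_image_eq_lintegral_abs_det_fderiv_mul volume hS hfd hinj]
  refine setLIntegral_congr_fun hS fun y hy => ?_
  rw [tr_symm_apply hy]
  have := vol_dens_tr g hy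
  rw [this, ENNReal.ofReal_mul (abs_nonneg _)]
  have hdet : (fderiv ℝ (tr n M x x') y).det =
    LinearMap.det (fderiv ℝ (tr n M x x') y).toLinearMap := rfl
  rw [hdet]
  ring

/-- the image in `M` of the Riemannian measure in the chart at `x` -/
def volN (g : RMetric n M) (x : M) [MeasurableSpace M] : Measure M :=
  Measure.map (chartAt (E n) x).symm
    ((volume.restrict (tgt n M x)).withDensity (fun y => ENNReal.ofReal (dens g x y)))

theorem volN_lintegral [MeasurableSpace M] [BorelSpace M] (g : RMetric n M) (x : M)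
    {f : M → ENNReal} (hf : Measurable f) : ∫⁻ p, f p ∂(volN g x) = volI g x f := by
  unfold volN volI
  have ha : AEMeasurable (chartAt (E n) x).symm
      ((volume.restrict (tgt n M x)).withDensity (fun y => ENNReal.ofReal (dens g x y))) :=
    (vol_symm_aem x).mono' (withDensity_absolutelyContinuous _ _)
  have h1 := lintegral_withDensity_eq_lintegral_mul₀ (vol_dens_aem g x)
      (hf.comp_aemeasurable (vol_symm_aem x))
  rw [lintegral_map' hf.aemeasurable ha]
  refine h1.trans (lintegral_congr fun y => ?_)
  simp only [Pi.mul_apply, Function.comp_apply]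
  rw [mul_comm]

theorem volI_add [MeasurableSpace M] [BorelSpace M] (g : RMetric n M) (x : M)
    {f h : M → ENNReal} (hf : Measurable f) (hh : Measurable h) :
    volI g x (fun p => f p + h p) = volI g x f + volI g x h := by
  rw [← volN_lintegral g x hf, ← volN_lintegral g x hh, ← lintegral_add_left hf]
  exact (volN_lintegral g x (hf.add hh)).symm

theorem volN_lt_top [MeasurableSpace M] [BorelSpace M] [T2Space M] (g : RMetric n M) (x : M)
    {K : Set M} (hK : IsCompact K) (hKs : K ⊆ (chartAt (E n) x).source) : volN g x K < ⊤ := by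
  have hKm : MeasurableSet K := hK.isClosed.measurableSet
  have h1 : volN g x K = volI g x (K.indicator 1) := by
    rw [← volN_lintegral g x (measurable_one.indicator hKm), lintegral_indicator_one hKm]
  have hc : IsCompact ((chartAt (E n) x) '' K) :=
    hK.image_of_continuousOn ((chartAt (E n) x).continuousOn.mono hKs)
  have hct : (chartAt (E n) x) '' K ⊆ tgt n M x := by
    rintro _ ⟨p, hp, rfl⟩
    exact (chartAt (E n) x).map_source (hKs hp)
  have h2 : volI g x (K.indicator 1) =
      ∫⁻ y in (chartAt (E n) x) '' K, ENNReal.ofReal (dens g x y) := by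
    unfold volI
    have h3 : ∫⁻ y in tgt n M x, K.indicator (1 : M → ENNReal) ((chartAt (E n) x).symm y) *
        ENNReal.ofReal (dens g x y) = ∫⁻ y in tgt n M x, ((chartAt (E n) x) '' K).indicator
          (fun y => ENNReal.ofReal (dens g x y)) y := by
      refine setLIntegral_congr_fun (vol_tgt_meas x) fun y hy => ?_
      by_cases hys : (chartAt (E n) x).symm y ∈ K
      · have : y ∈ (chartAt (E n) x) '' K := ⟨_, hys, (chartAt (E n) x).right_inv hy⟩
        simp only [indicator_of_mem this, indicator_of_mem hys, Pi.one_apply, one_mul]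
      · have : y ∉ (chartAt (E n) x) '' K := by
          rintro ⟨p, hp, rfl⟩
          exact hys (by rw [(chartAt (E n) x).left_inv (hKs hp)]; exact hp)
        simp only [indicator_of_notMem this, indicator_of_notMem hys, zero_mul]
    rw [h3, setLIntegral_indicator hc.measurableSet, inter_eq_left.2 hct]
  rw [h1, h2]
  exact (((vol_dens_cont g x).mono hct).integrableOn_compact hc).lintegral_lt_top

theorem vol_finite_step [IsManifold (𝓡 n) ∞ M] [T2Space M] [MeasurableSpace M]
    [BorelSpace M] (g : RMetric n M) (K : M → Set M)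
    (hK : ∀ x, IsCompact (K x) ∧ K x ⊆ (chartAt (E n) x).source) (F : Finset M) :
    ∃ μ : Measure M, IsFiniteMeasure μ ∧ ∀ x, ∀ f : M → ENNReal, Measurable f →
      (∀ p ∉ (chartAt (E n) x).source, f p = 0) →
      ∫⁻ p, f p ∂μ = volI g x ((⋃ a ∈ F, K a).indicator f) := by
  classical
  induction F using Finset.induction_on with
  | empty =>
    refine ⟨0, inferInstance, fun x f hf h0 => ?_⟩
    simp [volI]
  | insert a F ha ih =>
    obtain ⟨μ, hμ, h⟩ := ih
    have hKm : ∀ x, MeasurableSet (K x) := fun x => (hK x).1.isClosed.measurableSet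
    have hU : MeasurableSet (⋃ b ∈ F, K b) := Finset.measurableSet_biUnion _ fun b _ => hKm b
    have hD : MeasurableSet (K a \ ⋃ b ∈ F, K b) := (hKm a).diff hU
    have hfin : volN g a (K a \ ⋃ b ∈ F, K b) < ⊤ :=
      (measure_mono diff_subset).trans_lt (volN_lt_top g a (hK a).1 (hK a).2)
    haveI : IsFiniteMeasure ((volN g a).restrict (K a \ ⋃ b ∈ F, K b)) :=
      ⟨by rw [Measure.restrict_apply_univ]; exact hfin⟩
    refine ⟨μ + (volN g a).restrict (K a \ ⋃ b ∈ F, K b), inferInstance, fun x f hf h0 => ?_⟩
    rw [lintegral_add_measure, h x f hf h0, ← lintegral_indicator hD,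
      volN_lintegral g a (hf.indicator hD)]
    rw [volI_overlap g x a]
    · rw [← volI_add g x (hf.indicator hU) (hf.indicator hD)]
      congr 1
      funext p
      rw [Finset.set_biUnion_insert]
      by_cases hp : p ∈ ⋃ b ∈ F, K b
      · rw [indicator_of_mem hp, indicator_of_notMem (fun h => h.2 hp),
          indicator_of_mem (show p ∈ K a ∪ ⋃ b ∈ F, K b from Or.inr hp), add_zero]
      · by_cases hpa : p ∈ K a
        · rw [indicator_of_notMem hp, indicator_of_mem (show p ∈ K a \ ⋃ b ∈ F, K b from ⟨hpa, hp⟩),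
            indicator_of_mem (show p ∈ K a ∪ ⋃ b ∈ F, K b from Or.inl hpa), zero_add]
        · rw [indicator_of_notMem hp, indicator_of_notMem (fun h => hpa h.1),
            indicator_of_notMem (show p ∉ K a ∪ ⋃ b ∈ F, K b from fun h => h.elim hpa hp),
            zero_add]
    · intro p hp
      by_cases hpD : p ∈ K a \ ⋃ b ∈ F, K b
      · rw [indicator_of_mem hpD, h0 p hp]
      · rw [indicator_of_notMem hpD]
    · intro p hp
      rw [indicator_of_notMem (fun h => hp ((hK a).2 h.1))]

theorem vol_exists [IsManifold (𝓡 n) ∞ M] [CompactSpace M] [T2Space M] [MeasurableSpace M]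
    [BorelSpace M] (g : RMetric n M) : ∃ μ, IsVol g μ := by
  have h1 : ∀ x : M, ∃ K : Set M, IsCompact K ∧ x ∈ interior K ∧
      K ⊆ (chartAt (E n) x).source := fun x =>
    exists_compact_subset (chartAt (E n) x).open_source (mem_chart_source (E n) x)
  choose K hK1 hK2 hK3 using h1
  obtain ⟨F, hF⟩ := CompactSpace.elim_nhds_subcover K
    (fun x => mem_interior_iff_mem_nhds.1 (hK2 x))
  obtain ⟨μ, hμ, h⟩ := vol_finite_step g K (fun x => ⟨hK1 x, hK3 x⟩) F
  refine ⟨μ, hμ, fun x f hf h0 => ?_⟩
  rw [h x f hf h0, hF]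
  simp [volI]

theorem exists_vol [IsManifold (𝓡 n) ∞ M] [CompactSpace M] [T2Space M] [MeasurableSpace M]
    [BorelSpace M] (g : RMetric n M) : IsVol g (vol g) := by
  have h : ∃ μ, IsVol g μ := vol_exists g
  unfold vol
  rw [dif_pos h]
  exact h.choose_spec

end ANCO
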