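import Pool.Agent.Helper39.Anco.Valch
import Pool.Agent.Helper39.Anco.Hv
import Pool.Agent.Helper39.Anco.Rho
import Pool.Agent.Helper39.Anco.Frame
import Pool.Agent.Helper39.Anco.Vol

/-!
# Integration on the manifold: continuity, charts, positivity
-/

open scoped ContDiff Topology Manifold InnerProductSpace
open Set MeasureTheory Filter

set_option maxSynthPendingDepth 3

noncomputable section
namespace ANCO

variable {n : ℕ} {M : Type} [TopologicalSpace M] [ChartedSpace (E n) M]

/-- a function which is near every point a continuous function of the chart is continuous -/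
theorem int_cont_of_chart {F : M → ℝ} (h : ∀ x : M, ∃ f : E n → ℝ, ContinuousOn f (tgt n M x) ∧
    ∀ p ∈ (chartAt (E n) x).source, F p = f (chartAt (E n) x p)) : Continuous F := by
  rw [continuous_iff_continuousAt]
  intro x
  obtain ⟨f, hf, hF⟩ := h x
  have hs : (chartAt (E n) x).source ∈ 𝓝 x := (chartAt (E n) x).open_source.mem_nhds
    (mem_chart_source (E n) x)
  have h1 : ContinuousAt (fun p => f (chartAt (E n) x p)) x := by
    have h2 : ContinuousAt f (chartAt (E n) x x) :=
      hf.continuousAt ((chartAt (E n) x).open_target.mem_nhds (mem_chart_target (E n) x))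
    exact ContinuousAt.comp (f := chartAt (E n) x) h2
      ((chartAt (E n) x).continuousAt (mem_chart_source (E n) x))
  refine h1.congr ?_
  filter_upwards [hs] with p hp
  exact (hF p hp).symm

theorem int_frame_cont {W : Type} [TopologicalSpace W] (g : RMetric n M) (x : M) {F : Fr n → W}
    (hF : ContinuousOn F (tgt n M x ×ˢ univ)) :
    ContinuousOn (fun y => F (y, Bf g x y)) (tgt n M x) := by
  refine hF.comp (continuousOn_id.prodMk (Bf_spec g x).1.continuousOn) ?_
  intro y hy
  exact ⟨hy, mem_univ _⟩

theorem int_lift_cont (g : RMetric n M) (x : M) {s : M → E n → X n} (hs : s ∈ TForm n M) :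
    ContinuousOn (fun y => lift (s x) (y, Bf g x y)) (tgt n M x) :=
  int_frame_cont g x (lift_smooth (hs.2.1 x)).continuousOn

theorem int_Hd_cont (g : RMetric n M) (x : M) {s : M → E n → X n} (hs : s ∈ TForm n M)
    (i : Fin n) :
    ContinuousOn (fun y => Hd (g.g x) (e i) (lift (s x)) (y, Bf g x y)) (tgt n M x) :=
  int_frame_cont g x
    (Hd_smooth (RMetric.isMet g x) (e i) (lift_smooth (hs.2.1 x))).continuousOn

theorem cont_ip [IsManifold (𝓡 n) ∞ M] (g : RMetric n M) {s t : M → E n → X n}
    (hs : s ∈ TForm n M) (ht : t ∈ TForm n M) : Continuous fun x => ⟪val g s x, val g t x⟫_ℝ := by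
  refine int_cont_of_chart (n := n) fun x => ⟨fun y => ⟪lift (s x) (y, Bf g x y),
    lift (t x) (y, Bf g x y)⟫_ℝ, (int_lift_cont g x hs).inner (int_lift_cont g x ht), ?_⟩
  intro p hp
  exact inner_val_chart g x p hp hs ht

theorem cont_nab [IsManifold (𝓡 n) ∞ M] (g : RMetric n M) {s t : M → E n → X n}
    (hs : s ∈ TForm n M) (ht : t ∈ TForm n M) :
    Continuous fun x => ∑ i, ⟪nab g s x i, nab g t x i⟫_ℝ := by
  refine int_cont_of_chart (n := n) fun x => ⟨fun y =>
    ∑ i, ⟪Hd (g.g x) (e i) (lift (s x)) (y, Bf g x y),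
      Hd (g.g x) (e i) (lift (t x)) (y, Bf g x y)⟫_ℝ, ?_, ?_⟩
  · exact continuousOn_finset_sum _ fun i _ => (int_Hd_cont g x hs i).inner (int_Hd_cont g x ht i)
  · intro p hp
    exact inner_nab_chart g x p hp hs ht

/-- the volume measure of a measurable set contained in a chart -/
theorem int_vol_set [IsManifold (𝓡 n) ∞ M] [CompactSpace M] [T2Space M] [MeasurableSpace M]
    [BorelSpace M] (g : RMetric n M) (x : M) {O : Set M} (hO : MeasurableSet O)
    (hs : O ⊆ (chartAt (E n) x).source) :
    vol g O = ∫⁻ y in tgt n M x, O.indicator (1 : M → ENNReal) ((chartAt (E n) x).symm y) *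
      ENNReal.ofReal (dens g x y) := by
  rw [← (exists_vol g).2 x (O.indicator 1) (measurable_one.indicator hO)
    (fun p hp => indicator_of_notMem (fun h => hp (hs h)) _), lintegral_indicator_one hO]

theorem vol_open_pos [IsManifold (𝓡 n) ∞ M] [CompactSpace M] [T2Space M] [MeasurableSpace M]
    [BorelSpace M] (g : RMetric n M) {O : Set M} (hO : IsOpen O) (hne : O.Nonempty) :
    0 < vol g O := by
  obtain ⟨x, hx⟩ := hne
  have hO' : IsOpen (O ∩ (chartAt (E n) x).source) := hO.inter (chartAt (E n) x).open_source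
  refine lt_of_lt_of_le ?_ (measure_mono (inter_subset_left : O ∩ (chartAt (E n) x).source ⊆ O))
  rw [int_vol_set g x hO'.measurableSet inter_subset_right, pos_iff_ne_zero]
  intro h0
  have hV : IsOpen ((chartAt (E n) x).target ∩ (chartAt (E n) x).symm ⁻¹' O) :=
    (chartAt (E n) x).isOpen_inter_preimage_symm hO
  have hxV : chartAt (E n) x x ∈ (chartAt (E n) x).target ∩ (chartAt (E n) x).symm ⁻¹' O := by
    refine ⟨mem_chart_target (E n) x, ?_⟩
    rw [mem_preimage, (chartAt (E n) x).left_inv (mem_chart_source (E n) x)]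
    exact hx
  have hpos : 0 < volume ((chartAt (E n) x).target ∩ (chartAt (E n) x).symm ⁻¹' O) :=
    hV.measure_pos volume ⟨_, hxV⟩
  have hmeas : AEMeasurable (fun y => (O ∩ (chartAt (E n) x).source).indicator (1 : M → ENNReal)
      ((chartAt (E n) x).symm y) * ENNReal.ofReal (dens g x y)) (volume.restrict (tgt n M x)) :=
    ((measurable_one.indicator hO'.measurableSet).comp_aemeasurable (vol_symm_aem x)).mul
      (vol_dens_aem g x)
  rw [lintegral_eq_zero_iff' hmeas] at h0
  rw [Filter.EventuallyEq, ae_restrict_iff' (vol_tgt_meas x)] at h0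
  have h1 : volume ((chartAt (E n) x).target ∩ (chartAt (E n) x).symm ⁻¹' O) = 0 := by
    refine measure_mono_null ?_ h0
    intro y hy hcontra
    have h2 := hcontra hy.1
    have h3 : (chartAt (E n) x).symm y ∈ O ∩ (chartAt (E n) x).source :=
      ⟨hy.2, (chartAt (E n) x).map_target hy.1⟩
    simp only [indicator_of_mem h3, Pi.one_apply, one_mul, Pi.zero_apply,
      ENNReal.ofReal_eq_zero] at h2
    exact absurd (vol_dens_pos g x hy.1) (not_lt.2 h2)
  exact hpos.ne' h1

theorem vol_pos [IsManifold (𝓡 n) ∞ M] [CompactSpace M] [T2Space M] [MeasurableSpace M]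
    [BorelSpace M] [Nonempty M] (g : RMetric n M) : 0 < vol g univ :=
  vol_open_pos g isOpen_univ univ_nonempty

theorem integral_chart [IsManifold (𝓡 n) ∞ M] [CompactSpace M] [T2Space M] [MeasurableSpace M]
    [BorelSpace M] (g : RMetric n M) (x : M) {f : M → ℝ} (hf : Continuous f)
    (h0 : ∀ p ∉ (chartAt (E n) x).source, f p = 0) :
    ∫ p, f p ∂(vol g) = ∫ y in tgt n M x, f ((chartAt (E n) x).symm y) * dens g x y := by
  haveI : IsFiniteMeasure (vol g) := (exists_vol g).1
  have hint : Integrable f (vol g) :=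
    hf.integrable_of_hasCompactSupport (HasCompactSupport.of_compactSpace f)
  have key : ∀ h : M → ℝ, Continuous h → (∀ p ∉ (chartAt (E n) x).source, h p = 0) →
      ∫⁻ p, ENNReal.ofReal (h p) ∂vol g =
        ∫⁻ y in tgt n M x, ENNReal.ofReal (h ((chartAt (E n) x).symm y) * dens g x y) := by
    intro h hc h0
    rw [(exists_vol g).2 x (fun p => ENNReal.ofReal (h p)) hc.measurable.ennreal_ofReal
      (fun p hp => by simp [h0 p hp])]
    refine setLIntegral_congr_fun (vol_tgt_meas x) fun y hy => ?_
    rw [← ENNReal.ofReal_mul' (vol_dens_pos g x hy).le]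
  have hint2 : Integrable (fun y => f ((chartAt (E n) x).symm y) * dens g x y)
      (volume.restrict (tgt n M x)) := by
    refine ⟨((hf.comp_continuousOn (chartAt (E n) x).continuousOn_symm).mul
      (vol_dens_cont g x)).aestronglyMeasurable (vol_tgt_meas x), ?_⟩
    rw [hasFiniteIntegral_iff_norm]
    have h3 := key (fun p => |f p|) hf.abs (fun p hp => by simp [h0 p hp])
    have h4 : ∫⁻ y in tgt n M x, ENNReal.ofReal ‖f ((chartAt (E n) x).symm y) * dens g x y‖ =
        ∫⁻ y in tgt n M x, ENNReal.ofReal (|f ((chartAt (E n) x).symm y)| * dens g x y) := by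
      refine setLIntegral_congr_fun (vol_tgt_meas x) fun y hy => ?_
      rw [norm_mul, Real.norm_eq_abs, Real.norm_eq_abs, abs_of_pos (vol_dens_pos g x hy)]
    rw [h4, ← h3]
    exact hint.abs.lintegral_lt_top
  rw [integral_eq_lintegral_pos_part_sub_lintegral_neg_part hint,
    integral_eq_lintegral_pos_part_sub_lintegral_neg_part hint2, key f hf h0,
    key (fun p => -f p) hf.neg (fun p hp => by simp [h0 p hp])]
  simp only [neg_mul]

theorem ip_pos [IsManifold (𝓡 n) ∞ M] [CompactSpace M] [T2Space M] [MeasurableSpace M]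
    [BorelSpace M] (g : RMetric n M) {s : M → E n → X n} (hs : s ∈ TForm n M) (h0 : s ≠ 0) :
    0 < ip g s s := by
  haveI : IsFiniteMeasure (vol g) := (exists_vol g).1
  have hcont := cont_ip g hs hs
  have hint : Integrable (fun x => ⟪val g s x, val g s x⟫_ℝ) (vol g) :=
    hcont.integrable_of_hasCompactSupport (HasCompactSupport.of_compactSpace _)
  have hex : ∃ p, ⟪val g s p, val g s p⟫_ℝ ≠ 0 := by
    by_contra hall
    push Not at hall
    apply h0
    funext x y
    by_cases hy : y ∈ tgt n M x
    · have hp := hall ((chartAt (E n) x).symm y)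
      have hps : (chartAt (E n) x).symm y ∈ (chartAt (E n) x).source :=
        (chartAt (E n) x).map_target hy
      rw [inner_val_chart g x _ hps hs hs, (chartAt (E n) x).right_inv hy,
        inner_self_eq_zero] at hp
      obtain ⟨c, h1, h2⟩ := iso_inv (RMetric.isMet g x) (z := (y, Bf g x y)) hy
        ((Bf_spec g x).2 y hy)
      have h3 : rho c (rho (Bf g x y) (s x y)) = s x y := by
        rw [← rho_comp]
        simp only at h2
        rw [h2, rho_id]
      have h4 : rho (Bf g x y) (s x y) = 0 := hp
      rw [← h3, h4, map_zero]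
      rfl
    · exact hs.1 x y hy
  unfold ip
  rw [integral_pos_iff_support_of_nonneg (fun p => real_inner_self_nonneg) hint]
  obtain ⟨p, hp⟩ := hex
  exact vol_open_pos g hcont.isOpen_support ⟨p, hp⟩

end ANCO
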