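import Pool.Agent.Helper39.Anco.Geo

/-!
# Smooth partitions of unity
-/

open scoped ContDiff Topology Manifold InnerProductSpace
open Set MeasureTheory Filter

set_option maxSynthPendingDepth 3

noncomputable section
namespace ANCO

variable {n : ℕ} {M : Type} [TopologicalSpace M] [ChartedSpace (E n) M]

/-- smooth functions on the manifold are smooth in the charts -/
theorem pu_isSm [IsManifold (𝓡 n) ∞ M] {f : M → ℝ} (hf : ContMDiff (𝓡 n) 𝓘(ℝ) ∞ f) :
    IsSm n M f := by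
  intro x
  have h1 : ContMDiffOn (𝓡 n) (𝓡 n) ∞ (chartAt (E n) x).symm (chartAt (E n) x).target :=
    contMDiffOn_chart_symm
  have h2 : ContMDiffOn (𝓡 n) 𝓘(ℝ) ∞ (fun y => f ((chartAt (E n) x).symm y))
      (chartAt (E n) x).target := hf.comp_contMDiffOn h1
  exact contMDiffOn_iff_contDiffOn.mp h2

theorem exists_pu [IsManifold (𝓡 n) ∞ M] [CompactSpace M] [T2Space M] (O : M → Set M)
    (hO : ∀ x, IsOpen (O x) ∧ x ∈ O x) : ∃ (F : Finset M) (χ : M → M → ℝ),
    (∀ x ∈ F, IsSm n M (χ x)) ∧ (∀ x ∈ F, tsupport (χ x) ⊆ O x) ∧ (∀ x ∈ F, ∀ p, 0 ≤ χ x p) ∧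
    ∀ p, ∑ x ∈ F, χ x p = 1 := by
  obtain ⟨f, hf⟩ := SmoothPartitionOfUnity.exists_isSubordinate (𝓡 n) (isClosed_univ (X := M)) O
    (fun x => (hO x).1) (fun x _ => mem_iUnion.mpr ⟨x, (hO x).2⟩)
  have hfin : {x : M | (Function.support (f x)).Nonempty}.Finite :=
    f.locallyFinite.finite_nonempty_of_compact
  refine ⟨hfin.toFinset, fun x => f x, ?_, ?_, ?_, ?_⟩
  · intro x _
    exact pu_isSm (f x).contMDiff
  · intro x _
    exact hf x
  · intro x _ p
    exact f.nonneg x p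
  · intro p
    rw [← f.sum_eq_one (mem_univ p)]
    symm
    refine finsum_eq_sum_of_support_subset _ ?_
    intro x hx
    rw [Finite.coe_toFinset]
    exact ⟨p, hx⟩

end ANCO
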