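import Pool.Agent.Helper39.Anco.Rho
import Pool.Agent.Helper39.Anco.Chr

open scoped ContDiff Topology Manifold InnerProductSpace
open Set MeasureTheory

set_option maxSynthPendingDepth 3

noncomputable section
namespace ANCO

variable {n : ℕ}

/-! ## G4 NAT -/

theorem nat_two_le : minSmoothness ℝ 2 ≤ (∞ : WithTop ℕ∞) := by
  rw [minSmoothness_of_isRCLikeNormedField]
  exact (WithTop.coe_le_coe.mpr le_top : ((2 : ℕ∞) : WithTop ℕ∞) ≤ ((⊤ : ℕ∞) : WithTop ℕ∞))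

/-- the differential of an isometry is injective, hence surjective -/
theorem nat_surj {G G' : Coef n} {U : Set (E n)} (h : IsMet G U)
    {φ : E n → E n}
    (hiso : ∀ y ∈ U, ∀ u v, G y u v = G' (φ y) (fderiv ℝ φ y u) (fderiv ℝ φ y v))
    {y : E n} (hy : y ∈ U) : Function.Surjective (fderiv ℝ φ y) := by
  have hinj : Function.Injective (fderiv ℝ φ y).toLinearMap := by
    rw [injective_iff_map_eq_zero]
    intro u hu
    by_contra hne
    have h1 := h.pos y hy u hne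
    have hu' : fderiv ℝ φ y u = 0 := hu
    rw [hiso y hy u u, hu'] at h1
    simp at h1
  exact LinearMap.injective_iff_surjective.mp hinj

/-- derivative of the isometry condition -/
theorem nat_deriv {G G' : Coef n} {U U' : Set (E n)} (h : IsMet G U) (h' : IsMet G' U')
    {φ : E n → E n} (hφ : ContDiffOn ℝ ∞ φ U) (hm : MapsTo φ U U')
    (hiso : ∀ y ∈ U, ∀ u v, G y u v = G' (φ y) (fderiv ℝ φ y u) (fderiv ℝ φ y v))
    {y : E n} (hy : y ∈ U) (w u v : E n) :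
    fderiv ℝ G y w u v =
      fderiv ℝ G' (φ y) (fderiv ℝ φ y w) (fderiv ℝ φ y u) (fderiv ℝ φ y v) +
      G' (φ y) (fderiv ℝ (fderiv ℝ φ) y w u) (fderiv ℝ φ y v) +
      G' (φ y) (fderiv ℝ φ y u) (fderiv ℝ (fderiv ℝ φ) y w v) := by
  have hyU : U ∈ 𝓝 y := h.isOpen.mem_nhds hy
  have hφy : ContDiffAt ℝ ∞ φ y := hφ.contDiffAt hyU
  have hφd : DifferentiableAt ℝ φ y := hφy.differentiableAt (by simp)
  have hJd : DifferentiableAt ℝ (fderiv ℝ φ) y :=
    (hφy.fderiv_right (m := 1) (by norm_cast)).differentiableAt (by simp)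
  have hGd : DifferentiableAt ℝ G y :=
    (h.smooth.contDiffAt hyU).differentiableAt (by simp)
  have hG'd : DifferentiableAt ℝ G' (φ y) :=
    (h'.smooth.contDiffAt (h'.isOpen.mem_nhds (hm hy))).differentiableAt (by simp)
  -- derivative of the left side
  have hL : HasFDerivAt (fun y => G y u v)
      (((ContinuousLinearMap.apply ℝ ℝ v).comp (ContinuousLinearMap.apply ℝ (E n →L[ℝ] ℝ) u)).comp
        (fderiv ℝ G y)) y := by
    have := ((ContinuousLinearMap.apply ℝ ℝ v).comp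
      (ContinuousLinearMap.apply ℝ (E n →L[ℝ] ℝ) u)).hasFDerivAt.comp y hGd.hasFDerivAt
    exact this
  have hG'φ : HasFDerivAt (fun y => G' (φ y)) ((fderiv ℝ G' (φ y)).comp (fderiv ℝ φ y)) y :=
    hG'd.hasFDerivAt.comp y hφd.hasFDerivAt
  have hJu : HasFDerivAt (fun y => fderiv ℝ φ y u)
      ((ContinuousLinearMap.apply ℝ (E n) u).comp (fderiv ℝ (fderiv ℝ φ) y)) y :=
    (ContinuousLinearMap.apply ℝ (E n) u).hasFDerivAt.comp y hJd.hasFDerivAt
  have hJv : HasFDerivAt (fun y => fderiv ℝ φ y v)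
      ((ContinuousLinearMap.apply ℝ (E n) v).comp (fderiv ℝ (fderiv ℝ φ) y)) y :=
    (ContinuousLinearMap.apply ℝ (E n) v).hasFDerivAt.comp y hJd.hasFDerivAt
  have hR := (hG'φ.clm_apply hJu).clm_apply hJv
  have heq : (fun y => G y u v) =ᶠ[𝓝 y]
      (fun y => G' (φ y) (fderiv ℝ φ y u) (fderiv ℝ φ y v)) := by
    filter_upwards [hyU] with y' hy'
    exact hiso y' hy' u v
  have h1 := (hL.congr_of_eventuallyEq heq.symm).unique hR
  have h2 := DFunLike.congr_fun h1 w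
  simp at h2
  rw [h2]
  ring

theorem christ_natural {G G' : Coef n} {U U' : Set (E n)} (h : IsMet G U) (h' : IsMet G' U')
    {φ : E n → E n} (hφ : ContDiffOn ℝ ∞ φ U) (hm : MapsTo φ U U')
    (hiso : ∀ y ∈ U, ∀ u v, G y u v = G' (φ y) (fderiv ℝ φ y u) (fderiv ℝ φ y v))
    {y : E n} (hy : y ∈ U) (u v : E n) :
    fderiv ℝ φ y (christ G y u v) =
      christ G' (φ y) (fderiv ℝ φ y u) (fderiv ℝ φ y v) + fderiv ℝ (fderiv ℝ φ) y u v := by
  have hyU : U ∈ 𝓝 y := h.isOpen.mem_nhds hy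
  have hφy : ContDiffAt ℝ ∞ φ y := hφ.contDiffAt hyU
  have hsymm : ∀ a b, fderiv ℝ (fderiv ℝ φ) y a b = fderiv ℝ (fderiv ℝ φ) y b a :=
    (hφy.isSymmSndFDerivAt nat_two_le).eq
  obtain ⟨w, hw⟩ := nat_surj h hiso hy (fderiv ℝ φ y (christ G y u v) -
    (christ G' (φ y) (fderiv ℝ φ y u) (fderiv ℝ φ y v) + fderiv ℝ (fderiv ℝ φ) y u v))
  rw [← sub_eq_zero]
  by_contra hne
  have hpos := h'.pos (φ y) (hm hy) _ hne
  have h1 : G' (φ y) (fderiv ℝ φ y (christ G y u v)) (fderiv ℝ φ y w) =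
      (1 / 2) * (fderiv ℝ G y u v w + fderiv ℝ G y v u w - fderiv ℝ G y w u v) := by
    rw [← hiso y hy, christ_spec h hy]
  have h2 := christ_spec h' (hm hy) (fderiv ℝ φ y u) (fderiv ℝ φ y v) (fderiv ℝ φ y w)
  rw [nat_deriv h h' hφ hm hiso hy u v w, nat_deriv h h' hφ hm hiso hy v u w,
    nat_deriv h h' hφ hm hiso hy w u v, hsymm v u, hsymm w u, hsymm w v,
    h'.symm _ (hm hy) (fderiv ℝ (fderiv ℝ φ) y u w) (fderiv ℝ φ y v)] at h1
  have h3 : G' (φ y) (fderiv ℝ φ y (christ G y u v) -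
      (christ G' (φ y) (fderiv ℝ φ y u) (fderiv ℝ φ y v) + fderiv ℝ (fderiv ℝ φ) y u v))
      (fderiv ℝ φ y w) = 0 := by
    rw [map_sub, map_add]
    simp only [sub_apply, add_apply]
    rw [h1, h2]
    ring
  rw [hw] at h3
  rw [h3] at hpos
  exact lt_irrefl _ hpos

theorem Hd_natural {W : Type} [NormedAddCommGroup W] [NormedSpace ℝ W]
    {G G' : Coef n} {U U' : Set (E n)} (h : IsMet G U) (h' : IsMet G' U')
    {φ : E n → E n} (hφ : ContDiffOn ℝ ∞ φ U) (hm : MapsTo φ U U')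
    (hiso : ∀ y ∈ U, ∀ u v, G y u v = G' (φ y) (fderiv ℝ φ y u) (fderiv ℝ φ y v))
    (F' : Fr n → W) {z : Fr n} (hz : z.1 ∈ U)
    (hF' : DifferentiableAt ℝ F' (φ z.1, fderiv ℝ φ z.1 ∘L z.2)) (u : E n) :
    Hd G u (fun z => F' (φ z.1, fderiv ℝ φ z.1 ∘L z.2)) z =
      Hd G' u F' (φ z.1, fderiv ℝ φ z.1 ∘L z.2) := by
  have hyU : U ∈ 𝓝 z.1 := h.isOpen.mem_nhds hz
  have hφy : ContDiffAt ℝ ∞ φ z.1 := hφ.contDiffAt hyU
  have hφd : DifferentiableAt ℝ φ z.1 := hφy.differentiableAt (by simp)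
  have hJd : DifferentiableAt ℝ (fderiv ℝ φ) z.1 :=
    (hφy.fderiv_right (m := 1) (by norm_cast)).differentiableAt (by simp)
  have h1 : HasFDerivAt (fun z : Fr n => φ z.1)
      ((fderiv ℝ φ z.1).comp (ContinuousLinearMap.fst ℝ (E n) (E n →L[ℝ] E n))) z :=
    hφd.hasFDerivAt.comp z hasFDerivAt_fst
  have h2 : HasFDerivAt (fun z : Fr n => fderiv ℝ φ z.1)
      ((fderiv ℝ (fderiv ℝ φ) z.1).comp (ContinuousLinearMap.fst ℝ (E n) (E n →L[ℝ] E n))) z :=
    hJd.hasFDerivAt.comp z hasFDerivAt_fst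
  have h3 : HasFDerivAt (fun z : Fr n => z.2)
      (ContinuousLinearMap.snd ℝ (E n) (E n →L[ℝ] E n)) z := hasFDerivAt_snd
  have h4 := h2.clm_comp h3
  have h5 := h1.prodMk h4
  have h6 : HasFDerivAt (fun z : Fr n => F' (φ z.1, fderiv ℝ φ z.1 ∘L z.2)) _ z :=
    hF'.hasFDerivAt.comp z h5
  unfold Hd
  rw [h6.fderiv]
  rw [ContinuousLinearMap.comp_apply]
  congr 1
  unfold hv
  ext1
  · simp
  · ext1 x
    have h7 := christ_natural h h' hφ hm hiso hz (z.2 u) (z.2 x)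
    simp [h7]

/-- Naturality of the lift. -/
theorem lift_natural {U : Set (E n)} {φ : E n → E n} {w w' : E n → X n}
    (hw : ∀ y ∈ U, w y = rho (fderiv ℝ φ y) (w' (φ y))) {z : Fr n} (hz : z.1 ∈ U) :
    lift w z = lift w' (φ z.1, fderiv ℝ φ z.1 ∘L z.2) := by
  unfold lift
  rw [hw _ hz, rho_comp]

end ANCO
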