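import Pool.Agent.Helper39.Anco.Fock1
import Pool.Agent.Helper39.Anco.Fock2

/-! Clifford multiplication. -/

open scoped ContDiff Topology Manifold InnerProductSpace
open Set MeasureTheory

set_option maxSynthPendingDepth 3

noncomputable section
namespace ANCO

variable {n : ℕ}

theorem cliff_gam_apply (i : Fin n) (x : X n) : gam i x = eps i x - iota i x := rfl

theorem cliff_gar_apply (i : Fin n) (x : X n) : gar i x = eps i (par x) + iota i (par x) := rfl

theorem gam_gar (i j : Fin n) (x : X n) : gam i (gar j x) = gar j (gam i x) := by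
  rw [cliff_gam_apply, cliff_gar_apply, cliff_gar_apply, cliff_gam_apply, map_sub, map_add, map_add,
    map_sub, map_sub, par_eps, par_iota, map_neg, map_neg, map_neg, map_neg]
  have h1 := eps_eps i j (par x)
  have h2 := iota_iota i j (par x)
  have h3 := eps_iota i j (par x)
  have h4 := eps_iota j i (par x)
  have h5 : (if i = j then par x else 0) = (if j = i then par x else 0) := by
    by_cases h : i = j
    · rw [if_pos h, if_pos h.symm]
    · rw [if_neg h, if_neg (Ne.symm h)]
  rw [h5, ← h4] at h3
  have h6 : eps i (iota j (par x)) = eps j (iota i (par x)) + iota i (eps j (par x)) -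
      iota j (eps i (par x)) := eq_sub_of_add_eq h3
  rw [h1, h2, h6]
  abel

theorem cliff_inner_iota (i : Fin n) (x y : X n) : ⟪iota i x, y⟫_ℝ = ⟪x, eps i y⟫_ℝ := by
  rw [real_inner_comm, ← inner_eps, real_inner_comm]

theorem inner_gam (i : Fin n) (x y : X n) : ⟪gam i x, y⟫_ℝ = -⟪x, gam i y⟫_ℝ := by
  rw [cliff_gam_apply, cliff_gam_apply, inner_sub_left, inner_sub_right, inner_eps,
    cliff_inner_iota]
  ring

theorem gam_gam (i j : Fin n) (x : X n) :
    gam i (gam j x) + gam j (gam i x) = if i = j then -(2 : ℝ) • x else 0 := by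
  rw [cliff_gam_apply, cliff_gam_apply, cliff_gam_apply, cliff_gam_apply, map_sub, map_sub,
    map_sub, map_sub]
  have h1 := eps_eps i j x
  have h2 := iota_iota i j x
  have h3 := eps_iota i j x
  have h4 := eps_iota j i x
  have h5 : (if j = i then x else 0) = (if i = j then x else 0) := by
    by_cases h : i = j
    · rw [if_pos h, if_pos h.symm]
    · rw [if_neg h, if_neg (Ne.symm h)]
  rw [h5] at h4
  have e1 : eps i (eps j x) - eps i (iota j x) - (iota i (eps j x) - iota i (iota j x)) +
      (eps j (eps i x) - eps j (iota i x) - (iota j (eps i x) - iota j (iota i x))) =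
      (eps i (eps j x) + eps j (eps i x)) + (iota i (iota j x) + iota j (iota i x)) -
      ((eps i (iota j x) + iota j (eps i x)) + (eps j (iota i x) + iota i (eps j x))) := by
    abel
  rw [e1, h1, h2, h3, h4]
  by_cases h : i = j
  · rw [if_pos h, if_pos h]
    rw [neg_smul, two_smul]
    abel
  · rw [if_neg h, if_neg h]
    abel

/-- composition of the operators in a list -/
def cliffL (l : List (Fin n)) : X n →L[ℝ] X n :=
  (l.map gam).foldr (fun a b => a ∘L b) (ContinuousLinearMap.id ℝ (X n))

theorem cliffL_nil (x : X n) : cliffL [] x = x := rfl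

theorem cliffL_cons (a : Fin n) (l : List (Fin n)) (x : X n) :
    cliffL (a :: l) x = gam a (cliffL l x) := rfl

theorem cliff_gamI (I : Finset (Fin n)) : gamI I = cliffL (I.sort (· ≤ ·)) := rfl

theorem cliffL_gar (l : List (Fin n)) (i : Fin n) (y : X n) :
    cliffL l (gar i y) = gar i (cliffL l y) := by
  induction l with
  | nil => rfl
  | cons a l ih => rw [cliffL_cons, cliffL_cons, ih, gam_gar]

theorem cliffL_vac (l : List (Fin n)) (h : l.Pairwise (· < ·)) :
    cliffL l (eX ∅) = eX l.toFinset := by
  induction l with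
  | nil => rfl
  | cons a l ih =>
    rw [List.pairwise_cons] at h
    have ha : a ∉ l.toFinset := by
      rw [List.mem_toFinset]
      intro h'
      exact lt_irrefl _ (h.1 a h')
    have hs : sg a l.toFinset = 1 := by
      unfold sg
      rw [Finset.filter_eq_empty_iff.mpr]
      · simp
      · intro j hj
        rw [List.mem_toFinset] at hj
        exact (h.1 j hj).not_gt
    rw [cliffL_cons, ih h.2, cliff_gam_apply, eps_eX, iota_eX, if_neg ha, if_neg ha, hs, one_smul,
      sub_zero, List.toFinset_cons]

theorem gamI_vac (I : Finset (Fin n)) : gamI I (eX ∅) = eX I := by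
  rw [cliff_gamI, cliffL_vac, Finset.sort_toFinset]
  exact (Finset.sortedLT_sort I).pairwise

theorem LX_apply (x y : X n) : LX x y = ∑ I, x I • gamI I y := by
  have h : (LX x : X n →L[ℝ] X n) = ∑ I, x I • gamI I := rfl
  rw [h, ContinuousLinearMap.sum_apply]
  rfl

theorem cliff_sum (x : X n) : x = ∑ I, x I • eX I := by
  ext J
  simp [eX, Pi.single_apply]

theorem LX_vac (x : X n) : LX x (eX ∅) = x := by
  rw [LX_apply]
  conv_rhs => rw [cliff_sum x]
  exact Finset.sum_congr rfl fun I _ => by rw [gamI_vac]

theorem cliff_LX_eX (I : Finset (Fin n)) (y : X n) : LX (eX I) y = gamI I y := by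
  rw [LX_apply, Finset.sum_eq_single I]
  · simp [eX]
  · intro J _ hJ
    simp [eX, hJ]
  · simp

theorem LX_one (x : X n) : LX (eX ∅) x = x := by
  rw [cliff_LX_eX, cliff_gamI, Finset.sort_empty]
  rfl

theorem LX_gar (x : X n) (i : Fin n) (y : X n) : LX x (gar i y) = gar i (LX x y) := by
  rw [LX_apply, LX_apply, map_sum]
  refine Finset.sum_congr rfl fun I _ => ?_
  rw [map_smul, cliff_gamI, cliffL_gar]

theorem cliff_par_eX (I : Finset (Fin n)) : par (eX I : X n) = ((-1 : ℝ) ^ I.card) • eX I := by
  ext J
  show (-1 : ℝ) ^ J.card * (eX I : X n) J = (-1 : ℝ) ^ I.card * (eX I : X n) J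
  by_cases h : J = I
  · rw [h]
  · simp [eX, h]

theorem cliff_gar_eX (i : Fin n) (I : Finset (Fin n)) (hi : i ∉ I) :
    gar i (eX I : X n) = ((-1 : ℝ) ^ I.card * sg i I) • eX (insert i I) := by
  rw [cliff_gar_apply, cliff_par_eX, map_smul, map_smul, eps_eX, iota_eX, if_neg hi, if_neg hi,
    smul_zero, add_zero, smul_smul]

/-- An operator commuting with all right multiplications is a left multiplication. -/
theorem eq_LX_of_comm (T : X n →L[ℝ] X n) (hT : ∀ i y, T (gar i y) = gar i (T y)) :
    T = LX (T (eX ∅)) := by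
  have key : ∀ I : Finset (Fin n), T (eX I) = LX (T (eX ∅)) (eX I) := by
    intro I
    induction I using Finset.induction_on with
    | empty => rw [LX_vac]
    | insert i I hi ih =>
      have hc : ((-1 : ℝ) ^ I.card * sg i I) * ((-1 : ℝ) ^ I.card * sg i I) = 1 := by
        have h1 := fock1_sg_sq i I
        have h2 : ((-1 : ℝ) ^ I.card) * ((-1 : ℝ) ^ I.card) = 1 := by
          rw [← pow_add, ← two_mul, pow_mul]
          norm_num
        calc _ = (((-1 : ℝ) ^ I.card) * ((-1 : ℝ) ^ I.card)) * (sg i I * sg i I) := by ring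
          _ = 1 := by rw [h1, h2]; norm_num
      have he : (eX (insert i I) : X n) = ((-1 : ℝ) ^ I.card * sg i I) • gar i (eX I) := by
        rw [cliff_gar_eX i I hi, smul_smul, hc, one_smul]
      rw [he, map_smul, map_smul, hT, LX_gar, ih]
  ext y : 1
  rw [cliff_sum y, map_sum, map_sum]
  refine Finset.sum_congr rfl fun I _ => ?_
  rw [map_smul, map_smul, key]

theorem LX_mul (x y z : X n) : LX (LX x y) z = LX x (LX y z) := by
  have h := eq_LX_of_comm ((LX x) ∘L (LX y) : X n →L[ℝ] X n) (by
    intro i w
    rw [ContinuousLinearMap.comp_apply, ContinuousLinearMap.comp_apply, LX_gar, LX_gar])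
  rw [ContinuousLinearMap.comp_apply, LX_vac] at h
  rw [← h, ContinuousLinearMap.comp_apply]

theorem LX_single (i : Fin n) : LX (eX {i}) = (gam i : X n →L[ℝ] X n) := by
  ext y : 1
  rw [cliff_LX_eX, cliff_gamI, Finset.sort_singleton]
  rfl

end ANCO
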