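import Pool.Agent.Helper39.Anco.Fock1
import Pool.Agent.Helper39.Anco.Fock2
import Pool.Agent.Helper39.Anco.Cliff
import Pool.Agent.Helper39.Anco.Rho

open scoped ContDiff Topology Manifold InnerProductSpace
open Set MeasureTheory

set_option maxSynthPendingDepth 3

noncomputable section
namespace ANCO

variable {n : ℕ}

private theorem rhoo_sum (x : X n) : x = ∑ I, x I • eX I := by
  ext J
  simp [eX, Pi.single_apply]

private theorem rhoo_sg (i : Fin n) (I : Finset (Fin n)) : sg i I * sg i I = 1 := by
  rw [sg, ← mul_pow]; simp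

private theorem rhoo_ins {i : Fin n} {I : Finset (Fin n)} (h : i ∉ I) :
    eX (insert i I) = sg i I • eps i (eX I) := by
  rw [eps_eX, if_neg h, smul_smul, rhoo_sg, one_smul]

/-- the vector `k⁻¹ e_i` -/
private theorem rhoo_w (k : E n →L[ℝ] E n) (hk : IsOrth k) (i : Fin n) :
    ∃ w : E n, k w = e i ∧ ∀ j, w j = (k (e j)) i := by
  have hinj : Function.Injective k.toLinearMap := by
    rw [← LinearMap.ker_eq_bot, LinearMap.ker_eq_bot']
    intro m hm
    have h := hk m m
    have hm' : k m = 0 := hm
    rw [hm', inner_zero_left] at h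
    exact inner_self_eq_zero.1 h.symm
  obtain ⟨w, hw⟩ := (LinearMap.injective_iff_surjective.1 hinj) (e i)
  have hw' : k w = e i := hw
  refine ⟨w, hw', fun j => ?_⟩
  have h := hk w (e j)
  rw [hw'] at h
  simp only [e, EuclideanSpace.inner_single_left, EuclideanSpace.inner_single_right] at h
  simpa [e] using h.symm

private theorem rhoo_eps (k : E n →L[ℝ] E n) (i : Fin n) (w : E n)
    (hw : ∀ j, w j = (k (e j)) i) (x : X n) :
    rho k (eps i x) = ∑ j, w j • eps j (rho k x) := by
  rw [← epsv_proj, rho_epsv, epsv]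
  simp [hw, _root_.sum_apply]

private theorem rhoo_iota (k : E n →L[ℝ] E n) (i : Fin n) (w : E n) (hw : k w = e i) (x : X n) :
    rho k (iota i x) = ∑ j, w j • iota j (rho k x) := by
  rw [← iotav_e, ← hw, rho_iotav, iotav]
  simp [_root_.sum_apply]

private theorem rhoo_zero (k : E n →L[ℝ] E n) (y : X n) : (rho k y) ∅ = y ∅ := by
  have h := prj_rho 0 k y
  rw [prj_zero_eq, prj_zero_eq, map_smul, rho_vac] at h
  have h2 := congrArg (fun z : X n => z ∅) h
  simpa [eX] using h2

theorem inner_rho (k : E n →L[ℝ] E n) (hk : IsOrth k) (x y : X n) :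
    ⟪rho k x, rho k y⟫_ℝ = ⟪x, y⟫_ℝ := by
  have key : ∀ (I : Finset (Fin n)) (y : X n), ⟪rho k (eX I), rho k y⟫_ℝ = ⟪eX I, y⟫_ℝ := by
    intro I
    induction I using Finset.induction_on with
    | empty =>
      intro y
      rw [rho_vac]
      simp only [eX, EuclideanSpace.inner_single_left]
      rw [rhoo_zero]
    | insert i I hi ih =>
      intro y
      obtain ⟨w, hw1, hw2⟩ := rhoo_w k hk i
      rw [rhoo_ins hi, map_smul, real_inner_smul_left, real_inner_smul_left]
      congr 1
      rw [rhoo_eps k i w hw2, sum_inner]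
      rw [inner_eps, ← ih (iota i y), rhoo_iota k i w hw1, inner_sum]
      refine Finset.sum_congr rfl fun j _ => ?_
      rw [real_inner_smul_left, real_inner_smul_right, inner_eps]
  rw [rhoo_sum x]
  simp only [map_sum, map_smul, sum_inner, real_inner_smul_left, key]

private theorem rhoo_gam (k : E n →L[ℝ] E n) (i : Fin n) (w : E n) (hw1 : k w = e i)
    (hw2 : ∀ j, w j = (k (e j)) i) (x : X n) :
    rho k (gam i x) = ∑ j, w j • gam j (rho k x) := by
  simp only [gam, _root_.sub_apply, map_sub, smul_sub, Finset.sum_sub_distrib]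
  rw [rhoo_eps k i w hw2, rhoo_iota k i w hw1]

private theorem rhoo_LX_gam (i : Fin n) (x y : X n) : LX (gam i x) y = gam i (LX x y) := by
  rw [← LX_single, LX_mul]

theorem rho_LX (k : E n →L[ℝ] E n) (hk : IsOrth k) (x y : X n) :
    rho k (LX x y) = LX (rho k x) (rho k y) := by
  have key : ∀ (I : Finset (Fin n)), rho k (LX (eX I) y) = LX (rho k (eX I)) (rho k y) := by
    intro I
    induction I using Finset.induction_on with
    | empty => rw [LX_one, rho_vac, LX_one]
    | insert i I hi ih =>
      obtain ⟨w, hw1, hw2⟩ := rhoo_w k hk i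
      have h1 : (eX (insert i I) : X n) = sg i I • gam i (eX I) := by
        rw [rhoo_ins hi, gam, _root_.sub_apply, iota_eX, if_neg hi, sub_zero]
      rw [h1, map_smul, map_smul, _root_.smul_apply, map_smul, map_smul,
        _root_.smul_apply, rhoo_LX_gam, rhoo_gam k i w hw1 hw2,
        rhoo_gam k i w hw1 hw2, ih]
      congr 1
      simp only [map_sum, map_smul, _root_.sum_apply,
        _root_.smul_apply, rhoo_LX_gam]
  rw [rhoo_sum x]
  simp only [map_sum, map_smul, _root_.sum_apply,
    _root_.smul_apply, key]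

end ANCO
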