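import Pool.Agent.Helper39.Anco.Tr
import Pool.Agent.Helper39.Anco.Rho
import Pool.Agent.Helper39.Anco.RhoO
import Pool.Agent.Helper39.Anco.Hv
import Pool.Agent.Helper39.Anco.Nat
import Pool.Agent.Helper39.Anco.Frame

/-! ANCO module VALCH: values and covariant derivatives of total forms in a fixed chart. -/

open scoped ContDiff Topology Manifold InnerProductSpace
open Set MeasureTheory Filter

set_option maxSynthPendingDepth 3

noncomputable section
namespace ANCO

variable {n : ℕ} {M : Type} [TopologicalSpace M] [ChartedSpace (E n) M]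

theorem RMetric.isMet (g : RMetric n M) (x : M) : IsMet (g.g x) (tgt n M x) :=
  ⟨(chartAt (E n) x).open_target, g.smooth x, g.symm x, g.pos x⟩

theorem Bf_spec (g : RMetric n M) (x : M) : IsFrameField (g.g x) (tgt n M x) (Bf g x) := by
  classical
  have h := exists_frame (g.isMet x)
  rw [Bf, dif_pos h]
  exact h.choose_spec

theorem iso_tr (g : RMetric n M) {x x' : M} {y : E n} (hy : y ∈ (tr n M x x').source)
    {b : E n →L[ℝ] E n} (hb : IsoFr (g.g x) (y, b)) :
    IsoFr (g.g x') (tr n M x x' y, fderiv ℝ (tr n M x x') y ∘L b) := by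
  intro u v
  have h := g.compat x x' y hy (b u) (b v)
  have h2 := hb u v
  simp only at h2 ⊢
  rw [← h2, h]
  rfl

theorem valch_src (g : RMetric n M) (x x' : M) :
    IsMet (g.g x) (tr n M x x').source := by
  have h := g.isMet x
  have hsub : (tr n M x x').source ⊆ tgt n M x := fun y hy => (mem_tr_source.1 hy).1
  exact ⟨(tr n M x x').open_source, h.smooth.mono hsub, fun y hy => h.symm y (hsub hy),
    fun y hy => h.pos y (hsub hy)⟩

theorem valch_lift_diff {x : M} {s : M → E n → X n} (hs : s ∈ TForm n M) {y : E n}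
    (hy : y ∈ tgt n M x) (b : E n →L[ℝ] E n) : DifferentiableAt ℝ (lift (s x)) (y, b) := by
  have h := lift_smooth (hs.2.1 x)
  refine (h.contDiffAt ?_).differentiableAt (by simp)
  exact ((chartAt (E n) x).open_target.prod isOpen_univ).mem_nhds ⟨hy, mem_univ _⟩

theorem valch_Hd_sum {W : Type} [NormedAddCommGroup W] [NormedSpace ℝ W] (G : Coef n)
    (F : Fr n → W) (z : Fr n) (v : E n) :
    Hd G v F z = ∑ j, v j • Hd G (e j) F z := by
  let L : E n →ₗ[ℝ] W :=
    { toFun := fun u => Hd G u F z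
      map_add' := fun u v => by
        have := Hd_linear (G := G) F z u v 1 1
        simpa using this
      map_smul' := fun a u => by
        have := Hd_linear (G := G) F z u 0 a 0
        simpa using this }
  have hv : v = ∑ j, v j • (e j : E n) := by
    ext i
    simp [e, Pi.single_apply]
  calc Hd G v F z = L v := rfl
    _ = L (∑ j, v j • e j) := by rw [← hv]
    _ = ∑ j, v j • L (e j) := by rw [map_sum]; simp
    _ = _ := rfl

/-- the lifts of a total form in two charts -/
theorem valch_nat {x x' : M} {s : M → E n → X n} (hs : s ∈ TForm n M) {z : Fr n}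
    (hz : z.1 ∈ (tr n M x x').source) :
    lift (s x) z = lift (s x') (tr n M x x' z.1, fderiv ℝ (tr n M x x') z.1 ∘L z.2) :=
  lift_natural (fun y hy => hs.2.2 x x' y hy) hz

theorem valch_Hd_nat [IsManifold (𝓡 n) ∞ M] (g : RMetric n M) {x x' : M} {s : M → E n → X n}
    (hs : s ∈ TForm n M) {z : Fr n} (hz : z.1 ∈ (tr n M x x').source) (u : E n) :
    Hd (g.g x) u (lift (s x)) z = Hd (g.g x') u (lift (s x'))
      (tr n M x x' z.1, fderiv ℝ (tr n M x x') z.1 ∘L z.2) := by
  have hz' : tr n M x x' z.1 ∈ tgt n M x' := (mem_tr_source.1 (tr_mem hz)).1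
  rw [← Hd_natural (valch_src g x x') (g.isMet x') (tr_smooth x x')
    (fun y hy => (mem_tr_source.1 (tr_mem hy)).1) (fun y hy u v => g.compat x x' y hy u v)
    (lift (s x')) hz (valch_lift_diff hs hz' _) u]
  have h : lift (s x) =ᶠ[𝓝 z] fun z =>
      lift (s x') (tr n M x x' z.1, fderiv ℝ (tr n M x x') z.1 ∘L z.2) := by
    have : (tr n M x x').source ×ˢ (univ : Set (E n →L[ℝ] E n)) ∈ 𝓝 z :=
      ((tr n M x x').open_source.prod isOpen_univ).mem_nhds ⟨hz, mem_univ _⟩
    filter_upwards [this] with w hw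
    exact valch_nat hs hw.1
  rw [Hd, Hd, h.fderiv_eq]

theorem val_chart [IsManifold (𝓡 n) ∞ M] (g : RMetric n M) (x x' : M)
    (hx : x' ∈ (chartAt (E n) x).source) : ∃ k : E n →L[ℝ] E n, IsOrth k ∧
    (∀ s ∈ TForm n M, val g s x' =
      rho k (lift (s x) (chartAt (E n) x x', Bf g x (chartAt (E n) x x')))) ∧
    (∀ s ∈ TForm n M, ∀ i, nab g s x' i = ∑ j, (k (e i)) j • rho k
      (Hd (g.g x) (e j) (lift (s x)) (chartAt (E n) x x', Bf g x (chartAt (E n) x x')))) := by
  have hy' : ctr n x' ∈ tgt n M x' := (chartAt (E n) x').map_source (mem_chart_source (E n) x')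
  have hsymm : (chartAt (E n) x').symm (ctr n x') = x' :=
    (chartAt (E n) x').left_inv (mem_chart_source (E n) x')
  have hsrc : ctr n x' ∈ (tr n M x' x).source := by
    rw [mem_tr_source, hsymm]
    exact ⟨hy', hx⟩
  have htr : tr n M x' x (ctr n x') = chartAt (E n) x x' := by
    rw [tr_apply_aux, hsymm]
  have hyx : chartAt (E n) x x' ∈ tgt n M x := (chartAt (E n) x).map_source hx
  have hiso : IsoFr (g.g x) (chartAt (E n) x x',
      fderiv ℝ (tr n M x' x) (ctr n x') ∘L Bf g x' (ctr n x')) := by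
    have := iso_tr g hsrc ((Bf_spec g x').2 _ hy')
    rwa [htr] at this
  obtain ⟨k, hk, hkB⟩ := iso_diff (g.isMet x) hyx ((Bf_spec g x).2 _ hyx) hiso
  refine ⟨k, hk, fun s hs => ?_, fun s hs i => ?_⟩
  · have h := valch_nat hs (z := fr g x') hsrc
    rw [val, h]
    simp only [fr] at *
    rw [htr, hkB, lift, rho_comp]
    rfl
  · have h := valch_Hd_nat g hs (z := fr g x') hsrc (e i)
    rw [nab, h]
    simp only [fr] at *
    have hd : DifferentiableAt ℝ (s x) (chartAt (E n) x x') :=
      ((hs.2.1 x).contDiffAt ((chartAt (E n) x).open_target.mem_nhds hyx)).differentiableAt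
        (by simp)
    rw [htr, hkB, Hd_lift_right hd, valch_Hd_sum, map_sum]
    simp

theorem inner_val_chart [IsManifold (𝓡 n) ∞ M] (g : RMetric n M) (x x' : M)
    (hx : x' ∈ (chartAt (E n) x).source) {s t : M → E n → X n} (hs : s ∈ TForm n M)
    (ht : t ∈ TForm n M) : ⟪val g s x', val g t x'⟫_ℝ =
    ⟪lift (s x) (chartAt (E n) x x', Bf g x (chartAt (E n) x x')),
      lift (t x) (chartAt (E n) x x', Bf g x (chartAt (E n) x x'))⟫_ℝ := by
  obtain ⟨k, hk, h1, -⟩ := val_chart g x x' hx
  rw [h1 s hs, h1 t ht, inner_rho k hk]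

/-- rows of an orthogonal matrix are orthonormal -/
theorem valch_orth {k : E n →L[ℝ] E n} (hk : IsOrth k) (j l : Fin n) :
    ∑ i, (k (e i)) j * (k (e i)) l = if j = l then 1 else 0 := by
  let li : E n →ₗᵢ[ℝ] E n := k.toLinearMap.isometryOfInner hk
  let le : E n ≃ₗᵢ[ℝ] E n := li.toLinearIsometryEquiv rfl
  have hle : ∀ v, le v = k v := fun v => rfl
  have h := ((EuclideanSpace.basisFun (Fin n) ℝ).map le).sum_inner_mul_inner (e j) (e l)
  have h1 : ∀ i, ((EuclideanSpace.basisFun (Fin n) ℝ).map le) i = k (e i) := by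
    intro i
    rw [OrthonormalBasis.map_apply, hle]
    simp [e]
  simp only [h1] at h
  have h2 : ∀ (v : E n) (m : Fin n), ⟪(e m : E n), v⟫_ℝ = v m := by
    intro v m
    simp [e, EuclideanSpace.inner_single_left]
  have h3 : ∀ (v : E n) (m : Fin n), ⟪v, (e m : E n)⟫_ℝ = v m := by
    intro v m
    rw [real_inner_comm, h2]
  simp only [h2, h3] at h
  rw [h]
  simp [e]

theorem inner_nab_chart [IsManifold (𝓡 n) ∞ M] (g : RMetric n M) (x x' : M)
    (hx : x' ∈ (chartAt (E n) x).source) {s t : M → E n → X n} (hs : s ∈ TForm n M)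
    (ht : t ∈ TForm n M) : ∑ i, ⟪nab g s x' i, nab g t x' i⟫_ℝ =
    ∑ i, ⟪Hd (g.g x) (e i) (lift (s x)) (chartAt (E n) x x', Bf g x (chartAt (E n) x x')),
      Hd (g.g x) (e i) (lift (t x)) (chartAt (E n) x x', Bf g x (chartAt (E n) x x'))⟫_ℝ := by
  obtain ⟨k, hk, -, h1⟩ := val_chart g x x' hx
  simp only [h1 s hs, h1 t ht, inner_sum, sum_inner, inner_smul_left, inner_smul_right,
    inner_rho k hk, RCLike.conj_to_real]
  rw [Finset.sum_comm]
  have : ∀ a b : Fin n, ∀ c : ℝ, ∑ i, (k (e i)) a * ((k (e i)) b * c) =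
      if b = a then c else 0 := by
    intro a b c
    have h := valch_orth hk a b
    calc ∑ i, (k (e i)) a * ((k (e i)) b * c) = (∑ i, (k (e i)) a * (k (e i)) b) * c := by
          rw [Finset.sum_mul]
          exact Finset.sum_congr rfl fun i _ => by ring
      _ = _ := by
          rw [h]
          by_cases hab : a = b
          · simp [hab]
          · simp [hab, Ne.symm hab]
  refine Finset.sum_congr rfl fun a _ => ?_
  simp only [Finset.mul_sum]
  rw [Finset.sum_comm]
  simp only [this]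
  simp

end ANCO
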