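import Pool.Agent.Helper39.Anco.Hv
import Pool.Agent.Helper39.Anco.Frame
import Pool.Agent.Helper39.Anco.Div1
import Pool.Agent.Helper39.Anco.Div2
import Pool.Agent.Helper39.Anco.Valch
import Pool.Agent.Helper39.Anco.Clos
import Pool.Agent.Helper39.Anco.ClosB
import Pool.Agent.Helper39.Anco.ClosC
import Pool.Agent.Helper39.Anco.Vol
import Pool.Agent.Helper39.Anco.Int
import Pool.Agent.Helper39.Anco.Pu

open scoped ContDiff Topology Manifold InnerProductSpace
open Set MeasureTheory

set_option maxSynthPendingDepth 3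

noncomputable section
namespace ANCO

variable {n : ℕ} {M : Type} [TopologicalSpace M] [ChartedSpace (E n) M]

theorem adj_det_eq (b : E n →L[ℝ] E n) : LinearMap.det b.toLinearMap =
    ∑ σ : Equiv.Perm (Fin n), ((Equiv.Perm.sign σ : ℤ) : ℝ) * ∏ i, (b (e i)) (σ i) := by
  rw [← LinearMap.det_toMatrix (EuclideanSpace.basisFun (Fin n) ℝ).toBasis, Matrix.det_apply]
  refine Finset.sum_congr rfl fun σ _ => ?_
  rw [Units.smul_def, zsmul_eq_mul]
  congr 1

theorem adj_det_smooth {U : Set (E n)} {B : E n → E n →L[ℝ] E n} (hB : ContDiffOn ℝ ∞ B U) :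
    ContDiffOn ℝ ∞ (fun y => LinearMap.det (B y).toLinearMap) U := by
  simp only [adj_det_eq]
  refine ContDiffOn.sum fun σ _ => ?_
  refine contDiffOn_const.mul ?_
  refine contDiffOn_prod fun i _ => ?_
  have h1 : ContDiffOn ℝ ∞ (fun y => B y (e i)) U := hB.clm_apply contDiffOn_const
  exact (EuclideanSpace.proj (𝕜 := ℝ) (σ i)).contDiff.comp_contDiffOn h1

theorem adj_det_ne {G : Coef n} {U : Set (E n)} (h : IsMet G U) {B : E n → E n →L[ℝ] E n}
    (hB : IsFrameField G U B) {y : E n} (hy : y ∈ U) : LinearMap.det (B y).toLinearMap ≠ 0 := by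
  obtain ⟨c, hc, -⟩ := iso_inv h (z := (y, B y)) hy (hB.2 y hy)
  intro h0
  have h1 : LinearMap.det (c.toLinearMap ∘ₗ (B y).toLinearMap) = 1 := by
    have : c.toLinearMap ∘ₗ (B y).toLinearMap = LinearMap.id := by
      ext v
      have := congrArg (fun f : E n →L[ℝ] E n => f v) hc
      simpa using congrArg (fun w : E n => w _) this
    rw [this, LinearMap.det_id]
  rw [LinearMap.det_comp, h0, mul_zero] at h1
  exact zero_ne_one h1

theorem adj_field_smooth {G : Coef n} {U : Set (E n)} (h : IsMet G U)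
    {B : E n → E n →L[ℝ] E n} (hB : IsFrameField G U B) {w w' : E n → X n}
    (hw : ContDiffOn ℝ ∞ w U) (hw' : ContDiffOn ℝ ∞ w' U) :
    ContDiffOn ℝ ∞ (fun y => |LinearMap.det (B y).toLinearMap|⁻¹ •
      ∑ i, ⟪lift w (y, B y), iota i (lift w' (y, B y))⟫_ℝ • B y (e i)) U := by
  have hpair : ContDiffOn ℝ ∞ (fun y => ((y, B y) : Fr n)) U := contDiffOn_id.prodMk hB.1
  have hmaps : MapsTo (fun y => ((y, B y) : Fr n)) U (U ×ˢ univ) := fun y hy => ⟨hy, mem_univ _⟩
  have h1 : ContDiffOn ℝ ∞ (fun y => lift w (y, B y)) U := (lift_smooth hw).comp hpair hmaps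
  have h2 : ContDiffOn ℝ ∞ (fun y => lift w' (y, B y)) U := (lift_smooth hw').comp hpair hmaps
  have h3 : ContDiffOn ℝ ∞ (fun y => |LinearMap.det (B y).toLinearMap|⁻¹) U := by
    refine ContDiffOn.inv ?_ ?_
    · exact (adj_det_smooth hB.1).abs fun y hy => adj_det_ne h hB hy
    · exact fun y hy => abs_ne_zero.mpr (adj_det_ne h hB hy)
  refine h3.smul ?_
  refine ContDiffOn.sum fun i _ => ?_
  have h4 : ContDiffOn ℝ ∞ (fun y => B y (e i)) U := hB.1.clm_apply contDiffOn_const
  have h5 : ContDiffOn ℝ ∞ (fun y => ⟪lift w (y, B y), iota i (lift w' (y, B y))⟫_ℝ) U :=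
    h1.inner ℝ ((iota i).contDiff.comp_contDiffOn h2)
  exact h5.smul h4

theorem adj_local {G : Coef n} {U : Set (E n)} (h : IsMet G U)
    {B : E n → E n →L[ℝ] E n} (hB : IsFrameField G U B) {w w' : E n → X n}
    (hw : ContDiffOn ℝ ∞ w U) (hw' : ContDiffOn ℝ ∞ w' U) {K : Set (E n)} (hK : IsCompact K)
    (hKU : K ⊆ U) (h0 : ∀ y ∉ K, w y = 0) :
    ∫ y in U, (⟪lift (dloc w) (y, B y), lift w' (y, B y)⟫_ℝ -
      ⟪lift w (y, B y), lift (deloc G w') (y, B y)⟫_ℝ) * |LinearMap.det (B y).toLinearMap|⁻¹ = 0 := by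
  rw [setIntegral_congr_fun h.isOpen.measurableSet
    (fun y hy => div_identity h hB hw hw' hy)]
  refine integral_div_zero h.isOpen ((adj_field_smooth h hB hw hw').of_le (by exact_mod_cast le_top))
    hK hKU ?_
  intro y hy
  simp [lift, h0 y hy]

theorem adj_dT_zero : dT (0 : M → E n → X n) = 0 := by
  funext x y
  simp only [dT]
  split_ifs with h
  · simp [dloc]
  · rfl

/-- the global statement for a form supported in a chart -/
theorem adj_chart [IsManifold (𝓡 n) ∞ M] [CompactSpace M] [T2Space M] [MeasurableSpace M]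
    [BorelSpace M] (g : RMetric n M) {s t : M → E n → X n} (hs : s ∈ TForm n M)
    (ht : t ∈ TForm n M) (x : M) {f : M → ℝ} (hf : IsSm n M f)
    (hsup : tsupport f ⊆ (chartAt (E n) x).source) :
    ip g (dT (mulT f s)) t = ip g (mulT f s) (deT g t) := by
  set s' := mulT f s with hs'
  have hs'm : s' ∈ TForm n M := mulT_mem hf hs
  have hds : dT s' ∈ TForm n M := dT_mem g hs'm
  have hdt : deT g t ∈ TForm n M := deT_mem g ht
  have hc1 := cont_ip g hds ht
  have hc2 := cont_ip g hs'm hdt
  have : IsFiniteMeasure (vol g) := (exists_vol g).1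
  have hi1 : Integrable (fun p => ⟪val g (dT s') p, val g t p⟫_ℝ) (vol g) :=
    hc1.integrable_of_hasCompactSupport (HasCompactSupport.of_compactSpace _)
  have hi2 : Integrable (fun p => ⟪val g s' p, val g (deT g t) p⟫_ℝ) (vol g) :=
    hc2.integrable_of_hasCompactSupport (HasCompactSupport.of_compactSpace _)
  have key : ∫ p, (⟪val g (dT s') p, val g t p⟫_ℝ - ⟪val g s' p, val g (deT g t) p⟫_ℝ) ∂(vol g) = 0 := by
    rw [integral_chart g x (f := fun p => ⟪val g (dT s') p, val g t p⟫_ℝ -
      ⟪val g s' p, val g (deT g t) p⟫_ℝ) (hc1.sub hc2)]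
    · rw [← adj_local (g.isMet x) (Bf_spec g x) (hs'm.2.1 x) (ht.2.1 x)
        (K := (chartAt (E n) x) '' (tsupport f))]
      · refine setIntegral_congr_fun (chartAt (E n) x).open_target.measurableSet ?_
        intro y hy
        have hsrc : (chartAt (E n) x).symm y ∈ (chartAt (E n) x).source :=
          (chartAt (E n) x).map_target hy
        have hyy : chartAt (E n) x ((chartAt (E n) x).symm y) = y :=
          (chartAt (E n) x).right_inv hy
        have e1 := inner_val_chart g x _ hsrc hds ht
        have e2 := inner_val_chart g x _ hsrc hs'm hdt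
        rw [hyy] at e1 e2
        have e3 : lift (dT s' x) (y, Bf g x y) = lift (dloc (s' x)) (y, Bf g x y) := by
          simp only [lift, dT, if_pos hy]
        have e4 : lift (deT g t x) (y, Bf g x y) = lift (deloc (g.g x) (t x)) (y, Bf g x y) := by
          simp only [lift, deT, if_pos hy]
        simp only [e1, e2, e3, e4, dens]
      · exact (isClosed_tsupport f).isCompact.image_of_continuousOn
          ((chartAt (E n) x).continuousOn.mono hsup)
      · rintro _ ⟨p, hp, rfl⟩
        exact (chartAt (E n) x).map_source (hsup hp)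
      · intro y hy
        by_cases hyt : y ∈ tgt n M x
        · have : (chartAt (E n) x).symm y ∉ tsupport f := by
            intro hmem
            exact hy ⟨_, hmem, (chartAt (E n) x).right_inv hyt⟩
          simp [hs', mulT, image_eq_zero_of_notMem_tsupport this]
        · exact hs'm.1 x y hyt
    · intro p hp
      have hpt : p ∉ tsupport f := fun h => hp (hsup h)
      have hf0 : ∀ᶠ q in 𝓝 p, f q = 0 := by
        have := (isClosed_tsupport f).isOpen_compl.mem_nhds hpt
        filter_upwards [this] with q hq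
        exact image_eq_zero_of_notMem_tsupport hq
      have hpt' : ctr n p ∈ tgt n M p := (chartAt (E n) p).map_source (mem_chart_source _ p)
      have hs0 : ∀ᶠ y in 𝓝 (ctr n p), s' p y = 0 := by
        have hcont : Filter.Tendsto (chartAt (E n) p).symm (𝓝 (ctr n p)) (𝓝 p) := by
          have := (chartAt (E n) p).continuousAt_symm hpt'
          rwa [ContinuousAt, (chartAt (E n) p).left_inv (mem_chart_source _ p)] at this
        filter_upwards [hcont.eventually hf0] with y hy
        simp [hs', mulT, hy]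
      have hv1 : val g (dT s') p = 0 := by
        have : dT s' p (ctr n p) = 0 := by
          simp only [dT, if_pos hpt', dloc]
          have hfd : fderiv ℝ (s' p) (ctr n p) = 0 := by
            have : s' p =ᶠ[𝓝 (ctr n p)] fun _ => 0 := hs0
            rw [this.fderiv_eq]; simp
          simp [hfd]
        simp [val, lift, fr, this]
      have hv2 : val g s' p = 0 := by
        have : s' p (ctr n p) = 0 := hs0.self_of_nhds
        simp [val, lift, fr, this]
      simp [hv1, hv2]
  rw [integral_sub hi1 hi2] at key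
  exact sub_eq_zero.mp key

theorem adj_dT [IsManifold (𝓡 n) ∞ M] [CompactSpace M] [T2Space M] [MeasurableSpace M]
    [BorelSpace M] (g : RMetric n M) {s t : M → E n → X n} (hs : s ∈ TForm n M)
    (ht : t ∈ TForm n M) : ip g (dT s) t = ip g s (deT g t) := by
  obtain ⟨F, χ, h1, h2, -, h4⟩ := exists_pu (n := n) (M := M)
    (fun x => (chartAt (E n) x).source)
    (fun x => ⟨(chartAt (E n) x).open_source, mem_chart_source _ x⟩)
  have hsum : s = ∑ x ∈ F, mulT (χ x) s := by
    funext x' y
    simp only [Finset.sum_apply, mulT]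
    rw [← Finset.sum_smul, h4, one_smul]
  have : IsFiniteMeasure (vol g) := (exists_vol g).1
  have hdt : deT g t ∈ TForm n M := deT_mem g ht
  have hP : (∑ x ∈ F, mulT (χ x) s) ∈ TForm n M ∧ ip g (dT (∑ x ∈ F, mulT (χ x) s)) t =
      ip g (∑ x ∈ F, mulT (χ x) s) (deT g t) := by
    refine Finset.sum_induction (fun x => mulT (χ x) s)
      (fun u => u ∈ TForm n M ∧ ip g (dT u) t = ip g u (deT g t)) ?_ ?_ ?_
    · rintro a b ⟨ha, ha'⟩ ⟨hb, hb'⟩
      refine ⟨(TForm n M).add_mem ha hb, ?_⟩
      rw [dT_add ha hb]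
      have hint : ∀ {u v : M → E n → X n}, u ∈ TForm n M → v ∈ TForm n M →
          Integrable (fun p => ⟪val g u p, val g v p⟫_ℝ) (vol g) := fun hu hv =>
        (cont_ip g hu hv).integrable_of_hasCompactSupport (HasCompactSupport.of_compactSpace _)
      have hadd : ∀ {u u' v : M → E n → X n}, u ∈ TForm n M → u' ∈ TForm n M → v ∈ TForm n M →
          ip g (u + u') v = ip g u v + ip g u' v := by
        intro u u' v hu hu' hv
        simp only [ip, val_add, inner_add_left]
        exact integral_add (hint hu hv) (hint hu' hv)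
      rw [hadd (dT_mem g ha) (dT_mem g hb) ht, hadd ha hb hdt, ha', hb']
    · refine ⟨(TForm n M).zero_mem, ?_⟩
      rw [adj_dT_zero]
      simp [ip, val, lift]
    · intro x hx
      exact ⟨mulT_mem (h1 x hx) hs, adj_chart g hs ht x (h1 x hx) (h2 x hx)⟩
  rw [← hsum] at hP
  exact hP.2

end ANCO
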