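import Pool.Agent.Helper39.Anco.Hv

/-!
# Commutators of horizontal derivatives (module ANCO-HCOMM)
-/

open scoped ContDiff Topology Manifold InnerProductSpace
open Set MeasureTheory

set_option maxSynthPendingDepth 3

noncomputable section
namespace ANCO

variable {n : ℕ}

/-- the derivative of a horizontal field -/
theorem hcomm_fderiv_hv {G : Coef n} {U : Set (E n)} (h : IsMet G U) {z : Fr n} (hz : z.1 ∈ U)
    (v a : E n) (c : E n →L[ℝ] E n) : fderiv ℝ (hv G v) z (a, c) =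
      (c v, -((fderiv ℝ (christ G) z.1 a (z.2 v)) ∘L z.2 + (christ G z.1 (c v)) ∘L z.2 +
        (christ G z.1 (z.2 v)) ∘L c)) := by
  have hC : HasFDerivAt (christ G) (fderiv ℝ (christ G) z.1) z.1 :=
    (((christ_smooth h).contDiffAt (h.isOpen.mem_nhds hz)).differentiableAt
      (by simp)).hasFDerivAt
  have h1 : HasFDerivAt (fun z : Fr n => z.2 v) _ z :=
    (hasFDerivAt_snd (𝕜 := ℝ) (p := z)).clm_apply (hasFDerivAt_const v z)
  have h2 : HasFDerivAt (fun z : Fr n => christ G z.1) _ z := hC.comp z hasFDerivAt_fst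
  have h3 := h2.clm_apply h1
  have h4 := h3.clm_comp (hasFDerivAt_snd (𝕜 := ℝ) (p := z))
  have h5 := h1.prodMk h4.neg
  have h6 : fderiv ℝ (hv G v) z = _ := h5.fderiv
  rw [h6]
  ext1
  · simp
  · ext w
    simp
    abel

theorem hcomm_second {W : Type} [NormedAddCommGroup W] [NormedSpace ℝ W] {G : Coef n}
    {U : Set (E n)} (h : IsMet G U) {F : Fr n → W} (hF : ContDiffOn ℝ ∞ F (U ×ˢ univ)) {z : Fr n}
    (hz : z.1 ∈ U) (u v : E n) : Hd G u (Hd G v F) z =
      fderiv ℝ (fderiv ℝ F) z (hv G u z) (hv G v z) +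
        fderiv ℝ F z (fderiv ℝ (hv G v) z (hv G u z)) := by
  have hzU : (U ×ˢ univ : Set (Fr n)) ∈ 𝓝 z := (hv_isOpen h.isOpen).mem_nhds ⟨hz, mem_univ _⟩
  have h1 : HasFDerivAt (fderiv ℝ F) (fderiv ℝ (fderiv ℝ F) z) z :=
    (((hF.fderiv_of_isOpen (m := ∞) (hv_isOpen h.isOpen) (by simp)).contDiffAt hzU).differentiableAt
      (by simp)).hasFDerivAt
  have h2 : HasFDerivAt (hv G v) (fderiv ℝ (hv G v) z) z :=
    (((hv_smooth h v).contDiffAt hzU).differentiableAt (by simp)).hasFDerivAt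
  have h3 := h1.clm_apply h2
  have h4 : fderiv ℝ (Hd G v F) z = _ := h3.fderiv
  have h5 : Hd G u (Hd G v F) z = fderiv ℝ (Hd G v F) z (hv G u z) := rfl
  rw [h5, h4]
  simp [add_comm]

theorem hcomm_bracket {G : Coef n} {U : Set (E n)} (h : IsMet G U) {z : Fr n} (hz : z.1 ∈ U)
    (u v : E n) : fderiv ℝ (hv G v) z (hv G u z) - fderiv ℝ (hv G u) z (hv G v z) =
      -((0 : E n), (riem G z.1 (z.2 u) (z.2 v)) ∘L z.2) := by
  have e1 := hcomm_fderiv_hv h hz v (z.2 u) (-((christ G z.1 (z.2 u)) ∘L z.2))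
  have e2 := hcomm_fderiv_hv h hz u (z.2 v) (-((christ G z.1 (z.2 v)) ∘L z.2))
  have e3 : hv G u z = (z.2 u, -((christ G z.1 (z.2 u)) ∘L z.2)) := rfl
  have e4 : hv G v z = (z.2 v, -((christ G z.1 (z.2 v)) ∘L z.2)) := rfl
  rw [e3, e4, e1, e2]
  have hs := christ_symm h hz (z.2 u) (z.2 v)
  ext1
  · simp only [Prod.fst_sub, Prod.fst_neg, neg_apply, ContinuousLinearMap.comp_apply, hs]
    simp
  · simp only [Prod.snd_sub, Prod.snd_neg]
    ext1 w
    simp only [neg_apply, sub_apply, add_apply, ContinuousLinearMap.comp_apply, map_neg, hs, riem]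
    abel

theorem Hd_comm {W : Type} [NormedAddCommGroup W] [NormedSpace ℝ W] {G : Coef n} {U : Set (E n)}
    (h : IsMet G U) {F : Fr n → W} (hF : ContDiffOn ℝ ∞ F (U ×ˢ univ)) {z : Fr n} (hz : z.1 ∈ U)
    (u v : E n) : Hd G u (Hd G v F) z - Hd G v (Hd G u F) z =
      -fderiv ℝ F z (0, (riem G z.1 (z.2 u) (z.2 v)) ∘L z.2) := by
  have hzU : (U ×ˢ univ : Set (Fr n)) ∈ 𝓝 z := (hv_isOpen h.isOpen).mem_nhds ⟨hz, mem_univ _⟩
  have hsymm : fderiv ℝ (fderiv ℝ F) z (hv G u z) (hv G v z) =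
      fderiv ℝ (fderiv ℝ F) z (hv G v z) (hv G u z) := by
    have h1 : ContDiffAt ℝ ∞ F z := hF.contDiffAt hzU
    refine (h1.isSymmSndFDerivAt ?_) (hv G u z) (hv G v z)
    rw [minSmoothness_of_isRCLikeNormedField]
    exact WithTop.coe_le_coe.mpr (le_top : (2 : ℕ∞) ≤ ⊤)
  rw [hcomm_second h hF hz, hcomm_second h hF hz, hsymm, ← map_neg, ← hcomm_bracket h hz, map_sub]
  abel

theorem Hd_comm_fun {G : Coef n} {U : Set (E n)} (h : IsMet G U) {f : E n → ℝ}
    (hf : ContDiffOn ℝ ∞ f U) {z : Fr n} (hz : z.1 ∈ U) (u v : E n) :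
    Hd G u (Hd G v (fun z => f z.1)) z = Hd G v (Hd G u (fun z => f z.1)) z := by
  have hF : ContDiffOn ℝ ∞ (fun z : Fr n => f z.1) (U ×ˢ univ) :=
    hf.comp contDiff_fst.contDiffOn (hv_fst_mapsTo U)
  have h1 := Hd_comm h hF hz u v
  have h2 : HasFDerivAt (fun z : Fr n => f z.1)
      ((fderiv ℝ f z.1) ∘L ContinuousLinearMap.fst ℝ (E n) (E n →L[ℝ] E n)) z :=
    ((hf.contDiffAt (h.isOpen.mem_nhds hz)).differentiableAt (by simp)).hasFDerivAt.comp z
      hasFDerivAt_fst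
  rw [h2.fderiv] at h1
  rw [← sub_eq_zero, h1]
  simp

/-- an endomorphism in an orthonormal frame -/
theorem hcomm_conj {G : Coef n} {z : Fr n} (hiso : IsoFr G z) (R : E n →L[ℝ] E n) :
    ∃ A : E n →L[ℝ] E n, z.2 ∘L A = R ∘L z.2 := by
  have hinj : Function.Injective z.2.toLinearMap := by
    rw [injective_iff_map_eq_zero]
    intro u hu
    have := hiso u u
    have hu' : z.2 u = 0 := hu
    rw [hu', map_zero] at this
    exact inner_self_eq_zero.mp this.symm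
  set eqv := LinearEquiv.ofInjectiveEndo z.2.toLinearMap hinj with heqv
  refine ⟨(eqv.symm.toLinearMap.toContinuousLinearMap) ∘L (R ∘L z.2), ?_⟩
  ext1 u
  show z.2 (eqv.symm (R (z.2 u))) = R (z.2 u)
  have : z.2 (eqv.symm (R (z.2 u))) = eqv (eqv.symm (R (z.2 u))) := rfl
  rw [this, LinearEquiv.apply_symm_apply]

theorem hcomm_inner_e (x : E n) (l : Fin n) : ⟪x, e l⟫_ℝ = x l := by
  unfold e
  rw [EuclideanSpace.inner_single_right]
  simp

theorem Hd_comm_lift {G : Coef n} {U : Set (E n)} (h : IsMet G U) {w : E n → X n}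
    (hw : ContDiffOn ℝ ∞ w U) {z : Fr n} (hz : z.1 ∈ U) (hiso : IsoFr G z) (u v : E n) :
    Hd G u (Hd G v (lift w)) z - Hd G v (Hd G u (lift w)) z =
      -∑ k, ∑ l, rm G z.1 (z.2 u) (z.2 v) (z.2 (e k)) (z.2 (e l)) • eps k (iota l (lift w z)) := by
  have hwd : DifferentiableAt ℝ w z.1 :=
    (hw.contDiffAt (h.isOpen.mem_nhds hz)).differentiableAt (by simp)
  rw [Hd_comm h (lift_smooth hw) hz, hv_fderiv_lift hwd, map_zero, map_zero, add_zero]
  obtain ⟨A, hA⟩ := hcomm_conj hiso (riem G z.1 (z.2 u) (z.2 v))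
  rw [← hA, rho_fderiv_right]
  have hlift : lift w z = rho z.2 (w z.1) := rfl
  rw [ContinuousLinearMap.comp_apply, ← hlift]
  congr 1
  unfold act
  simp only [sum_apply, smul_apply, ContinuousLinearMap.comp_apply]
  refine Finset.sum_congr rfl fun k _ => Finset.sum_congr rfl fun l _ => ?_
  congr 1
  rw [← hcomm_inner_e, ← hiso]
  unfold rm
  have : z.2 (A (e k)) = (z.2 ∘L A) (e k) := rfl
  rw [this, hA]
  rfl

end ANCO
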