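import Pool.Agent.Helper39.Anco.Chr

open scoped ContDiff Topology Manifold InnerProductSpace
open Set MeasureTheory

set_option maxSynthPendingDepth 3

noncomputable section
namespace ANCO

variable {n : ℕ}

/-! ## G12 LAP -/

lemma lap_inner_e (u : E n) (k : Fin n) : ⟪u, e k⟫_ℝ = u k := by
  unfold e
  rw [EuclideanSpace.inner_single_right]
  simp

lemma lap_sum_e (u : E n) : u = ∑ k, u k • e k := by
  ext i
  simp [e, Pi.single_apply]

lemma lap_surj {G : Coef n} {z : Fr n} (hiso : IsoFr G z) : Function.Surjective z.2 := by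
  have hinj : Function.Injective z.2.toLinearMap := by
    rw [injective_iff_map_eq_zero]
    intro u hu
    have h1 := hiso u u
    have hu' : z.2 u = 0 := hu
    rw [hu'] at h1
    simp only [map_zero] at h1
    exact inner_self_eq_zero.mp h1.symm
  exact LinearMap.injective_iff_surjective.mp hinj

/-- `∑ g^{ij} e_i ⊗ e_j = ∑ (b e_k) ⊗ (b e_k)` for an orthonormal frame `b`. -/
theorem ginv_frame {G : Coef n} {U : Set (E n)} (h : IsMet G U) {z : Fr n} (hz : z.1 ∈ U)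
    (hiso : IsoFr G z) (i j : Fin n) : ginv G z.1 i j = ∑ k, (z.2 (e k)) i * (z.2 (e k)) j := by
  unfold ginv
  set x : E n := ContinuousLinearMap.inverse (G z.1) (EuclideanSpace.proj j) with hx
  have hGx : ∀ w, G z.1 x w = w j := by
    intro w
    rw [hx, inverse_apply h hz]
    rfl
  obtain ⟨u, hu⟩ := lap_surj hiso x
  have huk : ∀ k, u k = (z.2 (e k)) j := by
    intro k
    rw [← lap_inner_e u k, ← hiso u (e k), hu, hGx]
  have hxe : x = ∑ k, (z.2 (e k)) j • z.2 (e k) := by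
    rw [← hu]
    conv_lhs => rw [lap_sum_e u]
    rw [map_sum]
    refine Finset.sum_congr rfl fun k _ => ?_
    rw [map_smul, huk]
  rw [hxe]
  have : (∑ k, (z.2 (e k)) j • z.2 (e k)) i = ∑ k, ((z.2 (e k)) j • z.2 (e k)) i := by
    simp
  rw [this]
  refine Finset.sum_congr rfl fun k _ => ?_
  simp [mul_comm]

lemma lap_trace {G : Coef n} {U : Set (E n)} (h : IsMet G U) {z : Fr n} (hz : z.1 ∈ U)
    (hiso : IsoFr G z) (T : E n →L[ℝ] E n →L[ℝ] ℝ) :
    ∑ k, T (z.2 (e k)) (z.2 (e k)) = ∑ i, ∑ j, ginv G z.1 i j * T (e i) (e j) := by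
  have h1 : ∀ x : E n, T x x = ∑ i, ∑ j, (x i * x j) * T (e i) (e j) := by
    intro x
    have h2 : T x = ∑ i, x i • T (e i) := by
      conv_lhs => rw [lap_sum_e x]
      rw [map_sum]
      exact Finset.sum_congr rfl fun i _ => map_smul _ _ _
    rw [h2, sum_apply]
    refine Finset.sum_congr rfl fun i _ => ?_
    have h3 : T (e i) x = ∑ j, x j * T (e i) (e j) := by
      conv_lhs => rw [lap_sum_e x]
      rw [map_sum]
      refine Finset.sum_congr rfl fun j _ => ?_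
      rw [map_smul, smul_eq_mul]
    rw [smul_apply, smul_eq_mul, h3, Finset.mul_sum]
    refine Finset.sum_congr rfl fun j _ => ?_
    ring
  rw [Finset.sum_congr rfl fun k _ => h1 _, Finset.sum_comm]
  refine Finset.sum_congr rfl fun i _ => ?_
  rw [Finset.sum_comm]
  refine Finset.sum_congr rfl fun j _ => ?_
  rw [ginv_frame h hz hiso, Finset.sum_mul]

lemma lap_Hd_fun {G : Coef n} {v : E n → ℝ} {z : Fr n} (hv : DifferentiableAt ℝ v z.1) (u : E n) :
    Hd G u (fun z => v z.1) z = fderiv ℝ v z.1 (z.2 u) := by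
  unfold Hd ANCO.hv
  have h1 : HasFDerivAt (fun z : Fr n => v z.1)
      ((fderiv ℝ v z.1).comp (ContinuousLinearMap.fst ℝ (E n) (E n →L[ℝ] E n))) z :=
    hv.hasFDerivAt.comp z hasFDerivAt_fst
  rw [h1.fderiv]
  rfl

lemma lap_Hd_Hd {G : Coef n} {U : Set (E n)} (hU : IsOpen U) {v : E n → ℝ}
    (hv : ContDiffOn ℝ ∞ v U) {z : Fr n} (hz : z.1 ∈ U) (u w : E n) :
    Hd G w (Hd G u (fun z => v z.1)) z = fderiv ℝ (fderiv ℝ v) z.1 (z.2 w) (z.2 u) -
      fderiv ℝ v z.1 (christ G z.1 (z.2 w) (z.2 u)) := by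
  have hev : (Hd G u (fun z => v z.1)) =ᶠ[𝓝 z] fun z => fderiv ℝ v z.1 (z.2 u) := by
    have hopen : IsOpen (Prod.fst ⁻¹' U : Set (Fr n)) := hU.preimage continuous_fst
    filter_upwards [hopen.mem_nhds hz] with z' hz'
    exact lap_Hd_fun ((hv.contDiffAt (hU.mem_nhds hz')).differentiableAt (by simp)) u
  have hvz : ContDiffAt ℝ ∞ v z.1 := hv.contDiffAt (hU.mem_nhds hz)
  have hJd : DifferentiableAt ℝ (fderiv ℝ v) z.1 :=
    (hvz.fderiv_right (m := 1) (by norm_cast)).differentiableAt (by simp)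
  have h2 : HasFDerivAt (fun z : Fr n => fderiv ℝ v z.1)
      ((fderiv ℝ (fderiv ℝ v) z.1).comp (ContinuousLinearMap.fst ℝ (E n) (E n →L[ℝ] E n))) z :=
    hJd.hasFDerivAt.comp z hasFDerivAt_fst
  have h3 : HasFDerivAt (fun z : Fr n => z.2 u)
      ((ContinuousLinearMap.apply ℝ (E n) u).comp
        (ContinuousLinearMap.snd ℝ (E n) (E n →L[ℝ] E n))) z :=
    (ContinuousLinearMap.apply ℝ (E n) u).hasFDerivAt.comp z hasFDerivAt_snd
  have h4 := h2.clm_apply h3
  unfold Hd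
  have h5 : fderiv ℝ (Hd G u (fun z => v z.1)) z = _ := hev.fderiv_eq
  unfold Hd at h5
  rw [h5, h4.fderiv]
  unfold ANCO.hv
  simp
  ring

theorem lap_frame {G : Coef n} {U : Set (E n)} (h : IsMet G U) {v : E n → ℝ}
    (hv : ContDiffOn ℝ ∞ v U) {z : Fr n} (hz : z.1 ∈ U) (hiso : IsoFr G z) :
    ∑ k, Hd G (e k) (Hd G (e k) (fun z => v z.1)) z = lap G v z.1 := by
  have h1 := lap_trace h hz hiso (fderiv ℝ (fderiv ℝ v) z.1 -
    (ContinuousLinearMap.compL ℝ (E n) (E n) ℝ (fderiv ℝ v z.1)) ∘L (christ G z.1))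
  unfold lap
  rw [Finset.sum_congr rfl fun k _ => lap_Hd_Hd h.isOpen hv hz (e k) (e k)]
  exact h1

theorem grad2_frame {G : Coef n} {U : Set (E n)} (h : IsMet G U) {v : E n → ℝ}
    (hv : ContDiffOn ℝ ∞ v U) {z : Fr n} (hz : z.1 ∈ U) (hiso : IsoFr G z) :
    ∑ k, (Hd G (e k) (fun z => v z.1) z) ^ 2 = grad2 G v z.1 := by
  have h1 := lap_trace h hz hiso ((fderiv ℝ v z.1).smulRight (fderiv ℝ v z.1))
  unfold grad2
  have hd : DifferentiableAt ℝ v z.1 :=
    (hv.contDiffAt (h.isOpen.mem_nhds hz)).differentiableAt (by simp)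
  rw [Finset.sum_congr rfl fun k _ => by rw [lap_Hd_fun hd (e k), sq]]
  exact h1

lemma lap_ginv_smooth {G : Coef n} {U : Set (E n)} (h : IsMet G U) (i j : Fin n) :
    ContDiffOn ℝ ∞ (fun y => ginv G y i j) U := by
  unfold ginv
  have h1 : ContDiffOn ℝ ∞ (fun y => ContinuousLinearMap.inverse (G y)
      (EuclideanSpace.proj j : E n →L[ℝ] ℝ)) U :=
    (inverse_smooth h).clm_apply contDiffOn_const
  exact (EuclideanSpace.proj i : E n →L[ℝ] ℝ).contDiff.comp_contDiffOn h1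

theorem lap_smooth {G : Coef n} {U : Set (E n)} (h : IsMet G U) {v : E n → ℝ}
    (hv : ContDiffOn ℝ ∞ v U) : ContDiffOn ℝ ∞ (lap G v) U := by
  have hd1 : ContDiffOn ℝ ∞ (fderiv ℝ v) U := hv.fderiv_of_isOpen h.isOpen (by simp)
  have hd2 : ContDiffOn ℝ ∞ (fderiv ℝ (fderiv ℝ v)) U := hd1.fderiv_of_isOpen h.isOpen (by simp)
  have hc := christ_smooth h
  unfold lap
  refine ContDiffOn.sum fun i _ => ContDiffOn.sum fun j _ => ?_
  refine (lap_ginv_smooth h i j).mul ?_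
  refine ContDiffOn.sub ?_ ?_
  · exact (hd2.clm_apply contDiffOn_const).clm_apply contDiffOn_const
  · exact hd1.clm_apply ((hc.clm_apply contDiffOn_const).clm_apply contDiffOn_const)

theorem grad2_smooth {G : Coef n} {U : Set (E n)} (h : IsMet G U) {v : E n → ℝ}
    (hv : ContDiffOn ℝ ∞ v U) : ContDiffOn ℝ ∞ (grad2 G v) U := by
  have hd1 : ContDiffOn ℝ ∞ (fderiv ℝ v) U := hv.fderiv_of_isOpen h.isOpen (by simp)
  unfold grad2
  refine ContDiffOn.sum fun i _ => ContDiffOn.sum fun j _ => ?_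
  refine (lap_ginv_smooth h i j).mul ?_
  exact (hd1.clm_apply contDiffOn_const).mul (hd1.clm_apply contDiffOn_const)

end ANCO
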