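import Pool.Agent.Helper39.Anco.Hv
import Pool.Agent.Helper39.Anco.Hcomm
import Pool.Agent.Helper39.Anco.Frame
import Pool.Agent.Helper39.Anco.Tang
import Pool.Agent.Helper39.Anco.Rsk
import Pool.Agent.Helper39.Anco.Lap

open scoped ContDiff Topology Manifold InnerProductSpace
open Set MeasureTheory

set_option maxSynthPendingDepth 3

noncomputable section
namespace ANCO

variable {n : ℕ}

/-- expansion of a vector in an orthonormal frame -/
theorem boch_expand {G : Coef n} {U : Set (E n)} (h : IsMet G U) {z : Fr n} (hz : z.1 ∈ U)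
    (hiso : IsoFr G z) (x : E n) : x = ∑ i, G z.1 x (z.2 (e i)) • z.2 (e i) := by
  obtain ⟨c, hc1, hc2⟩ := iso_inv h hz hiso
  have hx : z.2 (c x) = x := by
    have := congrArg (fun f : E n →L[ℝ] E n => f x) hc2
    simpa using this
  have h1 : ∀ i, G z.1 x (z.2 (e i)) = (c x) i := by
    intro i
    have h2 := hiso (c x) (e i)
    rw [hx] at h2
    rw [h2]
    simp [e, EuclideanSpace.inner_single_right]
  have h3 : c x = ∑ i, (c x) i • (e i : E n) := by
    ext j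
    simp [e, Finset.sum_apply, Pi.single_apply]
  calc x = z.2 (c x) := hx.symm
    _ = z.2 (∑ i, (c x) i • (e i : E n)) := by rw [← h3]
    _ = ∑ i, G z.1 x (z.2 (e i)) • z.2 (e i) := by
        rw [map_sum]
        refine Finset.sum_congr rfl fun i _ => ?_
        rw [map_smul, h1 i]

/-- horizontal derivative of a function on the base -/
theorem boch_Hd_fun {G : Coef n} {v : E n → ℝ} {z : Fr n} (hv : DifferentiableAt ℝ v z.1)
    (u : E n) : Hd G u (fun z : Fr n => v z.1) z = fderiv ℝ v z.1 (z.2 u) := by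
  have h1 : HasFDerivAt (fun z : Fr n => v z.1)
      ((fderiv ℝ v z.1) ∘L (ContinuousLinearMap.fst ℝ (E n) (E n →L[ℝ] E n))) z :=
    hv.hasFDerivAt.comp z (ContinuousLinearMap.fst ℝ (E n) (E n →L[ℝ] E n)).hasFDerivAt
  simp [Hd, h1.fderiv, ANCO.hv]

theorem boch_Hd_congr {W : Type} [NormedAddCommGroup W] [NormedSpace ℝ W] {G : Coef n}
    {U : Set (E n)} (hU : IsOpen U) {F₁ F₂ : Fr n → W} {z : Fr n} (hz : z.1 ∈ U)
    (heq : ∀ z' : Fr n, z'.1 ∈ U → F₁ z' = F₂ z') (u : E n) :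
    Hd G u F₁ z = Hd G u F₂ z := by
  have h1 : F₁ =ᶠ[𝓝 z] F₂ := by
    filter_upwards [(hU.preimage continuous_fst).mem_nhds hz] with z' hz'
    exact heq z' hz'
  simp [Hd, h1.fderiv_eq]

theorem boch_Hd_sum {W : Type} [NormedAddCommGroup W] [NormedSpace ℝ W] {G : Coef n}
    {ι : Type} (s : Finset ι) {F : ι → Fr n → W} {z : Fr n}
    (hF : ∀ i ∈ s, DifferentiableAt ℝ (F i) z) (u : E n) :
    Hd G u (fun z => ∑ i ∈ s, F i z) z = ∑ i ∈ s, Hd G u (F i) z := by
  unfold Hd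
  rw [fderiv_fun_sum hF]
  simp

theorem boch_Hd_mul {G : Coef n} {a b : Fr n → ℝ} {z : Fr n}
    (ha : DifferentiableAt ℝ a z) (hb : DifferentiableAt ℝ b z) (u : E n) :
    Hd G u (fun z => a z * b z) z = a z * Hd G u b z + b z * Hd G u a z := by
  unfold Hd
  rw [fderiv_fun_mul ha hb]
  simp

theorem boch_Hd_const_mul {G : Coef n} {b : Fr n → ℝ} {z : Fr n}
    (hb : DifferentiableAt ℝ b z) (c : ℝ) (u : E n) :
    Hd G u (fun z => c * b z) z = c * Hd G u b z := by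
  unfold Hd
  rw [fderiv_const_mul hb]
  simp

/-- Bochner formula for functions at an orthonormal frame. -/
theorem bochner_fun {G : Coef n} {U : Set (E n)} (h : IsMet G U) {v : E n → ℝ}
    (hv : ContDiffOn ℝ ∞ v U) {z : Fr n} (hz : z.1 ∈ U) (hiso : IsoFr G z) :
    lap G (grad2 G v) z.1 =
    2 * ∑ k, ∑ j, (Hd G (e k) (Hd G (e j) (fun z => v z.1)) z) ^ 2 +
    2 * ∑ j, Hd G (e j) (fun z => v z.1) z * fderiv ℝ (lap G v) z.1 (z.2 (e j)) +
    2 * ∑ k, ∑ i, ∑ j, Hd G (e i) (fun z => v z.1) z * Hd G (e j) (fun z => v z.1) z *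
      rm G z.1 (z.2 (e i)) (z.2 (e k)) (z.2 (e k)) (z.2 (e j)) := by
  have hopen : IsOpen (U ×ˢ (univ : Set (E n →L[ℝ] E n))) := h.isOpen.prod isOpen_univ
  have hmem : ∀ z' : Fr n, z'.1 ∈ U → (U ×ˢ (univ : Set (E n →L[ℝ] E n))) ∈ 𝓝 z' :=
    fun z' hz' => hopen.mem_nhds ⟨hz', mem_univ _⟩
  have hdiff : ∀ {F : Fr n → ℝ}, ContDiffOn ℝ ∞ F (U ×ˢ univ) → ∀ z' : Fr n, z'.1 ∈ U →
      DifferentiableAt ℝ F z' := fun {F} hF z' hz' =>
    ((hF.contDiffAt (hmem z' hz')).differentiableAt (by simp))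
  have hbase : ∀ {f : E n → ℝ}, ContDiffOn ℝ ∞ f U →
      ContDiffOn ℝ ∞ (fun z : Fr n => f z.1) (U ×ˢ univ) := fun {f} hf =>
    hf.comp contDiffOn_fst (fun z' hz' => hz'.1)
  have hdiffv : ∀ {f : E n → ℝ}, ContDiffOn ℝ ∞ f U → ∀ y ∈ U, DifferentiableAt ℝ f y :=
    fun {f} hf y hy => (hf.contDiffAt (h.isOpen.mem_nhds hy)).differentiableAt (by simp)
  -- smoothness
  have s0 := hbase hv
  have s1 : ∀ j, ContDiffOn ℝ ∞ (Hd G (e j) (fun z : Fr n => v z.1)) (U ×ˢ univ) :=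
    fun j => Hd_smooth h _ s0
  have s2 : ∀ k j, ContDiffOn ℝ ∞ (Hd G (e k) (Hd G (e j) (fun z : Fr n => v z.1)))
      (U ×ˢ univ) := fun k j => Hd_smooth h _ (s1 j)
  have s3 : ∀ l k j, ContDiffOn ℝ ∞ (Hd G (e l) (Hd G (e k) (Hd G (e j)
      (fun z : Fr n => v z.1)))) (U ×ˢ univ) := fun l k j => Hd_smooth h _ (s2 k j)
  have hg2 := grad2_smooth h hv
  have hlap := lap_smooth h hv
  have sg := hbase hg2
  have sl := hbase hlap
  -- step 1
  have e1 : ∀ z' : Fr n, z'.1 ∈ U → IsoFr G z' → ∀ k,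
      Hd G (e k) (fun z : Fr n => grad2 G v z.1) z' =
      ∑ j, 2 * (Hd G (e j) (fun z : Fr n => v z.1) z' *
        Hd G (e k) (Hd G (e j) (fun z : Fr n => v z.1)) z') := by
    intro z' hz' hiso' k
    rw [Hd_eq_of_iso (F₂ := fun z : Fr n => ∑ j, (Hd G (e j) (fun z : Fr n => v z.1) z *
      Hd G (e j) (fun z : Fr n => v z.1) z)) h hz' hiso' (hdiff sg z' hz') ?_ ?_ (e k)]
    · rw [boch_Hd_sum]
      · refine Finset.sum_congr rfl fun j _ => ?_
        rw [boch_Hd_mul (hdiff (s1 j) z' hz') (hdiff (s1 j) z' hz')]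
        ring
      · intro j _
        exact (hdiff (s1 j) z' hz').mul (hdiff (s1 j) z' hz')
    · apply DifferentiableAt.fun_sum
      intro j _
      exact (hdiff (s1 j) z' hz').mul (hdiff (s1 j) z' hz')
    · intro z'' hz'' hiso''
      rw [← grad2_frame h hv hz'' hiso'']
      exact Finset.sum_congr rfl fun j _ => by ring
  -- step 2
  have e2 : ∀ k, Hd G (e k) (Hd G (e k) (fun z : Fr n => grad2 G v z.1)) z =
      ∑ j, (2 * (Hd G (e k) (Hd G (e j) (fun z : Fr n => v z.1)) z) ^ 2 +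
        2 * (Hd G (e j) (fun z : Fr n => v z.1) z *
          Hd G (e k) (Hd G (e k) (Hd G (e j) (fun z : Fr n => v z.1))) z)) := by
    intro k
    have hdk : ∀ j ∈ Finset.univ, DifferentiableAt ℝ (fun z : Fr n =>
        2 * (Hd G (e j) (fun z : Fr n => v z.1) z *
        Hd G (e k) (Hd G (e j) (fun z : Fr n => v z.1)) z)) z := by
      intro j _
      exact ((hdiff (s1 j) z hz).mul (hdiff (s2 k j) z hz)).const_mul 2
    rw [Hd_eq_of_iso (F₂ := fun z : Fr n => ∑ j, 2 * (Hd G (e j) (fun z : Fr n => v z.1) z *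
        Hd G (e k) (Hd G (e j) (fun z : Fr n => v z.1)) z)) h hz hiso
        (hdiff (Hd_smooth h _ sg) z hz) (DifferentiableAt.fun_sum hdk)
        (fun z' hz' hiso' => e1 z' hz' hiso' k) (e k)]
    rw [boch_Hd_sum _ hdk]
    refine Finset.sum_congr rfl fun j _ => ?_
    rw [boch_Hd_const_mul ((hdiff (s1 j) z hz).fun_mul (hdiff (s2 k j) z hz)),
      boch_Hd_mul (hdiff (s1 j) z hz) (hdiff (s2 k j) z hz)]
    ring
  -- step 3: commutation
  have e3 : ∀ k j, Hd G (e k) (Hd G (e k) (Hd G (e j) (fun z : Fr n => v z.1))) z =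
      Hd G (e j) (Hd G (e k) (Hd G (e k) (fun z : Fr n => v z.1))) z +
      ∑ i, rm G z.1 (z.2 (e j)) (z.2 (e k)) (z.2 (e k)) (z.2 (e i)) *
        Hd G (e i) (fun z : Fr n => v z.1) z := by
    intro k j
    have h1 : Hd G (e k) (Hd G (e k) (Hd G (e j) (fun z : Fr n => v z.1))) z =
        Hd G (e k) (Hd G (e j) (Hd G (e k) (fun z : Fr n => v z.1))) z :=
      boch_Hd_congr h.isOpen hz (fun z' hz' => Hd_comm_fun h hv hz' (e k) (e j)) (e k)
    have h2 := Hd_comm h (s1 k) hz (e k) (e j)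
    have h3 : fderiv ℝ (Hd G (e k) (fun z : Fr n => v z.1)) z
        (0, (riem G z.1 (z.2 (e k)) (z.2 (e j))) ∘L z.2) =
        fderiv ℝ v z.1 (riem G z.1 (z.2 (e k)) (z.2 (e j)) (z.2 (e k))) := by
      have h4 : (Hd G (e k) (fun z : Fr n => v z.1)) =ᶠ[𝓝 z]
          (fun z : Fr n => fderiv ℝ v z.1 (z.2 (e k))) := by
        filter_upwards [hmem z hz] with z' hz'
        exact boch_Hd_fun (hdiffv hv _ hz'.1) (e k)
      have hv2 : DifferentiableAt ℝ (fderiv ℝ v) z.1 :=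
        ((hv.contDiffAt (h.isOpen.mem_nhds hz)).fderiv_right (m := ∞)
          (by simp)).differentiableAt (by simp)
      have h5 : HasFDerivAt (fun z : Fr n => fderiv ℝ v z.1)
          ((fderiv ℝ (fderiv ℝ v) z.1) ∘L (ContinuousLinearMap.fst ℝ (E n) (E n →L[ℝ] E n))) z :=
        hv2.hasFDerivAt.comp z (ContinuousLinearMap.fst ℝ (E n) (E n →L[ℝ] E n)).hasFDerivAt
      have h6 : HasFDerivAt (fun z : Fr n => z.2 (e k))
          ((ContinuousLinearMap.apply ℝ (E n) (e k : E n)) ∘L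
            (ContinuousLinearMap.snd ℝ (E n) (E n →L[ℝ] E n))) z :=
        ((ContinuousLinearMap.apply ℝ (E n) (e k : E n)) ∘L
            (ContinuousLinearMap.snd ℝ (E n) (E n →L[ℝ] E n))).hasFDerivAt
      have h7 := h5.clm_apply h6
      rw [h4.fderiv_eq, h7.fderiv]
      simp
    have h8 : fderiv ℝ v z.1 (riem G z.1 (z.2 (e k)) (z.2 (e j)) (z.2 (e k))) =
        -∑ i, rm G z.1 (z.2 (e j)) (z.2 (e k)) (z.2 (e k)) (z.2 (e i)) *
        Hd G (e i) (fun z : Fr n => v z.1) z := by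
      rw [boch_expand h hz hiso (riem G z.1 (z.2 (e k)) (z.2 (e j)) (z.2 (e k))), map_sum,
        ← Finset.sum_neg_distrib]
      refine Finset.sum_congr rfl fun i _ => ?_
      rw [map_smul, boch_Hd_fun (hdiffv hv _ hz) (e i), smul_eq_mul]
      have := rm_skew12 G z.1 (z.2 (e k)) (z.2 (e j)) (z.2 (e k)) (z.2 (e i))
      unfold rm at this ⊢
      rw [this]
      ring
    rw [h1]
    rw [h3, h8, neg_neg] at h2
    linarith
  -- step 4: the derivative of the Laplacian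
  have e4 : ∀ j, ∑ k, Hd G (e j) (Hd G (e k) (Hd G (e k) (fun z : Fr n => v z.1))) z =
      fderiv ℝ (lap G v) z.1 (z.2 (e j)) := by
    intro j
    rw [← boch_Hd_sum Finset.univ (fun k _ => hdiff (s2 k k) z hz),
      ← boch_Hd_fun (G := G) (hdiffv hlap _ hz) (e j)]
    refine Hd_eq_of_iso h hz hiso (DifferentiableAt.fun_sum fun k _ => hdiff (s2 k k) z hz)
      (hdiff sl z hz) (fun z' hz' hiso' => lap_frame h hv hz' hiso') (e j)
  -- conclusion
  rw [← lap_frame h hg2 hz hiso]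
  rw [Finset.sum_congr rfl fun k _ => e2 k]
  simp only [e3, ← e4]
  simp only [Finset.mul_sum, Finset.sum_add_distrib, mul_add]
  rw [Finset.sum_comm (f := fun j k => 2 * (Hd G (e j) (fun z : Fr n => v z.1) z *
    Hd G (e j) (Hd G (e k) (Hd G (e k) (fun z : Fr n => v z.1))) z))]
  rw [add_assoc]
  congr 1
  congr 1
  refine Finset.sum_congr rfl fun k _ => ?_
  refine Finset.sum_congr rfl fun i _ => ?_
  refine Finset.sum_congr rfl fun j _ => ?_
  ring

end ANCO
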