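import Pool.Agent.Helper39.Anco.LTools

open scoped ContDiff Topology Manifold InnerProductSpace
open Set MeasureTheory Filter

set_option maxSynthPendingDepth 3

noncomputable section
namespace ANCO

variable {n : ℕ}

/-! gluing of weak derivatives (auxiliary file for WH1) -/

theorem wh1_unique {ι : Type} [Fintype ι] {V : Set (E n)} (hV : IsOpen V) {g₁ g₂ : E n → Wd ι}
    (h1 : MemLp g₁ 2) (h2 : MemLp g₂ 2)
    (h : ∀ ψ : E n → Wd ι, Test V ψ → ∫ y, ⟪g₁ y, ψ y⟫_ℝ = ∫ y, ⟪g₂ y, ψ y⟫_ℝ) :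
    ∀ᵐ y, y ∈ V → g₁ y = g₂ y := by
  have hm : MemLp (fun y => g₁ y - g₂ y) 2 := h1.sub h2
  have hl : LocallyIntegrable (fun y => g₁ y - g₂ y) := hm.locallyIntegrable (by norm_num)
  have key := hV.ae_eq_zero_of_integral_contDiff_smul_eq_zero (hl.locallyIntegrableOn V) (by
    intro φ hφ hφc hφs
    apply ext_inner_left ℝ
    intro x
    have hint : Integrable (fun y => φ y • (g₁ y - g₂ y)) :=
      hl.integrable_smul_left_of_hasCompactSupport hφ.continuous hφc
    rw [inner_zero_right, ← integral_inner hint]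
    have hψ : Test V (fun y => φ y • x) := by
      refine ⟨hφ.smul contDiff_const, hφc.smul_right, ?_⟩
      refine Subset.trans ?_ hφs
      apply closure_mono
      intro y hy hz
      exact hy (by simp [hz])
    have i1 := lt_integrable_inner (U := V) (fun K _ _ => h1.restrict K) hψ
    have i2 := lt_integrable_inner (U := V) (fun K _ _ => h2.restrict K) hψ
    have e1 : ∀ y, ⟪x, φ y • (g₁ y - g₂ y)⟫_ℝ = ⟪g₁ y, φ y • x⟫_ℝ - ⟪g₂ y, φ y • x⟫_ℝ := by
      intro y
      rw [inner_smul_right, inner_smul_right, inner_smul_right, inner_sub_right,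
        real_inner_comm (g₁ y) x, real_inner_comm (g₂ y) x]
      ring
    simp only [e1]
    rw [integral_sub i1 i2, h _ hψ, sub_self])
  filter_upwards [key] with y hy hyV
  exact sub_eq_zero.1 (hy hyV)

/-- the functional `∫⟪k,∂_jψ⟫ + ∫⟪k',ψ⟫` vanishes as soon as it does locally -/
theorem wh1_patch {ι : Type} [Fintype ι] {U : Set (E n)} {k k' : E n → Wd ι}
    (hk : LocL2 U k) (hk' : LocL2 U k') (j : Fin n) {σ : Type*} (B H : σ → Set (E n))
    (hH : ∀ i, IsOpen (H i)) (hHU : ∀ i, B i ⊆ U) (φ : σ → E n → ℝ) (hφ : ∀ i, ContDiff ℝ ∞ (φ i))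
    (hφc : ∀ i, HasCompactSupport (φ i)) (hφs : ∀ i, tsupport (φ i) ⊆ B i)
    (hφ1 : ∀ i, ∀ y ∈ H i, φ i y = 1)
    (hB : ∀ i, WDer (B i) j k k') (t : Finset σ) : ∀ ψ : E n → Wd ι, Test U ψ →
      tsupport ψ ⊆ ⋃ i ∈ t, H i →
      ∫ y, ⟪k y, fderiv ℝ ψ y (e j)⟫_ℝ = -∫ y, ⟪k' y, ψ y⟫_ℝ := by
  classical
  induction t using Finset.induction_on with
  | empty =>
    intro ψ hψ hs
    have h0 : tsupport ψ = ∅ := by simpa using hs
    have h1 : ψ = 0 := by
      rw [tsupport_eq_empty_iff] at h0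
      exact h0
    simp [h1]
  | insert i t hi ih =>
    intro ψ hψ hs
    have hL1 : ContDiff ℝ ∞ (fun y => φ i y • ContinuousLinearMap.id ℝ (Wd ι)) :=
      (hφ i).smul contDiff_const
    have hT1 : Test U (fun y => φ i y • ψ y) := by
      refine ⟨(hφ i).smul hψ.1, (hφc i).smul_right, ?_⟩
      refine Subset.trans ?_ ((hφs i).trans (hHU i))
      apply closure_mono
      intro y hy hz
      exact hy (by simp [hz])
    have hT1B : Test (B i) (fun y => φ i y • ψ y) := by
      refine ⟨hT1.1, hT1.2.1, ?_⟩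
      refine Subset.trans ?_ (hφs i)
      apply closure_mono
      intro y hy hz
      exact hy (by simp [hz])
    have hts : tsupport (fun y => (1 - φ i y) • ψ y) ⊆ tsupport ψ := by
      apply closure_mono
      intro y hy hz
      exact hy (by simp [hz])
    have hT2 : Test U (fun y => (1 - φ i y) • ψ y) :=
      ⟨(contDiff_const.sub (hφ i)).smul hψ.1, hψ.2.1.of_isClosed_subset (isClosed_tsupport _) hts,
        hts.trans hψ.2.2⟩
    have hs2 : tsupport (fun y => (1 - φ i y) • ψ y) ⊆ ⋃ l ∈ t, H l := by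
      intro y hy
      have h1 : y ∈ ⋃ l ∈ insert i t, H l := hs (hts hy)
      have h2 : y ∉ H i := by
        intro hyH
        have h3 : (fun y => (1 - φ i y) • ψ y) =ᶠ[𝓝 y] fun _ => 0 := by
          filter_upwards [(hH i).mem_nhds hyH] with z hz
          rw [hφ1 i z hz, sub_self, zero_smul]
        exact (notMem_tsupport_iff_eventuallyEq.2 h3) hy
      simp only [Finset.mem_insert, iUnion_iUnion_eq_or_left, mem_union] at h1
      rcases h1 with h1 | h1
      · exact absurd h1 h2
      · exact h1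
    have e1 := ih _ hT2 hs2
    have e2 := hB i _ hT1B
    have hd : ∀ y, fderiv ℝ ψ y (e j) = fderiv ℝ (fun y => φ i y • ψ y) y (e j) +
        fderiv ℝ (fun y => (1 - φ i y) • ψ y) y (e j) := by
      intro y
      have h3 : ψ = fun y => φ i y • ψ y + (1 - φ i y) • ψ y := by
        funext y
        rw [← add_smul]
        simp
      have h4 := fderiv_fun_add (x := y) (𝕜 := ℝ)
        (hT1.1.contDiffAt.differentiableAt (by simp))
        (hT2.1.contDiffAt.differentiableAt (by simp))
      conv_lhs => rw [h3]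
      rw [h4]
      rfl
    have h5 : ∀ y, ⟪k y, fderiv ℝ ψ y (e j)⟫_ℝ =
        ⟪k y, fderiv ℝ (fun y => φ i y • ψ y) y (e j)⟫_ℝ +
        ⟪k y, fderiv ℝ (fun y => (1 - φ i y) • ψ y) y (e j)⟫_ℝ := by
      intro y
      rw [hd y, inner_add_right]
    have h6 : ∀ y, ⟪k' y, ψ y⟫_ℝ = ⟪k' y, φ i y • ψ y⟫_ℝ + ⟪k' y, (1 - φ i y) • ψ y⟫_ℝ := by
      intro y
      rw [← inner_add_right, ← add_smul]
      simp
    simp only [h5, h6]
    rw [integral_add (lt_integrable_inner hk (lt_test_fderiv hT1 (e j)))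
        (lt_integrable_inner hk (lt_test_fderiv hT2 (e j))),
      integral_add (lt_integrable_inner hk' hT1) (lt_integrable_inner hk' hT2), e1, e2]
    ring

theorem wh1_glue {ι : Type} [Fintype ι] {U : Set (E n)} (hU : IsOpen U) {k : E n → Wd ι}
    (hk : LocL2 U k) (j : Fin n)
    (hloc : ∀ x ∈ U, ∃ r > 0, Metric.ball x r ⊆ U ∧ ∃ v : E n → Wd ι, MemLp v 2 ∧
      WDer (Metric.ball x r) j k v) : ∃ k' : E n → Wd ι, LocL2 U k' ∧ WDer U j k k' := by
  classical
  rcases U.eq_empty_or_nonempty with hUe | hUne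
  · refine ⟨fun _ => 0, lt_locL2_zero, ?_⟩
    intro ψ hψ
    have h0 : tsupport ψ = ∅ := by
      have := hψ.2.2
      rw [hUe] at this
      exact subset_eq_empty this rfl
    have h1 : ψ = 0 := by
      rw [tsupport_eq_empty_iff] at h0
      exact h0
    simp [h1]
  choose! r hr hrU v hv hvd using hloc
  obtain ⟨T, hTc, hTU⟩ := TopologicalSpace.isOpen_iUnion_countable
    (fun x : U => Metric.ball (x : E n) (r x / 2)) (fun x => Metric.isOpen_ball)
  have hUeq : ⋃ x : U, Metric.ball (x : E n) (r x / 2) = U := by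
    apply Subset.antisymm
    · refine iUnion_subset fun x => ?_
      exact (Metric.ball_subset_ball (by linarith [hr x x.2])).trans (hrU x x.2)
    · intro y hy
      exact mem_iUnion.2 ⟨⟨y, hy⟩, Metric.mem_ball_self (by linarith [hr y hy])⟩
  rw [hUeq] at hTU
  have hTne : T.Nonempty := by
    by_contra hcon
    rw [not_nonempty_iff_eq_empty] at hcon
    rw [hcon] at hTU
    simp only [mem_empty_iff_false, iUnion_of_empty, iUnion_empty] at hTU
    exact hUne.ne_empty hTU.symm
  obtain ⟨x, hx⟩ := hTc.exists_eq_range hTne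
  -- the sequence of balls
  set B : ℕ → Set (E n) := fun i => Metric.ball (x i : E n) (r (x i)) with hB
  set H : ℕ → Set (E n) := fun i => Metric.ball (x i : E n) (r (x i) / 2) with hH
  have hBU : ∀ i, B i ⊆ U := fun i => hrU _ (x i).2
  have hHB : ∀ i, H i ⊆ B i := fun i =>
    Metric.ball_subset_ball (by linarith [hr (x i) (x i).2])
  have hHU : ⋃ i, H i = U := by
    rw [← hTU, hx]
    simp [hH]
  have hBo : ∀ i, IsOpen (B i) := fun i => Metric.isOpen_ball
  have hHo : ∀ i, IsOpen (H i) := fun i => Metric.isOpen_ball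
  have hBUeq : ⋃ i, B i = U := by
    apply Subset.antisymm (iUnion_subset hBU)
    rw [← hHU]
    exact iUnion_mono hHB
  set w : ℕ → E n → Wd ι := fun i => v (x i) with hw
  have hwm : ∀ i, MemLp (w i) 2 := fun i => hv _ (x i).2
  have hwd : ∀ i, WDer (B i) j k (w i) := fun i => hvd _ (x i).2
  have hcomp : ∀ i l, ∀ᵐ y, y ∈ B i ∩ B l → w i y = w l y := by
    intro i l
    apply wh1_unique ((hBo i).inter (hBo l)) (hwm i) (hwm l)
    intro ψ hψ
    have h1 := hwd i ψ (lt_test_mono inter_subset_left hψ)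
    have h2 := hwd l ψ (lt_test_mono inter_subset_right hψ)
    rw [h1] at h2
    exact neg_injective h2
  have hcomp' : ∀ᵐ y, ∀ i l, y ∈ B i ∩ B l → w i y = w l y := by
    rw [ae_all_iff]
    intro i
    rw [ae_all_iff]
    intro l
    exact hcomp i l
  obtain ⟨k', hk'⟩ : ∃ k' : E n → Wd ι, k' = fun y =>
      if h : ∃ i, y ∈ B i then w (Nat.find h) y else 0 := ⟨_, rfl⟩
  have hk'w : ∀ i, ∀ᵐ y ∂(volume.restrict (B i)), k' y = w i y := by
    intro i
    rw [ae_restrict_iff' (hBo i).measurableSet]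
    filter_upwards [hcomp'] with y hy hyB
    have hex : ∃ i, y ∈ B i := ⟨i, hyB⟩
    rw [hk']
    simp only
    rw [dif_pos hex]
    exact hy _ _ ⟨Nat.find_spec hex, hyB⟩
  have hk'm : AEStronglyMeasurable k' (volume.restrict U) := by
    rw [← hBUeq, aestronglyMeasurable_iUnion_iff]
    intro i
    exact ((hwm i).1.restrict).congr (by
      filter_upwards [hk'w i] with y hy
      exact hy.symm)
  have hk'L : LocL2 U k' := by
    intro K hKU hK
    obtain ⟨t, ht⟩ := hK.elim_finite_subcover B hBo (by rw [hBUeq]; exact hKU)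
    have hsum : MemLp (fun y => ∑ i ∈ t, ‖w i y‖) 2 (volume.restrict K) :=
      memLp_finset_sum t fun i _ => ((hwm i).norm.restrict K)
    refine hsum.mono (hk'm.mono_set hKU) ?_
    have hall : ∀ᵐ y ∂(volume.restrict K), ∀ i, y ∈ B i → k' y = w i y := by
      rw [ae_all_iff]
      intro i
      have := hk'w i
      rw [ae_restrict_iff' (hBo i).measurableSet] at this
      exact ae_restrict_of_ae this
    filter_upwards [hall, ae_restrict_mem hK.measurableSet] with y hy hyK
    obtain ⟨i, hi⟩ := mem_iUnion.1 (ht hyK)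
    obtain ⟨hit, hiB⟩ := mem_iUnion.1 hi
    rw [hy i hiB]
    have h1 : ‖w i y‖ ≤ ∑ i ∈ t, ‖w i y‖ :=
      Finset.single_le_sum (f := fun i => ‖w i y‖) (fun i _ => norm_nonneg _) hit
    exact h1.trans (le_abs_self _)
  refine ⟨k', hk'L, ?_⟩
  have hBd : ∀ i, WDer (B i) j k k' := by
    intro i ψ hψ
    rw [hwd i ψ hψ]
    congr 1
    apply integral_congr_ae
    have h1 := hk'w i
    rw [ae_restrict_iff' (hBo i).measurableSet] at h1
    filter_upwards [h1] with y hy
    by_cases hyB : y ∈ B i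
    · rw [hy hyB]
    · have : ψ y = 0 := by
        by_contra hne
        exact hyB (hψ.2.2 (subset_tsupport _ hne))
      rw [this, inner_zero_right, inner_zero_right]
  let φ : ∀ i, ContDiffBump (x i : E n) := fun i =>
    ⟨r (x i) / 2, 3 * r (x i) / 4, by have := hr (x i) (x i).2; linarith,
      by have := hr (x i) (x i).2; linarith⟩
  intro ψ hψ
  obtain ⟨t, ht⟩ := hψ.2.1.isCompact.elim_finite_subcover H hHo (by rw [hHU]; exact hψ.2.2)
  refine wh1_patch hk hk'L j B H hHo hBU (fun i => φ i) (fun i => (φ i).contDiff)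
    (fun i => (φ i).hasCompactSupport) (fun i => ?_) (fun i y hy => ?_) hBd t ψ hψ ht
  · rw [(φ i).tsupport_eq]
    apply Metric.closedBall_subset_ball
    show 3 * r (x i) / 4 < r (x i)
    have := hr (x i) (x i).2
    linarith
  · exact (φ i).one_of_mem_closedBall (Metric.ball_subset_closedBall hy)

end ANCO
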