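import Pool.Agent.Helper39.Anco.La
import Pool.Agent.Helper39.Anco.Lr0Glue

open scoped ContDiff Topology Manifold InnerProductSpace
open Set MeasureTheory Filter

set_option maxSynthPendingDepth 3

noncomputable section
namespace ANCO

variable {n : ℕ}

/-! ## L3 LR0 : file Anco/Lr0.lean -/

theorem wh1_adj_contDiff {ι : Type} [Fintype ι] :
    ContDiff ℝ ∞ (fun T : Wd ι →L[ℝ] Wd ι => ContinuousLinearMap.adjoint T) := by
  have h : IsBoundedLinearMap ℝ (fun T : Wd ι →L[ℝ] Wd ι => ContinuousLinearMap.adjoint T) := by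
    refine ⟨⟨fun x y => map_add _ x y, fun c x => ?_⟩, 1, one_pos, fun x => ?_⟩
    · simp
    · rw [one_mul]
      exact (LinearIsometryEquiv.norm_map ContinuousLinearMap.adjoint x).le
  exact h.contDiff

theorem wh1_cutL2 {ι : Type} [Fintype ι] {U : Set (E n)} {g : E n → Wd ι} (hg : LocL2 U g)
    {χ : E n → ℝ} (hχ : Continuous χ) (hc : HasCompactSupport χ) (hs : tsupport χ ⊆ U) :
    MemLp (fun y => χ y • g y) 2 := by
  have hK : IsCompact (tsupport χ) := hc.isCompact
  have h0 : (fun y => χ y • g y) = (tsupport χ).indicator (fun y => χ y • g y) := by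
    funext y
    by_cases hy : y ∈ tsupport χ
    · rw [indicator_of_mem hy]
    · rw [indicator_of_notMem hy, image_eq_zero_of_notMem_tsupport hy, zero_smul]
  rw [h0, memLp_indicator_iff_restrict hK.measurableSet]
  obtain ⟨C, hC⟩ := hK.exists_bound_of_continuousOn hχ.continuousOn
  have h1 := hg _ hs hK
  refine h1.of_le_mul (hχ.aestronglyMeasurable.smul h1.1) (c := C) ?_
  filter_upwards [ae_restrict_mem hK.measurableSet] with y hy
  rw [norm_smul]
  exact mul_le_mul_of_nonneg_right (hC y hy) (norm_nonneg _)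

theorem wh1_local {ι : Type} [Fintype ι] {U : Set (E n)} (hU : IsOpen U)
    {A : Fin n → E n → (Wd ι →L[ℝ] Wd ι)} {B : E n → (Wd ι →L[ℝ] Wd ι)}
    (hA : ∀ j, ContDiffOn ℝ ∞ (A j) U) (hB : ContDiffOn ℝ ∞ B U) (hs : SymbCond A U)
    {k f : E n → Wd ι} (hk : LocL2 U k) (hf : LocL2 U f) (hw : WeakSol U A B k f)
    {y₀ : E n} (hy₀ : y₀ ∈ U) : ∃ r > 0, Metric.ball y₀ r ⊆ U ∧ ∀ j, ∃ v : E n → Wd ι, MemLp v 2 ∧
      WDer (Metric.ball y₀ r) j k v := by
  obtain ⟨S, hS, hsym⟩ := hs y₀ hy₀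
  set A' : Fin n → E n → (Wd ι →L[ℝ] Wd ι) := fun j y => ContinuousLinearMap.adjoint (A j y)
    with hA'
  have hA's : ∀ j, ContDiffOn ℝ ∞ (A' j) U := fun j =>
    wh1_adj_contDiff.comp_contDiffOn (hA j)
  have hB's : ContDiffOn ℝ ∞ (fun y => ContinuousLinearMap.adjoint (B y)) U :=
    wh1_adj_contDiff.comp_contDiffOn hB
  have hsym' : ∀ (ξ : E n) (x : Wd ι),
      (∑ j, ξ j • A' j y₀) ((∑ j, ξ j • A' j y₀) x) = -(‖S ξ‖ ^ 2) • x := by
    intro ξ x
    have h1 : (∑ j, ξ j • A' j y₀) = ContinuousLinearMap.adjoint (∑ j, ξ j • A j y₀) := by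
      rw [map_sum]
      apply Finset.sum_congr rfl
      intro j _
      rw [hA']
      simp
    rw [h1]
    apply ext_inner_right ℝ
    intro z
    rw [ContinuousLinearMap.adjoint_inner_left, ContinuousLinearMap.adjoint_inner_left, hsym,
      inner_smul_right, inner_smul_left]
    simp
  obtain ⟨ε, hε, hcore⟩ := core_real (fun j => A' j y₀) S hS hsym'
  obtain ⟨r, hr, hrU, η, hη, hηc, hηU, hη1, hηε⟩ := la_cut hU hA's hy₀ hε
  have hbs : ∀ j, ContDiff ℝ ∞ (fun y => η y • (A' j y - A' j y₀)) ∧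
      HasCompactSupport (fun y => η y • (A' j y - A' j y₀)) := fun j =>
    la_smooth hU hη hηc hηU ((hA's j).sub contDiffOn_const)
  obtain ⟨C, hC⟩ := hcore (fun j y => η y • (A' j y - A' j y₀)) (fun j => (hbs j).1)
    (fun j => (hbs j).2) (fun j y => hηε j y)
  let χ : ContDiffBump y₀ := ⟨r / 2, 3 * r / 4, by linarith, by linarith⟩
  have hχout : χ.rOut = 3 * r / 4 := rfl
  have hχC : ContDiff ℝ ∞ χ := χ.contDiff
  have hχs : tsupport χ ⊆ Metric.closedBall y₀ r := by
    rw [χ.tsupport_eq, hχout]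
    exact Metric.closedBall_subset_closedBall (by linarith)
  have hχU : tsupport χ ⊆ U := hχs.trans hrU
  have hχd : ∀ j, Continuous (fun y => fderiv ℝ χ y (e j)) := fun j =>
    hχC.continuous_fderiv_apply (by simp) |>.comp
      (continuous_id.prodMk continuous_const)
  have hχdc : ∀ j, HasCompactSupport (fun y => fderiv ℝ χ y (e j)) := fun j =>
    χ.hasCompactSupport.fderiv_apply (𝕜 := ℝ) (e j)
  have hχds : ∀ j, tsupport (fun y => fderiv ℝ χ y (e j)) ⊆ U := fun j =>
    (tsupport_fderiv_apply_subset ℝ (e j)).trans hχU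
  -- the data
  set w : E n → Wd ι := fun y => χ y • k y with hwdef
  set F : E n → Wd ι := fun y => (∑ j, fderiv ℝ χ y (e j) • (A' j y) (k y)) +
    χ y • (ContinuousLinearMap.adjoint (B y)) (k y) - χ y • f y with hFdef
  have hwm : MemLp w 2 := wh1_cutL2 hk χ.continuous χ.hasCompactSupport hχU
  have hFm : MemLp F 2 := by
    refine MemLp.sub (MemLp.add ?_ ?_) ?_
    · exact memLp_finsetSum _ fun j _ =>
        wh1_cutL2 (lt_locL2_mul (hA's j).continuousOn hk) (hχd j) (hχdc j) (hχds j)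
    · exact wh1_cutL2 (lt_locL2_mul hB's.continuousOn hk) χ.continuous χ.hasCompactSupport hχU
    · exact wh1_cutL2 hf χ.continuous χ.hasCompactSupport hχU
  have hweak : ∀ ψ : E n → Wd ι, Test univ ψ →
      ∫ y, ∑ j, ⟪(A' j y₀ + η y • (A' j y - A' j y₀)) (w y), fderiv ℝ ψ y (e j)⟫_ℝ =
        -∫ y, ⟪F y, ψ y⟫_ℝ := by
    intro ψ hψ
    set T : E n → Wd ι := fun y => χ y • ψ y with hTdef
    have hT : Test U T := by
      refine ⟨χ.contDiff.smul hψ.1, χ.hasCompactSupport.smul_right, ?_⟩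
      refine Subset.trans ?_ hχU
      apply closure_mono
      intro y hy hz
      exact hy (by simp [hTdef, hz])
    have hTd : ∀ y j, fderiv ℝ T y (e j) = χ y • fderiv ℝ ψ y (e j) +
        (fderiv ℝ χ y (e j)) • ψ y := by
      intro y j
      have h1 : HasFDerivAt χ (fderiv ℝ χ y) y :=
        (hχC.contDiffAt.differentiableAt (by simp)).hasFDerivAt
      have h2 : HasFDerivAt ψ (fderiv ℝ ψ y) y :=
        (hψ.1.contDiffAt.differentiableAt (by simp)).hasFDerivAt
      have h3 := (h1.smul h2).fderiv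
      have h4 : (fun y => χ y • ψ y) = T := rfl
      have h5 : fderiv ℝ T y = χ y • fderiv ℝ ψ y + (fderiv ℝ χ y).smulRight (ψ y) := h3
      rw [h5]
      simp
    have hDT : Test U (fun y => ∑ j, A j y (fderiv ℝ T y (e j)) + B y (T y)) :=
      lt_test_add (lt_test_sum _ fun j _ => lt_test_mul hU (hA j) (lt_test_fderiv hT (e j)))
        (lt_test_mul hU hB hT)
    have hmain := hw T hT
    have hpt : ∀ y, ∑ j, ⟪(A' j y₀ + η y • (A' j y - A' j y₀)) (w y), fderiv ℝ ψ y (e j)⟫_ℝ =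
        (⟪k y, ∑ j, A j y (fderiv ℝ T y (e j)) + B y (T y)⟫_ℝ - ⟪f y, T y⟫_ℝ) -
          ⟪F y, ψ y⟫_ℝ := by
      intro y
      have h1 : ∀ j, (A' j y₀ + η y • (A' j y - A' j y₀)) (w y) = χ y • (A' j y) (k y) := by
        intro j
        by_cases hy : χ y = 0
        · rw [hwdef]
          simp [hy]
        · have hy1 : y ∈ tsupport χ := subset_tsupport _ hy
          rw [hη1 y (hχs hy1), hwdef]
          simp
      simp only [h1, hTd]
      rw [hFdef, hTdef]
      simp only [inner_sub_left, inner_add_left, inner_add_right, inner_smul_left,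
        inner_smul_right, sum_inner, inner_sum, map_add, map_smul, hA',
        ContinuousLinearMap.adjoint_inner_left, Finset.sum_add_distrib, conj_trivial]
      ring
    have i1 := lt_integrable_inner hk hDT
    have i2 := lt_integrable_inner hf hT
    have i3 := lt_integrable_inner (U := univ) (fun K _ _ => hFm.restrict K) hψ
    simp only [hpt]
    have i12 : Integrable (fun y => ⟪k y, ∑ j, A j y (fderiv ℝ T y (e j)) + B y (T y)⟫_ℝ -
      ⟪f y, T y⟫_ℝ) := i1.sub i2
    rw [integral_sub i12 i3, integral_sub i1 i2, hmain]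
    ring
  obtain ⟨w', hw'm, hw'd, _⟩ := hC w F hwm hFm hweak
  refine ⟨r / 2, by linarith, ?_, fun j => ⟨w' j, hw'm j, ?_⟩⟩
  · exact (Metric.ball_subset_closedBall.trans
      (Metric.closedBall_subset_closedBall (by linarith))).trans hrU
  · intro ψ hψ
    rw [← hw'd j ψ (lt_test_mono (subset_univ _) hψ)]
    apply integral_congr_ae
    refine Eventually.of_forall fun y => ?_
    simp only
    by_cases hy : y ∈ tsupport ψ
    · have h1 : χ y = 1 := χ.one_of_mem_closedBall (Metric.ball_subset_closedBall (hψ.2.2 hy))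
      rw [hwdef]
      simp only
      rw [h1, one_smul]
    · have h0 : ψ =ᶠ[𝓝 y] fun _ => 0 := notMem_tsupport_iff_eventuallyEq.mp hy
      rw [h0.fderiv_eq]
      simp

/-- interior `H^1` regularity of weak solutions -/
theorem weak_H1 {ι : Type} [Fintype ι] {U : Set (E n)} (hU : IsOpen U)
    {A : Fin n → E n → (Wd ι →L[ℝ] Wd ι)} {B : E n → (Wd ι →L[ℝ] Wd ι)}
    (hA : ∀ j, ContDiffOn ℝ ∞ (A j) U) (hB : ContDiffOn ℝ ∞ B U) (hs : SymbCond A U)
    {k f : E n → Wd ι} (hk : LocL2 U k) (hf : LocL2 U f) (hw : WeakSol U A B k f) :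
    ∀ j, ∃ k', LocL2 U k' ∧ WDer U j k k' := by
  intro j
  apply wh1_glue hU hk j
  intro x hx
  obtain ⟨r, hr, hrU, h⟩ := wh1_local hU hA hB hs hk hf hw hx
  obtain ⟨v, hv, hvd⟩ := h j
  exact ⟨r, hr, hrU, v, hv, hvd⟩

end ANCO
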