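import Pool.Agent.Helper39.Anco.LTools
import Pool.Agent.Helper39.Anco.Lr0

/-!
# Bootstrap: interior regularity of all orders
-/

open scoped ContDiff Topology Manifold InnerProductSpace
open Set MeasureTheory Filter

set_option maxSynthPendingDepth 3

noncomputable section
namespace ANCO

variable {n : ℕ} {ι : Type} [Fintype ι]

/-- component `o` of the big vector -/
def boot_pr (n : ℕ) (ι : Type) [Fintype ι] (o : Option (Fin n)) :
    Wd (Option (Fin n) × ι) →L[ℝ] Wd ι :=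
  LinearMap.toContinuousLinearMap
    { toFun := fun x => WithLp.toLp 2 (fun α => x (o, α))
      map_add' := fun x y => by ext α; simp
      map_smul' := fun c x => by ext α; simp }

theorem boot_pr_apply (o : Option (Fin n)) (x : Wd (Option (Fin n) × ι)) (α : ι) :
    boot_pr n ι o x α = x (o, α) := rfl

/-- inclusion of the component `o` -/
def boot_in (n : ℕ) (ι : Type) [Fintype ι] (o : Option (Fin n)) :
    Wd ι →L[ℝ] Wd (Option (Fin n) × ι) :=
  LinearMap.toContinuousLinearMap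
    { toFun := fun x => WithLp.toLp 2 (fun p => if p.1 = o then x p.2 else 0)
      map_add' := fun x y => by
        ext p
        by_cases h : p.1 = o <;> simp [h]
      map_smul' := fun c x => by
        ext p
        by_cases h : p.1 = o <;> simp [h] }

theorem boot_in_apply (o : Option (Fin n)) (x : Wd ι) (p : Option (Fin n) × ι) :
    boot_in n ι o x p = if p.1 = o then x p.2 else 0 := rfl

theorem boot_pr_in (o o' : Option (Fin n)) (x : Wd ι) :
    boot_pr n ι o (boot_in n ι o' x) = if o = o' then x else 0 := by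
  ext α
  rw [boot_pr_apply, boot_in_apply]
  by_cases h : o = o' <;> simp [h]

theorem boot_sum_in_pr (x : Wd (Option (Fin n) × ι)) :
    ∑ o, boot_in n ι o (boot_pr n ι o x) = x := by
  ext p
  rw [WithLp.ofLp_sum, Finset.sum_apply]
  simp only [boot_in_apply, boot_pr_apply]
  rw [Finset.sum_eq_single p.1]
  · simp
  · intro b _ hb
    simp [hb.symm]
  · simp

theorem boot_inner (x y : Wd (Option (Fin n) × ι)) :
    ⟪x, y⟫_ℝ = ∑ o, ⟪boot_pr n ι o x, boot_pr n ι o y⟫_ℝ := by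
  rw [PiLp.inner_apply]
  simp only [PiLp.inner_apply, boot_pr_apply]
  rw [Fintype.sum_prod_type]

theorem boot_pr_sum_in (o : Option (Fin n)) (x : Option (Fin n) → Wd ι) :
    boot_pr n ι o (∑ o', boot_in n ι o' (x o')) = x o := by
  rw [map_sum]
  simp only [boot_pr_in]
  simp

/-- block diagonal operator -/
def boot_diag (n : ℕ) {ι : Type} [Fintype ι] (L : Wd ι →L[ℝ] Wd ι) :
    Wd (Option (Fin n) × ι) →L[ℝ] Wd (Option (Fin n) × ι) :=
  ∑ o, (boot_in n ι o).comp (L.comp (boot_pr n ι o))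

theorem boot_diag_apply (L : Wd ι →L[ℝ] Wd ι) (x : Wd (Option (Fin n) × ι)) :
    boot_diag n L x = ∑ o, boot_in n ι o (L (boot_pr n ι o x)) := by
  simp [boot_diag]

theorem boot_pr_diag (o : Option (Fin n)) (L : Wd ι →L[ℝ] Wd ι) (x : Wd (Option (Fin n) × ι)) :
    boot_pr n ι o (boot_diag n L x) = L (boot_pr n ι o x) := by
  rw [boot_diag_apply, boot_pr_sum_in]

theorem boot_ext {x y : Wd (Option (Fin n) × ι)}
    (h : ∀ o, boot_pr n ι o x = boot_pr n ι o y) : x = y := by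
  rw [← boot_sum_in_pr x, ← boot_sum_in_pr y]
  simp only [h]

theorem boot_diag_smooth {U : Set (E n)} {L : E n → (Wd ι →L[ℝ] Wd ι)}
    (hL : ContDiffOn ℝ ∞ L U) : ContDiffOn ℝ ∞ (fun y => boot_diag n (L y)) U := by
  unfold boot_diag
  apply ContDiffOn.sum
  intro o _
  exact contDiffOn_const.clm_comp (hL.clm_comp contDiffOn_const)

/-- lower order part of the big system -/
def boot_B (A : Fin n → E n → (Wd ι →L[ℝ] Wd ι)) (B : E n → (Wd ι →L[ℝ] Wd ι)) (y : E n) :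
    Wd (Option (Fin n) × ι) →L[ℝ] Wd (Option (Fin n) × ι) :=
  boot_diag n (B y) -
    ∑ l, ∑ j, (boot_in n ι (some j)).comp ((fderiv ℝ (A j) y (e l)).comp (boot_pr n ι (some l))) -
    ∑ l, (boot_in n ι none).comp
      ((∑ j, fderiv ℝ (fun z => fderiv ℝ (A j) z (e l)) y (e j) - fderiv ℝ B y (e l)).comp
        (boot_pr n ι (some l)))

theorem boot_dsmooth {F : Type*} [NormedAddCommGroup F] [NormedSpace ℝ F] {U : Set (E n)}
    (hU : IsOpen U) {f : E n → F} (hf : ContDiffOn ℝ ∞ f U) (v : E n) :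
    ContDiffOn ℝ ∞ (fun y => fderiv ℝ f y v) U :=
  (hf.fderiv_of_isOpen hU (m := ∞) (by simp)).clm_apply contDiffOn_const

theorem boot_B_smooth {U : Set (E n)} (hU : IsOpen U)
    {A : Fin n → E n → (Wd ι →L[ℝ] Wd ι)} {B : E n → (Wd ι →L[ℝ] Wd ι)}
    (hA : ∀ j, ContDiffOn ℝ ∞ (A j) U) (hB : ContDiffOn ℝ ∞ B U) :
    ContDiffOn ℝ ∞ (boot_B A B) U := by
  unfold boot_B
  refine ((boot_diag_smooth hB).sub ?_).sub ?_
  · apply ContDiffOn.sum
    intro l _
    apply ContDiffOn.sum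
    intro j _
    exact contDiffOn_const.clm_comp ((boot_dsmooth hU (hA j) (e l)).clm_comp contDiffOn_const)
  · apply ContDiffOn.sum
    intro l _
    refine contDiffOn_const.clm_comp (ContDiffOn.clm_comp ?_ contDiffOn_const)
    refine ContDiffOn.sub ?_ (boot_dsmooth hU hB (e l))
    apply ContDiffOn.sum
    intro j _
    exact boot_dsmooth hU (boot_dsmooth hU (hA j) (e l)) (e j)

theorem boot_symb {U : Set (E n)} {A : Fin n → E n → (Wd ι →L[ℝ] Wd ι)} (hs : SymbCond A U) :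
    SymbCond (fun j y => boot_diag n (A j y)) U := by
  intro y hy
  obtain ⟨S, hS, h⟩ := hs y hy
  refine ⟨S, hS, fun ξ x => ?_⟩
  have h1 : ∀ z : Wd (Option (Fin n) × ι), ∀ o,
      boot_pr n ι o ((∑ j, ξ j • boot_diag n (A j y)) z) =
      (∑ j, ξ j • A j y) (boot_pr n ι o z) := by
    intro z o
    simp only [_root_.sum_apply, _root_.smul_apply, map_sum, map_smul,
      boot_pr_diag]
  apply boot_ext
  intro o
  rw [h1, h1, h, map_smul]

theorem boot_fderiv_mul {F G : Type*} [NormedAddCommGroup F] [NormedSpace ℝ F]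
    [NormedAddCommGroup G] [NormedSpace ℝ G] {U : Set (E n)} (hU : IsOpen U)
    {L : E n → (F →L[ℝ] G)} (hL : ContDiffOn ℝ ∞ L U) {φ : E n → F} (hφ : ContDiff ℝ ∞ φ)
    (hs : tsupport φ ⊆ U) (y v : E n) :
    fderiv ℝ (fun y => L y (φ y)) y v = fderiv ℝ L y v (φ y) + L y (fderiv ℝ φ y v) := by
  by_cases hy : y ∈ U
  · have h1 : DifferentiableAt ℝ L y :=
      (hL.contDiffAt (hU.mem_nhds hy)).differentiableAt (by simp)
    have h2 : DifferentiableAt ℝ φ y := hφ.contDiffAt.differentiableAt (by simp)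
    rw [fderiv_clm_apply h1 h2]
    simp [add_comm]
  · have hy' : y ∉ tsupport φ := fun h => hy (hs h)
    have h0 : (fun y => L y (φ y)) =ᶠ[𝓝 y] fun _ => 0 := by
      filter_upwards [notMem_tsupport_iff_eventuallyEq.mp hy'] with z hz
      simp [hz]
    have h1 : φ =ᶠ[𝓝 y] fun _ => 0 := notMem_tsupport_iff_eventuallyEq.mp hy'
    rw [h0.fderiv_eq, h1.fderiv_eq, h1.eq_of_nhds]
    simp

theorem boot_symm2 {F : Type*} [NormedAddCommGroup F] [NormedSpace ℝ F] {φ : E n → F}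
    (hφ : ContDiff ℝ ∞ φ) (y u v : E n) :
    fderiv ℝ (fun y => fderiv ℝ φ y u) y v = fderiv ℝ (fun y => fderiv ℝ φ y v) y u := by
  have hd : DifferentiableAt ℝ (fderiv ℝ φ) y :=
    (hφ.fderiv_right (m := ∞) (by simp)).contDiffAt.differentiableAt (by simp)
  have h1 : ∀ w, fderiv ℝ (fun y => fderiv ℝ φ y w) y = (fderiv ℝ (fderiv ℝ φ) y).flip w := by
    intro w
    rw [fderiv_clm_apply hd (differentiableAt_const w)]
    simp
  have h2 : IsSymmSndFDerivAt ℝ φ y :=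
    (hφ.contDiffAt (x := y)).isSymmSndFDerivAt (by
      rw [minSmoothness_of_isRCLikeNormedField]
      exact WithTop.coe_le_coe.mpr (le_top : (2 : ℕ∞) ≤ ⊤))
  rw [h1, h1]
  exact h2 v u

/-- the first order operator -/
def boot_D (A : Fin n → E n → (Wd ι →L[ℝ] Wd ι)) (B : E n → (Wd ι →L[ℝ] Wd ι))
    (φ : E n → Wd ι) (y : E n) : Wd ι := ∑ j, A j y (fderiv ℝ φ y (e j)) + B y (φ y)

theorem boot_D_test {U : Set (E n)} (hU : IsOpen U)
    {A : Fin n → E n → (Wd ι →L[ℝ] Wd ι)} {B : E n → (Wd ι →L[ℝ] Wd ι)}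
    (hA : ∀ j, ContDiffOn ℝ ∞ (A j) U) (hB : ContDiffOn ℝ ∞ B U) {φ : E n → Wd ι}
    (hφ : Test U φ) : Test U (boot_D A B φ) :=
  lt_test_add (lt_test_sum _ fun j _ => lt_test_mul hU (hA j) (lt_test_fderiv hφ (e j)))
    (lt_test_mul hU hB hφ)

theorem boot_key {U : Set (E n)} (hU : IsOpen U)
    {A : Fin n → E n → (Wd ι →L[ℝ] Wd ι)} {B : E n → (Wd ι →L[ℝ] Wd ι)}
    (hA : ∀ j, ContDiffOn ℝ ∞ (A j) U) (hB : ContDiffOn ℝ ∞ B U)
    {k f : E n → Wd ι} (hk : LocL2 U k) (hf : ContDiffOn ℝ ∞ f U) (hw : WeakSol U A B k f)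
    {k' : Fin n → E n → Wd ι} (hkd : ∀ j, WDer U j k (k' j)) (l : Fin n)
    {φ : E n → Wd ι} (hφ : Test U φ) :
    (∫ y, ⟪k' l y, boot_D A B φ y⟫_ℝ) -
      (∑ j, (∫ y, ⟪k' j y, fderiv ℝ (A j) y (e l) (φ y)⟫_ℝ)) -
      (∫ y, ⟪k y, (∑ j, fderiv ℝ (fun z => fderiv ℝ (A j) z (e l)) y (e j) -
        fderiv ℝ B y (e l)) (φ y)⟫_ℝ) = ∫ y, ⟪fderiv ℝ f y (e l), φ y⟫_ℝ := by
  have hD := boot_D_test hU hA hB hφ
  have hφl := lt_test_fderiv hφ (e l)
  have hDl := boot_D_test hU hA hB hφl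
  have hA' : ∀ j, ContDiffOn ℝ ∞ (fun z => fderiv ℝ (A j) z (e l)) U :=
    fun j => boot_dsmooth hU (hA j) (e l)
  have hAφ : ∀ j, Test U (fun y => fderiv ℝ (A j) y (e l) (φ y)) :=
    fun j => lt_test_mul hU (hA' j) hφ
  have hAφ' : ∀ j, Test U (fun y => fderiv ℝ (fun z => fderiv ℝ (A j) z (e l) (φ z)) y (e j)) :=
    fun j => lt_test_fderiv (hAφ j) (e j)
  have hC : ContDiffOn ℝ ∞ (fun y => (∑ j, fderiv ℝ (fun z => fderiv ℝ (A j) z (e l)) y (e j) -
        fderiv ℝ B y (e l))) U := by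
    refine ContDiffOn.sub ?_ (boot_dsmooth hU hB (e l))
    apply ContDiffOn.sum
    intro j _
    exact boot_dsmooth hU (hA' j) (e j)
  have hCφ := lt_test_mul hU hC hφ
  -- the equation tested with `∂_l φ`
  have e1 : ∫ y, ⟪k y, boot_D A B (fun y => fderiv ℝ φ y (e l)) y⟫_ℝ =
      -∫ y, ⟪fderiv ℝ f y (e l), φ y⟫_ℝ := by
    rw [← lt_wder_smooth hU hf l φ hφ]
    exact hw _ hφl
  have e2 : ∫ y, ⟪k y, fderiv ℝ (boot_D A B φ) y (e l)⟫_ℝ =
      -∫ y, ⟪k' l y, boot_D A B φ y⟫_ℝ := hkd l _ hD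
  have e3 : ∀ j, ∫ y, ⟪k y, fderiv ℝ (fun z => fderiv ℝ (A j) z (e l) (φ z)) y (e j)⟫_ℝ =
      -∫ y, ⟪k' j y, fderiv ℝ (A j) y (e l) (φ y)⟫_ℝ := fun j => hkd j _ (hAφ j)
  have e4 : ∀ y, boot_D A B (fun y => fderiv ℝ φ y (e l)) y =
      fderiv ℝ (boot_D A B φ) y (e l) -
      ∑ j, fderiv ℝ (fun z => fderiv ℝ (A j) z (e l) (φ z)) y (e j) +
      (∑ j, fderiv ℝ (fun z => fderiv ℝ (A j) z (e l)) y (e j) -
        fderiv ℝ B y (e l)) (φ y) := by
    intro y
    have d1 : ∀ j, DifferentiableAt ℝ (fun y => A j y (fderiv ℝ φ y (e j))) y := fun j =>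
      (lt_test_mul hU (hA j) (lt_test_fderiv hφ (e j))).1.contDiffAt.differentiableAt (by simp)
    have d2 : DifferentiableAt ℝ (fun y => B y (φ y)) y :=
      (lt_test_mul hU hB hφ).1.contDiffAt.differentiableAt (by simp)
    have h1 : fderiv ℝ (boot_D A B φ) y (e l) =
        ∑ j, fderiv ℝ (fun y => A j y (fderiv ℝ φ y (e j))) y (e l) +
        fderiv ℝ (fun y => B y (φ y)) y (e l) := by
      have : boot_D A B φ = fun y => (∑ j, A j y (fderiv ℝ φ y (e j))) + B y (φ y) := rfl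
      rw [this, fderiv_fun_add (DifferentiableAt.fun_sum fun j _ => d1 j) d2,
        fderiv_fun_sum (fun j _ => d1 j)]
      simp
    have h2 : ∀ j, fderiv ℝ (fun y => A j y (fderiv ℝ φ y (e j))) y (e l) =
        fderiv ℝ (A j) y (e l) (fderiv ℝ φ y (e j)) +
        A j y (fderiv ℝ (fun y => fderiv ℝ φ y (e l)) y (e j)) := by
      intro j
      rw [boot_fderiv_mul hU (hA j) (lt_test_fderiv hφ (e j)).1 (lt_test_fderiv hφ (e j)).2.2,
        boot_symm2 hφ.1]
    have h3 : ∀ j, fderiv ℝ (fun z => fderiv ℝ (A j) z (e l) (φ z)) y (e j) =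
        fderiv ℝ (fun z => fderiv ℝ (A j) z (e l)) y (e j) (φ y) +
        fderiv ℝ (A j) y (e l) (fderiv ℝ φ y (e j)) := by
      intro j
      rw [boot_fderiv_mul hU (hA' j) hφ.1 hφ.2.2]
    have h4 : fderiv ℝ (fun y => B y (φ y)) y (e l) =
        fderiv ℝ B y (e l) (φ y) + B y (fderiv ℝ φ y (e l)) := by
      rw [boot_fderiv_mul hU hB hφ.1 hφ.2.2]
    rw [h1, h4]
    simp only [h2, h3, boot_D]
    rw [_root_.sub_apply, _root_.sum_apply, Finset.sum_add_distrib, Finset.sum_add_distrib]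
    abel
  have i1 := lt_integrable_inner hk (lt_test_fderiv hD (e l))
  have i2 := fun j => lt_integrable_inner hk (hAφ' j)
  have i3 := lt_integrable_inner hk hCφ
  have e5 : ∫ y, ⟪k y, boot_D A B (fun y => fderiv ℝ φ y (e l)) y⟫_ℝ =
      (∫ y, ⟪k y, fderiv ℝ (boot_D A B φ) y (e l)⟫_ℝ) -
      (∑ j, (∫ y, ⟪k y, fderiv ℝ (fun z => fderiv ℝ (A j) z (e l) (φ z)) y (e j)⟫_ℝ)) +
      (∫ y, ⟪k y, (∑ j, fderiv ℝ (fun z => fderiv ℝ (A j) z (e l)) y (e j) -
        fderiv ℝ B y (e l)) (φ y)⟫_ℝ) := by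
    have hs : Integrable (fun y => ∑ j, ⟪k y,
        fderiv ℝ (fun z => fderiv ℝ (A j) z (e l) (φ z)) y (e j)⟫_ℝ) :=
      integrable_finsetSum _ fun j _ => i2 j
    have i12 : Integrable (fun y => ⟪k y, fderiv ℝ (boot_D A B φ) y (e l)⟫_ℝ - ∑ j, ⟪k y,
        fderiv ℝ (fun z => fderiv ℝ (A j) z (e l) (φ z)) y (e j)⟫_ℝ) := i1.sub hs
    rw [← integral_finsetSum _ (fun j _ => i2 j), ← integral_sub i1 hs, ← integral_add i12 i3]
    apply integral_congr_ae
    filter_upwards with y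
    rw [e4 y, inner_add_right, inner_sub_right, inner_sum]
  rw [e1, e2] at e5
  simp only [e3] at e5
  rw [Finset.sum_neg_distrib] at e5
  linarith

/-- the big unknown -/
def boot_K (k : E n → Wd ι) (k' : Fin n → E n → Wd ι) (y : E n) : Wd (Option (Fin n) × ι) :=
  ∑ o : Option (Fin n), boot_in n ι o (o.elim (k y) (fun j => k' j y))

theorem boot_pr_K_none (k : E n → Wd ι) (k' : Fin n → E n → Wd ι) (y : E n) :
    boot_pr n ι none (boot_K k k' y) = k y := by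
  rw [boot_K, boot_pr_sum_in (x := fun o : Option (Fin n) => o.elim (k y) (fun j => k' j y))]
  rfl

theorem boot_pr_K_some (k : E n → Wd ι) (k' : Fin n → E n → Wd ι) (y : E n) (j : Fin n) :
    boot_pr n ι (some j) (boot_K k k' y) = k' j y := by
  rw [boot_K, boot_pr_sum_in (x := fun o : Option (Fin n) => o.elim (k y) (fun j => k' j y))]
  rfl

theorem boot_inner_K (k : E n → Wd ι) (k' : Fin n → E n → Wd ι) (y : E n)
    (x : Wd (Option (Fin n) × ι)) :
    ⟪boot_K k k' y, x⟫_ℝ = ⟪k y, boot_pr n ι none x⟫_ℝ +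
      ∑ j, ⟪k' j y, boot_pr n ι (some j) x⟫_ℝ := by
  rw [boot_inner, Fintype.sum_option, boot_pr_K_none]
  simp only [boot_pr_K_some]

theorem boot_K_locL2 {U : Set (E n)} {k : E n → Wd ι} {k' : Fin n → E n → Wd ι}
    (hk : LocL2 U k) (hk' : ∀ j, LocL2 U (k' j)) : LocL2 U (boot_K k k') := by
  unfold boot_K
  apply lt_locL2_sum
  intro o _
  apply lt_locL2_clm
  cases o with
  | none => exact hk
  | some j => exact hk' j

theorem boot_K_smooth {U : Set (E n)} {k : E n → Wd ι} {k' : Fin n → E n → Wd ι}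
    (hk : ContDiffOn ℝ ∞ k U) (hk' : ∀ j, ContDiffOn ℝ ∞ (k' j) U) :
    ContDiffOn ℝ ∞ (boot_K k k') U := by
  unfold boot_K
  apply ContDiffOn.sum
  intro o _
  refine (boot_in n ι o).contDiff.comp_contDiffOn ?_
  cases o with
  | none => exact hk
  | some j => exact hk' j

theorem boot_pr_B_none (A : Fin n → E n → (Wd ι →L[ℝ] Wd ι)) (B : E n → (Wd ι →L[ℝ] Wd ι))
    (y : E n) (x : Wd (Option (Fin n) × ι)) :
    boot_pr n ι none (boot_B A B y x) = B y (boot_pr n ι none x) -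
      ∑ l, (∑ j, fderiv ℝ (fun z => fderiv ℝ (A j) z (e l)) y (e j) - fderiv ℝ B y (e l))
        (boot_pr n ι (some l) x) := by
  unfold boot_B
  simp only [_root_.sub_apply, _root_.sum_apply, map_sub, map_sum, boot_pr_diag,
    ContinuousLinearMap.comp_apply, boot_pr_in]
  simp

theorem boot_pr_B_some (A : Fin n → E n → (Wd ι →L[ℝ] Wd ι)) (B : E n → (Wd ι →L[ℝ] Wd ι))
    (y : E n) (x : Wd (Option (Fin n) × ι)) (j : Fin n) :
    boot_pr n ι (some j) (boot_B A B y x) = B y (boot_pr n ι (some j) x) -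
      ∑ l, fderiv ℝ (A j) y (e l) (boot_pr n ι (some l) x) := by
  unfold boot_B
  simp only [_root_.sub_apply, _root_.sum_apply, map_sub, map_sum, boot_pr_diag,
    ContinuousLinearMap.comp_apply, boot_pr_in]
  simp

theorem boot_weak {U : Set (E n)} (hU : IsOpen U)
    {A : Fin n → E n → (Wd ι →L[ℝ] Wd ι)} {B : E n → (Wd ι →L[ℝ] Wd ι)}
    (hA : ∀ j, ContDiffOn ℝ ∞ (A j) U) (hB : ContDiffOn ℝ ∞ B U)
    {k f : E n → Wd ι} (hk : LocL2 U k) (hf : ContDiffOn ℝ ∞ f U) (hw : WeakSol U A B k f)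
    {k' : Fin n → E n → Wd ι} (hkl : ∀ j, LocL2 U (k' j)) (hkd : ∀ j, WDer U j k (k' j)) :
    WeakSol U (fun j y => boot_diag n (A j y)) (boot_B A B) (boot_K k k')
      (boot_K f (fun j y => fderiv ℝ f y (e j))) := by
  intro ψ hψ
  set φ : Option (Fin n) → E n → Wd ι := fun o y => boot_pr n ι o (ψ y) with hφdef
  have hφ : ∀ o, Test U (φ o) := fun o => lt_test_clm (boot_pr n ι o) hψ
  have hφd : ∀ o y v, boot_pr n ι o (fderiv ℝ ψ y v) = fderiv ℝ (φ o) y v := by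
    intro o y v
    have := ((boot_pr n ι o).hasFDerivAt.comp y
      (hψ.1.contDiffAt.differentiableAt (by simp) :
        DifferentiableAt ℝ ψ y).hasFDerivAt).fderiv
    have h3 : φ o = (boot_pr n ι o) ∘ ψ := rfl
    rw [h3, this]; rfl
  have hA' : ∀ l j, ContDiffOn ℝ ∞ (fun z => fderiv ℝ (A j) z (e l)) U :=
    fun l j => boot_dsmooth hU (hA j) (e l)
  have hC : ∀ l, ContDiffOn ℝ ∞ (fun y => (∑ j, fderiv ℝ (fun z => fderiv ℝ (A j) z (e l)) y
      (e j) - fderiv ℝ B y (e l))) U := by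
    intro l
    refine ContDiffOn.sub ?_ (boot_dsmooth hU hB (e l))
    apply ContDiffOn.sum
    intro j _
    exact boot_dsmooth hU (hA' l j) (e j)
  -- integrable pieces
  have i0 : Integrable (fun y => ⟪k y, boot_D A B (φ none) y⟫_ℝ) :=
    lt_integrable_inner hk (boot_D_test hU hA hB (hφ none))
  have i1 : ∀ l, Integrable (fun y => ⟪k' l y, boot_D A B (φ (some l)) y⟫_ℝ) := fun l =>
    lt_integrable_inner (hkl l) (boot_D_test hU hA hB (hφ (some l)))
  have i2 : ∀ l j, Integrable (fun y => ⟪k' j y, fderiv ℝ (A j) y (e l) (φ (some l) y)⟫_ℝ) :=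
    fun l j => lt_integrable_inner (hkl j) (lt_test_mul hU (hA' l j) (hφ (some l)))
  have i3 : ∀ l, Integrable (fun y => ⟪k y, (∑ j, fderiv ℝ (fun z => fderiv ℝ (A j) z (e l)) y
      (e j) - fderiv ℝ B y (e l)) (φ (some l) y)⟫_ℝ) :=
    fun l => lt_integrable_inner hk (lt_test_mul hU (hC l) (hφ (some l)))
  have i4 : ∀ l, Integrable (fun y => ⟪fderiv ℝ f y (e l), φ (some l) y⟫_ℝ) := fun l =>
    lt_integrable_inner (lt_locL2_of_continuousOn (boot_dsmooth hU hf (e l)).continuousOn)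
      (hφ (some l))
  have i5 : Integrable (fun y => ⟪f y, φ none y⟫_ℝ) :=
    lt_integrable_inner (lt_locL2_of_continuousOn hf.continuousOn) (hφ none)
  -- pointwise formulas
  have p1 : ∀ y, ⟪boot_K k k' y, ∑ j, boot_diag n (A j y) (fderiv ℝ ψ y (e j)) +
      boot_B A B y (ψ y)⟫_ℝ = ⟪k y, boot_D A B (φ none) y⟫_ℝ +
      ∑ l, (⟪k' l y, boot_D A B (φ (some l)) y⟫_ℝ -
        (∑ j, ⟪k' j y, fderiv ℝ (A j) y (e l) (φ (some l) y)⟫_ℝ) -
        ⟪k y, (∑ j, fderiv ℝ (fun z => fderiv ℝ (A j) z (e l)) y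
          (e j) - fderiv ℝ B y (e l)) (φ (some l) y)⟫_ℝ) := by
    intro y
    rw [boot_inner_K]
    have q : ∀ o, boot_pr n ι o (∑ j, boot_diag n (A j y) (fderiv ℝ ψ y (e j)) +
        boot_B A B y (ψ y)) = ∑ j, A j y (fderiv ℝ (φ o) y (e j)) +
        boot_pr n ι o (boot_B A B y (ψ y)) := by
      intro o
      simp only [map_add, map_sum, boot_pr_diag, hφd]
    simp only [q, boot_pr_B_none, boot_pr_B_some]
    have q1 : ⟪k y, ∑ j, A j y (fderiv ℝ (φ none) y (e j)) +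
        (B y (boot_pr n ι none (ψ y)) -
        ∑ l, (∑ j, fderiv ℝ (fun z => fderiv ℝ (A j) z (e l)) y (e j) - fderiv ℝ B y (e l))
        (boot_pr n ι (some l) (ψ y)))⟫_ℝ = ⟪k y, boot_D A B (φ none) y⟫_ℝ -
        ∑ l, ⟪k y, (∑ j, fderiv ℝ (fun z => fderiv ℝ (A j) z (e l)) y
          (e j) - fderiv ℝ B y (e l)) (φ (some l) y)⟫_ℝ := by
      rw [← add_sub_assoc, inner_sub_right, inner_sum]
      rfl
    have q2 : ∀ j, ⟪k' j y, ∑ i, A i y (fderiv ℝ (φ (some j)) y (e i)) +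
        (B y (boot_pr n ι (some j) (ψ y)) -
        ∑ l, fderiv ℝ (A j) y (e l) (boot_pr n ι (some l) (ψ y)))⟫_ℝ =
        ⟪k' j y, boot_D A B (φ (some j)) y⟫_ℝ -
        ∑ l, ⟪k' j y, fderiv ℝ (A j) y (e l) (φ (some l) y)⟫_ℝ := by
      intro j
      rw [← add_sub_assoc, inner_sub_right, inner_sum]
      rfl
    rw [q1]
    simp only [q2]
    rw [Finset.sum_sub_distrib, Finset.sum_sub_distrib, Finset.sum_sub_distrib,
      Finset.sum_comm]
    ring
  have p2 : ∀ y, ⟪boot_K f (fun j y => fderiv ℝ f y (e j)) y, ψ y⟫_ℝ = ⟪f y, φ none y⟫_ℝ +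
      ∑ l, ⟪fderiv ℝ f y (e l), φ (some l) y⟫_ℝ := by
    intro y
    rw [boot_inner_K]
  simp only [p1, p2]
  have i2s : ∀ l, Integrable (fun y => ∑ j, ⟪k' j y, fderiv ℝ (A j) y (e l)
      (φ (some l) y)⟫_ℝ) := fun l => integrable_finsetSum _ fun j _ => i2 l j
  have i12 : ∀ l, Integrable (fun y => ⟪k' l y, boot_D A B (φ (some l)) y⟫_ℝ -
        (∑ j, ⟪k' j y, fderiv ℝ (A j) y (e l) (φ (some l) y)⟫_ℝ)) := fun l =>
    (i1 l).sub (i2s l)
  have i123 : ∀ l, Integrable (fun y => ⟪k' l y, boot_D A B (φ (some l)) y⟫_ℝ -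
        (∑ j, ⟪k' j y, fderiv ℝ (A j) y (e l) (φ (some l) y)⟫_ℝ) -
        ⟪k y, (∑ j, fderiv ℝ (fun z => fderiv ℝ (A j) z (e l)) y
          (e j) - fderiv ℝ B y (e l)) (φ (some l) y)⟫_ℝ) := fun l => (i12 l).sub (i3 l)
  rw [integral_add i0 (integrable_finsetSum _ fun l _ => i123 l),
    integral_add i5 (integrable_finsetSum _ fun l _ => i4 l),
    integral_finsetSum _ (fun l _ => i123 l), integral_finsetSum _ (fun l _ => i4 l)]
  congr 1
  · exact hw _ (hφ none)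
  · apply Finset.sum_congr rfl
    intro l _
    rw [integral_sub (i12 l) (i3 l), integral_sub (i1 l) (i2s l),
      integral_finsetSum _ (fun j _ => i2 l j)]
    exact boot_key hU hA hB hk hf hw hkd l (hφ (some l))

theorem boot_all (m : ℕ) : ∀ {ι : Type} [Fintype ι] {U : Set (E n)} (_ : IsOpen U)
    {A : Fin n → E n → (Wd ι →L[ℝ] Wd ι)} {B : E n → (Wd ι →L[ℝ] Wd ι)}
    (_ : ∀ j, ContDiffOn ℝ ∞ (A j) U) (_ : ContDiffOn ℝ ∞ B U) (_ : SymbCond A U)
    {k f : E n → Wd ι} (_ : LocL2 U k) (_ : ContDiffOn ℝ ∞ f U) (_ : WeakSol U A B k f),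
    HLoc U m k := by
  induction m with
  | zero =>
    intro ι _ U hU A B hA hB hs k f hk hf hw
    exact hk
  | succ m ih =>
    intro ι _ U hU A B hA hB hs k f hk hf hw
    have h1 := weak_H1 hU hA hB hs hk (lt_locL2_of_continuousOn hf.continuousOn) hw
    choose k' hk' hkd using h1
    have hbig := ih (ι := Option (Fin n) × ι) hU (A := fun j y => boot_diag n (A j y))
      (B := boot_B A B) (fun j => boot_diag_smooth (hA j)) (boot_B_smooth hU hA hB)
      (boot_symb hs) (boot_K_locL2 hk hk')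
      (boot_K_smooth hf (fun j => boot_dsmooth hU hf (e j)))
      (boot_weak hU hA hB hk hf hw hk' hkd)
    refine ⟨hk, fun j => ⟨k' j, hkd j, ?_⟩⟩
    have := lt_hloc_clm (boot_pr n ι (some j)) hbig
    simpa only [boot_pr_K_some] using this

theorem weak_HLoc {ι : Type} [Fintype ι] {U : Set (E n)} (hU : IsOpen U)
    {A : Fin n → E n → (Wd ι →L[ℝ] Wd ι)} {B : E n → (Wd ι →L[ℝ] Wd ι)}
    (hA : ∀ j, ContDiffOn ℝ ∞ (A j) U) (hB : ContDiffOn ℝ ∞ B U) (hs : SymbCond A U)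
    {k f : E n → Wd ι} (hk : LocL2 U k) (hf : ContDiffOn ℝ ∞ f U) (hw : WeakSol U A B k f) :
    ∀ m, HLoc U m k := fun m => boot_all m hU hA hB hs hk hf hw

end ANCO
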