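import Mathlib

/-!
# Statement-level definitions (in coordinates) for MP_738e39_gt

A closed manifold `M` is a compact Hausdorff `IsManifold (𝓡 n) ∞ M`; all objects on it are given
by their coordinate expressions in the charts `chartAt _ x`, `x : M`.
-/

open scoped ContDiff Topology Manifold
open Set

noncomputable section
namespace ANCOS

/-- Partial derivative `∂_i f (y)`. -/
def pd {n : ℕ} (i : Fin n) (f : EuclideanSpace ℝ (Fin n) → ℝ) (y : EuclideanSpace ℝ (Fin n)) : ℝ :=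
  fderiv ℝ f y (EuclideanSpace.single i 1)

/-- Transition map from the chart at `x` to the chart at `x'`. -/
def trans {n : ℕ} {M : Type} [TopologicalSpace M] [ChartedSpace (EuclideanSpace ℝ (Fin n)) M]
    (x x' : M) : EuclideanSpace ℝ (Fin n) → EuclideanSpace ℝ (Fin n) :=
  fun y => chartAt (EuclideanSpace ℝ (Fin n)) x' ((chartAt (EuclideanSpace ℝ (Fin n)) x).symm y)

/-- The part of the chart at `x` on which the transition map to the chart at `x'` is defined. -/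
def overlap {n : ℕ} {M : Type} [TopologicalSpace M] [ChartedSpace (EuclideanSpace ℝ (Fin n)) M]
    (x x' : M) : Set (EuclideanSpace ℝ (Fin n)) :=
  {y | y ∈ (chartAt (EuclideanSpace ℝ (Fin n)) x).target ∧
    (chartAt (EuclideanSpace ℝ (Fin n)) x).symm y ∈ (chartAt (EuclideanSpace ℝ (Fin n)) x').source}

/-- A smooth Riemannian metric: coefficients `g_{ij}(y)` in every chart, smooth, symmetric,
positive definite and transforming by the tensor rule. -/
structure Metric (n : ℕ) (M : Type) [TopologicalSpace M]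
    [ChartedSpace (EuclideanSpace ℝ (Fin n)) M] where
  g : M → EuclideanSpace ℝ (Fin n) → Fin n → Fin n → ℝ
  smooth : ∀ x i j, ContDiffOn ℝ ∞ (fun y => g x y i j) (chartAt (EuclideanSpace ℝ (Fin n)) x).target
  symm : ∀ x, ∀ y ∈ (chartAt (EuclideanSpace ℝ (Fin n)) x).target, ∀ i j, g x y i j = g x y j i
  pos : ∀ x, ∀ y ∈ (chartAt (EuclideanSpace ℝ (Fin n)) x).target, ∀ u : Fin n → ℝ, u ≠ 0 →
    0 < ∑ i, ∑ j, g x y i j * u i * u j
  compat : ∀ x x', ∀ y ∈ overlap x x', ∀ i j, g x y i j =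
    ∑ k, ∑ l, g x' (trans x x' y) k l * pd i (fun z => trans x x' z k) y *
      pd j (fun z => trans x x' z l) y

/-- Christoffel symbols `Γ^k_{ij} = 1/2 ∑_l g^{kl} (∂_i g_{jl} + ∂_j g_{il} - ∂_l g_{ij})`. -/
def chris {n : ℕ} (g : EuclideanSpace ℝ (Fin n) → Fin n → Fin n → ℝ) (k i j : Fin n)
    (y : EuclideanSpace ℝ (Fin n)) : ℝ :=
  1 / 2 * ∑ l, (Matrix.of (g y))⁻¹ k l *
    (pd i (fun z => g z j l) y + pd j (fun z => g z i l) y - pd l (fun z => g z i j) y)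

/-- `R^l_{ijk}`: `R(∂_i, ∂_j) ∂_k = ∑_l R^l_{ijk} ∂_l`, where
`R(X, Y) = ∇_X ∇_Y - ∇_Y ∇_X - ∇_{[X, Y]}`. -/
def riemUp {n : ℕ} (g : EuclideanSpace ℝ (Fin n) → Fin n → Fin n → ℝ) (l i j k : Fin n)
    (y : EuclideanSpace ℝ (Fin n)) : ℝ :=
  pd i (chris g l j k) y - pd j (chris g l i k) y
    + ∑ m, (chris g l i m y * chris g m j k y - chris g l j m y * chris g m i k y)

/-- `R_{ijkl} = ⟨R(∂_i, ∂_j) ∂_k, ∂_l⟩`; for the unit sphere
`R_{ijkl} = g_{il} g_{jk} - g_{ik} g_{jl}`. -/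
def riem {n : ℕ} (g : EuclideanSpace ℝ (Fin n) → Fin n → Fin n → ℝ) (i j k l : Fin n)
    (y : EuclideanSpace ℝ (Fin n)) : ℝ :=
  ∑ m, g y l m * riemUp g m i j k y

/-- Curvature operator `≥ κ` at the point `y`: for every bivector `ξ = ∑ ξ^{ij} ∂_i ∧ ∂_j`,
`⟨R ξ, ξ⟩ = ∑ ξ^{ij} ξ^{kl} R_{ijlk} ≥ κ |ξ|^2`. -/
def CurvGE {n : ℕ} (g : EuclideanSpace ℝ (Fin n) → Fin n → Fin n → ℝ) (κ : ℝ)
    (y : EuclideanSpace ℝ (Fin n)) : Prop :=
  ∀ ξ : Fin n → Fin n → ℝ,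
    κ * ∑ i, ∑ j, ∑ k, ∑ l, ξ i j * ξ k l * (g y i k * g y j l - g y i l * g y j k)
      ≤ ∑ i, ∑ j, ∑ k, ∑ l, ξ i j * ξ k l * riem g i j l k y

/-- Speed of a curve `γ` at time `t`, computed in the chart at `γ t`. -/
def speed {n : ℕ} {M : Type} [TopologicalSpace M] [ChartedSpace (EuclideanSpace ℝ (Fin n)) M]
    (g : Metric n M) (γ : ℝ → M) (t : ℝ) : ℝ :=
  Real.sqrt (∑ i, ∑ j, g.g (γ t) (chartAt (EuclideanSpace ℝ (Fin n)) (γ t) (γ t)) i j *
    deriv (fun s => chartAt (EuclideanSpace ℝ (Fin n)) (γ t) (γ s) i) t *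
    deriv (fun s => chartAt (EuclideanSpace ℝ (Fin n)) (γ t) (γ s) j) t)

/-- The diameter is at most `D`: any two points are joined by `C^1` curves of length `< r` for
every `r > D`. -/
def DiamLE {n : ℕ} {M : Type} [TopologicalSpace M] [ChartedSpace (EuclideanSpace ℝ (Fin n)) M]
    (g : Metric n M) (D : ℝ) : Prop :=
  ∀ p q : M, ∀ r > D, ∃ γ : ℝ → M, ContMDiff 𝓘(ℝ, ℝ) (𝓡 n) 1 γ ∧ γ 0 = p ∧ γ 1 = q ∧
    ∫ t in (0:ℝ)..1, speed g γ t < r

/-- `M` admits almost nonnegative curvature operator. -/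
def AdmitsANCO (n : ℕ) (M : Type) [TopologicalSpace M]
    [ChartedSpace (EuclideanSpace ℝ (Fin n)) M] : Prop :=
  ∀ ε > 0, ∃ g : Metric n M, DiamLE g 1 ∧
    ∀ x, ∀ y ∈ (chartAt (EuclideanSpace ℝ (Fin n)) x).target, CurvGE (g.g x) (-ε) y

/-- A smooth differential `p`-form on `M`, given in the chart at `x` by its components
`w x y I = w(∂_{I 0}, ..., ∂_{I (p-1)})` (zero outside of the chart domain): smooth, alternating,
and compatible under pull-back by the transition maps. -/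
def IsForm {n : ℕ} {M : Type} [TopologicalSpace M] [ChartedSpace (EuclideanSpace ℝ (Fin n)) M]
    (p : ℕ) (w : M → EuclideanSpace ℝ (Fin n) → (Fin p → Fin n) → ℝ) : Prop :=
  (∀ x, ∀ y ∉ (chartAt (EuclideanSpace ℝ (Fin n)) x).target, ∀ I, w x y I = 0) ∧
  (∀ x I, ContDiffOn ℝ ∞ (fun y => w x y I) (chartAt (EuclideanSpace ℝ (Fin n)) x).target) ∧
  (∀ x y I, ∀ σ : Equiv.Perm (Fin p), w x y (fun a => I (σ a)) = (Equiv.Perm.sign σ : ℤ) * w x y I) ∧
  ∀ x x', ∀ y ∈ overlap x x', ∀ I, w x y I =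
    ∑ J : Fin p → Fin n, w x' (trans x x' y) J * ∏ a, pd (I a) (fun z => trans x x' z (J a)) y

/-- Exterior derivative in a chart:
`(dw)(∂_{I 0}, ..., ∂_{I p}) = ∑_k (-1)^k ∂_{I k} w(..., omit ∂_{I k}, ...)`. -/
def dd {n p : ℕ} (w : EuclideanSpace ℝ (Fin n) → (Fin p → Fin n) → ℝ)
    (y : EuclideanSpace ℝ (Fin n)) (I : Fin (p + 1) → Fin n) : ℝ :=
  ∑ k : Fin (p + 1), (-1) ^ (k : ℕ) * pd (I k) (fun z => w z (fun a => I (k.succAbove a))) y

/-- Closed `p`-forms. -/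
def IsClosedForm {n : ℕ} {M : Type} [TopologicalSpace M]
    [ChartedSpace (EuclideanSpace ℝ (Fin n)) M] (p : ℕ)
    (w : M → EuclideanSpace ℝ (Fin n) → (Fin p → Fin n) → ℝ) : Prop :=
  IsForm p w ∧ ∀ x, ∀ y ∈ (chartAt (EuclideanSpace ℝ (Fin n)) x).target, ∀ I, dd (w x) y I = 0

/-- Exact `p`-forms: `0` for `p = 0`, and `dη` with a smooth `(p - 1)`-form `η` for `p > 0`. -/
def IsExactForm {n : ℕ} {M : Type} [TopologicalSpace M]
    [ChartedSpace (EuclideanSpace ℝ (Fin n)) M] : (p : ℕ) →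
    (M → EuclideanSpace ℝ (Fin n) → (Fin p → Fin n) → ℝ) → Prop
  | 0, w => ∀ x y I, w x y I = 0
  | p + 1, w => ∃ η, IsForm p η ∧
      ∀ x, ∀ y ∈ (chartAt (EuclideanSpace ℝ (Fin n)) x).target, ∀ I, w x y I = dd (η x) y I

/-- The `p`-th Betti number, i.e. the dimension of (closed `p`-forms)/(exact `p`-forms): the
greatest number of closed `p`-forms which are linearly independent modulo exact `p`-forms. -/
def betti (n : ℕ) (M : Type) [TopologicalSpace M] [ChartedSpace (EuclideanSpace ℝ (Fin n)) M]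
    (p : ℕ) : ℕ :=
  sSup {k | ∃ w : Fin k → M → EuclideanSpace ℝ (Fin n) → (Fin p → Fin n) → ℝ,
    (∀ a, IsClosedForm p (w a)) ∧
    ∀ c : Fin k → ℝ, IsExactForm p (fun x y I => ∑ a, c a * w a x y I) → ∀ a, c a = 0}

/-- The Euler characteristic. -/
def eulerChar (n : ℕ) (M : Type) [TopologicalSpace M]
    [ChartedSpace (EuclideanSpace ℝ (Fin n)) M] : ℤ :=
  ∑ p ∈ Finset.range (n + 1), (-1) ^ p * (betti n M p : ℤ)

end ANCOS
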