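import Pool.Agent.Helper39.Anco.Geo
import Pool.Agent.Helper39.Anco.Stmt

/-!
# Comparison of the two descriptions of a metric
-/

open scoped ContDiff Topology Manifold InnerProductSpace
open Set MeasureTheory Filter

set_option maxSynthPendingDepth 3

noncomputable section
namespace ANCO

variable {n : ℕ} {M : Type} [TopologicalSpace M] [ChartedSpace (E n) M]

/-- `G` and `g` are the same coefficients. -/
def SameCoef (G : Coef n) (g : E n → Fin n → Fin n → ℝ) : Prop :=
  ∀ y u v, G y u v = ∑ i, ∑ j, g y i j * u i * v j

end ANCO
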