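import Pool.Agent.Helper39.Anco.Geo
import Pool.Agent.Helper39.Anco.Stmt
import Pool.Agent.Helper39.Anco.Tr
import Pool.Agent.Helper39.Anco.BrDefs

open scoped ContDiff Topology Manifold InnerProductSpace
open Set MeasureTheory Filter

set_option maxSynthPendingDepth 3

noncomputable section
namespace ANCO

variable {n : ℕ} {M : Type} [TopologicalSpace M] [ChartedSpace (E n) M]

/-- the bilinear form with coefficients `c` -/
def bra_bil (c : Fin n → Fin n → ℝ) : E n →L[ℝ] E n →L[ℝ] ℝ :=
  ∑ i, ∑ j, c i j • ((EuclideanSpace.proj i : E n →L[ℝ] ℝ).smulRight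
    (EuclideanSpace.proj j : E n →L[ℝ] ℝ))

theorem bra_bil_apply (c : Fin n → Fin n → ℝ) (u v : E n) :
    bra_bil c u v = ∑ i, ∑ j, c i j * u i * v j := by
  unfold bra_bil
  simp only [ContinuousLinearMap.sum_apply, ContinuousLinearMap.smul_apply,
    ContinuousLinearMap.smulRight_apply, smul_eq_mul, mul_assoc]
  rfl

theorem bra_expand (u : E n) : u = ∑ i, u i • EuclideanSpace.single i (1 : ℝ) := by
  ext k
  simp [Finset.sum_apply, Pi.single_apply]

theorem bra_deriv [IsManifold (𝓡 n) ∞ M] (x x' : M) {y : E n} (hy : y ∈ (tr n M x x').source)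
    (u : E n) (k : Fin n) : (fderiv ℝ (tr n M x x') y u) k =
      ∑ i, u i * ANCOS.pd i (fun z => ANCOS.trans x x' z k) y := by
  have hd : DifferentiableAt ℝ (tr n M x x') y :=
    ((tr_smooth x x').contDiffAt ((tr n M x x').open_source.mem_nhds hy)).differentiableAt
      (by simp)
  have h1 : HasFDerivAt (fun z => ANCOS.trans x x' z k)
      ((EuclideanSpace.proj k : E n →L[ℝ] ℝ) ∘L fderiv ℝ (tr n M x x') y) y :=
    ((EuclideanSpace.proj k : E n →L[ℝ] ℝ).hasFDerivAt).comp y hd.hasFDerivAt
  have h2 : ∀ i, ANCOS.pd i (fun z => ANCOS.trans x x' z k) y =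
      (fderiv ℝ (tr n M x x') y (EuclideanSpace.single i 1)) k := by
    intro i
    unfold ANCOS.pd
    rw [h1.fderiv]
    rfl
  simp only [h2]
  conv_lhs => rw [bra_expand u, map_sum]
  simp only [map_smul]
  simp [Finset.sum_apply]

theorem bra_overlap {x x' : M} {y : E n} (hy : y ∈ (tr n M x x').source) :
    y ∈ ANCOS.overlap x x' := mem_tr_source.1 hy

theorem bra_exists [IsManifold (𝓡 n) ∞ M] (g : ANCOS.Metric n M) :
    ∃ G : RMetric n M, ∀ x, SameCoef (G.g x) (g.g x) := by
  refine ⟨{ g := fun x y => bra_bil (g.g x y), smooth := ?_, symm := ?_, pos := ?_,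
            compat := ?_ }, ?_⟩
  · intro x
    unfold bra_bil
    refine ContDiffOn.sum fun i _ => ContDiffOn.sum fun j _ => ?_
    exact (g.smooth x i j).smul contDiffOn_const
  · intro x y hy u v
    simp only [bra_bil_apply]
    rw [Finset.sum_comm]
    refine Finset.sum_congr rfl fun i _ => Finset.sum_congr rfl fun j _ => ?_
    rw [g.symm x y hy j i]
    ring
  · intro x y hy u hu
    simp only [bra_bil_apply]
    refine g.pos x y hy (fun i => u i) ?_
    intro h
    apply hu
    ext i
    exact congrFun h i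
  · intro x x' y hy u v
    simp only [bra_bil_apply, bra_deriv x x' hy]
    have h1 : ∀ i j, g.g x y i j = ∑ k, ∑ l, g.g x' (tr n M x x' y) k l *
        ANCOS.pd i (fun z => ANCOS.trans x x' z k) y *
        ANCOS.pd j (fun z => ANCOS.trans x x' z l) y := g.compat x x' y (bra_overlap hy)
    simp only [h1]
    generalize (g.g x' (tr n M x x' y)) = c
    generalize hp : (fun i k => ANCOS.pd i (fun z => ANCOS.trans x x' z k) y) = P
    have hP : ∀ i k, ANCOS.pd i (fun z => ANCOS.trans x x' z k) y = P i k := fun i k => by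
      rw [← hp]
    simp only [hP]
    simp only [Finset.mul_sum, Finset.sum_mul]
    calc ∑ i, ∑ j, ∑ k, ∑ l, c k l * P i k * P j l * u i * v j
        = ∑ i, ∑ k, ∑ j, ∑ l, c k l * P i k * P j l * u i * v j :=
          Finset.sum_congr rfl fun i _ => Finset.sum_comm
      _ = ∑ k, ∑ i, ∑ j, ∑ l, c k l * P i k * P j l * u i * v j := Finset.sum_comm
      _ = ∑ k, ∑ i, ∑ l, ∑ j, c k l * P i k * P j l * u i * v j :=
          Finset.sum_congr rfl fun k _ => Finset.sum_congr rfl fun i _ => Finset.sum_comm
      _ = ∑ k, ∑ l, ∑ i, ∑ j, c k l * P i k * P j l * u i * v j :=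
          Finset.sum_congr rfl fun k _ => Finset.sum_comm
      _ = ∑ k, ∑ l, ∑ j, ∑ i, c k l * (u i * P i k) * (v j * P j l) := by
          refine Finset.sum_congr rfl fun k _ => Finset.sum_congr rfl fun l _ => ?_
          rw [Finset.sum_comm]
          refine Finset.sum_congr rfl fun j _ => Finset.sum_congr rfl fun i _ => ?_
          ring
      _ = _ := by
          refine Finset.sum_congr rfl fun k _ => Finset.sum_congr rfl fun l _ =>
            Finset.sum_congr rfl fun j _ => Finset.sum_congr rfl fun i _ => ?_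
          ring
  · intro x y u v
    exact bra_bil_apply _ u v

end ANCO
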