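import Pool.Agent.Helper39.Anco.Geo
import Pool.Agent.Helper39.Anco.Stmt
import Pool.Agent.Helper39.Anco.Chr
import Pool.Agent.Helper39.Anco.BrDefs

/-!
# Curvature condition in coordinates implies `CurvOpGE` (module ANCO-BRB)
-/

open scoped ContDiff Topology Manifold InnerProductSpace
open Set MeasureTheory Filter

set_option maxSynthPendingDepth 3

noncomputable section
namespace ANCO

variable {n : ℕ}

/-- the coordinate vector -/
def brb_e (i : Fin n) : E n := EuclideanSpace.single i (1 : ℝ)

theorem brb_expand (u : E n) : u = ∑ i, u i • (brb_e i : E n) := by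
  ext k
  simp [brb_e, Finset.sum_apply, Pi.single_apply]

theorem brb_lin {T : E n → ℝ} (h : IsLinearMap ℝ T) (u : E n) :
    T u = ∑ i, u i * T (brb_e i) := by
  have h1 : T u = (IsLinearMap.mk' T h) u := rfl
  rw [h1]
  conv_lhs => rw [brb_expand u]
  rw [map_sum]
  refine Finset.sum_congr rfl fun i _ => ?_
  rw [map_smul]
  rfl

theorem brb_expand4 (T : E n → E n → E n → E n → ℝ)
    (h1 : ∀ b c d, IsLinearMap ℝ (fun a => T a b c d))
    (h2 : ∀ a c d, IsLinearMap ℝ (fun b => T a b c d))
    (h3 : ∀ a b d, IsLinearMap ℝ (fun c => T a b c d))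
    (h4 : ∀ a b c, IsLinearMap ℝ (fun d => T a b c d)) (a b c d : E n) :
    T a b c d = ∑ i, ∑ j, ∑ k, ∑ l,
      (a i * b j) * (c k * d l) * T (brb_e i) (brb_e j) (brb_e k) (brb_e l) := by
  rw [brb_lin (h1 b c d) a]
  refine Finset.sum_congr rfl fun i _ => ?_
  rw [brb_lin (h2 (brb_e i) c d) b, Finset.mul_sum]
  refine Finset.sum_congr rfl fun j _ => ?_
  rw [brb_lin (h3 (brb_e i) (brb_e j) d) c, Finset.mul_sum, Finset.mul_sum]
  refine Finset.sum_congr rfl fun k _ => ?_
  rw [brb_lin (h4 (brb_e i) (brb_e j) (brb_e k)) d, Finset.mul_sum, Finset.mul_sum,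
    Finset.mul_sum]
  refine Finset.sum_congr rfl fun l _ => ?_
  ring

theorem brb_pull {m : ℕ} (f : Fin n → Fin n → Fin n → Fin n → Fin m → ℝ) :
    ∑ i, ∑ j, ∑ k, ∑ l, ∑ a, f i j k l a = ∑ a, ∑ i, ∑ j, ∑ k, ∑ l, f i j k l a := by
  calc ∑ i, ∑ j, ∑ k, ∑ l, ∑ a, f i j k l a
      = ∑ i, ∑ j, ∑ k, ∑ a, ∑ l, f i j k l a :=
        Finset.sum_congr rfl fun i _ => Finset.sum_congr rfl fun j _ =>
          Finset.sum_congr rfl fun k _ => Finset.sum_comm
    _ = ∑ i, ∑ j, ∑ a, ∑ k, ∑ l, f i j k l a :=
        Finset.sum_congr rfl fun i _ => Finset.sum_congr rfl fun j _ => Finset.sum_comm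
    _ = ∑ i, ∑ a, ∑ j, ∑ k, ∑ l, f i j k l a :=
        Finset.sum_congr rfl fun i _ => Finset.sum_comm
    _ = ∑ a, ∑ i, ∑ j, ∑ k, ∑ l, f i j k l a := Finset.sum_comm

/-- the sum over a bivector `ξ = ∑ u_a ∧ v_a` -/
theorem brb_xi {m : ℕ} (u v : Fin m → E n) (T : E n → E n → E n → E n → ℝ)
    (h1 : ∀ b c d, IsLinearMap ℝ (fun a => T a b c d))
    (h2 : ∀ a c d, IsLinearMap ℝ (fun b => T a b c d))
    (h3 : ∀ a b d, IsLinearMap ℝ (fun c => T a b c d))
    (h4 : ∀ a b c, IsLinearMap ℝ (fun d => T a b c d)) :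
    ∑ i, ∑ j, ∑ k, ∑ l, (∑ a, u a i * v a j) * (∑ b, u b k * v b l) *
      T (brb_e i) (brb_e j) (brb_e k) (brb_e l) = ∑ a, ∑ b, T (u a) (v a) (u b) (v b) := by
  calc ∑ i, ∑ j, ∑ k, ∑ l, (∑ a, u a i * v a j) * (∑ b, u b k * v b l) *
      T (brb_e i) (brb_e j) (brb_e k) (brb_e l)
      = ∑ i, ∑ j, ∑ k, ∑ l, ∑ a, ∑ b, (u a i * v a j) * (u b k * v b l) *
      T (brb_e i) (brb_e j) (brb_e k) (brb_e l) := by
        refine Finset.sum_congr rfl fun i _ => Finset.sum_congr rfl fun j _ =>
          Finset.sum_congr rfl fun k _ => Finset.sum_congr rfl fun l _ => ?_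
        rw [Finset.sum_mul_sum, Finset.sum_mul]
        refine Finset.sum_congr rfl fun a _ => ?_
        rw [Finset.sum_mul]
    _ = ∑ a, ∑ i, ∑ j, ∑ k, ∑ l, ∑ b, (u a i * v a j) * (u b k * v b l) *
      T (brb_e i) (brb_e j) (brb_e k) (brb_e l) := brb_pull _
    _ = ∑ a, ∑ b, ∑ i, ∑ j, ∑ k, ∑ l, (u a i * v a j) * (u b k * v b l) *
      T (brb_e i) (brb_e j) (brb_e k) (brb_e l) :=
        Finset.sum_congr rfl fun a _ => brb_pull _
    _ = ∑ a, ∑ b, T (u a) (v a) (u b) (v b) := by
        refine Finset.sum_congr rfl fun a _ => Finset.sum_congr rfl fun b _ => ?_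
        exact (brb_expand4 T h1 h2 h3 h4 (u a) (v a) (u b) (v b)).symm

section

variable {G : Coef n} {g : E n → Fin n → Fin n → ℝ}

theorem brb_g (h : SameCoef G g) (y : E n) (i j : Fin n) :
    G y (brb_e i) (brb_e j) = g y i j := by
  rw [h y]
  simp [brb_e, Pi.single_apply]

theorem brb_pd (h : SameCoef G g) {y : E n} (hG : DifferentiableAt ℝ G y) (i j k : Fin n) :
    ANCOS.pd i (fun z => g z j k) y = fderiv ℝ G y (brb_e i) (brb_e j) (brb_e k) := by
  have h1 : (fun z => g z j k) = fun z => G z (brb_e j) (brb_e k) := by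
    funext z
    rw [brb_g h]
  unfold ANCOS.pd
  rw [h1]
  exact chr_fderiv_apply hG _ _ _

theorem brb_chris {U : Set (E n)} (hG : IsMet G U) (h : SameCoef G g) {y : E n} (hy : y ∈ U)
    (k i j : Fin n) : ANCOS.chris g k i j y = (christ G y (brb_e i) (brb_e j)) k := by
  have hd : DifferentiableAt ℝ G y := chr_differentiableAt hG hy
  set c : Fin n → ℝ := fun k => (christ G y (brb_e i) (brb_e j)) k with hc
  set A : Matrix (Fin n) (Fin n) ℝ := Matrix.of (g y) with hA
  have hinj : Function.Injective A.mulVec := by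
    intro a b hab
    by_contra hne
    have h0 : A.mulVec (a - b) = 0 := by
      rw [Matrix.mulVec_sub, hab, sub_self]
    have hne' : (WithLp.toLp 2 (a - b) : E n) ≠ 0 := by
      intro h1
      apply hne
      have : a - b = 0 := by
        funext t
        have := congrArg (fun z : E n => z t) h1
        simpa using this
      exact sub_eq_zero.1 this
    have hp := hG.pos y hy _ hne'
    rw [h y] at hp
    have h2 : ∀ s, ∑ t, g y s t * (a - b) t = 0 := by
      intro s
      have := congrFun h0 s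
      simpa [Matrix.mulVec, dotProduct, hA] using this
    have h3 : ∑ s, ∑ t, g y s t * (WithLp.toLp 2 (a - b) : E n) s *
        (WithLp.toLp 2 (a - b) : E n) t = ∑ s, (a - b) s * ∑ t, g y s t * (a - b) t := by
      refine Finset.sum_congr rfl fun s _ => ?_
      rw [Finset.mul_sum]
      refine Finset.sum_congr rfl fun t _ => ?_
      show g y s t * (a - b) s * (a - b) t = (a - b) s * (g y s t * (a - b) t)
      ring
    rw [h3] at hp
    simp only [h2, mul_zero, Finset.sum_const_zero] at hp
    exact lt_irrefl _ hp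
  have hunit : IsUnit A := Matrix.mulVec_injective_iff_isUnit.1 hinj
  have hdet : IsUnit A.det := (Matrix.isUnit_iff_isUnit_det A).1 hunit
  have hK : A.mulVec c = fun l => (1 / 2) * (ANCOS.pd i (fun z => g z j l) y +
      ANCOS.pd j (fun z => g z i l) y - ANCOS.pd l (fun z => g z i j) y) := by
    funext l
    have hs := christ_spec hG hy (brb_e i) (brb_e j) (brb_e l)
    rw [brb_pd h hd, brb_pd h hd, brb_pd h hd, ← hs, hG.symm y hy]
    have hL : IsLinearMap ℝ (fun w => G y (brb_e l) w) :=
      ⟨fun a b => by simp, fun r a => by simp⟩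
    rw [brb_lin hL (christ G y (brb_e i) (brb_e j))]
    show ∑ t, A l t * c t = _
    refine Finset.sum_congr rfl fun t _ => ?_
    show g y l t * c t = c t * G y (brb_e l) (brb_e t)
    rw [brb_g h]
    ring
  have hc' : c = (A⁻¹).mulVec (A.mulVec c) := by
    rw [Matrix.mulVec_mulVec, Matrix.nonsing_inv_mul A hdet, Matrix.one_mulVec]
  have hck : (christ G y (brb_e i) (brb_e j)) k = (A⁻¹).mulVec (A.mulVec c) k := by
    rw [← hc']
  rw [hck, hK]
  unfold ANCOS.chris
  rw [Finset.mul_sum]
  show _ = ∑ l, A⁻¹ k l * ((1 / 2) * (ANCOS.pd i (fun z => g z j l) y +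
      ANCOS.pd j (fun z => g z i l) y - ANCOS.pd l (fun z => g z i j) y))
  refine Finset.sum_congr rfl fun l _ => ?_
  ring

theorem brb_pd_chris {U : Set (E n)} (hG : IsMet G U) (h : SameCoef G g) {y : E n} (hy : y ∈ U)
    (i l j k : Fin n) : ANCOS.pd i (ANCOS.chris g l j k) y =
      (fderiv ℝ (christ G) y (brb_e i) (brb_e j) (brb_e k)) l := by
  have hd : DifferentiableAt ℝ (christ G) y :=
    ((christ_smooth hG).contDiffAt (hG.isOpen.mem_nhds hy)).differentiableAt (by simp)
  have h1 : ANCOS.chris g l j k =ᶠ[𝓝 y] fun z => (christ G z (brb_e j) (brb_e k)) l := by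
    filter_upwards [hG.isOpen.mem_nhds hy] with z hz
    exact brb_chris hG h hz l j k
  unfold ANCOS.pd
  rw [h1.fderiv_eq]
  have h2 : HasFDerivAt (fun z => christ G z (brb_e j) (brb_e k))
      ((((fderiv ℝ (christ G) y).flip (brb_e j)).flip (brb_e k))) y := by
    have h3 := (hd.hasFDerivAt.clm_apply (hasFDerivAt_const (brb_e j) y)).clm_apply
      (hasFDerivAt_const (brb_e k) y)
    refine h3.congr_fderiv ?_
    ext w
    simp
  have h4 : HasFDerivAt (fun z => (christ G z (brb_e j) (brb_e k)) l)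
      ((EuclideanSpace.proj l : E n →L[ℝ] ℝ) ∘L
        (((fderiv ℝ (christ G) y).flip (brb_e j)).flip (brb_e k))) y :=
    ((EuclideanSpace.proj l : E n →L[ℝ] ℝ).hasFDerivAt).comp y h2
  rw [h4.fderiv]
  rfl

theorem brb_riemUp {U : Set (E n)} (hG : IsMet G U) (h : SameCoef G g) {y : E n} (hy : y ∈ U)
    (l i j k : Fin n) : ANCOS.riemUp g l i j k y =
      (riem G y (brb_e i) (brb_e j) (brb_e k)) l := by
  have hq : ∀ i j k : Fin n, (christ G y (brb_e i) (christ G y (brb_e j) (brb_e k))) l =
      ∑ m, ANCOS.chris g l i m y * ANCOS.chris g m j k y := by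
    intro i j k
    have hL : IsLinearMap ℝ (fun w => (christ G y (brb_e i) w) l) :=
      ⟨fun a b => by simp, fun r a => by simp⟩
    rw [brb_lin hL (christ G y (brb_e j) (brb_e k))]
    refine Finset.sum_congr rfl fun m _ => ?_
    show (christ G y (brb_e j) (brb_e k)) m * (christ G y (brb_e i) (brb_e m)) l = _
    rw [← brb_chris hG h hy, ← brb_chris hG h hy]
    ring
  unfold ANCOS.riemUp riem
  rw [brb_pd_chris hG h hy, brb_pd_chris hG h hy, Finset.sum_sub_distrib, ← hq i j k, ← hq j i k]
  show _ = ((fderiv ℝ (christ G) y (brb_e i) (brb_e j) (brb_e k)) l -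
    (fderiv ℝ (christ G) y (brb_e j) (brb_e i) (brb_e k)) l +
    (christ G y (brb_e i) (christ G y (brb_e j) (brb_e k))) l -
    (christ G y (brb_e j) (christ G y (brb_e i) (brb_e k))) l)
  ring

theorem brb_riem {U : Set (E n)} (hG : IsMet G U) (h : SameCoef G g) {y : E n} (hy : y ∈ U)
    (i j k l : Fin n) : ANCOS.riem g i j k l y =
      rm G y (brb_e i) (brb_e j) (brb_e k) (brb_e l) := by
  unfold ANCOS.riem rm
  rw [hG.symm y hy]
  have hL : IsLinearMap ℝ (fun w => G y (brb_e l) w) :=
    ⟨fun a b => by simp, fun r a => by simp⟩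
  rw [brb_lin hL (riem G y (brb_e i) (brb_e j) (brb_e k))]
  refine Finset.sum_congr rfl fun m _ => ?_
  show _ = (riem G y (brb_e i) (brb_e j) (brb_e k)) m * G y (brb_e l) (brb_e m)
  rw [brb_riemUp hG h hy, brb_g h]
  ring

end

theorem brb_curv {G : Coef n} {U : Set (E n)} (hG : IsMet G U) {g : E n → Fin n → Fin n → ℝ}
    (h : SameCoef G g) {κ : ℝ} {y : E n} (hy : y ∈ U) (hc : ANCOS.CurvGE g κ y) :
    CurvOpGE G κ y := by
  intro m u v
  have hx := hc (fun i j => ∑ a, u a i * v a j)
  have e1 := brb_xi u v (fun a b c d => G y a c * G y b d - G y a d * G y b c)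
    (fun b c d => ⟨fun p q => by simp only [map_add, add_apply]; ring,
      fun r p => by simp only [map_smul, smul_apply, smul_eq_mul]; ring⟩)
    (fun a c d => ⟨fun p q => by simp only [map_add, add_apply]; ring,
      fun r p => by simp only [map_smul, smul_apply, smul_eq_mul]; ring⟩)
    (fun a b d => ⟨fun p q => by simp only [map_add, add_apply]; ring,
      fun r p => by simp only [map_smul, smul_apply, smul_eq_mul]; ring⟩)
    (fun a b c => ⟨fun p q => by simp only [map_add, add_apply]; ring,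
      fun r p => by simp only [map_smul, smul_apply, smul_eq_mul]; ring⟩)
  have e2 := brb_xi u v (fun a b c d => rm G y a b d c)
    (fun b c d => ⟨fun p q => by
        simp only [rm, riem, map_add, add_apply, sub_apply,
          ContinuousLinearMap.comp_apply, map_sub]; ring,
      fun r p => by
        simp only [rm, riem, map_smul, smul_apply, smul_eq_mul, map_add,
          add_apply, sub_apply,
          ContinuousLinearMap.comp_apply, map_sub]; ring⟩)
    (fun a c d => ⟨fun p q => by
        simp only [rm, riem, map_add, add_apply, sub_apply,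
          ContinuousLinearMap.comp_apply, map_sub]; ring,
      fun r p => by
        simp only [rm, riem, map_smul, smul_apply, smul_eq_mul, map_add,
          add_apply, sub_apply,
          ContinuousLinearMap.comp_apply, map_sub]; ring⟩)
    (fun a b d => ⟨fun p q => by
        simp only [rm, riem, map_add, add_apply, sub_apply,
          ContinuousLinearMap.comp_apply, map_sub],
      fun r p => by
        simp only [rm, riem, map_smul, smul_apply, smul_eq_mul, map_add,
          add_apply, sub_apply,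
          ContinuousLinearMap.comp_apply, map_sub]⟩)
    (fun a b c => ⟨fun p q => by
        simp only [rm, riem, map_add, add_apply, sub_apply,
          ContinuousLinearMap.comp_apply, map_sub],
      fun r p => by
        simp only [rm, riem, map_smul, smul_apply, smul_eq_mul, map_add,
          add_apply, sub_apply,
          ContinuousLinearMap.comp_apply, map_sub]⟩)
  simp only [brb_g h] at e1
  simp only [← brb_riem hG h hy] at e2
  rw [e1, e2] at hx
  exact hx

end ANCO
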