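import Pool.Agent.Helper39.Anco.Geo
import Pool.Agent.Helper39.Anco.Stmt
import Pool.Agent.Helper39.Anco.BrDefs

/-! ANCO bridge, module BRC: speed in coordinates and diameter. -/

open scoped ContDiff Topology Manifold InnerProductSpace
open Set MeasureTheory Filter

set_option maxSynthPendingDepth 3

noncomputable section
namespace ANCO

variable {n : ℕ} {M : Type} [TopologicalSpace M] [ChartedSpace (E n) M]

/-- a `C^1` curve is differentiable in every chart -/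
theorem brc_diff [IsManifold (𝓡 n) ∞ M] {γ : ℝ → M} (hγ : ContMDiff 𝓘(ℝ, ℝ) (𝓡 n) 1 γ)
    {x : M} {t : ℝ} (ht : γ t ∈ (chartAt (E n) x).source) :
    DifferentiableAt ℝ (fun s => chartAt (E n) x (γ s)) t := by
  have : IsManifold (𝓡 n) 1 M := IsManifold.of_le (n := ∞) (by simp)
  have h1 : ContMDiffOn (𝓡 n) (𝓡 n) 1 (chartAt (E n) x) (chartAt (E n) x).source :=
    contMDiffOn_chart
  have h2 : ContMDiffOn 𝓘(ℝ, ℝ) (𝓡 n) 1 ((chartAt (E n) x) ∘ γ)
      (γ ⁻¹' (chartAt (E n) x).source) :=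
    h1.comp hγ.contMDiffOn (fun s hs => hs)
  have h3 : ContDiffOn ℝ 1 (fun s => chartAt (E n) x (γ s)) (γ ⁻¹' (chartAt (E n) x).source) :=
    contMDiffOn_iff_contDiffOn.1 h2
  have h4 : IsOpen (γ ⁻¹' (chartAt (E n) x).source) :=
    (chartAt (E n) x).open_source.preimage hγ.continuous
  exact (h3.contDiffAt (h4.mem_nhds ht)).differentiableAt (by simp)

theorem brc_speed [IsManifold (𝓡 n) ∞ M] {G : RMetric n M} {g : ANCOS.Metric n M}
    (h : ∀ x, SameCoef (G.g x) (g.g x)) {γ : ℝ → M} (hγ : ContMDiff 𝓘(ℝ, ℝ) (𝓡 n) 1 γ)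
    (t : ℝ) : speed G γ t = ANCOS.speed g γ t := by
  have hd := brc_diff hγ (x := γ t) (t := t) (mem_chart_source (E n) (γ t))
  have hc : ∀ i, deriv (fun s => chartAt (EuclideanSpace ℝ (Fin n)) (γ t) (γ s) i) t =
      (deriv (fun s => chartAt (E n) (γ t) (γ s)) t) i := by
    intro i
    have h1 : HasDerivAt (fun s => chartAt (E n) (γ t) (γ s) i)
        ((EuclideanSpace.proj i : E n →L[ℝ] ℝ) (deriv (fun s => chartAt (E n) (γ t) (γ s)) t)) t :=
      ((EuclideanSpace.proj i : E n →L[ℝ] ℝ).hasFDerivAt).comp_hasDerivAt t hd.hasDerivAt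
    exact h1.deriv
  unfold speed ANCOS.speed
  rw [h (γ t)]
  simp only [hc]

theorem brc_diam [IsManifold (𝓡 n) ∞ M] {G : RMetric n M} {g : ANCOS.Metric n M}
    (h : ∀ x, SameCoef (G.g x) (g.g x)) {D : ℝ} (hD : ANCOS.DiamLE g D) : DiamLE G D := by
  intro p q r hr
  obtain ⟨γ, hγ, h0, h1, hl⟩ := hD p q r hr
  refine ⟨γ, hγ, h0, h1, ?_⟩
  have : speed G γ = ANCOS.speed g γ := funext (brc_speed h hγ)
  rw [this]
  exact hl

end ANCO
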