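import Pool.Agent.Helper39.Anco.Tr
import Pool.Agent.Helper39.Anco.Stmt

/-!
# Bridge: Betti numbers in components
-/

open scoped ContDiff Topology Manifold InnerProductSpace
open Set MeasureTheory Filter

set_option maxSynthPendingDepth 3

noncomputable section
namespace ANCO

variable {n : ℕ} {M : Type} [TopologicalSpace M] [ChartedSpace (E n) M]

/-- the components of an alternating form -/
def brdC {p : ℕ} (w : Alt n p) (I : Fin p → Fin n) : ℝ :=
  w (fun a => EuclideanSpace.single (I a) (1 : ℝ))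

theorem brd_ext {p : ℕ} {w v : Alt n p} (h : ∀ I, brdC w I = brdC v I) : w = v := by
  apply ContinuousAlternatingMap.toAlternatingMap_injective
  apply AlternatingMap.coe_multilinearMap_injective
  refine Module.Basis.ext_multilinear (fun _ => (EuclideanSpace.basisFun (Fin n) ℝ).toBasis) ?_
  intro I
  have h1 := h I
  unfold brdC at h1
  simpa using h1

/-- the elementary forms -/
def brdB {p : ℕ} (I : Fin p → Fin n) : Alt n p :=
  ((p.factorial : ℝ)⁻¹) • ContinuousMultilinearMap.alternatization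
    ((ContinuousMultilinearMap.mkPiAlgebra ℝ (Fin p) ℝ).compContinuousLinearMap
      fun a => EuclideanSpace.proj (I a))

theorem brdB_apply {p : ℕ} (I J : Fin p → Fin n) : brdC (brdB I) J =
    (p.factorial : ℝ)⁻¹ * ∑ σ : Equiv.Perm (Fin p), ((Equiv.Perm.sign σ : ℤ) : ℝ) *
      (if I = fun a => J (σ a) then (1 : ℝ) else 0) := by
  unfold brdC brdB
  rw [ContinuousAlternatingMap.smul_apply, ContinuousMultilinearMap.alternatization_apply_apply,
    smul_eq_mul]
  congr 1
  refine Finset.sum_congr rfl fun σ _ => ?_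
  have h1 : ((ContinuousMultilinearMap.mkPiAlgebra ℝ (Fin p) ℝ).compContinuousLinearMap
      (fun a => (EuclideanSpace.proj (I a) : E n →L[ℝ] ℝ)))
        ((fun a => EuclideanSpace.single (J a) (1 : ℝ)) ∘ σ) =
      if I = fun a => J (σ a) then 1 else 0 := by
    change ∏ a, (EuclideanSpace.single (J (σ a)) (1 : ℝ) : E n) (I a) = _
    by_cases hI : I = fun a => J (σ a)
    · subst hI
      simp
    · rw [if_neg hI]
      have : ∃ a, I a ≠ J (σ a) := by
        by_contra hc
        push Not at hc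
        exact hI (funext hc)
      obtain ⟨a, ha⟩ := this
      exact Finset.prod_eq_zero (Finset.mem_univ a) (by simp [ha])
  rw [h1]
  rw [Units.smul_def, zsmul_eq_mul]

/-- the form with given components -/
def brdF {p : ℕ} (f : (Fin p → Fin n) → ℝ) : Alt n p := ∑ I, f I • brdB I

theorem brdF_apply {p : ℕ} {f : (Fin p → Fin n) → ℝ}
    (hf : ∀ I, ∀ σ : Equiv.Perm (Fin p), f (fun a => I (σ a)) = (Equiv.Perm.sign σ : ℤ) * f I)
    (J : Fin p → Fin n) : brdC (brdF f) J = f J := by
  have h1 : brdC (brdF f) J = ∑ I, f I * brdC (brdB I) J := by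
    unfold brdF brdC
    rw [ContinuousAlternatingMap.sum_apply]
    rfl
  rw [h1]
  simp only [brdB_apply]
  have h2 : ∀ I : Fin p → Fin n, f I * ((p.factorial : ℝ)⁻¹ * ∑ σ : Equiv.Perm (Fin p),
      ((Equiv.Perm.sign σ : ℤ) : ℝ) * (if I = fun a => J (σ a) then (1 : ℝ) else 0)) =
      (p.factorial : ℝ)⁻¹ * ∑ σ : Equiv.Perm (Fin p),
      ((Equiv.Perm.sign σ : ℤ) : ℝ) * (if I = fun a => J (σ a) then f I else 0) := by
    intro I
    rw [mul_left_comm, Finset.mul_sum]
    congr 1
    refine Finset.sum_congr rfl fun σ _ => ?_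
    split_ifs <;> ring
  simp only [h2]
  rw [← Finset.mul_sum, Finset.sum_comm]
  have h3 : ∀ σ : Equiv.Perm (Fin p), ∑ I : Fin p → Fin n,
      ((Equiv.Perm.sign σ : ℤ) : ℝ) * (if I = fun a => J (σ a) then f I else 0) = f J := by
    intro σ
    rw [← Finset.mul_sum, Finset.sum_ite_eq' Finset.univ (fun a => J (σ a)) f, if_pos
      (Finset.mem_univ _), hf, ← mul_assoc, ← Int.cast_mul, ← Units.val_mul, Int.units_mul_self]
    simp
  simp only [h3]
  rw [Finset.sum_const, Finset.card_univ, Fintype.card_perm, Fintype.card_fin, nsmul_eq_mul,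
    ← mul_assoc, inv_mul_cancel₀ (by exact_mod_cast p.factorial_ne_zero), one_mul]

theorem brdC_perm {p : ℕ} (w : Alt n p) (I : Fin p → Fin n) (σ : Equiv.Perm (Fin p)) :
    brdC w (fun a => I (σ a)) = (Equiv.Perm.sign σ : ℤ) * brdC w I := by
  unfold brdC
  have h := w.toAlternatingMap.map_perm (fun a => EuclideanSpace.single (I a) (1 : ℝ)) σ
  have h2 : w ((fun a => EuclideanSpace.single (I a) (1 : ℝ)) ∘ σ) =
    Equiv.Perm.sign σ • w (fun a => EuclideanSpace.single (I a) (1 : ℝ)) := h
  rw [Units.smul_def, zsmul_eq_mul] at h2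
  exact h2

theorem brdC_pull {p : ℕ} (w : Alt n p) (A : E n →L[ℝ] E n) (I : Fin p → Fin n) :
    brdC (w.compContinuousLinearMap A) I = ∑ J : Fin p → Fin n, brdC w J *
      ∏ a, (A (EuclideanSpace.single (I a) (1 : ℝ))) (J a) := by
  have h1 : brdC (w.compContinuousLinearMap A) I =
      w (fun a => A (EuclideanSpace.single (I a) (1 : ℝ))) := rfl
  have h2 : ∀ u : E n, u = ∑ j, u j • (EuclideanSpace.single j (1 : ℝ) : E n) := by
    intro u
    ext j
    simp [Finset.sum_apply, Pi.single_apply]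
  rw [h1]
  have h3 : (fun a => A (EuclideanSpace.single (I a) (1 : ℝ))) = fun a =>
      ∑ j, (A (EuclideanSpace.single (I a) (1 : ℝ))) j • (EuclideanSpace.single j (1 : ℝ) : E n) := by
    funext a
    exact h2 _
  rw [h3]
  have h4 := w.toContinuousMultilinearMap.toMultilinearMap.map_sum (α := fun _ => Fin n)
    (fun a j => (A (EuclideanSpace.single (I a) (1 : ℝ))) j •
      (EuclideanSpace.single j (1 : ℝ) : E n))
  refine h4.trans ?_
  refine Finset.sum_congr rfl fun J _ => ?_
  have h5 := w.toContinuousMultilinearMap.toMultilinearMap.map_smul_univ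
    (fun a => (A (EuclideanSpace.single (I a) (1 : ℝ))) (J a))
    (fun a => (EuclideanSpace.single (J a) (1 : ℝ) : E n))
  refine h5.trans ?_
  rw [smul_eq_mul, mul_comm]
  rfl

/-- components of a family -/
def brdT {p : ℕ} (w : M → E n → Alt n p) : M → E n → (Fin p → Fin n) → ℝ :=
  fun x y I => brdC (w x y) I

/-- family with given components -/
def brdG {p : ℕ} (f : M → E n → (Fin p → Fin n) → ℝ) : M → E n → Alt n p :=
  fun x y => brdF (f x y)

theorem brd_pd [IsManifold (𝓡 n) ∞ M] {x x' : M} {y : E n} (hy : y ∈ (tr n M x x').source)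
    (i k : Fin n) : ANCOS.pd i (fun z => ANCOS.trans x x' z k) y =
      (fderiv ℝ (tr n M x x') y (EuclideanSpace.single i (1 : ℝ))) k := by
  unfold ANCOS.pd
  have h1 := (EuclideanSpace.proj (𝕜 := ℝ) (ι := Fin n) k :
    E n →L[ℝ] ℝ).hasFDerivAt.comp y (tr_differentiableAt_aux hy).hasFDerivAt
  have h2 : (fun z => ANCOS.trans x x' z k) =
      (EuclideanSpace.proj (𝕜 := ℝ) (ι := Fin n) k : E n →L[ℝ] ℝ) ∘ (tr n M x x') := rfl
  rw [h2, h1.fderiv]
  rfl

theorem brd_isForm [IsManifold (𝓡 n) ∞ M] {p : ℕ} (w : DForm n M p) :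
    ANCOS.IsForm p (brdT w.1) := by
  obtain ⟨w, h1, h2, h3⟩ := w
  refine ⟨fun x y hy I => ?_, fun x I => ?_, fun x y I σ => ?_, fun x x' y hy I => ?_⟩
  · change brdC (w x y) I = 0
    rw [h1 x y hy]
    rfl
  · exact (ContinuousAlternatingMap.apply ℝ (E n) ℝ
      (fun a => EuclideanSpace.single (I a) (1 : ℝ))).contDiff.comp_contDiffOn (h2 x)
  · exact brdC_perm _ _ _
  · have hy' : y ∈ (tr n M x x').source := mem_tr_source.2 hy
    change brdC (w x y) I = _
    rw [h3 x x' y hy', brdC_pull]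
    refine Finset.sum_congr rfl fun J _ => ?_
    congr 1
    refine Finset.prod_congr rfl fun a _ => ?_
    rw [brd_pd hy']

theorem brd_mem [IsManifold (𝓡 n) ∞ M] {p : ℕ} {f : M → E n → (Fin p → Fin n) → ℝ}
    (hf : ANCOS.IsForm p f) : brdG f ∈ DForm n M p := by
  obtain ⟨h1, h2, h3, h4⟩ := hf
  refine ⟨fun x y hy => ?_, fun x => ?_, fun x x' y hy => ?_⟩
  · change brdF (f x y) = 0
    unfold brdF
    refine Finset.sum_eq_zero fun I _ => ?_
    rw [h1 x y hy I, zero_smul]
  · change ContDiffOn ℝ ∞ (fun y => ∑ I, f x y I • brdB I) _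
    exact ContDiffOn.sum fun I _ => (h2 x I).smul contDiffOn_const
  · apply brd_ext
    intro I
    change brdC (brdF (f x y)) I = brdC ((brdF (f x' (tr n M x x' y))).compContinuousLinearMap _) I
    rw [brdF_apply (h3 x y), brdC_pull, h4 x x' y (mem_tr_source.1 hy) I]
    refine Finset.sum_congr rfl fun J _ => ?_
    rw [brdF_apply (h3 x' _)]
    congr 1
    refine Finset.prod_congr rfl fun a _ => ?_
    rw [brd_pd hy]

theorem brd_TG {p : ℕ} {f : M → E n → (Fin p → Fin n) → ℝ}
    (hf : ANCOS.IsForm p f) : brdT (brdG f) = f := by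
  funext x y I
  exact brdF_apply (hf.2.2.1 x y) I

theorem brd_dd {p : ℕ} (w : DForm n M p) {x : M} {y : E n} (hy : y ∈ tgt n M x)
    (I : Fin (p + 1) → Fin n) : ANCOS.dd (brdT w.1 x) y I = brdC (extDeriv (w.1 x) y) I := by
  have hd : DifferentiableAt ℝ (w.1 x) y :=
    ((w.2.2.1 x).contDiffAt ((chartAt (E n) x).open_target.mem_nhds hy)).differentiableAt
      (by simp)
  unfold ANCOS.dd
  change _ = extDeriv (w.1 x) y (fun a => EuclideanSpace.single (I a) (1 : ℝ))
  rw [extDeriv_apply hd]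
  refine Finset.sum_congr rfl fun k _ => ?_
  rw [zsmul_eq_mul]
  push_cast
  rfl

theorem brd_closed [IsManifold (𝓡 n) ∞ M] {p : ℕ} (w : DForm n M p) :
    ANCOS.IsClosedForm p (brdT w.1) ↔ w ∈ closedForms n M p := by
  constructor
  · rintro ⟨-, h⟩ x y hy
    apply brd_ext
    intro I
    rw [← brd_dd w hy, h x y hy I]
    rfl
  · intro h
    refine ⟨brd_isForm w, fun x y hy I => ?_⟩
    rw [brd_dd w hy, h x y hy]
    rfl

theorem brd_exact [IsManifold (𝓡 n) ∞ M] {p : ℕ} (w : DForm n M p) :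
    ANCOS.IsExactForm p (brdT w.1) ↔ w ∈ exactForms n M p := by
  cases p with
  | zero =>
    constructor
    · intro h
      have : w = 0 := by
        apply Subtype.ext
        funext x y
        apply brd_ext
        intro I
        exact h x y I
      rw [this]
      exact Submodule.zero_mem _
    · intro h x y I
      have h0 : w = 0 := h
      rw [h0]
      rfl
  | succ p =>
    constructor
    · rintro ⟨η, hη, h⟩
      refine ⟨⟨brdG η, brd_mem hη⟩, fun x y hy => ?_⟩
      apply brd_ext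
      intro I
      rw [← brd_dd ⟨brdG η, brd_mem hη⟩ hy, brd_TG hη, ← h x y hy I]
      rfl
    · rintro ⟨η, h⟩
      refine ⟨brdT η.1, brd_isForm η, fun x y hy I => ?_⟩
      rw [brd_dd η hy, ← h x y hy]
      rfl

/-- linear independence modulo a subspace -/
theorem brd_li {V : Type} [AddCommGroup V] [Module ℝ V] (C B : Submodule ℝ V) (k : ℕ) :
    (∃ v : Fin k → C ⧸ B.submoduleOf C, LinearIndependent ℝ v) ↔
      ∃ w : Fin k → V, (∀ a, w a ∈ C) ∧ ∀ c : Fin k → ℝ, ∑ a, c a • w a ∈ B → ∀ a, c a = 0 := by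
  constructor
  · rintro ⟨v, hv⟩
    choose u hu using fun a => Submodule.Quotient.mk_surjective (B.submoduleOf C) (v a)
    refine ⟨fun a => (u a).1, fun a => (u a).2, fun c hc => ?_⟩
    refine Fintype.linearIndependent_iff.1 hv c ?_
    have h1 : ∑ a, c a • v a = Submodule.Quotient.mk (p := B.submoduleOf C) (∑ a, c a • u a) := by
      have := map_sum (Submodule.mkQ (B.submoduleOf C)) (fun a => c a • u a) Finset.univ
      simp only [map_smul, Submodule.mkQ_apply] at this
      rw [this]
      refine Finset.sum_congr rfl fun a _ => ?_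
      rw [hu a]
    rw [h1, Submodule.Quotient.mk_eq_zero]
    change ((∑ a, c a • u a : C) : V) ∈ B
    simpa using hc
  · rintro ⟨w, hw, h⟩
    refine ⟨fun a => Submodule.Quotient.mk ⟨w a, hw a⟩, ?_⟩
    rw [Fintype.linearIndependent_iff]
    intro c hc
    apply h
    have h1 : ∑ a, c a • (Submodule.Quotient.mk ⟨w a, hw a⟩ : C ⧸ B.submoduleOf C) =
        Submodule.Quotient.mk (p := B.submoduleOf C) (∑ a, c a • (⟨w a, hw a⟩ : C)) := by
      have := map_sum (Submodule.mkQ (B.submoduleOf C)) (fun a => c a • (⟨w a, hw a⟩ : C))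
        Finset.univ
      simp only [map_smul, Submodule.mkQ_apply] at this
      rw [this]
    rw [h1, Submodule.Quotient.mk_eq_zero] at hc
    have h2 : ((∑ a, c a • (⟨w a, hw a⟩ : C) : C) : V) ∈ B := hc
    simpa using h2

theorem brd_sup {Q : Type} [AddCommGroup Q] [Module ℝ Q] :
    sSup {k : ℕ | ∃ v : Fin k → Q, LinearIndependent ℝ v} = Module.finrank ℝ Q := by
  by_cases hf : FiniteDimensional ℝ Q
  · apply le_antisymm
    · refine csSup_le ⟨0, fun i => i.elim0, linearIndependent_empty_type⟩ ?_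
      rintro k ⟨v, hv⟩
      simpa using hv.fintype_card_le_finrank
    · refine le_csSup ⟨Module.finrank ℝ Q, ?_⟩ ⟨Module.finBasis ℝ Q,
        (Module.finBasis ℝ Q).linearIndependent⟩
      rintro k ⟨v, hv⟩
      simpa using hv.fintype_card_le_finrank
  · rw [Module.finrank_of_not_finite hf]
    apply Nat.sSup_of_not_bddAbove
    rintro ⟨K, hK⟩
    have h1 : (K + 1 : ℕ) ≤ Module.rank ℝ Q := by
      have h2 : Cardinal.aleph0 ≤ Module.rank ℝ Q := by
        by_contra hlt
        push Not at hlt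
        exact hf (Module.rank_lt_aleph0_iff.1 hlt)
      exact (Cardinal.natCast_lt_aleph0).le.trans h2
    obtain ⟨s, hs, hli⟩ := le_rank_iff_exists_linearIndependent_finset.1 h1
    have h3 : K + 1 ∈ {k : ℕ | ∃ v : Fin k → Q, LinearIndependent ℝ v} := by
      refine ⟨fun i => ((s.equivFinOfCardEq hs).symm i : Q), ?_⟩
      exact hli.comp _ (s.equivFinOfCardEq hs).symm.injective
    have := hK h3
    omega

/-- components are linear -/
def brdL (n : ℕ) (M : Type) [TopologicalSpace M] [ChartedSpace (E n) M] {p : ℕ} (x : M) (y : E n)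
    (I : Fin p → Fin n) : DForm n M p →ₗ[ℝ] ℝ where
  toFun w := brdC (w.1 x y) I
  map_add' _ _ := rfl
  map_smul' _ _ := rfl

theorem brdT_sum {p k : ℕ} (c : Fin k → ℝ) (W : Fin k → DForm n M p) :
    brdT (∑ a, c a • W a : DForm n M p).1 = fun x y I => ∑ a, c a * brdT (W a).1 x y I := by
  funext x y I
  have h := map_sum (brdL n M x y I) (fun a => c a • W a) Finset.univ
  simp only [map_smul] at h
  exact h

/-! ## S4 BRD : file Anco/BrD.lean -/

theorem brd_betti [IsManifold (𝓡 n) ∞ M] (p : ℕ) : ANCOS.betti n M p = betti n M p := by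
  unfold ANCOS.betti betti
  rw [← brd_sup]
  congr 1
  ext k
  simp only [Set.mem_ofPred_eq]
  rw [brd_li]
  constructor
  · rintro ⟨w, hw, h⟩
    refine ⟨fun a => ⟨brdG (w a), brd_mem (hw a).1⟩, fun a => ?_, fun c hc => ?_⟩
    · rw [← brd_closed]
      change ANCOS.IsClosedForm p (brdT (brdG (w a)))
      rw [brd_TG (hw a).1]
      exact hw a
    · apply h
      rw [← brd_exact, brdT_sum] at hc
      have h1 : ∀ a, brdT (brdG (w a)) = w a := fun a => brd_TG (hw a).1
      simpa only [h1] using hc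
  · rintro ⟨w, hw, h⟩
    refine ⟨fun a => brdT (w a).1, fun a => (brd_closed _).2 (hw a), fun c hc => ?_⟩
    apply h
    rw [← brd_exact, brdT_sum]
    exact hc

end ANCO
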