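import Pool.Agent.Helper39.Anco.AbsDefs

open scoped Topology
open Filter

noncomputable section
namespace ANCO

variable {V : Type} [AddCommGroup V] [Module ℝ V]

private theorem chi_deadj {n : ℕ} (C : GrCplx V n) (u v : V) : C.B (C.de u) v = C.B u (C.d v) := by
  rw [C.symm, ← C.adj, C.symm]

theorem GrCplx.D_symm {n : ℕ} (C : GrCplx V n) (u v : V) : C.B (C.D u) v = C.B u (C.D v) := by
  simp only [GrCplx.D, LinearMap.add_apply, map_add]
  rw [C.adj, chi_deadj, add_comm]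

private theorem chi_ext {n : ℕ} (C : GrCplx V n) {a b : V} (h : ∀ u, C.B a u = C.B b u) :
    a = b := by
  by_contra hne
  have h1 := C.pos (a - b) (sub_ne_zero.2 hne)
  rw [map_sub C.B, LinearMap.sub_apply, h, sub_self] at h1
  exact lt_irrefl _ h1

private theorem chi_de_pr {n : ℕ} (C : GrCplx V n) (p : ℕ) (v : V) :
    C.pr p (C.de v) = C.de (C.pr (p + 1) v) := by
  apply chi_ext C
  intro u
  rw [C.pr_symm, chi_deadj, chi_deadj, C.pr_symm, C.d_pr]

private theorem chi_de_pr0 {n : ℕ} (C : GrCplx V n) (v : V) : C.de (C.pr 0 v) = 0 := by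
  apply chi_ext C
  intro u
  rw [chi_deadj, C.pr_symm, C.d_pr0]
  simp

private theorem chi_de_de {n : ℕ} (C : GrCplx V n) (v : V) : C.de (C.de v) = 0 := by
  apply chi_ext C
  intro u
  rw [chi_deadj, chi_deadj, C.d_d]
  simp

private theorem chi_DD {n : ℕ} (C : GrCplx V n) (v : V) :
    C.D (C.D v) = C.d (C.de v) + C.de (C.d v) := by
  simp only [GrCplx.D, LinearMap.add_apply, map_add, C.d_d, chi_de_de]
  abel

private theorem chi_DD_pr {n : ℕ} (C : GrCplx V n) (p : ℕ) (v : V) :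
    C.D (C.D (C.pr p v)) = C.pr p (C.D (C.D v)) := by
  rw [chi_DD, chi_DD, map_add]
  congr 1
  · rcases p with _ | p
    · rw [C.d_pr0, chi_de_pr0, map_zero]
    · rw [C.d_pr, chi_de_pr]
  · rw [chi_de_pr, C.d_pr]

private theorem chi_mem_comap {n : ℕ} (C : GrCplx V n) (Λ : ℝ) (f : V →ₗ[ℝ] V)
    (hf : ∀ v, C.D (C.D (f v)) = f (C.D (C.D v))) (v : V) (hv : v ∈ Eig C.D Λ) :
    f v ∈ Eig C.D Λ := by
  have h : Eig C.D Λ ≤ (Eig C.D Λ).comap f := by
    conv_lhs => rw [Eig]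
    refine iSup₂_le fun l hl => ?_
    intro u hu
    rw [Submodule.mem_comap]
    have h1 : f u ∈ LinearMap.ker (C.D ∘ₗ C.D - l • LinearMap.id) := by
      rw [LinearMap.mem_ker] at hu ⊢
      simp only [LinearMap.sub_apply, LinearMap.comp_apply, LinearMap.smul_apply,
        LinearMap.id_apply, sub_eq_zero] at hu ⊢
      rw [hf, hu, map_smul]
    exact (le_iSup₂_of_le l hl le_rfl : _ ≤ Eig C.D Λ) h1
  exact h hv

theorem GrCplx.eig_pr {n : ℕ} (C : GrCplx V n) (Λ : ℝ) (p : ℕ) (v : V) (hv : v ∈ Eig C.D Λ) :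
    C.pr p v ∈ Eig C.D Λ :=
  chi_mem_comap C Λ (C.pr p) (chi_DD_pr C p) v hv

private theorem chi_eig_d {n : ℕ} (C : GrCplx V n) (Λ : ℝ) (v : V) (hv : v ∈ Eig C.D Λ) :
    C.d v ∈ Eig C.D Λ :=
  chi_mem_comap C Λ C.d (fun v => by rw [chi_DD, chi_DD, map_add, C.d_d, C.d_d]; simp) v hv

private theorem chi_eig_de {n : ℕ} (C : GrCplx V n) (Λ : ℝ) (v : V) (hv : v ∈ Eig C.D Λ) :
    C.de v ∈ Eig C.D Λ :=
  chi_mem_comap C Λ C.de
    (fun v => by rw [chi_DD, chi_DD, map_add, chi_de_de, chi_de_de]; simp) v hv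

private theorem chi_proj {n : ℕ} (C : GrCplx V n) (E : Submodule ℝ V) [FiniteDimensional ℝ E]
    (v : V) : ∃ e ∈ E, ∀ u ∈ E, C.B (v - e) u = 0 := by
  let φ : E →ₗ[ℝ] Module.Dual ℝ E :=
    ((LinearMap.lcomp ℝ ℝ E.subtype).comp C.B).comp E.subtype
  have hφ : ∀ a b : E, φ a b = C.B a b := fun a b => rfl
  have hinj : Function.Injective φ := by
    rw [← LinearMap.ker_eq_bot, LinearMap.ker_eq_bot']
    intro m hm
    by_contra hne
    have h1 := C.pos (m : V) (fun h => hne (Subtype.ext h))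
    rw [← hφ, hm] at h1
    exact lt_irrefl _ h1
  have hsurj : Function.Surjective φ :=
    (LinearMap.injective_iff_surjective_of_finrank_eq_finrank
      (Subspace.dual_finrank_eq).symm).1 hinj
  obtain ⟨e, he⟩ := hsurj ((C.B v).comp E.subtype)
  refine ⟨e, e.2, fun u hu => ?_⟩
  have h2 := LinearMap.congr_fun he ⟨u, hu⟩
  rw [hφ] at h2
  rw [map_sub, LinearMap.sub_apply, h2, sub_eq_zero]
  rfl

/-- the image of the small eigenspace under `d` in degree `p` -/
private def chiB {n : ℕ} (C : GrCplx V n) (Λ : ℝ) : ℕ → Submodule ℝ V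
  | 0 => ⊥
  | p + 1 => (C.Ep Λ p).map C.d

private theorem chi_pr_self {n : ℕ} (C : GrCplx V n) {p : ℕ} {v : V}
    (hv : v ∈ LinearMap.range (C.pr p)) : C.pr p v = v := by
  obtain ⟨w, rfl⟩ := hv
  rw [C.pr_pr, if_pos rfl]

/-- if `v'` is orthogonal to `E = Eig Λ` and `d v' ∈ E` then `d v' = 0` -/
private theorem chi_orth {n : ℕ} (C : GrCplx V n) (Λ : ℝ) (v : V)
    (hv : ∀ u ∈ Eig C.D Λ, C.B v u = 0) (hd : C.d v ∈ Eig C.D Λ) : C.d v = 0 := by
  by_contra hne
  have h1 := C.pos _ hne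
  rw [C.adj, hv _ (chi_eig_de C Λ _ hd)] at h1
  exact lt_irrefl _ h1

private theorem chi_betti {n : ℕ} (C : GrCplx V n) (hfin : ∀ Λ, FiniteDimensional ℝ (Eig C.D Λ))
    (hsolve : ∀ v, (∀ e ∈ Eig C.D 0, C.B v e = 0) → ∃ w, C.D (C.D w) = v) (Λ : ℝ) (hΛ : 0 ≤ Λ)
    (p : ℕ) : Module.finrank ℝ (cyc C.pr C.d p ⊓ Eig C.D Λ : Submodule ℝ V) =
      bettiA C.pr C.d p + Module.finrank ℝ (chiB C Λ p) := by
  have := hfin Λ
  have : FiniteDimensional ℝ (cyc C.pr C.d p ⊓ Eig C.D Λ : Submodule ℝ V) :=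
    Submodule.finiteDimensional_of_le inf_le_right
  set Z : Submodule ℝ V := cyc C.pr C.d p ⊓ Eig C.D Λ with hZ
  let f : Z →ₗ[ℝ] (cyc C.pr C.d p ⧸ (bnd C.pr C.d p).submoduleOf (cyc C.pr C.d p)) :=
    ((bnd C.pr C.d p).submoduleOf (cyc C.pr C.d p)).mkQ.comp
      (Submodule.inclusion (inf_le_left : Z ≤ cyc C.pr C.d p))
  have hmono : Eig C.D 0 ≤ Eig C.D Λ := by
    rw [Eig, Eig]
    exact iSup₂_le fun l hl => le_iSup₂_of_le l (le_trans hl hΛ) le_rfl
  have hsurj : Function.Surjective f := by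
    intro q
    obtain ⟨⟨v, hv⟩, rfl⟩ := Submodule.mkQ_surjective _ q
    have hdv : C.d v = 0 := hv.1
    have hpv : C.pr p v = v := chi_pr_self C hv.2
    obtain ⟨e, he, horth⟩ := chi_proj C (Eig C.D Λ) v
    have h1 : C.d (v - e) = 0 := by
      apply chi_orth C Λ _ horth
      rw [map_sub, hdv, zero_sub]
      exact Submodule.neg_mem _ (chi_eig_d C Λ _ he)
    obtain ⟨w, hw⟩ := hsolve (v - e) (fun u hu => horth u (hmono hu))
    rw [chi_DD] at hw
    have h2 : C.de (C.d w) = 0 := by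
      by_contra hne
      have h3 := C.pos _ hne
      have h4 : C.d (C.de (C.d w)) = 0 := by
        rw [← hw, map_add, C.d_d, zero_add] at h1
        exact h1
      rw [chi_deadj, h4, map_zero] at h3
      exact lt_irrefl _ h3
    rw [h2, add_zero] at hw
    have h5 : C.d e = 0 := by
      rw [map_sub, hdv, zero_sub, neg_eq_zero] at h1
      exact h1
    have hpe : C.pr p e ∈ Z := by
      refine ⟨⟨?_, ⟨e, rfl⟩⟩, C.eig_pr Λ p e he⟩
      rw [SetLike.mem_coe, LinearMap.mem_ker, ← C.d_pr, h5, map_zero]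
    refine ⟨⟨C.pr p e, hpe⟩, ?_⟩
    simp only [f, LinearMap.comp_apply]
    rw [Submodule.mkQ_apply, Submodule.mkQ_apply, Submodule.Quotient.eq]
    rw [Submodule.submoduleOf, Submodule.mem_comap]
    change C.pr p e - v ∈ bnd C.pr C.d p
    have h6 : C.pr p e - v = - C.pr p (v - e) := by
      rw [map_sub, hpv]; abel
    rw [h6, ← hw]
    apply Submodule.neg_mem
    rcases p with _ | p
    · rw [C.d_pr0]
      exact Submodule.zero_mem _
    · rw [C.d_pr]
      exact ⟨_, ⟨_, rfl⟩, rfl⟩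
  have hker : Module.finrank ℝ (LinearMap.ker f) = Module.finrank ℝ (chiB C Λ p) := by
    have hmap : (LinearMap.ker f).map Z.subtype = chiB C Λ p := by
      ext v
      constructor
      · rintro ⟨⟨v, hv⟩, hk, rfl⟩
        rw [SetLike.mem_coe, LinearMap.mem_ker] at hk
        simp only [f, LinearMap.comp_apply] at hk
        rw [Submodule.mkQ_apply, Submodule.Quotient.mk_eq_zero, Submodule.submoduleOf,
          Submodule.mem_comap] at hk
        change v ∈ bnd C.pr C.d p at hk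
        change v ∈ chiB C Λ p
        rcases p with _ | p
        · exact hk
        · obtain ⟨u, hu, huv⟩ := hk
          have hpu : C.pr p u = u := chi_pr_self C hu
          obtain ⟨e, he, horth⟩ := chi_proj C (Eig C.D Λ) u
          have h1 : C.d (u - e) = 0 := by
            apply chi_orth C Λ _ horth
            rw [map_sub, huv]
            exact Submodule.sub_mem _ hv.2 (chi_eig_d C Λ _ he)
          refine ⟨C.pr p e, ⟨C.eig_pr Λ p e he, ⟨e, rfl⟩⟩, ?_⟩
          rw [← C.d_pr]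
          rw [map_sub, sub_eq_zero] at h1
          rw [← h1, C.d_pr, hpu, huv]
      · intro hv
        have hv' : v ∈ bnd C.pr C.d p ∧ v ∈ Z := by
          rcases p with _ | p
          · have : v = 0 := hv
            subst this
            exact ⟨Submodule.zero_mem _, Submodule.zero_mem _⟩
          · obtain ⟨e, he, rfl⟩ := hv
            refine ⟨⟨e, he.2, rfl⟩, ⟨⟨?_, ?_⟩, chi_eig_d C Λ _ he.1⟩⟩
            · rw [SetLike.mem_coe, LinearMap.mem_ker, C.d_d]
            · rw [← chi_pr_self C he.2, ← C.d_pr]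
              exact ⟨_, rfl⟩
        refine ⟨⟨v, hv'.2⟩, ?_, rfl⟩
        rw [SetLike.mem_coe, LinearMap.mem_ker]
        simp only [f, LinearMap.comp_apply]
        rw [Submodule.mkQ_apply, Submodule.Quotient.mk_eq_zero, Submodule.submoduleOf,
          Submodule.mem_comap]
        exact hv'.1
    rw [← hmap]
    exact (Submodule.equivMapOfInjective _ (Submodule.injective_subtype _) _).finrank_eq
  have h := LinearMap.finrank_range_add_finrank_ker f
  rw [LinearMap.range_eq_top.2 hsurj, finrank_top, hker] at h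
  exact h.symm

private theorem chi_rank {n : ℕ} (C : GrCplx V n) (hfin : ∀ Λ, FiniteDimensional ℝ (Eig C.D Λ))
    (Λ : ℝ) (p : ℕ) : Module.finrank ℝ (C.Ep Λ p) =
      Module.finrank ℝ (cyc C.pr C.d p ⊓ Eig C.D Λ : Submodule ℝ V) +
        Module.finrank ℝ (chiB C Λ (p + 1)) := by
  have := hfin Λ
  have : FiniteDimensional ℝ (C.Ep Λ p) := Submodule.finiteDimensional_of_le inf_le_left
  have h := LinearMap.finrank_range_add_finrank_ker (C.d.domRestrict (C.Ep Λ p))
  rw [← h, add_comm]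
  congr 1
  · have hmap : (LinearMap.ker (C.d.domRestrict (C.Ep Λ p))).map (C.Ep Λ p).subtype =
        cyc C.pr C.d p ⊓ Eig C.D Λ := by
      ext v
      constructor
      · rintro ⟨⟨v, hv⟩, hk, rfl⟩
        exact ⟨⟨hk, hv.2⟩, hv.1⟩
      · rintro ⟨⟨h1, h2⟩, h3⟩
        exact ⟨⟨v, ⟨h3, h2⟩⟩, h1, rfl⟩
    rw [← hmap]
    exact (Submodule.equivMapOfInjective _ (Submodule.injective_subtype _) _).finrank_eq
  · rw [LinearMap.range_domRestrict]
    rfl

/-- McKean–Singer / Hodge: the Euler characteristic of the small eigenspace. -/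
theorem chi_eq {n : ℕ} (C : GrCplx V n) (hfin : ∀ Λ, FiniteDimensional ℝ (Eig C.D Λ))
    (hsolve : ∀ v, (∀ e ∈ Eig C.D 0, C.B v e = 0) → ∃ w, C.D (C.D w) = v) (Λ : ℝ) (hΛ : 0 ≤ Λ) :
    ∑ p ∈ Finset.range (n + 1), (-1 : ℤ) ^ p * (bettiA C.pr C.d p : ℤ) =
      ∑ p ∈ Finset.range (n + 1), (-1 : ℤ) ^ p * (Module.finrank ℝ (C.Ep Λ p) : ℤ) := by
  have h1 : ∀ p, (Module.finrank ℝ (C.Ep Λ p) : ℤ) = (bettiA C.pr C.d p : ℤ) +
      ((Module.finrank ℝ (chiB C Λ p) : ℤ) + (Module.finrank ℝ (chiB C Λ (p + 1)) : ℤ)) := by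
    intro p
    rw [chi_rank C hfin, chi_betti C hfin hsolve Λ hΛ]
    push_cast
    ring
  have h2 : ∀ m : ℕ, ∑ p ∈ Finset.range m, (-1 : ℤ) ^ p *
      ((Module.finrank ℝ (chiB C Λ p) : ℤ) + (Module.finrank ℝ (chiB C Λ (p + 1)) : ℤ)) =
      - (-1) ^ m * (Module.finrank ℝ (chiB C Λ m) : ℤ) := by
    intro m
    induction m with
    | zero =>
      have : Module.finrank ℝ (chiB C Λ 0) = 0 := finrank_bot ℝ V
      simp [this]
    | succ m ih =>
      rw [Finset.sum_range_succ, ih, pow_succ]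
      ring
  have h3 : Module.finrank ℝ (chiB C Λ (n + 1)) = 0 := by
    have : chiB C Λ (n + 1) = ⊥ := by
      rw [eq_bot_iff]
      rintro _ ⟨e, he, rfl⟩
      have h4 : C.pr n e = e := chi_pr_self C he.2
      have h5 : ∀ v, C.pr (n + 1) v = 0 := by
        intro v
        rw [← C.pr_sum v, map_sum]
        refine Finset.sum_eq_zero fun p hp => ?_
        rw [C.pr_pr, if_neg]
        have := Finset.mem_range.1 hp
        omega
      rw [Submodule.mem_bot, ← h4, ← C.d_pr, h5]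
    rw [this, finrank_bot]
  simp only [h1, mul_add, Finset.sum_add_distrib]
  have h4 := h2 (n + 1)
  rw [h3] at h4
  simp only [mul_add, Finset.sum_add_distrib] at h4
  rw [h4]
  simp

end ANCO
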