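import Pool.Agent.Helper39.Anco.Geo

/-!
# Monotonicity of lower bounds of the curvature operator
-/

open scoped ContDiff Topology Manifold InnerProductSpace MatrixOrder Matrix.Norms.L2Operator
open Set MeasureTheory

set_option maxSynthPendingDepth 3

noncomputable section
namespace ANCO

variable {n : ℕ}

private theorem cmono_expand (B : E n →L[ℝ] E n →L[ℝ] ℝ) (x z : E n) :
    B x z = ∑ i, ∑ j, x i * z j * B (e i) (e j) := by
  have hx : ∀ x : E n, x = ∑ i, x i • e i := by
    intro x
    ext k
    simp [e, Pi.single_apply]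
  conv_lhs => rw [hx x, hx z]
  simp only [map_sum, map_smul, _root_.sum_apply, _root_.smul_apply,
    smul_eq_mul, Finset.mul_sum]
  rw [Finset.sum_comm]
  refine Finset.sum_congr rfl fun i _ => Finset.sum_congr rfl fun j _ => ?_
  ring

private theorem cmono_sq {G : Coef n} {U : Set (E n)} (h : IsMet G U) {y : E n} (hy : y ∈ U) :
    ∃ l : Fin n → E n → ℝ, ∀ x z, G y x z = ∑ k, l k x * l k z := by
  let M : Matrix (Fin n) (Fin n) ℝ := fun i j => G y (e i) (e j)
  have hM : M.PosSemidef := by
    refine Matrix.PosSemidef.of_dotProduct_mulVec_nonneg ?_ ?_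
    · ext i j
      show star (G y (e j) (e i)) = G y (e i) (e j)
      rw [star_trivial]
      exact h.symm y hy _ _
    · intro x
      have h1 : star x ⬝ᵥ M.mulVec x = G y (WithLp.toLp 2 x) (WithLp.toLp 2 x) := by
        rw [cmono_expand]
        simp only [dotProduct, Matrix.mulVec, star_trivial, M, Finset.mul_sum]
        refine Finset.sum_congr rfl fun i _ => Finset.sum_congr rfl fun j _ => ?_
        ring
      rw [h1]
      by_cases hx : (WithLp.toLp 2 x : E n) = 0
      · rw [hx]; simp
      · exact (h.pos y hy _ hx).le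
  obtain ⟨S, hS⟩ := CStarAlgebra.nonneg_iff_eq_star_mul_self.mp hM.nonneg
  refine ⟨fun k x => ∑ i, S k i * x i, fun x z => ?_⟩
  rw [cmono_expand]
  have h2 : ∀ i j, G y (e i) (e j) = ∑ k, S k i * S k j := by
    intro i j
    have h3 : M i j = (star S * S) i j := by rw [← hS]
    rw [Matrix.mul_apply] at h3
    simpa [Matrix.star_apply] using h3
  have h4 : ∀ k, (∑ i, S k i * x i) * (∑ i, S k i * z i)
      = ∑ i, ∑ j, (S k i * x i) * (S k j * z j) := fun k => Finset.sum_mul_sum _ _ _ _
  rw [Finset.sum_congr rfl fun k _ => h4 k]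
  simp only [h2, Finset.mul_sum]
  rw [Finset.sum_congr rfl fun i _ => Finset.sum_comm, Finset.sum_comm]
  refine Finset.sum_congr rfl fun k _ => Finset.sum_congr rfl fun i _ =>
    Finset.sum_congr rfl fun j _ => ?_
  ring

theorem bivec_nonneg {G : Coef n} {U : Set (E n)} (h : IsMet G U) {y : E n} (hy : y ∈ U) (m : ℕ)
    (u v : Fin m → E n) :
    0 ≤ ∑ a, ∑ b, (G y (u a) (u b) * G y (v a) (v b) - G y (u a) (v b) * G y (v a) (u b)) := by
  obtain ⟨l, hl⟩ := cmono_sq h hy
  let T : Fin n → Fin n → ℝ := fun i j => ∑ a, l i (u a) * l j (v a)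
  have h1 : ∑ a, ∑ b, (G y (u a) (u b) * G y (v a) (v b) - G y (u a) (v b) * G y (v a) (u b))
      = ∑ i, ∑ j, (T i j * T i j - T i j * T j i) := by
    have h2 : ∀ a b, G y (u a) (u b) * G y (v a) (v b) - G y (u a) (v b) * G y (v a) (u b)
        = ∑ i, ∑ j, (l i (u a) * l i (u b) * (l j (v a) * l j (v b))
            - l i (u a) * l i (v b) * (l j (v a) * l j (u b))) := by
      intro a b
      rw [hl, hl, hl, hl, Finset.sum_mul_sum, Finset.sum_mul_sum, ← Finset.sum_sub_distrib]
      exact Finset.sum_congr rfl fun i _ => (Finset.sum_sub_distrib _ _).symm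
    have h3 : ∀ i j, T i j * T i j - T i j * T j i
        = ∑ a, ∑ b, (l i (u a) * l i (u b) * (l j (v a) * l j (v b))
            - l i (u a) * l i (v b) * (l j (v a) * l j (u b))) := by
      intro i j
      simp only [T]
      rw [Finset.sum_mul_sum, Finset.sum_mul_sum, ← Finset.sum_sub_distrib]
      refine Finset.sum_congr rfl fun a _ => ?_
      rw [← Finset.sum_sub_distrib]
      exact Finset.sum_congr rfl fun b _ => by ring
    rw [Finset.sum_congr rfl fun a _ => Finset.sum_congr rfl fun b _ => h2 a b,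
      Finset.sum_congr rfl fun i _ => Finset.sum_congr rfl fun j _ => h3 i j]
    rw [Finset.sum_congr rfl fun a _ => Finset.sum_comm, Finset.sum_comm]
    refine Finset.sum_congr rfl fun i _ => ?_
    rw [Finset.sum_congr rfl fun a _ => Finset.sum_comm, Finset.sum_comm]
  have h4 : ∑ i, ∑ j, (T i j * T i j - T i j * T j i)
      = ∑ i, ∑ j, (T i j - T j i) ^ 2 / 2 := by
    have h5 : ∑ i, ∑ j, (T i j * T i j - T i j * T j i)
        = ∑ i, ∑ j, (T j i * T j i - T j i * T i j) := Finset.sum_comm
    have h6 : ∑ i, ∑ j, (T i j - T j i) ^ 2 / 2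
        = (∑ i, ∑ j, (T i j * T i j - T i j * T j i)
          + ∑ i, ∑ j, (T j i * T j i - T j i * T i j)) / 2 := by
      rw [← Finset.sum_add_distrib, Finset.sum_div]
      refine Finset.sum_congr rfl fun i _ => ?_
      rw [← Finset.sum_add_distrib, Finset.sum_div]
      exact Finset.sum_congr rfl fun j _ => by ring
    rw [h6, ← h5]
    ring
  rw [h1, h4]
  exact Finset.sum_nonneg fun i _ => Finset.sum_nonneg fun j _ => by positivity

theorem CurvOpGE_mono {G : Coef n} {U : Set (E n)} (h : IsMet G U) {y : E n} (hy : y ∈ U)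
    {κ κ' : ℝ} (hκ : κ' ≤ κ) (hc : CurvOpGE G κ y) : CurvOpGE G κ' y := by
  intro m u v
  exact (mul_le_mul_of_nonneg_right hκ (bivec_nonneg h hy m u v)).trans (hc m u v)

end ANCO
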