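import Pool.Agent.Helper39.Anco.Mul

/-!
# SYMB: the Fourier symbols of the parametrix
-/

open scoped ContDiff Topology Manifold InnerProductSpace SchwartzMap
open Set MeasureTheory Filter FourierTransform

set_option maxSynthPendingDepth 3

noncomputable section
namespace ANCO

variable {n : ℕ}

/-- the Fourier symbols of the parametrix have temperate growth and are bounded -/
theorem symb_bounded (S : E n →L[ℝ] E n) (hS : Function.Injective S) :
    (fun ξ : E n => (((1 + 4 * Real.pi ^ 2 * ‖S ξ‖ ^ 2)⁻¹ : ℝ) : ℂ)).HasTemperateGrowth ∧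
    ∃ C : ℝ, ∀ ξ : E n, (1 + ‖ξ‖ ^ 2) * (1 + 4 * Real.pi ^ 2 * ‖S ξ‖ ^ 2)⁻¹ ≤ C := by
  constructor
  · have h1 := (Function.hasTemperateGrowth_one_add_norm_sq_rpow (E n) (-1)).comp
      (((2 * Real.pi) • S).hasTemperateGrowth)
    have h2 := (Complex.ofRealCLM.hasTemperateGrowth).comp h1
    convert h2 using 2 with ξ
    simp only [Function.comp, Real.rpow_neg_one]
    congr 3
    rw [_root_.smul_apply, norm_smul, Real.norm_of_nonneg (by positivity)]
    ring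
  · have hker : LinearMap.ker S.toLinearMap = ⊥ := LinearMap.ker_eq_bot.2 hS
    obtain ⟨K, hK, hanti⟩ := LinearMap.exists_antilipschitzWith S.toLinearMap hker
    refine ⟨1 + (K : ℝ) ^ 2, fun ξ => ?_⟩
    have h1 : ‖ξ‖ ≤ K * ‖S ξ‖ := by
      have := hanti.le_mul_dist ξ 0
      simpa using this
    have h2 : ‖ξ‖ ^ 2 ≤ (K : ℝ) ^ 2 * ‖S ξ‖ ^ 2 := by
      rw [← mul_pow]; exact pow_le_pow_left₀ (norm_nonneg _) h1 2
    rw [← div_eq_mul_inv, div_le_iff₀ (by positivity)]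
    have h3 : (1 : ℝ) ≤ 4 * Real.pi ^ 2 := by nlinarith [Real.pi_gt_three]
    have h4 : (0 : ℝ) ≤ (K : ℝ) ^ 2 * ‖S ξ‖ ^ 2 := by positivity
    have h5 : (0 : ℝ) ≤ ‖S ξ‖ ^ 2 := by positivity
    nlinarith [mul_nonneg h4 (sub_nonneg.2 h3), mul_nonneg h5 (sub_nonneg.2 h3)]

end ANCO
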