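import Pool.Agent.Helper39.Anco.Mul
import Pool.Agent.Helper39.Anco.CoreSymb

open scoped ContDiff Topology Manifold InnerProductSpace SchwartzMap
open Set MeasureTheory Filter

set_option maxSynthPendingDepth 3

noncomputable section
namespace ANCO

variable {n : ℕ}

/-- the Hilbert space `L²(ℝⁿ, ℂ)` -/
abbrev corec_H (n : ℕ) := Lp ℂ 2 (volume : Measure (E n))

theorem corec_inj {f g : corec_H n} (h : (f : 𝓢'(E n, ℂ)) = (g : 𝓢'(E n, ℂ))) : f = g := by
  have hk := Lp.ker_toTemperedDistributionCLM_eq_bot (F := ℂ) (μ := (volume : Measure (E n)))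
    (p := 2)
  have : f - g ∈ (Lp.toTemperedDistributionCLM ℂ (volume : Measure (E n)) 2).ker := by
    rw [LinearMap.mem_ker]
    show (Lp.toTemperedDistributionCLM ℂ (volume : Measure (E n)) 2) (f - g) = 0
    rw [map_sub, Lp.toTemperedDistributionCLM_apply, Lp.toTemperedDistributionCLM_apply, h,
      sub_self]
  rw [hk, Submodule.mem_bot] at this
  exact sub_eq_zero.mp this

theorem corec_add (f g : corec_H n) :
    ((f + g : corec_H n) : 𝓢'(E n, ℂ)) = (f : 𝓢'(E n, ℂ)) + (g : 𝓢'(E n, ℂ)) := by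
  exact map_add (Lp.toTemperedDistributionCLM ℂ (volume : Measure (E n)) 2) f g

theorem corec_smul (c : ℂ) (f : corec_H n) :
    ((c • f : corec_H n) : 𝓢'(E n, ℂ)) = c • (f : 𝓢'(E n, ℂ)) := by
  exact map_smul (Lp.toTemperedDistributionCLM ℂ (volume : Measure (E n)) 2) c f

theorem corec_neg (f : corec_H n) :
    ((-f : corec_H n) : 𝓢'(E n, ℂ)) = -(f : 𝓢'(E n, ℂ)) := by
  exact map_neg (Lp.toTemperedDistributionCLM ℂ (volume : Measure (E n)) 2) f

theorem corec_sum {κ : Type} (s : Finset κ) (f : κ → corec_H n) :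
    ((∑ i ∈ s, f i : corec_H n) : 𝓢'(E n, ℂ)) = ∑ i ∈ s, (f i : 𝓢'(E n, ℂ)) := by
  exact map_sum (Lp.toTemperedDistributionCLM ℂ (volume : Measure (E n)) 2) f s

/-- an operator on distributions which maps `L²` to `L²` boundedly is a bounded operator there -/
theorem corec_clm (T : 𝓢'(E n, ℂ) →L[ℂ] 𝓢'(E n, ℂ)) (C : ℝ)
    (hT : ∀ f : corec_H n, ∃ h : corec_H n, (h : 𝓢'(E n, ℂ)) = T (f : 𝓢'(E n, ℂ)) ∧
      ‖h‖ ≤ C * ‖f‖) :
    ∃ M : corec_H n →L[ℂ] corec_H n, (∀ f : corec_H n,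
      ((M f : corec_H n) : 𝓢'(E n, ℂ)) = T (f : 𝓢'(E n, ℂ))) ∧ ∀ f, ‖M f‖ ≤ C * ‖f‖ := by
  choose M hM hMn using hT
  refine ⟨LinearMap.mkContinuous ⟨⟨M, ?_⟩, ?_⟩ C hMn, hM, hMn⟩
  · intro f g
    apply corec_inj
    rw [hM, corec_add, corec_add, hM, hM, map_add]
  · intro c f
    apply corec_inj
    simp only [RingHom.id_apply]
    rw [hM, corec_smul, corec_smul, hM, map_smul]

/-- the abstract iteration: `W = g + T W`, derivatives of the iterates converge -/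
theorem corec_iter {V : Type*} [NormedAddCommGroup V] [NormedSpace ℂ V] [CompleteSpace V]
    (T K : V →L[ℂ] V) (hT : ∀ u, ‖T u‖ ≤ (1 / 2) * ‖u‖) (g g' w : V) (hw : w = g + T w)
    (P : V → V → Prop) (hP0 : P 0 0)
    (hPs : ∀ u u', P u u' → P (g + T u) (g' + K u + T u'))
    (hPc : ∀ (u u' : ℕ → V) (a a' : V), (∀ m, P (u m) (u' m)) → Tendsto u atTop (𝓝 a) →
      Tendsto u' atTop (𝓝 a') → P a a') :
    ∃ v, P w v ∧ ‖v‖ ≤ 2 * ‖g' + K w‖ := by
  -- the limit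
  have hTn : ‖T‖ < 1 := by
    have : ‖T‖ ≤ 1 / 2 := ContinuousLinearMap.opNorm_le_bound T (by norm_num) hT
    linarith
  have hunit : IsUnit (1 - T) := isUnit_one_sub_of_norm_lt_one hTn
  obtain ⟨U, hU⟩ := hunit
  set v : V := (↑U⁻¹ : V →L[ℂ] V) (g' + K w) with hv
  have hveq : v = g' + K w + T v := by
    have h1 : (1 - T) v = g' + K w := by
      rw [← hU, hv]
      have : ((U : V →L[ℂ] V) * (↑U⁻¹ : V →L[ℂ] V)) = 1 := by simp
      calc (U : V →L[ℂ] V) ((↑U⁻¹ : V →L[ℂ] V) (g' + K w))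
          = ((U : V →L[ℂ] V) * (↑U⁻¹ : V →L[ℂ] V)) (g' + K w) := rfl
        _ = g' + K w := by rw [this]; rfl
    have h2 : (1 - T) v = v - T v := rfl
    rw [h2] at h1
    rw [← h1]; abel
  have hvn : ‖v‖ ≤ 2 * ‖g' + K w‖ := by
    have h1 : ‖v‖ ≤ ‖g' + K w‖ + ‖T v‖ := by
      conv_lhs => rw [hveq]
      exact norm_add_le _ _
    have h2 := hT v
    linarith
  refine ⟨v, ?_, hvn⟩
  -- the iteration
  let it : ℕ → V × V := fun m => Nat.rec (0, 0) (fun _ p => (g + T p.1, g' + K p.1 + T p.2)) m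
  have it0 : it 0 = (0, 0) := rfl
  have its : ∀ m, it (m + 1) = (g + T (it m).1, g' + K (it m).1 + T (it m).2) := fun m => rfl
  have hPit : ∀ m, P (it m).1 (it m).2 := by
    intro m
    induction m with
    | zero => rw [it0]; exact hP0
    | succ m ih => rw [its]; exact hPs _ _ ih
  have hb : ∀ m, ‖(it m).1 - w‖ ≤ (1 / 2) ^ m * ‖w‖ := by
    intro m
    induction m with
    | zero => rw [it0]; simp
    | succ m ih =>
      rw [its]
      have : g + T (it m).1 - w = T ((it m).1 - w) := by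
        rw [map_sub]
        conv_lhs => rw [hw]
        abel
      show ‖g + T (it m).1 - w‖ ≤ _
      rw [this]
      calc ‖T ((it m).1 - w)‖ ≤ (1 / 2) * ‖(it m).1 - w‖ := hT _
        _ ≤ (1 / 2) * ((1 / 2) ^ m * ‖w‖) := by gcongr
        _ = (1 / 2) ^ (m + 1) * ‖w‖ := by ring
  have ha : ∀ m : ℕ, ‖(it m).2 - v‖ ≤ (1 / 2) ^ m * (‖v‖ + 2 * m * (‖K‖ * ‖w‖)) := by
    intro m
    induction m with
    | zero => rw [it0]; simp
    | succ m ih =>
      rw [its]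
      have : g' + K (it m).1 + T (it m).2 - v = K ((it m).1 - w) + T ((it m).2 - v) := by
        rw [map_sub, map_sub]
        conv_lhs => rw [hveq]
        abel
      show ‖g' + K (it m).1 + T (it m).2 - v‖ ≤ _
      rw [this]
      calc ‖K ((it m).1 - w) + T ((it m).2 - v)‖
          ≤ ‖K ((it m).1 - w)‖ + ‖T ((it m).2 - v)‖ := norm_add_le _ _
        _ ≤ ‖K‖ * ((1 / 2) ^ m * ‖w‖) +
            (1 / 2) * ((1 / 2) ^ m * (‖v‖ + 2 * m * (‖K‖ * ‖w‖))) := by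
            have h1 := K.le_opNorm ((it m).1 - w)
            have h2 := hT ((it m).2 - v)
            have h3 := mul_le_mul_of_nonneg_left (hb m) (norm_nonneg K)
            linarith
        _ = (1 / 2) ^ (m + 1) * (‖v‖ + 2 * ((m + 1 : ℕ) : ℝ) * (‖K‖ * ‖w‖)) := by
            push_cast
            ring
  refine hPc (fun m => (it m).1) (fun m => (it m).2) w v hPit ?_ ?_
  · rw [tendsto_iff_norm_sub_tendsto_zero]
    refine squeeze_zero (fun m => norm_nonneg _) hb ?_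
    have := (tendsto_pow_atTop_nhds_zero_of_lt_one (r := (1 / 2 : ℝ)) (by norm_num)
      (by norm_num)).mul_const ‖w‖
    simpa using this
  · rw [tendsto_iff_norm_sub_tendsto_zero]
    refine squeeze_zero (fun m => norm_nonneg _) ha ?_
    have h1 := (tendsto_pow_atTop_nhds_zero_of_lt_one (r := (1 / 2 : ℝ)) (by norm_num)
      (by norm_num)).mul_const ‖v‖
    have h2 := (tendsto_self_mul_const_pow_of_lt_one (r := (1 / 2 : ℝ)) (by norm_num)
      (by norm_num)).mul_const (2 * (‖K‖ * ‖w‖))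
    have h3 := h1.add h2
    simp only [zero_mul, add_zero] at h3
    refine h3.congr ?_
    intro m
    ring


/-! ### Fourier multipliers -/

open LineDeriv in
theorem corec_deriv (l : Fin n) (f : 𝓢'(E n, ℂ)) :
    ∂_{e l} f = TemperedDistribution.fourierMultiplierCLM ℂ
      (fun ξ : E n => 2 * Real.pi * Complex.I * (ξ l : ℂ)) f := by
  rw [TemperedDistribution.lineDeriv_eq_fourierMultiplierCLM]
  have h1 : (fun ξ : E n => 2 * Real.pi * Complex.I * (ξ l : ℂ)) =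
      (2 * Real.pi * Complex.I) • (fun ξ : E n => ((inner ℝ ξ (e l) : ℝ) : ℂ)) := by
    funext ξ
    simp [e, EuclideanSpace.inner_single_right]
  rw [h1, TemperedDistribution.fourierMultiplierCLM_smul (by fun_prop)]
  rfl

theorem corec_tg (l : Fin n) :
    (fun ξ : E n => 2 * Real.pi * Complex.I * (ξ l : ℂ)).HasTemperateGrowth := by
  have h1 : (fun ξ : E n => 2 * Real.pi * Complex.I * (ξ l : ℂ)) =
      fun ξ : E n => 2 * Real.pi * Complex.I * ((inner ℝ ξ (e l) : ℝ) : ℂ) := by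
    funext ξ
    simp [e, EuclideanSpace.inner_single_right]
  rw [h1]
  fun_prop

open LineDeriv in
theorem corec_deriv_mult (l : Fin n) (m : E n → ℂ) (hm : m.HasTemperateGrowth)
    (f : 𝓢'(E n, ℂ)) :
    ∂_{e l} (TemperedDistribution.fourierMultiplierCLM ℂ m f) =
      TemperedDistribution.fourierMultiplierCLM ℂ
        (fun ξ : E n => 2 * Real.pi * Complex.I * (ξ l : ℂ) * m ξ) f := by
  rw [corec_deriv, TemperedDistribution.fourierMultiplierCLM_fourierMultiplierCLM_apply hm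
    (corec_tg l)]
  congr 2
  funext ξ
  simp only [Pi.mul_apply]
  ring

open LineDeriv in
theorem corec_mult_deriv (l : Fin n) (m : E n → ℂ) (hm : m.HasTemperateGrowth)
    (f : 𝓢'(E n, ℂ)) :
    TemperedDistribution.fourierMultiplierCLM ℂ m (∂_{e l} f) =
      TemperedDistribution.fourierMultiplierCLM ℂ
        (fun ξ : E n => 2 * Real.pi * Complex.I * (ξ l : ℂ) * m ξ) f := by
  rw [corec_deriv, TemperedDistribution.fourierMultiplierCLM_fourierMultiplierCLM_apply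
    (corec_tg l) hm]
  rfl

/-- the resolvent symbol -/
def corec_r0 (S : E n →L[ℝ] E n) (ξ : E n) : ℂ :=
  (((1 + 4 * Real.pi ^ 2 * ‖S ξ‖ ^ 2)⁻¹ : ℝ) : ℂ)

/-- the symbol of `∑ a₀ j ∂_j` -/
def corec_p {ι : Type} (a₀ : Fin n → Matrix ι ι ℝ) (α β : ι) (ξ : E n) : ℂ :=
  ∑ j, 2 * Real.pi * Complex.I * (ξ j : ℂ) * (a₀ j α β : ℂ)

theorem corec_p_tg {ι : Type} (a₀ : Fin n → Matrix ι ι ℝ) (α β : ι) :
    (corec_p a₀ α β).HasTemperateGrowth := by
  unfold corec_p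
  refine Function.HasTemperateGrowth.sum (fun j _ => ?_)
  exact (corec_tg j).mul (by fun_prop)

open LineDeriv in
theorem corec_p_apply {ι : Type} [Fintype ι] (a₀ : Fin n → Matrix ι ι ℝ) (α : ι)
    (u : ι → 𝓢'(E n, ℂ)) :
    ∑ β, TemperedDistribution.fourierMultiplierCLM ℂ (corec_p a₀ α β) (u β) =
      ∑ j, ∑ β, ∂_{e j} ((a₀ j α β : ℂ) • u β) := by
  rw [Finset.sum_comm]
  refine Finset.sum_congr rfl (fun β _ => ?_)
  have h1 : TemperedDistribution.fourierMultiplierCLM ℂ (corec_p a₀ α β) =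
      ∑ j, TemperedDistribution.fourierMultiplierCLM ℂ
        (fun ξ : E n => 2 * Real.pi * Complex.I * (ξ j : ℂ) * (a₀ j α β : ℂ)) :=
    TemperedDistribution.fourierMultiplierCLM_sum (E := E n) ℂ (s := Finset.univ)
      (g := fun j => (fun ξ : E n => 2 * Real.pi * Complex.I * (ξ j : ℂ) * (a₀ j α β : ℂ)))
      (fun j _ => (corec_tg j).mul (Function.HasTemperateGrowth.const _))
  rw [h1, _root_.sum_apply]
  refine Finset.sum_congr rfl (fun j _ => ?_)
  rw [corec_deriv, map_smul]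
  have h2 : (fun ξ : E n => 2 * Real.pi * Complex.I * (ξ j : ℂ) * (a₀ j α β : ℂ)) =
      (a₀ j α β : ℂ) • (fun ξ : E n => 2 * Real.pi * Complex.I * (ξ j : ℂ)) := by
    funext ξ
    simp only [Pi.smul_apply, smul_eq_mul]
    ring
  rw [h2, TemperedDistribution.fourierMultiplierCLM_smul (corec_tg j)]
  rfl

/-- pointwise symbol identity -/
theorem corec_symb {ι : Type} [Fintype ι] [DecidableEq ι] (a₀ : Fin n → Matrix ι ι ℝ)
    (S : E n →L[ℝ] E n)
    (hsym : ∀ ξ : E n, (∑ j, ξ j • a₀ j) * (∑ j, ξ j • a₀ j) = -(‖S ξ‖ ^ 2) • (1 : Matrix ι ι ℝ))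
    (α γ : ι) (ξ : E n) :
    ∑ β, corec_p a₀ β γ ξ * (corec_r0 S ξ * corec_p a₀ α β ξ) =
      if α = γ then 1 - corec_r0 S ξ else 0 := by
  have h1 := congrFun (congrFun (hsym ξ) α) γ
  rw [Matrix.mul_apply] at h1
  have hp : ∀ α β, corec_p a₀ α β ξ =
      2 * Real.pi * Complex.I * (((∑ j, ξ j • a₀ j) α β : ℝ) : ℂ) := by
    intro α β
    unfold corec_p
    rw [Matrix.sum_apply, Complex.ofReal_sum, Finset.mul_sum]
    refine Finset.sum_congr rfl (fun j _ => ?_)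
    simp only [Matrix.smul_apply, smul_eq_mul, Complex.ofReal_mul]
    ring
  have h2 : ∑ β, corec_p a₀ β γ ξ * (corec_r0 S ξ * corec_p a₀ α β ξ) =
      (2 * Real.pi * Complex.I) ^ 2 * corec_r0 S ξ *
        ((∑ β, (∑ j, ξ j • a₀ j) α β * (∑ j, ξ j • a₀ j) β γ : ℝ) : ℂ) := by
    rw [Complex.ofReal_sum, Finset.mul_sum]
    refine Finset.sum_congr rfl (fun β _ => ?_)
    rw [hp, hp, Complex.ofReal_mul]
    ring
  rw [h2, h1]
  have hpos : (1 + 4 * Real.pi ^ 2 * ‖S ξ‖ ^ 2 : ℝ) ≠ 0 := by positivity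
  have hposC : (1 + 4 * (Real.pi : ℂ) ^ 2 * (‖S ξ‖ : ℂ) ^ 2 : ℂ) ≠ 0 := by
    exact_mod_cast hpos
  by_cases h : α = γ
  · subst h
    simp only [if_true, Matrix.smul_apply, Matrix.one_apply_eq, smul_eq_mul, mul_one]
    unfold corec_r0
    push_cast
    rw [mul_pow, Complex.I_sq]
    have hx := mul_inv_cancel₀ hposC
    linear_combination hx
  · simp [h, Matrix.one_apply_ne h]

open LineDeriv in
theorem corec_parametrix {ι : Type} [Fintype ι] [DecidableEq ι] (a₀ : Fin n → Matrix ι ι ℝ)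
    (S : E n →L[ℝ] E n) (hr : (corec_r0 S).HasTemperateGrowth)
    (hsym : ∀ ξ : E n, (∑ j, ξ j • a₀ j) * (∑ j, ξ j • a₀ j) = -(‖S ξ‖ ^ 2) • (1 : Matrix ι ι ℝ))
    (u : ι → 𝓢'(E n, ℂ)) (α : ι) :
    u α = TemperedDistribution.fourierMultiplierCLM ℂ (corec_r0 S) (u α) +
      ∑ β, TemperedDistribution.fourierMultiplierCLM ℂ
        (fun ξ => corec_r0 S ξ * corec_p a₀ α β ξ) (∑ j, ∑ γ, ∂_{e j} ((a₀ j β γ : ℂ) • u γ)) := by
  have h1 : ∀ β, TemperedDistribution.fourierMultiplierCLM ℂ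
        (fun ξ => corec_r0 S ξ * corec_p a₀ α β ξ) (∑ j, ∑ γ, ∂_{e j} ((a₀ j β γ : ℂ) • u γ)) =
      ∑ γ, TemperedDistribution.fourierMultiplierCLM ℂ
        (fun ξ => corec_p a₀ β γ ξ * (corec_r0 S ξ * corec_p a₀ α β ξ)) (u γ) := by
    intro β
    rw [← corec_p_apply, map_sum]
    refine Finset.sum_congr rfl (fun γ _ => ?_)
    have h0 : (fun ξ => corec_r0 S ξ * corec_p a₀ α β ξ) = corec_r0 S * corec_p a₀ α β := rfl
    rw [h0, TemperedDistribution.fourierMultiplierCLM_fourierMultiplierCLM_apply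
      (corec_p_tg a₀ β γ) (hr.mul (corec_p_tg a₀ α β))]
    rfl
  simp_rw [h1]
  rw [Finset.sum_comm]
  have h2 : ∀ γ, ∑ β, TemperedDistribution.fourierMultiplierCLM ℂ
        (fun ξ => corec_p a₀ β γ ξ * (corec_r0 S ξ * corec_p a₀ α β ξ)) (u γ) =
      if α = γ then u γ - TemperedDistribution.fourierMultiplierCLM ℂ (corec_r0 S) (u γ)
        else 0 := by
    intro γ
    have h3 := TemperedDistribution.fourierMultiplierCLM_sum (E := E n) ℂ (s := Finset.univ)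
      (g := fun β => (fun ξ => corec_p a₀ β γ ξ * (corec_r0 S ξ * corec_p a₀ α β ξ)))
      (fun β _ => (corec_p_tg a₀ β γ).mul (hr.mul (corec_p_tg a₀ α β)))
    have h4 := congrArg (fun T : 𝓢'(E n, ℂ) →L[ℂ] 𝓢'(E n, ℂ) => T (u γ)) h3
    simp only [_root_.sum_apply] at h4
    rw [← h4]
    simp_rw [corec_symb a₀ S hsym α γ]
    by_cases h : α = γ
    · simp only [h, if_true]
      have h5 : (fun ξ : E n => 1 - corec_r0 S ξ) = fun ξ => ∑ i ∈ (Finset.univ : Finset (Fin 2)),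
          (![fun _ => (1 : ℂ), fun ξ => (-1 : ℂ) * corec_r0 S ξ] : Fin 2 → E n → ℂ) i ξ := by
        funext ξ
        simp [Fin.sum_univ_two]
        ring
      rw [h5, TemperedDistribution.fourierMultiplierCLM_sum ℂ]
      · simp only [Fin.sum_univ_two, Matrix.cons_val_zero, Matrix.cons_val_one]
        have h6 : (fun ξ : E n => (-1 : ℂ) * corec_r0 S ξ) = (-1 : ℂ) • corec_r0 S := rfl
        rw [h6, TemperedDistribution.fourierMultiplierCLM_smul hr]
        rw [TemperedDistribution.fourierMultiplierCLM_const]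
        show (1 : ℂ) • u γ + (-1 : ℂ) • _ = _
        rw [one_smul, neg_one_smul]
        abel
      · intro i _
        fin_cases i
        · exact Function.HasTemperateGrowth.const (E := E n) (1 : ℂ)
        · exact (Function.HasTemperateGrowth.const (E := E n) (-1 : ℂ)).mul hr
    · simp only [h, if_false]
      have := TemperedDistribution.fourierMultiplierCLM_const (E := E n) (F := ℂ) (0 : ℂ)
      rw [this]
      simp
  simp_rw [h2]
  simp


theorem corec_bounds {ι : Type} [Fintype ι] (a₀ : Fin n → Matrix ι ι ℝ)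
    (S : E n →L[ℝ] E n) {C₀ : ℝ}
    (hC : ∀ ξ : E n, (1 + ‖ξ‖ ^ 2) * (1 + 4 * Real.pi ^ 2 * ‖S ξ‖ ^ 2)⁻¹ ≤ C₀) :
    ∃ Cb : ℝ, 0 ≤ Cb ∧ (∀ ξ, ‖corec_r0 S ξ‖ ≤ Cb) ∧
      (∀ (l : Fin n) (ξ : E n), ‖2 * Real.pi * Complex.I * (ξ l : ℂ) * corec_r0 S ξ‖ ≤ Cb) ∧
      (∀ (α β : ι) (ξ : E n), ‖corec_r0 S ξ * corec_p a₀ α β ξ‖ ≤ Cb) ∧
      (∀ (l : Fin n) (α β : ι) (ξ : E n),
        ‖2 * Real.pi * Complex.I * (ξ l : ℂ) * (corec_r0 S ξ * corec_p a₀ α β ξ)‖ ≤ Cb) := by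
  set A : ℝ := ∑ j, ∑ α, ∑ β, |a₀ j α β| with hA
  have hA0 : 0 ≤ A := by positivity
  have hC00 : 0 ≤ C₀ := by
    have := hC 0
    have h2 : (0 : ℝ) ≤ (1 + ‖(0 : E n)‖ ^ 2) * (1 + 4 * Real.pi ^ 2 * ‖S 0‖ ^ 2)⁻¹ := by
      positivity
    linarith
  have hpi : (0 : ℝ) < Real.pi := Real.pi_pos
  -- bounds for the pieces
  have hr : ∀ ξ : E n, ‖corec_r0 S ξ‖ = (1 + 4 * Real.pi ^ 2 * ‖S ξ‖ ^ 2)⁻¹ := by
    intro ξ
    unfold corec_r0
    rw [Complex.norm_real, Real.norm_eq_abs, abs_of_pos (by positivity)]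
  have hx : ∀ (l : Fin n) (ξ : E n), ‖2 * Real.pi * Complex.I * (ξ l : ℂ)‖ ≤
      2 * Real.pi * ‖ξ‖ := by
    intro l ξ
    rw [norm_mul, norm_mul, norm_mul, Complex.norm_I, Complex.norm_real, Complex.norm_real]
    simp only [Complex.norm_ofNat, mul_one]
    rw [Real.norm_eq_abs, Real.norm_eq_abs, abs_of_pos hpi]
    have : |ξ l| ≤ ‖ξ‖ := by
      have := PiLp.norm_apply_le ξ l
      rwa [Real.norm_eq_abs] at this
    gcongr
  have hp : ∀ (α β : ι) (ξ : E n), ‖corec_p a₀ α β ξ‖ ≤ 2 * Real.pi * ‖ξ‖ * A := by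
    intro α β ξ
    unfold corec_p
    have h1 : ∑ j, |a₀ j α β| ≤ A := by
      rw [hA]
      refine Finset.sum_le_sum (fun j _ => ?_)
      calc |a₀ j α β| ≤ ∑ β, |a₀ j α β| :=
            Finset.single_le_sum (f := fun β => |a₀ j α β|) (fun i _ => abs_nonneg _)
              (Finset.mem_univ β)
        _ ≤ ∑ α, ∑ β, |a₀ j α β| :=
            Finset.single_le_sum (f := fun α => ∑ β, |a₀ j α β|)
              (fun i _ => Finset.sum_nonneg (fun _ _ => abs_nonneg _)) (Finset.mem_univ α)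
    calc ‖∑ j, 2 * Real.pi * Complex.I * (ξ j : ℂ) * (a₀ j α β : ℂ)‖
        ≤ ∑ j, ‖2 * Real.pi * Complex.I * (ξ j : ℂ) * (a₀ j α β : ℂ)‖ := norm_sum_le _ _
      _ ≤ ∑ j, 2 * Real.pi * ‖ξ‖ * |a₀ j α β| := by
          refine Finset.sum_le_sum (fun j _ => ?_)
          rw [norm_mul, Complex.norm_real (a₀ j α β), Real.norm_eq_abs]
          exact mul_le_mul_of_nonneg_right (hx j ξ) (abs_nonneg _)
      _ = 2 * Real.pi * ‖ξ‖ * ∑ j, |a₀ j α β| := by rw [Finset.mul_sum]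
      _ ≤ 2 * Real.pi * ‖ξ‖ * A := by gcongr
  -- the basic inequalities
  have hb : ∀ ξ : E n, ‖corec_r0 S ξ‖ ≤ C₀ ∧ ‖ξ‖ * ‖corec_r0 S ξ‖ ≤ C₀ ∧
      ‖ξ‖ ^ 2 * ‖corec_r0 S ξ‖ ≤ C₀ := by
    intro ξ
    have h1 := hC ξ
    rw [← hr ξ] at h1
    have h2 := norm_nonneg (corec_r0 S ξ)
    have h3 := norm_nonneg ξ
    refine ⟨?_, ?_, ?_⟩
    · nlinarith [sq_nonneg ‖ξ‖, mul_nonneg (sq_nonneg ‖ξ‖) h2]
    · nlinarith [mul_nonneg (sq_nonneg (‖ξ‖ - 1)) h2, mul_nonneg (sq_nonneg ‖ξ‖) h2]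
    · nlinarith [mul_nonneg (sq_nonneg ‖ξ‖) h2]
  refine ⟨(1 + 2 * Real.pi) ^ 2 * (1 + A) * C₀, by positivity, ?_, ?_, ?_, ?_⟩
  · intro ξ
    have h1 : (1 : ℝ) ≤ (1 + 2 * Real.pi) ^ 2 * (1 + A) := by
      have : (1 : ℝ) ≤ (1 + 2 * Real.pi) ^ 2 := by nlinarith
      nlinarith
    calc ‖corec_r0 S ξ‖ ≤ 1 * C₀ := by rw [one_mul]; exact (hb ξ).1
      _ ≤ _ := by gcongr
  · intro l ξ
    have h1 : 2 * Real.pi ≤ (1 + 2 * Real.pi) ^ 2 * (1 + A) := by
      have : 2 * Real.pi ≤ (1 + 2 * Real.pi) ^ 2 := by nlinarith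
      nlinarith [sq_nonneg (1 + 2 * Real.pi)]
    rw [norm_mul]
    calc ‖2 * Real.pi * Complex.I * (ξ l : ℂ)‖ * ‖corec_r0 S ξ‖
        ≤ (2 * Real.pi * ‖ξ‖) * ‖corec_r0 S ξ‖ := by gcongr; exact hx l ξ
      _ = 2 * Real.pi * (‖ξ‖ * ‖corec_r0 S ξ‖) := by ring
      _ ≤ 2 * Real.pi * C₀ := by gcongr; exact (hb ξ).2.1
      _ ≤ _ := by gcongr
  · intro α β ξ
    have h1 : 2 * Real.pi * A ≤ (1 + 2 * Real.pi) ^ 2 * (1 + A) := by
      have : 2 * Real.pi ≤ (1 + 2 * Real.pi) ^ 2 := by nlinarith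
      nlinarith [sq_nonneg (1 + 2 * Real.pi)]
    rw [norm_mul]
    calc ‖corec_r0 S ξ‖ * ‖corec_p a₀ α β ξ‖
        ≤ ‖corec_r0 S ξ‖ * (2 * Real.pi * ‖ξ‖ * A) := by gcongr; exact hp α β ξ
      _ = 2 * Real.pi * A * (‖ξ‖ * ‖corec_r0 S ξ‖) := by ring
      _ ≤ 2 * Real.pi * A * C₀ := by gcongr; exact (hb ξ).2.1
      _ ≤ _ := by gcongr
  · intro l α β ξ
    have h1 : 2 * Real.pi * (2 * Real.pi * A) ≤ (1 + 2 * Real.pi) ^ 2 * (1 + A) := by
      have : 2 * Real.pi * (2 * Real.pi) ≤ (1 + 2 * Real.pi) ^ 2 := by nlinarith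
      nlinarith [sq_nonneg (1 + 2 * Real.pi)]
    rw [norm_mul (2 * Real.pi * Complex.I * (ξ l : ℂ)) (corec_r0 S ξ * corec_p a₀ α β ξ),
      norm_mul (corec_r0 S ξ) (corec_p a₀ α β ξ)]
    calc ‖2 * Real.pi * Complex.I * (ξ l : ℂ)‖ * (‖corec_r0 S ξ‖ * ‖corec_p a₀ α β ξ‖)
        ≤ (2 * Real.pi * ‖ξ‖) * (‖corec_r0 S ξ‖ * (2 * Real.pi * ‖ξ‖ * A)) := by
          gcongr
          · exact hx l ξ
          · exact hp α β ξ
      _ = 2 * Real.pi * (2 * Real.pi * A) * (‖ξ‖ ^ 2 * ‖corec_r0 S ξ‖) := by ring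
      _ ≤ 2 * Real.pi * (2 * Real.pi * A) * C₀ := by gcongr; exact (hb ξ).2.2
      _ ≤ _ := by gcongr

/-- the operator built from a kernel of bounded operators -/
def corec_op {ι : Type} [Fintype ι] (Q2 : Fin n → ι → ι → (corec_H n →L[ℂ] corec_H n))
    (B : Fin n → ι → ι → (corec_H n →L[ℂ] corec_H n)) : (ι → corec_H n) →L[ℂ] (ι → corec_H n) :=
  ContinuousLinearMap.pi (fun α => -∑ j, ∑ β,
    (Q2 j α β).comp (∑ γ, (B j β γ).comp (ContinuousLinearMap.proj γ)))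

theorem corec_op_apply {ι : Type} [Fintype ι] (Q2 : Fin n → ι → ι → (corec_H n →L[ℂ] corec_H n))
    (B : Fin n → ι → ι → (corec_H n →L[ℂ] corec_H n)) (u : ι → corec_H n) (α : ι) :
    corec_op Q2 B u α = -∑ j, ∑ β, Q2 j α β (∑ γ, B j β γ (u γ)) := by
  simp [corec_op]

theorem corec_op_norm {ι : Type} [Fintype ι] (Q2 : Fin n → ι → ι → (corec_H n →L[ℂ] corec_H n))
    (B : Fin n → ι → ι → (corec_H n →L[ℂ] corec_H n)) {Cb ε : ℝ} (hCb : 0 ≤ Cb) (hε : 0 ≤ ε)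
    (hQ : ∀ j α β f, ‖Q2 j α β f‖ ≤ Cb * ‖f‖) (hB : ∀ j β γ f, ‖B j β γ f‖ ≤ ε * ‖f‖)
    (u : ι → corec_H n) : ‖corec_op Q2 B u‖ ≤
      (n * (Fintype.card ι * (Cb * (Fintype.card ι * ε)))) * ‖u‖ := by
  rw [pi_norm_le_iff_of_nonneg (by positivity)]
  intro α
  rw [corec_op_apply, norm_neg]
  calc ‖∑ j, ∑ β, Q2 j α β (∑ γ, B j β γ (u γ))‖
      ≤ ∑ j : Fin n, ‖∑ β, Q2 j α β (∑ γ, B j β γ (u γ))‖ := norm_sum_le _ _
    _ ≤ ∑ j : Fin n, ∑ β, ‖Q2 j α β (∑ γ, B j β γ (u γ))‖ :=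
        Finset.sum_le_sum (fun j _ => norm_sum_le _ _)
    _ ≤ ∑ _j : Fin n, ∑ _β : ι, Cb * (∑ _γ : ι, ε * ‖u‖) := by
        refine Finset.sum_le_sum (fun j _ => Finset.sum_le_sum (fun β _ => ?_))
        refine (hQ j α β _).trans ?_
        gcongr
        refine (norm_sum_le _ _).trans (Finset.sum_le_sum (fun γ _ => ?_))
        refine (hB j β γ _).trans ?_
        gcongr
        exact norm_le_pi_norm u γ
    _ = _ := by
        simp only [Finset.sum_const, Finset.card_univ, nsmul_eq_mul, Fintype.card_fin]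
        ring

open LineDeriv in
/-- CORE estimate, complex scalar components, in tempered distributions. -/
theorem core_dist {ι : Type} [Fintype ι] [DecidableEq ι] (a₀ : Fin n → Matrix ι ι ℝ)
    (S : E n →L[ℝ] E n) (hS : Function.Injective S)
    (hsym : ∀ ξ : E n, (∑ j, ξ j • a₀ j) * (∑ j, ξ j • a₀ j) = -(‖S ξ‖ ^ 2) • (1 : Matrix ι ι ℝ)) :
    ∃ ε > 0, ∀ b : Fin n → ι → ι → E n → ℝ, (∀ j α β, ContDiff ℝ ∞ (b j α β)) →
      (∀ j α β, HasCompactSupport (b j α β)) → (∀ j α β y, |b j α β y| ≤ ε) →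
      ∃ C : ℝ, ∀ w f : ι → Lp ℂ 2 (volume : Measure (E n)),
        (∀ α, ∑ j, ∑ β, ∂_{e j} ((a₀ j α β : ℂ) • (w β : 𝓢'(E n, ℂ)) +
          TemperedDistribution.smulLeftCLM ℂ (fun y => (b j α β y : ℂ)) (w β : 𝓢'(E n, ℂ))) =
            (f α : 𝓢'(E n, ℂ))) →
        ∃ w' : Fin n → ι → Lp ℂ 2 (volume : Measure (E n)),
          (∀ j α, ∂_{e j} (w α : 𝓢'(E n, ℂ)) = (w' j α : 𝓢'(E n, ℂ))) ∧
          ∑ j, ∑ α, ‖w' j α‖ ≤ C * (∑ α, ‖f α‖ + ∑ α, ‖w α‖) := by
  obtain ⟨hr, C0, hC0⟩ := symb_bounded S hS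
  obtain ⟨Cb, hCb0, hb1, hb2, hb3, hb4⟩ := corec_bounds a₀ S hC0
  have hr' : (corec_r0 S).HasTemperateGrowth := hr
  have hm1 : ∀ α β, (fun ξ => corec_r0 S ξ * corec_p a₀ α β ξ).HasTemperateGrowth :=
    fun α β => hr'.mul (corec_p_tg a₀ α β)
  have hd0 : ∀ l : Fin n, (fun ξ : E n => 2 * Real.pi * Complex.I * (ξ l : ℂ) *
      corec_r0 S ξ).HasTemperateGrowth := fun l => (corec_tg l).mul hr'
  have hm2 : ∀ (l : Fin n) (α β : ι), (fun ξ : E n => 2 * Real.pi * Complex.I * (ξ l : ℂ) *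
      (corec_r0 S ξ * corec_p a₀ α β ξ)).HasTemperateGrowth :=
    fun l α β => (corec_tg l).mul (hm1 α β)
  obtain ⟨R0, hR0, hR0n⟩ := corec_clm (TemperedDistribution.fourierMultiplierCLM ℂ (corec_r0 S)) Cb
    (fun f => multiplier_L2 _ hr' Cb hb1 f)
  choose D0 hD0 hD0n using fun l : Fin n => corec_clm
    (TemperedDistribution.fourierMultiplierCLM ℂ
      (fun ξ : E n => 2 * Real.pi * Complex.I * (ξ l : ℂ) * corec_r0 S ξ)) Cb
    (fun f => multiplier_L2 _ (hd0 l) Cb (hb2 l) f)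
  choose Q hQ hQn using fun (α β : ι) => corec_clm
    (TemperedDistribution.fourierMultiplierCLM ℂ
      (fun ξ : E n => corec_r0 S ξ * corec_p a₀ α β ξ)) Cb
    (fun f => multiplier_L2 _ (hm1 α β) Cb (hb3 α β) f)
  choose Q2 hQ2 hQ2n using fun (l : Fin n) (α β : ι) => corec_clm
    (TemperedDistribution.fourierMultiplierCLM ℂ
      (fun ξ : E n => 2 * Real.pi * Complex.I * (ξ l : ℂ) *
        (corec_r0 S ξ * corec_p a₀ α β ξ))) Cb
    (fun f => multiplier_L2 _ (hm2 l α β) Cb (hb4 l α β) f)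
  set N : ℝ := n * (Fintype.card ι * (Cb * Fintype.card ι)) with hN
  have hN0 : 0 ≤ N := by positivity
  set ε : ℝ := 1 / (2 * (N + 1)) with hε
  have hε0 : 0 < ε := by positivity
  refine ⟨ε, hε0, ?_⟩
  intro b hbs hbc hbe
  have hbC : ∀ j α β, ContDiff ℝ ∞ (fun y : E n => (b j α β y : ℂ)) := fun j α β =>
    Complex.ofRealCLM.contDiff.comp (hbs j α β)
  have hbCc : ∀ j α β, HasCompactSupport (fun y : E n => (b j α β y : ℂ)) := fun j α β =>
    (hbc j α β).comp_left (g := Complex.ofReal) Complex.ofReal_zero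
  have hbT : ∀ j α β, (fun y : E n => (b j α β y : ℂ)).HasTemperateGrowth := fun j α β =>
    (hbCc j α β).hasTemperateGrowth (hbC j α β)
  have hdC : ∀ (l j : Fin n) (α β : ι), ContDiff ℝ ∞
      (fun y : E n => fderiv ℝ (fun y : E n => (b j α β y : ℂ)) y (e l)) := by
    intro l j α β
    exact (((hbC j α β).fderiv_right (m := ∞) (by simp)).clm_apply contDiff_const)
  have hdCc : ∀ (l j : Fin n) (α β : ι), HasCompactSupport
      (fun y : E n => fderiv ℝ (fun y : E n => (b j α β y : ℂ)) y (e l)) := fun l j α β =>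
    (hbCc j α β).fderiv_apply (𝕜 := ℝ) (e l)
  have hdT : ∀ (l j : Fin n) (α β : ι),
      (fun y : E n => fderiv ℝ (fun y : E n => (b j α β y : ℂ)) y (e l)).HasTemperateGrowth :=
    fun l j α β => (hdCc l j α β).hasTemperateGrowth (hdC l j α β)
  choose B hB hBn using fun (j : Fin n) (α β : ι) => corec_clm
    (TemperedDistribution.smulLeftCLM ℂ (fun y : E n => (b j α β y : ℂ))) ε
    (fun f => by
      obtain ⟨h, h1, h2, _⟩ := smul_L2 _ (hbT j α β) ε (fun y => by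
        rw [Complex.norm_real]; exact hbe j α β y) f
      exact ⟨h, h1, h2⟩)
  have hDB : ∀ (l j : Fin n) (α β : ι), ∃ M : corec_H n →L[ℂ] corec_H n, ∀ f : corec_H n,
      ((M f : corec_H n) : 𝓢'(E n, ℂ)) = TemperedDistribution.smulLeftCLM ℂ
        (fun y : E n => fderiv ℝ (fun y : E n => (b j α β y : ℂ)) y (e l)) (f : 𝓢'(E n, ℂ)) := by
    intro l j α β
    obtain ⟨c, hc⟩ := (hdCc l j α β).exists_bound_of_continuous (hdC l j α β).continuous
    obtain ⟨M, hM, _⟩ := corec_clm (TemperedDistribution.smulLeftCLM ℂ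
        (fun y : E n => fderiv ℝ (fun y : E n => (b j α β y : ℂ)) y (e l))) c
      (fun f => by
        obtain ⟨h, h1, h2, _⟩ := smul_L2 _ (hdT l j α β) c hc f
        exact ⟨h, h1, h2⟩)
    exact ⟨M, hM⟩
  choose DB hDB using hDB
  set T := corec_op Q2 B with hTdef
  have hT : ∀ u, ‖T u‖ ≤ (1 / 2) * ‖u‖ := by
    intro u
    refine (corec_op_norm Q2 B hCb0 hε0.le hQ2n hBn u).trans ?_
    gcongr
    calc (n : ℝ) * (Fintype.card ι * (Cb * (Fintype.card ι * ε))) = N * ε := by rw [hN]; ring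
      _ = N / (2 * (N + 1)) := by rw [hε]; ring
      _ ≤ 1 / 2 := by
        rw [div_le_div_iff₀ (by positivity) (by norm_num)]
        linarith
  set K : Fin n → ((ι → corec_H n) →L[ℂ] (ι → corec_H n)) :=
    fun l => corec_op Q2 (DB l) with hKdef
  have hTd : ∀ (u : ι → corec_H n) (α : ι), ((T u α : corec_H n) : 𝓢'(E n, ℂ)) =
      -∑ j, ∑ β, TemperedDistribution.fourierMultiplierCLM ℂ
        (fun ξ : E n => 2 * Real.pi * Complex.I * (ξ j : ℂ) * (corec_r0 S ξ * corec_p a₀ α β ξ))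
        (∑ γ, TemperedDistribution.smulLeftCLM ℂ (fun y : E n => (b j β γ y : ℂ))
          (u γ : 𝓢'(E n, ℂ))) := by
    intro u α
    rw [hTdef, corec_op_apply, corec_neg, corec_sum]
    congr 1
    refine Finset.sum_congr rfl (fun j _ => ?_)
    rw [corec_sum]
    refine Finset.sum_congr rfl (fun β _ => ?_)
    rw [hQ2, corec_sum]
    simp_rw [hB]
  have hKd : ∀ (l : Fin n) (u : ι → corec_H n) (α : ι), ((K l u α : corec_H n) : 𝓢'(E n, ℂ)) =
      -∑ j, ∑ β, TemperedDistribution.fourierMultiplierCLM ℂ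
        (fun ξ : E n => 2 * Real.pi * Complex.I * (ξ j : ℂ) * (corec_r0 S ξ * corec_p a₀ α β ξ))
        (∑ γ, TemperedDistribution.smulLeftCLM ℂ
          (fun y : E n => fderiv ℝ (fun y : E n => (b j β γ y : ℂ)) y (e l))
          (u γ : 𝓢'(E n, ℂ))) := by
    intro l u α
    rw [hKdef]
    show ((corec_op Q2 (DB l) u α : corec_H n) : 𝓢'(E n, ℂ)) = _
    rw [corec_op_apply, corec_neg, corec_sum]
    congr 1
    refine Finset.sum_congr rfl (fun j _ => ?_)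
    rw [corec_sum]
    refine Finset.sum_congr rfl (fun β _ => ?_)
    rw [hQ2, corec_sum]
    simp_rw [hDB]
  refine ⟨2 * (n * (Fintype.card ι * (Cb + ∑ l, ‖K l‖))), ?_⟩
  intro w f hwf
  set g : ι → corec_H n := fun α => R0 (w α) + ∑ β, Q α β (f β) with hg
  set g' : Fin n → ι → corec_H n := fun l α => D0 l (w α) + ∑ β, Q2 l α β (f β) with hg'
  have hgd : ∀ α, ((g α : corec_H n) : 𝓢'(E n, ℂ)) =
      TemperedDistribution.fourierMultiplierCLM ℂ (corec_r0 S) (w α : 𝓢'(E n, ℂ)) +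
      ∑ β, TemperedDistribution.fourierMultiplierCLM ℂ
        (fun ξ : E n => corec_r0 S ξ * corec_p a₀ α β ξ) (f β : 𝓢'(E n, ℂ)) := by
    intro α
    rw [hg]
    show ((R0 (w α) + ∑ β, Q α β (f β) : corec_H n) : 𝓢'(E n, ℂ)) = _
    rw [corec_add, corec_sum, hR0]
    simp_rw [hQ]
  have hg'd : ∀ l α, ((g' l α : corec_H n) : 𝓢'(E n, ℂ)) =
      TemperedDistribution.fourierMultiplierCLM ℂ
        (fun ξ : E n => 2 * Real.pi * Complex.I * (ξ l : ℂ) * corec_r0 S ξ)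
        (w α : 𝓢'(E n, ℂ)) +
      ∑ β, TemperedDistribution.fourierMultiplierCLM ℂ
        (fun ξ : E n => 2 * Real.pi * Complex.I * (ξ l : ℂ) *
          (corec_r0 S ξ * corec_p a₀ α β ξ)) (f β : 𝓢'(E n, ℂ)) := by
    intro l α
    rw [hg']
    show ((D0 l (w α) + ∑ β, Q2 l α β (f β) : corec_H n) : 𝓢'(E n, ℂ)) = _
    rw [corec_add, corec_sum, hD0]
    simp_rw [hQ2]
  -- the equation
  have hw : w = g + T w := by
    funext α
    apply corec_inj
    show ((w α : corec_H n) : 𝓢'(E n, ℂ)) = ((g α + T w α : corec_H n) : 𝓢'(E n, ℂ))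
    rw [corec_add, hgd, hTd]
    have h1 := corec_parametrix a₀ S hr' hsym (fun β => (w β : 𝓢'(E n, ℂ))) α
    have h2 : ∀ β, ∑ j, ∑ γ, ∂_{e j} ((a₀ j β γ : ℂ) • (w γ : 𝓢'(E n, ℂ))) =
        (f β : 𝓢'(E n, ℂ)) - ∑ j, ∂_{e j} (∑ γ, TemperedDistribution.smulLeftCLM ℂ
          (fun y : E n => (b j β γ y : ℂ)) (w γ : 𝓢'(E n, ℂ))) := by
      intro β
      rw [← hwf β]
      simp_rw [lineDerivOp_add, Finset.sum_add_distrib]
      have h3 : ∀ j : Fin n, ∂_{e j} (∑ γ, TemperedDistribution.smulLeftCLM ℂ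
          (fun y : E n => (b j β γ y : ℂ)) (w γ : 𝓢'(E n, ℂ))) =
          ∑ γ, ∂_{e j} (TemperedDistribution.smulLeftCLM ℂ
          (fun y : E n => (b j β γ y : ℂ)) (w γ : 𝓢'(E n, ℂ))) := by
        intro j
        exact map_sum (lineDerivOpCLM ℂ 𝓢'(E n, ℂ) (e j)) _ _
      simp_rw [h3]
      abel
    simp_rw [h2] at h1
    rw [add_assoc]
    refine h1.trans ?_
    congr 1
    simp_rw [map_sub, Finset.sum_sub_distrib]
    rw [sub_eq_add_neg]
    congr 2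
    rw [Finset.sum_comm]
    refine Finset.sum_congr rfl (fun β _ => ?_)
    rw [map_sum]
    refine Finset.sum_congr rfl (fun j _ => ?_)
    rw [corec_mult_deriv j _ (hm1 α β)]
  -- the property `P`
  have key : ∀ l : Fin n, ∃ v : ι → corec_H n, (∀ α, ∂_{e l} (w α : 𝓢'(E n, ℂ)) =
      (v α : 𝓢'(E n, ℂ))) ∧ ‖v‖ ≤ 2 * ‖g' l + K l w‖ := by
    intro l
    refine corec_iter T (K l) hT g (g' l) w hw
      (fun u u' => ∀ α, ∂_{e l} (u α : 𝓢'(E n, ℂ)) = (u' α : 𝓢'(E n, ℂ))) ?_ ?_ ?_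
    · intro α
      have h0 : (((0 : ι → corec_H n) α : corec_H n) : 𝓢'(E n, ℂ)) = 0 :=
        map_zero (Lp.toTemperedDistributionCLM ℂ (volume : Measure (E n)) 2)
      rw [h0]
      exact map_zero (lineDerivOpCLM ℂ 𝓢'(E n, ℂ) (e l))
    · intro u u' huu α
      show ∂_{e l} ((g α + T u α : corec_H n) : 𝓢'(E n, ℂ)) =
        ((g' l α + K l u α + T u' α : corec_H n) : 𝓢'(E n, ℂ))
      rw [corec_add (g α) (T u α), corec_add (g' l α + K l u α) (T u' α),
        corec_add (g' l α) (K l u α), lineDerivOp_add, hgd, hg'd, hTd, hTd, hKd,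
        lineDerivOp_add, corec_deriv_mult l _ hr', add_assoc _ (-_) (-_)]
      congr 1
      · congr 1
        refine (map_sum (lineDerivOpCLM ℂ 𝓢'(E n, ℂ) (e l)) _ _).trans ?_
        refine Finset.sum_congr rfl (fun β _ => ?_)
        exact corec_deriv_mult l _ (hm1 α β) _
      · refine (map_neg (lineDerivOpCLM ℂ 𝓢'(E n, ℂ) (e l)) _).trans ?_
        rw [← neg_add]
        congr 1
        refine (map_sum (lineDerivOpCLM ℂ 𝓢'(E n, ℂ) (e l)) _ _).trans ?_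
        rw [← Finset.sum_add_distrib]
        refine Finset.sum_congr rfl (fun j _ => ?_)
        refine (map_sum (lineDerivOpCLM ℂ 𝓢'(E n, ℂ) (e l)) _ _).trans ?_
        rw [← Finset.sum_add_distrib]
        refine Finset.sum_congr rfl (fun β _ => ?_)
        rw [← map_add]
        refine (corec_deriv_mult l _ (hm2 j α β) _).trans ?_
        rw [← corec_mult_deriv l _ (hm2 j α β)]
        congr 1
        refine (map_sum (lineDerivOpCLM ℂ 𝓢'(E n, ℂ) (e l)) _ _).trans ?_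
        rw [← Finset.sum_add_distrib]
        refine Finset.sum_congr rfl (fun γ _ => ?_)
        refine (lineDeriv_smul _ (hbT j β γ) (e l) _).trans ?_
        rw [huu γ]
    · intro u u' a a' hu ha ha' α
      have hcont : Continuous (fun x : corec_H n => ((x : corec_H n) : 𝓢'(E n, ℂ))) :=
        (Lp.toTemperedDistributionCLM ℂ (volume : Measure (E n)) 2).continuous
      have h1 : Tendsto (fun m => ((u m α : corec_H n) : 𝓢'(E n, ℂ))) atTop
          (𝓝 ((a α : corec_H n) : 𝓢'(E n, ℂ))) :=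
        (hcont.tendsto _).comp ((continuous_apply α).tendsto a |>.comp ha)
      have h2 : Tendsto (fun m => ((u' m α : corec_H n) : 𝓢'(E n, ℂ))) atTop
          (𝓝 ((a' α : corec_H n) : 𝓢'(E n, ℂ))) :=
        (hcont.tendsto _).comp ((continuous_apply α).tendsto a' |>.comp ha')
      have h3 : Tendsto (fun m => ∂_{e l} ((u m α : corec_H n) : 𝓢'(E n, ℂ))) atTop
          (𝓝 (∂_{e l} ((a α : corec_H n) : 𝓢'(E n, ℂ)))) :=
        ((lineDerivOpCLM ℂ 𝓢'(E n, ℂ) (e l)).continuous.tendsto _).comp h1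
      have h4 : (fun m => ∂_{e l} ((u m α : corec_H n) : 𝓢'(E n, ℂ))) =
          fun m => ((u' m α : corec_H n) : 𝓢'(E n, ℂ)) := funext (fun m => hu m α)
      rw [h4] at h3
      exact tendsto_nhds_unique h3 h2
  choose w' hw' hw'n using key
  refine ⟨w', hw', ?_⟩
  have hwle : ‖w‖ ≤ ∑ α, ‖w α‖ := by
    rw [pi_norm_le_iff_of_nonneg (by positivity)]
    intro α
    exact Finset.single_le_sum (f := fun α => ‖w α‖) (fun _ _ => norm_nonneg _)
      (Finset.mem_univ α)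
  set F : ℝ := ∑ α, ‖f α‖ + ∑ α, ‖w α‖ with hF
  have hF0 : 0 ≤ F := by positivity
  have hKs : ∀ l, ‖K l‖ ≤ ∑ l, ‖K l‖ := fun l =>
    Finset.single_le_sum (f := fun l => ‖K l‖) (fun _ _ => norm_nonneg _) (Finset.mem_univ l)
  have hbound : ∀ l, ‖g' l + K l w‖ ≤ (Cb + ∑ l, ‖K l‖) * F := by
    intro l
    have h1 : ‖g' l‖ ≤ Cb * F := by
      rw [pi_norm_le_iff_of_nonneg (by positivity)]
      intro α
      calc ‖D0 l (w α) + ∑ β, Q2 l α β (f β)‖ ≤ ‖D0 l (w α)‖ + ∑ β, ‖Q2 l α β (f β)‖ := by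
            refine (norm_add_le _ _).trans ?_
            gcongr
            exact norm_sum_le _ _
        _ ≤ Cb * ∑ α, ‖w α‖ + ∑ β, Cb * ‖f β‖ := by
            gcongr with β _
            · refine (hD0n l (w α)).trans ?_
              gcongr
              exact Finset.single_le_sum (f := fun α => ‖w α‖) (fun _ _ => norm_nonneg _)
                (Finset.mem_univ α)
            · exact hQ2n l α β (f β)
        _ = Cb * F := by rw [hF, ← Finset.mul_sum]; ring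
    have h2 : ‖K l w‖ ≤ (∑ l, ‖K l‖) * F := by
      refine ((K l).le_opNorm w).trans ?_
      have : ‖w‖ ≤ F := by
        rw [hF]
        have : (0 : ℝ) ≤ ∑ α, ‖f α‖ := by positivity
        linarith
      exact mul_le_mul (hKs l) this (norm_nonneg _) (by positivity)
    calc ‖g' l + K l w‖ ≤ ‖g' l‖ + ‖K l w‖ := norm_add_le _ _
      _ ≤ _ := by rw [add_mul]; exact add_le_add h1 h2
  calc ∑ j, ∑ α, ‖w' j α‖ ≤ ∑ _j : Fin n, ∑ _α : ι, 2 * ((Cb + ∑ l, ‖K l‖) * F) := by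
        refine Finset.sum_le_sum (fun j _ => Finset.sum_le_sum (fun α _ => ?_))
        refine (norm_le_pi_norm (w' j) α).trans ((hw'n j).trans ?_)
        gcongr
        exact hbound j
    _ = _ := by
        simp only [Finset.sum_const, Finset.card_univ, nsmul_eq_mul, Fintype.card_fin]
        ring

end ANCO
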