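import Pool.Agent.Helper39.Anco.CoreRealA
import Pool.Agent.Helper39.Anco.Core

/-!
# CORE estimate, real vector valued version
-/

open scoped ContDiff Topology Manifold InnerProductSpace SchwartzMap
open Set MeasureTheory Filter

set_option maxSynthPendingDepth 3

noncomputable section
namespace ANCO

variable {n : ℕ}

section mat
variable {ι : Type} [Fintype ι] [DecidableEq ι]

/-- the matrix of an operator -/
def corer_mat (L : Wd ι →L[ℝ] Wd ι) : Matrix ι ι ℝ :=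
  Matrix.of fun α β => (L (EuclideanSpace.single β 1)) α

theorem corer_mat_apply (L : Wd ι →L[ℝ] Wd ι) (α β : ι) :
    corer_mat L α β = (L (EuclideanSpace.single β 1)) α := rfl

theorem corer_sum_single (x : Wd ι) : ∑ β, x β • (EuclideanSpace.single β (1 : ℝ) : Wd ι) = x := by
  ext α
  rw [WithLp.ofLp_sum, Finset.sum_apply]
  simp [Finset.sum_ite_eq]

theorem corer_apply (L : Wd ι →L[ℝ] Wd ι) (x : Wd ι) (α : ι) :
    (L x) α = ∑ β, corer_mat L α β * x β := by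
  conv_lhs => rw [← corer_sum_single x]
  rw [map_sum, WithLp.ofLp_sum, Finset.sum_apply]
  simp [corer_mat_apply, mul_comm]

theorem corer_mat_comp (L L' : Wd ι →L[ℝ] Wd ι) :
    corer_mat L * corer_mat L' = Matrix.of fun α β => (L (L' (EuclideanSpace.single β 1))) α := by
  ext α β
  rw [Matrix.mul_apply, Matrix.of_apply, corer_apply]
  rfl

theorem corer_mat_sum (ξ : E n) (a : Fin n → (Wd ι →L[ℝ] Wd ι)) :
    ∑ j, ξ j • corer_mat (a j) = corer_mat (∑ j, ξ j • a j) := by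
  ext α β
  rw [Matrix.sum_apply]
  simp [corer_mat_apply, WithLp.ofLp_sum]

end mat

theorem corer_norm_sq (f : Lp ℂ 2 (volume : Measure (E n))) : ‖f‖ ^ 2 = ∫ y, ‖f y‖ ^ 2 := by
  have h1 : (⟪f, f⟫_ℂ) = ((‖f‖ ^ 2 : ℝ) : ℂ) := by
    rw [inner_self_eq_norm_sq_to_K]; norm_cast
  rw [L2.inner_def] at h1
  have h2 : ∀ y, (⟪f y, f y⟫_ℂ) = ((‖f y‖ ^ 2 : ℝ) : ℂ) := by
    intro y
    rw [inner_self_eq_norm_sq_to_K]; norm_cast
  simp only [h2] at h1
  rw [integral_complex_ofReal] at h1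
  exact_mod_cast h1.symm

theorem corer_proj_memLp {ι : Type} [Fintype ι] {w : E n → Wd ι} {μ : Measure (E n)}
    (hw : MemLp w 2 μ) (α : ι) : MemLp (fun y => w y α) 2 μ :=
  (EuclideanSpace.proj (𝕜 := ℝ) α).comp_memLp' hw

open LineDeriv in
theorem corer_eq {ι : Type} [Fintype ι] [DecidableEq ι] {a₀ : Fin n → (Wd ι →L[ℝ] Wd ι)}
    {b : Fin n → E n → (Wd ι →L[ℝ] Wd ι)} (hb : ∀ j, ContDiff ℝ ∞ (b j)) {ε : ℝ}
    (hbε : ∀ j y, ‖b j y‖ ≤ ε) (hbt : ∀ j α β,
      Function.HasTemperateGrowth (fun y => ((corer_mat (b j y) α β : ℝ) : ℂ)))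
    {w f : E n → Wd ι} (hw : MemLp w 2) (hf : MemLp f 2)
    (heq : ∀ ψ : E n → Wd ι, Test univ ψ →
      ∫ y, ∑ j, ⟪(a₀ j + b j y) (w y), fderiv ℝ ψ y (e j)⟫_ℝ = -∫ y, ⟪f y, ψ y⟫_ℝ)
    {wL fL : ι → Lp ℂ 2 (volume : Measure (E n))}
    (hwL : ∀ α, ∀ᵐ y, wL α y = ((w y α : ℝ) : ℂ)) (hfL : ∀ α, ∀ᵐ y, fL α y = ((f y α : ℝ) : ℂ))
    (α : ι) : ∑ j, ∑ β, ∂_{e j} ((corer_mat (a₀ j) α β : ℂ) • (wL β : 𝓢'(E n, ℂ)) +
          TemperedDistribution.smulLeftCLM ℂ (fun y => ((corer_mat (b j y) α β : ℝ) : ℂ))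
            (wL β : 𝓢'(E n, ℂ))) = (fL α : 𝓢'(E n, ℂ)) := by
  set u : Fin n → E n → ℝ := fun j y => ((a₀ j + b j y) (w y)) α with hu
  have hum : ∀ j, MemLp (u j) 2 := by
    intro j
    have hm : AEStronglyMeasurable (fun y => (a₀ j + b j y) (w y)) volume := by
      have h1 : AEStronglyMeasurable (fun y => a₀ j + b j y) volume :=
        (continuous_const.add (hb j).continuous).aestronglyMeasurable
      exact (ContinuousLinearMap.id ℝ (Wd ι →L[ℝ] Wd ι)).aestronglyMeasurable_comp₂ h1 hw.1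
    have h2 : MemLp (fun y => (a₀ j + b j y) (w y)) 2 := by
      refine hw.of_le_mul hm (c := ‖a₀ j‖ + ε) ?_
      filter_upwards with y
      refine (a₀ j + b j y).le_of_opNorm_le ?_ _
      exact (norm_add_le _ _).trans (by gcongr; exact hbε j y)
    exact corer_proj_memLp h2 α
  have hfm : MemLp (fun y => f y α) 2 := corer_proj_memLp hf α
  have key := corer_ext hum hfm (fun φ hφ hc => by
    have h1 := heq (fun y => φ y • (EuclideanSpace.single α (1 : ℝ) : Wd ι))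
      ⟨hφ.smul contDiff_const, hc.smul_right, subset_univ _⟩
    have h2 : ∀ y v, fderiv ℝ (fun y => φ y • (EuclideanSpace.single α (1 : ℝ) : Wd ι)) y v =
        fderiv ℝ φ y v • (EuclideanSpace.single α (1 : ℝ) : Wd ι) := by
      intro y v
      rw [fderiv_smul_const (hφ.contDiffAt.differentiableAt (by simp))]
      rfl
    simp only [h2, inner_smul_right, EuclideanSpace.inner_single_right] at h1
    simp only [one_mul, conj_trivial] at h1
    rw [show (fun y => ∑ j, u j y * fderiv ℝ φ y (e j)) =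
      fun y => ∑ j, fderiv ℝ φ y (e j) * ((a₀ j + b j y) (w y)) α from by
        funext y; exact Finset.sum_congr rfl fun j _ => mul_comm _ _, h1]
    congr 2
    funext y
    exact mul_comm _ _)
  ext φ
  have hbb : ∀ j β, ∃ C, ∀ y, ‖((corer_mat (b j y) α β : ℝ) : ℂ)‖ ≤ C := by
    intro j β
    refine ⟨ε, fun y => ?_⟩
    rw [Complex.norm_real, corer_mat_apply, Real.norm_eq_abs, ← Real.norm_eq_abs]
    refine (PiLp.norm_apply_le _ _).trans ?_
    refine ((b j y).le_of_opNorm_le (hbε j y) _).trans ?_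
    simp
  have hwm : ∀ β, MemLp (fun y => ((w y β : ℝ) : ℂ)) 2 := fun β =>
    Complex.ofRealCLM.comp_memLp' (corer_proj_memLp hw β)
  have hmul : ∀ (β : ι) (ψ : 𝓢(E n, ℂ)), Integrable (fun y => ψ y • wL β y) := by
    intro β ψ
    have h1 : Integrable (fun y => ψ y * wL β y) :=
      (ψ.memLp (μ := (volume : Measure (E n))) 2).integrable_mul (Lp.memLp (wL β))
    exact h1
  have hj : ∀ j β, (∂_{e j} ((corer_mat (a₀ j) α β : ℂ) • (wL β : 𝓢'(E n, ℂ)) +
          TemperedDistribution.smulLeftCLM ℂ (fun y => ((corer_mat (b j y) α β : ℝ) : ℂ))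
            (wL β : 𝓢'(E n, ℂ)))) φ =
      -∫ y, ((((corer_mat (a₀ j) α β + corer_mat (b j y) α β) * w y β : ℝ)) : ℂ) *
        (∂_{e j} φ) y := by
    intro j β
    rw [TemperedDistribution.lineDerivOp_apply_apply, map_neg]
    have h1 : ((corer_mat (a₀ j) α β : ℂ) • (wL β : 𝓢'(E n, ℂ)) +
          TemperedDistribution.smulLeftCLM ℂ (fun y => ((corer_mat (b j y) α β : ℝ) : ℂ))
            (wL β : 𝓢'(E n, ℂ))) (∂_{e j} φ) =
        (corer_mat (a₀ j) α β : ℂ) • ((wL β : 𝓢'(E n, ℂ)) (∂_{e j} φ)) +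
        (wL β : 𝓢'(E n, ℂ)) (SchwartzMap.smulLeftCLM ℂ
          (fun y => ((corer_mat (b j y) α β : ℝ) : ℂ)) (∂_{e j} φ)) := rfl
    have i1 : Integrable (fun y => (corer_mat (a₀ j) α β : ℂ) • (∂_{e j} φ) y • wL β y) := by
      have := (hmul β (∂_{e j} φ)).smul (corer_mat (a₀ j) α β : ℂ)
      exact this
    rw [h1, Lp.toTemperedDistribution_apply, Lp.toTemperedDistribution_apply, ← integral_smul,
      ← integral_add i1 (hmul β _)]
    congr 1
    apply integral_congr_ae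
    filter_upwards [hwL β] with y hy
    rw [hy, SchwartzMap.smulLeftCLM_apply_apply (hbt j α β)]
    push_cast
    simp only [smul_eq_mul]
    ring
  have hint : ∀ j β, Integrable (fun y =>
      ((((corer_mat (a₀ j) α β + corer_mat (b j y) α β) * w y β : ℝ)) : ℂ) *
        (∂_{e j} φ) y) := by
    intro j β
    have h1 := ((hmul β (∂_{e j} φ)).smul (corer_mat (a₀ j) α β : ℂ)).add
      (hmul β (SchwartzMap.smulLeftCLM ℂ
          (fun y => ((corer_mat (b j y) α β : ℝ) : ℂ)) (∂_{e j} φ)))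
    refine h1.congr ?_
    filter_upwards [hwL β] with y hy
    simp only [Pi.add_apply, Pi.smul_apply]
    rw [hy, SchwartzMap.smulLeftCLM_apply_apply (hbt j α β)]
    push_cast
    simp only [smul_eq_mul]
    ring
  have hsum : (∑ j, ∑ β, ∂_{e j} ((corer_mat (a₀ j) α β : ℂ) • (wL β : 𝓢'(E n, ℂ)) +
          TemperedDistribution.smulLeftCLM ℂ (fun y => ((corer_mat (b j y) α β : ℝ) : ℂ))
            (wL β : 𝓢'(E n, ℂ)))) φ = ∑ j, ∑ β, (∂_{e j} ((corer_mat (a₀ j) α β : ℂ) •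
          (wL β : 𝓢'(E n, ℂ)) +
          TemperedDistribution.smulLeftCLM ℂ (fun y => ((corer_mat (b j y) α β : ℝ) : ℂ))
            (wL β : 𝓢'(E n, ℂ)))) φ := by
    simp only [_root_.sum_apply]
  rw [hsum]
  simp only [hj]
  simp only [Finset.sum_neg_distrib]
  rw [Lp.toTemperedDistribution_apply]
  have e1 : ∑ j, ∑ β, ∫ y, ((((corer_mat (a₀ j) α β + corer_mat (b j y) α β) * w y β : ℝ)) : ℂ) *
        (∂_{e j} φ) y = ∫ y, ∑ j, (u j y : ℂ) * (∂_{e j} φ) y := by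
    rw [integral_finsetSum _ (fun j _ => corer_integrable_mul (hum j) ((∂_{e j} φ : 𝓢(E n, ℂ)).memLp 2))]
    apply Finset.sum_congr rfl
    intro j _
    rw [← integral_finsetSum _ (fun β _ => hint j β)]
    congr 1
    funext y
    rw [← Finset.sum_mul, ← Complex.ofReal_sum]
    congr 2
    rw [hu]
    simp only [_root_.add_apply, PiLp.add_apply]
    rw [corer_apply, corer_apply, ← Finset.sum_add_distrib]
    exact Finset.sum_congr rfl fun β _ => add_mul _ _ _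
  rw [e1, key φ, neg_neg]
  apply integral_congr_ae
  filter_upwards [hfL α] with y hy
  rw [hy, smul_eq_mul, mul_comm]

open LineDeriv in
/-- distributional derivative in `L²` implies the weak derivative of the real part -/
theorem corer_wder {ι : Type} [Fintype ι] {w : E n → Wd ι} (hw : MemLp w 2)
    {wL w' : ι → Lp ℂ 2 (volume : Measure (E n))}
    (hwL : ∀ α, ∀ᵐ y, wL α y = ((w y α : ℝ) : ℂ)) (j : Fin n)
    (h : ∀ α, ∂_{e j} (wL α : 𝓢'(E n, ℂ)) = (w' α : 𝓢'(E n, ℂ))) :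
    WDer univ j w (fun y => WithLp.toLp 2 (fun α => (w' α y).re)) := by
  classical
  intro ψ hψ
  have hψd := lt_test_fderiv hψ (e j)
  have comp : ∀ {φ : E n → Wd ι}, Test univ φ → ∀ α, ContDiff ℝ ∞ (fun y => ((φ y α : ℝ) : ℂ)) ∧
      HasCompactSupport (fun y => ((φ y α : ℝ) : ℂ)) := by
    intro φ hφ α
    refine ⟨Complex.ofRealCLM.contDiff.comp
      ((EuclideanSpace.proj (𝕜 := ℝ) α : Wd ι →L[ℝ] ℝ).contDiff.comp hφ.1), ?_⟩
    exact hφ.2.1.comp_left (g := fun x : Wd ι => ((x α : ℝ) : ℂ)) (by simp)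
  have hcd : ∀ α y, fderiv ℝ (fun y => ((ψ y α : ℝ) : ℂ)) y (e j) =
      ((fderiv ℝ ψ y (e j) α : ℝ) : ℂ) := by
    intro α y
    have h3 := ((Complex.ofRealCLM.comp (EuclideanSpace.proj (𝕜 := ℝ) α :
      Wd ι →L[ℝ] ℝ)).hasFDerivAt.comp y (hψ.1.contDiffAt.differentiableAt (by simp) :
        DifferentiableAt ℝ ψ y).hasFDerivAt).fderiv
    have h4 : (fun y => ((ψ y α : ℝ) : ℂ)) = (Complex.ofRealCLM.comp
      (EuclideanSpace.proj (𝕜 := ℝ) α : Wd ι →L[ℝ] ℝ)) ∘ ψ := rfl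
    rw [h4, h3]; rfl
  -- scalar identity
  have key : ∀ α, ∫ y, w y α * fderiv ℝ ψ y (e j) α = -∫ y, (w' α y).re * ψ y α := by
    intro α
    obtain ⟨c1, c2⟩ := comp hψ α
    set Φ : 𝓢(E n, ℂ) := c2.toSchwartzMap c1 with hΦ
    have hΦa : ∀ y, Φ y = ((ψ y α : ℝ) : ℂ) := fun y => rfl
    have hΦd : ∀ y, (∂_{e j} Φ) y = ((fderiv ℝ ψ y (e j) α : ℝ) : ℂ) := by
      intro y
      rw [SchwartzMap.lineDerivOp_apply_eq_fderiv, ← hcd]
      rfl
    have h1 : (∂_{e j} (wL α : 𝓢'(E n, ℂ))) Φ = (w' α : 𝓢'(E n, ℂ)) Φ := by rw [h α]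
    rw [TemperedDistribution.lineDerivOp_apply_apply, map_neg, Lp.toTemperedDistribution_apply,
      Lp.toTemperedDistribution_apply] at h1
    have i1 : Integrable (fun y => (∂_{e j} Φ) y • wL α y) := by
      have := ((∂_{e j} Φ : 𝓢(E n, ℂ)).memLp (μ := (volume : Measure (E n))) 2).integrable_mul
        (Lp.memLp (wL α))
      exact this
    have i2 : Integrable (fun y => Φ y • w' α y) := by
      have := (Φ.memLp (μ := (volume : Measure (E n))) 2).integrable_mul (Lp.memLp (w' α))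
      exact this
    have h2 := congrArg Complex.reCLM h1
    rw [map_neg, ← Complex.reCLM.integral_comp_comm i1, ← Complex.reCLM.integral_comp_comm i2]
      at h2
    have e1 : ∫ y, Complex.reCLM ((∂_{e j} Φ) y • wL α y) =
        ∫ y, w y α * fderiv ℝ ψ y (e j) α := by
      apply integral_congr_ae
      filter_upwards [hwL α] with y hy
      rw [hy, hΦd, smul_eq_mul, ← Complex.ofReal_mul]
      simp [mul_comm]
    have e2 : ∫ y, Complex.reCLM (Φ y • w' α y) = ∫ y, (w' α y).re * ψ y α := by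
      congr 1
      funext y
      rw [hΦa]
      simp [mul_comm]
    rw [e1, e2] at h2
    linarith
  have j1 : ∀ α, Integrable (fun y => w y α * fderiv ℝ ψ y (e j) α) := by
    intro α
    have h1 : MemLp (fun y => fderiv ℝ ψ y (e j) α) 2 (volume : Measure (E n)) :=
      corer_proj_memLp (corer_memLp_compact hψd.1.continuous hψd.2.1) α
    exact (corer_proj_memLp hw α).integrable_mul h1
  have j2 : ∀ α, Integrable (fun y => (w' α y).re * ψ y α) := by
    intro α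
    have h1 : MemLp (fun y => ψ y α) 2 (volume : Measure (E n)) :=
      corer_proj_memLp (corer_memLp_compact hψ.1.continuous hψ.2.1) α
    have h2 : MemLp (fun y => (w' α y).re) 2 (volume : Measure (E n)) :=
      Complex.reCLM.comp_memLp' (Lp.memLp (w' α))
    exact h2.integrable_mul h1
  have e1 : ∀ y, ⟪w y, fderiv ℝ ψ y (e j)⟫_ℝ = ∑ α, w y α * fderiv ℝ ψ y (e j) α := by
    intro y
    rw [PiLp.inner_apply]
    exact Finset.sum_congr rfl fun α _ => by simp [mul_comm]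
  have e2 : ∀ y, ⟪(WithLp.toLp 2 (fun α => (w' α y).re) : Wd ι), ψ y⟫_ℝ =
      ∑ α, (w' α y).re * ψ y α := by
    intro y
    rw [PiLp.inner_apply]
    exact Finset.sum_congr rfl fun α _ => by simp [mul_comm]
  simp only [e1, e2]
  rw [integral_finsetSum _ (fun α _ => j1 α), integral_finsetSum _ (fun α _ => j2 α),
    ← Finset.sum_neg_distrib]
  exact Finset.sum_congr rfl fun α _ => key α

theorem corer_sum_sq {ι : Type} [Fintype ι] (x : ι → ℝ) :
    (∑ α, x α) ^ 2 ≤ (Fintype.card ι : ℝ) * ∑ α, x α ^ 2 := by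
  have := sq_sum_le_card_mul_sum_sq (s := (Finset.univ : Finset ι)) (f := x)
  simpa using this

open LineDeriv in
/-- CORE estimate, real vector valued. -/
theorem core_real {ι : Type} [Fintype ι] (a₀ : Fin n → (Wd ι →L[ℝ] Wd ι))
    (S : E n →L[ℝ] E n) (hS : Function.Injective S)
    (hsym : ∀ (ξ : E n) (x : Wd ι), (∑ j, ξ j • a₀ j) ((∑ j, ξ j • a₀ j) x) = -(‖S ξ‖ ^ 2) • x) :
    ∃ ε > 0, ∀ b : Fin n → E n → (Wd ι →L[ℝ] Wd ι), (∀ j, ContDiff ℝ ∞ (b j)) →
      (∀ j, HasCompactSupport (b j)) → (∀ j y, ‖b j y‖ ≤ ε) →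
      ∃ C : ℝ, ∀ w f : E n → Wd ι, MemLp w 2 → MemLp f 2 →
        (∀ ψ : E n → Wd ι, Test univ ψ →
          ∫ y, ∑ j, ⟪(a₀ j + b j y) (w y), fderiv ℝ ψ y (e j)⟫_ℝ = -∫ y, ⟪f y, ψ y⟫_ℝ) →
        ∃ w' : Fin n → E n → Wd ι, (∀ j, MemLp (w' j) 2) ∧ (∀ j, WDer univ j w (w' j)) ∧
          ∑ j, ∫ y, ‖w' j y‖ ^ 2 ≤ C * ((∫ y, ‖f y‖ ^ 2) + ∫ y, ‖w y‖ ^ 2) := by
  classical
  have hsym' : ∀ ξ : E n, (∑ j, ξ j • corer_mat (a₀ j)) * (∑ j, ξ j • corer_mat (a₀ j)) =
      -(‖S ξ‖ ^ 2) • (1 : Matrix ι ι ℝ) := by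
    intro ξ
    rw [corer_mat_sum, corer_mat_comp]
    ext α β
    rw [Matrix.of_apply, hsym]
    simp [Matrix.one_apply]
    split_ifs <;> simp
  obtain ⟨ε, hε, H⟩ := core_dist (fun j => corer_mat (a₀ j)) S hS hsym'
  refine ⟨ε, hε, fun b hb hbc hbε => ?_⟩
  have hb1 : ∀ j α β, ContDiff ℝ ∞ (fun y => corer_mat (b j y) α β) := by
    intro j α β
    exact (EuclideanSpace.proj (𝕜 := ℝ) α : Wd ι →L[ℝ] ℝ).contDiff.comp
      ((hb j).clm_apply contDiff_const)
  have hb2 : ∀ j α β, HasCompactSupport (fun y => corer_mat (b j y) α β) := by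
    intro j α β
    exact (hbc j).comp_left (g := fun L : Wd ι →L[ℝ] Wd ι => corer_mat L α β)
      (by simp [corer_mat_apply])
  have hb3 : ∀ j α β y, |corer_mat (b j y) α β| ≤ ε := by
    intro j α β y
    rw [corer_mat_apply, ← Real.norm_eq_abs]
    refine (PiLp.norm_apply_le _ _).trans ?_
    refine ((b j y).le_of_opNorm_le (hbε j y) _).trans ?_
    simp
  have hbt : ∀ j α β, Function.HasTemperateGrowth
      (fun y => ((corer_mat (b j y) α β : ℝ) : ℂ)) := by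
    intro j α β
    have h1 : ContDiff ℝ ∞ (fun y => ((corer_mat (b j y) α β : ℝ) : ℂ)) :=
      Complex.ofRealCLM.contDiff.comp (hb1 j α β)
    have h2 : HasCompactSupport (fun y => ((corer_mat (b j y) α β : ℝ) : ℂ)) :=
      (hb2 j α β).comp_left (g := fun x : ℝ => (x : ℂ)) (by simp)
    exact (h2.toSchwartzMap h1).hasTemperateGrowth
  obtain ⟨C, hC⟩ := H (fun j α β y => corer_mat (b j y) α β) hb1 hb2 hb3
  refine ⟨C ^ 2 * (2 * Fintype.card ι), fun w f hw hf heq => ?_⟩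
  have hwm : ∀ α, MemLp (fun y => ((w y α : ℝ) : ℂ)) 2 (volume : Measure (E n)) := fun α =>
    Complex.ofRealCLM.comp_memLp' (corer_proj_memLp hw α)
  have hfm : ∀ α, MemLp (fun y => ((f y α : ℝ) : ℂ)) 2 (volume : Measure (E n)) := fun α =>
    Complex.ofRealCLM.comp_memLp' (corer_proj_memLp hf α)
  obtain ⟨w', hw', hbd⟩ := hC (fun α => (hwm α).toLp _) (fun α => (hfm α).toLp _)
    (corer_eq hb hbε hbt hw hf heq (fun α => (hwm α).coeFn_toLp) (fun α => (hfm α).coeFn_toLp))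
  have hre : ∀ j α, MemLp (fun y => (w' j α y).re) 2 (volume : Measure (E n)) := fun j α =>
    Complex.reCLM.comp_memLp' (Lp.memLp (w' j α))
  refine ⟨fun j y => WithLp.toLp 2 (fun α => (w' j α y).re), ?_, ?_, ?_⟩
  · intro j
    rw [memLp_piLp_iff]
    exact fun α => hre j α
  · intro j
    exact corer_wder hw (fun α => (hwm α).coeFn_toLp) j (hw' j)
  · -- norms
    have n1 : ∀ {g : E n → Wd ι} (hg : MemLp g 2) (hgm : ∀ α, MemLp (fun y => ((g y α : ℝ) : ℂ)) 2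
        (volume : Measure (E n))), ∑ α, ‖(hgm α).toLp _‖ ^ 2 = ∫ y, ‖g y‖ ^ 2 := by
      intro g hg hgm
      have h1 : ∀ y, ‖g y‖ ^ 2 = ∑ α, (g y α) ^ 2 := by
        intro y
        rw [EuclideanSpace.norm_sq_eq]
        simp
      simp only [h1]
      rw [integral_finsetSum _ (fun α _ => (corer_proj_memLp hg α).integrable_sq)]
      apply Finset.sum_congr rfl
      intro α _
      rw [corer_norm_sq]
      apply integral_congr_ae
      filter_upwards [(hgm α).coeFn_toLp] with y hy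
      rw [hy]
      simp
    have n2 : ∀ j, ∫ y, ‖(WithLp.toLp 2 (fun α => (w' j α y).re) : Wd ι)‖ ^ 2 ≤
        ∑ α, ‖w' j α‖ ^ 2 := by
      intro j
      have h1 : ∀ y, ‖(WithLp.toLp 2 (fun α => (w' j α y).re) : Wd ι)‖ ^ 2 =
          ∑ α, ((w' j α y).re) ^ 2 := by
        intro y
        rw [EuclideanSpace.norm_sq_eq]
        simp
      simp only [h1]
      rw [integral_finsetSum _ (fun α _ => (hre j α).integrable_sq)]
      apply Finset.sum_le_sum
      intro α _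
      rw [corer_norm_sq]
      apply integral_mono (hre j α).integrable_sq
      · exact (Lp.memLp (w' j α)).norm.integrable_sq
      · intro y
        simp only
        have := Complex.abs_re_le_norm (w' j α y)
        exact sq_le_sq' (by linarith [abs_le.mp this]) (abs_le.mp this).2
    have hwf := n1 hw hwm
    have hff := n1 hf hfm
    set X : ℝ := ∑ α, ‖(hfm α).toLp _‖ with hX
    set Y : ℝ := ∑ α, ‖(hwm α).toLp _‖ with hY
    have s1 : ∑ j, ∑ α, ‖w' j α‖ ^ 2 ≤ (∑ j, ∑ α, ‖w' j α‖) ^ 2 := by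
      have h1 : ∀ j, ∑ α, ‖w' j α‖ ^ 2 ≤ (∑ α, ‖w' j α‖) ^ 2 := fun j =>
        Finset.sum_sq_le_sq_sum_of_nonneg (fun α _ => norm_nonneg _)
      refine (Finset.sum_le_sum fun j _ => h1 j).trans ?_
      exact Finset.sum_sq_le_sq_sum_of_nonneg (fun j _ => Finset.sum_nonneg fun α _ => norm_nonneg _)
    have s2 : (∑ j, ∑ α, ‖w' j α‖) ^ 2 ≤ (C * (X + Y)) ^ 2 := by
      have h0 : 0 ≤ ∑ j, ∑ α, ‖w' j α‖ :=
        Finset.sum_nonneg fun j _ => Finset.sum_nonneg fun α _ => norm_nonneg _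
      exact pow_le_pow_left₀ h0 hbd 2
    have s3 : X ^ 2 ≤ (Fintype.card ι : ℝ) * ∫ y, ‖f y‖ ^ 2 := by
      rw [← hff]; exact corer_sum_sq _
    have s4 : Y ^ 2 ≤ (Fintype.card ι : ℝ) * ∫ y, ‖w y‖ ^ 2 := by
      rw [← hwf]; exact corer_sum_sq _
    have s5 : (X + Y) ^ 2 ≤ 2 * (X ^ 2 + Y ^ 2) := by nlinarith [sq_nonneg (X - Y)]
    calc ∑ j, ∫ y, ‖(WithLp.toLp 2 (fun α => (w' j α y).re) : Wd ι)‖ ^ 2
        ≤ ∑ j, ∑ α, ‖w' j α‖ ^ 2 := Finset.sum_le_sum fun j _ => n2 j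
      _ ≤ (C * (X + Y)) ^ 2 := s1.trans s2
      _ = C ^ 2 * (X + Y) ^ 2 := by ring
      _ ≤ C ^ 2 * (2 * (X ^ 2 + Y ^ 2)) := by gcongr
      _ ≤ C ^ 2 * (2 * ((Fintype.card ι : ℝ) * (∫ y, ‖f y‖ ^ 2) +
            (Fintype.card ι : ℝ) * ∫ y, ‖w y‖ ^ 2)) := by gcongr
      _ = _ := by ring

end ANCO
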