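import Pool.Agent.Helper39.Anco.LTools

/-!
# From test functions to Schwartz functions (for `core_real`)
-/

open scoped ContDiff Topology Manifold InnerProductSpace SchwartzMap
open Set MeasureTheory Filter

set_option maxSynthPendingDepth 3

noncomputable section
namespace ANCO

variable {n : ℕ}

theorem corer_cutoff (n : ℕ) : ∃ (χ : ℕ → E n → ℝ) (C : ℝ), (∀ N, ContDiff ℝ ∞ (χ N)) ∧
    (∀ N, HasCompactSupport (χ N)) ∧ (∀ N y, |χ N y| ≤ 1) ∧ (∀ N y, ‖fderiv ℝ (χ N) y‖ ≤ C) ∧
    (∀ y, Tendsto (fun N => χ N y) atTop (𝓝 1)) ∧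
    (∀ y, Tendsto (fun N => fderiv ℝ (χ N) y) atTop (𝓝 0)) := by
  let f : ContDiffBump (0 : E n) := ⟨1, 2, by norm_num, by norm_num⟩
  have hf : ContDiff ℝ ∞ f := f.contDiff
  have hd : ContDiff ℝ ∞ (fderiv ℝ f) := hf.fderiv_right (by simp)
  obtain ⟨C, hC⟩ := hd.continuous.bounded_above_of_compact_support
    (f.hasCompactSupport.fderiv ℝ)
  have hC0 : 0 ≤ C := (norm_nonneg _).trans (hC 0)
  let c : ℕ → ℝ := fun N => ((N : ℝ) + 1)⁻¹
  have hc0 : ∀ N, 0 < c N := fun N => by positivity
  have hc1 : ∀ N, c N ≤ 1 := fun N => by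
    apply inv_le_one_of_one_le₀
    have : (0 : ℝ) ≤ N := Nat.cast_nonneg N
    linarith
  have hct : Tendsto c atTop (𝓝 0) := by
    have := tendsto_one_div_add_atTop_nhds_zero_nat (𝕜 := ℝ)
    simpa [c, one_div] using this
  have hder : ∀ N y, fderiv ℝ (fun y => f (c N • y)) y = c N • fderiv ℝ f (c N • y) := by
    intro N y
    have h1 : HasFDerivAt (fun y : E n => c N • y) (c N • ContinuousLinearMap.id ℝ (E n)) y :=
      (hasFDerivAt_id y).const_smul (c N)
    have h2 : HasFDerivAt f (fderiv ℝ f (c N • y)) (c N • y) :=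
      (hf.contDiffAt.differentiableAt (by simp)).hasFDerivAt
    have h3 := (h2.comp y h1).fderiv
    have h4 : (fun y => f (c N • y)) = f ∘ (fun y : E n => c N • y) := rfl
    rw [h4, h3]
    ext v
    simp
  refine ⟨fun N y => f (c N • y), C, ?_, ?_, ?_, ?_, ?_, ?_⟩
  · intro N
    exact hf.comp (contDiff_const_smul (c N))
  · intro N
    exact f.hasCompactSupport.comp_smul (hc0 N).ne'
  · intro N y
    rw [abs_of_nonneg f.nonneg]
    exact f.le_one
  · intro N y
    rw [hder, norm_smul, Real.norm_of_nonneg (hc0 N).le]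
    calc c N * ‖fderiv ℝ f (c N • y)‖ ≤ 1 * C := by
          gcongr
          · exact hc1 N
          · exact hC _
      _ = C := one_mul C
  · intro y
    have h1 : Tendsto (fun N => c N • y) atTop (𝓝 ((0 : ℝ) • y)) := hct.smul_const y
    rw [zero_smul] at h1
    have h2 := (hf.continuous.tendsto 0).comp h1
    have h3 : f 0 = 1 := f.one_of_mem_closedBall (by simp [f])
    rw [h3] at h2
    exact h2
  · intro y
    simp only [hder]
    rw [tendsto_zero_iff_norm_tendsto_zero]
    have h1 : Tendsto (fun N => c N * C) atTop (𝓝 0) := by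
      simpa using hct.mul_const C
    refine squeeze_zero (fun N => norm_nonneg _) (fun N => ?_) h1
    rw [norm_smul, Real.norm_of_nonneg (hc0 N).le]
    exact mul_le_mul_of_nonneg_left (hC _) (hc0 N).le

theorem corer_integrable_mul {u : E n → ℝ} (hu : MemLp u 2) {φ : E n → ℂ} (hφ : MemLp φ 2) :
    Integrable (fun y => (u y : ℂ) * φ y) := by
  have hu' : MemLp (fun y => (u y : ℂ)) 2 := Complex.ofRealCLM.comp_memLp' hu
  exact hu'.integrable_mul hφ

theorem corer_memLp_compact {F : Type*} [NormedAddCommGroup F] {φ : E n → F} (h : Continuous φ)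
    (hc : HasCompactSupport φ) : MemLp φ 2 := h.memLp_of_hasCompactSupport hc

/-- extension from real test functions to complex ones -/
theorem corer_ext1 {u : Fin n → E n → ℝ} {v : E n → ℝ} (hu : ∀ j, MemLp (u j) 2)
    (hv : MemLp v 2)
    (h : ∀ φ : E n → ℝ, ContDiff ℝ ∞ φ → HasCompactSupport φ →
      ∫ y, ∑ j, u j y * fderiv ℝ φ y (e j) = -∫ y, v y * φ y)
    {φ : E n → ℂ} (hφ : ContDiff ℝ ∞ φ) (hc : HasCompactSupport φ) :
    ∫ y, ∑ j, (u j y : ℂ) * fderiv ℝ φ y (e j) = -∫ y, (v y : ℂ) * φ y := by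
  have hd : ∀ j, MemLp (fun y => fderiv ℝ φ y (e j)) 2 := by
    intro j
    refine corer_memLp_compact ?_ ?_
    · exact ((hφ.fderiv_right (m := ∞) (by simp)).clm_apply contDiff_const).continuous
    · exact hc.fderiv_apply ℝ (e j)
  have hφm : MemLp φ 2 := corer_memLp_compact hφ.continuous hc
  have i1 : Integrable (fun y => ∑ j, (u j y : ℂ) * fderiv ℝ φ y (e j)) :=
    integrable_finsetSum _ fun j _ => corer_integrable_mul (hu j) (hd j)
  have i2 : Integrable (fun y => (v y : ℂ) * φ y) := corer_integrable_mul hv hφm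
  have key : ∀ (P : ℂ →L[ℝ] ℝ), (∀ (a : ℝ) (z : ℂ), P ((a : ℂ) * z) = a * P z) →
      P (∫ y, ∑ j, (u j y : ℂ) * fderiv ℝ φ y (e j)) = P (-∫ y, (v y : ℂ) * φ y) := by
    intro P hP
    rw [map_neg, ← P.integral_comp_comm i1, ← P.integral_comp_comm i2]
    have h1 := h (fun y => P (φ y)) (P.contDiff.comp hφ) (hc.comp_left (g := P) (map_zero P))
    have h2 : ∀ y v, fderiv ℝ (fun y => P (φ y)) y v = P (fderiv ℝ φ y v) := by
      intro y v
      have h3 := (P.hasFDerivAt.comp y (hφ.contDiffAt.differentiableAt (by simp) :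
        DifferentiableAt ℝ φ y).hasFDerivAt).fderiv
      have h4 : (fun y => P (φ y)) = P ∘ φ := rfl
      rw [h4, h3]; rfl
    simp only [h2] at h1
    simp only [map_sum, hP]
    exact h1
  apply Complex.ext
  · exact key Complex.reCLM (fun a z => by simp)
  · exact key Complex.imCLM (fun a z => by simp)

open LineDeriv in
/-- extension from real test functions to Schwartz functions -/
theorem corer_ext {u : Fin n → E n → ℝ} {v : E n → ℝ} (hu : ∀ j, MemLp (u j) 2)
    (hv : MemLp v 2)
    (h : ∀ φ : E n → ℝ, ContDiff ℝ ∞ φ → HasCompactSupport φ →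
      ∫ y, ∑ j, u j y * fderiv ℝ φ y (e j) = -∫ y, v y * φ y) (φ : 𝓢(E n, ℂ)) :
    ∫ y, ∑ j, (u j y : ℂ) * (∂_{e j} φ) y = -∫ y, (v y : ℂ) * φ y := by
  obtain ⟨χ, C, hχ, hχc, hχ1, hχd, hχt, hχdt⟩ := corer_cutoff n
  have hφs : ContDiff ℝ ∞ φ := φ.smooth'
  have hφd : ∀ j y, (∂_{e j} φ) y = fderiv ℝ φ y (e j) := fun j y =>
    SchwartzMap.lineDerivOp_apply_eq_fderiv _ _ _
  have hprod : ∀ N y v, fderiv ℝ (fun y => χ N y • φ y) y v =
      χ N y • fderiv ℝ φ y v + fderiv ℝ (χ N) y v • φ y := by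
    intro N y v
    rw [fderiv_fun_smul ((hχ N).contDiffAt.differentiableAt (by simp))
      (hφs.contDiffAt.differentiableAt (by simp))]
    simp
  have e1 : ∀ N, ∫ y, ∑ j, (u j y : ℂ) * (χ N y • fderiv ℝ φ y (e j) +
      fderiv ℝ (χ N) y (e j) • φ y) = -∫ y, (v y : ℂ) * (χ N y • φ y) := by
    intro N
    have := corer_ext1 hu hv h (φ := fun y => χ N y • φ y) ((hχ N).smul hφs)
      ((hχc N).smul_right)
    simpa only [hprod] using this
  have hφm : MemLp φ 2 := φ.memLp 2
  have hdm : ∀ j, MemLp (fun y => fderiv ℝ φ y (e j)) 2 := by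
    intro j
    have := (∂_{e j} φ).memLp (μ := volume) 2
    refine this.ae_eq ?_
    filter_upwards with y
    exact hφd j y
  have l1 : Tendsto (fun N => ∫ y, ∑ j, (u j y : ℂ) * (χ N y • fderiv ℝ φ y (e j) +
      fderiv ℝ (χ N) y (e j) • φ y)) atTop
      (𝓝 (∫ y, ∑ j, (u j y : ℂ) * fderiv ℝ φ y (e j))) := by
    apply tendsto_integral_of_dominated_convergence
      (bound := fun y => ∑ j, (‖(u j y : ℂ) * fderiv ℝ φ y (e j)‖ +
        C * ‖(u j y : ℂ) * φ y‖))
    · intro N
      apply Integrable.aestronglyMeasurable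
      apply integrable_finsetSum
      intro j _
      apply corer_integrable_mul (hu j)
      have m1 : MemLp (fun y => χ N y • fderiv ℝ φ y (e j)) 2 := by
        refine corer_memLp_compact ?_ (hχc N).smul_right
        exact (hχ N).continuous.smul
          ((hφs.fderiv_right (m := ∞) (by simp)).clm_apply contDiff_const).continuous
      have m2 : MemLp (fun y => fderiv ℝ (χ N) y (e j) • φ y) 2 := by
        refine corer_memLp_compact ?_ ((hχc N).fderiv_apply ℝ (e j)).smul_right
        exact ((hχ N).fderiv_right (m := ∞) (by simp)).clm_apply contDiff_const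
          |>.continuous.smul hφs.continuous
      exact m1.add m2
    · apply integrable_finsetSum
      intro j _
      exact (corer_integrable_mul (hu j) (hdm j)).norm.add
        ((corer_integrable_mul (hu j) hφm).norm.const_mul C)
    · intro N
      filter_upwards with y
      refine (norm_sum_le _ _).trans (Finset.sum_le_sum fun j _ => ?_)
      rw [mul_add]
      refine (norm_add_le _ _).trans (add_le_add ?_ ?_)
      · rw [norm_mul, norm_mul, norm_smul]
        calc ‖(u j y : ℂ)‖ * (‖χ N y‖ * ‖fderiv ℝ φ y (e j)‖)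
            ≤ ‖(u j y : ℂ)‖ * (1 * ‖fderiv ℝ φ y (e j)‖) := by
              gcongr
              exact hχ1 N y
          _ = _ := by rw [one_mul]
      · rw [norm_mul, norm_mul, norm_smul]
        have h1 : ‖fderiv ℝ (χ N) y (e j)‖ ≤ C := by
          calc ‖fderiv ℝ (χ N) y (e j)‖ ≤ ‖fderiv ℝ (χ N) y‖ * ‖(e j : E n)‖ :=
                ContinuousLinearMap.le_opNorm _ _
            _ = ‖fderiv ℝ (χ N) y‖ := by simp [e]
            _ ≤ C := hχd N y
        calc ‖(u j y : ℂ)‖ * (‖fderiv ℝ (χ N) y (e j)‖ * ‖φ y‖)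
            ≤ ‖(u j y : ℂ)‖ * (C * ‖φ y‖) := by gcongr
          _ = _ := by ring
    · filter_upwards with y
      apply tendsto_finsetSum
      intro j _
      apply Tendsto.const_mul
      have t1 : Tendsto (fun N => χ N y • fderiv ℝ φ y (e j)) atTop
          (𝓝 ((1 : ℝ) • fderiv ℝ φ y (e j))) := (hχt y).smul_const _
      have t2 : Tendsto (fun N => fderiv ℝ (χ N) y (e j) • φ y) atTop
          (𝓝 (((0 : E n →L[ℝ] ℝ) (e j)) • φ y)) :=
        ((((ContinuousLinearMap.apply ℝ ℝ (e j : E n)).continuous.tendsto 0).comp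
          (hχdt y))).smul_const _
      simpa using t1.add t2
  have l2 : Tendsto (fun N => -∫ y, (v y : ℂ) * (χ N y • φ y)) atTop
      (𝓝 (-∫ y, (v y : ℂ) * φ y)) := by
    apply Tendsto.neg
    apply tendsto_integral_of_dominated_convergence
      (bound := fun y => ‖(v y : ℂ) * φ y‖)
    · intro N
      apply Integrable.aestronglyMeasurable
      apply corer_integrable_mul hv
      exact corer_memLp_compact ((hχ N).continuous.smul hφs.continuous) (hχc N).smul_right
    · exact (corer_integrable_mul hv hφm).norm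
    · intro N
      filter_upwards with y
      rw [norm_mul, norm_mul, norm_smul]
      calc ‖(v y : ℂ)‖ * (‖χ N y‖ * ‖φ y‖) ≤ ‖(v y : ℂ)‖ * (1 * ‖φ y‖) := by
            gcongr
            exact hχ1 N y
        _ = _ := by rw [one_mul]
    · filter_upwards with y
      apply Tendsto.const_mul
      simpa using (hχt y).smul_const (φ y)
  simp only [hφd]
  refine tendsto_nhds_unique l1 ?_
  simp only [e1]
  exact l2

end ANCO
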