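import Pool.Agent.Helper39.Anco.Del1

/-!
# The first order system `d + δ` in coordinates
-/

open scoped ContDiff Topology Manifold InnerProductSpace
open Set MeasureTheory

set_option maxSynthPendingDepth 3

noncomputable section
namespace ANCO

variable {n : ℕ}

theorem del2_Acoef_apply (G : Coef n) (k : Fin n) (y : E n) (x : X n) :
    Acoef G k y x = eps k x - ∑ j, ginv G y j k • iota j x := by
  unfold Acoef
  rw [_root_.sub_apply, _root_.sum_apply]
  rfl

theorem del2_Bcoef_apply (G : Coef n) (y : E n) (x : X n) :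
    Bcoef G y x = ∑ j, ∑ k, ginv G y j k • iota j (act (christ G y (e k)) x) := by
  unfold Bcoef
  rw [_root_.sum_apply]
  refine Finset.sum_congr rfl fun j _ => ?_
  rw [_root_.sum_apply]
  rfl

theorem dd_eq (G : Coef n) (w : E n → X n) (y : E n) :
    dloc w y + deloc G w y = ∑ k, Acoef G k y (fderiv ℝ w y (e k)) + Bcoef G y (w y) := by
  have h1 : ∀ j k, ginv G y j k • iota j (cov G w y (e k)) =
      ginv G y j k • iota j (fderiv ℝ w y (e k)) -
        ginv G y j k • iota j (act (christ G y (e k)) (w y)) := by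
    intro j k
    rw [del1_cov_apply, map_sub, smul_sub]
  unfold dloc deloc
  rw [del2_Bcoef_apply]
  simp only [h1, del2_Acoef_apply, Finset.sum_sub_distrib]
  rw [Finset.sum_comm (f := fun k j => ginv G y j k • iota j (fderiv ℝ w y (e k)))]
  abel

theorem Acoef_smooth {G : Coef n} {U : Set (E n)} (h : IsMet G U) (k : Fin n) :
    ContDiffOn ℝ ∞ (Acoef G k) U := by
  unfold Acoef
  refine contDiffOn_const.sub (ContDiffOn.sum fun j _ => ?_)
  exact (del1_ginv_smooth h j k).smul contDiffOn_const

theorem Bcoef_smooth {G : Coef n} {U : Set (E n)} (h : IsMet G U) :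
    ContDiffOn ℝ ∞ (Bcoef G) U := by
  have h1 : ∀ u : E n, ContDiffOn ℝ ∞ (fun y => act (christ G y u)) U := by
    intro u
    unfold act
    refine ContDiffOn.sum fun k _ => ContDiffOn.sum fun l _ => ?_
    exact (del1_christ_smooth h u (e k) l).smul contDiffOn_const
  unfold Bcoef
  refine ContDiffOn.sum fun j _ => ContDiffOn.sum fun k _ => ?_
  exact (del1_ginv_smooth h j k).smul (contDiffOn_const.clm_comp (h1 (e k)))

theorem del2_eps_sq (α : E n →L[ℝ] ℝ) (x : X n) : epsv α (epsv α x) = 0 := by
  have h1 : epsv α (epsv α x) = ∑ i, ∑ j, (α (e i) * α (e j)) • eps i (eps j x) := by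
    unfold epsv
    rw [_root_.sum_apply]
    refine Finset.sum_congr rfl fun i _ => ?_
    rw [_root_.smul_apply, _root_.sum_apply, map_sum, Finset.smul_sum]
    refine Finset.sum_congr rfl fun j _ => ?_
    rw [_root_.smul_apply, map_smul, smul_smul]
  have h2 : epsv α (epsv α x) = -epsv α (epsv α x) := by
    conv_lhs => rw [h1, Finset.sum_comm]
    rw [h1, ← Finset.sum_neg_distrib]
    refine Finset.sum_congr rfl fun j _ => ?_
    rw [← Finset.sum_neg_distrib]
    refine Finset.sum_congr rfl fun i _ => ?_
    rw [eps_eps i j, smul_neg, mul_comm]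
  have h3 : (2 : ℝ) • (epsv α (epsv α x)) = 0 := by
    rw [two_smul]
    exact add_eq_zero_iff_eq_neg.mpr h2
  exact (smul_eq_zero.mp h3).resolve_left (by norm_num)

theorem del2_iota_sq (v : E n) (x : X n) : iotav v (iotav v x) = 0 := by
  have h1 : iotav v (iotav v x) = ∑ i, ∑ j, (v i * v j) • iota i (iota j x) := by
    unfold iotav
    rw [_root_.sum_apply]
    refine Finset.sum_congr rfl fun i _ => ?_
    rw [_root_.smul_apply, _root_.sum_apply, map_sum, Finset.smul_sum]
    refine Finset.sum_congr rfl fun j _ => ?_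
    rw [_root_.smul_apply, map_smul, smul_smul]
  have h2 : iotav v (iotav v x) = -iotav v (iotav v x) := by
    conv_lhs => rw [h1, Finset.sum_comm]
    rw [h1, ← Finset.sum_neg_distrib]
    refine Finset.sum_congr rfl fun j _ => ?_
    rw [← Finset.sum_neg_distrib]
    refine Finset.sum_congr rfl fun i _ => ?_
    rw [iota_iota i j, smul_neg, mul_comm]
  have h3 : (2 : ℝ) • (iotav v (iotav v x)) = 0 := by
    rw [two_smul]
    exact add_eq_zero_iff_eq_neg.mpr h2
  exact (smul_eq_zero.mp h3).resolve_left (by norm_num)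

theorem Acoef_symb {G : Coef n} {U : Set (E n)} (h : IsMet G U) : SymbCond (Acoef G) U := by
  intro y hy
  obtain ⟨B, hB⟩ := exists_frame h
  have hiso : IsoFr G (y, B y) := hB.2 y hy
  obtain ⟨c, hc1, hc2⟩ := iso_inv h (z := (y, B y)) hy hiso
  refine ⟨ContinuousLinearMap.adjoint (B y), ?_, ?_⟩
  · -- injectivity of the adjoint
    intro u v huv
    have h1 : ∀ w, ⟪u, w⟫_ℝ = ⟪v, w⟫_ℝ := by
      intro w
      have h2 : B y (c w) = w := by
        have := congrArg (fun f => f w) hc2
        simpa using this
      have h3 : ⟪(ContinuousLinearMap.adjoint (B y)) u, c w⟫_ℝ =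
          ⟪(ContinuousLinearMap.adjoint (B y)) v, c w⟫_ℝ := by rw [huv]
      rw [ContinuousLinearMap.adjoint_inner_left, ContinuousLinearMap.adjoint_inner_left, h2] at h3
      exact h3
    exact ext_inner_right ℝ h1
  · intro ξ x
    set α : E n →L[ℝ] ℝ := innerSL ℝ ξ with hα
    set v : E n := WithLp.toLp 2 (fun j => ∑ k, ξ k * ginv G y j k) with hv
    have hαe : ∀ k, α (e k) = ξ k := by
      intro k
      simp [hα, e, EuclideanSpace.inner_single_right]
    have hA : ∀ x : X n, (∑ j, ξ j • Acoef G j y) x = epsv α x - iotav v x := by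
      intro x
      rw [_root_.sum_apply]
      simp only [_root_.smul_apply, del2_Acoef_apply, smul_sub, Finset.sum_sub_distrib]
      congr 1
      · unfold epsv
        rw [_root_.sum_apply]
        simp only [hαe]
        rfl
      · unfold iotav
        rw [_root_.sum_apply]
        simp only [Finset.smul_sum, smul_smul]
        rw [Finset.sum_comm]
        refine Finset.sum_congr rfl fun j _ => ?_
        rw [_root_.smul_apply, ← Finset.sum_smul]
    have hn : α v = ‖(ContinuousLinearMap.adjoint (B y)) ξ‖ ^ 2 := by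
      have h1 : ∀ m, ((ContinuousLinearMap.adjoint (B y)) ξ) m = ∑ k, ξ k * (B y (e m)) k := by
        intro m
        have h2 : ((ContinuousLinearMap.adjoint (B y)) ξ) m =
            ⟪(ContinuousLinearMap.adjoint (B y)) ξ, e m⟫_ℝ := by
          simp [e, EuclideanSpace.inner_single_right]
        rw [h2, ContinuousLinearMap.adjoint_inner_left, PiLp.inner_apply]
        refine Finset.sum_congr rfl fun k _ => ?_
        simp [mul_comm]
      rw [EuclideanSpace.real_norm_sq_eq]
      simp only [h1]
      have h3 : α v = ∑ j, ∑ k, ξ j * ξ k * ginv G y j k := by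
        show ⟪ξ, v⟫_ℝ = _
        rw [PiLp.inner_apply]
        refine Finset.sum_congr rfl fun j _ => ?_
        simp only [hv, RCLike.inner_apply, conj_trivial]
        rw [Finset.sum_mul]
        refine Finset.sum_congr rfl fun k _ => ?_
        ring
      rw [h3]
      have h4 : ∀ j k, ginv G y j k = ∑ m, (B y (e m)) j * (B y (e m)) k :=
        fun j k => del1_ginv h (z := (y, B y)) hy hiso j k
      have h5 : ∀ m, (∑ k, ξ k * (B y (e m)) k) ^ 2 =
          ∑ j, ∑ k, ξ j * ξ k * ((B y (e m)) j * (B y (e m)) k) := by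
        intro m
        rw [pow_two, Finset.sum_mul_sum]
        refine Finset.sum_congr rfl fun j _ => Finset.sum_congr rfl fun k _ => ?_
        ring
      simp only [h4, h5, Finset.mul_sum]
      have h6 : ∀ j, ∑ k, ∑ m, ξ j * ξ k * ((B y (e m)) j * (B y (e m)) k) =
          ∑ m, ∑ k, ξ j * ξ k * ((B y (e m)) j * (B y (e m)) k) := fun j => Finset.sum_comm
      simp only [h6]
      exact Finset.sum_comm
    rw [hA, hA, map_sub, map_sub, del2_eps_sq, del2_iota_sq, ← hn, neg_smul,
      ← epsv_iotav α v x]
    abel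

end ANCO
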