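import Pool.Agent.Helper39.Anco.Defs

/-!
# Smooth cutoff functions on `E n`
-/

open scoped ContDiff Topology Manifold
open Set

set_option maxSynthPendingDepth 3

noncomputable section
namespace ANCO

variable {n : ℕ}

/-- A smooth cutoff function, equal to `1` near the compact set `K`, with compact support in the
open set `U`. -/
theorem loc_exists_cut {K U : Set (E n)} (hK : IsCompact K) (hU : IsOpen U) (hKU : K ⊆ U) :
    ∃ χ : E n → ℝ, ContDiff ℝ ∞ χ ∧ HasCompactSupport χ ∧ tsupport χ ⊆ U ∧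
      (∀ y, 0 ≤ χ y) ∧ (∀ y, χ y ≤ 1) ∧ ∃ V, IsOpen V ∧ K ⊆ V ∧ ∀ y ∈ V, χ y = 1 := by
  obtain ⟨V, hV, hKV, hVU, hVc⟩ := exists_open_between_and_isCompact_closure hK hU hKU
  obtain ⟨f, h0, h1, hf⟩ := exists_contMDiffMap_zero_one_nhds_of_isClosed (𝓘(ℝ, E n)) (n := ⊤)
    hV.isClosed_compl hK.isClosed (disjoint_left.2 fun y hy hy' => hy (hKV hy'))
  have hsupp : tsupport (f : E n → ℝ) ⊆ closure V := by
    refine closure_mono fun y hy => ?_
    by_contra hyV
    exact hy (h0.self_of_nhdsSet y hyV)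
  refine ⟨f, f.contMDiff.contDiff, hVc.of_isClosed_subset (isClosed_tsupport _) hsupp,
    hsupp.trans hVU, fun y => (hf y).1, fun y => (hf y).2, ?_⟩
  obtain ⟨W, hW, hKW, h⟩ := (eventually_nhdsSet_iff_exists).1 h1
  exact ⟨W, hW, hKW, h⟩

end ANCO
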