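import Pool.Agent.Helper39.Anco.Rho
import Pool.Agent.Helper39.Anco.RhoD
import Pool.Agent.Helper39.Anco.Frame
import Pool.Agent.Helper39.Anco.Tr
import Pool.Agent.Helper39.Anco.Valch
import Pool.Agent.Helper39.Anco.Clos
import Pool.Agent.Helper39.Anco.Vol
import Pool.Agent.Helper39.Anco.Int
import Pool.Agent.Helper39.Anco.Cut

/-!
# LOC: local comparison of the `L²` products
-/

open scoped ContDiff Topology Manifold InnerProductSpace
open Set MeasureTheory Filter

set_option maxSynthPendingDepth 3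

noncomputable section
namespace ANCO

variable {n : ℕ} {M : Type} [TopologicalSpace M] [ChartedSpace (E n) M]

/-! ### smoothness of the weight -/

theorem loc_det_contDiff :
    ContDiff ℝ ∞ (fun B : E n →L[ℝ] E n => LinearMap.det B.toLinearMap) := by
  have h : (fun B : E n →L[ℝ] E n => LinearMap.det B.toLinearMap) =
      fun B => ∑ σ : Equiv.Perm (Fin n), (Equiv.Perm.sign σ : ℝ) • ∏ i, (B (e i)) (σ i) := by
    ext B
    rw [← LinearMap.det_toMatrix (EuclideanSpace.basisFun (Fin n) ℝ).toBasis, Matrix.det_apply]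
    refine Finset.sum_congr rfl fun σ _ => ?_
    rw [Units.smul_def, zsmul_eq_mul, smul_eq_mul]
    push_cast
    congr 1
  rw [h]
  refine ContDiff.sum fun σ _ => ContDiff.const_smul _ (contDiff_prod fun i _ => ?_)
  have : (fun B : E n →L[ℝ] E n => (B (e i)) (σ i)) =
      ((EuclideanSpace.proj (σ i) : E n →L[ℝ] ℝ) ∘L (ContinuousLinearMap.apply ℝ (E n) (e i))) := by
    ext B; rfl
  rw [this]
  exact ContinuousLinearMap.contDiff _

/-- the adjoint as a real linear map -/
def locAdj : (X n →L[ℝ] X n) →L[ℝ] (X n →L[ℝ] X n) :=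
  LinearMap.mkContinuous
    { toFun := fun A => ContinuousLinearMap.adjoint A
      map_add' := fun A B => map_add _ A B
      map_smul' := fun c A => by simp } 1 (fun A => by simp)

theorem locAdj_apply (A : X n →L[ℝ] X n) : locAdj A = ContinuousLinearMap.adjoint A := rfl

theorem loc_det_ne (g : RMetric n M) (x : M) {y : E n} (hy : y ∈ tgt n M x) :
    LinearMap.det (Bf g x y).toLinearMap ≠ 0 := by
  obtain ⟨c, hc1, hc2⟩ := iso_inv (g.isMet x) (z := (y, Bf g x y)) hy ((Bf_spec g x).2 y hy)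
  intro h
  have h1 : LinearMap.det ((c ∘L Bf g x y).toLinearMap) = 1 := by
    simp only at hc1
    rw [hc1]
    simp
  have h2 : (c ∘L Bf g x y).toLinearMap = c.toLinearMap ∘ₗ (Bf g x y).toLinearMap := rfl
  rw [h2, LinearMap.det_comp, h] at h1
  simp at h1

theorem loc_dens_pos (g : RMetric n M) (x : M) {y : E n} (hy : y ∈ tgt n M x) : 0 < dens g x y :=
  inv_pos.2 (abs_pos.2 (loc_det_ne g x hy))

theorem loc_dens_smooth (g : RMetric n M) (x : M) : ContDiffOn ℝ ∞ (dens g x) (tgt n M x) := by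
  have h1 : ContDiffOn ℝ ∞ (fun y => LinearMap.det (Bf g x y).toLinearMap) (tgt n M x) :=
    loc_det_contDiff.comp_contDiffOn (Bf_spec g x).1
  have h2 : ContDiffOn ℝ ∞ (fun y => |LinearMap.det (Bf g x y).toLinearMap|) (tgt n M x) := by
    intro y hy
    exact (contDiffAt_abs (loc_det_ne g x hy)).comp_contDiffWithinAt y (h1 y hy)
  exact h2.inv fun y hy => abs_ne_zero.2 (loc_det_ne g x hy)

theorem loc_rho_smooth (g : RMetric n M) (x : M) :
    ContDiffOn ℝ ∞ (fun y => rho (Bf g x y)) (tgt n M x) :=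
  rho_contDiff.comp_contDiffOn (Bf_spec g x).1

theorem Mw_smooth (g : RMetric n M) (x : M) : ContDiffOn ℝ ∞ (Mw g x) (tgt n M x) := by
  have h1 := loc_rho_smooth g x
  have h2 : ContDiffOn ℝ ∞ (fun y => locAdj (rho (Bf g x y))) (tgt n M x) :=
    locAdj.contDiff.comp_contDiffOn h1
  exact (loc_dens_smooth g x).smul (h2.clm_comp h1)

theorem loc_rho_inv (g : RMetric n M) (x : M) {y : E n} (hy : y ∈ tgt n M x) :
    (∀ v, rho (ContinuousLinearMap.inverse (Bf g x y)) (rho (Bf g x y) v) = v) ∧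
    (∀ v, rho (Bf g x y) (rho (ContinuousLinearMap.inverse (Bf g x y)) v) = v) := by
  obtain ⟨c, hc1, hc2⟩ := iso_inv (g.isMet x) (z := (y, Bf g x y)) hy ((Bf_spec g x).2 y hy)
  simp only at hc1 hc2
  have he : ∃ u : E n ≃L[ℝ] E n, (u : E n →L[ℝ] E n) = Bf g x y ∧
      ((u.symm : E n ≃L[ℝ] E n) : E n →L[ℝ] E n) = c := by
    refine ⟨ContinuousLinearEquiv.equivOfInverse (Bf g x y) c (fun v => ?_) (fun v => ?_), rfl, rfl⟩
    · exact congrArg (fun L : E n →L[ℝ] E n => L v) hc1
    · exact congrArg (fun L : E n →L[ℝ] E n => L v) hc2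
  obtain ⟨u, hu1, hu2⟩ := he
  have h3 : ContinuousLinearMap.inverse (Bf g x y) = c := by
    rw [← hu1, ContinuousLinearMap.inverse_equiv, hu2]
  rw [h3]
  constructor
  · intro v
    rw [← rho_comp, hc2, rho_id]
  · intro v
    rw [← rho_comp, hc1, rho_id]

theorem loc_inv_smooth (g : RMetric n M) (x : M) :
    ContDiffOn ℝ ∞ (fun y => ContinuousLinearMap.inverse (Bf g x y)) (tgt n M x) := by
  intro y hy
  obtain ⟨c, hc1, hc2⟩ := iso_inv (g.isMet x) (z := (y, Bf g x y)) hy ((Bf_spec g x).2 y hy)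
  simp only at hc1 hc2
  have he : ∃ u : E n ≃L[ℝ] E n, (u : E n →L[ℝ] E n) = Bf g x y := by
    refine ⟨ContinuousLinearEquiv.equivOfInverse (Bf g x y) c (fun v => ?_) (fun v => ?_), rfl⟩
    · exact congrArg (fun L : E n →L[ℝ] E n => L v) hc1
    · exact congrArg (fun L : E n →L[ℝ] E n => L v) hc2
  obtain ⟨u, hu⟩ := he
  have h1 : ContDiffAt ℝ ∞ ContinuousLinearMap.inverse (Bf g x y) := by
    rw [← hu]
    exact contDiffAt_map_inverse u
  exact h1.comp_contDiffWithinAt y ((Bf_spec g x).1 y hy)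

theorem Mw_symm (g : RMetric n M) (x : M) (y : E n) (u v : X n) :
    ⟪Mw g x y u, v⟫_ℝ = ⟪u, Mw g x y v⟫_ℝ := by
  simp only [Mw, _root_.smul_apply, ContinuousLinearMap.comp_apply, real_inner_smul_left,
    real_inner_smul_right, ContinuousLinearMap.adjoint_inner_left,
    ContinuousLinearMap.adjoint_inner_right]

theorem loc_Mw_inner (g : RMetric n M) (x : M) (y : E n) (u v : X n) :
    ⟪Mw g x y u, v⟫_ℝ = dens g x y * ⟪rho (Bf g x y) u, rho (Bf g x y) v⟫_ℝ := by
  simp only [Mw, _root_.smul_apply, ContinuousLinearMap.comp_apply, real_inner_smul_left,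
    ContinuousLinearMap.adjoint_inner_left]

theorem Mw_inv (g : RMetric n M) (x : M) : ∃ N : E n → (X n →L[ℝ] X n),
    ContDiffOn ℝ ∞ N (tgt n M x) ∧ ∀ y ∈ tgt n M x, ∀ v, N y (Mw g x y v) = v ∧
      Mw g x y (N y v) = v := by
  refine ⟨fun y => (dens g x y)⁻¹ • (rho (ContinuousLinearMap.inverse (Bf g x y)) ∘L
    locAdj (rho (ContinuousLinearMap.inverse (Bf g x y)))), ?_, ?_⟩
  · have h1 : ContDiffOn ℝ ∞ (fun y => rho (ContinuousLinearMap.inverse (Bf g x y)))
        (tgt n M x) := rho_contDiff.comp_contDiffOn (loc_inv_smooth g x)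
    have h2 := locAdj.contDiff.comp_contDiffOn h1
    exact ((loc_dens_smooth g x).inv fun y hy => (loc_dens_pos g x hy).ne').smul (h1.clm_comp h2)
  · intro y hy v
    obtain ⟨h1, h2⟩ := loc_rho_inv g x hy
    have hd := (loc_dens_pos g x hy).ne'
    set A := rho (Bf g x y) with hA
    set A' := rho (ContinuousLinearMap.inverse (Bf g x y)) with hA'
    have e1 : A' ∘L A = ContinuousLinearMap.id ℝ (X n) := by ext1 w; exact h1 w
    have e2 : A ∘L A' = ContinuousLinearMap.id ℝ (X n) := by ext1 w; exact h2 w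
    have e3 : ContinuousLinearMap.adjoint A' ∘L ContinuousLinearMap.adjoint A =
        ContinuousLinearMap.id ℝ (X n) := by
      rw [← ContinuousLinearMap.adjoint_comp, e2, ContinuousLinearMap.adjoint_id]
    have e4 : ContinuousLinearMap.adjoint A ∘L ContinuousLinearMap.adjoint A' =
        ContinuousLinearMap.id ℝ (X n) := by
      rw [← ContinuousLinearMap.adjoint_comp, e1, ContinuousLinearMap.adjoint_id]
    have e3' : ∀ w, ContinuousLinearMap.adjoint A' (ContinuousLinearMap.adjoint A w) = w :=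
      fun w => congrArg (fun L : X n →L[ℝ] X n => L w) e3
    have e4' : ∀ w, ContinuousLinearMap.adjoint A (ContinuousLinearMap.adjoint A' w) = w :=
      fun w => congrArg (fun L : X n →L[ℝ] X n => L w) e4
    constructor
    · simp only [Mw, ← hA, ← hA', _root_.smul_apply, ContinuousLinearMap.comp_apply,
        locAdj_apply, map_smul, e3', h1, smul_smul, mul_inv_cancel₀ hd, one_smul]
    · simp only [Mw, ← hA, ← hA', _root_.smul_apply, ContinuousLinearMap.comp_apply,
        locAdj_apply, map_smul, h2, e4', smul_smul, inv_mul_cancel₀ hd, one_smul]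

/-! ### the `L²` product in a chart -/

theorem loc_ctr_mem {x p : M} :
    ctr n p ∈ (tr n M p x).source ↔ p ∈ (chartAt (E n) x).source := by
  rw [mem_tr_source]
  have h1 : ctr n p ∈ tgt n M p := mem_chart_target (E n) p
  have h2 : (chartAt (E n) p).symm (ctr n p) = p :=
    (chartAt (E n) p).left_inv (mem_chart_source (E n) p)
  rw [h2]
  exact ⟨fun h => h.2, fun h => ⟨h1, h⟩⟩

theorem loc_val_out (g : RMetric n M) {x p : M} (hp : p ∉ (chartAt (E n) x).source)
    (w : E n → X n) : val g (extT x w) p = 0 := by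
  have h : extT x w p (ctr n p) = 0 := by
    rw [extT, if_neg]
    rwa [loc_ctr_mem]
  have h2 : val g (extT x w) p = rho (fr g p).2 (extT x w p (ctr n p)) := rfl
  rw [h2, h, map_zero]

theorem loc_inner_chart [IsManifold (𝓡 n) ∞ M] [T2Space M] (g : RMetric n M) (x : M)
    {s t : M → E n → X n} (hs : s ∈ TForm n M) (ht : t ∈ TForm n M) {y : E n}
    (hy : y ∈ tgt n M x) :
    ⟪val g s ((chartAt (E n) x).symm y), val g t ((chartAt (E n) x).symm y)⟫_ℝ =
      ⟪rho (Bf g x y) (s x y), rho (Bf g x y) (t x y)⟫_ℝ := by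
  have hp : (chartAt (E n) x).symm y ∈ (chartAt (E n) x).source :=
    (chartAt (E n) x).map_target hy
  rw [inner_val_chart g x _ hp hs ht, (chartAt (E n) x).right_inv hy]
  rfl

theorem ip_ext [IsManifold (𝓡 n) ∞ M] [CompactSpace M] [T2Space M] [MeasurableSpace M]
    [BorelSpace M] (g : RMetric n M) (x : M) {s : M → E n → X n} (hs : s ∈ TForm n M)
    {w : E n → X n} (hw : ContDiff ℝ ∞ w) (hc : HasCompactSupport w)
    (hsup : tsupport w ⊆ tgt n M x) :
    ip g s (extT x w) = ∫ y, ⟪Mw g x y (s x y), w y⟫_ℝ := by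
  have hT := extT_mem x hw hc hsup
  have h0 : ∀ p ∉ (chartAt (E n) x).source, ⟪val g s p, val g (extT x w) p⟫_ℝ = 0 := by
    intro p hp
    rw [loc_val_out g hp, inner_zero_right]
  rw [ip, integral_chart g x (cont_ip g hs hT) h0]
  have hopen : IsOpen (tgt n M x) := (chartAt (E n) x).open_target
  have h3 : ∫ y in tgt n M x, ⟪Mw g x y (s x y), w y⟫_ℝ = ∫ y, ⟪Mw g x y (s x y), w y⟫_ℝ := by
    refine setIntegral_eq_integral_of_forall_compl_eq_zero fun y hy => ?_
    have : w y = 0 := image_eq_zero_of_notMem_tsupport fun h => hy (hsup h)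
    rw [this, inner_zero_right]
  rw [← h3]
  refine setIntegral_congr_fun hopen.measurableSet fun y hy => ?_
  rw [loc_inner_chart g x hs hT hy, extT_self x hsup, loc_Mw_inner, mul_comm]

theorem loc_norm_le (g : RMetric n M) (x : M) {K : Set (E n)} (hK : IsCompact K)
    (hKU : K ⊆ tgt n M x) : ∃ C, 0 ≤ C ∧ ∀ y ∈ K, ∀ v : X n,
      ‖v‖ ^ 2 ≤ C * ⟪Mw g x y v, v⟫_ℝ := by
  have h1 : ContDiffOn ℝ ∞ (fun y => rho (ContinuousLinearMap.inverse (Bf g x y)))
      (tgt n M x) := rho_contDiff.comp_contDiffOn (loc_inv_smooth g x)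
  have h2 : ContinuousOn (fun y => ‖rho (ContinuousLinearMap.inverse (Bf g x y))‖ ^ 2 *
      (dens g x y)⁻¹) K := by
    refine ((h1.continuousOn.mono hKU).norm.pow 2).mul ?_
    exact ((loc_dens_smooth g x).continuousOn.mono hKU).inv₀ fun y hy => (loc_dens_pos g x (hKU hy)).ne'
  obtain ⟨C, hC⟩ := (hK.image_of_continuousOn h2).isBounded.bddAbove
  refine ⟨max C 0, le_max_right _ _, fun y hy v => ?_⟩
  obtain ⟨h3, -⟩ := loc_rho_inv g x (hKU hy)
  have hd := loc_dens_pos g x (hKU hy)
  have hCy : ‖rho (ContinuousLinearMap.inverse (Bf g x y))‖ ^ 2 * (dens g x y)⁻¹ ≤ max C 0 :=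
    le_trans (hC (mem_image_of_mem _ hy)) (le_max_left _ _)
  rw [loc_Mw_inner, real_inner_self_eq_norm_sq]
  calc ‖v‖ ^ 2 = ‖rho (ContinuousLinearMap.inverse (Bf g x y)) (rho (Bf g x y) v)‖ ^ 2 := by
        rw [h3]
    _ ≤ (‖rho (ContinuousLinearMap.inverse (Bf g x y))‖ * ‖rho (Bf g x y) v‖) ^ 2 :=
        pow_le_pow_left₀ (norm_nonneg _) (ContinuousLinearMap.le_opNorm _ _) 2
    _ = (‖rho (ContinuousLinearMap.inverse (Bf g x y))‖ ^ 2 * (dens g x y)⁻¹) *
          (dens g x y * ‖rho (Bf g x y) v‖ ^ 2) := by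
        field_simp
    _ ≤ max C 0 * (dens g x y * ‖rho (Bf g x y) v‖ ^ 2) :=
        mul_le_mul_of_nonneg_right hCy (by positivity)

theorem loc_integrable [IsManifold (𝓡 n) ∞ M] [CompactSpace M] [T2Space M] [MeasurableSpace M]
    [BorelSpace M] (g : RMetric n M) {f : M → ℝ} (hf : Continuous f) :
    Integrable f (vol g) := by
  have : IsFiniteMeasure (vol g) := (exists_vol g).1
  exact hf.integrable_of_hasCompactSupport (HasCompactSupport.of_compactSpace f)

theorem loc_weight_nonneg (g : RMetric n M) (x : M) {y : E n} (hy : y ∈ tgt n M x) (v : X n) :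
    0 ≤ ⟪Mw g x y v, v⟫_ℝ := by
  rw [loc_Mw_inner, real_inner_self_eq_norm_sq]
  exact mul_nonneg (loc_dens_pos g x hy).le (sq_nonneg _)

theorem ip_local [IsManifold (𝓡 n) ∞ M] [CompactSpace M] [T2Space M] [MeasurableSpace M]
    [BorelSpace M] (g : RMetric n M) (x : M) {K : Set (E n)} (hK : IsCompact K)
    (hKU : K ⊆ tgt n M x) : ∃ C, 0 ≤ C ∧ ∀ s ∈ TForm n M,
      ∫ y in K, ‖s x y‖ ^ 2 ≤ C * ip g s s := by
  have hopen : IsOpen (tgt n M x) := (chartAt (E n) x).open_target
  obtain ⟨C, hC0, hC⟩ := loc_norm_le g x hK hKU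
  obtain ⟨χ, hχ, hχc, hχU, hχ0, hχ1, V, hV, hKV, hχV⟩ := loc_exists_cut hK hopen hKU
  refine ⟨C, hC0, fun s hs => ?_⟩
  set w : E n → X n := fun y => χ y • s x y with hw
  have hws : ContDiff ℝ ∞ w := by
    rw [contDiff_iff_contDiffAt]
    intro y
    by_cases hy : y ∈ tgt n M x
    · exact hχ.contDiffAt.smul ((hs.2.1 x).contDiffAt (hopen.mem_nhds hy))
    · have h1 : ∀ᶠ z in 𝓝 y, w z = 0 := by
        have : (tsupport χ)ᶜ ∈ 𝓝 y := (isClosed_tsupport χ).isOpen_compl.mem_nhds
          fun h => hy (hχU h)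
        filter_upwards [this] with z hz
        simp only [hw]
        rw [image_eq_zero_of_notMem_tsupport hz, zero_smul]
      exact contDiffAt_const.congr_of_eventuallyEq (h1.mono fun z hz => hz)
  have hwsup : tsupport w ⊆ tsupport χ := closure_mono fun y hy => by
    intro h
    apply hy
    simp only [hw]
    rw [h, zero_smul]
  have hwc : HasCompactSupport w := hχc.of_isClosed_subset (isClosed_tsupport _) hwsup
  have hwU : tsupport w ⊆ tgt n M x := hwsup.trans hχU
  have hT := extT_mem x hws hwc hwU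
  have h1 : ip g s (extT x w) ≤ ip g s s := by
    refine integral_mono (loc_integrable g (cont_ip g hs hT)) (loc_integrable g (cont_ip g hs hs))
      fun p => ?_
    simp only
    by_cases hp : p ∈ (chartAt (E n) x).source
    · obtain ⟨y, hy, rfl⟩ : ∃ y ∈ tgt n M x, (chartAt (E n) x).symm y = p :=
        ⟨_, (chartAt (E n) x).map_source hp, (chartAt (E n) x).left_inv hp⟩
      rw [loc_inner_chart g x hs hT hy, loc_inner_chart g x hs hs hy, extT_self x hwU]
      simp only [hw, map_smul, real_inner_smul_right]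
      exact mul_le_of_le_one_left real_inner_self_nonneg (hχ1 y)
    · rw [loc_val_out g hp, inner_zero_right]
      exact real_inner_self_nonneg
  have h2 : ∫ y in K, ‖s x y‖ ^ 2 ≤ C * ip g s (extT x w) := by
    rw [ip_ext g x hs hws hwc hwU, ← integral_const_mul]
    have hcont : Continuous fun y => C * ⟪Mw g x y (s x y), w y⟫_ℝ := by
      rw [continuous_iff_continuousAt]
      intro y
      by_cases hy : y ∈ tgt n M x
      · have e1 : ContinuousAt (Mw g x) y :=
          ((Mw_smooth g x).continuousOn).continuousAt (hopen.mem_nhds hy)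
        have e2 : ContinuousAt (s x) y :=
          ((hs.2.1 x).continuousOn).continuousAt (hopen.mem_nhds hy)
        exact continuousAt_const.mul ((e1.clm_apply e2).inner (hws.continuous.continuousAt))
      · have h1 : ∀ᶠ z in 𝓝 y, C * ⟪Mw g x z (s x z), w z⟫_ℝ = 0 := by
          have : (tsupport w)ᶜ ∈ 𝓝 y := (isClosed_tsupport w).isOpen_compl.mem_nhds
            fun h => hy (hwU h)
          filter_upwards [this] with z hz
          rw [image_eq_zero_of_notMem_tsupport hz, inner_zero_right, mul_zero]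
        exact (continuousAt_const (y := (0 : ℝ))).congr (h1.mono fun z hz => hz.symm)
    have hcomp : HasCompactSupport fun y => C * ⟪Mw g x y (s x y), w y⟫_ℝ := by
      refine hwc.mono fun y hy => ?_
      intro h
      apply hy
      simp only
      rw [h, inner_zero_right, mul_zero]
    have hint := hcont.integrable_of_hasCompactSupport (μ := volume) hcomp
    refine le_trans ?_ (setIntegral_le_integral (s := K) hint (ae_of_all _ fun y => ?_))
    · refine setIntegral_mono_on ?_ hint.integrableOn hK.measurableSet fun y hy => ?_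
      · have e2 : ContinuousOn (fun y => ‖s x y‖ ^ 2) K :=
          (((hs.2.1 x).continuousOn).mono hKU).norm.pow 2
        exact e2.integrableOn_compact hK
      · have := hC y hy (s x y)
        simp only [hw]
        rw [hχV y (hKV hy), one_smul]
        exact this
    · simp only [Pi.zero_apply]
      by_cases hy : y ∈ tgt n M x
      · simp only [hw, real_inner_smul_right]
        exact mul_nonneg hC0 (mul_nonneg (hχ0 y) (loc_weight_nonneg g x hy _))
      · have : w y = 0 := image_eq_zero_of_notMem_tsupport fun h => hy (hwU h)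
        rw [this, inner_zero_right, mul_zero]
  exact h2.trans (mul_le_mul_of_nonneg_left h1 hC0)

theorem ip_ext_bound [IsManifold (𝓡 n) ∞ M] [CompactSpace M] [T2Space M] [MeasurableSpace M]
    [BorelSpace M] (g : RMetric n M) (x : M) {K : Set (E n)} (hK : IsCompact K)
    (hKU : K ⊆ tgt n M x) : ∃ C, 0 ≤ C ∧ ∀ w : E n → X n, ContDiff ℝ ∞ w → tsupport w ⊆ K →
      ip g (extT x w) (extT x w) ≤ C * ∫ y, ‖w y‖ ^ 2 := by
  have h2 : ContinuousOn (fun y => ‖Mw g x y‖) K := ((Mw_smooth g x).continuousOn.mono hKU).norm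
  obtain ⟨C, hC⟩ := (hK.image_of_continuousOn h2).isBounded.bddAbove
  refine ⟨max C 0, le_max_right _ _, fun w hw hwK => ?_⟩
  have hwc : HasCompactSupport w := hK.of_isClosed_subset (isClosed_tsupport _) hwK
  have hT := extT_mem x hw hwc (hwK.trans hKU)
  rw [ip_ext g x hT hw hwc (hwK.trans hKU), extT_self x (hwK.trans hKU), ← integral_const_mul]
  refine integral_mono_of_nonneg (ae_of_all _ fun y => ?_) ?_ (ae_of_all _ fun y => ?_)
  · simp only [Pi.zero_apply]
    by_cases hy : y ∈ tgt n M x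
    · exact loc_weight_nonneg g x hy _
    · have : w y = 0 := image_eq_zero_of_notMem_tsupport fun h => hy (hKU (hwK h))
      rw [this, inner_zero_right]
  · refine Integrable.const_mul ?_ _
    refine (hw.continuous.norm.pow 2).integrable_of_hasCompactSupport ?_
    exact hwc.mono fun y hy h => hy (by simp [h])
  · simp only
    by_cases hy : y ∈ K
    · have h3 : ‖Mw g x y‖ ≤ max C 0 := le_trans (hC (mem_image_of_mem _ hy)) (le_max_left _ _)
      calc ⟪Mw g x y (w y), w y⟫_ℝ ≤ ‖Mw g x y (w y)‖ * ‖w y‖ := real_inner_le_norm _ _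
        _ ≤ (‖Mw g x y‖ * ‖w y‖) * ‖w y‖ :=
            mul_le_mul_of_nonneg_right (ContinuousLinearMap.le_opNorm _ _) (norm_nonneg _)
        _ = ‖Mw g x y‖ * ‖w y‖ ^ 2 := by ring
        _ ≤ max C 0 * ‖w y‖ ^ 2 := mul_le_mul_of_nonneg_right h3 (by positivity)
    · have : w y = 0 := image_eq_zero_of_notMem_tsupport fun h => hy (hwK h)
      rw [this, inner_zero_right]
      simp

end ANCO
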