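import Pool.Agent.Helper39.Anco.Del2
import Pool.Agent.Helper39.Anco.Tr
import Pool.Agent.Helper39.Anco.Valch
import Pool.Agent.Helper39.Anco.Clos
import Pool.Agent.Helper39.Anco.ClosB

/-!
# LOC2: the Dirac type operator in a chart
-/

open scoped ContDiff Topology Manifold InnerProductSpace
open Set MeasureTheory Filter

set_option maxSynthPendingDepth 3

noncomputable section
namespace ANCO

variable {n : ℕ} {M : Type} [TopologicalSpace M] [ChartedSpace (E n) M]

/-- `D = dT + deT` in the chart at `x` -/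
theorem D_loc (g : RMetric n M) (x : M) (s : M → E n → X n) {y : E n} (hy : y ∈ tgt n M x) :
    dT s x y + deT g s x y = ∑ k, Acoef (g.g x) k y (fderiv ℝ (s x) y (e k)) +
      Bcoef (g.g x) y (s x y) := by
  rw [dT, if_pos hy, deT, if_pos hy, dd_eq]

/-- the extension by zero vanishes near points outside of the chart -/
theorem loc2_ext_zero [T2Space M] (x x' : M) {w : E n → X n} (hc : HasCompactSupport w)
    (hsup : tsupport w ⊆ tgt n M x) {y : E n} (hy : y ∈ tgt n M x')
    (hy' : (chartAt (E n) x').symm y ∉ (chartAt (E n) x).source) :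
    ∀ᶠ z in 𝓝 y, extT x w x' z = 0 := by
  have hK : IsCompact ((chartAt (E n) x).symm '' tsupport w) :=
    hc.isCompact.image_of_continuousOn ((chartAt (E n) x).continuousOn_symm.mono hsup)
  have hopen : IsOpen (((chartAt (E n) x').symm : E n → M) ⁻¹'
      ((chartAt (E n) x).symm '' tsupport w)ᶜ ∩ tgt n M x') := by
    rw [inter_comm]
    exact (chartAt (E n) x').isOpen_inter_preimage_symm hK.isClosed.isOpen_compl
  have hmem : y ∈ ((chartAt (E n) x').symm : E n → M) ⁻¹'
      ((chartAt (E n) x).symm '' tsupport w)ᶜ ∩ tgt n M x' := by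
    refine ⟨?_, hy⟩
    rintro ⟨z, hz, hzy⟩
    apply hy'
    rw [← hzy]
    exact (chartAt (E n) x).map_target (hsup hz)
  filter_upwards [hopen.mem_nhds hmem] with z hz
  rw [extT]
  split_ifs with h
  · have h1 : w (tr n M x' x z) = 0 := by
      apply image_eq_zero_of_notMem_tsupport
      intro h2
      apply hz.1
      exact ⟨_, h2, tr_symm_apply h⟩
    rw [h1, map_zero]
  · rfl

theorem loc2_cov_zero (G : Coef n) {w : E n → X n} {y : E n} (h : ∀ᶠ z in 𝓝 y, w z = 0) :
    dloc w y = 0 ∧ deloc G w y = 0 := by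
  have h0 : w =ᶠ[𝓝 y] fun _ => 0 := h
  have h1 : fderiv ℝ w y = 0 := by rw [h0.fderiv_eq]; simp
  have h2 : w y = 0 := h.self_of_nhds
  constructor
  · simp [dloc, h1]
  · simp [deloc, cov, h1, h2]

theorem loc2_smooth {U : Set (E n)} (hU : IsOpen U) {w w' : E n → X n}
    (hw : ContDiffOn ℝ ∞ w' U) (h0 : ∀ y, y ∉ tsupport w → w' y = 0)
    (hsup : tsupport w ⊆ U) : ContDiff ℝ ∞ w' := by
  rw [contDiff_iff_contDiffAt]
  intro y
  by_cases hy : y ∈ U
  · exact hw.contDiffAt (hU.mem_nhds hy)
  · have h1 : ∀ᶠ z in 𝓝 y, w' z = 0 := by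
      have : (tsupport w)ᶜ ∈ 𝓝 y := (isClosed_tsupport w).isOpen_compl.mem_nhds
        fun h => hy (hsup h)
      filter_upwards [this] with z hz
      exact h0 z hz
    exact contDiffAt_const.congr_of_eventuallyEq (h1.mono fun z hz => hz)

/-- the coordinate expression of `D w` -/
theorem loc2_D_smooth (g : RMetric n M) (x : M) {w : E n → X n} (hw : ContDiff ℝ ∞ w)
    (hsup : tsupport w ⊆ tgt n M x) :
    ContDiff ℝ ∞ (fun y => ∑ k, Acoef (g.g x) k y (fderiv ℝ w y (e k)) +
      Bcoef (g.g x) y (w y)) ∧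
    tsupport (fun y => ∑ k, Acoef (g.g x) k y (fderiv ℝ w y (e k)) +
      Bcoef (g.g x) y (w y)) ⊆ tsupport w := by
  have hopen : IsOpen (tgt n M x) := (chartAt (E n) x).open_target
  have h0 : ∀ y, y ∉ tsupport w → (∑ k, Acoef (g.g x) k y (fderiv ℝ w y (e k)) +
      Bcoef (g.g x) y (w y)) = 0 := by
    intro y hy
    have h1 : w y = 0 := image_eq_zero_of_notMem_tsupport hy
    have h2 : fderiv ℝ w y = 0 := by
      by_contra h
      exact hy (support_fderiv_subset ℝ h)
    simp [h1, h2]
  constructor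
  · refine loc2_smooth hopen ?_ h0 hsup
    have hf : ContDiff ℝ ∞ (fderiv ℝ w) := hw.fderiv_right (m := ∞) (by simp)
    refine ContDiffOn.add (ContDiffOn.sum fun k _ => ?_) ?_
    · exact (Acoef_smooth (g.isMet x) k).clm_apply ((hf.clm_apply contDiff_const).contDiffOn)
    · exact (Bcoef_smooth (g.isMet x)).clm_apply hw.contDiffOn
  · refine closure_minimal (fun y hy => ?_) (isClosed_tsupport w)
    by_contra h
    exact hy (h0 y h)

/-- two total forms which agree in the chart at `x` agree on the source of that chart -/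
theorem loc2_agree {x : M} {s t : M → E n → X n} (hs : s ∈ TForm n M) (ht : t ∈ TForm n M)
    (h : ∀ y ∈ tgt n M x, s x y = t x y) {x' : M} {y : E n} (hy : y ∈ (tr n M x' x).source) :
    s x' y = t x' y := by
  rw [hs.2.2 x' x y hy, ht.2.2 x' x y hy, h]
  have := (mem_tr_source (x := x) (x' := x')).1 (tr_mem hy)
  exact this.1

theorem D_ext [IsManifold (𝓡 n) ∞ M] [T2Space M] (g : RMetric n M) (x : M)
    {w : E n → X n} (hw : ContDiff ℝ ∞ w) (hc : HasCompactSupport w)
    (hsup : tsupport w ⊆ tgt n M x) : dT (extT x w) + deT g (extT x w) =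
      extT x (fun y => ∑ k, Acoef (g.g x) k y (fderiv ℝ w y (e k)) + Bcoef (g.g x) y (w y)) := by
  obtain ⟨h1, h2⟩ := loc2_D_smooth g x hw hsup
  have hT := extT_mem x hw hc hsup
  have hc' : HasCompactSupport (fun y => ∑ k, Acoef (g.g x) k y (fderiv ℝ w y (e k)) +
      Bcoef (g.g x) y (w y)) := hc.isCompact.of_isClosed_subset (isClosed_tsupport _) h2
  have hT' := extT_mem x h1 hc' (h2.trans hsup)
  have hL : dT (extT x w) + deT g (extT x w) ∈ TForm n M :=
    (TForm n M).add_mem (dT_mem g hT) (deT_mem g hT)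
  funext x' y
  by_cases hy : y ∈ (tr n M x' x).source
  · refine loc2_agree (x := x) hL hT' (fun z hz => ?_) hy
    have e1 : (dT (extT x w) + deT g (extT x w)) x z = dT (extT x w) x z + deT g (extT x w) x z :=
      rfl
    rw [e1, D_loc g x _ hz, extT_self x hsup, extT_self x (h2.trans hsup)]
  · have e1 : extT x (fun y => ∑ k, Acoef (g.g x) k y (fderiv ℝ w y (e k)) +
        Bcoef (g.g x) y (w y)) x' y = 0 := by rw [extT, if_neg hy]
    rw [e1]
    have e2 : (dT (extT x w) + deT g (extT x w)) x' y =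
      dT (extT x w) x' y + deT g (extT x w) x' y := rfl
    rw [e2, dT, deT]
    split_ifs with hy'
    · have hy'' : (chartAt (E n) x').symm y ∉ (chartAt (E n) x).source := fun h =>
        hy (mem_tr_source.2 ⟨hy', h⟩)
      have h3 := loc2_ext_zero x x' hc hsup hy' hy''
      obtain ⟨h4, h5⟩ := loc2_cov_zero (g.g x') h3
      rw [h4, h5, add_zero]
    · simp

/-- a section multiplied by a cut-off function supported in a chart is an extension by zero -/
theorem mulT_eq_ext [IsManifold (𝓡 n) ∞ M] [T2Space M] [CompactSpace M] (x : M) {f : M → ℝ}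
    (hf : IsSm n M f) (hsup : tsupport f ⊆ (chartAt (E n) x).source) {s : M → E n → X n}
    (hs : s ∈ TForm n M) : ContDiff ℝ ∞ (mulT f s x) ∧ HasCompactSupport (mulT f s x) ∧
      tsupport (mulT f s x) ⊆ (chartAt (E n) x) '' (tsupport f) ∧
      mulT f s = extT x (mulT f s x) := by
  have hopen : IsOpen (tgt n M x) := (chartAt (E n) x).open_target
  have hKc : IsCompact ((chartAt (E n) x) '' (tsupport f)) :=
    (isClosed_tsupport f).isCompact.image_of_continuousOn
      ((chartAt (E n) x).continuousOn.mono hsup)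
  have h0 : ∀ y, y ∉ (chartAt (E n) x) '' (tsupport f) → mulT f s x y = 0 := by
    intro y hy
    rw [mulT]
    by_cases hyt : y ∈ tgt n M x
    · have : f ((chartAt (E n) x).symm y) = 0 := by
        apply image_eq_zero_of_notMem_tsupport
        intro h
        exact hy ⟨_, h, (chartAt (E n) x).right_inv hyt⟩
      rw [this, zero_smul]
    · rw [hs.1 x y hyt, smul_zero]
  have hKU : (chartAt (E n) x) '' (tsupport f) ⊆ tgt n M x := by
    rintro _ ⟨p, hp, rfl⟩
    exact (chartAt (E n) x).map_source (hsup hp)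
  have hts : tsupport (mulT f s x) ⊆ (chartAt (E n) x) '' (tsupport f) := by
    refine closure_minimal (fun y hy => ?_) hKc.isClosed
    by_contra h
    exact hy (h0 y h)
  refine ⟨?_, hKc.of_isClosed_subset (isClosed_tsupport _) hts, hts, ?_⟩
  · rw [contDiff_iff_contDiffAt]
    intro y
    by_cases hy : y ∈ tgt n M x
    · exact ((hf x).contDiffAt (hopen.mem_nhds hy)).smul
        ((hs.2.1 x).contDiffAt (hopen.mem_nhds hy))
    · have h1 : ∀ᶠ z in 𝓝 y, mulT f s x z = 0 := by
        filter_upwards [hKc.isClosed.isOpen_compl.mem_nhds fun h => hy (hKU h)] with z hz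
        exact h0 z hz
      exact contDiffAt_const.congr_of_eventuallyEq (h1.mono fun z hz => hz)
  · funext x' y
    rw [extT]
    split_ifs with hy
    · rw [mulT, mulT, map_smul, tr_symm_apply hy, ← hs.2.2 x' x y hy]
    · rw [mulT]
      by_cases hyt : y ∈ tgt n M x'
      · have : f ((chartAt (E n) x').symm y) = 0 := by
          apply image_eq_zero_of_notMem_tsupport
          intro h
          exact hy (mem_tr_source.2 ⟨hyt, hsup h⟩)
        rw [this, zero_smul]
      · rw [hs.1 x' y hyt, smul_zero]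

end ANCO
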