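import Pool.Agent.Helper39.Anco.LDefs

/-!
# RELL: Rellich compactness for test functions in a ball
-/

open scoped ContDiff Topology Manifold InnerProductSpace SchwartzMap
open Set MeasureTheory Filter FourierTransform

set_option maxSynthPendingDepth 3

noncomputable section
namespace ANCO

variable {n : ℕ}

/-- abstract compactness on the Fourier side -/
theorem rell_core {H : Type} [NormedAddCommGroup H] [ProperSpace H] [SecondCountableTopology H]
    (Φ : ℕ → E n → H) (M L C : ℝ) (hcont : ∀ m, Continuous (Φ m))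
    (hM : ∀ m ξ, ‖Φ m ξ‖ ≤ M) (hL : ∀ m ξ η, ‖Φ m ξ - Φ m η‖ ≤ L * ‖ξ - η‖)
    (hi : ∀ m, Integrable (fun ξ => ‖Φ m ξ‖ ^ 2))
    (hi' : ∀ m, Integrable (fun ξ => ‖ξ‖ ^ 2 * ‖Φ m ξ‖ ^ 2))
    (hC : ∀ m, ∫ ξ, ‖ξ‖ ^ 2 * ‖Φ m ξ‖ ^ 2 ≤ C) :
    ∃ φ : ℕ → ℕ, StrictMono φ ∧ ∀ ε > 0, ∃ N, ∀ a ≥ N, ∀ b ≥ N,
      ∫ y, ‖Φ (φ a) y - Φ (φ b) y‖ ^ 2 < ε := by
  haveI : CompleteSpace H := inferInstance
  have hM0 : 0 ≤ M := (norm_nonneg _).trans (hM 0 0)
  have hC0 : 0 ≤ C := le_trans (integral_nonneg (fun ξ => by positivity)) (hC 0)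
  have hL0 : 0 ≤ |L| := abs_nonneg L
  have hL' : ∀ m ξ η, ‖Φ m ξ - Φ m η‖ ≤ |L| * ‖ξ - η‖ := fun m ξ η =>
    (hL m ξ η).trans (mul_le_mul_of_nonneg_right (le_abs_self L) (norm_nonneg _))
  set D : ℕ → E n := TopologicalSpace.denseSeq (E n) with hD
  have hK : IsCompact (Set.pi univ (fun _ : ℕ => Metric.closedBall (0 : H) M)) :=
    isCompact_univ_pi (fun _ => isCompact_closedBall _ _)
  obtain ⟨lim, -, φ, hφ, hlim⟩ := hK.tendsto_subseq (x := fun m => fun i => Φ m (D i))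
    (fun m => by
      intro i _
      simpa using hM m (D i))
  refine ⟨φ, hφ, ?_⟩
  have hcau : ∀ ξ, CauchySeq (fun m => Φ (φ m) ξ) := by
    intro ξ
    rw [Metric.cauchySeq_iff]
    intro ε hε
    obtain ⟨i, hi⟩ := (TopologicalSpace.denseRange_denseSeq (E n)).exists_dist_lt ξ
      (ε := ε / (3 * (|L| + 1))) (by positivity)
    have h1 : Tendsto (fun m => Φ (φ m) (D i)) atTop (𝓝 (lim i)) :=
      (tendsto_pi_nhds.mp hlim) i
    obtain ⟨N, hN⟩ := Metric.cauchySeq_iff.mp h1.cauchySeq (ε / 3) (by positivity)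
    refine ⟨N, fun a ha b hb => ?_⟩
    have h2 := hN a ha b hb
    rw [dist_eq_norm] at h2 ⊢
    have h3 := hL' (φ a) ξ (D i)
    have h4 := hL' (φ b) (D i) ξ
    have h5 : ‖ξ - D i‖ < ε / (3 * (|L| + 1)) := by rwa [dist_eq_norm] at hi
    have h6 : ‖D i - ξ‖ < ε / (3 * (|L| + 1)) := by rwa [norm_sub_rev]
    have h7 : |L| * (ε / (3 * (|L| + 1))) < ε / 3 := by
      rw [mul_div_assoc', div_lt_div_iff₀ (by positivity) (by positivity)]
      nlinarith
    have h8 : |L| * ‖ξ - D i‖ ≤ |L| * (ε / (3 * (|L| + 1))) := by gcongr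
    have h9 : |L| * ‖D i - ξ‖ ≤ |L| * (ε / (3 * (|L| + 1))) := by gcongr
    calc ‖Φ (φ a) ξ - Φ (φ b) ξ‖
        = ‖(Φ (φ a) ξ - Φ (φ a) (D i)) + (Φ (φ a) (D i) - Φ (φ b) (D i)) +
            (Φ (φ b) (D i) - Φ (φ b) ξ)‖ := by congr 1; abel
      _ ≤ ‖Φ (φ a) ξ - Φ (φ a) (D i)‖ + ‖Φ (φ a) (D i) - Φ (φ b) (D i)‖ +
            ‖Φ (φ b) (D i) - Φ (φ b) ξ‖ := norm_add₃_le
      _ < ε := by linarith
  choose Ψ hΨ using fun ξ => cauchySeq_tendsto_of_complete (hcau ξ)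
  have hΨM : ∀ ξ, ‖Ψ ξ‖ ≤ M := fun ξ =>
    le_of_tendsto (hΨ ξ).norm (Eventually.of_forall (fun m => hM _ _))
  have hΨm : AEStronglyMeasurable Ψ (volume : Measure (E n)) :=
    aestronglyMeasurable_of_tendsto_ae atTop (fun m => (hcont (φ m)).aestronglyMeasurable)
      (Eventually.of_forall (fun ξ => hΨ ξ))
  -- dominated convergence in balls
  have hDCT : ∀ ρ : ℝ, Tendsto (fun m => ∫ ξ in Metric.ball (0 : E n) ρ,
      ‖Φ (φ m) ξ - Ψ ξ‖ ^ 2) atTop (𝓝 0) := by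
    intro ρ
    have h0 : (0 : ℝ) = ∫ ξ in Metric.ball (0 : E n) ρ, (0 : ℝ) := by simp
    rw [h0]
    refine tendsto_integral_of_dominated_convergence (fun _ => (2 * M) ^ 2) ?_ ?_ ?_ ?_
    · intro m
      exact (((hcont (φ m)).aestronglyMeasurable.sub hΨm).norm.pow 2).restrict
    · exact integrable_const_iff.mpr (Or.inr (by
        rw [isFiniteMeasure_restrict]
        exact measure_ball_lt_top.ne))
    · intro m
      refine Eventually.of_forall (fun ξ => ?_)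
      rw [Real.norm_eq_abs, abs_of_nonneg (by positivity)]
      have : ‖Φ (φ m) ξ - Ψ ξ‖ ≤ 2 * M := by
        refine (norm_sub_le _ _).trans ?_
        have := hM (φ m) ξ
        have := hΨM ξ
        linarith
      gcongr
    · refine Eventually.of_forall (fun ξ => ?_)
      have h1 := ((hΨ ξ).sub_const (Ψ ξ)).norm.pow 2
      simpa using h1
  intro ε hε
  -- the radius
  obtain ⟨ρ, hρ0, hρ⟩ : ∃ ρ : ℝ, 0 < ρ ∧ 4 * C / ρ ^ 2 < ε / 2 := by
    refine ⟨Real.sqrt (8 * (C + 1) / ε), by positivity, ?_⟩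
    rw [Real.sq_sqrt (by positivity), div_div_eq_mul_div, div_lt_div_iff₀ (by positivity)
      (by positivity)]
    nlinarith
  obtain ⟨N, hN⟩ := Metric.tendsto_atTop.mp (hDCT ρ) (ε / 8) (by positivity)
  refine ⟨N, fun a ha b hb => ?_⟩
  have hsub : ∀ (x y z : H), ‖x - y‖ ^ 2 ≤ 2 * ‖x - z‖ ^ 2 + 2 * ‖y - z‖ ^ 2 := by
    intro x y z
    have h1 : ‖x - y‖ ≤ ‖x - z‖ + ‖y - z‖ := by
      calc ‖x - y‖ = ‖(x - z) - (y - z)‖ := by congr 1; abel
        _ ≤ _ := norm_sub_le _ _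
    nlinarith [norm_nonneg (x - y), sq_nonneg (‖x - z‖ - ‖y - z‖), norm_nonneg (x - z),
      norm_nonneg (y - z)]
  have hsub0 : ∀ (x y : H), ‖x - y‖ ^ 2 ≤ 2 * ‖x‖ ^ 2 + 2 * ‖y‖ ^ 2 := by
    intro x y
    simpa using hsub x y 0
  have hmeas : ∀ a b, AEStronglyMeasurable (fun y => ‖Φ (φ a) y - Φ (φ b) y‖ ^ 2)
      (volume : Measure (E n)) := fun a b =>
    (((hcont (φ a)).sub (hcont (φ b))).norm.pow 2).aestronglyMeasurable
  have hint : Integrable (fun y => ‖Φ (φ a) y - Φ (φ b) y‖ ^ 2) := by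
    refine Integrable.mono' (((hi (φ a)).const_mul 2).add ((hi (φ b)).const_mul 2))
      (hmeas a b) (Eventually.of_forall (fun y => ?_))
    rw [Real.norm_eq_abs, abs_of_nonneg (by positivity)]
    exact hsub0 _ _
  have hfin : IsFiniteMeasure ((volume : Measure (E n)).restrict (Metric.ball (0 : E n) ρ)) := by
    rw [isFiniteMeasure_restrict]
    exact measure_ball_lt_top.ne
  have hintb : ∀ a, Integrable (fun y => ‖Φ (φ a) y - Ψ y‖ ^ 2)
      ((volume : Measure (E n)).restrict (Metric.ball (0 : E n) ρ)) := by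
    intro a
    refine Integrable.mono' (integrable_const ((2 * M) ^ 2))
      (((hcont (φ a)).aestronglyMeasurable.sub hΨm).norm.pow 2).restrict
      (Eventually.of_forall (fun y => ?_))
    rw [Real.norm_eq_abs, abs_of_nonneg (by positivity)]
    have : ‖Φ (φ a) y - Ψ y‖ ≤ 2 * M := by
      refine (norm_sub_le _ _).trans ?_
      have := hM (φ a) y
      have := hΨM y
      linarith
    gcongr
  rw [← integral_add_compl (Metric.isOpen_ball (x := (0 : E n)) (ε := ρ)).measurableSet hint]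
  have h1 : ∫ y in Metric.ball (0 : E n) ρ, ‖Φ (φ a) y - Φ (φ b) y‖ ^ 2 < ε / 2 := by
    have h2 := hN a ha
    have h3 := hN b hb
    rw [Real.dist_eq, sub_zero] at h2 h3
    have h4 := (le_abs_self _).trans_lt h2
    have h5 := (le_abs_self _).trans_lt h3
    calc ∫ y in Metric.ball (0 : E n) ρ, ‖Φ (φ a) y - Φ (φ b) y‖ ^ 2
        ≤ ∫ y in Metric.ball (0 : E n) ρ,
            (2 * ‖Φ (φ a) y - Ψ y‖ ^ 2 + 2 * ‖Φ (φ b) y - Ψ y‖ ^ 2) :=
          integral_mono hint.integrableOn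
            (((hintb a).const_mul 2).add ((hintb b).const_mul 2)) (fun y => hsub _ _ _)
      _ = 2 * (∫ y in Metric.ball (0 : E n) ρ, ‖Φ (φ a) y - Ψ y‖ ^ 2) +
            2 * (∫ y in Metric.ball (0 : E n) ρ, ‖Φ (φ b) y - Ψ y‖ ^ 2) := by
          rw [integral_add ((hintb a).const_mul 2) ((hintb b).const_mul 2),
            integral_const_mul, integral_const_mul]
      _ < ε / 2 := by linarith
  have h2 : ∫ y in (Metric.ball (0 : E n) ρ)ᶜ, ‖Φ (φ a) y - Φ (φ b) y‖ ^ 2 ≤ 4 * C / ρ ^ 2 := by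
    have hIa := (hi' (φ a)).const_mul (2 / ρ ^ 2)
    have hIb := (hi' (φ b)).const_mul (2 / ρ ^ 2)
    calc ∫ y in (Metric.ball (0 : E n) ρ)ᶜ, ‖Φ (φ a) y - Φ (φ b) y‖ ^ 2
        ≤ ∫ y in (Metric.ball (0 : E n) ρ)ᶜ, (2 / ρ ^ 2 * (‖y‖ ^ 2 * ‖Φ (φ a) y‖ ^ 2) +
            2 / ρ ^ 2 * (‖y‖ ^ 2 * ‖Φ (φ b) y‖ ^ 2)) := by
          refine setIntegral_mono_on hint.integrableOn (hIa.add hIb).integrableOn
            (Metric.isOpen_ball.measurableSet.compl) (fun y hy => ?_)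
          have hy' : ρ ≤ ‖y‖ := by
            simpa [Metric.mem_ball, dist_zero_right] using hy
          have h3 : 1 ≤ ‖y‖ ^ 2 / ρ ^ 2 := by
            rw [le_div_iff₀ (by positivity), one_mul]
            gcongr
          calc ‖Φ (φ a) y - Φ (φ b) y‖ ^ 2 ≤ 1 * (2 * ‖Φ (φ a) y‖ ^ 2 + 2 * ‖Φ (φ b) y‖ ^ 2) := by
                rw [one_mul]; exact hsub0 _ _
            _ ≤ (‖y‖ ^ 2 / ρ ^ 2) * (2 * ‖Φ (φ a) y‖ ^ 2 + 2 * ‖Φ (φ b) y‖ ^ 2) := by gcongr
            _ = _ := by ring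
      _ ≤ ∫ y, (2 / ρ ^ 2 * (‖y‖ ^ 2 * ‖Φ (φ a) y‖ ^ 2) +
            2 / ρ ^ 2 * (‖y‖ ^ 2 * ‖Φ (φ b) y‖ ^ 2)) :=
          setIntegral_le_integral (hIa.add hIb) (Eventually.of_forall (fun y => by
            simp only [Pi.zero_apply]
            positivity))
      _ = 2 / ρ ^ 2 * (∫ y, ‖y‖ ^ 2 * ‖Φ (φ a) y‖ ^ 2) +
            2 / ρ ^ 2 * (∫ y, ‖y‖ ^ 2 * ‖Φ (φ b) y‖ ^ 2) := by
          rw [integral_add hIa hIb, integral_const_mul, integral_const_mul]
      _ ≤ 2 / ρ ^ 2 * C + 2 / ρ ^ 2 * C := by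
          gcongr
          · exact hC _
          · exact hC _
      _ = 4 * C / ρ ^ 2 := by ring
  linarith


/-- complexification of the target -/
def rell_cpx (ι : Type) [Fintype ι] : Wd ι →L[ℝ] EuclideanSpace ℂ ι :=
  LinearMap.toContinuousLinearMap
    { toFun := fun v => WithLp.toLp 2 (fun α => (v α : ℂ))
      map_add' := fun v w => by ext α; simp
      map_smul' := fun c v => by ext α; simp }

theorem rell_cpx_norm {ι : Type} [Fintype ι] (v : Wd ι) : ‖rell_cpx ι v‖ = ‖v‖ := by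
  rw [EuclideanSpace.norm_eq, EuclideanSpace.norm_eq]
  congr 1
  refine Finset.sum_congr rfl (fun α _ => ?_)
  show ‖((v α : ℝ) : ℂ)‖ ^ 2 = _
  rw [Complex.norm_real]

theorem rell_lip {H : Type} [NormedAddCommGroup H] [InnerProductSpace ℂ H] [CompleteSpace H]
    (f : E n → H) (R : ℝ) (hR : 0 ≤ R) (hf : Integrable f) (hs : ∀ x, f x ≠ 0 → ‖x‖ ≤ R)
    (ξ η : E n) : ‖𝓕 f ξ - 𝓕 f η‖ ≤ (2 * Real.pi * R * ∫ x, ‖f x‖) * ‖ξ - η‖ := by
  rw [Real.fourier_eq', Real.fourier_eq', ← integral_sub]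
  · have hb : ∀ x, ‖Complex.exp (((-2 * Real.pi * ⟪x, ξ⟫_ℝ : ℝ) : ℂ) * Complex.I) • f x -
        Complex.exp (((-2 * Real.pi * ⟪x, η⟫_ℝ : ℝ) : ℂ) * Complex.I) • f x‖ ≤
        (2 * Real.pi * R * ‖ξ - η‖) * ‖f x‖ := by
      intro x
      rw [← sub_smul, norm_smul]
      by_cases hx : f x = 0
      · simp [hx]
      · have hxR := hs x hx
        gcongr
        have h1 : Complex.exp (((-2 * Real.pi * ⟪x, ξ⟫_ℝ : ℝ) : ℂ) * Complex.I) -
            Complex.exp (((-2 * Real.pi * ⟪x, η⟫_ℝ : ℝ) : ℂ) * Complex.I) =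
            Complex.exp (((-2 * Real.pi * ⟪x, η⟫_ℝ : ℝ) : ℂ) * Complex.I) *
              (Complex.exp (Complex.I * ((-2 * Real.pi * ⟪x, ξ - η⟫_ℝ : ℝ) : ℂ)) - 1) := by
          rw [mul_sub, mul_one, ← Complex.exp_add]
          congr 2
          rw [inner_sub_right]
          push_cast
          ring
        rw [h1, norm_mul, Complex.norm_exp_ofReal_mul_I, one_mul]
        refine (Real.norm_exp_I_mul_ofReal_sub_one_le).trans ?_
        rw [Real.norm_eq_abs, abs_mul, abs_mul, abs_neg, abs_of_pos (by norm_num : (0 : ℝ) < 2),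
          abs_of_pos Real.pi_pos, mul_assoc (2 * Real.pi)]
        gcongr
        exact (abs_real_inner_le_norm x (ξ - η)).trans (by gcongr)
    refine (norm_integral_le_of_norm_le (hf.norm.const_mul _)
      (Eventually.of_forall hb)).trans ?_
    rw [integral_const_mul]
    apply le_of_eq
    ring
  · have := (Real.fourierIntegral_convergent_iff (μ := volume) (f := f) ξ).mpr hf
    refine this.congr (Eventually.of_forall (fun x => ?_))
    simp only [Circle.smul_def, Real.fourierChar_apply]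
    congr 3
    push_cast
    ring
  · have := (Real.fourierIntegral_convergent_iff (μ := volume) (f := f) η).mpr hf
    refine this.congr (Eventually.of_forall (fun x => ?_))
    simp only [Circle.smul_def, Real.fourierChar_apply]
    congr 3
    push_cast
    ring

theorem rell_sq {H : Type} [NormedAddCommGroup H] [InnerProductSpace ℂ H] [CompleteSpace H]
    (f : 𝓢(E n, H)) : Integrable (fun x => ‖f x‖ ^ 2) := by
  have h := (f.memLp 2 (volume : Measure (E n))).norm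
  exact h.integrable_sq

/-- the complexified test function as a Schwartz function -/
theorem rell_schwartz {ι : Type} [Fintype ι] {U : Set (E n)} {w : E n → Wd ι} (hw : Test U w) :
    ∃ W : 𝓢(E n, EuclideanSpace ℂ ι), ∀ x, W x = rell_cpx ι (w x) := by
  have h1 : HasCompactSupport (rell_cpx ι ∘ w) := hw.2.1.comp_left (map_zero _)
  have h2 : ContDiff ℝ ∞ (rell_cpx ι ∘ w) := (rell_cpx ι).contDiff.comp hw.1
  exact ⟨h1.toSchwartzMap h2, fun x => rfl⟩

open LineDeriv in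
theorem rell_deriv {ι : Type} [Fintype ι] {U : Set (E n)} {w : E n → Wd ι} (hw : Test U w)
    (W : 𝓢(E n, EuclideanSpace ℂ ι)) (hW : ∀ x, W x = rell_cpx ι (w x)) (j : Fin n) (x : E n) :
    ‖(∂_{e j} W) x‖ = ‖fderiv ℝ w x (e j)‖ := by
  rw [SchwartzMap.lineDerivOp_apply_eq_fderiv]
  have h1 : (W : E n → EuclideanSpace ℂ ι) = rell_cpx ι ∘ w := funext hW
  rw [h1, fderiv_comp x (rell_cpx ι).differentiableAt
    ((hw.1.differentiable (by simp)).differentiableAt), ContinuousLinearMap.fderiv]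
  exact rell_cpx_norm _

open LineDeriv in
theorem rell_energy {ι : Type} [Fintype ι] (W : 𝓢(E n, EuclideanSpace ℂ ι)) :
    Integrable (fun ξ => ‖ξ‖ ^ 2 * ‖(𝓕 W) ξ‖ ^ 2) ∧
    ∫ ξ, ‖ξ‖ ^ 2 * ‖(𝓕 W) ξ‖ ^ 2 ≤
      ∑ j : Fin n, ∫ x, ‖(∂_{e j} W : 𝓢(E n, EuclideanSpace ℂ ι)) x‖ ^ 2 := by
  have h1 : ∀ (j : Fin n) (ξ : E n), ‖(𝓕 (∂_{e j} W : 𝓢(E n, EuclideanSpace ℂ ι))) ξ‖ ^ 2 =
      (2 * Real.pi) ^ 2 * (ξ j ^ 2 * ‖(𝓕 W) ξ‖ ^ 2) := by
    intro j ξ
    have htg : (fun x : E n => (inner ℝ x (e j) : ℝ)).HasTemperateGrowth := by fun_prop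
    rw [SchwartzMap.fourier_lineDerivOp_eq, smul_apply,
      SchwartzMap.smulLeftCLM_apply_apply htg, norm_smul, norm_smul]
    have h2 : ‖(2 * Real.pi * Complex.I : ℂ)‖ = 2 * Real.pi := by
      rw [norm_mul, norm_mul, Complex.norm_I, Complex.norm_real, Real.norm_eq_abs,
        abs_of_pos Real.pi_pos]
      simp
    have h3 : (inner ℝ ξ (e j) : ℝ) = ξ j := by
      simp [e, EuclideanSpace.inner_single_right]
    rw [h2, h3, Real.norm_eq_abs, mul_pow (2 * Real.pi), mul_pow |ξ j|, sq_abs]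
  have h2 : ∀ ξ : E n, ‖ξ‖ ^ 2 * ‖(𝓕 W) ξ‖ ^ 2 =
      (2 * Real.pi)⁻¹ ^ 2 * ∑ j : Fin n,
        ‖(𝓕 (∂_{e j} W : 𝓢(E n, EuclideanSpace ℂ ι))) ξ‖ ^ 2 := by
    intro ξ
    simp_rw [h1]
    rw [← Finset.mul_sum, ← Finset.sum_mul, EuclideanSpace.norm_sq_eq]
    simp_rw [Real.norm_eq_abs, sq_abs]
    have : (2 * Real.pi) ≠ 0 := by positivity
    field_simp
  have h3 : Integrable (fun ξ => ∑ j : Fin n,
      ‖(𝓕 (∂_{e j} W : 𝓢(E n, EuclideanSpace ℂ ι))) ξ‖ ^ 2) :=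
    integrable_finsetSum _ (fun j _ => rell_sq _)
  refine ⟨?_, ?_⟩
  · simp_rw [h2]
    exact h3.const_mul _
  · simp_rw [h2]
    rw [integral_const_mul, integral_finsetSum _ (fun j _ => rell_sq _)]
    have h4 : ∀ j : Fin n, ∫ ξ, ‖(𝓕 (∂_{e j} W : 𝓢(E n, EuclideanSpace ℂ ι))) ξ‖ ^ 2 =
        ∫ x, ‖(∂_{e j} W : 𝓢(E n, EuclideanSpace ℂ ι)) x‖ ^ 2 := fun j =>
      SchwartzMap.integral_norm_sq_fourier _
    simp_rw [h4]
    have h5 : (2 * Real.pi)⁻¹ ^ 2 ≤ 1 := by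
      apply pow_le_one₀ (by positivity)
      rw [inv_le_one₀ (by positivity)]
      nlinarith [Real.pi_gt_three]
    calc (2 * Real.pi)⁻¹ ^ 2 * ∑ j : Fin n,
          ∫ x, ‖(∂_{e j} W : 𝓢(E n, EuclideanSpace ℂ ι)) x‖ ^ 2
        ≤ 1 * ∑ j : Fin n, ∫ x, ‖(∂_{e j} W : 𝓢(E n, EuclideanSpace ℂ ι)) x‖ ^ 2 := by
          gcongr
      _ = _ := one_mul _

theorem rellich {ι : Type} [Fintype ι] (R C : ℝ) (w : ℕ → E n → Wd ι)
    (hw : ∀ m, Test (Metric.ball 0 R) (w m))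
    (h1 : ∀ m, (∫ y, ‖w m y‖ ^ 2) + ∑ j, ∫ y, ‖fderiv ℝ (w m) y (e j)‖ ^ 2 ≤ C) :
    ∃ φ : ℕ → ℕ, StrictMono φ ∧ ∀ ε > 0, ∃ N, ∀ a ≥ N, ∀ b ≥ N,
      ∫ y, ‖w (φ a) y - w (φ b) y‖ ^ 2 < ε := by
  choose W hW using fun m => rell_schwartz (hw m)
  have hWn : ∀ m x, ‖W m x‖ = ‖w m x‖ := fun m x => by rw [hW, rell_cpx_norm]
  have hE : ∀ m, (∫ x, ‖W m x‖ ^ 2) = ∫ x, ‖w m x‖ ^ 2 := fun m => by simp_rw [hWn]
  have hsq0 : ∀ m, 0 ≤ ∫ x, ‖w m x‖ ^ 2 := fun m => integral_nonneg (fun x => by positivity)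
  have hd0 : ∀ m, 0 ≤ ∑ j, ∫ y, ‖fderiv ℝ (w m) y (e j)‖ ^ 2 := fun m =>
    Finset.sum_nonneg (fun j _ => integral_nonneg (fun x => by positivity))
  have hsupp : ∀ m x, W m x ≠ 0 → x ∈ Metric.ball (0 : E n) R := by
    intro m x hx
    have : w m x ≠ 0 := by
      intro h
      apply hx
      rw [hW, h, map_zero]
    exact (hw m).2.2 (subset_tsupport _ this)
  set V : ℝ := (volume (Metric.ball (0 : E n) R)).toReal with hV
  have hL1 : ∀ m, ∫ x, ‖W m x‖ ≤ V + C := by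
    intro m
    have hi2 : Integrable (fun x => ‖W m x‖ ^ 2) := rell_sq (W m)
    have hind : Integrable (indicator (Metric.ball (0 : E n) R) (fun _ => (1 : ℝ))) :=
      (integrable_indicator_iff Metric.isOpen_ball.measurableSet).mpr
        (integrableOn_const (measure_ball_lt_top.ne))
    calc ∫ x, ‖W m x‖ ≤ ∫ x, (indicator (Metric.ball (0 : E n) R) (fun _ => (1 : ℝ)) x +
            ‖W m x‖ ^ 2) := by
          refine integral_mono (W m).integrable.norm (hind.add hi2) (fun x => ?_)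
          by_cases hx : W m x = 0
          · simp only [hx, norm_zero]
            have : 0 ≤ indicator (Metric.ball (0 : E n) R) (fun _ => (1 : ℝ)) x :=
              indicator_nonneg (fun _ _ => zero_le_one) x
            simpa using this
          · have := hsupp m x hx
            simp only [indicator_of_mem this]
            nlinarith [sq_nonneg (‖W m x‖ - 1), norm_nonneg (W m x)]
      _ = V + ∫ x, ‖W m x‖ ^ 2 := by
          rw [integral_add hind hi2, integral_indicator_const _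
            Metric.isOpen_ball.measurableSet]
          simp [hV, Measure.real]
      _ ≤ V + C := by
          rw [hE]
          have := h1 m
          have := hd0 m
          linarith
  have hVC : 0 ≤ V + C := le_trans (integral_nonneg (fun x => norm_nonneg _)) (hL1 0)
  obtain ⟨φ, hφ, hφ2⟩ := rell_core (fun m => (𝓕 (W m) : 𝓢(E n, EuclideanSpace ℂ ι)))
    (V + C) (2 * Real.pi * |R| * (V + C)) C
    (fun m => (𝓕 (W m)).continuous)
    (fun m ξ => by
      show ‖(𝓕 (W m)) ξ‖ ≤ V + C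
      rw [SchwartzMap.fourier_coe]
      exact (VectorFourier.norm_fourierIntegral_le_integral_norm _ _ _ _ _).trans (hL1 m))
    (fun m ξ η => by
      show ‖(𝓕 (W m)) ξ - (𝓕 (W m)) η‖ ≤ _
      rw [SchwartzMap.fourier_coe]
      refine (rell_lip (W m) |R| (abs_nonneg R) (W m).integrable (fun x hx => ?_) ξ η).trans ?_
      · have := hsupp m x hx
        rw [Metric.mem_ball, dist_zero_right] at this
        exact this.le.trans (le_abs_self R)
      · gcongr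
        exact hL1 m)
    (fun m => rell_sq _)
    (fun m => (rell_energy (W m)).1)
    (fun m => by
      refine (rell_energy (W m)).2.trans ?_
      simp_rw [rell_deriv (hw m) (W m) (hW m)]
      have := h1 m
      have := hsq0 m
      linarith)
  refine ⟨φ, hφ, fun ε hε => ?_⟩
  obtain ⟨N, hN⟩ := hφ2 ε hε
  refine ⟨N, fun a ha b hb => ?_⟩
  have h2 := hN a ha b hb
  have h3 := SchwartzMap.integral_norm_sq_fourier (W (φ a) - W (φ b))
  have h4 : ∀ ξ, (𝓕 (W (φ a) - W (φ b)) : 𝓢(E n, EuclideanSpace ℂ ι)) ξ =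
      (𝓕 (W (φ a))) ξ - (𝓕 (W (φ b))) ξ := by
    intro ξ
    have : (𝓕 (W (φ a) - W (φ b)) : 𝓢(E n, EuclideanSpace ℂ ι)) =
        𝓕 (W (φ a)) - 𝓕 (W (φ b)) := map_sub (fourierCLM ℂ 𝓢(E n, EuclideanSpace ℂ ι)) _ _
    rw [this]
    rfl
  simp_rw [h4] at h3
  have h5 : ∀ x, ‖(W (φ a) - W (φ b)) x‖ = ‖w (φ a) x - w (φ b) x‖ := by
    intro x
    rw [sub_apply, hW, hW, ← map_sub, rell_cpx_norm]
  simp_rw [h5] at h3
  rw [← h3]
  exact h2

end ANCO
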