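import Pool.Agent.Helper39.Anco.La
import Pool.Agent.Helper39.Anco.Rell
import Pool.Agent.Helper39.Anco.Del2
import Pool.Agent.Helper39.Anco.Valch
import Pool.Agent.Helper39.Anco.Clos
import Pool.Agent.Helper39.Anco.ClosB
import Pool.Agent.Helper39.Anco.ClosC
import Pool.Agent.Helper39.Anco.Vol
import Pool.Agent.Helper39.Anco.Int
import Pool.Agent.Helper39.Anco.Loc
import Pool.Agent.Helper39.Anco.Loc2
import Pool.Agent.Helper39.Anco.Pu

/-!
# CPT: compactness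
-/

open scoped ContDiff Topology Manifold InnerProductSpace
open Set MeasureTheory Filter

set_option maxSynthPendingDepth 3

noncomputable section
namespace ANCO

variable {n : ℕ} {M : Type} [TopologicalSpace M] [ChartedSpace (E n) M]

theorem cpt_ip_nonneg [MeasurableSpace M] (g : RMetric n M) (s : M → E n → X n) :
    0 ≤ ip g s s := integral_nonneg fun _ => real_inner_self_nonneg

/-- facts about cut-off sections in a chart -/
theorem cpt_cut [IsManifold (𝓡 n) ∞ M] [T2Space M] [CompactSpace M] (g : RMetric n M) (x : M)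
    {χ : M → ℝ} (hχ : IsSm n M χ)
    {s : M → E n → X n} (hs : s ∈ TForm n M) {y : E n} (hy : y ∈ tgt n M x) :
    ∑ k, Acoef (g.g x) k y (fderiv ℝ (mulT χ s x) y (e k)) + Bcoef (g.g x) y (mulT χ s x y) =
      χ ((chartAt (E n) x).symm y) • (dT s + deT g s) x y +
      (∑ k, (fderiv ℝ (fun z => χ ((chartAt (E n) x).symm z)) y (e k)) •
        Acoef (g.g x) k y) (s x y) := by
  have hopen : IsOpen (tgt n M x) := (chartAt (E n) x).open_target
  have h1 : DifferentiableAt ℝ (fun z => χ ((chartAt (E n) x).symm z)) y :=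
    ((hχ x).contDiffAt (hopen.mem_nhds hy)).differentiableAt (by simp)
  have h2 : DifferentiableAt ℝ (s x) y :=
    ((hs.2.1 x).contDiffAt (hopen.mem_nhds hy)).differentiableAt (by simp)
  have h3 : fderiv ℝ (mulT χ s x) y = χ ((chartAt (E n) x).symm y) • fderiv ℝ (s x) y +
      (fderiv ℝ (fun z => χ ((chartAt (E n) x).symm z)) y).smulRight (s x y) := by
    have : mulT χ s x = fun z => χ ((chartAt (E n) x).symm z) • s x z := rfl
    rw [this, fderiv_fun_smul h1 h2]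
  have h4 : (dT s + deT g s) x y = dT s x y + deT g s x y := rfl
  rw [h4, D_loc g x s hy, h3]
  simp only [mulT, _root_.add_apply, _root_.smul_apply, ContinuousLinearMap.smulRight_apply,
    map_add, map_smul, Finset.sum_add_distrib, smul_add, Finset.smul_sum,
    _root_.sum_apply]
  abel

theorem cpt_chart [IsManifold (𝓡 n) ∞ M] [CompactSpace M] [T2Space M] [MeasurableSpace M]
    [BorelSpace M] (g : RMetric n M) (x : M) : ∃ O : Set M, IsOpen O ∧ x ∈ O ∧
    O ⊆ (chartAt (E n) x).source ∧ ∀ χ : M → ℝ, IsSm n M χ → tsupport χ ⊆ O →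
    (∀ p, 0 ≤ χ p) → (∀ p, χ p ≤ 1) → ∀ v : ℕ → M → E n → X n, (∀ m, v m ∈ TForm n M) →
    (∀ m, ip g (v m) (v m) ≤ 1) →
    (∀ m, ip g (dT (v m) + deT g (v m)) (dT (v m) + deT g (v m)) ≤ 1) →
    ∃ φ : ℕ → ℕ, StrictMono φ ∧ ∀ ε > 0, ∃ N, ∀ a ≥ N, ∀ b ≥ N,
      ∫ y, ‖mulT χ (v (φ a)) x y - mulT χ (v (φ b)) x y‖ ^ 2 < ε := by
  have hopen : IsOpen (tgt n M x) := (chartAt (E n) x).open_target
  have hctr : ctr n x ∈ tgt n M x := mem_chart_target (E n) x
  obtain ⟨r, hr, C, hball, hC⟩ := local_apriori hopen (fun k => Acoef_smooth (g.isMet x) k)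
    (Bcoef_smooth (g.isMet x)) (Acoef_symb (g.isMet x)) hctr
  refine ⟨(chartAt (E n) x).source ∩ chartAt (E n) x ⁻¹' Metric.ball (ctr n x) r,
    (chartAt (E n) x).isOpen_inter_preimage Metric.isOpen_ball,
    ⟨mem_chart_source (E n) x, Metric.mem_ball_self hr⟩, inter_subset_left, ?_⟩
  intro χ hχ hsup hχ0 hχ1 v hv h1 h2
  have hsup' : tsupport χ ⊆ (chartAt (E n) x).source := hsup.trans inter_subset_left
  set K : Set (E n) := (chartAt (E n) x) '' (tsupport χ) with hK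
  have hKc : IsCompact K := (isClosed_tsupport χ).isCompact.image_of_continuousOn
      ((chartAt (E n) x).continuousOn.mono hsup')
  have hKU : K ⊆ tgt n M x := by
    rintro _ ⟨p, hp, rfl⟩
    exact (chartAt (E n) x).map_source (hsup' hp)
  have hKb : K ⊆ Metric.ball (ctr n x) r := by
    rintro _ ⟨p, hp, rfl⟩
    exact (hsup hp).2
  obtain ⟨C1, hC1, hL⟩ := ip_local g x hKc hKU
  set w : ℕ → E n → X n := fun m => mulT χ (v m) x with hw
  have hfact := fun m => mulT_eq_ext x hχ hsup' (hv m)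
  have hws : ∀ m, ContDiff ℝ ∞ (w m) := fun m => (hfact m).1
  have hwc : ∀ m, HasCompactSupport (w m) := fun m => (hfact m).2.1
  have hwK : ∀ m, tsupport (w m) ⊆ K := fun m => (hfact m).2.2.1
  have hw0 : ∀ m, ∀ y ∉ K, w m y = 0 := fun m y hy =>
    image_eq_zero_of_notMem_tsupport fun h => hy (hwK m h)
  -- the L² bound
  have hvn : ∀ m, ContinuousOn (fun y => ‖v m x y‖ ^ 2) K := fun m =>
    (((hv m).2.1 x).continuousOn.mono hKU).norm.pow 2
  have hb1 : ∀ m, ∫ y, ‖w m y‖ ^ 2 ≤ C1 := by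
    intro m
    have e1 : ∫ y, ‖w m y‖ ^ 2 = ∫ y in K, ‖w m y‖ ^ 2 :=
      (setIntegral_eq_integral_of_forall_compl_eq_zero fun y hy => by rw [hw0 m y hy]; simp).symm
    rw [e1]
    have e2 : ∫ y in K, ‖w m y‖ ^ 2 ≤ ∫ y in K, ‖v m x y‖ ^ 2 := by
      refine setIntegral_mono_on ?_ ((hvn m).integrableOn_compact hKc) hKc.measurableSet
        fun y hy => ?_
      · exact ((hws m).continuous.norm.pow 2).continuousOn.integrableOn_compact hKc
      · have : ‖w m y‖ ≤ ‖v m x y‖ := by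
          simp only [hw, mulT, norm_smul]
          refine mul_le_of_le_one_left (norm_nonneg _) ?_
          rw [Real.norm_of_nonneg (hχ0 _)]
          exact hχ1 _
        exact pow_le_pow_left₀ (norm_nonneg _) this 2
    refine e2.trans ((hL (v m) (hv m)).trans ?_)
    exact mul_le_of_le_one_right hC1 (h1 m)
  -- the bound for D w
  set L : E n → (X n →L[ℝ] X n) := fun y =>
    ∑ k, (fderiv ℝ (fun z => χ ((chartAt (E n) x).symm z)) y (e k)) • Acoef (g.g x) k y with hLd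
  have hLcont : ContinuousOn L K := by
    refine ContinuousOn.mono ?_ hKU
    have e0 := (hχ x).fderiv_of_isOpen (m := ∞) hopen (by simp)
    refine continuousOn_finsetSum _ fun k _ => ?_
    have e1 : ContinuousOn (fun y => fderiv ℝ (fun z => χ ((chartAt (E n) x).symm z)) y (e k))
      (tgt n M x) := e0.continuousOn.clm_apply continuousOn_const
    exact e1.smul (Acoef_smooth (g.isMet x) k).continuousOn
  obtain ⟨C2', hC2⟩ := (hKc.image_of_continuousOn (hLcont.norm.pow 2)).isBounded.bddAbove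
  set C2 : ℝ := max C2' 0 with hC2d
  have hC20 : 0 ≤ C2 := le_max_right _ _
  have hC2' : ∀ y ∈ K, ‖L y‖ ^ 2 ≤ C2 := fun y hy =>
    le_trans (hC2 (mem_image_of_mem _ hy)) (le_max_left _ _)
  have hDv : ∀ m, dT (v m) + deT g (v m) ∈ TForm n M := fun m =>
    (TForm n M).add_mem (dT_mem g (hv m)) (deT_mem g (hv m))
  have hDvn : ∀ m, ContinuousOn (fun y => ‖(dT (v m) + deT g (v m)) x y‖ ^ 2) K := fun m =>
    (((hDv m).2.1 x).continuousOn.mono hKU).norm.pow 2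
  set D : ℕ → E n → X n := fun m y =>
    ∑ k, Acoef (g.g x) k y (fderiv ℝ (w m) y (e k)) + Bcoef (g.g x) y (w m y) with hD
  have hD0 : ∀ m, ∀ y ∉ K, D m y = 0 := by
    intro m y hy
    have e2 : fderiv ℝ (w m) y = 0 := by
      by_contra h
      exact hy (hwK m (support_fderiv_subset ℝ h))
    simp only [hD, hw0 m y hy, e2, _root_.zero_apply, map_zero, Finset.sum_const_zero, add_zero]
  have hDc : ∀ m, ContinuousOn (fun y => ‖D m y‖ ^ 2) K := by
    intro m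
    refine ContinuousOn.mono ?_ hKU
    refine ContinuousOn.pow (ContinuousOn.norm ?_) 2
    have hfc : Continuous (fderiv ℝ (w m)) := (hws m).continuous_fderiv (by simp)
    refine ContinuousOn.add (continuousOn_finsetSum _ fun k _ => ?_) ?_
    · exact (Acoef_smooth (g.isMet x) k).continuousOn.clm_apply
        (hfc.continuousOn.clm_apply continuousOn_const)
    · exact (Bcoef_smooth (g.isMet x)).continuousOn.clm_apply (hws m).continuous.continuousOn
  have hb2 : ∀ m, ∫ y, ‖D m y‖ ^ 2 ≤ 2 * C1 + 2 * C2 * C1 := by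
    intro m
    have e1 : ∫ y, ‖D m y‖ ^ 2 = ∫ y in K, ‖D m y‖ ^ 2 :=
      (setIntegral_eq_integral_of_forall_compl_eq_zero fun y hy => by rw [hD0 m y hy]; simp).symm
    rw [e1]
    have i1 : IntegrableOn (fun y => 2 * ‖(dT (v m) + deT g (v m)) x y‖ ^ 2) K :=
      ((hDvn m).integrableOn_compact hKc).const_mul 2
    have i2 : IntegrableOn (fun y => (2 * C2) * ‖v m x y‖ ^ 2) K :=
      ((hvn m).integrableOn_compact hKc).const_mul (2 * C2)
    have e2 : ∫ y in K, ‖D m y‖ ^ 2 ≤ ∫ y in K, (2 * ‖(dT (v m) + deT g (v m)) x y‖ ^ 2 +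
        (2 * C2) * ‖v m x y‖ ^ 2) := by
      refine setIntegral_mono_on ((hDc m).integrableOn_compact hKc) (i1.add i2) hKc.measurableSet
        fun y hy => ?_
      have e3 : D m y = χ ((chartAt (E n) x).symm y) • (dT (v m) + deT g (v m)) x y +
          L y (v m x y) := cpt_cut g x hχ (hv m) (hKU hy)
      have e4 : ‖D m y‖ ≤ ‖(dT (v m) + deT g (v m)) x y‖ + ‖L y‖ * ‖v m x y‖ := by
        rw [e3]
        refine (norm_add_le _ _).trans (add_le_add ?_ (ContinuousLinearMap.le_opNorm _ _))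
        rw [norm_smul, Real.norm_of_nonneg (hχ0 _)]
        exact mul_le_of_le_one_left (norm_nonneg _) (hχ1 _)
      have e5 : ‖D m y‖ ^ 2 ≤ (‖(dT (v m) + deT g (v m)) x y‖ + ‖L y‖ * ‖v m x y‖) ^ 2 :=
        pow_le_pow_left₀ (norm_nonneg _) e4 2
      have e6 : ‖L y‖ ^ 2 * ‖v m x y‖ ^ 2 ≤ C2 * ‖v m x y‖ ^ 2 :=
        mul_le_mul_of_nonneg_right (hC2' y hy) (sq_nonneg _)
      nlinarith [sq_nonneg (‖(dT (v m) + deT g (v m)) x y‖ - ‖L y‖ * ‖v m x y‖)]
    refine e2.trans ?_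
    rw [integral_add i1 i2, integral_const_mul, integral_const_mul]
    have e7 : ∫ y in K, ‖(dT (v m) + deT g (v m)) x y‖ ^ 2 ≤ C1 :=
      (hL _ (hDv m)).trans (mul_le_of_le_one_right hC1 (h2 m))
    have e8 : ∫ y in K, ‖v m x y‖ ^ 2 ≤ C1 :=
      (hL _ (hv m)).trans (mul_le_of_le_one_right hC1 (h1 m))
    nlinarith
  -- apply the a priori estimate and Rellich
  have htest : ∀ m, Test (Metric.ball (ctr n x) r) (w m) := fun m =>
    ⟨hws m, hwc m, (hwK m).trans hKb⟩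
  have hb3 : ∀ m, ∑ j, ∫ y, ‖fderiv ℝ (w m) y (e j)‖ ^ 2 ≤
      |C| * ((2 * C1 + 2 * C2 * C1) + C1) := by
    intro m
    refine (hC (w m) (htest m)).trans ?_
    have e1 : 0 ≤ (∫ y, ‖D m y‖ ^ 2) + ∫ y, ‖w m y‖ ^ 2 :=
      add_nonneg (integral_nonneg fun _ => sq_nonneg _) (integral_nonneg fun _ => sq_nonneg _)
    exact mul_le_mul (le_abs_self C) (add_le_add (hb2 m) (hb1 m)) e1 (abs_nonneg _)
  have hsub : Metric.ball (ctr n x) r ⊆ Metric.ball (0 : E n) (‖ctr n x‖ + r) := by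
    intro y hy
    rw [mem_ball_zero_iff]
    rw [mem_ball_iff_norm] at hy
    calc ‖y‖ = ‖ctr n x + (y - ctr n x)‖ := by congr 1; abel
      _ ≤ ‖ctr n x‖ + ‖y - ctr n x‖ := norm_add_le _ _
      _ < ‖ctr n x‖ + r := by linarith
  exact rellich (‖ctr n x‖ + r) (C1 + |C| * ((2 * C1 + 2 * C2 * C1) + C1)) w
    (fun m => ⟨(htest m).1, (htest m).2.1, (htest m).2.2.trans hsub⟩)
    (fun m => add_le_add (hb1 m) (hb3 m))

theorem cpt_iter [MeasurableSpace M] (g : RMetric n M) (F : Finset M) (χ : M → M → ℝ)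
    (hP : ∀ x ∈ F, ∀ v : ℕ → M → E n → X n, (∀ m, v m ∈ TForm n M) →
      (∀ m, ip g (v m) (v m) ≤ 1) →
      (∀ m, ip g (dT (v m) + deT g (v m)) (dT (v m) + deT g (v m)) ≤ 1) →
      ∃ φ : ℕ → ℕ, StrictMono φ ∧ ∀ ε > 0, ∃ N, ∀ a ≥ N, ∀ b ≥ N,
        ∫ y, ‖mulT (χ x) (v (φ a)) x y - mulT (χ x) (v (φ b)) x y‖ ^ 2 < ε)
    (v : ℕ → M → E n → X n) (hv : ∀ m, v m ∈ TForm n M) (h1 : ∀ m, ip g (v m) (v m) ≤ 1)
    (h2 : ∀ m, ip g (dT (v m) + deT g (v m)) (dT (v m) + deT g (v m)) ≤ 1) :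
    ∃ φ : ℕ → ℕ, StrictMono φ ∧ ∀ x ∈ F, ∀ ε > 0, ∃ N, ∀ a ≥ N, ∀ b ≥ N,
        ∫ y, ‖mulT (χ x) (v (φ a)) x y - mulT (χ x) (v (φ b)) x y‖ ^ 2 < ε := by
  classical
  induction F using Finset.induction_on with
  | empty => exact ⟨id, strictMono_id, by simp⟩
  | insert x F hx ih =>
    obtain ⟨φ, hφ, hc⟩ := ih (fun x' hx' => hP x' (Finset.mem_insert_of_mem hx'))
    obtain ⟨ψ, hψ, hd⟩ := hP x (Finset.mem_insert_self _ _) (fun m => v (φ m))
      (fun m => hv _) (fun m => h1 _) (fun m => h2 _)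
    refine ⟨φ ∘ ψ, hφ.comp hψ, fun x' hx' ε hε => ?_⟩
    rcases Finset.mem_insert.1 hx' with rfl | hx''
    · exact hd ε hε
    · obtain ⟨N, hN⟩ := hc x' hx'' ε hε
      exact ⟨N, fun a ha b hb => hN _ (ha.trans (hψ.le_apply)) _ (hb.trans (hψ.le_apply))⟩

theorem cpt_sum_bound [IsManifold (𝓡 n) ∞ M] [CompactSpace M] [T2Space M] [MeasurableSpace M]
    [BorelSpace M] (g : RMetric n M) (F : Finset M) (χ : M → M → ℝ)
    (hχ : ∀ x ∈ F, IsSm n M (χ x)) (hsum : ∀ p, ∑ x ∈ F, χ x p = 1)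
    {s : M → E n → X n} (hs : s ∈ TForm n M) :
    ip g s s ≤ F.card * ∑ x ∈ F, ip g (mulT (χ x) s) (mulT (χ x) s) := by
  have : IsFiniteMeasure (vol g) := (exists_vol g).1
  have hint : ∀ {t : M → E n → X n}, t ∈ TForm n M →
      Integrable (fun p => ⟪val g t p, val g t p⟫_ℝ) (vol g) := fun ht =>
    (cont_ip g ht ht).integrable_of_hasCompactSupport (HasCompactSupport.of_compactSpace _)
  have e1 : ∑ x ∈ F, ip g (mulT (χ x) s) (mulT (χ x) s) =
      ∫ p, ∑ x ∈ F, ⟪val g (mulT (χ x) s) p, val g (mulT (χ x) s) p⟫_ℝ ∂(vol g) := by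
    rw [integral_finsetSum]
    · rfl
    · exact fun x hx => hint (mulT_mem (hχ x hx) hs)
  rw [e1, ← integral_const_mul]
  refine integral_mono (hint hs) ?_ fun p => ?_
  · exact (integrable_finsetSum _ fun x hx => hint (mulT_mem (hχ x hx) hs)).const_mul _
  · simp only [val_mulT, real_inner_smul_left, real_inner_smul_right]
    have e2 : (∑ x ∈ F, χ x p) ^ 2 ≤ F.card * ∑ x ∈ F, χ x p ^ 2 :=
      sq_sum_le_card_mul_sum_sq
    rw [hsum p] at e2
    have e3 : ∑ x ∈ F, χ x p * (χ x p * ⟪val g s p, val g s p⟫_ℝ) =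
        (∑ x ∈ F, χ x p ^ 2) * ⟪val g s p, val g s p⟫_ℝ := by
      rw [Finset.sum_mul]
      exact Finset.sum_congr rfl fun x _ => by ring
    rw [e3, ← mul_assoc]
    have e4 : (0 : ℝ) ≤ ⟪val g s p, val g s p⟫_ℝ := real_inner_self_nonneg
    nlinarith

theorem cpt_global [IsManifold (𝓡 n) ∞ M] [CompactSpace M] [T2Space M] [MeasurableSpace M]
    [BorelSpace M] (g : RMetric n M) (v : ℕ → M → E n → X n) (hv : ∀ m, v m ∈ TForm n M)
    (h1 : ∀ m, ip g (v m) (v m) ≤ 1)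
    (h2 : ∀ m, ip g (dT (v m) + deT g (v m)) (dT (v m) + deT g (v m)) ≤ 1) :
    ∃ φ : ℕ → ℕ, StrictMono φ ∧ ∀ ε > 0, ∃ N, ∀ a ≥ N, ∀ b ≥ N,
      ip g (v (φ a) - v (φ b)) (v (φ a) - v (φ b)) < ε := by
  classical
  choose O hO1 hO2 hO3 hO4 using fun x : M => cpt_chart g x
  obtain ⟨F, χ, hχ, hsup, hχ0, hsum⟩ := exists_pu (n := n) O (fun x => ⟨hO1 x, hO2 x⟩)
  have hχ1 : ∀ x ∈ F, ∀ p, χ x p ≤ 1 := by
    intro x hx p
    rw [← hsum p]
    exact Finset.single_le_sum (f := fun x => χ x p) (fun x' hx' => hχ0 x' hx' p) hx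
  obtain ⟨φ, hφ, hc⟩ := cpt_iter g F χ (fun x hx v hv h1 h2 =>
    hO4 x (χ x) (hχ x hx) (hsup x hx) (hχ0 x hx) (hχ1 x hx) v hv h1 h2) v hv h1 h2
  have hKc : ∀ x ∈ F, IsCompact ((chartAt (E n) x) '' (tsupport (χ x))) := fun x hx =>
    (isClosed_tsupport _).isCompact.image_of_continuousOn
      ((chartAt (E n) x).continuousOn.mono ((hsup x hx).trans (hO3 x)))
  have hKU : ∀ x ∈ F, (chartAt (E n) x) '' (tsupport (χ x)) ⊆ tgt n M x := by
    rintro x hx _ ⟨p, hp, rfl⟩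
    exact (chartAt (E n) x).map_source (hO3 x (hsup x hx hp))
  have hC : ∀ x : M, ∃ C : ℝ, 0 ≤ C ∧ (x ∈ F → ∀ w : E n → X n, ContDiff ℝ ∞ w →
      tsupport w ⊆ (chartAt (E n) x) '' (tsupport (χ x)) →
      ip g (extT x w) (extT x w) ≤ C * ∫ y, ‖w y‖ ^ 2) := by
    intro x
    by_cases hx : x ∈ F
    · obtain ⟨C, h0, h⟩ := ip_ext_bound g x (hKc x hx) (hKU x hx)
      exact ⟨C, h0, fun _ => h⟩
    · exact ⟨0, le_rfl, fun h => absurd h hx⟩
  choose C hC0 hCb using hC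
  refine ⟨φ, hφ, fun ε hε => ?_⟩
  set S : ℝ := F.card * ∑ x ∈ F, C x with hS
  have hS0 : 0 ≤ S := mul_nonneg (Nat.cast_nonneg _) (Finset.sum_nonneg fun x _ => hC0 x)
  have hε' : 0 < ε / (1 + S) := div_pos hε (by linarith)
  have hN : ∀ x : M, ∃ N : ℕ, x ∈ F → ∀ a ≥ N, ∀ b ≥ N,
      ∫ y, ‖mulT (χ x) (v (φ a)) x y - mulT (χ x) (v (φ b)) x y‖ ^ 2 < ε / (1 + S) := by
    intro x
    by_cases hx : x ∈ F
    · obtain ⟨N, h⟩ := hc x hx _ hε'
      exact ⟨N, fun _ => h⟩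
    · exact ⟨0, fun h => absurd h hx⟩
  choose N hNb using hN
  refine ⟨F.sup N, fun a ha b hb => ?_⟩
  have hs : v (φ a) - v (φ b) ∈ TForm n M := (TForm n M).sub_mem (hv _) (hv _)
  have e1 := cpt_sum_bound g F χ hχ hsum hs
  have e2 : ∀ x ∈ F, ip g (mulT (χ x) (v (φ a) - v (φ b))) (mulT (χ x) (v (φ a) - v (φ b))) ≤
      C x * (ε / (1 + S)) := by
    intro x hx
    obtain ⟨f1, f2, f3, f4⟩ := mulT_eq_ext x (hχ x hx) ((hsup x hx).trans (hO3 x)) hs
    rw [f4]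
    refine (hCb x hx _ f1 f3).trans (mul_le_mul_of_nonneg_left ?_ (hC0 x))
    have f5 := hNb x hx a ((Finset.le_sup hx).trans ha) b ((Finset.le_sup hx).trans hb)
    refine le_of_eq_of_le ?_ f5.le
    refine integral_congr_ae (ae_of_all _ fun y => ?_)
    have : mulT (χ x) (v (φ a) - v (φ b)) x y =
        mulT (χ x) (v (φ a)) x y - mulT (χ x) (v (φ b)) x y := by
      simp only [mulT, Pi.sub_apply, smul_sub]
    simp only [this]
  calc ip g (v (φ a) - v (φ b)) (v (φ a) - v (φ b))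
      ≤ F.card * ∑ x ∈ F, C x * (ε / (1 + S)) :=
        e1.trans (mul_le_mul_of_nonneg_left (Finset.sum_le_sum e2) (Nat.cast_nonneg _))
    _ = S * (ε / (1 + S)) := by rw [← Finset.sum_mul, hS]; ring
    _ < ε := by
        rw [mul_div_assoc', div_lt_iff₀ (by linarith)]
        nlinarith

end ANCO
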