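import Pool.Agent.Helper39.Anco.Geo
import Pool.Agent.Helper39.Anco.AbsDefs

open scoped ContDiff Topology InnerProductSpace
open Set MeasureTheory

set_option maxSynthPendingDepth 3

noncomputable section
namespace ANCO

/-- Everything the main argument uses about a closed Riemannian manifold with curvature operator
`≥ -κ` (up to constants) and Poincaré constant `c`. -/
structure Pkg (n : ℕ) (κ c : ℝ) where
  M : Type
  [topM : TopologicalSpace M]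
  [compM : CompactSpace M]
  [mM : MeasurableSpace M]
  [bM : BorelSpace M]
  μ : Measure M
  [prob : IsProbabilityMeasure μ]
  V : Type
  [acgV : AddCommGroup V]
  [modV : Module ℝ V]
  C : GrCplx V n
  val : V →ₗ[ℝ] (M → X n)
  nab : V →ₗ[ℝ] (M → Fin n → X n)
  B_eq : ∀ s t, C.B s t = ∫ x, ⟪val s x, val t x⟫_ℝ ∂μ
  cont_ip : ∀ s t, Continuous fun x => ⟪val s x, val t x⟫_ℝ
  cont_nab : ∀ s t, Continuous fun x => ∑ i, ⟪nab s x i, nab t x i⟫_ℝ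
  val_inj : Function.Injective val
  val_pr : ∀ p s x, val (C.pr p s) x = prj p (val s x)
  val_d : ∀ s x, val (C.d s) x = ∑ i, eps i (nab s x i)
  val_de : ∀ s x, val (C.de s) x = -∑ i, iota i (nab s x i)
  weitz : ∀ s, ∫ x, ∑ i, ‖nab s x i‖ ^ 2 ∂μ ≤ C.B (C.d s) (C.d s) + C.B (C.de s) (C.de s) +
    κ * C.B s s
  gp : ∀ Ψ : X n × X n → X n, ContDiff ℝ ∞ Ψ →
    (∀ k, IsOrth k → ∀ x y, Ψ (rho k x, rho k y) = rho k (Ψ (x, y))) →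
    ∀ s t, ∃ u, (∀ x, val u x = Ψ (val s x, val t x)) ∧
      ∀ x i, nab u x i = fderiv ℝ Ψ (val s x, val t x) (nab s x i, nab t x i)
  poinc : ∀ f, C.pr 0 f = f → c * ∫ x, (val f x ∅ - ∫ x, val f x ∅ ∂μ) ^ 2 ∂μ ≤
    ∫ x, ∑ i, ‖nab f x i‖ ^ 2 ∂μ
  eig_fin : ∀ Λ, FiniteDimensional ℝ (Eig C.D Λ)
  eig_gap : ∀ Λ v, (∀ e ∈ Eig C.D Λ, C.B v e = 0) → Λ * C.B v v ≤ C.B (C.D v) (C.D v)
  eig_le : ∀ Λ, ∀ v ∈ Eig C.D Λ, C.B (C.D v) (C.D v) ≤ Λ * C.B v v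
  eig_solve : ∀ v, (∀ e ∈ Eig C.D 0, C.B v e = 0) → ∃ w, C.D (C.D w) = v

attribute [instance] Pkg.topM Pkg.compM Pkg.mM Pkg.bM Pkg.prob Pkg.acgV Pkg.modV

variable {n : ℕ} {κ c : ℝ}

/-- `L²` energy -/
def Pkg.Q (P : Pkg n κ c) (s : P.V) : ℝ := ∫ x, ∑ i, ‖P.nab s x i‖ ^ 2 ∂P.μ

/-- smooth truncation on `X n` -/
def psi (x : X n) : X n := (2 / (1 + ‖x‖ ^ 2)) • x

end ANCO
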