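import Pool.Agent.Helper39.Anco.LDefs

/-!
# Common tools for the local analysis modules (test functions, local `L²`, weak derivatives)
-/

open scoped ContDiff Topology Manifold InnerProductSpace
open Set MeasureTheory Filter

set_option maxSynthPendingDepth 3

noncomputable section
namespace ANCO

variable {n : ℕ} {ι ι' : Type} [Fintype ι] [Fintype ι']

theorem lt_integrable_inner_K {K : Set (E n)} (hK : IsCompact K) {k ψ : E n → Wd ι}
    (hk : MemLp k 2 (volume.restrict K)) (hψ : Continuous ψ) (hs : ∀ y ∉ K, ψ y = 0) :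
    Integrable (fun y => ⟪k y, ψ y⟫_ℝ) := by
  have hsub : Function.support (fun y => ⟪k y, ψ y⟫_ℝ) ⊆ K := by
    intro y hy
    by_contra hyK
    exact hy (by simp [hs y hyK])
  rw [← integrableOn_iff_integrable_of_support_subset hsub]
  obtain ⟨C, hC⟩ := hK.exists_bound_of_continuousOn hψ.continuousOn
  have : IsFiniteMeasure (volume.restrict K) := ⟨by simpa using hK.measure_lt_top⟩
  have hki : Integrable k (volume.restrict K) := hk.integrable (by norm_num)
  have h1 : Integrable (fun y => C * ‖k y‖) (volume.restrict K) := hki.norm.const_mul C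
  refine Integrable.mono' h1 (hki.aestronglyMeasurable.inner hψ.aestronglyMeasurable) ?_
  filter_upwards [ae_restrict_mem hK.measurableSet] with y hy
  calc ‖⟪k y, ψ y⟫_ℝ‖ ≤ ‖k y‖ * ‖ψ y‖ := norm_inner_le_norm _ _
    _ ≤ ‖k y‖ * C := by gcongr; exact hC y hy
    _ = C * ‖k y‖ := mul_comm _ _

theorem lt_integrable_inner {U : Set (E n)} {k ψ : E n → Wd ι} (hk : LocL2 U k)
    (hψ : Test U ψ) : Integrable (fun y => ⟪k y, ψ y⟫_ℝ) :=
  lt_integrable_inner_K hψ.2.1 (hk _ hψ.2.2 hψ.2.1) hψ.1.continuous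
    (fun _ hy => image_eq_zero_of_notMem_tsupport hy)

/-- general multiplication lemma: smooth on `U` times smooth with support in `U`. -/
theorem lt_smooth_clm {F G : Type*} [NormedAddCommGroup F] [NormedSpace ℝ F]
    [NormedAddCommGroup G] [NormedSpace ℝ G] {U : Set (E n)} (hU : IsOpen U)
    {L : E n → (F →L[ℝ] G)} (hL : ContDiffOn ℝ ∞ L U) {ψ : E n → F} (hψ : ContDiff ℝ ∞ ψ)
    (hs : tsupport ψ ⊆ U) : ContDiff ℝ ∞ (fun y => L y (ψ y)) := by
  rw [contDiff_iff_contDiffAt]
  intro y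
  by_cases hy : y ∈ U
  · exact (hL.contDiffAt (hU.mem_nhds hy)).clm_apply hψ.contDiffAt
  · have hy' : y ∉ tsupport ψ := fun h => hy (hs h)
    have h0 : (fun y => L y (ψ y)) =ᶠ[𝓝 y] fun _ => 0 := by
      filter_upwards [notMem_tsupport_iff_eventuallyEq.mp hy'] with z hz
      simp [hz]
    exact contDiffAt_const.congr_of_eventuallyEq h0

theorem lt_tsupport_clm {F G : Type*} [NormedAddCommGroup F] [NormedSpace ℝ F]
    [NormedAddCommGroup G] [NormedSpace ℝ G]
    {L : E n → (F →L[ℝ] G)} {ψ : E n → F} : tsupport (fun y => L y (ψ y)) ⊆ tsupport ψ := by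
  apply closure_mono
  intro y hy hz
  exact hy (by simp [hz])

theorem lt_test_mul {U : Set (E n)} (hU : IsOpen U) {L : E n → (Wd ι →L[ℝ] Wd ι')}
    (hL : ContDiffOn ℝ ∞ L U) {ψ : E n → Wd ι} (hψ : Test U ψ) :
    Test U (fun y => L y (ψ y)) := by
  refine ⟨lt_smooth_clm hU hL hψ.1 hψ.2.2, ?_, lt_tsupport_clm.trans hψ.2.2⟩
  exact hψ.2.1.of_isClosed_subset (isClosed_tsupport _) lt_tsupport_clm

theorem lt_test_clm {U : Set (E n)} (P : Wd ι →L[ℝ] Wd ι') {ψ : E n → Wd ι} (hψ : Test U ψ) :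
    Test U (fun y => P (ψ y)) := by
  refine ⟨P.contDiff.comp hψ.1, ?_, (lt_tsupport_clm (L := fun _ => P)).trans hψ.2.2⟩
  exact hψ.2.1.of_isClosed_subset (isClosed_tsupport _) (lt_tsupport_clm (L := fun _ => P))

theorem lt_test_fderiv {U : Set (E n)} {ψ : E n → Wd ι} (hψ : Test U ψ) (v : E n) :
    Test U (fun y => fderiv ℝ ψ y v) := by
  have hsub : tsupport (fun y => fderiv ℝ ψ y v) ⊆ tsupport ψ := by
    refine Subset.trans ?_ (tsupport_fderiv_subset ℝ (f := ψ))
    apply closure_mono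
    intro y hy hz
    exact hy (by simp [hz])
  refine ⟨?_, hψ.2.1.of_isClosed_subset (isClosed_tsupport _) hsub, hsub.trans hψ.2.2⟩
  exact (hψ.1.fderiv_right (m := ∞) (by simp)).clm_apply contDiff_const

theorem lt_test_add {U : Set (E n)} {ψ φ : E n → Wd ι} (hψ : Test U ψ) (hφ : Test U φ) :
    Test U (fun y => ψ y + φ y) := by
  have hsub : tsupport (fun y => ψ y + φ y) ⊆ tsupport ψ ∪ tsupport φ := tsupport_add ψ φ
  refine ⟨hψ.1.add hφ.1, ?_, hsub.trans (union_subset hψ.2.2 hφ.2.2)⟩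
  exact (hψ.2.1.union hφ.2.1).of_isClosed_subset (isClosed_tsupport _) hsub

theorem lt_test_zero {U : Set (E n)} : Test U (fun _ => (0 : Wd ι)) := by
  have h : tsupport (fun _ : E n => (0 : Wd ι)) = ∅ := by
    rw [tsupport_eq_empty_iff]; rfl
  refine ⟨contDiff_const, ?_, by rw [h]; exact empty_subset _⟩
  rw [HasCompactSupport, h]; exact isCompact_empty

theorem lt_test_sum {U : Set (E n)} {σ : Type*} (s : Finset σ) {ψ : σ → E n → Wd ι}
    (hψ : ∀ a ∈ s, Test U (ψ a)) : Test U (fun y => ∑ a ∈ s, ψ a y) := by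
  classical
  induction s using Finset.induction_on with
  | empty => simpa using lt_test_zero
  | insert a s ha ih =>
    have h1 := lt_test_add (hψ a (Finset.mem_insert_self _ _))
      (ih (fun b hb => hψ b (Finset.mem_insert_of_mem hb)))
    simpa [Finset.sum_insert ha] using h1

theorem lt_test_const_smul {U : Set (E n)} (c : ℝ) {ψ : E n → Wd ι} (hψ : Test U ψ) :
    Test U (fun y => c • ψ y) :=
  lt_test_clm (c • ContinuousLinearMap.id ℝ (Wd ι)) hψ

theorem lt_test_neg {U : Set (E n)} {ψ : E n → Wd ι} (hψ : Test U ψ) :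
    Test U (fun y => -ψ y) := by
  simpa using lt_test_const_smul (-1) hψ

theorem lt_test_mono {U V : Set (E n)} (h : U ⊆ V) {ψ : E n → Wd ι} (hψ : Test U ψ) :
    Test V ψ := ⟨hψ.1, hψ.2.1, hψ.2.2.trans h⟩

/-- scalar cutoff times a smooth function on `U` -/
theorem lt_test_cutoff {U : Set (E n)} (hU : IsOpen U) {χ : E n → ℝ} (hχ : ContDiff ℝ ∞ χ)
    (hc : HasCompactSupport χ) (hs : tsupport χ ⊆ U) {f : E n → Wd ι}
    (hf : ContDiffOn ℝ ∞ f U) : Test U (fun y => χ y • f y) := by
  have hL : ContDiffOn ℝ ∞ (fun y => (ContinuousLinearMap.lsmul ℝ ℝ :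
      ℝ →L[ℝ] Wd ι →L[ℝ] Wd ι).flip (f y)) U :=
    (ContinuousLinearMap.contDiff _).comp_contDiffOn hf
  have h1 := lt_smooth_clm hU hL hχ hs
  have h2 := lt_tsupport_clm (L := fun y => (ContinuousLinearMap.lsmul ℝ ℝ :
      ℝ →L[ℝ] Wd ι →L[ℝ] Wd ι).flip (f y)) (ψ := χ)
  exact ⟨h1, hc.of_isClosed_subset (isClosed_tsupport _) h2, h2.trans hs⟩

theorem lt_locL2_mono {U V : Set (E n)} (h : U ⊆ V) {k : E n → Wd ι} (hk : LocL2 V k) :
    LocL2 U k := fun K hK hc => hk K (hK.trans h) hc

theorem lt_locL2_of_continuousOn {U : Set (E n)} {f : E n → Wd ι} (hf : ContinuousOn f U) :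
    LocL2 U f := by
  intro K hKU hK
  obtain ⟨C, hC⟩ := hK.exists_bound_of_continuousOn (hf.mono hKU)
  have : IsFiniteMeasure (volume.restrict K) := ⟨by simpa using hK.measure_lt_top⟩
  refine MemLp.of_bound ((hf.mono hKU).aestronglyMeasurable hK.measurableSet) C ?_
  filter_upwards [ae_restrict_mem hK.measurableSet] with y hy
  exact hC y hy

theorem lt_locL2_mul {U : Set (E n)} {L : E n → (Wd ι →L[ℝ] Wd ι')} (hL : ContinuousOn L U)
    {k : E n → Wd ι} (hk : LocL2 U k) : LocL2 U (fun y => L y (k y)) := by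
  intro K hKU hK
  obtain ⟨C, hC⟩ := hK.exists_bound_of_continuousOn (hL.mono hKU)
  have hm : AEStronglyMeasurable (fun y => L y (k y)) (volume.restrict K) := by
    have h1 := (hL.mono hKU).aestronglyMeasurable hK.measurableSet (μ := volume)
    have h2 := (hk K hKU hK).1
    exact (ContinuousLinearMap.id ℝ (Wd ι →L[ℝ] Wd ι')).aestronglyMeasurable_comp₂ h1 h2
  refine (hk K hKU hK).of_le_mul hm (c := C) ?_
  filter_upwards [ae_restrict_mem hK.measurableSet] with y hy
  exact (L y).le_of_opNorm_le (hC y hy) _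

theorem lt_locL2_clm {U : Set (E n)} (P : Wd ι →L[ℝ] Wd ι') {k : E n → Wd ι}
    (hk : LocL2 U k) : LocL2 U (fun y => P (k y)) := lt_locL2_mul continuousOn_const hk

theorem lt_locL2_add {U : Set (E n)} {k l : E n → Wd ι} (hk : LocL2 U k) (hl : LocL2 U l) :
    LocL2 U (fun y => k y + l y) := fun K hK hc => (hk K hK hc).add (hl K hK hc)

theorem lt_locL2_zero {U : Set (E n)} : LocL2 U (fun _ => (0 : Wd ι)) :=
  lt_locL2_of_continuousOn continuousOn_const

theorem lt_locL2_sum {U : Set (E n)} {σ : Type*} (s : Finset σ) {k : σ → E n → Wd ι}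
    (hk : ∀ a ∈ s, LocL2 U (k a)) : LocL2 U (fun y => ∑ a ∈ s, k a y) := by
  classical
  induction s using Finset.induction_on with
  | empty => simpa using lt_locL2_zero
  | insert a s ha ih =>
    have h1 := lt_locL2_add (hk a (Finset.mem_insert_self _ _))
      (ih (fun b hb => hk b (Finset.mem_insert_of_mem hb)))
    simpa [Finset.sum_insert ha] using h1

/-- integration by parts: a smooth function on `U` has its classical derivative as weak one -/
theorem lt_wder_smooth {U : Set (E n)} (hU : IsOpen U) {f : E n → Wd ι}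
    (hf : ContDiffOn ℝ ∞ f U) (j : Fin n) : WDer U j f (fun y => fderiv ℝ f y (e j)) := by
  intro ψ hψ
  have hd : ContDiffOn ℝ ∞ (fun y => fderiv ℝ f y (e j)) U := by
    have := hf.fderiv_of_isOpen hU (m := ∞) (by simp)
    exact this.clm_apply contDiffOn_const
  have h1 := integral_bilinear_fderiv_right_eq_neg_left_of_integrable (μ := volume)
    (f := f) (g := ψ) (v := e j) (B := innerSL ℝ)
    (lt_integrable_inner (lt_locL2_of_continuousOn hd.continuousOn) hψ)
    (lt_integrable_inner (lt_locL2_of_continuousOn hf.continuousOn) (lt_test_fderiv hψ (e j)))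
    (lt_integrable_inner (lt_locL2_of_continuousOn hf.continuousOn) hψ)
    (fun x hx => (hf.contDiffAt (hU.mem_nhds (hψ.2.2 hx))).differentiableAt (by simp))
    (fun x _ => hψ.1.contDiffAt.differentiableAt (by simp))
  exact h1

theorem lt_wder_clm {U : Set (E n)} (P : Wd ι →L[ℝ] Wd ι') {j : Fin n} {k k' : E n → Wd ι}
    (h : WDer U j k k') : WDer U j (fun y => P (k y)) (fun y => P (k' y)) := by
  intro ψ hψ
  have h1 := h _ (lt_test_clm (ContinuousLinearMap.adjoint P) hψ)
  have h2 : ∀ y, fderiv ℝ (fun y => (ContinuousLinearMap.adjoint P) (ψ y)) y (e j) =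
      (ContinuousLinearMap.adjoint P) (fderiv ℝ ψ y (e j)) := by
    intro y
    have := ((ContinuousLinearMap.adjoint P).hasFDerivAt.comp y
      (hψ.1.contDiffAt.differentiableAt (by simp) :
        DifferentiableAt ℝ ψ y).hasFDerivAt).fderiv
    have h3 : (fun y => (ContinuousLinearMap.adjoint P) (ψ y)) =
      (ContinuousLinearMap.adjoint P) ∘ ψ := rfl
    rw [h3, this]; rfl
  simp only [h2, ContinuousLinearMap.adjoint_inner_right] at h1
  exact h1

theorem lt_hloc_locL2 {U : Set (E n)} {m : ℕ} {k : E n → Wd ι} (h : HLoc U m k) :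
    LocL2 U k := by
  cases m with
  | zero => exact h
  | succ m => exact h.1

theorem lt_hloc_clm {U : Set (E n)} (P : Wd ι →L[ℝ] Wd ι') {m : ℕ} {k : E n → Wd ι}
    (h : HLoc U m k) : HLoc U m (fun y => P (k y)) := by
  induction m generalizing k with
  | zero => exact lt_locL2_clm P h
  | succ m ih =>
    refine ⟨lt_locL2_clm P h.1, fun j => ?_⟩
    obtain ⟨k', hk', hm⟩ := h.2 j
    exact ⟨_, lt_wder_clm P hk', ih hm⟩

end ANCO
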