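import Mathlib

/-!
# REG, part A: limits in `L²`
-/

open scoped Topology InnerProductSpace
open Set MeasureTheory Filter

noncomputable section
namespace ANCO

variable {α : Type*} [MeasurableSpace α] {W : Type*} [NormedAddCommGroup W]
  [InnerProductSpace ℝ W] {μ : Measure α}

theorem reg_norm_sq (f : Lp W 2 μ) : ‖f‖ ^ 2 = ∫ y, ‖f y‖ ^ 2 ∂μ := by
  rw [← real_inner_self_eq_norm_sq, L2.inner_def]
  simp only [real_inner_self_eq_norm_sq]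

theorem reg_toLp_sub {f g : α → W} (hf : MemLp f 2 μ) (hg : MemLp g 2 μ) :
    ‖hf.toLp f - hg.toLp g‖ ^ 2 = ∫ y, ‖f y - g y‖ ^ 2 ∂μ := by
  rw [← MemLp.toLp_sub, reg_norm_sq]
  refine integral_congr_ae ?_
  filter_upwards [MemLp.coeFn_toLp (hf.sub hg)] with y hy
  rw [hy]
  rfl

theorem reg_inner {f g : α → W} (hf : MemLp f 2 μ) (hg : MemLp g 2 μ) :
    ⟪hf.toLp f, hg.toLp g⟫_ℝ = ∫ y, ⟪f y, g y⟫_ℝ ∂μ := by
  rw [L2.inner_def]
  refine integral_congr_ae ?_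
  filter_upwards [hf.coeFn_toLp, hg.coeFn_toLp] with y hy hy'
  rw [hy, hy']

theorem reg_l2_lim [CompleteSpace W] (u : ℕ → α → W) (hu : ∀ m, MemLp (u m) 2 μ)
    (hc : ∀ ε > 0, ∃ N, ∀ a ≥ N, ∀ b ≥ N, ∫ y, ‖u a y - u b y‖ ^ 2 ∂μ < ε) :
    ∃ H : α → W, MemLp H 2 μ ∧ Tendsto (fun m => ∫ y, ‖u m y - H y‖ ^ 2 ∂μ) atTop (𝓝 0) := by
  have hC : CauchySeq (fun m => (hu m).toLp (u m)) := by
    rw [Metric.cauchySeq_iff]
    intro ε hε
    obtain ⟨N, hN⟩ := hc (ε ^ 2) (by positivity)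
    refine ⟨N, fun a ha b hb => ?_⟩
    rw [dist_eq_norm]
    have h1 := hN a ha b hb
    rw [← reg_toLp_sub (hu a) (hu b)] at h1
    exact lt_of_pow_lt_pow_left₀ 2 hε.le h1
  obtain ⟨L, hL⟩ := cauchySeq_tendsto_of_complete hC
  refine ⟨L, Lp.memLp L, ?_⟩
  have h2 : Tendsto (fun m => ‖(hu m).toLp (u m) - L‖ ^ 2) atTop (𝓝 0) := by
    have := (tendsto_iff_norm_sub_tendsto_zero.1 hL).pow 2
    simpa using this
  refine h2.congr fun m => ?_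
  have h3 : L = (Lp.memLp L).toLp L := (Lp.toLp_coeFn L (Lp.memLp L)).symm
  conv_lhs => rw [h3]
  exact reg_toLp_sub (hu m) (Lp.memLp L)

theorem reg_l2_inner {u : ℕ → α → W} (hu : ∀ m, MemLp (u m) 2 μ) {H : α → W}
    (hH : MemLp H 2 μ) (hl : Tendsto (fun m => ∫ y, ‖u m y - H y‖ ^ 2 ∂μ) atTop (𝓝 0))
    {θ : α → W} (hθ : MemLp θ 2 μ) :
    Tendsto (fun m => ∫ y, ⟪u m y, θ y⟫_ℝ ∂μ) atTop (𝓝 (∫ y, ⟪H y, θ y⟫_ℝ ∂μ)) := by
  have h1 : Tendsto (fun m => (hu m).toLp (u m)) atTop (𝓝 (hH.toLp H)) := by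
    rw [tendsto_iff_norm_sub_tendsto_zero]
    have h2 : Tendsto (fun m => Real.sqrt (‖(hu m).toLp (u m) - hH.toLp H‖ ^ 2)) atTop
        (𝓝 (Real.sqrt 0)) := by
      refine (Real.continuous_sqrt.tendsto 0).comp ?_
      refine hl.congr fun m => (reg_toLp_sub (hu m) hH).symm
    rw [Real.sqrt_zero] at h2
    refine h2.congr fun m => ?_
    rw [Real.sqrt_sq (norm_nonneg _)]
  have h3 := h1.inner (tendsto_const_nhds (x := hθ.toLp θ)) (𝕜 := ℝ)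
  simpa only [reg_inner] using h3

end ANCO
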