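import Pool.Agent.Helper39.Anco.Loc
import Pool.Agent.Helper39.Anco.Loc2
import Pool.Agent.Helper39.Anco.LTools
import Pool.Agent.Helper39.Anco.RegA

/-!
# REG, part B: regularity of the limits in a chart
-/

open scoped ContDiff Topology Manifold InnerProductSpace
open Set MeasureTheory Filter

set_option maxSynthPendingDepth 3

noncomputable section
namespace ANCO

variable {n : ℕ} {M : Type} [TopologicalSpace M] [ChartedSpace (E n) M]

theorem reg_memLp {K U : Set (E n)} (hK : IsCompact K) (hKU : K ⊆ U) {f : E n → X n}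
    (hf : ContinuousOn f U) : MemLp f 2 (volume.restrict K) :=
  lt_locL2_of_continuousOn hf K hKU hK

/-- the `L²` limit of a Cauchy sequence of total forms on a compact subset of a chart -/
theorem reg_limit [IsManifold (𝓡 n) ∞ M] [CompactSpace M] [T2Space M] [MeasurableSpace M]
    [BorelSpace M] (g : RMetric n M) (h : ℕ → M → E n → X n) (hh : ∀ m, h m ∈ TForm n M)
    (ch : ∀ ε > 0, ∃ N, ∀ a ≥ N, ∀ b ≥ N, ip g (h a - h b) (h a - h b) < ε)
    (x : M) {K : Set (E n)} (hK : IsCompact K) (hKU : K ⊆ tgt n M x) :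
    ∃ H : E n → X n, MemLp H 2 (volume.restrict K) ∧
      Tendsto (fun m => ∫ y in K, ‖h m x y - H y‖ ^ 2) atTop (𝓝 0) := by
  obtain ⟨C, hC0, hC⟩ := ip_local g x hK hKU
  refine reg_l2_lim (fun m => h m x) (fun m => reg_memLp hK hKU ((hh m).2.1 x).continuousOn)
    fun ε hε => ?_
  obtain ⟨N, hN⟩ := ch (ε / (C + 1)) (by positivity)
  refine ⟨N, fun a ha b hb => ?_⟩
  have h1 := hC _ ((TForm n M).sub_mem (hh a) (hh b))
  have h2 := hN a ha b hb
  have h3 : ∫ y in K, ‖h a x y - h b x y‖ ^ 2 = ∫ y in K, ‖(h a - h b) x y‖ ^ 2 := rfl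
  rw [h3]
  refine h1.trans_lt ?_
  rw [lt_div_iff₀ (by positivity)] at h2
  have h4 : 0 ≤ ip g (h a - h b) (h a - h b) := integral_nonneg fun _ => real_inner_self_nonneg
  nlinarith

theorem reg_conv (g : RMetric n M) (h : ℕ → M → E n → X n) (hh : ∀ m, h m ∈ TForm n M)
    (x : M) {K : Set (E n)} (hK : IsCompact K) (hKU : K ⊆ tgt n M x) {H : E n → X n}
    (hH : MemLp H 2 (volume.restrict K))
    (hl : Tendsto (fun m => ∫ y in K, ‖h m x y - H y‖ ^ 2) atTop (𝓝 0))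
    {θ : E n → X n} (hθ : Continuous θ) (h0 : ∀ y ∉ K, θ y = 0) :
    Tendsto (fun m => ∫ y, ⟪Mw g x y (h m x y), θ y⟫_ℝ) atTop
      (𝓝 (∫ y, ⟪Mw g x y (H y), θ y⟫_ℝ)) := by
  have e1 : ∀ F : E n → X n, ∫ y, ⟪Mw g x y (F y), θ y⟫_ℝ = ∫ y in K, ⟪F y, Mw g x y (θ y)⟫_ℝ := by
    intro F
    rw [← setIntegral_eq_integral_of_forall_compl_eq_zero (s := K)
      (f := fun y => ⟪Mw g x y (F y), θ y⟫_ℝ) fun y hy => by rw [h0 y hy, inner_zero_right]]
    exact integral_congr_ae (ae_of_all _ fun y => Mw_symm g x y _ _)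
  simp only [e1]
  refine reg_l2_inner (fun m => reg_memLp hK hKU ((hh m).2.1 x).continuousOn) hH hl ?_
  exact reg_memLp hK hKU ((Mw_smooth g x).continuousOn.clm_apply hθ.continuousOn)

/-- the weak equation in a chart -/
theorem reg_weak [IsManifold (𝓡 n) ∞ M] [CompactSpace M] [T2Space M] [MeasurableSpace M]
    [BorelSpace M] (g : RMetric n M) (h k : ℕ → M → E n → X n) (hh : ∀ m, h m ∈ TForm n M)
    (hk : ∀ m, k m ∈ TForm n M) (a b : ℝ) (f : M → E n → X n) (hf : f ∈ TForm n M)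
    (w₁ : ∀ φ ∈ TForm n M, Tendsto (fun m => ip g (h m) (dT φ + deT g φ) + a * ip g (h m) φ +
      b * ip g (k m) φ) atTop (𝓝 (ip g f φ)))
    (x : M) {K : Set (E n)} (hK : IsCompact K) (hKU : K ⊆ tgt n M x) {H₁ H₂ : E n → X n}
    (hH₁ : MemLp H₁ 2 (volume.restrict K)) (hH₂ : MemLp H₂ 2 (volume.restrict K))
    (hl₁ : Tendsto (fun m => ∫ y in K, ‖h m x y - H₁ y‖ ^ 2) atTop (𝓝 0))
    (hl₂ : Tendsto (fun m => ∫ y in K, ‖k m x y - H₂ y‖ ^ 2) atTop (𝓝 0))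
    {ψ : E n → X n} (hψ : ContDiff ℝ ∞ ψ) (hψK : tsupport ψ ⊆ K) :
    (∫ y, ⟪Mw g x y (H₁ y), ∑ j, Acoef (g.g x) j y (fderiv ℝ ψ y (e j)) +
      Bcoef (g.g x) y (ψ y)⟫_ℝ) + a * (∫ y, ⟪Mw g x y (H₁ y), ψ y⟫_ℝ) +
        b * (∫ y, ⟪Mw g x y (H₂ y), ψ y⟫_ℝ) = ∫ y, ⟪Mw g x y (f x y), ψ y⟫_ℝ := by
  have hψc : HasCompactSupport ψ := hK.of_isClosed_subset (isClosed_tsupport _) hψK
  have hψU : tsupport ψ ⊆ tgt n M x := hψK.trans hKU
  have hφ := extT_mem x hψ hψc hψU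
  obtain ⟨hD1, hD2⟩ := loc2_D_smooth g x hψ hψU
  have hDc : HasCompactSupport (fun y => ∑ j, Acoef (g.g x) j y (fderiv ℝ ψ y (e j)) +
      Bcoef (g.g x) y (ψ y)) := hψc.isCompact.of_isClosed_subset (isClosed_tsupport _) hD2
  have h1 : ∀ m, ip g (h m) (dT (extT x ψ) + deT g (extT x ψ)) =
      ∫ y, ⟪Mw g x y (h m x y), ∑ j, Acoef (g.g x) j y (fderiv ℝ ψ y (e j)) +
      Bcoef (g.g x) y (ψ y)⟫_ℝ := by
    intro m
    rw [D_ext g x hψ hψc hψU, ip_ext g x (hh m) hD1 hDc (hD2.trans hψU)]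
  have h2 : ∀ m, ip g (h m) (extT x ψ) = ∫ y, ⟪Mw g x y (h m x y), ψ y⟫_ℝ := fun m =>
    ip_ext g x (hh m) hψ hψc hψU
  have h3 : ∀ m, ip g (k m) (extT x ψ) = ∫ y, ⟪Mw g x y (k m x y), ψ y⟫_ℝ := fun m =>
    ip_ext g x (hk m) hψ hψc hψU
  have h4 := w₁ _ hφ
  simp only [h1, h2, h3] at h4
  have hD0 : ∀ y ∉ K, ∑ j, Acoef (g.g x) j y (fderiv ℝ ψ y (e j)) + Bcoef (g.g x) y (ψ y) = 0 :=
    fun y hy => image_eq_zero_of_notMem_tsupport (f := fun y =>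
      ∑ j, Acoef (g.g x) j y (fderiv ℝ ψ y (e j)) + Bcoef (g.g x) y (ψ y))
      fun hy' => hy (hψK (hD2 hy'))
  have c1 := reg_conv g h hh x hK hKU hH₁ hl₁ hD1.continuous hD0
  have c2 := reg_conv g h hh x hK hKU hH₁ hl₁ hψ.continuous (fun y hy =>
    image_eq_zero_of_notMem_tsupport fun hy' => hy (hψK hy'))
  have c3 := reg_conv g k hk x hK hKU hH₂ hl₂ hψ.continuous (fun y hy =>
    image_eq_zero_of_notMem_tsupport fun hy' => hy (hψK hy'))
  have h5 := tendsto_nhds_unique h4 ((c1.add (c2.const_mul a)).add (c3.const_mul b))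
  rw [ip_ext g x hf hψ hψc hψU] at h5
  exact h5.symm

/-- a section multiplied by a.e. equal data -/
theorem reg_solve [IsManifold (𝓡 n) ∞ M] [CompactSpace M] [T2Space M] [MeasurableSpace M]
    [BorelSpace M] (g : RMetric n M) (h : ℕ → M → E n → X n) (hh : ∀ m, h m ∈ TForm n M)
    (x : M) {K U : Set (E n)} (hK : IsCompact K) (hKU : K ⊆ tgt n M x) (hU : IsOpen U)
    (hUK : U ⊆ K) {H k' : E n → X n} (hH : MemLp H 2 (volume.restrict K))
    (hl : Tendsto (fun m => ∫ y in K, ‖h m x y - H y‖ ^ 2) atTop (𝓝 0))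
    (hk' : ContDiffOn ℝ ∞ k' U)
    (hae : ∀ᵐ y ∂(volume.restrict U), Mw g x y (H y) = k' y) :
    ∃ v : E n → X n, ContDiffOn ℝ ∞ v U ∧
      (∀ m, IntegrableOn (fun y => ‖h m x y - v y‖ ^ 2) U) ∧
      Tendsto (fun m => ∫ y in U, ‖h m x y - v y‖ ^ 2) atTop (𝓝 0) := by
  obtain ⟨N, hN, hNM⟩ := Mw_inv g x
  refine ⟨fun y => N y (k' y), (hN.mono (hUK.trans hKU)).clm_apply hk', ?_⟩
  have hae' : ∀ᵐ y ∂(volume.restrict U), N y (k' y) = H y := by
    filter_upwards [hae, ae_restrict_mem hU.measurableSet] with y hy hyU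
    rw [← hy, (hNM y (hKU (hUK hyU)) _).1]
  have h0 : ∀ m, IntegrableOn (fun y => ‖h m x y - H y‖ ^ 2) K := fun m =>
    ((reg_memLp hK hKU ((hh m).2.1 x).continuousOn).sub hH).integrable_norm_pow (by simp)
  refine ⟨fun m => ?_, ?_⟩
  · refine ((h0 m).mono_set hUK).congr ?_
    filter_upwards [hae'] with y hy
    rw [hy]
  have h1 : ∀ m, ∫ y in U, ‖h m x y - N y (k' y)‖ ^ 2 ≤ ∫ y in K, ‖h m x y - H y‖ ^ 2 := by
    intro m
    have e1 : ∫ y in U, ‖h m x y - N y (k' y)‖ ^ 2 = ∫ y in U, ‖h m x y - H y‖ ^ 2 := by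
      refine integral_congr_ae ?_
      filter_upwards [hae'] with y hy
      rw [hy]
    rw [e1]
    exact setIntegral_mono_set (h0 m) (ae_of_all _ fun y => sq_nonneg _) (ae_of_all _ hUK)
  exact squeeze_zero (fun m => integral_nonneg fun _ => sq_nonneg _) h1 hl

end ANCO
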