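import Pool.Agent.Helper39.Anco.Pair
import Pool.Agent.Helper39.Anco.Del2
import Pool.Agent.Helper39.Anco.Valch
import Pool.Agent.Helper39.Anco.Clos
import Pool.Agent.Helper39.Anco.ClosB
import Pool.Agent.Helper39.Anco.ClosC
import Pool.Agent.Helper39.Anco.Vol
import Pool.Agent.Helper39.Anco.Int
import Pool.Agent.Helper39.Anco.Pu
import Pool.Agent.Helper39.Anco.RegB

/-!
# REG: regularity of weak solutions of the Dirac type system
-/

open scoped ContDiff Topology Manifold InnerProductSpace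
open Set MeasureTheory Filter

set_option maxSynthPendingDepth 3

noncomputable section
namespace ANCO

variable {n : ℕ} {M : Type} [TopologicalSpace M] [ChartedSpace (E n) M]

theorem reg_chart [IsManifold (𝓡 n) ∞ M] [CompactSpace M] [T2Space M] [MeasurableSpace M]
    [BorelSpace M] (g : RMetric n M) (h k : ℕ → M → E n → X n) (hh : ∀ m, h m ∈ TForm n M)
    (hk : ∀ m, k m ∈ TForm n M)
    (ch : ∀ ε > 0, ∃ N, ∀ a ≥ N, ∀ b ≥ N, ip g (h a - h b) (h a - h b) < ε)
    (ck : ∀ ε > 0, ∃ N, ∀ a ≥ N, ∀ b ≥ N, ip g (k a - k b) (k a - k b) < ε)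
    (a b c d : ℝ) (f₁ f₂ : M → E n → X n) (hf₁ : f₁ ∈ TForm n M) (hf₂ : f₂ ∈ TForm n M)
    (w₁ : ∀ φ ∈ TForm n M, Tendsto (fun m => ip g (h m) (dT φ + deT g φ) + a * ip g (h m) φ +
      b * ip g (k m) φ) atTop (𝓝 (ip g f₁ φ)))
    (w₂ : ∀ φ ∈ TForm n M, Tendsto (fun m => ip g (k m) (dT φ + deT g φ) + c * ip g (h m) φ +
      d * ip g (k m) φ) atTop (𝓝 (ip g f₂ φ))) (x : M) :
    ∃ U : Set (E n), IsOpen U ∧ ctr n x ∈ U ∧ U ⊆ tgt n M x ∧ ∃ v w : E n → X n,
      (ContDiffOn ℝ ∞ v U ∧ (∀ m, IntegrableOn (fun y => ‖h m x y - v y‖ ^ 2) U) ∧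
        Tendsto (fun m => ∫ y in U, ‖h m x y - v y‖ ^ 2) atTop (𝓝 0)) ∧
      (ContDiffOn ℝ ∞ w U ∧ (∀ m, IntegrableOn (fun y => ‖k m x y - w y‖ ^ 2) U) ∧
        Tendsto (fun m => ∫ y in U, ‖k m x y - w y‖ ^ 2) atTop (𝓝 0)) := by
  have hopen : IsOpen (tgt n M x) := (chartAt (E n) x).open_target
  have hctr : ctr n x ∈ tgt n M x := mem_chart_target (E n) x
  obtain ⟨r, hr, hball⟩ := Metric.nhds_basis_closedBall.mem_iff.1 (hopen.mem_nhds hctr)
  set K : Set (E n) := Metric.closedBall (ctr n x) r with hKd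
  have hK : IsCompact K := isCompact_closedBall _ _
  set U : Set (E n) := Metric.ball (ctr n x) r with hUd
  have hU : IsOpen U := Metric.isOpen_ball
  have hUK : U ⊆ K := Metric.ball_subset_closedBall
  obtain ⟨H₁, hH₁, hl₁⟩ := reg_limit g h hh ch x hK hball
  obtain ⟨H₂, hH₂, hl₂⟩ := reg_limit g k hk ck x hK hball
  have hMwU : ContDiffOn ℝ ∞ (Mw g x) U := (Mw_smooth g x).mono (hUK.trans hball)
  have hloc : ∀ {H : E n → X n}, MemLp H 2 (volume.restrict K) → LocL2 U H := by
    intro H hH K' hK' _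
    exact hH.mono_measure (Measure.restrict_mono (hK'.trans hUK) le_rfl)
  have hsm : ∀ {f : M → E n → X n}, f ∈ TForm n M →
      ContDiffOn ℝ ∞ (fun y => Mw g x y (f x y)) U := fun hf =>
    hMwU.clm_apply ((hf.2.1 x).mono (hUK.trans hball))
  obtain ⟨k₁, k₂, hk₁, hk₂, hae₁, hae₂⟩ := local_reg_pair hU (A := Acoef (g.g x))
    (B := Bcoef (g.g x)) (k₁ := fun y => Mw g x y (H₁ y)) (k₂ := fun y => Mw g x y (H₂ y))
    (f₁ := fun y => Mw g x y (f₁ x y)) (f₂ := fun y => Mw g x y (f₂ x y))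
    (fun j => (Acoef_smooth (g.isMet x) j).mono (hUK.trans hball))
    ((Bcoef_smooth (g.isMet x)).mono (hUK.trans hball))
    (fun y hy => Acoef_symb (g.isMet x) y (hball (hUK hy))) a b c d
    (lt_locL2_mul hMwU.continuousOn (hloc hH₁)) (lt_locL2_mul hMwU.continuousOn (hloc hH₂))
    (hsm hf₁) (hsm hf₂)
    (fun ψ hψ => reg_weak g h k hh hk a b f₁ hf₁ w₁ x hK hball hH₁ hH₂ hl₁ hl₂ hψ.1
      (hψ.2.2.trans hUK))
    (fun ψ hψ => by
      have h1 := reg_weak g k h hk hh d c f₂ hf₂ (fun φ hφ => (w₂ φ hφ).congr fun m => by ring)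
        x hK hball hH₂ hH₁ hl₂ hl₁ hψ.1 (hψ.2.2.trans hUK)
      rw [← h1]
      ring)
  obtain ⟨v, hv⟩ := reg_solve g h hh x hK hball hU hUK hH₁ hl₁ hk₁ hae₁
  obtain ⟨w, hw⟩ := reg_solve g k hk x hK hball hU hUK hH₂ hl₂ hk₂ hae₂
  exact ⟨U, hU, Metric.mem_ball_self hr, hUK.trans hball, v, w, hv, hw⟩

theorem reg_val_sum (g : RMetric n M) {ι : Type*} (F : Finset ι) (s : ι → M → E n → X n) (p : M) :
    val g (∑ i ∈ F, s i) p = ∑ i ∈ F, val g (s i) p := by
  classical
  induction F using Finset.induction_on with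
  | empty =>
    simp only [Finset.sum_empty]
    have : val g (0 : M → E n → X n) p = rho (fr g p).2 0 := rfl
    rw [this, map_zero]
  | insert i F hi ih => rw [Finset.sum_insert hi, Finset.sum_insert hi, val_add, ih]

theorem reg_glue [IsManifold (𝓡 n) ∞ M] [CompactSpace M] [T2Space M] [MeasurableSpace M]
    [BorelSpace M] (g : RMetric n M) (h : ℕ → M → E n → X n) (hh : ∀ m, h m ∈ TForm n M)
    (U : M → Set (E n)) (hU : ∀ x, IsOpen (U x)) (hctr : ∀ x, ctr n x ∈ U x)
    (hUt : ∀ x, U x ⊆ tgt n M x) (v : M → E n → X n) (hv : ∀ x, ContDiffOn ℝ ∞ (v x) (U x))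
    (hi : ∀ x m, IntegrableOn (fun y => ‖h m x y - v x y‖ ^ 2) (U x))
    (hl : ∀ x, Tendsto (fun m => ∫ y in U x, ‖h m x y - v x y‖ ^ 2) atTop (𝓝 0)) :
    ∃ s ∈ TForm n M, Tendsto (fun m => ip g (h m - s) (h m - s)) atTop (𝓝 0) := by
  classical
  have : IsFiniteMeasure (vol g) := (exists_vol g).1
  obtain ⟨F, χ, hχ, hsup, hχ0, hsum⟩ := exists_pu (n := n)
    (fun x => (chartAt (E n) x).source ∩ chartAt (E n) x ⁻¹' U x)
    (fun x => ⟨(chartAt (E n) x).isOpen_inter_preimage (hU x),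
      mem_chart_source (E n) x, hctr x⟩)
  have hχ1 : ∀ x ∈ F, ∀ p, χ x p ≤ 1 := by
    intro x hx p
    rw [← hsum p]
    exact Finset.single_le_sum (f := fun x => χ x p) (fun x' hx' => hχ0 x' hx' p) hx
  have hKc : ∀ x ∈ F, IsCompact ((chartAt (E n) x) '' (tsupport (χ x))) := fun x hx =>
    (isClosed_tsupport _).isCompact.image_of_continuousOn
      ((chartAt (E n) x).continuousOn.mono ((hsup x hx).trans inter_subset_left))
  have hKU : ∀ x ∈ F, (chartAt (E n) x) '' (tsupport (χ x)) ⊆ U x := by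
    rintro x hx _ ⟨p, hp, rfl⟩
    exact (hsup x hx hp).2
  -- the local pieces
  set q : M → (E n → X n) → E n → X n := fun x u y =>
    if y ∈ U x then χ x ((chartAt (E n) x).symm y) • u y else 0 with hq
  have hq0 : ∀ x ∈ F, ∀ u : E n → X n, ∀ y ∉ (chartAt (E n) x) '' (tsupport (χ x)),
      q x u y = 0 := by
    intro x hx u y hy
    simp only [hq]
    split_ifs with hyU
    · have : χ x ((chartAt (E n) x).symm y) = 0 := by
        apply image_eq_zero_of_notMem_tsupport
        intro h'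
        exact hy ⟨_, h', (chartAt (E n) x).right_inv (hUt x hyU)⟩
      rw [this, zero_smul]
    · rfl
  have hqs : ∀ x ∈ F, ∀ u : E n → X n, ContDiffOn ℝ ∞ u (U x) → ContDiff ℝ ∞ (q x u) ∧
      tsupport (q x u) ⊆ (chartAt (E n) x) '' (tsupport (χ x)) := by
    intro x hx u hu
    constructor
    · rw [contDiff_iff_contDiffAt]
      intro y
      by_cases hy : y ∈ U x
      · have h1 : q x u =ᶠ[𝓝 y] fun y => χ x ((chartAt (E n) x).symm y) • u y := by
          filter_upwards [(hU x).mem_nhds hy] with z hz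
          simp only [hq, if_pos hz]
        refine ContDiffAt.congr_of_eventuallyEq ?_ h1
        exact ((hχ x hx x).contDiffAt ((chartAt (E n) x).open_target.mem_nhds (hUt x hy))).smul
          (hu.contDiffAt ((hU x).mem_nhds hy))
      · have h1 : ∀ᶠ z in 𝓝 y, q x u z = 0 := by
          filter_upwards [(hKc x hx).isClosed.isOpen_compl.mem_nhds
            fun h' => hy (hKU x hx h')] with z hz
          exact hq0 x hx u z hz
        exact contDiffAt_const.congr_of_eventuallyEq (h1.mono fun z hz => hz)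
    · refine closure_minimal (fun y hy => ?_) (hKc x hx).isClosed
      by_contra h'
      exact hy (hq0 x hx u y h')
  have hext : ∀ x ∈ F, ∀ u : E n → X n, ContDiffOn ℝ ∞ u (U x) → extT x (q x u) ∈ TForm n M :=
    fun x hx u hu => extT_mem x (hqs x hx u hu).1
      ((hKc x hx).of_isClosed_subset (isClosed_tsupport _) (hqs x hx u hu).2)
      (((hqs x hx u hu).2.trans (hKU x hx)).trans (hUt x))
  refine ⟨∑ x ∈ F, extT x (q x (v x)), (TForm n M).sum_mem fun x hx => hext x hx _ (hv x), ?_⟩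
  have hC : ∀ x : M, ∃ C : ℝ, 0 ≤ C ∧ (x ∈ F → ∀ w : E n → X n, ContDiff ℝ ∞ w →
      tsupport w ⊆ (chartAt (E n) x) '' (tsupport (χ x)) →
      ip g (extT x w) (extT x w) ≤ C * ∫ y, ‖w y‖ ^ 2) := by
    intro x
    by_cases hx : x ∈ F
    · obtain ⟨C, h0, h'⟩ := ip_ext_bound g x (hKc x hx) ((hKU x hx).trans (hUt x))
      exact ⟨C, h0, fun _ => h'⟩
    · exact ⟨0, le_rfl, fun h' => absurd h' hx⟩
  choose C hC0 hCb using hC
  -- decomposition of `h m - s`
  have hdec : ∀ m p, val g (h m - ∑ x ∈ F, extT x (q x (v x))) p =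
      ∑ x ∈ F, val g (extT x (q x (fun y => h m x y - v x y))) p := by
    intro m p
    have e1 : ∀ x ∈ F, val g (extT x (q x (fun y => h m x y - v x y))) p =
        χ x p • val g (h m) p - val g (extT x (q x (v x))) p := by
      intro x hx
      have e2 : extT x (q x (fun y => h m x y - v x y)) + extT x (q x (v x)) =
          mulT (χ x) (h m) := by
        obtain ⟨-, -, -, f4⟩ := mulT_eq_ext x (hχ x hx)
          ((hsup x hx).trans inter_subset_left) (hh m)
        rw [f4]
        funext x' y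
        simp only [Pi.add_apply, extT]
        split_ifs with hy
        · rw [← map_add]
          congr 1
          set z := tr n M x' x y
          by_cases hz : z ∈ U x
          · simp only [hq, if_pos hz, mulT, smul_sub, sub_add_cancel]
          · have hz0 : mulT (χ x) (h m) x z = 0 := by
              rw [mulT]
              have hzt : z ∈ tgt n M x := ((mem_tr_source).1 (tr_mem hy)).1
              have : χ x ((chartAt (E n) x).symm z) = 0 := by
                apply image_eq_zero_of_notMem_tsupport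
                intro h'
                apply hz
                have := (hsup x hx h').2
                rwa [mem_preimage, (chartAt (E n) x).right_inv hzt] at this
              rw [this, zero_smul]
            simp only [hq, if_neg hz, hz0, add_zero]
        · simp
      rw [eq_sub_iff_add_eq, ← val_add, e2, val_mulT]
    rw [Finset.sum_congr rfl e1, Finset.sum_sub_distrib, ← Finset.sum_smul, hsum p, one_smul,
      ← reg_val_sum, sub_eq_add_neg, val_add]
    have e3 : val g (-∑ x ∈ F, extT x (q x (v x))) p =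
        -val g (∑ x ∈ F, extT x (q x (v x))) p := by
      have := val_smul g (-1) (∑ x ∈ F, extT x (q x (v x))) p
      simpa using this
    rw [e3, sub_eq_add_neg]
  have hint : ∀ {t : M → E n → X n}, t ∈ TForm n M →
      Integrable (fun p => ⟪val g t p, val g t p⟫_ℝ) (vol g) := fun ht =>
    (cont_ip g ht ht).integrable_of_hasCompactSupport (HasCompactSupport.of_compactSpace _)
  have hvh : ∀ x m, ContDiffOn ℝ ∞ (fun y => h m x y - v x y) (U x) := fun x m =>
    (((hh m).2.1 x).mono (hUt x)).sub (hv x)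
  have hS : ∑ x ∈ F, extT x (q x (v x)) ∈ TForm n M :=
    (TForm n M).sum_mem fun x hx => hext x hx _ (hv x)
  have hbound : ∀ m, ip g (h m - ∑ x ∈ F, extT x (q x (v x)))
      (h m - ∑ x ∈ F, extT x (q x (v x))) ≤
      F.card * ∑ x ∈ F, C x * ∫ y in U x, ‖h m x y - v x y‖ ^ 2 := by
    intro m
    have e1 : ip g (h m - ∑ x ∈ F, extT x (q x (v x))) (h m - ∑ x ∈ F, extT x (q x (v x))) ≤
        F.card * ∑ x ∈ F, ip g (extT x (q x (fun y => h m x y - v x y)))
          (extT x (q x (fun y => h m x y - v x y))) := by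
      have e2 : ∑ x ∈ F, ip g (extT x (q x (fun y => h m x y - v x y)))
          (extT x (q x (fun y => h m x y - v x y))) =
          ∫ p, ∑ x ∈ F, ⟪val g (extT x (q x (fun y => h m x y - v x y))) p,
            val g (extT x (q x (fun y => h m x y - v x y))) p⟫_ℝ ∂(vol g) := by
        rw [integral_finsetSum]
        · rfl
        · exact fun x hx => hint (hext x hx _ (hvh x m))
      rw [e2, ← integral_const_mul]
      refine integral_mono (hint ((TForm n M).sub_mem (hh m) hS)) ?_ fun p => ?_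
      · exact (integrable_finsetSum _ fun x hx => hint (hext x hx _ (hvh x m))).const_mul _
      · simp only [real_inner_self_eq_norm_sq]
        rw [hdec m p]
        have e3 : ‖∑ x ∈ F, val g (extT x (q x (fun y => h m x y - v x y))) p‖ ^ 2 ≤
            (∑ x ∈ F, ‖val g (extT x (q x (fun y => h m x y - v x y))) p‖) ^ 2 :=
          pow_le_pow_left₀ (norm_nonneg _) (norm_sum_le _ _) 2
        exact e3.trans sq_sum_le_card_mul_sum_sq
    refine e1.trans (mul_le_mul_of_nonneg_left (Finset.sum_le_sum fun x hx => ?_)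
      (Nat.cast_nonneg _))
    obtain ⟨f1, f2⟩ := hqs x hx _ (hvh x m)
    refine (hCb x hx _ f1 f2).trans (mul_le_mul_of_nonneg_left ?_ (hC0 x))
    have e4 : ∫ y, ‖q x (fun y => h m x y - v x y) y‖ ^ 2 =
        ∫ y in (chartAt (E n) x) '' (tsupport (χ x)), ‖q x (fun y => h m x y - v x y) y‖ ^ 2 :=
      (setIntegral_eq_integral_of_forall_compl_eq_zero fun y hy => by
        have e5 := hq0 x hx (fun y => h m x y - v x y) y hy
        simp only [e5, norm_zero]
        norm_num).symm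
    rw [e4]
    refine le_trans ?_ (setIntegral_mono_set (hi x m) (ae_of_all _ fun y => sq_nonneg _)
      (ae_of_all _ (hKU x hx)))
    refine setIntegral_mono_on ?_ ((hi x m).mono_set (hKU x hx)) (hKc x hx).measurableSet
      fun y hy => ?_
    · exact (f1.continuous.norm.pow 2).continuousOn.integrableOn_compact (hKc x hx)
    · have e5 : ‖q x (fun y => h m x y - v x y) y‖ ≤ ‖h m x y - v x y‖ := by
        simp only [hq, if_pos (hKU x hx hy), norm_smul]
        refine mul_le_of_le_one_left (norm_nonneg _) ?_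
        rw [Real.norm_of_nonneg (hχ0 x hx _)]
        exact hχ1 x hx _
      exact pow_le_pow_left₀ (norm_nonneg _) e5 2
  have hlim : Tendsto (fun m => (F.card : ℝ) * ∑ x ∈ F, C x * ∫ y in U x,
      ‖h m x y - v x y‖ ^ 2) atTop (𝓝 0) := by
    have h1 : Tendsto (fun m => ∑ x ∈ F, C x * ∫ y in U x, ‖h m x y - v x y‖ ^ 2) atTop
        (𝓝 (∑ x ∈ F, C x * 0)) := tendsto_finsetSum _ fun x _ => (hl x).const_mul (C x)
    have h2 := h1.const_mul (F.card : ℝ)
    simpa using h2
  exact squeeze_zero (fun m => integral_nonneg fun _ => real_inner_self_nonneg) hbound hlim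

theorem reg_global [IsManifold (𝓡 n) ∞ M] [CompactSpace M] [T2Space M] [MeasurableSpace M]
    [BorelSpace M] (g : RMetric n M) (h k : ℕ → M → E n → X n) (hh : ∀ m, h m ∈ TForm n M)
    (hk : ∀ m, k m ∈ TForm n M)
    (ch : ∀ ε > 0, ∃ N, ∀ a ≥ N, ∀ b ≥ N, ip g (h a - h b) (h a - h b) < ε)
    (ck : ∀ ε > 0, ∃ N, ∀ a ≥ N, ∀ b ≥ N, ip g (k a - k b) (k a - k b) < ε)
    (a b c d : ℝ) (f₁ f₂ : M → E n → X n) (hf₁ : f₁ ∈ TForm n M) (hf₂ : f₂ ∈ TForm n M)
    (w₁ : ∀ φ ∈ TForm n M, Tendsto (fun m => ip g (h m) (dT φ + deT g φ) + a * ip g (h m) φ +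
      b * ip g (k m) φ) atTop (𝓝 (ip g f₁ φ)))
    (w₂ : ∀ φ ∈ TForm n M, Tendsto (fun m => ip g (k m) (dT φ + deT g φ) + c * ip g (h m) φ +
      d * ip g (k m) φ) atTop (𝓝 (ip g f₂ φ))) :
    ∃ v ∈ TForm n M, ∃ w ∈ TForm n M,
      Tendsto (fun m => ip g (h m - v) (h m - v)) atTop (𝓝 0) ∧
      Tendsto (fun m => ip g (k m - w) (k m - w)) atTop (𝓝 0) := by
  choose U hU hctr hUt v w hv hw using fun x : M =>
    reg_chart g h k hh hk ch ck a b c d f₁ f₂ hf₁ hf₂ w₁ w₂ x
  obtain ⟨s, hs, hs'⟩ := reg_glue g h hh U hU hctr hUt v (fun x => (hv x).1)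
    (fun x => (hv x).2.1) (fun x => (hv x).2.2)
  obtain ⟨t, ht, ht'⟩ := reg_glue g k hk U hU hctr hUt w (fun x => (hw x).1)
    (fun x => (hw x).2.1) (fun x => (hw x).2.2)
  exact ⟨s, hs, t, ht, hs', ht'⟩

end ANCO
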