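import Pool.Agent.Helper39.Anco.Geo
import Pool.Agent.Helper39.Anco.Fock1
import Pool.Agent.Helper39.Anco.Rho
import Pool.Agent.Helper39.Anco.RhoO
import Pool.Agent.Helper39.Anco.Hv
import Pool.Agent.Helper39.Anco.Frame
import Pool.Agent.Helper39.Anco.Tang
import Pool.Agent.Helper39.Anco.Del1
import Pool.Agent.Helper39.Anco.Weitz
import Pool.Agent.Helper39.Anco.Valch
import Pool.Agent.Helper39.Anco.Clos
import Pool.Agent.Helper39.Anco.ClosB
import Pool.Agent.Helper39.Anco.ClosC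
import Pool.Agent.Helper39.Anco.Vol
import Pool.Agent.Helper39.Anco.Int
import Pool.Agent.Helper39.Anco.Adj

open scoped ContDiff Topology Manifold InnerProductSpace
open Set MeasureTheory Filter

set_option maxSynthPendingDepth 3

noncomputable section
namespace ANCO

variable {n : ℕ}

section Loc

variable {G : Coef n} {U : Set (E n)}

theorem wint_hd_congr {W : Type} [NormedAddCommGroup W] [NormedSpace ℝ W] (hU : IsOpen U)
    {F₁ F₂ : Fr n → W} {z : Fr n} (hz : z.1 ∈ U) (h : ∀ z' : Fr n, z'.1 ∈ U → F₁ z' = F₂ z')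
    (u : E n) : Hd G u F₁ z = Hd G u F₂ z := by
  unfold Hd
  rw [Filter.EventuallyEq.fderiv_eq]
  filter_upwards [(hU.preimage continuous_fst).mem_nhds hz] with z' hz'
  exact h z' hz'

theorem wint_mem (hU : IsOpen U) {z : Fr n} (hz : z.1 ∈ U) : U ×ˢ (univ : Set (E n →L[ℝ] E n)) ∈ 𝓝 z :=
  (hU.prod isOpen_univ).mem_nhds ⟨hz, mem_univ _⟩

theorem wint_diff {W : Type} [NormedAddCommGroup W] [NormedSpace ℝ W] (hU : IsOpen U)
    {F : Fr n → W} (hF : ContDiffOn ℝ ∞ F (U ×ˢ univ)) {z : Fr n} (hz : z.1 ∈ U) :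
    DifferentiableAt ℝ F z :=
  (hF.contDiffAt (wint_mem hU hz)).differentiableAt (by simp)

theorem wint_hd_inner {F₁ F₂ : Fr n → X n} {z : Fr n} (h₁ : DifferentiableAt ℝ F₁ z)
    (h₂ : DifferentiableAt ℝ F₂ z) (u : E n) :
    Hd G u (fun z => ⟪F₁ z, F₂ z⟫_ℝ) z = ⟪F₁ z, Hd G u F₂ z⟫_ℝ + ⟪Hd G u F₁ z, F₂ z⟫_ℝ := by
  unfold Hd
  exact fderiv_inner_apply ℝ h₁ h₂ _

/-- the horizontal Laplacian of the squared norm of a lift -/
theorem wint_lap (h : IsMet G U) {w : E n → X n} (hw : ContDiffOn ℝ ∞ w U) {f : E n → ℝ}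
    (hf : ContDiffOn ℝ ∞ f U)
    (heq : ∀ z : Fr n, z.1 ∈ U → IsoFr G z → f z.1 = ⟪lift w z, lift w z⟫_ℝ)
    {z : Fr n} (hz : z.1 ∈ U) (hiso : IsoFr G z) (u : E n) :
    Hd G u (Hd G u (fun z => f z.1)) z =
      2 * ⟪Hd G u (Hd G u (lift w)) z, lift w z⟫_ℝ + 2 * ‖Hd G u (lift w) z‖ ^ 2 := by
  have hF1 : ContDiffOn ℝ ∞ (fun z : Fr n => f z.1) (U ×ˢ univ) :=
    hf.comp contDiff_fst.contDiffOn (fun z hz => hz.1)
  have hL := lift_smooth (U := U) hw
  have hHL := Hd_smooth h u hL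
  have hF2 : ContDiffOn ℝ ∞ (fun z : Fr n => ⟪lift w z, lift w z⟫_ℝ) (U ×ˢ univ) := hL.inner ℝ hL
  have hA : ∀ z' : Fr n, z'.1 ∈ U → IsoFr G z' → Hd G u (fun z => f z.1) z' =
      2 * ⟪Hd G u (lift w) z', lift w z'⟫_ℝ := by
    intro z' hz' hiso'
    rw [Hd_eq_of_iso h hz' hiso' (wint_diff h.isOpen hF1 hz') (wint_diff h.isOpen hF2 hz') heq u,
      wint_hd_inner (wint_diff h.isOpen hL hz') (wint_diff h.isOpen hL hz'), real_inner_comm]
    ring
  have hF1' := Hd_smooth h u hF1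
  have hF2' : ContDiffOn ℝ ∞ (fun z : Fr n => 2 * ⟪Hd G u (lift w) z, lift w z⟫_ℝ) (U ×ˢ univ) :=
    contDiffOn_const.mul (hHL.inner ℝ hL)
  rw [Hd_eq_of_iso h hz hiso (wint_diff h.isOpen hF1' hz) (wint_diff h.isOpen hF2' hz) hA u]
  have h3 : Hd G u (fun z : Fr n => 2 * ⟪Hd G u (lift w) z, lift w z⟫_ℝ) z =
      2 * Hd G u (fun z : Fr n => ⟪Hd G u (lift w) z, lift w z⟫_ℝ) z := by
    unfold Hd
    rw [fderiv_const_mul]
    · rfl
    · exact wint_diff h.isOpen (hHL.inner ℝ hL) hz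
  rw [h3, wint_hd_inner (wint_diff h.isOpen hHL hz) (wint_diff h.isOpen hL hz),
    real_inner_self_eq_norm_sq]
  ring

/-- the codifferential of the differential of a function -/
theorem wint_dd_fun (h : IsMet G U) {f : E n → ℝ} (hf : ContDiffOn ℝ ∞ f U) {w w' : E n → X n}
    (hw : ∀ y ∈ U, w y = f y • eX ∅) (hw' : ∀ y ∈ U, w' y = dloc w y)
    {z : Fr n} (hz : z.1 ∈ U) (hiso : IsoFr G z) :
    lift (deloc G w') z = -((∑ i, Hd G (e i) (Hd G (e i) (fun z => f z.1)) z) • (eX ∅ : X n)) := by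
  have hws : ContDiffOn ℝ ∞ w U := (hf.smul contDiffOn_const).congr hw
  have hw's : ContDiffOn ℝ ∞ w' U := (dloc_smooth h.isOpen hws).congr hw'
  have hF1 : ContDiffOn ℝ ∞ (fun z : Fr n => f z.1) (U ×ˢ univ) :=
    hf.comp contDiff_fst.contDiffOn (fun z hz => hz.1)
  have hd := fun (z : Fr n) (hz : z.1 ∈ U) (w : E n → X n) (hw : ContDiffOn ℝ ∞ w U) =>
    (hw.contDiffAt (h.isOpen.mem_nhds hz)).differentiableAt (n := ∞) (by simp)
  rw [lift_deloc h hz hiso (hd z hz w' hw's)]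
  have h1 : ∀ z' : Fr n, z'.1 ∈ U → lift w z' = f z'.1 • (eX ∅ : X n) := by
    intro z' hz'
    unfold lift
    rw [hw _ hz', map_smul, rho_vac]
  have h2 : ∀ z' : Fr n, z'.1 ∈ U → ∀ j, Hd G (e j) (lift w) z' =
      (Hd G (e j) (fun z => f z.1) z') • (eX ∅ : X n) := by
    intro z' hz' j
    rw [wint_hd_congr h.isOpen hz' h1]
    unfold Hd
    rw [fderiv_smul_const (wint_diff h.isOpen hF1 hz')]
    rfl
  have h3 : ∀ z' : Fr n, z'.1 ∈ U → lift w' z' =
      ∑ j, (Hd G (e j) (fun z => f z.1) z') • eps j (eX ∅ : X n) := by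
    intro z' hz'
    have h4 : lift w' z' = lift (dloc w) z' := by
      unfold lift
      rw [hw' _ hz']
    rw [h4, lift_dloc h hz' (hd z' hz' w hws)]
    refine Finset.sum_congr rfl (fun j _ => ?_)
    rw [h2 z' hz' j, map_smul]
  have h5 : ∀ i, Hd G (e i) (lift w') z =
      ∑ j, (Hd G (e i) (Hd G (e j) (fun z => f z.1)) z) • eps j (eX ∅ : X n) := by
    intro i
    rw [wint_hd_congr h.isOpen hz h3]
    have hdj : ∀ j, DifferentiableAt ℝ (Hd G (e j) (fun z : Fr n => f z.1)) z := fun j =>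
      wint_diff h.isOpen (Hd_smooth h (e j) hF1) hz
    have h6 : fderiv ℝ (fun z' : Fr n => ∑ j, (Hd G (e j) (fun z => f z.1) z') • eps j (eX ∅ : X n)) z =
        ∑ j, fderiv ℝ (fun z' : Fr n => (Hd G (e j) (fun z => f z.1) z') • eps j (eX ∅ : X n)) z := by
      rw [fderiv_fun_sum]
      intro j _
      exact (hdj j).smul_const _
    rw [Hd, h6, _root_.sum_apply]
    refine Finset.sum_congr rfl (fun j _ => ?_)
    rw [fderiv_smul_const (hdj j)]
    rfl
  have h7 : ∀ i j : Fin n, iota i (eps j (eX ∅ : X n)) = if j = i then eX ∅ else 0 := by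
    intro i j
    have := eps_iota j i (eX ∅ : X n)
    rw [iota_eX] at this
    simpa using this
  rw [neg_inj, Finset.sum_smul]
  refine Finset.sum_congr rfl (fun i _ => ?_)
  rw [h5 i, map_sum]
  simp only [map_smul, h7]
  rw [Finset.sum_eq_single i]
  · simp
  · intro j _ hj
    simp [hj]
  · simp

end Loc

variable {M : Type} [TopologicalSpace M] [ChartedSpace (E n) M]

/-- squared norm of a total form -/
def wintF (g : RMetric n M) (s : M → E n → X n) (p : M) : ℝ := ⟪val g s p, val g s p⟫_ℝ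

theorem wintF_chart [IsManifold (𝓡 n) ∞ M] (g : RMetric n M) {s : M → E n → X n}
    (hs : s ∈ TForm n M) (x : M) {z : Fr n} (hz : z.1 ∈ tgt n M x) (hb : IsoFr (g.g x) z) :
    wintF g s ((chartAt (E n) x).symm z.1) = ⟪lift (s x) z, lift (s x) z⟫_ℝ := by
  obtain ⟨y, b⟩ := z
  have hx : (chartAt (E n) x).symm y ∈ (chartAt (E n) x).source :=
    (chartAt (E n) x).map_target hz
  have h1 := inner_val_chart g x _ hx hs hs
  rw [(chartAt (E n) x).right_inv hz] at h1
  have hB : IsoFr (g.g x) (y, Bf g x y) := (Bf_spec g x).2 y hz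
  obtain ⟨k, hk, hbk⟩ := iso_diff (g.isMet x) hz hB hb
  unfold wintF
  rw [h1, hbk]
  unfold lift
  simp only
  rw [rho_comp, inner_rho k hk]

theorem wintF_sm [IsManifold (𝓡 n) ∞ M] (g : RMetric n M) {s : M → E n → X n}
    (hs : s ∈ TForm n M) : IsSm n M (wintF g s) := by
  intro x
  have h1 : ContDiffOn ℝ ∞ (fun y : E n => ((y, Bf g x y) : Fr n)) (tgt n M x) :=
    contDiffOn_id.prodMk (Bf_spec g x).1
  have h2 : ContDiffOn ℝ ∞ (fun y : E n => lift (s x) (y, Bf g x y)) (tgt n M x) :=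
    (lift_smooth (hs.2.1 x)).comp h1 (fun y hy => ⟨hy, mem_univ _⟩)
  refine (h2.inner ℝ h2).congr ?_
  intro y hy
  exact wintF_chart g hs x (z := (y, Bf g x y)) hy ((Bf_spec g x).2 y hy)

theorem wint_fr (g : RMetric n M) (x : M) : (fr g x).1 ∈ tgt n M x ∧ IsoFr (g.g x) (fr g x) := by
  have h1 : ctr n x ∈ tgt n M x := mem_chart_target _ _
  exact ⟨h1, (Bf_spec g x).2 _ h1⟩

theorem wint_val_lap [IsManifold (𝓡 n) ∞ M] (g : RMetric n M) {s : M → E n → X n}
    (hs : s ∈ TForm n M) (x : M) :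
    val g (deT g (dT (fnT (wintF g s)))) x =
      -((2 * ⟪rough (g.g x) (s x) (fr g x), val g s x⟫_ℝ + 2 * ∑ i, ‖nab g s x i‖ ^ 2) •
        (eX ∅ : X n)) := by
  obtain ⟨hz, hiso⟩ := wint_fr g x
  set f : E n → ℝ := fun y => wintF g s ((chartAt (E n) x).symm y) with hf
  have hfs : ContDiffOn ℝ ∞ f (tgt n M x) := wintF_sm g hs x
  have h0 : val g (deT g (dT (fnT (wintF g s)))) x =
      lift (deloc (g.g x) (dT (fnT (wintF g s)) x)) (fr g x) := by
    unfold val lift deT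
    rw [if_pos hz]
  have h1 := wint_dd_fun (g.isMet x) hfs (w := fnT (wintF g s) x) (w' := dT (fnT (wintF g s)) x)
    (fun y hy => by simp only [fnT]; rw [if_pos hy]) (fun y hy => by simp only [dT]; rw [if_pos hy])
    hz hiso
  rw [h0, h1]
  congr 2
  have h2 : ∀ i, Hd (g.g x) (e i) (Hd (g.g x) (e i) (fun z => f z.1)) (fr g x) =
      2 * ⟪Hd (g.g x) (e i) (Hd (g.g x) (e i) (lift (s x))) (fr g x), lift (s x) (fr g x)⟫_ℝ +
        2 * ‖Hd (g.g x) (e i) (lift (s x)) (fr g x)‖ ^ 2 := fun i =>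
    wint_lap (g.isMet x) (hs.2.1 x) hfs (fun z hz hiso => wintF_chart g hs x hz hiso) hz hiso (e i)
  simp only [h2]
  rw [Finset.sum_add_distrib, ← Finset.mul_sum, ← Finset.mul_sum, ← sum_inner]
  rfl

/-- pointwise inequality -/
theorem wint_pt [IsManifold (𝓡 n) ∞ M] (g : RMetric n M) {κ : ℝ} (hκ : 0 ≤ κ) (hc : g.CurvGE (-κ))
    {s : M → E n → X n} (hs : s ∈ TForm n M) (x : M) :
    ∑ i, ⟪nab g s x i, nab g s x i⟫_ℝ ≤
      ⟪val g (dT (deT g s)) x, val g s x⟫_ℝ + ⟪val g (deT g (dT s)) x, val g s x⟫_ℝ +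
      2 * (n : ℝ) ^ 2 * κ * ⟪val g s x, val g s x⟫_ℝ -
      (1 / 2) * ⟪val g (deT g (dT (fnT (wintF g s)))) x, val g (fnT (fun _ => 1)) x⟫_ℝ := by
  obtain ⟨hz, hiso⟩ := wint_fr g x
  rw [wint_val_lap g hs x, val_fnT, one_smul]
  have hU := (g.isMet x).isOpen
  have h1 : val g (dT (deT g s)) x + val g (deT g (dT s)) x =
      lift (fun y => dloc (deloc (g.g x) (s x)) y + deloc (g.g x) (dloc (s x)) y) (fr g x) := by
    have h2 : dT (deT g s) x (fr g x).1 = dloc (deloc (g.g x) (s x)) (fr g x).1 := by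
      simp only [dT]
      rw [if_pos hz]
      unfold dloc
      have : fderiv ℝ (deT g s x) (fr g x).1 = fderiv ℝ (deloc (g.g x) (s x)) (fr g x).1 := by
        apply Filter.EventuallyEq.fderiv_eq
        filter_upwards [hU.mem_nhds hz] with y hy
        simp only [deT]
        rw [if_pos hy]
      rw [this]
    have h3 : deT g (dT s) x (fr g x).1 = deloc (g.g x) (dloc (s x)) (fr g x).1 := by
      simp only [deT]
      rw [if_pos hz]
      unfold deloc cov
      have h4 : fderiv ℝ (dT s x) (fr g x).1 = fderiv ℝ (dloc (s x)) (fr g x).1 := by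
        apply Filter.EventuallyEq.fderiv_eq
        filter_upwards [hU.mem_nhds hz] with y hy
        simp only [dT]
        rw [if_pos hy]
      have h5 : dT s x (fr g x).1 = dloc (s x) (fr g x).1 := by
        simp only [dT]
        rw [if_pos hz]
      rw [h4, h5]
    unfold val lift
    rw [h2, h3, ← map_add]
  have h2 := weitz_loc (g.isMet x) (hs.2.1 x) hz hiso
  have h3 := weitz_ge (g.isMet x) hz hiso hκ (hc x _ hz) (lift (s x) (fr g x))
  have h4 : ⟪val g (dT (deT g s)) x, val g s x⟫_ℝ + ⟪val g (deT g (dT s)) x, val g s x⟫_ℝ =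
      -⟪rough (g.g x) (s x) (fr g x), val g s x⟫_ℝ +
        ⟪weitz (g.g x) (fr g x) (lift (s x) (fr g x)), lift (s x) (fr g x)⟫_ℝ := by
    rw [← inner_add_left, h1, h2, inner_add_left, inner_neg_left]
    rfl
  have h5 : ⟪(eX ∅ : X n), eX ∅⟫_ℝ = 1 := by
    simp [eX]
  have h6 : ∑ i, ⟪nab g s x i, nab g s x i⟫_ℝ = ∑ i, ‖nab g s x i‖ ^ 2 :=
    Finset.sum_congr rfl (fun i _ => real_inner_self_eq_norm_sq _)
  have h7 : ⟪val g s x, val g s x⟫_ℝ = ‖lift (s x) (fr g x)‖ ^ 2 := real_inner_self_eq_norm_sq _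
  rw [h4, inner_neg_left, inner_smul_left, h5, h6, h7]
  simp only [conj_trivial]
  linarith

theorem wint_lin {M : Type} [MeasurableSpace M] (μ : Measure M) {a b c d : M → ℝ}
    (ha : Integrable a μ) (hb : Integrable b μ) (hc : Integrable c μ) (hd : Integrable d μ)
    (k l : ℝ) : ∫ x, (a x + b x + k * c x - l * d x) ∂μ =
      ∫ x, a x ∂μ + ∫ x, b x ∂μ + k * ∫ x, c x ∂μ - l * ∫ x, d x ∂μ := by
  have hab : Integrable (fun x => a x + b x) μ := ha.add hb
  have hkc : Integrable (fun x => k * c x) μ := hc.const_mul k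
  have hld : Integrable (fun x => l * d x) μ := hd.const_mul l
  have h3 : Integrable (fun x => a x + b x + k * c x) μ := hab.add hkc
  calc ∫ x, (a x + b x + k * c x - l * d x) ∂μ
      = ∫ x, (a x + b x + k * c x) ∂μ - ∫ x, l * d x ∂μ := integral_sub h3 hld
    _ = ∫ x, (a x + b x) ∂μ + ∫ x, k * c x ∂μ - ∫ x, l * d x ∂μ := by
        rw [integral_add hab hkc]
    _ = _ := by rw [integral_add ha hb, integral_const_mul, integral_const_mul]

theorem weitz_int [IsManifold (𝓡 n) ∞ M] [CompactSpace M] [T2Space M] [MeasurableSpace M]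
    [BorelSpace M] (g : RMetric n M) {κ : ℝ} (hκ : 0 ≤ κ) (hc : g.CurvGE (-κ))
    {s : M → E n → X n} (hs : s ∈ TForm n M) :
    en g s ≤ ip g (dT s) (dT s) + ip g (deT g s) (deT g s) + 2 * (n : ℝ) ^ 2 * κ * ip g s s := by
  have : IsFiniteMeasure (vol g) := (exists_vol g).1
  have hint : ∀ f : M → ℝ, Continuous f → Integrable f (vol g) := fun f hf =>
    hf.integrable_of_hasCompactSupport (HasCompactSupport.of_compactSpace f)
  have hds := dT_mem g hs
  have hes := deT_mem g hs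
  have hdes := dT_mem g hes
  have heds := deT_mem g hds
  have h1T : fnT (fun _ : M => (1 : ℝ)) ∈ TForm n M := fnT_mem (fun x => contDiffOn_const)
  have hfT : fnT (wintF g s) ∈ TForm n M := fnT_mem (wintF_sm g hs)
  have hdf := dT_mem g hfT
  have hedf := deT_mem g hdf
  have i1 := hint _ (cont_ip g hdes hs)
  have i2 := hint _ (cont_ip g heds hs)
  have i3 := hint _ (cont_ip g hs hs)
  have i4 := hint _ (cont_ip g hedf h1T)
  have i5 := hint _ (cont_nab g hs hs)
  have hmono := integral_mono i5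
    (((i1.add i2).add (i3.const_mul (2 * (n : ℝ) ^ 2 * κ))).sub (i4.const_mul (1 / 2)))
    (fun x => wint_pt g hκ hc hs x)
  have hen : en g s = ∫ x, ∑ i, ⟪nab g s x i, nab g s x i⟫_ℝ ∂(vol g) := by
    unfold en
    congr 1
    ext x
    exact Finset.sum_congr rfl (fun i _ => (real_inner_self_eq_norm_sq _).symm)
  have hsym : ∀ a b : M → E n → X n, ip g a b = ip g b a := by
    intro a b
    unfold ip
    congr 1
    ext x
    exact real_inner_comm _ _
  have a1 : ip g (dT (deT g s)) s = ip g (deT g s) (deT g s) := adj_dT g hes hs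
  have a2 : ip g (deT g (dT s)) s = ip g (dT s) (dT s) := by
    rw [hsym, ← adj_dT g hs hds]
  have a3 : ip g (deT g (dT (fnT (wintF g s)))) (fnT (fun _ => 1)) = 0 := by
    rw [hsym, ← adj_dT g h1T hdf]
    have : (dT (fnT (fun _ : M => (1 : ℝ))) : M → E n → X n) = 0 := by
      funext x y
      simp only [dT, Pi.zero_apply]
      split_ifs with hy
      · unfold dloc
        have h6 : fderiv ℝ (fnT (fun _ : M => (1 : ℝ)) x : E n → X n) y = 0 := by
          have h7 : fderiv ℝ (fnT (fun _ : M => (1 : ℝ)) x : E n → X n) y =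
              fderiv ℝ (fun _ : E n => (eX ∅ : X n)) y := by
            apply Filter.EventuallyEq.fderiv_eq
            filter_upwards [(chartAt (E n) x).open_target.mem_nhds hy] with y' hy'
            simp only [fnT]
            rw [if_pos hy', one_smul]
          rw [h7]
          simp
        simp [h6]
      · rfl
    rw [this]
    unfold ip
    have h8 : ∀ x : M, val g (0 : M → E n → X n) x = 0 := by
      intro x
      unfold val lift
      simp
    simp [h8]
  rw [hen]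
  refine hmono.trans (le_of_eq ?_)
  have e1 : ∫ x, (⟪val g (dT (deT g s)) x, val g s x⟫_ℝ + ⟪val g (deT g (dT s)) x, val g s x⟫_ℝ +
      2 * (n : ℝ) ^ 2 * κ * ⟪val g s x, val g s x⟫_ℝ -
      (1 / 2) * ⟪val g (deT g (dT (fnT (wintF g s)))) x, val g (fnT (fun _ => 1)) x⟫_ℝ) ∂(vol g) =
      ip g (dT (deT g s)) s + ip g (deT g (dT s)) s + 2 * (n : ℝ) ^ 2 * κ * ip g s s -
      (1 / 2) * ip g (deT g (dT (fnT (wintF g s)))) (fnT (fun _ => 1)) := by
    exact wint_lin (vol g) i1 i2 i3 i4 _ _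
  refine e1.trans ?_
  rw [a1, a2, a3]
  ring

end ANCO
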