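import Pool.Agent.Helper39.Anco.AbsDefs
import Pool.Agent.Helper39.Anco.PkgDefs
import Pool.Agent.Helper39.Anco.Fock1
import Pool.Agent.Helper39.Anco.Fock2
import Pool.Agent.Helper39.Anco.Clos
import Pool.Agent.Helper39.Anco.ClosB
import Pool.Agent.Helper39.Anco.ClosC
import Pool.Agent.Helper39.Anco.Valch
import Pool.Agent.Helper39.Anco.Int
import Pool.Agent.Helper39.Anco.Adj
import Pool.Agent.Helper39.Anco.Wint
import Pool.Agent.Helper39.Anco.Cpt
import Pool.Agent.Helper39.Anco.Reg
import Pool.Agent.Helper39.Anco.Chi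

/-!
# The Hodge complex of a closed Riemannian manifold as an abstract graded complex
-/

open scoped ContDiff Topology Manifold InnerProductSpace
open Set MeasureTheory Filter

set_option maxSynthPendingDepth 3

noncomputable section
namespace ANCO

variable {n : ℕ} {M : Type} [TopologicalSpace M] [ChartedSpace (E n) M]

/-- projections on total forms -/
def prL (p : ℕ) : TForm n M →ₗ[ℝ] TForm n M where
  toFun s := ⟨prT p s.1, prT_mem p s.2⟩
  map_add' s t := by
    apply Subtype.ext; funext x y
    simp [prT]
  map_smul' c s := by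
    apply Subtype.ext; funext x y
    simp [prT]

theorem prL_coe (p : ℕ) (s : TForm n M) : (prL p s).1 = prT p s.1 := rfl

section

variable [IsManifold (𝓡 n) ∞ M] (g : RMetric n M)

/-- exterior derivative on total forms -/
def dTL : TForm n M →ₗ[ℝ] TForm n M where
  toFun s := ⟨dT s.1, dT_mem g s.2⟩
  map_add' s t := Subtype.ext (dT_add s.2 t.2)
  map_smul' c s := Subtype.ext (dT_smul c s.2)

/-- codifferential on total forms -/
def deTL : TForm n M →ₗ[ℝ] TForm n M where
  toFun s := ⟨deT g s.1, deT_mem g s.2⟩
  map_add' s t := Subtype.ext (deT_add g s.2 t.2)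
  map_smul' c s := Subtype.ext (deT_smul g c s.2)

/-- values in the chosen frames -/
def valL : TForm n M →ₗ[ℝ] (M → X n) where
  toFun s := val g s.1
  map_add' s t := by funext x; exact val_add g s.1 t.1 x
  map_smul' c s := by funext x; exact val_smul g c s.1 x

/-- covariant derivatives in the chosen frames -/
def nabL : TForm n M →ₗ[ℝ] (M → Fin n → X n) where
  toFun s := nab g s.1
  map_add' s t := by funext x i; exact nab_add g s.2 t.2 x i
  map_smul' c s := by funext x i; exact nab_smul g c s.2 x i

variable [CompactSpace M] [T2Space M] [MeasurableSpace M] [BorelSpace M]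

theorem integrable_of_cont {f : M → ℝ} (hf : Continuous f) : Integrable f (vol g) := by
  haveI : IsFiniteMeasure (vol g) := (exists_vol g).1
  exact hf.integrable_of_hasCompactSupport (HasCompactSupport.of_compactSpace f)

/-- the `L²` inner product -/
def ipB : TForm n M →ₗ[ℝ] TForm n M →ₗ[ℝ] ℝ :=
  LinearMap.mk₂ ℝ (fun s t => ip g s.1 t.1)
    (by
      intro s s' t
      show ip g (s.1 + s'.1) t.1 = ip g s.1 t.1 + ip g s'.1 t.1
      unfold ip
      rw [← integral_add (integrable_of_cont g (cont_ip g s.2 t.2))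
        (integrable_of_cont g (cont_ip g s'.2 t.2))]
      congr 1; funext x
      rw [val_add, inner_add_left])
    (by
      intro c s t
      show ip g (c • s.1) t.1 = c • ip g s.1 t.1
      unfold ip
      rw [smul_eq_mul, ← integral_const_mul]
      congr 1; funext x
      rw [val_smul, real_inner_smul_left])
    (by
      intro s t t'
      show ip g s.1 (t.1 + t'.1) = ip g s.1 t.1 + ip g s.1 t'.1
      unfold ip
      rw [← integral_add (integrable_of_cont g (cont_ip g s.2 t.2))
        (integrable_of_cont g (cont_ip g s.2 t'.2))]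
      congr 1; funext x
      rw [val_add, inner_add_right])
    (by
      intro c s t
      show ip g s.1 (c • t.1) = c • ip g s.1 t.1
      unfold ip
      rw [smul_eq_mul, ← integral_const_mul]
      congr 1; funext x
      rw [val_smul, real_inner_smul_right])

theorem ipB_apply (s t : TForm n M) : ipB g s t = ip g s.1 t.1 := rfl

theorem ip_comm (s t : M → E n → X n) : ip g s t = ip g t s := by
  unfold ip; congr 1; funext x; rw [real_inner_comm]

theorem prT_idem (p q : ℕ) (s : TForm n M) :
    prL p (prL q s) = if p = q then prL p s else 0 := by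
  apply Subtype.ext; funext x y
  show prj p (prj q (s.1 x y)) = _
  rw [prj_prj]
  by_cases h : p = q
  · simp only [h, if_true]; rfl
  · simp only [h, if_false]; rfl

/-- The Hodge complex. -/
def cplx : GrCplx (TForm n M) n where
  B := ipB g
  symm s t := ip_comm g s.1 t.1
  pos s hs := ip_pos g s.2 (fun h => hs (Subtype.ext h))
  pr := prL
  pr_pr p q s := prT_idem p q s
  pr_sum s := by
    apply Subtype.ext
    rw [AddSubmonoidClass.coe_finset_sum]
    funext x y
    rw [Finset.sum_apply, Finset.sum_apply]
    exact sum_prj (s.1 x y)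
  pr_symm p s t := by
    show ip g (prT p s.1) t.1 = ip g s.1 (prT p t.1)
    unfold ip; congr 1; funext x
    rw [val_prT, val_prT, inner_prj]
  d := dTL g
  de := deTL g
  d_d s := Subtype.ext (dT_dT s.2)
  adj s t := adj_dT g s.2 t.2
  d_pr p s := Subtype.ext (prT_dT p s.2)
  d_pr0 s := Subtype.ext (prT_zero_dT s.2)

theorem cplx_D (s : TForm n M) : ((cplx g).D s).1 = dT s.1 + deT g s.1 := rfl

theorem cplx_cpt : CptProp (cplx g).B (cplx g).D := by
  intro v h1 h2
  obtain ⟨φ, hφ, hC⟩ := cpt_global g (fun m => (v m).1) (fun m => (v m).2) h1 h2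
  exact ⟨φ, hφ, hC⟩

theorem cplx_reg : RegProp (cplx g).B (cplx g).D := by
  intro h k ch ck a b c e f₁ f₂ w₁ w₂
  obtain ⟨v, hv, w, hw, h1, h2⟩ := reg_global g (fun m => (h m).1) (fun m => (k m).1)
    (fun m => (h m).2) (fun m => (k m).2) ch ck a b c e f₁.1 f₂.1 f₁.2 f₂.2
    (fun φ hφ => w₁ ⟨φ, hφ⟩) (fun φ hφ => w₂ ⟨φ, hφ⟩)
  exact ⟨⟨v, hv⟩, ⟨w, hw⟩, h1, h2⟩

end

end ANCO
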