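import Mathlib

/-!
# Statement-level definitions for MP_738e39_gt (almost nonnegative curvature operator, ANCO)

All objects on a smooth manifold `M` modelled on Euclidean space `E n` are given by their
coordinate expressions in the charts `chartAt (E n) x`, `x : M`, which cover `M`.
-/

open scoped ContDiff Topology Manifold
open Set

set_option maxSynthPendingDepth 3

noncomputable section
namespace ANCO

/-- The model space `ℝ^n` with its Euclidean structure. -/
abbrev E (n : ℕ) := EuclideanSpace ℝ (Fin n)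

/-- Coefficients of a bilinear form field `g_{ij}(y)` in a chart. -/
abbrev Coef (n : ℕ) := E n → E n →L[ℝ] E n →L[ℝ] ℝ

section Local

variable {n : ℕ}

/-- Koszul expression: `koszul G y u v w = 1/2 (D_u g (v,w) + D_v g (u,w) - D_w g (u,v))`. -/
def koszul (G : Coef n) (y : E n) : E n →L[ℝ] E n →L[ℝ] E n →L[ℝ] ℝ :=
  (1 / 2 : ℝ) • (fderiv ℝ G y + (fderiv ℝ G y).flip -
    ((ContinuousLinearMap.flipₗᵢ ℝ (E n) (E n) ℝ : (E n →L[ℝ] E n →L[ℝ] ℝ) →L[ℝ]
      (E n →L[ℝ] E n →L[ℝ] ℝ))).comp (fderiv ℝ G y).flip)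

/-- The Christoffel symbols: `G y (christ G y u v) w = koszul G y u v w`. -/
def christ (G : Coef n) (y : E n) : E n →L[ℝ] E n →L[ℝ] E n :=
  (ContinuousLinearMap.compL ℝ (E n) (E n →L[ℝ] ℝ) (E n)
    (ContinuousLinearMap.inverse (G y))) ∘L (koszul G y)

/-- The curvature endomorphism
`R(u,v) = D_u Γ(v) - D_v Γ(u) + Γ(u) Γ(v) - Γ(v) Γ(u)`. -/
def riem (G : Coef n) (y u v : E n) : E n →L[ℝ] E n :=
  fderiv ℝ (christ G) y u v - fderiv ℝ (christ G) y v u
    + (christ G y u) ∘L (christ G y v) - (christ G y v) ∘L (christ G y u)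

/-- The Riemann tensor `Rm(u,v,w,z) = g(R(u,v)w, z)`; for the unit sphere
`Rm(u,v,v,u) = |u|^2 |v|^2 - g(u,v)^2`. -/
def rm (G : Coef n) (y u v w z : E n) : ℝ := G y (riem G y u v w) z

/-- The curvature operator at `y` is `≥ κ`: for every bivector `ξ = ∑ u_a ∧ v_a`,
`⟨R ξ, ξ⟩ = ∑ Rm(u_a, v_a, v_b, u_b) ≥ κ |ξ|^2`. -/
def CurvOpGE (G : Coef n) (κ : ℝ) (y : E n) : Prop :=
  ∀ (m : ℕ) (u v : Fin m → E n),
    κ * ∑ a, ∑ b, (G y (u a) (u b) * G y (v a) (v b) - G y (u a) (v b) * G y (v a) (u b))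
      ≤ ∑ a, ∑ b, rm G y (u a) (v a) (v b) (u b)

end Local

section Global

variable (n : ℕ) (M : Type) [TopologicalSpace M] [ChartedSpace (E n) M]

/-- Chart domain (in the model) of the preferred chart at `x`. -/
abbrev tgt (x : M) : Set (E n) := (chartAt (E n) x).target

/-- Transition map from the chart at `x` to the chart at `x'`. -/
def tr (x x' : M) : OpenPartialHomeomorph (E n) (E n) :=
  (chartAt (E n) x).symm.trans (chartAt (E n) x')

/-- A smooth Riemannian metric, given by its coefficients in the charts. -/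
structure RMetric where
  g : M → Coef n
  smooth : ∀ x, ContDiffOn ℝ ∞ (g x) (tgt n M x)
  symm : ∀ x, ∀ y ∈ tgt n M x, ∀ u v, g x y u v = g x y v u
  pos : ∀ x, ∀ y ∈ tgt n M x, ∀ u, u ≠ 0 → 0 < g x y u u
  compat : ∀ x x', ∀ y ∈ (tr n M x x').source, ∀ u v,
    g x y u v = g x' (tr n M x x' y) (fderiv ℝ (tr n M x x') y u) (fderiv ℝ (tr n M x x') y v)

variable {n M}

/-- Speed of a curve `γ` at time `t`, computed in the preferred chart at `γ t`. -/
def speed (g : RMetric n M) (γ : ℝ → M) (t : ℝ) : ℝ :=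
  Real.sqrt (g.g (γ t) (chartAt (E n) (γ t) (γ t))
    (deriv (fun s => chartAt (E n) (γ t) (γ s)) t) (deriv (fun s => chartAt (E n) (γ t) (γ s)) t))

/-- The diameter is at most `D`: any two points are joined by `C^1` curves of length `< r` for
every `r > D`. -/
def DiamLE (g : RMetric n M) (D : ℝ) : Prop :=
  ∀ p q : M, ∀ r > D, ∃ γ : ℝ → M, ContMDiff 𝓘(ℝ, ℝ) (𝓡 n) 1 γ ∧ γ 0 = p ∧ γ 1 = q ∧
    ∫ t in (0:ℝ)..1, speed g γ t < r

/-- The metric has curvature operator `≥ κ` everywhere. -/
def RMetric.CurvGE (g : RMetric n M) (κ : ℝ) : Prop :=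
  ∀ x, ∀ y ∈ tgt n M x, CurvOpGE (g.g x) κ y

variable (n M)

/-- `M` admits almost nonnegative curvature operator. -/
def AdmitsANCO : Prop :=
  ∀ ε > 0, ∃ g : RMetric n M, DiamLE g 1 ∧ g.CurvGE (-ε)

/-- Alternating `p`-forms on the model space. -/
abbrev Alt (n p : ℕ) := (E n) [⋀^Fin p]→L[ℝ] ℝ

/-- The space of smooth differential `p`-forms on `M`: families of smooth `p`-forms on the chart
domains (extended by `0` outside of them) which agree under pull-back by the transition maps. -/
def DForm (p : ℕ) : Submodule ℝ (M → E n → Alt n p) where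
  carrier := {w | (∀ x, ∀ y ∉ tgt n M x, w x y = 0) ∧
    (∀ x, ContDiffOn ℝ ∞ (w x) (tgt n M x)) ∧
    ∀ x x', ∀ y ∈ (tr n M x x').source,
      w x y = (w x' (tr n M x x' y)).compContinuousLinearMap (fderiv ℝ (tr n M x x') y)}
  add_mem' := by
    rintro a b ⟨ha1, ha2, ha3⟩ ⟨hb1, hb2, hb3⟩
    refine ⟨fun x y hy => by simp [ha1 x y hy, hb1 x y hy], fun x => (ha2 x).add (hb2 x), ?_⟩
    intro x x' y hy
    simp only [Pi.add_apply]
    rw [ha3 x x' y hy, hb3 x x' y hy]
    rfl
  zero_mem' := by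
    refine ⟨fun x y _ => rfl, fun x => contDiffOn_const, ?_⟩
    intro x x' y hy
    rfl
  smul_mem' := by
    rintro c a ⟨ha1, ha2, ha3⟩
    refine ⟨fun x y hy => by simp [ha1 x y hy], fun x => (ha2 x).const_smul c, ?_⟩
    intro x x' y hy
    simp only [Pi.smul_apply]
    rw [ha3 x x' y hy]
    rfl

/-- Closed `p`-forms. -/
def closedForms (p : ℕ) : Submodule ℝ (DForm n M p) where
  carrier := {w | ∀ x, ∀ y ∈ tgt n M x, extDeriv (w.1 x) y = 0}
  add_mem' := by
    intro a b ha hb x y hy
    have h1 : DifferentiableAt ℝ (a.1 x) y :=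
      ((a.2.2.1 x).contDiffAt ((chartAt (E n) x).open_target.mem_nhds hy)).differentiableAt
        (by simp)
    have h2 : DifferentiableAt ℝ (b.1 x) y :=
      ((b.2.2.1 x).contDiffAt ((chartAt (E n) x).open_target.mem_nhds hy)).differentiableAt
        (by simp)
    have := extDeriv_add h1 h2
    simpa [ha x y hy, hb x y hy] using this
  zero_mem' := by
    intro x y _
    have : ((0 : DForm n M p).1 x) = fun _ => 0 := rfl
    rw [this]
    simp [extDeriv, ← ContinuousAlternatingMap.alternatizeUncurryFinCLM_apply]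
  smul_mem' := by
    intro c a ha x y hy
    have := extDeriv_smul (x := y) c (a.1 x)
    simpa [ha x y hy] using this

/-- Exact `p`-forms. -/
def exactForms : (p : ℕ) → Submodule ℝ (DForm n M p)
  | 0 => ⊥
  | p + 1 =>
    { carrier := {w | ∃ η : DForm n M p, ∀ x, ∀ y ∈ tgt n M x, w.1 x y = extDeriv (η.1 x) y}
      add_mem' := by
        rintro a b ⟨η, hη⟩ ⟨ζ, hζ⟩
        refine ⟨η + ζ, fun x y hy => ?_⟩
        have h1 : DifferentiableAt ℝ (η.1 x) y :=
          ((η.2.2.1 x).contDiffAt ((chartAt (E n) x).open_target.mem_nhds hy)).differentiableAt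
            (by simp)
        have h2 : DifferentiableAt ℝ (ζ.1 x) y :=
          ((ζ.2.2.1 x).contDiffAt ((chartAt (E n) x).open_target.mem_nhds hy)).differentiableAt
            (by simp)
        have := extDeriv_add h1 h2
        simpa [hη x y hy, hζ x y hy] using this.symm
      zero_mem' := by
        refine ⟨0, fun x y _ => ?_⟩
        have : ((0 : DForm n M p).1 x) = fun _ => 0 := rfl
        rw [this]
        simp [extDeriv, ← ContinuousAlternatingMap.alternatizeUncurryFinCLM_apply]
      smul_mem' := by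
        rintro c a ⟨η, hη⟩
        refine ⟨c • η, fun x y hy => ?_⟩
        have := extDeriv_smul (x := y) c (η.1 x)
        simpa [hη x y hy] using this.symm }

/-- The `p`-th Betti number of `M`: the dimension of the `p`-th de Rham cohomology. -/
def betti (p : ℕ) : ℕ :=
  Module.finrank ℝ (closedForms n M p ⧸ (exactForms n M p).submoduleOf (closedForms n M p))

/-- The Euler characteristic of `M`. -/
def eulerChar : ℤ := ∑ p ∈ Finset.range (n + 1), (-1) ^ p * (betti n M p : ℤ)

end Global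

end ANCO
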