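import Pool.Agent.Helper39.Anco.Fock2
import Pool.Agent.Helper39.Anco.Cliff

/-!
# Adjoints, parity and traces of left Clifford multiplications
-/

open scoped ContDiff Topology Manifold InnerProductSpace
open Set MeasureTheory

set_option maxSynthPendingDepth 3

noncomputable section
namespace ANCO

variable {n : ℕ}

/-- Ordered product of the `gam i` over a list. -/
def star_G (l : List (Fin n)) : X n →L[ℝ] X n :=
  (l.map gam).foldr (fun a b => a ∘L b) (ContinuousLinearMap.id ℝ (X n))

theorem star_G_nil : star_G ([] : List (Fin n)) = ContinuousLinearMap.id ℝ (X n) := rfl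

theorem star_G_cons (i : Fin n) (l : List (Fin n)) (x : X n) :
    star_G (i :: l) x = gam i (star_G l x) := rfl

theorem star_G_append (l : List (Fin n)) (i : Fin n) (x : X n) :
    star_G (l ++ [i]) x = star_G l (gam i x) := by
  induction l with
  | nil => rfl
  | cons a l ih =>
    rw [List.cons_append, star_G_cons, star_G_cons, ih]

theorem star_gamI (I : Finset (Fin n)) : gamI I = star_G (I.sort (· ≤ ·)) := rfl

theorem star_anti (i j : Fin n) (hij : i ≠ j) (x : X n) : gam i (gam j x) = -gam j (gam i x) := by
  have h := gam_gam i j x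
  rw [if_neg hij] at h
  exact eq_neg_of_add_eq_zero_left h

/-- moving a generator through an ordered product -/
theorem star_move (i : Fin n) (l : List (Fin n)) (x : X n) :
    star_G l (gam i x) = (-1 : ℝ) ^ (l.filter (· ≠ i)).length • gam i (star_G l x) := by
  induction l generalizing x with
  | nil => simp [star_G_nil]
  | cons a l ih =>
    rw [star_G_cons, ih, star_G_cons, map_smul]
    by_cases hai : a = i
    · subst hai
      simp
    · rw [star_anti a i hai]
      have h1 : ((a :: l).filter (· ≠ i)).length = (l.filter (· ≠ i)).length + 1 := by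
        simp [hai]
      rw [h1, pow_succ]
      simp

theorem star_filter (i : Fin n) (l : List (Fin n)) (h : i ∉ l) :
    (l.filter (· ≠ i)).length = l.length := by
  rw [List.filter_eq_self.mpr]
  intro a ha
  have : a ≠ i := fun h1 => h (h1 ▸ ha)
  simpa using this

theorem star_reverse (l : List (Fin n)) (hl : l.Nodup) (x : X n) :
    star_G l.reverse x = (-1 : ℝ) ^ (l.length * (l.length - 1) / 2) • star_G l x := by
  induction l generalizing x with
  | nil => simp
  | cons a l ih =>
    have ha : a ∉ l := (List.nodup_cons.mp hl).1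
    have hl' : l.Nodup := (List.nodup_cons.mp hl).2
    rw [List.reverse_cons, star_G_append, ih hl', star_move, star_filter a l ha, star_G_cons,
      smul_smul, ← pow_add]
    congr 2
    have h1 : (a :: l).length = l.length + 1 := rfl
    rw [h1]
    have h2 : (l.length + 1) * (l.length + 1 - 1) = l.length * (l.length - 1) + l.length * 2 := by
      rcases Nat.eq_zero_or_pos l.length with h | h
      · simp [h]
      · obtain ⟨k, hk⟩ : ∃ k, l.length = k + 1 := ⟨l.length - 1, by omega⟩
        rw [hk]
        simp only [Nat.add_sub_cancel]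
        ring
    rw [h2, Nat.add_mul_div_right _ _ (by norm_num : 0 < 2)]

theorem star_inner (l : List (Fin n)) (y z : X n) :
    ⟪star_G l y, z⟫_ℝ = (-1 : ℝ) ^ l.length * ⟪y, star_G l.reverse z⟫_ℝ := by
  induction l generalizing z with
  | nil => simp [star_G_nil]
  | cons a l ih =>
    rw [star_G_cons, inner_gam, ih, List.reverse_cons, star_G_append, List.length_cons, pow_succ]
    ring

theorem star_inner_gamI (I : Finset (Fin n)) (y z : X n) :
    ⟪gamI I y, z⟫_ℝ = (-1 : ℝ) ^ (I.card * (I.card + 1) / 2) * ⟪y, gamI I z⟫_ℝ := by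
  rw [star_gamI, star_inner, star_reverse _ (Finset.sort_nodup _ _), Finset.length_sort,
    inner_smul_right, ← mul_assoc, ← pow_add]
  congr 2
  rcases Nat.eq_zero_or_pos I.card with h | h
  · simp [h]
  · obtain ⟨k, hk⟩ : ∃ k, I.card = k + 1 := ⟨I.card - 1, by omega⟩
    rw [hk]
    simp only [Nat.add_sub_cancel]
    have h3 : (k + 1) * (k + 1 + 1) = (k + 1) * k + (k + 1) * 2 := by ring
    rw [h3, Nat.add_mul_div_right _ _ (by norm_num : 0 < 2)]
    ring

/-- The adjoint of left multiplication by a form of degree `p`. -/
theorem inner_LX (p : ℕ) (x : X n) (hx : prj p x = x) (y z : X n) :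
    ⟪LX x y, z⟫_ℝ = (-1) ^ (p * (p + 1) / 2) * ⟪y, LX x z⟫_ℝ := by
  rw [LX_apply, LX_apply, sum_inner, inner_sum, Finset.mul_sum]
  refine Finset.sum_congr rfl fun I _ => ?_
  rw [real_inner_smul_left, real_inner_smul_right]
  by_cases hI : I.card = p
  · rw [star_inner_gamI, hI]
    ring
  · have h0 : x I = 0 := by
      have h1 : prj p x I = 0 := by
        show (if I.card = p then x I else 0) = 0
        rw [if_neg hI]
      rw [← hx]
      exact h1
    rw [h0]
    ring

theorem star_par_G (l : List (Fin n)) (y : X n) :
    par (star_G l y) = (-1 : ℝ) ^ l.length • star_G l (par y) := by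
  induction l with
  | nil => simp [star_G_nil]
  | cons a l ih =>
    have h : ∀ w : X n, par (gam a w) = -gam a (par w) := by
      intro w
      show par (eps a w - iota a w) = -(eps a (par w) - iota a (par w))
      rw [map_sub, par_eps, par_iota]
      abel
    rw [star_G_cons, h, ih, map_smul, star_G_cons, List.length_cons, pow_succ]
    simp

theorem star_par_apply (x : X n) (I : Finset (Fin n)) : par x I = (-1) ^ I.card * x I := rfl

theorem par_LX (x y : X n) : par (LX x y) = LX (par x) (par y) := by
  rw [LX_apply, LX_apply, map_sum]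
  refine Finset.sum_congr rfl fun I _ => ?_
  rw [map_smul, star_gamI, star_par_G, Finset.length_sort, star_par_apply, smul_smul, mul_comm]

theorem star_par_gamI (I : Finset (Fin n)) (y : X n) :
    par (gamI I y) = (-1 : ℝ) ^ I.card • gamI I (par y) := by
  rw [star_gamI, star_par_G, Finset.length_sort]

theorem star_gam_sq (i : Fin n) (x : X n) : gam i (gam i x) = -x := by
  have h := gam_gam i i x
  rw [if_pos rfl] at h
  have h2 : (2 : ℝ) • (gam i (gam i x)) = (2 : ℝ) • (-x) := by
    rw [two_smul, h]
    simp
  exact smul_right_injective _ (by norm_num : (2 : ℝ) ≠ 0) h2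

theorem star_trace_zero (I : Finset (Fin n)) (hI : I.Nonempty) :
    LinearMap.trace ℝ (X n) (gamI I).toLinearMap = 0 := by
  set T : X n →ₗ[ℝ] X n := (gamI I).toLinearMap with hT
  rcases Nat.even_or_odd I.card with he | ho
  · obtain ⟨i, hi⟩ := hI
    set g : X n →ₗ[ℝ] X n := (gam i : X n →L[ℝ] X n).toLinearMap with hg
    have hmove : T ∘ₗ g = -(g ∘ₗ T) := by
      refine LinearMap.ext fun x => ?_
      show gamI I (gam i x) = -gam i (gamI I x)
      rw [star_gamI, star_move]
      have hlen : ((I.sort (· ≤ ·)).filter (· ≠ i)).length = I.card - 1 := by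
        have h1 : (I.sort (· ≤ ·)).filter (· ≠ i) = (I.sort (· ≤ ·)).erase i := by
          rw [List.Nodup.erase_eq_filter (Finset.sort_nodup _ _)]
          congr 1
          funext a
          by_cases h : a = i <;> simp [h]
        rw [h1, List.length_erase_of_mem ((Finset.mem_sort _).mpr hi), Finset.length_sort]
      rw [hlen]
      have hodd : Odd (I.card - 1) := by
        have hpos : 1 ≤ I.card := Finset.card_pos.mpr ⟨i, hi⟩
        obtain ⟨k, hk⟩ := he
        exact ⟨k - 1, by omega⟩
      rw [hodd.neg_one_pow]
      simp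
    have hsq : T = -(g ∘ₗ (g ∘ₗ T)) := by
      refine LinearMap.ext fun x => ?_
      show gamI I x = -gam i (gam i (gamI I x))
      rw [star_gam_sq]
      simp
    have h1 : LinearMap.trace ℝ (X n) T = -LinearMap.trace ℝ (X n) (g ∘ₗ (g ∘ₗ T)) := by
      conv_lhs => rw [hsq]
      rw [map_neg]
    have h2 : LinearMap.trace ℝ (X n) (g ∘ₗ (g ∘ₗ T)) = LinearMap.trace ℝ (X n) T := by
      rw [LinearMap.trace_comp_comm' (g ∘ₗ T) g, LinearMap.comp_assoc, hmove,
        LinearMap.comp_neg, map_neg]
      rw [h1]
    linarith
  · set P : X n →ₗ[ℝ] X n := (par : X n →L[ℝ] X n).toLinearMap with hP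
    have hpp : P ∘ₗ (P ∘ₗ T) = T := by
      refine LinearMap.ext fun x => ?_
      show par (par (gamI I x)) = gamI I x
      rw [par_par]
    have hpt : (P ∘ₗ T) ∘ₗ P = -T := by
      refine LinearMap.ext fun x => ?_
      show par (gamI I (par x)) = -gamI I x
      rw [star_par_gamI, par_par, ho.neg_one_pow]
      simp
    have h1 : LinearMap.trace ℝ (X n) T = LinearMap.trace ℝ (X n) (-T) := by
      conv_lhs => rw [← hpp]
      rw [LinearMap.trace_comp_comm' (P ∘ₗ T) P, hpt]
    rw [map_neg] at h1
    linarith

theorem trace_LX (x : X n) :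
    LinearMap.trace ℝ (X n) (LX x).toLinearMap = 2 ^ n * x ∅ := by
  have h1 : (LX x).toLinearMap = ∑ I, x I • (gamI I).toLinearMap := by
    refine LinearMap.ext fun y => ?_
    show LX x y = _
    rw [LX_apply, LinearMap.sum_apply]
    rfl
  rw [h1, map_sum, Finset.sum_eq_single (∅ : Finset (Fin n))]
  · rw [map_smul]
    have h2 : (gamI (∅ : Finset (Fin n))).toLinearMap = LinearMap.id := by
      refine LinearMap.ext fun y => ?_
      show gamI ∅ y = y
      rw [star_gamI]
      simp [star_G]
    rw [h2, LinearMap.trace_id]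
    have h3 : Module.finrank ℝ (X n) = 2 ^ n := by
      rw [finrank_euclideanSpace, Fintype.card_finset, Fintype.card_fin]
    rw [h3, smul_eq_mul]
    push_cast
    ring
  · intro I _ hI
    rw [map_smul, star_trace_zero I (Finset.nonempty_iff_ne_empty.mpr hI), smul_zero]
  · intro h
    exact absurd (Finset.mem_univ _) h

end ANCO
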