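import Pool.Agent.Helper39.Anco.Fock2
import Pool.Agent.Helper39.Anco.Cliff
import Pool.Agent.Helper39.Anco.Star

/-!
# Graded Clifford subalgebras have nonnegative Euler characteristic (module FAL)
-/

open scoped ContDiff Topology Manifold InnerProductSpace
open Set

set_option maxSynthPendingDepth 3

noncomputable section
namespace ANCO

variable {n : ℕ}

/-- the sign of the adjoint in degree `p` -/
def fal_s (p : ℕ) : ℝ := (-1) ^ (p * (p + 1) / 2)

theorem fal_s_mul (p : ℕ) : fal_s p * fal_s p = 1 := by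
  unfold fal_s
  rw [← pow_add, ← two_mul, pow_mul]
  norm_num

/-- inner product with the vacuum -/
theorem fal_vac (x : X n) : ⟪eX ∅, x⟫_ℝ = x ∅ := by
  unfold eX
  rw [EuclideanSpace.inner_single_left]
  simp

theorem fal_inner (p : ℕ) (x y : X n) (hx : prj p x = x) :
    ⟪x, y⟫_ℝ = fal_s p * (LX x y) ∅ := by
  have h := inner_LX p x hx (eX ∅) y
  rw [LX_vac, fal_vac] at h
  exact h

theorem fal_trace_mul (x y : X n) :
    LinearMap.trace ℝ (X n) ((LX x).toLinearMap * (LX y).toLinearMap) = 2 ^ n * (LX x y) ∅ := by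
  rw [← trace_LX]
  congr 1
  ext1 z
  exact (LX_mul x y z).symm

theorem fal_cyc (x y : X n) : (LX x y) ∅ = (LX y x) ∅ := by
  have h := LinearMap.trace_mul_comm ℝ (LX x).toLinearMap (LX y).toLinearMap
  rw [fal_trace_mul, fal_trace_mul] at h
  have h2 : (2:ℝ) ^ n ≠ 0 := by positivity
  exact mul_left_cancel₀ h2 h

variable (A : Submodule ℝ (X n))

/-- the graded pieces -/
abbrev falA (p : ℕ) : Submodule ℝ (X n) := A ⊓ LinearMap.range (prj p).toLinearMap

/-- index set of a homogeneous orthonormal basis -/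
abbrev FalI := (p : Fin (n + 1)) × Fin (Module.finrank ℝ (falA A p))

/-- homogeneous orthonormal basis -/
def falv (i : FalI A) : X n := (stdOrthonormalBasis ℝ (falA A i.1) i.2 : X n)

variable {A}

theorem falv_mem (i : FalI A) : falv A i ∈ A := (stdOrthonormalBasis ℝ (falA A i.1) i.2).2.1

theorem fal_range {p : ℕ} {x : X n} (hx : x ∈ LinearMap.range (prj (n := n) p).toLinearMap) :
    prj p x = x := by
  obtain ⟨y, rfl⟩ := hx
  change prj p (prj p y) = prj p y
  rw [prj_prj, if_pos rfl]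

theorem falv_prj (i : FalI A) : prj i.1 (falv A i) = falv A i :=
  fal_range (stdOrthonormalBasis ℝ (falA A i.1) i.2).2.2

theorem falv_inner (i : FalI A) : ⟪falv A i, falv A i⟫_ℝ = 1 := by
  have h := (stdOrthonormalBasis ℝ (falA A i.1)).orthonormal.1 i.2
  have h2 : ‖falv A i‖ = 1 := h
  rw [real_inner_self_eq_norm_sq, h2]
  norm_num

theorem falv_par (i : FalI A) : par (falv A i) = (-1 : ℝ) ^ (i.1 : ℕ) • falv A i := by
  conv_lhs => rw [← falv_prj i]
  rw [par_prj, falv_prj]

/-- expansion in the basis -/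
theorem falv_expand (hprj : ∀ p, ∀ x ∈ A, prj p x ∈ A) {x : X n} (hx : x ∈ A) :
    ∑ i : FalI A, ⟪falv A i, x⟫_ℝ • falv A i = x := by
  rw [Fintype.sum_sigma]
  have key : ∀ p : Fin (n + 1),
      ∑ k : Fin (Module.finrank ℝ (falA A p)), ⟪falv A ⟨p, k⟩, x⟫_ℝ • falv A ⟨p, k⟩ = prj p x := by
    intro p
    have hm : prj (p : ℕ) x ∈ falA A p := ⟨hprj p x hx, ⟨x, rfl⟩⟩
    have h := (stdOrthonormalBasis ℝ (falA A p)).sum_repr' ⟨prj p x, hm⟩
    have h2 := congrArg (Subtype.val) h
    rw [AddSubmonoidClass.coe_finsetSum] at h2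
    refine Eq.trans ?_ h2
    refine Finset.sum_congr rfl fun k _ => ?_
    change ⟪falv A ⟨p, k⟩, x⟫_ℝ • falv A ⟨p, k⟩ = ⟪falv A ⟨p, k⟩, prj p x⟫_ℝ • falv A ⟨p, k⟩
    rw [← inner_prj]
    have := falv_prj (A := A) ⟨p, k⟩
    simp only at this
    rw [this]
  rw [Finset.sum_congr rfl fun p _ => key p]
  rw [Fin.sum_univ_eq_sum_range (fun p => prj p x) (n + 1)]
  exact sum_prj x

/-- left multiplication operators -/
def falL (x : X n) : Module.End ℝ (X n) := (LX x).toLinearMap

theorem falL_apply (x y : X n) : falL x y = LX x y := rfl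

theorem falL_mul (x y : X n) : falL (LX x y) = falL x * falL y := by
  ext1 z
  exact LX_mul x y z

theorem falL_smul (c : ℝ) (x : X n) : falL (c • x) = c • falL x := by
  unfold falL
  rw [map_smul]
  rfl

theorem falL_sum {ι : Type*} (s : Finset ι) (f : ι → X n) :
    falL (∑ i ∈ s, f i) = ∑ i ∈ s, falL (f i) := by
  unfold falL
  rw [map_sum]
  ext1 z
  simp

/-- the (twisted) Casimir element -/
def falC (A : Submodule ℝ (X n)) (θ : FalI A → ℝ) : Module.End ℝ (X n) :=
  ∑ i : FalI A, (θ i * fal_s i.1) • (falL (falv A i) * falL (falv A i))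

theorem fal_coef (a : X n) (i j : FalI A) :
    fal_s i.1 * ⟪falv A j, LX (falv A i) a⟫_ℝ = fal_s j.1 * ⟪falv A i, LX a (falv A j)⟫_ℝ := by
  rw [fal_inner _ _ _ (falv_prj j), fal_inner _ _ _ (falv_prj i)]
  have e : (LX (falv A j) (LX (falv A i) a)) ∅ = (LX (falv A i) (LX a (falv A j))) ∅ := by
    rw [fal_cyc, LX_mul]
  rw [e]
  have h1 := fal_s_mul (i.1 : ℕ)
  have h2 := fal_s_mul (j.1 : ℕ)
  ring

theorem falC_comm (hmul : ∀ x ∈ A, ∀ y ∈ A, LX x y ∈ A) (hprj : ∀ p, ∀ x ∈ A, prj p x ∈ A)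
    (θ : FalI A → ℝ) (P : X n →ₗ[ℝ] X n) (hP : ∀ i, P (falv A i) = θ i • falv A i)
    (hPm : ∀ x y, P (LX x y) = LX (P x) (P y)) {a : X n} (ha : a ∈ A) :
    falC A θ * falL a = falL (P a) * falC A θ := by
  have h1 : falC A θ * falL a
      = ∑ i : FalI A, ∑ j : FalI A, (θ i * (fal_s i.1 * ⟪falv A j, LX (falv A i) a⟫_ℝ)) •
          (falL (falv A i) * falL (falv A j)) := by
    unfold falC
    rw [Finset.sum_mul]
    refine Finset.sum_congr rfl fun i _ => ?_
    rw [smul_mul_assoc, mul_assoc, ← falL_mul]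
    conv_lhs => rw [← falv_expand hprj (hmul _ (falv_mem i) _ ha)]
    rw [falL_sum, Finset.mul_sum, Finset.smul_sum]
    refine Finset.sum_congr rfl fun j _ => ?_
    rw [falL_smul, mul_smul_comm, smul_smul]
    congr 1
    ring
  have h2 : falL (P a) * falC A θ
      = ∑ j : FalI A, ∑ i : FalI A, (θ i * (fal_s j.1 * ⟪falv A i, LX a (falv A j)⟫_ℝ)) •
          (falL (falv A i) * falL (falv A j)) := by
    unfold falC
    rw [Finset.mul_sum]
    refine Finset.sum_congr rfl fun j _ => ?_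
    have e1 : falL (P a) * ((θ j * fal_s j.1) • (falL (falv A j) * falL (falv A j)))
        = fal_s j.1 • (falL (P (LX a (falv A j))) * falL (falv A j)) := by
      rw [hPm, hP, map_smul, falL_smul, falL_mul, mul_smul_comm, smul_mul_assoc, smul_smul,
        mul_comm (θ j), mul_assoc]
    rw [e1]
    conv_lhs => rw [← falv_expand hprj (hmul _ ha _ (falv_mem j))]
    rw [map_sum, falL_sum, Finset.sum_mul, Finset.smul_sum]
    refine Finset.sum_congr rfl fun i _ => ?_
    rw [map_smul, hP, falL_smul, falL_smul, smul_smul, smul_mul_assoc, smul_smul]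
    congr 1
    ring
  rw [h1, h2, Finset.sum_comm]
  refine Finset.sum_congr rfl fun j _ => Finset.sum_congr rfl fun i _ => ?_
  rw [fal_coef]

theorem falL_symm (i : FalI A) (x y : X n) :
    ⟪falL (falv A i) x, y⟫_ℝ = fal_s i.1 * ⟪x, falL (falv A i) y⟫_ℝ :=
  inner_LX _ _ (falv_prj i) x y

theorem falL2_symm (i : FalI A) (x y : X n) :
    ⟪falL (falv A i) (falL (falv A i) x), y⟫_ℝ = ⟪x, falL (falv A i) (falL (falv A i) y)⟫_ℝ := by
  rw [falL_symm, falL_symm, ← mul_assoc, fal_s_mul, one_mul]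

theorem falC_apply (θ : FalI A → ℝ) (x : X n) :
    falC A θ x = ∑ i : FalI A, (θ i * fal_s i.1) • falL (falv A i) (falL (falv A i) x) := by
  unfold falC
  simp

theorem falC_symm (θ : FalI A → ℝ) (x y : X n) : ⟪falC A θ x, y⟫_ℝ = ⟪x, falC A θ y⟫_ℝ := by
  rw [falC_apply, falC_apply, sum_inner, inner_sum]
  refine Finset.sum_congr rfl fun i _ => ?_
  rw [real_inner_smul_left, real_inner_smul_right, falL2_symm]

theorem falZ_inner (x : X n) :
    ⟪falC A (fun _ => 1) x, x⟫_ℝ = ∑ i : FalI A, ‖falL (falv A i) x‖ ^ 2 := by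
  rw [falC_apply, sum_inner]
  refine Finset.sum_congr rfl fun i _ => ?_
  rw [real_inner_smul_left, one_mul, falL_symm, ← mul_assoc, fal_s_mul, one_mul,
    real_inner_self_eq_norm_sq]

theorem falZ_pos (x : X n) : 0 ≤ ⟪falC A (fun _ => 1) x, x⟫_ℝ := by
  rw [falZ_inner]
  positivity

theorem falZ_inj (h1 : eX ∅ ∈ A) (hprj : ∀ p, ∀ x ∈ A, prj p x ∈ A) :
    Function.Injective (falC A (fun _ => 1)) := by
  rw [injective_iff_map_eq_zero]
  intro x hx
  have h := falZ_inner (A := A) x
  rw [hx, inner_zero_left] at h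
  have h2 : ∀ i : FalI A, falL (falv A i) x = 0 := by
    intro i
    have h3 := (Finset.sum_eq_zero_iff_of_nonneg (fun i _ => by positivity)).mp h.symm i
      (Finset.mem_univ i)
    exact norm_eq_zero.mp (pow_eq_zero_iff (two_ne_zero) |>.mp h3)
  have h3 : falL (eX ∅) x = x := LX_one x
  rw [← falv_expand hprj h1, falL_sum] at h3
  rw [← h3, LinearMap.sum_apply]
  refine Finset.sum_eq_zero fun i _ => ?_
  rw [falL_smul, LinearMap.smul_apply, h2, smul_zero]

theorem fal_trace_nonneg (T : Module.End ℝ (X n)) (hT : ∀ x, 0 ≤ ⟪x, T x⟫_ℝ) :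
    0 ≤ LinearMap.trace ℝ (X n) T := by
  rw [LinearMap.trace_eq_sum_inner T (stdOrthonormalBasis ℝ (X n))]
  exact Finset.sum_nonneg fun i _ => hT _

theorem falC_trace (θ : FalI A → ℝ) :
    LinearMap.trace ℝ (X n) (falC A θ) = 2 ^ n * ∑ i : FalI A, θ i := by
  unfold falC
  rw [map_sum, Finset.mul_sum]
  refine Finset.sum_congr rfl fun i _ => ?_
  rw [map_smul]
  have h := fal_trace_mul (falv A i) (falv A i)
  have h2 := fal_inner _ _ (falv A i) (falv_prj i)
  rw [falv_inner] at h2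
  change (θ i * fal_s i.1) • LinearMap.trace ℝ (X n)
    ((LX (falv A i)).toLinearMap * (LX (falv A i)).toLinearMap) = _
  rw [h, smul_eq_mul]
  calc θ i * fal_s i.1 * (2 ^ n * (LX (falv A i) (falv A i)) ∅)
      = 2 ^ n * θ i * (fal_s i.1 * (LX (falv A i) (falv A i)) ∅) := by ring
    _ = 2 ^ n * θ i := by rw [← h2, mul_one]

theorem fal (A : Submodule ℝ (X n)) (h1 : eX ∅ ∈ A) (hmul : ∀ x ∈ A, ∀ y ∈ A, LX x y ∈ A)
    (hprj : ∀ p, ∀ x ∈ A, prj p x ∈ A) :
    (0 : ℤ) ≤ ∑ p ∈ Finset.range (n + 1),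
      (-1) ^ p * (Module.finrank ℝ (A ⊓ LinearMap.range (prj p).toLinearMap : Submodule ℝ (X n)) : ℤ) := by
  set ε : FalI A → ℝ := fun i => (-1) ^ (i.1 : ℕ) with hε
  set Z := falC A (fun _ => 1) with hZ
  set C := falC A ε with hC
  have hinj : Function.Injective Z := falZ_inj h1 hprj
  have hbij : Function.Bijective Z := ⟨hinj, LinearMap.injective_iff_surjective.mp hinj⟩
  let eZ := LinearEquiv.ofBijective Z hbij
  let W : Module.End ℝ (X n) := eZ.symm.toLinearMap
  have hWZ : W * Z = 1 := by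
    ext1 x
    exact eZ.symm_apply_apply x
  have hZW : Z * W = 1 := by
    ext1 x
    exact eZ.apply_symm_apply x
  have hZcomm : ∀ a ∈ A, Z * falL a = falL a * Z := fun a ha =>
    falC_comm hmul hprj (fun _ => 1) LinearMap.id (fun i => by simp) (fun x y => by simp) ha
  have hCcomm : ∀ i : FalI A, C * falL (falv A i) = ε i • (falL (falv A i) * C) := by
    intro i
    have h := falC_comm hmul hprj ε (par (n := n)).toLinearMap (fun i => falv_par i)
      (fun x y => par_LX x y) (falv_mem i)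
    rw [h]
    have e : (par (n := n)).toLinearMap (falv A i) = ε i • falv A i := falv_par i
    rw [e, falL_smul, smul_mul_assoc]
  have hWcomm : ∀ a ∈ A, W * falL a = falL a * W := by
    intro a ha
    calc W * falL a = W * falL a * (Z * W) := by rw [hZW, mul_one]
      _ = W * (falL a * Z) * W := by simp only [mul_assoc]
      _ = W * (Z * falL a) * W := by rw [hZcomm a ha]
      _ = (W * Z) * falL a * W := by simp only [mul_assoc]
      _ = falL a * W := by rw [hWZ, one_mul]
  have hWC : W * C = C * W := by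
    rw [hC]
    unfold falC
    rw [Finset.mul_sum, Finset.sum_mul]
    refine Finset.sum_congr rfl fun i _ => ?_
    rw [mul_smul_comm, smul_mul_assoc, ← mul_assoc, hWcomm _ (falv_mem i), mul_assoc,
      hWcomm _ (falv_mem i), mul_assoc]
  have hεε : ∀ i, ε i * ε i = 1 := by
    intro i
    rw [hε]
    simp only
    rw [← pow_add, ← two_mul, pow_mul]
    norm_num
  -- the trace identity
  have htr : LinearMap.trace ℝ (X n) (W * C * C) = LinearMap.trace ℝ (X n) C := by
    have s1 : W * C * C = ∑ i : FalI A, (ε i * fal_s i.1) •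
        (W * C * falL (falv A i) * falL (falv A i)) := by
      conv_lhs => rw [hC]
      unfold falC
      rw [Finset.mul_sum]
      refine Finset.sum_congr rfl fun i _ => ?_
      rw [mul_smul_comm, mul_assoc (W * _)]
      rfl
    have s2 : ∀ i : FalI A, LinearMap.trace ℝ (X n)
        ((ε i * fal_s i.1) • (W * C * falL (falv A i) * falL (falv A i)))
        = LinearMap.trace ℝ (X n) (W * ((1 * fal_s i.1) • (falL (falv A i) * falL (falv A i))) * C) := by
      intro i
      rw [map_smul, LinearMap.trace_mul_comm]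
      have e : falL (falv A i) * (W * C * falL (falv A i))
          = ε i • (W * (falL (falv A i) * falL (falv A i)) * C) := by
        rw [mul_assoc W, hCcomm, mul_smul_comm, mul_smul_comm, ← mul_assoc, ← hWcomm _ (falv_mem i)]
        simp only [mul_assoc]
      rw [e, map_smul, smul_smul, mul_smul_comm, smul_mul_assoc, map_smul]
      congr 1
      calc ε i * fal_s i.1 * ε i = (ε i * ε i) * fal_s i.1 := by ring
        _ = 1 * fal_s i.1 := by rw [hεε]
    rw [s1, map_sum, Finset.sum_congr rfl fun i _ => s2 i, ← map_sum, ← Finset.sum_mul,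
      ← Finset.mul_sum]
    have e : ∑ i : FalI A, (1 * fal_s i.1) • (falL (falv A i) * falL (falv A i)) = Z := rfl
    rw [e, hWZ, one_mul]
  have hpos : 0 ≤ LinearMap.trace ℝ (X n) (W * C * C) := by
    apply fal_trace_nonneg
    intro x
    have e : (W * C * C) x = C (W (C x)) := by
      rw [hWC]
      rfl
    rw [e, ← falC_symm]
    have e2 : C x = Z (W (C x)) := (LinearMap.congr_fun hZW (C x)).symm
    calc (0:ℝ) ≤ ⟪Z (W (C x)), W (C x)⟫_ℝ := falZ_pos _
      _ = ⟪C x, W (C x)⟫_ℝ := by rw [← e2]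
  rw [htr, hC, falC_trace] at hpos
  have hsum : (0:ℝ) ≤ ∑ i : FalI A, ε i := by
    have h2 : (0:ℝ) < 2 ^ n := by positivity
    exact nonneg_of_mul_nonneg_right hpos h2
  rw [Fintype.sum_sigma] at hsum
  have e : ∀ p : Fin (n + 1), ∑ k : Fin (Module.finrank ℝ (falA A p)), ε ⟨p, k⟩
      = (-1) ^ (p : ℕ) * (Module.finrank ℝ (falA A p) : ℝ) := by
    intro p
    rw [hε]
    simp [mul_comm]
  rw [Finset.sum_congr rfl fun p _ => e p, Fin.sum_univ_eq_sum_range
    (fun p => (-1 : ℝ) ^ p * (Module.finrank ℝ (falA A p) : ℝ)) (n + 1)] at hsum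
  have h3 : ((0:ℤ):ℝ) ≤ ((∑ p ∈ Finset.range (n + 1), (-1) ^ p *
      (Module.finrank ℝ (A ⊓ LinearMap.range (prj p).toLinearMap : Submodule ℝ (X n)) : ℤ) : ℤ) : ℝ) := by
    push_cast
    exact hsum
  exact_mod_cast h3

end ANCO
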