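import Pool.Agent.Helper39.Anco.Mkt
import Pool.Agent.Helper39.Anco.Tang

/-! ANCO module GP: natural nonlinear operations on total forms. -/

open scoped ContDiff Topology Manifold InnerProductSpace
open Set MeasureTheory Filter

set_option maxSynthPendingDepth 3

noncomputable section
namespace ANCO

variable {n : ℕ} {M : Type} [TopologicalSpace M] [ChartedSpace (E n) M]

theorem gp [IsManifold (𝓡 n) ∞ M] (g : RMetric n M) (Ψ : X n × X n → X n) (hΨ : ContDiff ℝ ∞ Ψ)
    (heq : ∀ k, IsOrth k → ∀ x y, Ψ (rho k x, rho k y) = rho k (Ψ (x, y)))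
    {s t : M → E n → X n} (hs : s ∈ TForm n M) (ht : t ∈ TForm n M) :
    ∃ u ∈ TForm n M, (∀ x, val g u x = Ψ (val g s x, val g t x)) ∧
      ∀ x i, nab g u x i = fderiv ℝ Ψ (val g s x, val g t x) (nab g s x i, nab g t x i) := by
  have hlift : ∀ {r : M → E n → X n}, r ∈ TForm n M → ∀ x,
      ContDiffOn ℝ ∞ (fun y => lift (r x) (y, Bf g x y)) (tgt n M x) := by
    intro r hr x
    exact (rho_contDiff.comp_contDiffOn (Bf_spec g x).1).clm_apply (hr.2.1 x)
  obtain ⟨u, hu, hK⟩ := mkT g (fun x z => Ψ (lift (s x) z, lift (t x) z))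
    (fun x x' y hy b _ => by
      rw [valch_nat hs (z := (y, b)) hy, valch_nat ht (z := (y, b)) hy])
    (fun x y _ b k _ hk => by
      have h1 : ∀ r : M → E n → X n, lift (r x) (y, b ∘L k) = rho k (lift (r x) (y, b)) := by
        intro r
        show rho (b ∘L k) (r x y) = rho k (rho b (r x y))
        rw [rho_comp]
      rw [h1 s, h1 t, heq k hk])
    (fun x => hΨ.comp_contDiffOn ((hlift hs x).prodMk (hlift ht x)))
  refine ⟨u, hu, fun x => hK x _ (closc_ctr x) _ (closc_iso g x), fun x i => ?_⟩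
  have hds := closc_lift_diff g hs x
  have hdt := closc_lift_diff g ht x
  have hΨd : HasFDerivAt Ψ (fderiv ℝ Ψ (lift (s x) (fr g x), lift (t x) (fr g x)))
      (lift (s x) (fr g x), lift (t x) (fr g x)) :=
    (hΨ.contDiffAt.differentiableAt (by simp)).hasFDerivAt
  have h1 : HasFDerivAt (fun z => Ψ (lift (s x) z, lift (t x) z))
      ((fderiv ℝ Ψ (lift (s x) (fr g x), lift (t x) (fr g x))) ∘L
        ((fderiv ℝ (lift (s x)) (fr g x)).prod (fderiv ℝ (lift (t x)) (fr g x)))) (fr g x) :=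
    hΨd.comp (fr g x) (hds.hasFDerivAt.prodMk hdt.hasFDerivAt)
  have h2 : nab g u x i = Hd (g.g x) (e i) (fun z => Ψ (lift (s x) z, lift (t x) z)) (fr g x) := by
    rw [nab]
    exact Hd_eq_of_iso (g.isMet x) (closc_ctr x) (closc_iso g x) (closc_lift_diff g hu x)
      h1.differentiableAt (fun z' hz hiso => hK x z'.1 hz z'.2 hiso) (e i)
  rw [h2, Hd, h1.fderiv]
  rfl

end ANCO
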