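import Pool.Agent.Helper39.Anco.PkgDefs
import Pool.Agent.Helper39.Anco.Fock1
import Pool.Agent.Helper39.Anco.Fock2
import Pool.Agent.Helper39.Anco.Rho
import Pool.Agent.Helper39.Anco.RhoO

open scoped ContDiff Topology InnerProductSpace
open Set MeasureTheory

set_option maxSynthPendingDepth 3

noncomputable section
namespace ANCO

variable {n : ℕ} {κ c : ℝ}

/-! ## K1 : basic inequalities -/

theorem Pkg.k1_integrable (P : Pkg n κ c) {f : P.M → ℝ} (hf : Continuous f) : Integrable f P.μ :=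
  hf.integrable_of_hasCompactSupport (HasCompactSupport.of_compactSpace f)

theorem Pkg.k1_cont_Q (P : Pkg n κ c) (s : P.V) : Continuous fun x => ∑ i, ‖P.nab s x i‖ ^ 2 := by
  have h := P.cont_nab s s
  simp only [real_inner_self_eq_norm_sq] at h
  exact h

theorem Pkg.k1_cont_val (P : Pkg n κ c) (s : P.V) : Continuous fun x => ‖P.val s x‖ ^ 2 := by
  have h := P.cont_ip s s
  simp only [real_inner_self_eq_norm_sq] at h
  exact h

theorem Pkg.k1_B_self (P : Pkg n κ c) (s : P.V) : P.C.B s s = ∫ x, ‖P.val s x‖ ^ 2 ∂P.μ := by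
  rw [P.B_eq]
  simp only [real_inner_self_eq_norm_sq]

theorem Pkg.B_nonneg (P : Pkg n κ c) (s : P.V) : 0 ≤ P.C.B s s := by
  rw [P.k1_B_self]
  exact integral_nonneg fun x => by positivity

theorem Pkg.Q_nonneg (P : Pkg n κ c) (s : P.V) : 0 ≤ P.Q s :=
  integral_nonneg fun x => by positivity

theorem Pkg.Q_add (P : Pkg n κ c) (s t : P.V) : P.Q (s + t) ≤ 2 * P.Q s + 2 * P.Q t := by
  unfold Pkg.Q
  rw [← integral_const_mul, ← integral_const_mul, ← integral_add
    ((P.k1_integrable (P.k1_cont_Q s)).const_mul 2) ((P.k1_integrable (P.k1_cont_Q t)).const_mul 2)]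
  refine integral_mono (P.k1_integrable (P.k1_cont_Q _))
    (((P.k1_integrable (P.k1_cont_Q s)).const_mul 2).add
      ((P.k1_integrable (P.k1_cont_Q t)).const_mul 2)) fun x => ?_
  simp only [Finset.mul_sum, Pi.add_apply, map_add]
  rw [← Finset.sum_add_distrib]
  refine Finset.sum_le_sum fun i _ => ?_
  have h1 := norm_add_le (P.nab s x i) (P.nab t x i)
  have h2 : 0 ≤ ‖P.nab s x i + P.nab t x i‖ := norm_nonneg _
  nlinarith [sq_nonneg (‖P.nab s x i‖ - ‖P.nab t x i‖)]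

theorem Pkg.BD_eq (P : Pkg n κ c) (s : P.V) :
    P.C.B (P.C.D s) (P.C.D s) = P.C.B (P.C.d s) (P.C.d s) + P.C.B (P.C.de s) (P.C.de s) := by
  have h1 : P.C.B (P.C.d s) (P.C.de s) = 0 := by
    rw [← P.C.adj, P.C.d_d, map_zero, LinearMap.zero_apply]
  have h2 : P.C.B (P.C.de s) (P.C.d s) = 0 := by rw [P.C.symm, h1]
  simp only [GrCplx.D, LinearMap.add_apply, map_add, h1, h2]
  ring

theorem k1_norm_sum {m : ℕ} (a : Fin m → X n) (b : Fin m → ℝ) (h : ∀ i, ‖a i‖ ≤ b i) :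
    ‖∑ i, a i‖ ^ 2 ≤ m * ∑ i, b i ^ 2 := by
  have h1 : ‖∑ i, a i‖ ≤ ∑ i, b i := (norm_sum_le _ _).trans (Finset.sum_le_sum fun i _ => h i)
  have h2 : (∑ i, b i) ^ 2 ≤ (Finset.univ : Finset (Fin m)).card * ∑ i, b i ^ 2 :=
    sq_sum_le_card_mul_sum_sq
  rw [Finset.card_univ, Fintype.card_fin] at h2
  exact (pow_le_pow_left₀ (norm_nonneg _) h1 2).trans h2

theorem Pkg.k1_Bd_le (P : Pkg n κ c) (s : P.V) : P.C.B (P.C.d s) (P.C.d s) ≤ n * P.Q s := by
  rw [P.k1_B_self]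
  unfold Pkg.Q
  rw [← integral_const_mul]
  refine integral_mono (P.k1_integrable (P.k1_cont_val _))
    ((P.k1_integrable (P.k1_cont_Q s)).const_mul _) fun x => ?_
  simp only [P.val_d]
  exact k1_norm_sum _ _ fun i => norm_eps_le i _

theorem Pkg.k1_Bde_le (P : Pkg n κ c) (s : P.V) : P.C.B (P.C.de s) (P.C.de s) ≤ n * P.Q s := by
  rw [P.k1_B_self]
  unfold Pkg.Q
  rw [← integral_const_mul]
  refine integral_mono (P.k1_integrable (P.k1_cont_val _))
    ((P.k1_integrable (P.k1_cont_Q s)).const_mul _) fun x => ?_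
  simp only [P.val_de, norm_neg]
  exact k1_norm_sum _ _ fun i => norm_iota_le i _

theorem Pkg.BD_le (P : Pkg n κ c) (s : P.V) : P.C.B (P.C.D s) (P.C.D s) ≤ 2 * n * P.Q s := by
  rw [P.BD_eq]
  have h1 := P.k1_Bd_le s
  have h2 := P.k1_Bde_le s
  linarith

theorem Pkg.Q_le (P : Pkg n κ c) (s : P.V) :
    P.Q s ≤ P.C.B (P.C.D s) (P.C.D s) + κ * P.C.B s s := by
  rw [P.BD_eq]
  exact P.weitz s

theorem k1_norm_eX (I : Finset (Fin n)) : ‖(eX I : X n)‖ = 1 := by
  simp [eX]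

/-- there is a constant section `1` -/
theorem Pkg.exists_one (P : Pkg n κ c) : ∃ o : P.V, (∀ x, P.val o x = eX ∅) ∧ (∀ x i, P.nab o x i = 0)
    ∧ P.C.D o = 0 ∧ P.C.B o o = 1 := by
  obtain ⟨o, ho1, ho2⟩ := P.gp (fun _ => eX ∅) contDiff_const
    (fun k _ _ _ => (rho_vac k).symm) 0 0
  have ho3 : ∀ x i, P.nab o x i = 0 := fun x i => by
    rw [ho2, fderiv_fun_const]
    simp
  refine ⟨o, ho1, ho3, ?_, ?_⟩
  · apply P.val_inj
    rw [map_zero]
    funext x
    have h1 : P.val (P.C.D o) x = P.val (P.C.d o) x + P.val (P.C.de o) x := by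
      rw [GrCplx.D, LinearMap.add_apply, map_add, Pi.add_apply]
    rw [h1, P.val_d, P.val_de]
    simp [ho3]
  · rw [P.k1_B_self]
    simp only [ho1, k1_norm_eX]
    simp

/-- a continuous nonnegative function is `≤` its mean somewhere -/
theorem Pkg.exists_le_mean (P : Pkg n κ c) (f : P.M → ℝ) (hf : Continuous f) :
    ∃ x, f x ≤ ∫ x, f x ∂P.μ :=
  exists_le_integral (P.k1_integrable hf)

end ANCO
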