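import Pool.Agent.Helper39.Anco.K1

open scoped ContDiff Topology InnerProductSpace
open Set MeasureTheory

set_option maxSynthPendingDepth 3

noncomputable section
namespace ANCO

variable {n : ℕ} {κ c : ℝ}

/-! ## K2 : the truncation -/

theorem k2_pos (x : X n) : 0 < 1 + ‖x‖ ^ 2 := by positivity

theorem psi_smooth : ContDiff ℝ ∞ (psi : X n → X n) := by
  unfold psi
  have h1 : ContDiff ℝ ∞ (fun x : X n => 1 + ‖x‖ ^ 2) := contDiff_const.add (contDiff_norm_sq ℝ)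
  have h2 : ContDiff ℝ ∞ (fun x : X n => 2 / (1 + ‖x‖ ^ 2)) :=
    ContDiff.div contDiff_const h1 fun x => (k2_pos x).ne'
  exact h2.smul contDiff_id

theorem psi_norm (x : X n) : ‖psi x‖ ≤ 1 := by
  have h := k2_pos x
  unfold psi
  rw [norm_smul, Real.norm_of_nonneg (by positivity), div_mul_eq_mul_div, div_le_one h]
  nlinarith [sq_nonneg (‖x‖ - 1)]

theorem k2_hasFDerivAt_normsq (x : X n) :
    HasFDerivAt (fun y : X n => 1 + ‖y‖ ^ 2) (2 • innerSL ℝ x) x := by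
  have h := (hasStrictFDerivAt_norm_sq (F := X n) x).hasFDerivAt
  exact (hasFDerivAt_const_add_iff _).2 h

theorem k2_fderiv_psi (x h : X n) : fderiv ℝ psi x h =
    (2 / (1 + ‖x‖ ^ 2)) • h - (4 * ⟪x, h⟫_ℝ / (1 + ‖x‖ ^ 2) ^ 2) • x := by
  have h1 := k2_hasFDerivAt_normsq x
  have h0 := k2_pos x
  have h2 := (hasDerivAt_inv h0.ne').comp_hasFDerivAt x h1
  have h3 := (h2.const_mul 2).smul (hasFDerivAt_id x)
  have h4 : (psi : X n → X n) =
      ((fun y : X n => 2 * ((fun x : ℝ => x⁻¹) ∘ fun y : X n => 1 + ‖y‖ ^ 2) y) • id) := by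
    funext y
    simp only [psi, div_eq_mul_inv, Function.comp_apply, id, Pi.smul_apply']
  have h5 := h3
  rw [← h4] at h5
  rw [h5.fderiv]
  simp only [add_apply, smul_apply,
    ContinuousLinearMap.smulRight_apply, id_eq, ContinuousLinearMap.id_apply, nsmul_eq_mul,
    innerSL_apply_apply, Function.comp_apply]
  rw [sub_eq_add_neg, ← neg_smul, div_eq_mul_inv 2]
  congr 2
  simp only [smul_eq_mul]
  push_cast
  ring

theorem psi_fderiv (x h : X n) : ‖fderiv ℝ psi x h‖ ≤ 3 * ‖h‖ := by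
  rw [k2_fderiv_psi]
  have h0 := k2_pos x
  have h1 : ‖(2 / (1 + ‖x‖ ^ 2)) • h‖ = 2 / (1 + ‖x‖ ^ 2) * ‖h‖ := by
    rw [norm_smul, Real.norm_of_nonneg (by positivity)]
  have h2 : ‖(4 * ⟪x, h⟫_ℝ / (1 + ‖x‖ ^ 2) ^ 2) • x‖ ≤
      4 * ‖x‖ ^ 2 / (1 + ‖x‖ ^ 2) ^ 2 * ‖h‖ := by
    rw [norm_smul, norm_div, norm_mul, Real.norm_of_nonneg (show (0 : ℝ) ≤ 4 by norm_num),
      Real.norm_of_nonneg (show (0 : ℝ) ≤ (1 + ‖x‖ ^ 2) ^ 2 by positivity)]
    have h3 : ‖⟪x, h⟫_ℝ‖ ≤ ‖x‖ * ‖h‖ := norm_inner_le_norm x h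
    have h4 : 4 * ‖⟪x, h⟫_ℝ‖ / (1 + ‖x‖ ^ 2) ^ 2 * ‖x‖ ≤
        4 * (‖x‖ * ‖h‖) / (1 + ‖x‖ ^ 2) ^ 2 * ‖x‖ := by gcongr
    refine h4.trans (le_of_eq ?_)
    ring
  have h5 : 2 / (1 + ‖x‖ ^ 2) + 4 * ‖x‖ ^ 2 / (1 + ‖x‖ ^ 2) ^ 2 ≤ 3 := by
    have h6 : 2 / (1 + ‖x‖ ^ 2) + 4 * ‖x‖ ^ 2 / (1 + ‖x‖ ^ 2) ^ 2 =
        (2 * (1 + ‖x‖ ^ 2) + 4 * ‖x‖ ^ 2) / (1 + ‖x‖ ^ 2) ^ 2 := by
      field_simp
    rw [h6, div_le_iff₀ (by positivity)]
    nlinarith [sq_nonneg (‖x‖ ^ 2), sq_nonneg ‖x‖]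
  have h7 := norm_sub_le ((2 / (1 + ‖x‖ ^ 2)) • h) ((4 * ⟪x, h⟫_ℝ / (1 + ‖x‖ ^ 2) ^ 2) • x)
  have h8 := mul_le_mul_of_nonneg_right h5 (norm_nonneg h)
  rw [h1] at h7
  nlinarith

theorem k2_norm_rho (k : E n →L[ℝ] E n) (hk : IsOrth k) (x : X n) : ‖rho k x‖ = ‖x‖ := by
  have h := inner_rho k hk x x
  rw [real_inner_self_eq_norm_sq, real_inner_self_eq_norm_sq] at h
  exact (pow_left_inj₀ (norm_nonneg _) (norm_nonneg _) two_ne_zero).1 h

theorem psi_rho (k : E n →L[ℝ] E n) (hk : IsOrth k) (x : X n) : psi (rho k x) = rho k (psi x) := by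
  unfold psi
  rw [k2_norm_rho k hk, map_smul]

theorem psi_sub (x : X n) : ‖x - psi x‖ ≤ 2 * |Real.sqrt (1 + ‖x‖ ^ 2) - Real.sqrt 2| := by
  set r := ‖x‖ with hr
  have hr0 : 0 ≤ r := norm_nonneg x
  have h0 : 0 < 1 + r ^ 2 := by positivity
  have h1 : x - psi x = ((r ^ 2 - 1) / (1 + r ^ 2)) • x := by
    unfold psi
    rw [← hr]
    nth_rewrite 1 [← one_smul ℝ x]
    rw [← sub_smul]
    congr 1
    field_simp
    ring
  rw [h1, norm_smul, ← hr, norm_div, Real.norm_of_nonneg h0.le, Real.norm_eq_abs]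
  set s := Real.sqrt (1 + r ^ 2) with hs
  set t := Real.sqrt 2 with ht
  have hs0 : 0 < s := Real.sqrt_pos.2 h0
  have ht0 : 0 < t := Real.sqrt_pos.2 (by norm_num)
  have hs2 : s ^ 2 = 1 + r ^ 2 := Real.sq_sqrt h0.le
  have ht2 : t ^ 2 = 2 := Real.sq_sqrt (by norm_num)
  have h2 : r ^ 2 - 1 = (s - t) * (s + t) := by nlinarith
  rw [h2, abs_mul, abs_of_pos (show 0 < s + t by linarith), div_mul_eq_mul_div,
    div_le_iff₀ h0]
  have h3 : (s + t) * r ≤ 2 * (1 + r ^ 2) := by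
    nlinarith [sq_nonneg (s - r), sq_nonneg (t - r)]
  nlinarith [abs_nonneg (s - t), mul_le_mul_of_nonneg_left h3 (abs_nonneg (s - t))]

theorem k2_fderiv_fst {g : X n → X n} (hg : Differentiable ℝ g) (a b h k : X n) :
    fderiv ℝ (fun p : X n × X n => g p.1) (a, b) (h, k) = fderiv ℝ g a h := by
  have h1 : HasFDerivAt (fun p : X n × X n => g p.1)
      ((fderiv ℝ g a) ∘L (ContinuousLinearMap.fst ℝ (X n) (X n))) (a, b) := by
    have h2 : HasFDerivAt g (fderiv ℝ g a) ((a, b) : X n × X n).1 := (hg a).hasFDerivAt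
    exact h2.comp (a, b) hasFDerivAt_fst
  rw [h1.fderiv]
  rfl

/-- the function `√(1 + ‖s‖²)` as a section -/
theorem Pkg.k2_exists_F (P : Pkg n κ c) (s : P.V) :
    ∃ f : P.V, P.C.pr 0 f = f ∧ (∀ x, P.val f x ∅ = Real.sqrt (1 + ‖P.val s x‖ ^ 2)) ∧
      P.Q f ≤ P.Q s := by
  set g : X n → X n := fun x => Real.sqrt (1 + ‖x‖ ^ 2) • eX ∅ with hg
  have hgs : ContDiff ℝ ∞ g := by
    have h1 : ContDiff ℝ ∞ (fun x : X n => 1 + ‖x‖ ^ 2) := contDiff_const.add (contDiff_norm_sq ℝ)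
    exact (h1.sqrt fun x => (k2_pos x).ne').smul contDiff_const
  have hgd : Differentiable ℝ g := hgs.differentiable (by simp)
  obtain ⟨f, hf1, hf2⟩ := P.gp (fun p => g p.1) (hgs.comp contDiff_fst)
    (fun k hk x y => by
      simp only [hg]
      rw [k2_norm_rho k hk, map_smul, rho_vac]) s s
  have hder : ∀ x h, fderiv ℝ g x h = (⟪x, h⟫_ℝ / Real.sqrt (1 + ‖x‖ ^ 2)) • eX ∅ := by
    intro x h
    have h1 := k2_hasFDerivAt_normsq x
    have h2 := (h1.sqrt (k2_pos x).ne').smul_const (eX ∅ : X n)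
    rw [hg, h2.fderiv]
    simp only [ContinuousLinearMap.smulRight_apply, smul_apply,
      innerSL_apply_apply, nsmul_eq_mul, smul_eq_mul]
    congr 1
    push_cast
    field_simp
  refine ⟨f, ?_, ?_, ?_⟩
  · apply P.val_inj
    funext x
    rw [P.val_pr, hf1, hg]
    simp only [map_smul, prj_eX, Finset.card_empty, if_true]
  · intro x
    rw [hf1, hg]
    simp [eX]
  · unfold Pkg.Q
    refine integral_mono (P.k1_integrable (P.k1_cont_Q _)) (P.k1_integrable (P.k1_cont_Q _))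
      fun x => ?_
    refine Finset.sum_le_sum fun i _ => ?_
    rw [hf2, k2_fderiv_fst hgd, hder, norm_smul, k1_norm_eX, mul_one]
    set v := P.val s x
    set h := P.nab s x i
    have h3 : ‖⟪v, h⟫_ℝ‖ ≤ ‖v‖ * ‖h‖ := norm_inner_le_norm v h
    have h4 : ‖v‖ ≤ Real.sqrt (1 + ‖v‖ ^ 2) := Real.le_sqrt_of_sq_le (by linarith)
    have h5 : 0 < Real.sqrt (1 + ‖v‖ ^ 2) := Real.sqrt_pos.2 (k2_pos v)
    have h6 : ‖⟪v, h⟫_ℝ / Real.sqrt (1 + ‖v‖ ^ 2)‖ ≤ ‖h‖ := by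
      rw [norm_div, Real.norm_of_nonneg h5.le, div_le_iff₀ h5]
      nlinarith [norm_nonneg h]
    exact pow_le_pow_left₀ (norm_nonneg _) h6 2

/-- truncated section: close to the original one -/
theorem Pkg.trunc (P : Pkg n κ c) (hc : 0 < c) (s : P.V) (hs : P.C.B s s = 1) (hQ : P.Q s ≤ c) :
    ∃ u : P.V, (∀ x, P.val u x = psi (P.val s x)) ∧ P.Q u ≤ 9 * P.Q s ∧
      P.C.B (s - u) (s - u) ≤ 8 * P.Q s / c := by
  have hps : Differentiable ℝ (psi : X n → X n) := psi_smooth.differentiable (by simp)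
  obtain ⟨u, hu1, hu2⟩ := P.gp (fun p => psi p.1) (psi_smooth.comp contDiff_fst)
    (fun k hk x y => psi_rho k hk x) s s
  refine ⟨u, hu1, ?_, ?_⟩
  · unfold Pkg.Q
    rw [← integral_const_mul]
    refine integral_mono (P.k1_integrable (P.k1_cont_Q _))
      ((P.k1_integrable (P.k1_cont_Q _)).const_mul _) fun x => ?_
    simp only [Finset.mul_sum]
    refine Finset.sum_le_sum fun i _ => ?_
    rw [hu2, k2_fderiv_fst hps]
    have h1 := psi_fderiv (P.val s x) (P.nab s x i)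
    have h2 := pow_le_pow_left₀ (norm_nonneg _) h1 2
    nlinarith
  · obtain ⟨f, hf1, hf2, hf3⟩ := P.k2_exists_F s
    have hp := P.poinc f hf1
    simp only [hf2] at hp
    have hp' : c * ∫ x, (Real.sqrt (1 + ‖P.val s x‖ ^ 2) -
        ∫ x, Real.sqrt (1 + ‖P.val s x‖ ^ 2) ∂P.μ) ^ 2 ∂P.μ ≤ P.Q s := hp.trans hf3
    set F : P.M → ℝ := fun x => Real.sqrt (1 + ‖P.val s x‖ ^ 2) with hF
    have hFc : Continuous F := (continuous_const.add (P.k1_cont_val s)).sqrt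
    have hF2 : ∀ x, F x ^ 2 = 1 + ‖P.val s x‖ ^ 2 := fun x => Real.sq_sqrt (k2_pos _).le
    have hF0 : ∀ x, 0 ≤ F x := fun x => Real.sqrt_nonneg _
    set m : ℝ := ∫ x, F x ∂P.μ with hm
    have hm0 : 0 ≤ m := integral_nonneg hF0
    have hi1 : Integrable F P.μ := P.k1_integrable hFc
    have hi2 : Integrable (fun x => F x ^ 2) P.μ := P.k1_integrable (hFc.pow 2)
    have hI2 : ∫ x, F x ^ 2 ∂P.μ = 2 := by
      simp only [hF2]
      rw [integral_add (integrable_const _) (P.k1_integrable (P.k1_cont_val s)), ← P.k1_B_self, hs]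
      simp
      norm_num
    have hexp : ∀ a : ℝ, ∫ x, (F x - a) ^ 2 ∂P.μ = 2 - 2 * a * m + a ^ 2 := by
      intro a
      have h1 : ∀ x, (F x - a) ^ 2 = F x ^ 2 - 2 * a * F x + a ^ 2 := fun x => by ring
      simp only [h1]
      have h2 : Integrable (fun x => F x ^ 2 - 2 * a * F x) P.μ := hi2.sub (hi1.const_mul _)
      rw [integral_add h2 (integrable_const _),
        integral_sub hi2 (hi1.const_mul _), integral_const_mul, hI2]
      simp [hm]
    have hvar : c * (2 - m ^ 2) ≤ P.Q s := by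
      have h1 := hexp m
      have h2 : ∫ x, (F x - m) ^ 2 ∂P.μ = 2 - m ^ 2 := by rw [h1]; ring
      rw [← h2]
      exact hp'
    have hvar0 : 0 ≤ 2 - m ^ 2 := by
      have h1 := hexp m
      have h2 : 0 ≤ ∫ x, (F x - m) ^ 2 ∂P.μ := integral_nonneg fun x => by positivity
      rw [h1] at h2
      linarith
    have hsub : P.C.B (s - u) (s - u) ≤ 4 * ∫ x, (F x - Real.sqrt 2) ^ 2 ∂P.μ := by
      rw [P.k1_B_self, ← integral_const_mul]
      refine integral_mono (P.k1_integrable (P.k1_cont_val _))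
        ((P.k1_integrable ((hFc.sub continuous_const).pow 2)).const_mul _) fun x => ?_
      simp only [map_sub, Pi.sub_apply, hu1]
      have h1 := psi_sub (P.val s x)
      have h2 := pow_le_pow_left₀ (norm_nonneg _) h1 2
      rw [mul_pow, sq_abs] at h2
      calc ‖P.val s x - psi (P.val s x)‖ ^ 2
          ≤ 2 ^ 2 * (Real.sqrt (1 + ‖P.val s x‖ ^ 2) - Real.sqrt 2) ^ 2 := h2
        _ = 4 * (F x - Real.sqrt 2) ^ 2 := by rw [hF]; norm_num
    rw [hexp] at hsub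
    have ht0 : 0 < Real.sqrt 2 := Real.sqrt_pos.2 (by norm_num)
    have ht2 : Real.sqrt 2 ^ 2 = 2 := Real.sq_sqrt (by norm_num)
    set t := Real.sqrt 2
    have h1 : t - m ≤ (2 - m ^ 2) / t := by
      rw [le_div_iff₀ ht0]
      rcases le_total m t with h | h
      · nlinarith
      · nlinarith
    have h2 : 2 - 2 * t * m + t ^ 2 ≤ 2 * (2 - m ^ 2) := by
      have h3 : 2 - 2 * t * m + t ^ 2 = 2 * t * (t - m) := by nlinarith
      rw [h3]
      have h4 : 2 * t * (t - m) ≤ 2 * t * ((2 - m ^ 2) / t) := by gcongr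
      refine h4.trans (le_of_eq ?_)
      field_simp
    rw [le_div_iff₀ hc]
    nlinarith

end ANCO
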