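import Pool.Agent.Helper39.Anco.K2

open scoped ContDiff Topology InnerProductSpace
open Set MeasureTheory

set_option maxSynthPendingDepth 3

noncomputable section
namespace ANCO

variable {n : ℕ} {κ c : ℝ}

/-! ## K3 : Gram functions and products -/

theorem k3_psi_hasFDerivAt (x : X n) : HasFDerivAt psi (fderiv ℝ psi x) x :=
  (psi_smooth.differentiable (by simp) x).hasFDerivAt

theorem k3_sq_le {a b c : ℝ} (ha : 0 ≤ a) (h : a ≤ 3 * b + 3 * c) :
    a ^ 2 ≤ 18 * (b ^ 2 + c ^ 2) := by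
  nlinarith [sq_nonneg (b - c), pow_le_pow_left₀ ha h 2]

theorem Pkg.gram (P : Pkg n κ c) (hc : 0 < c) (s t : P.V) :
    ∫ x, (⟪psi (P.val s x), psi (P.val t x)⟫_ℝ - ∫ x, ⟪psi (P.val s x), psi (P.val t x)⟫_ℝ ∂P.μ) ^ 2
      ∂P.μ ≤ 18 * (P.Q s + P.Q t) / c := by
  set Ψ : X n × X n → X n := fun p => ⟪psi p.1, psi p.2⟫_ℝ • eX ∅ with hΨ
  have hs : ContDiff ℝ ∞ Ψ :=
    ((psi_smooth.comp contDiff_fst).inner ℝ (psi_smooth.comp contDiff_snd)).smul contDiff_const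
  obtain ⟨f, hf1, hf2⟩ := P.gp Ψ hs (fun k hk x y => by
    simp only [hΨ, psi_rho k hk, inner_rho k hk, map_smul, rho_vac]) s t
  have hpr : P.C.pr 0 f = f := by
    apply P.val_inj
    funext x
    rw [P.val_pr, hf1, hΨ]
    simp only [map_smul, prj_eX, Finset.card_empty, if_true]
  have hval : ∀ x, P.val f x ∅ = ⟪psi (P.val s x), psi (P.val t x)⟫_ℝ := by
    intro x
    rw [hf1, hΨ]
    simp [eX]
  have hder : ∀ a b h k, ‖fderiv ℝ Ψ (a, b) (h, k)‖ ≤ 3 * ‖h‖ + 3 * ‖k‖ := by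
    intro a b h k
    have h1 : HasFDerivAt (fun p : X n × X n => psi p.1)
        ((fderiv ℝ psi a) ∘L (ContinuousLinearMap.fst ℝ (X n) (X n))) (a, b) :=
      HasFDerivAt.comp (a, b) (g := psi) (f := Prod.fst) (k3_psi_hasFDerivAt a) hasFDerivAt_fst
    have h2 : HasFDerivAt (fun p : X n × X n => psi p.2)
        ((fderiv ℝ psi b) ∘L (ContinuousLinearMap.snd ℝ (X n) (X n))) (a, b) :=
      HasFDerivAt.comp (a, b) (g := psi) (f := Prod.snd) (k3_psi_hasFDerivAt b) hasFDerivAt_snd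
    have h3 := (h1.inner ℝ h2).smul_const (eX ∅ : X n)
    rw [hΨ, h3.fderiv]
    simp only [ContinuousLinearMap.smulRight_apply, ContinuousLinearMap.comp_apply,
      ContinuousLinearMap.prod_apply, fderivInnerCLM_apply, ContinuousLinearMap.coe_fst',
      ContinuousLinearMap.coe_snd']
    rw [norm_smul, k1_norm_eX, mul_one]
    have h4 : ‖⟪psi a, fderiv ℝ psi b k⟫_ℝ‖ ≤ 1 * (3 * ‖k‖) :=
      (norm_inner_le_norm _ _).trans (mul_le_mul (psi_norm a) (psi_fderiv b k) (norm_nonneg _)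
        zero_le_one)
    have h5 : ‖⟪fderiv ℝ psi a h, psi b⟫_ℝ‖ ≤ (3 * ‖h‖) * 1 :=
      (norm_inner_le_norm _ _).trans (mul_le_mul (psi_fderiv a h) (psi_norm b) (norm_nonneg _)
        (by positivity))
    have h6 := norm_add_le ⟪psi a, fderiv ℝ psi b k⟫_ℝ ⟪fderiv ℝ psi a h, psi b⟫_ℝ
    linarith
  have hQ : P.Q f ≤ 18 * (P.Q s + P.Q t) := by
    unfold Pkg.Q
    rw [← integral_add (P.k1_integrable (P.k1_cont_Q _)) (P.k1_integrable (P.k1_cont_Q _)),
      ← integral_const_mul]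
    refine integral_mono (P.k1_integrable (P.k1_cont_Q _))
      (((P.k1_integrable (P.k1_cont_Q _)).add (P.k1_integrable (P.k1_cont_Q _))).const_mul _)
      fun x => ?_
    simp only [← Finset.sum_add_distrib, Finset.mul_sum]
    refine Finset.sum_le_sum fun i _ => ?_
    rw [hf2]
    exact k3_sq_le (norm_nonneg _) (hder _ _ _ _)
  have hp := P.poinc f hpr
  simp only [hval] at hp
  rw [le_div_iff₀ hc, mul_comm]
  exact hp.trans hQ

theorem Pkg.prod (P : Pkg n κ c) (s t : P.V) :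
    ∃ u : P.V, (∀ x, P.val u x = LX (psi (P.val s x)) (psi (P.val t x))) ∧
      P.Q u ≤ 18 * ‖(LX : X n →L[ℝ] X n →L[ℝ] X n)‖ ^ 2 * (P.Q s + P.Q t) := by
  set Ψ : X n × X n → X n := fun p => LX (psi p.1) (psi p.2) with hΨ
  have hs : ContDiff ℝ ∞ Ψ :=
    (LX.contDiff.comp (psi_smooth.comp contDiff_fst)).clm_apply (psi_smooth.comp contDiff_snd)
  obtain ⟨f, hf1, hf2⟩ := P.gp Ψ hs (fun k hk x y => by
    simp only [hΨ, psi_rho k hk, rho_LX k hk]) s t
  set L : ℝ := ‖(LX : X n →L[ℝ] X n →L[ℝ] X n)‖ with hL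
  have hL0 : 0 ≤ L := norm_nonneg _
  have hLX : ∀ x y : X n, ‖LX x y‖ ≤ L * (‖x‖ * ‖y‖) := fun x y => by
    rw [← mul_assoc]
    exact LX.le_opNorm₂ x y
  have hder : ∀ a b h k, ‖fderiv ℝ Ψ (a, b) (h, k)‖ ≤ 3 * (L * ‖h‖) + 3 * (L * ‖k‖) := by
    intro a b h k
    have h1 : HasFDerivAt (fun p : X n × X n => psi p.1)
        ((fderiv ℝ psi a) ∘L (ContinuousLinearMap.fst ℝ (X n) (X n))) (a, b) :=
      HasFDerivAt.comp (a, b) (g := psi) (f := Prod.fst) (k3_psi_hasFDerivAt a) hasFDerivAt_fst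
    have h2 : HasFDerivAt (fun p : X n × X n => psi p.2)
        ((fderiv ℝ psi b) ∘L (ContinuousLinearMap.snd ℝ (X n) (X n))) (a, b) :=
      HasFDerivAt.comp (a, b) (g := psi) (f := Prod.snd) (k3_psi_hasFDerivAt b) hasFDerivAt_snd
    have h0 : HasFDerivAt (fun p : X n × X n => LX (psi p.1))
        (LX ∘L ((fderiv ℝ psi a) ∘L (ContinuousLinearMap.fst ℝ (X n) (X n)))) (a, b) :=
      LX.hasFDerivAt.comp (a, b) h1
    have h3 := h0.clm_apply h2
    rw [hΨ, h3.fderiv]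
    simp only [add_apply, ContinuousLinearMap.comp_apply,
      ContinuousLinearMap.flip_apply, ContinuousLinearMap.coe_fst',
      ContinuousLinearMap.coe_snd']
    have h4 : ‖LX (psi a) (fderiv ℝ psi b k)‖ ≤ L * (1 * (3 * ‖k‖)) :=
      (hLX _ _).trans (mul_le_mul_of_nonneg_left (mul_le_mul (psi_norm a) (psi_fderiv b k)
        (norm_nonneg _) zero_le_one) hL0)
    have h5 : ‖LX (fderiv ℝ psi a h) (psi b)‖ ≤ L * ((3 * ‖h‖) * 1) :=
      (hLX _ _).trans (mul_le_mul_of_nonneg_left (mul_le_mul (psi_fderiv a h) (psi_norm b)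
        (norm_nonneg _) (by positivity)) hL0)
    have h6 := norm_add_le (LX (psi a) (fderiv ℝ psi b k)) (LX (fderiv ℝ psi a h) (psi b))
    linarith
  refine ⟨f, hf1, ?_⟩
  unfold Pkg.Q
  rw [← integral_add (P.k1_integrable (P.k1_cont_Q _)) (P.k1_integrable (P.k1_cont_Q _)),
    ← integral_const_mul]
  refine integral_mono (P.k1_integrable (P.k1_cont_Q _))
    (((P.k1_integrable (P.k1_cont_Q _)).add (P.k1_integrable (P.k1_cont_Q _))).const_mul _)
    fun x => ?_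
  simp only [← Finset.sum_add_distrib, Finset.mul_sum]
  refine Finset.sum_le_sum fun i _ => ?_
  rw [hf2]
  refine (k3_sq_le (norm_nonneg _) (hder _ _ _ _)).trans (le_of_eq ?_)
  ring

end ANCO
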