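import Pool.Agent.Helper39.Anco.K4
import Pool.Agent.Helper39.Anco.K1

open scoped ContDiff Topology InnerProductSpace
open Set MeasureTheory

set_option maxSynthPendingDepth 3

noncomputable section
namespace ANCO

variable {n : ℕ} {κ c : ℝ}

/-- orthonormal bases for an abstract positive form -/
theorem k5_onb {V : Type} [AddCommGroup V] [Module ℝ V] (B : V →ₗ[ℝ] V →ₗ[ℝ] ℝ)
    (hsymm : ∀ u v, B u v = B v u) (hpos : ∀ u, u ≠ 0 → 0 < B u u) (W : Submodule ℝ V)
    [FiniteDimensional ℝ W] : ∃ s : Fin (Module.finrank ℝ W) → V, (∀ a, s a ∈ W) ∧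
      (∀ a b, B (s a) (s b) = if a = b then 1 else 0) ∧ (∀ v ∈ W, v = ∑ a, B v (s a) • s a) := by
  classical
  let core : InnerProductSpace.Core ℝ W :=
    { inner := fun u v => B u v
      conj_inner_symm := fun u v => by simp [hsymm]
      re_inner_nonneg := fun u => by
        by_cases h : (u : V) = 0
        · simp [h]
        · simpa using (hpos _ h).le
      add_left := fun u v w => by simp
      smul_left := fun u v r => by simp
      definite := fun u h => by
        by_contra hu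
        have : (u : V) ≠ 0 := fun h0 => hu (by ext; simpa using h0)
        exact (hpos _ this).ne' h }
  let _ : NormedAddCommGroup W := core.toNormedAddCommGroup
  let _ : InnerProductSpace ℝ W := InnerProductSpace.ofCore core.toCore
  let b := stdOrthonormalBasis ℝ W
  refine ⟨fun a => (b a : V), fun a => (b a).2, fun a a' => ?_, fun v hv => ?_⟩
  · have := orthonormal_iff_ite.mp b.orthonormal a a'
    exact this
  · have h1 := b.sum_repr' ⟨v, hv⟩
    have h2 := congrArg (fun w : W => (w : V)) h1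
    simp only [Submodule.coe_sum, Submodule.coe_smul] at h2
    rw [← h2]
    apply Finset.sum_congr rfl
    intro a _
    congr 1
    rw [h2]
    exact (hsymm _ _)

theorem k5_Q_eig (P : Pkg n κ c) (Λ : ℝ) (v : P.V) (hv : v ∈ Eig P.C.D Λ) (h1 : P.C.B v v = 1) :
    P.Q v ≤ Λ + κ := by
  have h2 := P.Q_le v
  have h3 := P.eig_le Λ v hv
  rw [h1] at h2 h3
  linarith

theorem k5_eig_mono {V : Type} [AddCommGroup V] [Module ℝ V] (D : V →ₗ[ℝ] V) {a b : ℝ}
    (h : a ≤ b) : Eig D a ≤ Eig D b := by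
  unfold Eig
  exact biSup_mono fun l hl => le_trans hl h

theorem gap_exists (n : ℕ) (c : ℝ) (hc : 0 < c) (K : ℝ) (hK : 1 < K) (δ₁ : ℝ) (hδ₁ : 0 < δ₁) :
    ∃ κ₀ > 0, ∀ (κ : ℝ), 0 ≤ κ → κ ≤ κ₀ → ∀ (P : Pkg n κ c), ∃ δ, κ ≤ δ ∧ 0 < δ ∧ δ ≤ δ₁ ∧
      Eig P.C.D δ = Eig P.C.D (K * δ) ∧ Module.finrank ℝ (Eig P.C.D δ) ≤ 2 ^ n := by
  obtain ⟨L, hL, hmb⟩ := mult_bound n c hc
  set δ₀ : ℝ := min δ₁ (L / 2) with hδ₀
  have hδ₀pos : 0 < δ₀ := lt_min hδ₁ (by positivity)
  have hKpos : 0 < K := by linarith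
  set m : ℕ := 2 ^ n + 1 with hm
  have hδm : ∀ j ≤ m, δ₀ / K ^ m ≤ δ₀ / K ^ j := by
    intro j hj
    apply div_le_div_of_nonneg_left hδ₀pos.le (by positivity)
    exact pow_le_pow_right₀ hK.le hj
  have hδj : ∀ j, δ₀ / K ^ j ≤ δ₀ := fun j => div_le_self hδ₀pos.le (one_le_pow₀ hK.le)
  refine ⟨δ₀ / K ^ m, by positivity, ?_⟩
  intro κ hκ0 hκ P
  have hκL : κ ≤ L / 2 := hκ.trans ((hδj m).trans (min_le_right _ _))
  have hfin := P.eig_fin
  -- dimension bound
  have hdim : ∀ Λ, Λ ≤ L / 2 → Module.finrank ℝ (Eig P.C.D Λ) ≤ 2 ^ n := by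
    intro Λ hΛ
    have := hfin Λ
    obtain ⟨s, hs1, hs2, -⟩ := k5_onb P.C.B P.C.symm P.C.pos (Eig P.C.D Λ)
    apply hmb κ P _ s hs2
    intro a
    have := k5_Q_eig P Λ (s a) (hs1 a) (by rw [hs2]; simp)
    linarith
  -- pigeonhole
  have hex : ∃ j < m, Eig P.C.D (δ₀ / K ^ (j + 1)) = Eig P.C.D (δ₀ / K ^ j) := by
    by_contra hcon
    push Not at hcon
    have hlt : ∀ j < m, Module.finrank ℝ (Eig P.C.D (δ₀ / K ^ (j + 1))) <
        Module.finrank ℝ (Eig P.C.D (δ₀ / K ^ j)) := by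
      intro j hj
      have := hfin (δ₀ / K ^ j)
      apply Submodule.finrank_lt_finrank_of_lt
      refine lt_of_le_of_ne (k5_eig_mono _ ?_) (hcon j hj)
      apply div_le_div_of_nonneg_left hδ₀pos.le (by positivity)
      exact pow_le_pow_right₀ hK.le (Nat.le_succ j)
    have hind : ∀ j ≤ m, Module.finrank ℝ (Eig P.C.D (δ₀ / K ^ j)) + j ≤
        Module.finrank ℝ (Eig P.C.D (δ₀ / K ^ 0)) := by
      intro j
      induction j with
      | zero => intro _; simp
      | succ j ih =>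
        intro hj
        have h1 := ih (by omega)
        have h2 := hlt j (by omega)
        omega
    have h1 := hind m le_rfl
    have h2 := hdim (δ₀ / K ^ 0) ((hδj 0).trans (min_le_right _ _))
    omega
  obtain ⟨j, hj, hje⟩ := hex
  refine ⟨δ₀ / K ^ (j + 1), hκ.trans (hδm _ hj), by positivity,
    (hδj _).trans (min_le_left _ _), ?_, hdim _ ((hδj _).trans (min_le_right _ _))⟩
  rw [hje]
  congr 1
  rw [pow_succ]
  field_simp

end ANCO
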