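import Pool.Agent.Helper39.Anco.K5
import Pool.Agent.Helper39.Anco.Chi

open scoped ContDiff Topology InnerProductSpace
open Set MeasureTheory

set_option maxSynthPendingDepth 3

noncomputable section
namespace ANCO

variable {n : ℕ} {κ c : ℝ}

/-- abstract version: graded orthonormal basis of the small eigenspace -/
theorem k5b_basis {V : Type} [AddCommGroup V] [Module ℝ V] (C : GrCplx V n) (Λ : ℝ)
    [FiniteDimensional ℝ (Eig C.D Λ)] (N : ℕ) (hN : Module.finrank ℝ (Eig C.D Λ) = N) :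
    ∃ (s : Fin N → V) (p : Fin N → ℕ), (∀ a, s a ∈ Eig C.D Λ) ∧
      (∀ a b, C.B (s a) (s b) = if a = b then 1 else 0) ∧ (∀ a, C.pr (p a) (s a) = s a) ∧
      (∀ v ∈ Eig C.D Λ, v = ∑ a, C.B v (s a) • s a) ∧
      (∀ v, ∀ e ∈ Eig C.D Λ, C.B (v - ∑ a, C.B v (s a) • s a) e = 0) ∧ (∀ a, p a ≤ n) ∧
      ∑ q ∈ Finset.range (n + 1), (-1 : ℤ) ^ q * (Module.finrank ℝ (C.Ep Λ q) : ℤ) =
        ∑ a, (-1 : ℤ) ^ (p a) := by
  classical
  have hfinq : ∀ q : Fin (n + 1), FiniteDimensional ℝ (C.Ep Λ q) := fun q =>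
    Submodule.finiteDimensional_of_le (inf_le_left : C.Ep Λ q ≤ Eig C.D Λ)
  have honb : ∀ q : Fin (n + 1), ∃ s : Fin (Module.finrank ℝ (C.Ep Λ q)) → V,
      (∀ a, s a ∈ C.Ep Λ q) ∧ (∀ a b, C.B (s a) (s b) = if a = b then 1 else 0) ∧
      (∀ v ∈ C.Ep Λ q, v = ∑ a, C.B v (s a) • s a) := by
    intro q
    have := hfinq q
    exact k5_onb C.B C.symm C.pos (C.Ep Λ q)
  choose s hs1 hs2 hs3 using honb
  let ι := Σ q : Fin (n + 1), Fin (Module.finrank ℝ (C.Ep Λ q))
  let S : ι → V := fun a => s a.1 a.2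
  have hpr : ∀ a : ι, C.pr a.1 (S a) = S a := by
    rintro ⟨q, a⟩
    obtain ⟨w, hw⟩ := (hs1 q a).2
    change C.pr q (s q a) = s q a
    rw [← hw, C.pr_pr, if_pos rfl]
  have hmem : ∀ a : ι, S a ∈ Eig C.D Λ := fun a => (hs1 a.1 a.2).1
  have horth : ∀ a b : ι, C.B (S a) (S b) = if a = b then 1 else 0 := by
    rintro ⟨q, a⟩ ⟨r, b⟩
    by_cases hqr : q = r
    · subst hqr
      change C.B (s q a) (s q b) = _
      rw [hs2]
      by_cases hab : a = b
      · subst hab; simp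
      · rw [if_neg hab, if_neg]
        intro h
        apply hab
        exact eq_of_heq (Sigma.mk.inj h).2
    · rw [if_neg (fun h => hqr (congrArg Sigma.fst h))]
      rw [← hpr ⟨q, a⟩, ← hpr ⟨r, b⟩, C.pr_symm, C.pr_pr, if_neg, map_zero]
      intro h
      exact hqr (Fin.ext h)
  have hexp : ∀ v ∈ Eig C.D Λ, v = ∑ a : ι, C.B v (S a) • S a := by
    intro v hv
    have h1 := C.pr_sum v
    rw [← Fin.sum_univ_eq_sum_range (fun q => C.pr q v)] at h1
    rw [Fintype.sum_sigma]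
    conv_lhs => rw [← h1]
    apply Finset.sum_congr rfl
    intro q _
    have h2 : C.pr q v ∈ C.Ep Λ q := ⟨C.eig_pr Λ q v hv, ⟨v, rfl⟩⟩
    conv_lhs => rw [hs3 q _ h2]
    apply Finset.sum_congr rfl
    intro a _
    congr 1
    rw [C.pr_symm]
    congr 1
    exact hpr ⟨q, a⟩
  -- cardinality
  have hli : LinearIndependent ℝ S := by
    rw [Fintype.linearIndependent_iff]
    intro g hg i
    have h1 := congrArg (fun w => C.B w (S i)) hg
    simp only [map_sum, LinearMap.sum_apply, map_smul, LinearMap.smul_apply, smul_eq_mul, horth,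
      map_zero, LinearMap.zero_apply] at h1
    rw [Finset.sum_eq_single i (fun b _ hb => by rw [if_neg hb, mul_zero])
      (fun h => absurd (Finset.mem_univ i) h), if_pos rfl, mul_one] at h1
    exact h1
  have hspan : Submodule.span ℝ (Set.range S) = Eig C.D Λ := by
    apply le_antisymm
    · rw [Submodule.span_le]
      rintro _ ⟨a, rfl⟩
      exact hmem a
    · intro v hv
      rw [hexp v hv]
      exact Submodule.sum_mem _ fun a _ => Submodule.smul_mem _ _ (Submodule.subset_span ⟨a, rfl⟩)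
  have hcard : Fintype.card ι = N := by
    rw [← hN, ← hspan, finrank_span_eq_card hli]
  let φ : Fin N ≃ ι := (finCongr hcard.symm).trans (Fintype.equivFin ι).symm
  refine ⟨fun a => S (φ a), fun a => (φ a).1, fun a => hmem _, fun a b => ?_, fun a => hpr _,
    fun v hv => ?_, fun v e he => ?_, fun a => ?_, ?_⟩
  · rw [horth]
    by_cases h : a = b
    · subst h; simp
    · rw [if_neg h, if_neg (fun h' => h (φ.injective h'))]
  · rw [Equiv.sum_comp φ (fun a => C.B v (S a) • S a)]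
    exact hexp v hv
  · rw [Equiv.sum_comp φ (fun a => C.B v (S a) • S a)]
    have h1 : ∀ a : ι, C.B (v - ∑ b : ι, C.B v (S b) • S b) (S a) = 0 := by
      intro a
      simp only [map_sub, LinearMap.sub_apply, map_sum, LinearMap.sum_apply, map_smul,
        LinearMap.smul_apply, smul_eq_mul, horth]
      rw [Finset.sum_eq_single a (fun b _ hb => by rw [if_neg hb, mul_zero])
        (fun h => absurd (Finset.mem_univ a) h), if_pos rfl, mul_one, sub_self]
    conv_lhs => rw [hexp e he]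
    simp only [map_sum, map_smul, smul_eq_mul]
    exact Finset.sum_eq_zero fun a _ => by rw [h1 a, mul_zero]
  · exact Nat.lt_succ_iff.mp (φ a).1.2
  · rw [Equiv.sum_comp φ (fun a : ι => (-1 : ℤ) ^ (a.1 : ℕ))]
    rw [Fintype.sum_sigma, ← Fin.sum_univ_eq_sum_range
      (fun q => (-1 : ℤ) ^ q * (Module.finrank ℝ (C.Ep Λ q) : ℤ))]
    apply Finset.sum_congr rfl
    intro q _
    simp [mul_comm]

/-- graded orthonormal basis of the small eigenspace -/
theorem Pkg.exists_basis (P : Pkg n κ c) (Λ : ℝ) (N : ℕ) (hN : Module.finrank ℝ (Eig P.C.D Λ) = N) :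
    ∃ (s : Fin N → P.V) (p : Fin N → ℕ), (∀ a, s a ∈ Eig P.C.D Λ) ∧
      (∀ a b, P.C.B (s a) (s b) = if a = b then 1 else 0) ∧ (∀ a, P.C.pr (p a) (s a) = s a) ∧
      (∀ v ∈ Eig P.C.D Λ, v = ∑ a, P.C.B v (s a) • s a) ∧
      (∀ v, ∀ e ∈ Eig P.C.D Λ, P.C.B (v - ∑ a, P.C.B v (s a) • s a) e = 0) ∧ (∀ a, p a ≤ n) ∧
      ∑ q ∈ Finset.range (n + 1), (-1 : ℤ) ^ q * (Module.finrank ℝ (P.C.Ep Λ q) : ℤ) =
        ∑ a, (-1 : ℤ) ^ (p a) := by
  have := P.eig_fin Λ
  exact k5b_basis P.C Λ N hN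

end ANCO
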