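import Pool.Agent.Helper39.Anco.Fal
import Pool.Agent.Helper39.Anco.Fock2

/-!
The approximate version of the positivity of the graded dimension of a Clifford subalgebra.
-/

open scoped ContDiff Topology Manifold InnerProductSpace
open Set MeasureTheory

set_option maxSynthPendingDepth 3

noncomputable section
namespace ANCO

variable {n : ℕ}

theorem lim_exact {N : ℕ} (p : Fin N → ℕ) (v : Fin N → X n)
    (C : Fin N → Fin N → Fin N → ℝ) (k : Fin N → ℝ) (hp : ∀ a, prj (p a) (v a) = v a)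
    (ho : ∀ a b, ⟪v a, v b⟫_ℝ = if a = b then 1 else 0)
    (hm : ∀ a b, LX (v a) (v b) = ∑ c, C a b c • v c)
    (h1 : (eX ∅ : X n) = ∑ c, k c • v c) : (0 : ℤ) ≤ ∑ a, (-1) ^ (p a) := by
  have hon : Orthonormal ℝ v := orthonormal_iff_ite.2 ho
  have hli : LinearIndependent ℝ v := hon.linearIndependent
  have hpn : ∀ a, p a ≤ n := by
    intro a
    by_contra hcon
    have h2 : v a = 0 := by rw [← hp a]; exact prj_of_lt _ (by omega) _
    have h3 := ho a a
    rw [h2] at h3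
    simp at h3
  set A : Submodule ℝ (X n) := Submodule.span ℝ (range v) with hA
  have hvA : ∀ a, v a ∈ A := fun a => Submodule.subset_span ⟨a, rfl⟩
  have h1A : (eX ∅ : X n) ∈ A := by
    rw [h1]; exact A.sum_mem (fun c _ => A.smul_mem _ (hvA c))
  have hmulA : ∀ x ∈ A, ∀ y ∈ A, LX x y ∈ A := by
    intro x hx y hy
    obtain ⟨c, rfl⟩ := (Submodule.mem_span_range_iff_exists_fun ℝ).1 hx
    obtain ⟨d, rfl⟩ := (Submodule.mem_span_range_iff_exists_fun ℝ).1 hy
    simp only [map_sum, map_smul, sum_apply, smul_apply]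
    refine A.sum_mem (fun b _ => A.smul_mem _ (A.sum_mem (fun a _ => A.smul_mem _ ?_)))
    rw [hm]
    exact A.sum_mem (fun c _ => A.smul_mem _ (hvA c))
  have hprjv : ∀ q a, prj q (v a) = if q = p a then v a else 0 := by
    intro q a
    conv_lhs => rw [← hp a]
    rw [prj_prj]
    split_ifs with h
    · rw [h, hp]
    · rfl
  have hprjA : ∀ q, ∀ x ∈ A, prj q x ∈ A := by
    intro q x hx
    obtain ⟨c, rfl⟩ := (Submodule.mem_span_range_iff_exists_fun ℝ).1 hx
    rw [map_sum]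
    refine A.sum_mem (fun a _ => ?_)
    rw [map_smul, hprjv]
    refine A.smul_mem _ ?_
    split_ifs
    · exact hvA a
    · exact A.zero_mem
  have hfal := fal A h1A hmulA hprjA
  have hdim : ∀ q, Module.finrank ℝ (A ⊓ LinearMap.range (prj q).toLinearMap : Submodule ℝ (X n))
      = (Finset.univ.filter (fun a => p a = q)).card := by
    intro q
    have h2 : (A ⊓ LinearMap.range (prj q).toLinearMap : Submodule ℝ (X n)) =
        Submodule.span ℝ (range (fun a : {a // p a = q} => v a)) := by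
      apply le_antisymm
      · rintro x ⟨hx, ⟨y, rfl⟩⟩
        obtain ⟨c, hc⟩ := (Submodule.mem_span_range_iff_exists_fun ℝ).1 hx
        have h3 : prj q (∑ a, c a • v a) = ∑ a, c a • v a := by
          rw [hc]
          change prj q (prj q y) = prj q y
          rw [prj_prj, if_pos rfl]
        rw [← hc, ← h3, map_sum]
        refine Submodule.sum_mem _ (fun a _ => ?_)
        rw [map_smul, hprjv]
        refine Submodule.smul_mem _ _ ?_
        split_ifs with h
        · exact Submodule.subset_span ⟨⟨a, h.symm⟩, rfl⟩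
        · exact Submodule.zero_mem _
      · rw [Submodule.span_le]
        rintro x ⟨⟨a, ha⟩, rfl⟩
        refine ⟨hvA a, ⟨v a, ?_⟩⟩
        change prj q (v a) = v a
        rw [← ha, hp]
    have h4 : LinearIndependent ℝ (fun a : {a // p a = q} => v a) :=
      hli.comp _ Subtype.val_injective
    rw [h2, finrank_span_eq_card h4, Fintype.card_subtype]
  have hsum : ∑ q ∈ Finset.range (n + 1), (-1 : ℤ) ^ q * (Module.finrank ℝ
      (A ⊓ LinearMap.range (prj q).toLinearMap : Submodule ℝ (X n)) : ℤ) = ∑ a, (-1) ^ (p a) := by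
    rw [← Finset.sum_fiberwise_of_maps_to (s := Finset.univ) (t := Finset.range (n + 1)) (g := p)
      (fun a _ => Finset.mem_range.2 (by have := hpn a; omega)) (fun a => (-1 : ℤ) ^ (p a))]
    refine Finset.sum_congr rfl (fun q _ => ?_)
    rw [hdim q, Finset.sum_congr rfl (g := fun _ => (-1 : ℤ) ^ q) (fun a ha => by
      rw [(Finset.mem_filter.1 ha).2]), Finset.sum_const, nsmul_eq_mul]
    ring
  rw [← hsum]
  exact hfal

theorem lim_lemma (N : ℕ) (p : Fin N → ℕ) (K : ℝ) : ∃ η > 0, ∀ (v : Fin N → X n)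
    (C : Fin N → Fin N → Fin N → ℝ) (k : Fin N → ℝ), (∀ a, prj (p a) (v a) = v a) →
    (∀ a b, |⟪v a, v b⟫_ℝ - if a = b then 1 else 0| ≤ η) → (∀ a b c, |C a b c| ≤ K) →
    (∀ c, |k c| ≤ K) → (∀ a b, ‖LX (v a) (v b) - ∑ c, C a b c • v c‖ ≤ η) →
    ‖eX ∅ - ∑ c, k c • v c‖ ≤ η → (0 : ℤ) ≤ ∑ a, (-1) ^ (p a) := by
  by_cases hpos : (0 : ℤ) ≤ ∑ a, (-1) ^ (p a)
  · exact ⟨1, one_pos, fun _ _ _ _ _ _ _ _ _ => hpos⟩
  set Z : Set ((Fin N → X n) × (Fin N → Fin N → Fin N → ℝ) × (Fin N → ℝ)) :=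
    Metric.closedBall 0 2 ×ˢ (Metric.closedBall 0 |K| ×ˢ Metric.closedBall 0 |K|) with hZ
  have hZc : IsCompact Z := (isCompact_closedBall _ _).prod
    ((isCompact_closedBall _ _).prod (isCompact_closedBall _ _))
  set f : ((Fin N → X n) × (Fin N → Fin N → Fin N → ℝ) × (Fin N → ℝ)) → ℝ := fun x =>
    (∑ a, ‖prj (p a) (x.1 a) - x.1 a‖) +
    (∑ a, ∑ b, |⟪x.1 a, x.1 b⟫_ℝ - if a = b then 1 else 0|) +
    (∑ a, ∑ b, ‖LX (x.1 a) (x.1 b) - ∑ c, x.2.1 a b c • x.1 c‖) +
    ‖eX ∅ - ∑ c, x.2.2 c • x.1 c‖ with hf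
  have hfc : Continuous f := by
    have hLX : ∀ a b : Fin N, Continuous fun x : ((Fin N → X n) × (Fin N → Fin N → Fin N → ℝ) ×
        (Fin N → ℝ)) => LX (x.1 a) (x.1 b) := by
      intro a b
      exact ((LX (n := n)).continuous.comp (by fun_prop : Continuous fun x :
        ((Fin N → X n) × (Fin N → Fin N → Fin N → ℝ) × (Fin N → ℝ)) => x.1 a)).clm_apply
        (by fun_prop)
    refine ((Continuous.add ?_ ?_).add ?_).add ?_
    · fun_prop
    · refine continuous_finsetSum _ (fun a _ => continuous_finsetSum _ (fun b _ => ?_))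
      refine (Continuous.sub ?_ continuous_const).abs
      exact Continuous.inner (by fun_prop) (by fun_prop)
    · refine continuous_finsetSum _ (fun a _ => continuous_finsetSum _ (fun b _ => ?_))
      refine ((hLX a b).sub ?_).norm
      fun_prop
    · fun_prop
  have hfpos : ∀ x ∈ Z, 0 < f x := by
    intro x _
    by_contra hcon
    push Not at hcon
    have n1 : 0 ≤ ∑ a, ‖prj (p a) (x.1 a) - x.1 a‖ := Finset.sum_nonneg (fun _ _ => norm_nonneg _)
    have n2 : 0 ≤ ∑ a, ∑ b, |⟪x.1 a, x.1 b⟫_ℝ - if a = b then 1 else 0| :=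
      Finset.sum_nonneg (fun _ _ => Finset.sum_nonneg (fun _ _ => abs_nonneg _))
    have n3 : 0 ≤ ∑ a, ∑ b, ‖LX (x.1 a) (x.1 b) - ∑ c, x.2.1 a b c • x.1 c‖ :=
      Finset.sum_nonneg (fun _ _ => Finset.sum_nonneg (fun _ _ => norm_nonneg _))
    have n4 : 0 ≤ ‖eX ∅ - ∑ c, x.2.2 c • x.1 c‖ := norm_nonneg _
    simp only [hf] at hcon
    have z1 : ∑ a, ‖prj (p a) (x.1 a) - x.1 a‖ = 0 := by linarith
    have z2 : ∑ a, ∑ b, |⟪x.1 a, x.1 b⟫_ℝ - if a = b then 1 else 0| = 0 := by linarith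
    have z3 : ∑ a, ∑ b, ‖LX (x.1 a) (x.1 b) - ∑ c, x.2.1 a b c • x.1 c‖ = 0 := by linarith
    have z4 : ‖eX ∅ - ∑ c, x.2.2 c • x.1 c‖ = 0 := by linarith
    refine hpos (lim_exact p x.1 x.2.1 x.2.2 ?_ ?_ ?_ ?_)
    · intro a
      have h2 := (Finset.sum_eq_zero_iff_of_nonneg (fun _ _ => norm_nonneg _)).1 z1 a
        (Finset.mem_univ _)
      exact sub_eq_zero.1 (norm_eq_zero.1 h2)
    · intro a b
      have h2 := (Finset.sum_eq_zero_iff_of_nonneg (fun _ _ =>
        Finset.sum_nonneg (fun _ _ => abs_nonneg _))).1 z2 a (Finset.mem_univ _)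
      have h3 := (Finset.sum_eq_zero_iff_of_nonneg (fun _ _ => abs_nonneg _)).1 h2 b
        (Finset.mem_univ _)
      exact sub_eq_zero.1 (abs_eq_zero.1 h3)
    · intro a b
      have h2 := (Finset.sum_eq_zero_iff_of_nonneg (fun _ _ =>
        Finset.sum_nonneg (fun _ _ => norm_nonneg _))).1 z3 a (Finset.mem_univ _)
      have h3 := (Finset.sum_eq_zero_iff_of_nonneg (fun _ _ => norm_nonneg _)).1 h2 b
        (Finset.mem_univ _)
      exact sub_eq_zero.1 (norm_eq_zero.1 h3)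
    · exact sub_eq_zero.1 (norm_eq_zero.1 z4)
  obtain ⟨m, hm0, hm⟩ := hZc.exists_forall_le' hfc.continuousOn hfpos
  have hM : (0:ℝ) < 2 * N^2 + 1 := by positivity
  refine ⟨min 1 (m / (2 * (2 * N^2 + 1))), lt_min one_pos (by positivity), ?_⟩
  intro v C k hp ho hC hk hmul h1
  exfalso
  set η := min 1 (m / (2 * (2 * (N:ℝ)^2 + 1))) with hη
  have hη1 : η ≤ 1 := min_le_left _ _
  have hη2 : η ≤ m / (2 * (2 * (N:ℝ)^2 + 1)) := min_le_right _ _
  have hmem : ((v, C, k) : (Fin N → X n) × (Fin N → Fin N → Fin N → ℝ) × (Fin N → ℝ)) ∈ Z := by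
    refine ⟨?_, ?_, ?_⟩
    · rw [mem_closedBall_zero_iff, pi_norm_le_iff_of_nonneg (by norm_num)]
      intro a
      have h2 := ho a a
      rw [if_pos rfl, real_inner_self_eq_norm_sq] at h2
      have h3 := (abs_le.1 h2).2
      change ‖v a‖ ≤ 2
      nlinarith [norm_nonneg (v a)]
    · rw [mem_closedBall_zero_iff, pi_norm_le_iff_of_nonneg (abs_nonneg _)]
      intro a
      rw [pi_norm_le_iff_of_nonneg (abs_nonneg _)]
      intro b
      rw [pi_norm_le_iff_of_nonneg (abs_nonneg _)]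
      intro c
      exact (hC a b c).trans (le_abs_self _)
    · rw [mem_closedBall_zero_iff, pi_norm_le_iff_of_nonneg (abs_nonneg _)]
      intro c
      exact (hk c).trans (le_abs_self _)
  have h2 := hm _ hmem
  have e1 : ∑ a, ‖prj (p a) (v a) - v a‖ = 0 := by
    refine Finset.sum_eq_zero (fun a _ => ?_)
    rw [hp, sub_self, norm_zero]
  have e2 : ∑ a, ∑ b, |⟪v a, v b⟫_ℝ - if a = b then 1 else 0| ≤ N^2 * η := by
    calc _ ≤ ∑ a : Fin N, ∑ b : Fin N, η :=
          Finset.sum_le_sum (fun a _ => Finset.sum_le_sum (fun b _ => ho a b))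
      _ = N^2 * η := by simp; ring
  have e3 : ∑ a, ∑ b, ‖LX (v a) (v b) - ∑ c, C a b c • v c‖ ≤ N^2 * η := by
    calc _ ≤ ∑ a : Fin N, ∑ b : Fin N, η :=
          Finset.sum_le_sum (fun a _ => Finset.sum_le_sum (fun b _ => hmul a b))
      _ = N^2 * η := by simp; ring
  have e4 : f (v, C, k) ≤ (2 * N^2 + 1) * η := by
    simp only [hf]
    rw [e1]
    linarith
  have e5 : (2 * (N:ℝ)^2 + 1) * η ≤ m / 2 := by
    calc (2 * (N:ℝ)^2 + 1) * η ≤ (2 * (N:ℝ)^2 + 1) * (m / (2 * (2 * (N:ℝ)^2 + 1))) :=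
          mul_le_mul_of_nonneg_left hη2 hM.le
      _ = m / 2 := by field_simp
  linarith

end ANCO
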