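import Pool.Agent.Helper39.Anco.PkgDefs
import Pool.Agent.Helper39.Anco.K1
import Pool.Agent.Helper39.Anco.K2
import Pool.Agent.Helper39.Anco.K3
import Pool.Agent.Helper39.Anco.K5
import Pool.Agent.Helper39.Anco.K5b
import Pool.Agent.Helper39.Anco.Chi
import Pool.Agent.Helper39.Anco.Lim

open scoped ContDiff Topology InnerProductSpace
open Set MeasureTheory

set_option maxSynthPendingDepth 3

noncomputable section
namespace ANCO

theorem k6_exists_lower {ι : Type*} [Finite ι] (f : ι → ℝ) (hf : ∀ i, 0 < f i) :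
    ∃ η > 0, ∀ i, η ≤ f i := by
  cases isEmpty_or_nonempty ι with
  | inl h => exact ⟨1, one_pos, fun i => (h.false i).elim⟩
  | inr h =>
    obtain ⟨i₀, hi₀⟩ := Finite.exists_min f
    exact ⟨f i₀, hf i₀, hi₀⟩

/-- uniform version of `lim_lemma` -/
theorem k6_lim (n M : ℕ) (K : ℝ) : ∃ η > 0, ∀ N ≤ M, ∀ p : Fin N → ℕ, (∀ a, p a ≤ n) →
    ∀ (v : Fin N → X n) (C : Fin N → Fin N → Fin N → ℝ) (k : Fin N → ℝ),
    (∀ a, prj (p a) (v a) = v a) →
    (∀ a b, |⟪v a, v b⟫_ℝ - if a = b then 1 else 0| ≤ η) → (∀ a b c, |C a b c| ≤ K) →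
    (∀ c, |k c| ≤ K) → (∀ a b, ‖LX (v a) (v b) - ∑ c, C a b c • v c‖ ≤ η) →
    ‖eX ∅ - ∑ c, k c • v c‖ ≤ η → (0 : ℤ) ≤ ∑ a, (-1) ^ (p a) := by
  choose F hF h using fun i : (Σ N : Fin (M + 1), (Fin N → Fin (n + 1))) =>
    lim_lemma (n := n) i.1 (fun a => (i.2 a : ℕ)) K
  obtain ⟨η, hη, hle⟩ := k6_exists_lower F hF
  refine ⟨η, hη, ?_⟩
  intro N hN p hp v C k h1 h2 h3 h4 h5 h6
  have hle' := hle ⟨⟨N, Nat.lt_succ_of_le hN⟩, fun a => ⟨p a, Nat.lt_succ_of_le (hp a)⟩⟩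
  have := h ⟨⟨N, Nat.lt_succ_of_le hN⟩, fun a => ⟨p a, Nat.lt_succ_of_le (hp a)⟩⟩ v C k
  refine this h1 (fun a b => (h2 a b).trans hle') h3 h4 (fun a b => (h5 a b).trans hle')
    (h6.trans hle')

section Basic

variable {n : ℕ} {κ c : ℝ} (P : Pkg n κ c)

theorem k6_nonneg (u : P.V) : 0 ≤ P.C.B u u := by
  by_cases h : u = 0
  · simp [h]
  · exact (P.C.pos u h).le

theorem k6_cs (x y : P.V) : P.C.B x y ^ 2 ≤ P.C.B x x * P.C.B y y := by
  by_cases hy : y = 0
  · simp [hy]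
  have hyy := P.C.pos y hy
  have h0 := k6_nonneg P (x - (P.C.B x y / P.C.B y y) • y)
  simp only [map_sub, map_smul, LinearMap.sub_apply, LinearMap.smul_apply, smul_eq_mul] at h0
  rw [P.C.symm y x] at h0
  have h1 : P.C.B x y / P.C.B y y * P.C.B y y = P.C.B x y := by field_simp
  have h2 : P.C.B x x - P.C.B x y / P.C.B y y * P.C.B x y -
      P.C.B x y / P.C.B y y * (P.C.B x y - P.C.B x y / P.C.B y y * P.C.B y y) =
      P.C.B x x - P.C.B x y ^ 2 / P.C.B y y := by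
    rw [h1]; ring
  have h3 : P.C.B x y ^ 2 / P.C.B y y ≤ P.C.B x x := by linarith
  rwa [div_le_iff₀ hyy] at h3

theorem k6_cs' (x y : P.V) {a b : ℝ} (ha : 0 ≤ a) (hb : 0 ≤ b) (hx : P.C.B x x ≤ a ^ 2)
    (hy : P.C.B y y ≤ b ^ 2) : |P.C.B x y| ≤ a * b := by
  apply abs_le_of_sq_le_sq _ (mul_nonneg ha hb)
  calc P.C.B x y ^ 2 ≤ P.C.B x x * P.C.B y y := k6_cs P x y
    _ ≤ a ^ 2 * b ^ 2 := mul_le_mul hx hy (k6_nonneg P y) (by positivity)
    _ = (a * b) ^ 2 := by ring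

theorem k6_integrable (f : P.M → ℝ) (hf : Continuous f) : Integrable f P.μ :=
  hf.integrable_of_hasCompactSupport (HasCompactSupport.of_compactSpace f)

/-- sections bounded pointwise have bounded `B` norm -/
theorem k6_B_le (u : P.V) (a : ℝ) (h : ∀ x, ‖P.val u x‖ ≤ a) : P.C.B u u ≤ a ^ 2 := by
  rw [P.B_eq]
  have h1 : ∀ x, ⟪P.val u x, P.val u x⟫_ℝ ≤ a ^ 2 := by
    intro x
    rw [real_inner_self_eq_norm_sq]
    exact pow_le_pow_left₀ (norm_nonneg _) (h x) 2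
  calc ∫ x, ⟪P.val u x, P.val u x⟫_ℝ ∂P.μ ≤ ∫ _x, a ^ 2 ∂P.μ :=
        integral_mono (k6_integrable P _ (P.cont_ip u u)) (integrable_const _) h1
    _ = a ^ 2 := by simp

end Basic

/-- the closeness statement at a good point -/
theorem k6_core {n : ℕ} {κ c : ℝ} (P : Pkg n κ c) (hc : 0 < c) (δ K q τ ρ L : ℝ) (N : ℕ)
    (hτ : 0 ≤ τ) (hρ : 0 ≤ ρ) (hL : L = ‖(LX : X n →L[ℝ] X n →L[ℝ] X n)‖)
    (hκ : κ ≤ δ) (hδ : 0 < δ) (hK : 0 < K)
    (hq : 2 * δ ≤ q) (hqc : q ≤ c) (hqρ : 8 * q / c ≤ ρ ^ 2)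
    (hmean : (N : ℝ) ^ 2 * (36 * q / c) + (N : ℝ) ^ 2 * ((288 * n + 2) * L ^ 2 / K) +
      N * (8 * q / c) ≤ τ ^ 2)
    (hEig : Eig P.C.D δ = Eig P.C.D (K * δ))
    (s : Fin N → P.V) (p : Fin N → ℕ) (hs : ∀ a, s a ∈ Eig P.C.D δ)
    (hon : ∀ a b, P.C.B (s a) (s b) = if a = b then 1 else 0)
    (hdeg : ∀ a, P.C.pr (p a) (s a) = s a)
    (hspan : ∀ v ∈ Eig P.C.D δ, v = ∑ a, P.C.B v (s a) • s a)
    (hperp : ∀ v, ∀ e ∈ Eig P.C.D δ, P.C.B (v - ∑ a, P.C.B v (s a) • s a) e = 0) :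
    ∃ (v : Fin N → X n) (C : Fin N → Fin N → Fin N → ℝ) (k : Fin N → ℝ),
      (∀ a, prj (p a) (v a) = v a) ∧
      (∀ a b, |⟪v a, v b⟫_ℝ - if a = b then 1 else 0| ≤ τ + 2 * ρ) ∧
      (∀ a b c, |C a b c| ≤ L + 1) ∧ (∀ c, |k c| ≤ L + 1) ∧
      (∀ a b, ‖LX (v a) (v b) - ∑ c, C a b c • v c‖ ≤ τ + N * (L + 1) * τ) ∧
      ‖eX ∅ - ∑ c, k c • v c‖ ≤ N * (L + 1) * τ := by
  have hL0 : 0 ≤ L := by rw [hL]; exact norm_nonneg _
  -- energies
  have hQ : ∀ a, P.Q (s a) ≤ q := by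
    intro a
    have h1 := P.Q_le (s a)
    have h2 := P.eig_le δ (s a) (hs a)
    rw [hon a a, if_pos rfl] at h1 h2
    linarith
  have hQ0 : ∀ a, 0 ≤ P.Q (s a) := by
    intro a
    unfold Pkg.Q
    exact integral_nonneg (fun x => Finset.sum_nonneg (fun i _ => by positivity))
  have hBD : ∀ a, P.C.B (P.C.D (s a)) (P.C.D (s a)) ≤ δ := by
    intro a
    have h2 := P.eig_le δ (s a) (hs a)
    rw [hon a a, if_pos rfl] at h2
    linarith
  have hq0 : 0 < q := by linarith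
  -- truncations
  choose t ht htQ htB using fun a => P.trunc hc (s a) (by rw [hon a a, if_pos rfl]) ((hQ a).trans hqc)
  have htB' : ∀ a, P.C.B (s a - t a) (s a - t a) ≤ 8 * q / c := by
    intro a
    refine (htB a).trans ?_
    gcongr
    exact hQ a
  -- products
  choose u hu huQ using fun a b => P.prod (s a) (s b)
  set C : Fin N → Fin N → Fin N → ℝ := fun a b d => P.C.B (u a b) (s d) with hC
  set r : Fin N → Fin N → P.V := fun a b => u a b - ∑ d, C a b d • s d with hr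
  have hu_norm : ∀ a b x, ‖P.val (u a b) x‖ ≤ L := by
    intro a b x
    rw [hu a b x]
    calc ‖LX (psi (P.val (s a) x)) (psi (P.val (s b) x))‖
        ≤ ‖(LX : X n →L[ℝ] X n →L[ℝ] X n)‖ * ‖psi (P.val (s a) x)‖ * ‖psi (P.val (s b) x)‖ :=
          ContinuousLinearMap.le_opNorm₂ _ _ _
      _ ≤ L * 1 * 1 := by
          rw [← hL]
          gcongr
          · exact psi_norm _
          · exact psi_norm _
      _ = L := by ring
  have huB : ∀ a b, P.C.B (u a b) (u a b) ≤ L ^ 2 := fun a b => k6_B_le P _ _ (hu_norm a b)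
  have hCle : ∀ a b d, |C a b d| ≤ L := by
    intro a b d
    have := k6_cs' P (u a b) (s d) hL0 zero_le_one (huB a b)
      (by rw [hon d d, if_pos rfl]; norm_num)
    simpa using this
  -- r is small
  have hrB : ∀ a b, P.C.B (r a b) (r a b) ≤ (288 * n + 2) * L ^ 2 / K := by
    intro a b
    have hperp' : ∀ e ∈ Eig P.C.D (K * δ), P.C.B (r a b) e = 0 := by
      intro e he
      rw [← hEig] at he
      exact hperp (u a b) e he
    have h1 := P.eig_gap (K * δ) (r a b) hperp'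
    set w : P.V := ∑ d, C a b d • s d with hw
    have hwE : w ∈ Eig P.C.D δ := by
      rw [hw]
      exact Submodule.sum_mem _ (fun d _ => Submodule.smul_mem _ _ (hs d))
    have hwB : P.C.B (P.C.D w) (P.C.D w) ≤ δ * P.C.B w w := P.eig_le δ w hwE
    have hww : P.C.B w w ≤ L ^ 2 := by
      have h2 : P.C.B (u a b) (u a b) = P.C.B (r a b) (r a b) + P.C.B w w := by
        have h3 : P.C.B (r a b) w = 0 := hperp (u a b) w hwE
        have h4 : u a b = r a b + w := by simp [hr, hw]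
        conv_lhs => rw [h4]
        simp only [map_add, LinearMap.add_apply]
        rw [P.C.symm w (r a b), h3]; ring
      have := k6_nonneg P (r a b)
      linarith [huB a b]
    have hDr : P.C.B (P.C.D (r a b)) (P.C.D (r a b)) ≤
        2 * P.C.B (P.C.D (u a b)) (P.C.D (u a b)) + 2 * P.C.B (P.C.D w) (P.C.D w) := by
      have h5 : P.C.D (r a b) = P.C.D (u a b) - P.C.D w := by rw [← map_sub]
      have h6 := k6_nonneg P (P.C.D (u a b) + P.C.D w)
      rw [h5]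
      simp only [map_add, map_sub, LinearMap.add_apply, LinearMap.sub_apply] at h6 ⊢
      linarith
    have hDu : P.C.B (P.C.D (u a b)) (P.C.D (u a b)) ≤ 144 * n * L ^ 2 * δ := by
      calc P.C.B (P.C.D (u a b)) (P.C.D (u a b)) ≤ 2 * n * P.Q (u a b) := P.BD_le _
        _ ≤ 2 * n * (18 * L ^ 2 * (P.Q (s a) + P.Q (s b))) := by
            gcongr
            rw [hL]; exact huQ a b
        _ ≤ 2 * n * (18 * L ^ 2 * (2 * δ + 2 * δ)) := by
            have hQ2 : ∀ a, P.Q (s a) ≤ 2 * δ := by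
              intro a
              have h1 := P.Q_le (s a)
              rw [hon a a, if_pos rfl] at h1
              linarith [hBD a]
            gcongr
            · exact hQ2 a
            · exact hQ2 b
        _ = 144 * n * L ^ 2 * δ := by ring
    have h7 : K * δ * P.C.B (r a b) (r a b) ≤ (288 * n + 2) * L ^ 2 * δ := by
      calc K * δ * P.C.B (r a b) (r a b) ≤ _ := h1
        _ ≤ _ := hDr
        _ ≤ 2 * (144 * n * L ^ 2 * δ) + 2 * (δ * L ^ 2) := by
            have := mul_le_mul_of_nonneg_left hww hδ.le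
            linarith
        _ = (288 * n + 2) * L ^ 2 * δ := by ring
    rw [le_div_iff₀ hK]
    have h8 : P.C.B (r a b) (r a b) * K * δ ≤ (288 * n + 2) * L ^ 2 * δ := by
      calc _ = K * δ * P.C.B (r a b) (r a b) := by ring
        _ ≤ _ := h7
    exact le_of_mul_le_mul_right h8 hδ
  -- the function
  set m : Fin N → Fin N → ℝ := fun a b =>
    ∫ x, ⟪psi (P.val (s a) x), psi (P.val (s b) x)⟫_ℝ ∂P.μ with hm
  have hcg : ∀ a b, Continuous fun x => ⟪psi (P.val (s a) x), psi (P.val (s b) x)⟫_ℝ := by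
    intro a b
    have := P.cont_ip (t a) (t b)
    simp only [ht] at this
    exact this
  have hmB : ∀ a b, m a b = P.C.B (t a) (t b) := by
    intro a b
    rw [P.B_eq]
    simp only [ht, hm]
  have hc1 : ∀ a b, Continuous fun x =>
      (⟪psi (P.val (s a) x), psi (P.val (s b) x)⟫_ℝ - m a b) ^ 2 := by
    intro a b
    exact ((hcg a b).sub continuous_const).pow 2
  have hc2 : ∀ a b, Continuous fun x => ⟪P.val (r a b) x, P.val (r a b) x⟫_ℝ := fun a b =>
    P.cont_ip _ _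
  have hc3 : ∀ a, Continuous fun x => ⟪P.val (s a - t a) x, P.val (s a - t a) x⟫_ℝ := fun a =>
    P.cont_ip _ _
  set f1 : P.M → ℝ := fun x => ∑ a, ∑ b,
    (⟪psi (P.val (s a) x), psi (P.val (s b) x)⟫_ℝ - m a b) ^ 2 with hf1
  set f2 : P.M → ℝ := fun x => ∑ a, ∑ b, ⟪P.val (r a b) x, P.val (r a b) x⟫_ℝ with hf2
  set f3 : P.M → ℝ := fun x => ∑ a, ⟪P.val (s a - t a) x, P.val (s a - t a) x⟫_ℝ with hf3
  have hcf1 : Continuous f1 := continuous_finsetSum _ (fun a _ =>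
    continuous_finsetSum _ (fun b _ => hc1 a b))
  have hcf2 : Continuous f2 := continuous_finsetSum _ (fun a _ =>
    continuous_finsetSum _ (fun b _ => hc2 a b))
  have hcf3 : Continuous f3 := continuous_finsetSum _ (fun a _ => hc3 a)
  obtain ⟨x, hx⟩ := P.exists_le_mean (fun x => f1 x + f2 x + f3 x) ((hcf1.add hcf2).add hcf3)
  have hI1 : ∫ x, f1 x ∂P.μ ≤ (N : ℝ) ^ 2 * (36 * q / c) := by
    simp only [hf1]
    rw [integral_finsetSum _ (fun a _ => integrable_finsetSum _ (fun b _ =>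
      k6_integrable P _ (hc1 a b)))]
    calc ∑ a, ∫ x, ∑ b, (⟪psi (P.val (s a) x), psi (P.val (s b) x)⟫_ℝ - m a b) ^ 2 ∂P.μ
        ≤ ∑ _a : Fin N, ∑ _b : Fin N, 36 * q / c := by
          apply Finset.sum_le_sum
          intro a _
          rw [integral_finsetSum _ (fun b _ => k6_integrable P _ (hc1 a b))]
          apply Finset.sum_le_sum
          intro b _
          refine (P.gram hc (s a) (s b)).trans ?_
          have : 18 * (P.Q (s a) + P.Q (s b)) ≤ 36 * q := by linarith [hQ a, hQ b]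
          gcongr
      _ = (N : ℝ) ^ 2 * (36 * q / c) := by simp; ring
  have hI2 : ∫ x, f2 x ∂P.μ ≤ (N : ℝ) ^ 2 * ((288 * n + 2) * L ^ 2 / K) := by
    simp only [hf2]
    rw [integral_finsetSum _ (fun a _ => integrable_finsetSum _ (fun b _ =>
      k6_integrable P _ (hc2 a b)))]
    calc ∑ a, ∫ x, ∑ b, ⟪P.val (r a b) x, P.val (r a b) x⟫_ℝ ∂P.μ
        ≤ ∑ _a : Fin N, ∑ _b : Fin N, (288 * n + 2) * L ^ 2 / K := by
          apply Finset.sum_le_sum
          intro a _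
          rw [integral_finsetSum _ (fun b _ => k6_integrable P _ (hc2 a b))]
          apply Finset.sum_le_sum
          intro b _
          rw [← P.B_eq]
          exact hrB a b
      _ = (N : ℝ) ^ 2 * ((288 * n + 2) * L ^ 2 / K) := by simp; ring
  have hI3 : ∫ x, f3 x ∂P.μ ≤ N * (8 * q / c) := by
    simp only [hf3]
    rw [integral_finsetSum _ (fun a _ => k6_integrable P _ (hc3 a))]
    calc ∑ a, ∫ x, ⟪P.val (s a - t a) x, P.val (s a - t a) x⟫_ℝ ∂P.μ
        ≤ ∑ _a : Fin N, 8 * q / c := by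
          apply Finset.sum_le_sum
          intro a _
          rw [← P.B_eq]
          exact htB' a
      _ = N * (8 * q / c) := by simp
  have hIsum : f1 x + f2 x + f3 x ≤ τ ^ 2 := by
    refine hx.trans ?_
    have e1 : ∫ y, (f1 y + f2 y + f3 y) ∂P.μ = ∫ y, f1 y ∂P.μ + ∫ y, f2 y ∂P.μ + ∫ y, f3 y ∂P.μ := by
      have e2 : ∫ y, (f1 y + f2 y + f3 y) ∂P.μ = ∫ y, (f1 y + f2 y) ∂P.μ + ∫ y, f3 y ∂P.μ :=
        integral_add (f := fun y => f1 y + f2 y) (k6_integrable P _ (hcf1.add hcf2))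
          (k6_integrable P _ hcf3)
      have e3 : ∫ y, (f1 y + f2 y) ∂P.μ = ∫ y, f1 y ∂P.μ + ∫ y, f2 y ∂P.μ :=
        integral_add (k6_integrable P _ hcf1) (k6_integrable P _ hcf2)
      rw [e2, e3]
    linarith
  have hf1n : ∀ a b, (⟪psi (P.val (s a) x), psi (P.val (s b) x)⟫_ℝ - m a b) ^ 2 ≤ f1 x := by
    intro a b
    calc _ ≤ ∑ b, (⟪psi (P.val (s a) x), psi (P.val (s b) x)⟫_ℝ - m a b) ^ 2 :=
          Finset.single_le_sum (f := fun b =>
            (⟪psi (P.val (s a) x), psi (P.val (s b) x)⟫_ℝ - m a b) ^ 2)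
            (fun i _ => sq_nonneg _) (Finset.mem_univ b)
      _ ≤ f1 x := Finset.single_le_sum (f := fun a => ∑ b,
            (⟪psi (P.val (s a) x), psi (P.val (s b) x)⟫_ℝ - m a b) ^ 2)
            (fun i _ => Finset.sum_nonneg (fun j _ => sq_nonneg _)) (Finset.mem_univ a)
  have hf2n : ∀ a b, ⟪P.val (r a b) x, P.val (r a b) x⟫_ℝ ≤ f2 x := by
    intro a b
    calc _ ≤ ∑ b, ⟪P.val (r a b) x, P.val (r a b) x⟫_ℝ :=
          Finset.single_le_sum (f := fun b => ⟪P.val (r a b) x, P.val (r a b) x⟫_ℝ)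
            (fun i _ => real_inner_self_nonneg) (Finset.mem_univ b)
      _ ≤ f2 x := Finset.single_le_sum (f := fun a => ∑ b, ⟪P.val (r a b) x, P.val (r a b) x⟫_ℝ)
            (fun i _ => Finset.sum_nonneg (fun j _ => real_inner_self_nonneg)) (Finset.mem_univ a)
  have hf3n : ∀ a, ⟪P.val (s a - t a) x, P.val (s a - t a) x⟫_ℝ ≤ f3 x := by
    intro a
    exact Finset.single_le_sum (f := fun a => ⟪P.val (s a - t a) x, P.val (s a - t a) x⟫_ℝ)
            (fun i _ => real_inner_self_nonneg) (Finset.mem_univ a)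
  have hf10 : 0 ≤ f1 x := Finset.sum_nonneg (fun i _ => Finset.sum_nonneg (fun j _ => sq_nonneg _))
  have hf20 : 0 ≤ f2 x :=
    Finset.sum_nonneg (fun i _ => Finset.sum_nonneg (fun j _ => real_inner_self_nonneg))
  have hf30 : 0 ≤ f3 x := Finset.sum_nonneg (fun i _ => real_inner_self_nonneg)
  have hE1 : ∀ a b, |⟪psi (P.val (s a) x), psi (P.val (s b) x)⟫_ℝ - m a b| ≤ τ := fun a b =>
    abs_le_of_sq_le_sq (by linarith [hf1n a b]) hτ
  have hE2 : ∀ a b, ‖P.val (r a b) x‖ ≤ τ := by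
    intro a b
    apply le_of_sq_le_sq _ hτ
    rw [← real_inner_self_eq_norm_sq]
    linarith [hf2n a b]
  have hE3 : ∀ a, ‖P.val (s a) x - psi (P.val (s a) x)‖ ≤ τ := by
    intro a
    apply le_of_sq_le_sq _ hτ
    rw [← real_inner_self_eq_norm_sq]
    have h1 : P.val (s a - t a) x = P.val (s a) x - psi (P.val (s a) x) := by
      rw [map_sub, Pi.sub_apply, ht]
    rw [← h1]
    linarith [hf3n a]
  have hE3' : ∀ a, ‖P.val (s a) x - psi (P.val (s a) x)‖ ≤ τ := hE3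
  -- unit
  obtain ⟨o, ho1, -, ho3, ho4⟩ := P.exists_one
  have hoE : o ∈ Eig P.C.D δ := by
    have h1 : o ∈ LinearMap.ker (P.C.D ∘ₗ P.C.D - (0 : ℝ) • LinearMap.id) := by
      rw [LinearMap.mem_ker]
      simp [ho3]
    exact (le_iSup₂_of_le (f := fun l (_ : l ∈ Set.Iic δ) =>
      LinearMap.ker (P.C.D ∘ₗ P.C.D - l • LinearMap.id)) 0 (Set.mem_Iic.mpr hδ.le) le_rfl) h1
  have hsum : ∀ (g : Fin N → ℝ) (_ : ∀ d, |g d| ≤ L + 1),
      ‖∑ d, g d • (P.val (s d) x - psi (P.val (s d) x))‖ ≤ N * (L + 1) * τ := by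
    intro g hg
    calc ‖∑ d, g d • (P.val (s d) x - psi (P.val (s d) x))‖
        ≤ ∑ d, ‖g d • (P.val (s d) x - psi (P.val (s d) x))‖ := norm_sum_le _ _
      _ ≤ ∑ _d : Fin N, (L + 1) * τ := by
          apply Finset.sum_le_sum
          intro d _
          rw [norm_smul, Real.norm_eq_abs]
          exact mul_le_mul (hg d) (hE3 d) (norm_nonneg _) (by linarith)
      _ = N * (L + 1) * τ := by simp; ring
  have hCle' : ∀ a b d, |C a b d| ≤ L + 1 := fun a b d => (hCle a b d).trans (by linarith)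
  have hk : ∀ d, |P.C.B o (s d)| ≤ L + 1 := by
    intro d
    have := k6_cs' P o (s d) zero_le_one zero_le_one (by rw [ho4]; norm_num)
      (by rw [hon d d, if_pos rfl]; norm_num)
    linarith
  refine ⟨fun a => psi (P.val (s a) x), C, fun d => P.C.B o (s d), ?_, ?_, hCle', hk, ?_, ?_⟩
  · intro a
    have h1 : prj (p a) (P.val (s a) x) = P.val (s a) x := by
      rw [← P.val_pr, hdeg]
    simp only [psi]
    rw [map_smul, h1]
  · intro a b
    have h1 : |P.C.B (t a) (t b) - P.C.B (s a) (s b)| ≤ 2 * ρ := by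
      have h2 : P.C.B (t a) (t b) - P.C.B (s a) (s b) =
          -(P.C.B (s a - t a) (t b)) - P.C.B (s a) (s b - t b) := by
        simp only [map_sub, LinearMap.sub_apply]; ring
      have htt : P.C.B (t b) (t b) ≤ 1 ^ 2 := k6_B_le P _ _ (fun y => by rw [ht]; exact psi_norm _)
      have h3 := k6_cs' P (s a - t a) (t b) hρ zero_le_one ((htB' a).trans hqρ) htt
      have h4 := k6_cs' P (s a) (s b - t b) zero_le_one hρ (by rw [hon a a, if_pos rfl]; norm_num)
        ((htB' b).trans hqρ)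
      rw [h2]
      rw [abs_le] at h3 h4 ⊢
      constructor <;> linarith [h3.1, h3.2, h4.1, h4.2]
    have h5 := hE1 a b
    rw [hmB a b] at h5
    rw [hon a b] at h1
    rw [abs_le] at h1 h5 ⊢
    constructor <;> linarith [h1.1, h1.2, h5.1, h5.2]
  · intro a b
    have h1 : LX (psi (P.val (s a) x)) (psi (P.val (s b) x)) -
        ∑ d, C a b d • psi (P.val (s d) x) =
        P.val (r a b) x + ∑ d, C a b d • (P.val (s d) x - psi (P.val (s d) x)) := by
      have h2 : P.val (r a b) x = LX (psi (P.val (s a) x)) (psi (P.val (s b) x)) -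
          ∑ d, C a b d • P.val (s d) x := by
        simp only [hr, map_sub, map_sum, map_smul, Pi.sub_apply, Finset.sum_apply, Pi.smul_apply]
        rw [hu]
      rw [h2]
      simp only [smul_sub, Finset.sum_sub_distrib]
      abel
    rw [h1]
    exact (norm_add_le _ _).trans (add_le_add (hE2 a b) (hsum _ (hCle' a b)))
  · have h1 : eX ∅ - ∑ d, P.C.B o (s d) • psi (P.val (s d) x) =
        ∑ d, P.C.B o (s d) • (P.val (s d) x - psi (P.val (s d) x)) := by
      have h2 : (eX ∅ : X n) = ∑ d, P.C.B o (s d) • P.val (s d) x := by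
        have h3 := congrArg (fun w => P.val w x) (hspan o hoE)
        simp only [map_sum, map_smul, Finset.sum_apply, Pi.smul_apply] at h3
        rw [ho1 x] at h3
        exact h3
      rw [h2]
      simp only [smul_sub, Finset.sum_sub_distrib]
    rw [h1]
    exact hsum _ hk

theorem main_pkg (n : ℕ) (c : ℝ) (hc : 0 < c) : ∃ κ₀ > 0, ∀ (κ : ℝ), 0 ≤ κ → κ ≤ κ₀ →
    ∀ (P : Pkg n κ c), (0 : ℤ) ≤ ∑ p ∈ Finset.range (n + 1), (-1) ^ p * (bettiA P.C.pr P.C.d p : ℤ) := by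
  set L : ℝ := ‖(LX : X n →L[ℝ] X n →L[ℝ] X n)‖ with hL
  have hL0 : 0 ≤ L := norm_nonneg _
  obtain ⟨η, hη, hlim⟩ := k6_lim n (2 ^ n) (L + 1)
  set NN : ℝ := 2 ^ n with hNN
  have hNN1 : 1 ≤ NN := one_le_pow₀ (by norm_num)
  set τ : ℝ := η / (2 * (1 + NN * (L + 1))) with hτ
  have hden : 0 < 2 * (1 + NN * (L + 1)) := by positivity
  have hτ0 : 0 < τ := div_pos hη hden
  have hτη : τ * (2 * (1 + NN * (L + 1))) = η := by rw [hτ]; field_simp
  set q : ℝ := min c (min (c * (η / 4) ^ 2 / 8) (τ ^ 2 * c / (88 * NN ^ 2))) with hq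
  have hq0 : 0 < q := by
    rw [hq]
    refine lt_min hc (lt_min ?_ ?_) <;> positivity
  set K : ℝ := 2 * NN ^ 2 * ((288 * n + 2) * L ^ 2) / τ ^ 2 + 2 with hK
  have hK1 : 1 < K := by
    have : 0 ≤ 2 * NN ^ 2 * ((288 * n + 2) * L ^ 2) / τ ^ 2 := by positivity
    linarith
  obtain ⟨κ₀, hκ₀, hgap⟩ := gap_exists n c hc K hK1 (q / 2) (by positivity)
  refine ⟨κ₀, hκ₀, fun κ hκ hκle P => ?_⟩
  obtain ⟨δ, hδκ, hδ0, hδ1, hEig, hfin⟩ := hgap κ hκ hκle P
  obtain ⟨N, hN⟩ : ∃ N, Module.finrank ℝ (Eig P.C.D δ) = N := ⟨_, rfl⟩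
  rw [hN] at hfin
  obtain ⟨s, p, hs, hon, hdeg, hspan, hperp, hpn, hchi⟩ := P.exists_basis δ N hN
  rw [chi_eq P.C P.eig_fin P.eig_solve δ hδ0.le, hchi]
  have hNle : (N : ℝ) ≤ NN := by
    rw [hNN]; exact_mod_cast hfin
  have hN0 : (0 : ℝ) ≤ N := Nat.cast_nonneg _
  have hqc : q ≤ c := min_le_left _ _
  have hq2 : q ≤ c * (η / 4) ^ 2 / 8 := (min_le_right _ _).trans (min_le_left _ _)
  have hq3 : q ≤ τ ^ 2 * c / (88 * NN ^ 2) := (min_le_right _ _).trans (min_le_right _ _)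
  obtain ⟨v, C, k, h1, h2, h3, h4, h5, h6⟩ := k6_core P hc δ K q τ (η / 4) L N hτ0.le
    (by positivity) hL hδκ hδ0 (by linarith) (by linarith) hqc
    (by
      rw [div_le_iff₀ hc]
      have : c * (η / 4) ^ 2 / 8 * 8 = (η / 4) ^ 2 * c := by ring
      linarith)
    (by
      have hA : (N : ℝ) ^ 2 * (36 * q / c) + N * (8 * q / c) ≤ τ ^ 2 / 2 := by
        have hN2 : (N : ℝ) ^ 2 ≤ NN ^ 2 := pow_le_pow_left₀ hN0 hNle 2
        have hN3 : (N : ℝ) ≤ NN ^ 2 := by nlinarith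
        calc (N : ℝ) ^ 2 * (36 * q / c) + N * (8 * q / c)
            ≤ NN ^ 2 * (36 * q / c) + NN ^ 2 * (8 * q / c) := by gcongr
          _ = 44 * NN ^ 2 / c * q := by ring
          _ ≤ 44 * NN ^ 2 / c * (τ ^ 2 * c / (88 * NN ^ 2)) := by gcongr
          _ = τ ^ 2 / 2 := by
              have : NN ≠ 0 := by positivity
              field_simp
              norm_num
      have hB : (N : ℝ) ^ 2 * ((288 * n + 2) * L ^ 2 / K) ≤ τ ^ 2 / 2 := by
        have hN2 : (N : ℝ) ^ 2 ≤ NN ^ 2 := pow_le_pow_left₀ hN0 hNle 2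
        have hK0 : 0 < K := by linarith
        calc (N : ℝ) ^ 2 * ((288 * n + 2) * L ^ 2 / K)
            ≤ NN ^ 2 * ((288 * n + 2) * L ^ 2 / K) := by gcongr
          _ = NN ^ 2 * ((288 * n + 2) * L ^ 2) / K := by ring
          _ ≤ τ ^ 2 / 2 := by
              rw [div_le_iff₀ hK0]
              have : τ ^ 2 / 2 * K = NN ^ 2 * ((288 * n + 2) * L ^ 2) + τ ^ 2 := by
                rw [hK]
                field_simp
              rw [this]
              have : 0 ≤ τ ^ 2 := by positivity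
              linarith
      linarith)
    hEig s p hs hon hdeg hspan hperp
  have hNN2 : (N : ℝ) * (L + 1) * τ ≤ NN * (L + 1) * τ := by gcongr
  have hτ1 : τ + NN * (L + 1) * τ = η / 2 := by
    have : τ * (2 * (1 + NN * (L + 1))) = 2 * (τ + NN * (L + 1) * τ) := by ring
    linarith
  have hpos : 0 ≤ NN * (L + 1) * τ := by positivity
  refine hlim N hfin p hpn v C k h1 (fun a b => (h2 a b).trans ?_) h3 h4
    (fun a b => (h5 a b).trans ?_) (h6.trans ?_)
  · linarith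
  · linarith
  · linarith

end ANCO
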