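import Pool.Agent.Helper39.Anco.Fock2
import Pool.Agent.Helper39.Anco.Cmp
import Pool.Agent.Helper39.Anco.Rho
import Pool.Agent.Helper39.Anco.PkgDefs
import Pool.Agent.Helper39.Anco.Cplx

open scoped ContDiff Topology Manifold InnerProductSpace
open Set MeasureTheory Filter

set_option maxSynthPendingDepth 3

noncomputable section
namespace ANCO

variable {n : ℕ} {M : Type} [TopologicalSpace M] [ChartedSpace (E n) M]

theorem link_fd (p : ℕ) : FiniteDimensional ℝ (Alt n p) :=
  FiniteDimensional.of_injective (cmp p) (cmp_injective p)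

/-- `cmp` as a continuous linear map -/
def linkCmp (p : ℕ) : Alt n p →L[ℝ] X n :=
  haveI := link_fd (n := n) p
  LinearMap.toContinuousLinearMap (cmp p)

theorem linkCmp_apply (p : ℕ) (w : Alt n p) : linkCmp p w = cmp p w := rfl

/-- `dec` as a continuous linear map -/
def linkDec (p : ℕ) : X n →L[ℝ] Alt n p := LinearMap.toContinuousLinearMap (dec p)

theorem linkDec_apply (p : ℕ) (x : X n) : linkDec p x = dec p x := rfl

theorem link_cmp_mem (p : ℕ) (w : DForm n M p) :
    (fun x y => cmp p (w.1 x y)) ∈ TForm n M := by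
  obtain ⟨w, h1, h2, h3⟩ := w
  refine ⟨fun x y hy => ?_, fun x => ?_, fun x x' y hy => ?_⟩
  · show cmp p (w x y) = 0
    rw [h1 x y hy, map_zero]
  · have := (linkCmp (n := n) p).contDiff.comp_contDiffOn (h2 x) (n := ∞)
    refine this.congr (fun y _ => ?_)
    rfl
  · show cmp p (w x y) = rho _ (cmp p (w x' _))
    rw [h3 x x' y hy, rho_cmp]

/-- the embedding of `p`-forms in total forms -/
def linkI (p : ℕ) : DForm n M p →ₗ[ℝ] TForm n M where
  toFun w := ⟨fun x y => cmp p (w.1 x y), link_cmp_mem p w⟩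
  map_add' s t := by
    apply Subtype.ext; funext x y
    show cmp p ((s.1 + t.1) x y) = cmp p (s.1 x y) + cmp p (t.1 x y)
    rw [← map_add]; rfl
  map_smul' c s := by
    apply Subtype.ext; funext x y
    show cmp p ((c • s.1) x y) = c • cmp p (s.1 x y)
    rw [← map_smul]; rfl

theorem linkI_apply (p : ℕ) (w : DForm n M p) (x : M) (y : E n) :
    (linkI p w).1 x y = cmp p (w.1 x y) := rfl

theorem linkI_injective (p : ℕ) : Function.Injective (linkI p : DForm n M p →ₗ[ℝ] TForm n M) := by
  intro s t hst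
  apply Subtype.ext
  funext x y
  apply cmp_injective p
  have := congrArg (fun u : TForm n M => u.1 x y) hst
  exact this

theorem link_dec_mem (p : ℕ) (s : TForm n M) (hs : prL p s = s) :
    (fun x y => dec p (s.1 x y)) ∈ DForm n M p := by
  have hs' : ∀ x y, prj p (s.1 x y) = s.1 x y := by
    intro x y
    exact congrArg (fun u : TForm n M => u.1 x y) hs
  obtain ⟨s, h1, h2, h3⟩ := s
  refine ⟨fun x y hy => ?_, fun x => ?_, fun x x' y hy => ?_⟩
  · show dec p (s x y) = 0
    rw [h1 x y hy, map_zero]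
  · have := (linkDec (n := n) p).contDiff.comp_contDiffOn (h2 x) (n := ∞)
    refine this.congr (fun y _ => ?_)
    rfl
  · show dec p (s x y) = (dec p (s x' _)).compContinuousLinearMap _
    rw [h3 x x' y hy]
    have h4 : cmp p (dec p (s x' (tr n M x x' y))) = s x' (tr n M x x' y) :=
      cmp_dec p _ (hs' x' (tr n M x x' y))
    conv_lhs => rw [← h4]
    rw [rho_cmp, dec_cmp]

theorem linkI_range (p : ℕ) :
    LinearMap.range (linkI p : DForm n M p →ₗ[ℝ] TForm n M) = LinearMap.range (prL p) := by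
  ext s
  constructor
  · rintro ⟨w, rfl⟩
    refine ⟨linkI p w, ?_⟩
    apply Subtype.ext; funext x y
    show prj p (cmp p (w.1 x y)) = cmp p (w.1 x y)
    rw [prj_cmp]; simp
  · rintro ⟨t, rfl⟩
    have hs : prL p (prL p t) = prL p t := by
      apply Subtype.ext; funext x y
      show prj p (prj p (t.1 x y)) = prj p (t.1 x y)
      rw [prj_prj]; simp
    refine ⟨⟨_, link_dec_mem p (prL p t) hs⟩, ?_⟩
    apply Subtype.ext; funext x y
    show cmp p (dec p ((prL p t).1 x y)) = (prL p t).1 x y
    apply cmp_dec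
    exact congrArg (fun u : TForm n M => u.1 x y) hs

theorem link_dT (p : ℕ) (w : DForm n M p) (x : M) (y : E n) (hy : y ∈ tgt n M x) :
    dT (linkI p w).1 x y = cmp (p + 1) (extDeriv (w.1 x) y) := by
  have hd : DifferentiableAt ℝ (w.1 x) y :=
    ((w.2.2.1 x).contDiffAt ((chartAt (E n) x).open_target.mem_nhds hy)).differentiableAt
      (by simp)
  unfold dT
  rw [if_pos hy]
  unfold dloc extDeriv
  rw [cmp_wedge]
  refine Finset.sum_congr rfl (fun i _ => ?_)
  congr 1
  have h1 : (linkI p w).1 x = fun y => linkCmp p (w.1 x y) := rfl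
  rw [h1]
  have h2 := ((linkCmp (n := n) p).hasFDerivAt.comp y hd.hasFDerivAt).fderiv
  have h3 : (fun y => linkCmp p (w.1 x y)) = (linkCmp (n := n) p) ∘ (w.1 x) := rfl
  rw [h3, h2]
  rfl

theorem link_dT_zero (s : M → E n → X n) (x : M) (y : E n) (hy : y ∉ tgt n M x) :
    dT s x y = 0 := by
  unfold dT
  rw [if_neg hy]

variable [IsManifold (𝓡 n) ∞ M] (g : RMetric n M)

theorem link_closed (p : ℕ) :
    (closedForms n M p).map (linkI p) = cyc (prL : ℕ → TForm n M →ₗ[ℝ] TForm n M) (dTL g) p := by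
  ext s
  constructor
  · rintro ⟨w, hw, rfl⟩
    refine ⟨?_, ?_⟩
    · show dTL g (linkI p w) = 0
      apply Subtype.ext; funext x y
      show dT (linkI p w).1 x y = 0
      by_cases hy : y ∈ tgt n M x
      · rw [link_dT p w x y hy, hw x y hy, map_zero]
      · exact link_dT_zero _ x y hy
    · show linkI p w ∈ LinearMap.range (prL p)
      rw [← linkI_range]
      exact ⟨w, rfl⟩
  · rintro ⟨h1, h2⟩
    have h2' : s ∈ LinearMap.range (linkI p : DForm n M p →ₗ[ℝ] TForm n M) := by
      rw [linkI_range]; exact h2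
    obtain ⟨w, rfl⟩ := h2'
    refine ⟨w, ?_, rfl⟩
    intro x y hy
    apply cmp_injective (p + 1)
    rw [← link_dT p w x y hy, map_zero]
    have h3 : dTL g (linkI p w) = 0 := h1
    exact congrArg (fun u : TForm n M => u.1 x y) h3

theorem link_exact (p : ℕ) :
    (exactForms n M p).map (linkI p) = bnd (prL : ℕ → TForm n M →ₗ[ℝ] TForm n M) (dTL g) p := by
  cases p with
  | zero => simp [exactForms, bnd]
  | succ p =>
    ext s
    constructor
    · rintro ⟨w, ⟨η, hη⟩, rfl⟩
      refine ⟨linkI p η, ?_, ?_⟩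
      · show linkI p η ∈ LinearMap.range (prL p)
        rw [← linkI_range]
        exact ⟨η, rfl⟩
      · apply Subtype.ext; funext x y
        show dT (linkI p η).1 x y = cmp (p + 1) (w.1 x y)
        by_cases hy : y ∈ tgt n M x
        · rw [link_dT p η x y hy, hη x y hy]
        · rw [link_dT_zero _ x y hy, w.2.1 x y hy, map_zero]
    · rintro ⟨t, ht, rfl⟩
      have ht' : t ∈ LinearMap.range (linkI p : DForm n M p →ₗ[ℝ] TForm n M) := by
        rw [linkI_range]; exact ht
      obtain ⟨η, rfl⟩ := ht'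
      have hr : dTL g (linkI p η) ∈ LinearMap.range (linkI (p + 1) : DForm n M (p + 1) →ₗ[ℝ] TForm n M) := by
        rw [linkI_range]
        refine ⟨dTL g (linkI p η), ?_⟩
        have h1 : prT p (linkI p η).1 = (linkI p η).1 := by
          funext x y
          show prj p (cmp p (η.1 x y)) = cmp p (η.1 x y)
          rw [prj_cmp]; simp
        apply Subtype.ext
        show prT (p + 1) (dT (linkI p η).1) = dT (linkI p η).1
        rw [prT_dT p (linkI p η).2, h1]
      obtain ⟨w, hw⟩ := hr
      refine ⟨w, ⟨η, ?_⟩, hw⟩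
      intro x y hy
      apply cmp_injective (p + 1)
      rw [← link_dT p η x y hy]
      exact congrArg (fun u : TForm n M => u.1 x y) hw

/-- M15 LINK -/
theorem betti_link {n : ℕ} {M : Type} [TopologicalSpace M] [ChartedSpace (E n) M]
    [IsManifold (𝓡 n) ∞ M] (g : RMetric n M) (p : ℕ) :
    betti n M p = bettiA (prL : ℕ → TForm n M →ₗ[ℝ] TForm n M) (dTL g) p := by
  unfold betti bettiA
  set F : closedForms n M p ≃ₗ[ℝ] cyc (prL : ℕ → TForm n M →ₗ[ℝ] TForm n M) (dTL g) p :=
    (Submodule.equivMapOfInjective (linkI p) (linkI_injective p) (closedForms n M p)).trans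
      (LinearEquiv.ofEq _ _ (link_closed g p)) with hF
  have hFa : ∀ w, ((F w : cyc (prL : ℕ → TForm n M →ₗ[ℝ] TForm n M) (dTL g) p) : TForm n M)
      = linkI p (w : DForm n M p) := fun w => rfl
  refine (Submodule.Quotient.equiv _ _ F ?_).finrank_eq
  ext s
  constructor
  · rintro ⟨w, hw, rfl⟩
    show ((F w : cyc (prL : ℕ → TForm n M →ₗ[ℝ] TForm n M) (dTL g) p) : TForm n M) ∈ bnd _ _ p
    rw [hFa, ← link_exact g p]
    exact ⟨_, hw, rfl⟩
  · intro hs
    have hs' : (s : TForm n M) ∈ bnd (prL : ℕ → TForm n M →ₗ[ℝ] TForm n M) (dTL g) p := hs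
    rw [← link_exact g p] at hs'
    obtain ⟨w, hw, hws⟩ := hs'
    refine ⟨F.symm s, ?_, by simp⟩
    show ((F.symm s : closedForms n M p) : DForm n M p) ∈ exactForms n M p
    have : ((F.symm s : closedForms n M p) : DForm n M p) = w := by
      apply linkI_injective p
      rw [← hFa, F.apply_symm_apply, hws]
    rw [this]; exact hw

end ANCO
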