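import Pool.Agent.Helper39.Anco.ClosC
import Pool.Agent.Helper39.Anco.RhoD

/-! ANCO module MKT: total forms from equivariant natural families on orthonormal frames. -/

open scoped ContDiff Topology Manifold InnerProductSpace
open Set MeasureTheory Filter

set_option maxSynthPendingDepth 3

noncomputable section
namespace ANCO

variable {n : ℕ} {M : Type} [TopologicalSpace M] [ChartedSpace (E n) M]

/-- Inverse of the orthonormal frame. -/
theorem mkt_inv (g : RMetric n M) (x : M) {y : E n} (hy : y ∈ tgt n M x) {b : E n →L[ℝ] E n}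
    (hb : IsoFr (g.g x) (y, b)) :
    ContinuousLinearMap.inverse b ∘L b = ContinuousLinearMap.id ℝ (E n) ∧
      b ∘L ContinuousLinearMap.inverse b = ContinuousLinearMap.id ℝ (E n) := by
  obtain ⟨c, h1, h2⟩ := iso_inv (g.isMet x) hy hb
  let ee : E n ≃L[ℝ] E n := ContinuousLinearEquiv.equivOfInverse b c
    (fun v => congrArg (fun T => T v) h1) (fun v => congrArg (fun T => T v) h2)
  have h3 : ContinuousLinearMap.inverse b = c := by
    have : b = (ee : E n →L[ℝ] E n) := by
      ext v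
      rfl
    rw [this, ContinuousLinearMap.inverse_equiv]
    ext v
    rfl
  rw [h3]
  exact ⟨h1, h2⟩

theorem mkt_inv_smooth (g : RMetric n M) (x : M) :
    ContDiffOn ℝ ∞ (fun y => ContinuousLinearMap.inverse (Bf g x y)) (tgt n M x) := by
  intro y hy
  obtain ⟨c, h1, h2⟩ := iso_inv (g.isMet x) hy ((Bf_spec g x).2 y hy)
  let ee : E n ≃L[ℝ] E n := ContinuousLinearEquiv.equivOfInverse (Bf g x y) c
    (fun v => congrArg (fun T => T v) h1) (fun v => congrArg (fun T => T v) h2)
  have h3 : ContDiffAt ℝ ∞ ContinuousLinearMap.inverse (ee : E n →L[ℝ] E n) :=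
    contDiffAt_map_inverse ee
  have h4 : ContDiffAt ℝ ∞ (Bf g x) y :=
    (Bf_spec g x).1.contDiffAt ((chartAt (E n) x).open_target.mem_nhds hy)
  have h5 : (ee : E n →L[ℝ] E n) = Bf g x y := by
    ext v
    rfl
  rw [h5] at h3
  exact (h3.comp y h4).contDiffWithinAt

/-- Construction of a total form from an `O(n)`-equivariant natural family on orthonormal
frames. -/
theorem mkT [IsManifold (𝓡 n) ∞ M] (g : RMetric n M) (K : M → Fr n → X n)
    (hnat : ∀ x x', ∀ y ∈ (tr n M x x').source, ∀ b, IsoFr (g.g x) (y, b) →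
      K x (y, b) = K x' (tr n M x x' y, fderiv ℝ (tr n M x x') y ∘L b))
    (heq : ∀ x, ∀ y ∈ tgt n M x, ∀ b k, IsoFr (g.g x) (y, b) → IsOrth k →
      K x (y, b ∘L k) = rho k (K x (y, b)))
    (hsm : ∀ x, ContDiffOn ℝ ∞ (fun y => K x (y, Bf g x y)) (tgt n M x)) :
    ∃ s ∈ TForm n M, ∀ x, ∀ y ∈ tgt n M x, ∀ b, IsoFr (g.g x) (y, b) →
      lift (s x) (y, b) = K x (y, b) := by
  classical
  let s : M → E n → X n := fun x y => if y ∈ tgt n M x then
    rho (ContinuousLinearMap.inverse (Bf g x y)) (K x (y, Bf g x y)) else 0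
  have hs : ∀ x, ∀ y ∈ tgt n M x, s x y =
      rho (ContinuousLinearMap.inverse (Bf g x y)) (K x (y, Bf g x y)) := fun x y hy => if_pos hy
  have key : ∀ x, ∀ y ∈ tgt n M x, ∀ b, IsoFr (g.g x) (y, b) →
      rho b (s x y) = K x (y, b) := by
    intro x y hy b hb
    obtain ⟨k, hk, hbk⟩ := iso_diff (g.isMet x) hy ((Bf_spec g x).2 y hy) hb
    obtain ⟨-, h2⟩ := mkt_inv g x hy ((Bf_spec g x).2 y hy)
    obtain ⟨h1, -⟩ := mkt_inv g x hy ((Bf_spec g x).2 y hy)
    rw [hs x y hy, hbk, rho_comp, ← rho_comp _ (Bf g x y), h1, rho_id,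
      ← heq x y hy _ k ((Bf_spec g x).2 y hy) hk]
  refine ⟨s, ⟨fun x y hy => if_neg hy, fun x => ?_, fun x x' y hy => ?_⟩, key⟩
  · have h1 : ContDiffOn ℝ ∞ (fun y => rho (ContinuousLinearMap.inverse (Bf g x y)))
        (tgt n M x) := rho_contDiff.comp_contDiffOn (mkt_inv_smooth g x)
    exact (h1.clm_apply (hsm x)).congr (hs x)
  · have hy1 := (mem_tr_source.1 hy).1
    have hy2 := (mem_tr_source.1 (tr_mem hy)).1
    have hb := (Bf_spec g x).2 y hy1
    obtain ⟨h1, h2⟩ := mkt_inv g x hy1 hb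
    have e1 := key x y hy1 _ hb
    have e2 := key x' _ hy2 _ (iso_tr g hy hb)
    rw [← hnat x x' y hy _ hb, rho_comp, ← e1] at e2
    have e3 := congrArg (rho (ContinuousLinearMap.inverse (Bf g x y))) e2
    have h6 : ∀ v : X n, rho (ContinuousLinearMap.inverse (Bf g x y)) (rho (Bf g x y) v) = v := by
      intro v
      rw [← rho_comp, h2, rho_id]
    rw [h6, h6] at e3
    exact e3.symm

end ANCO
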