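import Pool.Agent.Helper39.Anco.LDefs
import Pool.Agent.Helper39.Anco.Frame
import Pool.Agent.Helper39.Anco.Lap
import Pool.Agent.Helper39.Anco.Bochner

/-!
# ANCO module LYL: Li–Yau gradient estimate at a maximum point
-/

open scoped ContDiff Topology Manifold InnerProductSpace
open Set MeasureTheory

set_option maxSynthPendingDepth 3

noncomputable section
namespace ANCO

variable {n : ℕ}

/-- necessary second order condition at a local maximum on the line -/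
theorem lyl_second {F : ℝ → ℝ} (hF : ContDiffAt ℝ 2 F 0) (hmax : IsLocalMax F 0) :
    deriv (deriv F) 0 ≤ 0 := by
  by_contra hcon
  push Not at hcon
  have h0 : deriv F 0 = 0 := hmax.deriv_eq_zero
  have hmin : IsLocalMin F 0 := isLocalMin_of_deriv_deriv_pos hcon h0 hF.continuousAt
  have hconst : F =ᶠ[𝓝 0] fun _ => F 0 := by
    filter_upwards [hmax, hmin] with t h1 h2
    exact le_antisymm h1 h2
  have h1 : deriv F =ᶠ[𝓝 0] deriv (fun _ : ℝ => F 0) := hconst.deriv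
  have h2 : deriv (deriv F) 0 = deriv (deriv (fun _ : ℝ => F 0)) 0 := h1.deriv_eq
  rw [h2] at hcon
  simp at hcon

theorem lyl_hess {V : Type} [NormedAddCommGroup V] [NormedSpace ℝ V] {U : Set V} (hU : IsOpen U)
    {Φ : V → ℝ} (hΦ : ContDiffOn ℝ ∞ Φ U) {y₀ : V} (hy₀ : y₀ ∈ U) (hmax : ∀ y ∈ U, Φ y ≤ Φ y₀)
    (w : V) : fderiv ℝ (fderiv ℝ Φ) y₀ w w ≤ 0 := by
  set F : ℝ → ℝ := fun t => Φ (y₀ + t • w) with hFdef
  have hc : Continuous fun t : ℝ => y₀ + t • w := by fun_prop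
  have hU' : ∀ᶠ t in 𝓝 (0 : ℝ), y₀ + t • w ∈ U := by
    refine hc.continuousAt.eventually_mem (hU.mem_nhds ?_)
    simpa using hy₀
  have hd1 : ∀ᶠ t in 𝓝 (0 : ℝ), deriv F t = fderiv ℝ Φ (y₀ + t • w) w := by
    filter_upwards [hU'] with t ht
    have h1 : HasFDerivAt Φ (fderiv ℝ Φ (y₀ + t • w)) (y₀ + t • w) :=
      ((hΦ.contDiffAt (hU.mem_nhds ht)).differentiableAt (by simp)).hasFDerivAt
    have h2 : HasDerivAt (fun t : ℝ => y₀ + t • w) w t := by
      simpa using ((hasDerivAt_id t).smul_const w).const_add y₀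
    exact (h1.comp_hasDerivAt t h2).deriv
  have hfd : ContDiffOn ℝ ∞ (fderiv ℝ Φ) U := hΦ.fderiv_of_isOpen hU (by simp)
  have hd2 : deriv (deriv F) 0 = fderiv ℝ (fderiv ℝ Φ) y₀ w w := by
    rw [Filter.EventuallyEq.deriv_eq (f := fun t : ℝ => fderiv ℝ Φ (y₀ + t • w) w) hd1]
    have h1 : HasFDerivAt (fderiv ℝ Φ) (fderiv ℝ (fderiv ℝ Φ) y₀) (y₀ + (0 : ℝ) • w) := by
      rw [zero_smul, add_zero]
      exact ((hfd.contDiffAt (hU.mem_nhds hy₀)).differentiableAt (by simp)).hasFDerivAt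
    have h2 : HasDerivAt (fun t : ℝ => y₀ + t • w) w 0 := by
      simpa using ((hasDerivAt_id (0 : ℝ)).smul_const w).const_add y₀
    have h3 : HasDerivAt (fun t : ℝ => fderiv ℝ Φ (y₀ + t • w)) (fderiv ℝ (fderiv ℝ Φ) y₀ w) 0 :=
      h1.comp_hasDerivAt (0 : ℝ) h2
    exact (h3.clm_apply (hasDerivAt_const (0 : ℝ) w)).deriv.trans (by simp)
  rw [← hd2]
  refine lyl_second ?_ ?_
  · have h1 : ContDiffAt ℝ 2 Φ (y₀ + (0 : ℝ) • w) := by
      rw [zero_smul, add_zero]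
      exact_mod_cast contDiffAt_infty.1 (hΦ.contDiffAt (hU.mem_nhds hy₀)) 2
    exact h1.comp (0 : ℝ) (by fun_prop)
  · filter_upwards [hU'] with t ht
    simp only [hFdef, zero_smul, add_zero]
    exact hmax _ ht

/-! ### the Laplacian of `log (β - f)` -/

theorem lyl_fderiv_log {U : Set (E n)} (hU : IsOpen U) {f : E n → ℝ} (hf : ContDiffOn ℝ ∞ f U)
    {β : ℝ} (hβ : ∀ y ∈ U, 0 < β - f y) {y : E n} (hy : y ∈ U) :
    fderiv ℝ (fun y => Real.log (β - f y)) y = -(β - f y)⁻¹ • fderiv ℝ f y := by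
  have h1 : HasFDerivAt f (fderiv ℝ f y) y :=
    ((hf.contDiffAt (hU.mem_nhds hy)).differentiableAt (by simp)).hasFDerivAt
  have h2 : HasFDerivAt (fun y => β - f y) (-fderiv ℝ f y) y := by
    simpa using h1.const_sub β
  have h3 := h2.log (hβ y hy).ne'
  rw [h3.fderiv]
  ext v
  simp

theorem lyl_log_smooth {U : Set (E n)} {f : E n → ℝ} (hf : ContDiffOn ℝ ∞ f U)
    {β : ℝ} (hβ : ∀ y ∈ U, 0 < β - f y) :
    ContDiffOn ℝ ∞ (fun y => Real.log (β - f y)) U :=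
  (contDiffOn_const.sub hf).log fun y hy => (hβ y hy).ne'

theorem lyl_fderiv2_log {U : Set (E n)} (hU : IsOpen U) {f : E n → ℝ} (hf : ContDiffOn ℝ ∞ f U)
    {β : ℝ} (hβ : ∀ y ∈ U, 0 < β - f y) {y : E n} (hy : y ∈ U) (u w : E n) :
    fderiv ℝ (fderiv ℝ (fun y => Real.log (β - f y))) y u w =
      -(β - f y)⁻¹ * fderiv ℝ (fderiv ℝ f) y u w -
        (β - f y)⁻¹ ^ 2 * (fderiv ℝ f y u * fderiv ℝ f y w) := by
  have hev : fderiv ℝ (fun y => Real.log (β - f y)) =ᶠ[𝓝 y]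
      fun y => -(β - f y)⁻¹ • fderiv ℝ f y := by
    filter_upwards [hU.mem_nhds hy] with y' hy'
    exact lyl_fderiv_log hU hf hβ hy'
  rw [hev.fderiv_eq]
  have h1 : HasFDerivAt f (fderiv ℝ f y) y :=
    ((hf.contDiffAt (hU.mem_nhds hy)).differentiableAt (by simp)).hasFDerivAt
  have hfd : ContDiffOn ℝ ∞ (fderiv ℝ f) U := hf.fderiv_of_isOpen hU (by simp)
  have h1' : HasFDerivAt (fderiv ℝ f) (fderiv ℝ (fderiv ℝ f) y) y :=
    ((hfd.contDiffAt (hU.mem_nhds hy)).differentiableAt (by simp)).hasFDerivAt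
  have h2 : HasFDerivAt (fun y => β - f y) (-fderiv ℝ f y) y := by
    simpa using h1.const_sub β
  have h3 : HasFDerivAt (fun y => -(β - f y)⁻¹) (-(((β - f y) ^ 2)⁻¹ • fderiv ℝ f y)) y := by
    have h4 := (hasFDerivAt_inv (hβ y hy).ne').comp y h2
    have h5 : HasFDerivAt (fun y => -(β - f y)⁻¹) _ y := h4.neg
    refine h5.congr_fderiv ?_
    ext v
    simp
    ring
  have h6 : HasFDerivAt (fun y => -(β - f y)⁻¹ • fderiv ℝ f y) _ y := h3.smul h1'
  rw [h6.fderiv]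
  simp
  ring

theorem lyl_lap_log {G : Coef n} {U : Set (E n)} (h : IsMet G U) {f : E n → ℝ}
    (hf : ContDiffOn ℝ ∞ f U) {β : ℝ} (hβ : ∀ y ∈ U, 0 < β - f y) {y : E n} (hy : y ∈ U) :
    lap G (fun y => Real.log (β - f y)) y =
      -(β - f y)⁻¹ * lap G f y - grad2 G (fun y => Real.log (β - f y)) y := by
  unfold lap grad2
  rw [Finset.mul_sum, ← Finset.sum_sub_distrib]
  refine Finset.sum_congr rfl fun i _ => ?_
  rw [Finset.mul_sum, ← Finset.sum_sub_distrib]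
  refine Finset.sum_congr rfl fun j _ => ?_
  rw [lyl_fderiv2_log h.isOpen hf hβ hy, lyl_fderiv_log h.isOpen hf hβ hy]
  simp only [smul_apply, smul_eq_mul]
  ring

/-! ### curvature term -/

/-- `u ↦ R(u, v) w` -/
def lyl_L (G : Coef n) (y v w : E n) : E n →ₗ[ℝ] E n where
  toFun u := riem G y u v w
  map_add' a b := by
    simp [riem]
    abel
  map_smul' c a := by
    simp [riem, smul_sub, smul_add]

theorem lyl_rm_sum (G : Coef n) (y v w : E n) {m : ℕ} (a : Fin m → ℝ) (x : Fin m → E n) :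
    ∑ i, ∑ j, a i * a j * rm G y (x i) v w (x j) =
      rm G y (∑ i, a i • x i) v w (∑ j, a j • x j) := by
  have h1 : riem G y (∑ i, a i • x i) v w = ∑ i, a i • riem G y (x i) v w := by
    calc riem G y (∑ i, a i • x i) v w = lyl_L G y v w (∑ i, a i • x i) := rfl
      _ = ∑ i, lyl_L G y v w (a i • x i) := map_sum _ _ _
      _ = ∑ i, a i • riem G y (x i) v w :=
        Finset.sum_congr rfl fun i _ => map_smul (lyl_L G y v w) (a i) (x i)
  unfold rm
  rw [h1, map_sum]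
  simp only [map_smul, sum_apply, smul_apply, map_sum, smul_eq_mul, Finset.mul_sum]
  rw [Finset.sum_comm]
  refine Finset.sum_congr rfl fun i _ => Finset.sum_congr rfl fun j _ => ?_
  ring

theorem lyl_coord (a : Fin n → ℝ) (k : Fin n) : (∑ i, a i • (e i : E n)) k = a k := by
  simp [e, Finset.sum_apply, Pi.single_apply]

theorem lyl_curv {G : Coef n} {y : E n} {b : E n →L[ℝ] E n} (hiso : IsoFr G (y, b)) {κ : ℝ}
    (hκ : 0 ≤ κ) (hc : CurvOpGE G (-κ) y) (a : Fin n → ℝ) (k : Fin n) :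
    -κ * ∑ i, a i ^ 2 ≤ ∑ i, ∑ j, a i * a j * rm G y (b (e i)) (b (e k)) (b (e k)) (b (e j)) := by
  rw [lyl_rm_sum]
  set W : E n := ∑ i, a i • b (e i) with hW
  have h1 := hc 1 (fun _ => W) (fun _ => b (e k))
  simp only [Finset.univ_unique, Finset.sum_singleton] at h1
  have hWb : W = b (∑ i, a i • e i) := by
    rw [hW, map_sum]
    simp
  have hWW : G y W W = ∑ i, a i ^ 2 := by
    have := hiso (∑ i, a i • e i) (∑ i, a i • e i)
    simp only at this
    rw [hWb, this, real_inner_self_eq_norm_sq, EuclideanSpace.norm_sq_eq]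
    refine Finset.sum_congr rfl fun i _ => ?_
    rw [lyl_coord, Real.norm_eq_abs, sq_abs]
  have hkk : G y (b (e k)) (b (e k)) = 1 := by
    have := hiso (e k) (e k)
    simp only at this
    rw [this]
    simp [e]
  have hsq : 0 ≤ G y W (b (e k)) * G y (b (e k)) W := by
    have h2 : G y (b (e k)) W = G y W (b (e k)) := by
      have e1 := hiso (e k) (∑ i, a i • e i)
      have e2 := hiso (∑ i, a i • e i) (e k)
      simp only at e1 e2
      rw [hWb, e1, e2, real_inner_comm]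
    rw [h2]
    exact mul_self_nonneg _
  rw [hWW, hkk] at h1
  refine le_trans ?_ h1
  nlinarith

theorem lyl_Hd_fun {G : Coef n} {v : E n → ℝ} {z : Fr n} (hv : DifferentiableAt ℝ v z.1)
    (u : E n) : Hd G u (fun z => v z.1) z = fderiv ℝ v z.1 (z.2 u) := by
  unfold Hd ANCO.hv
  have h1 : HasFDerivAt (fun z : Fr n => v z.1)
      ((fderiv ℝ v z.1) ∘L (ContinuousLinearMap.fst ℝ (E n) (E n →L[ℝ] E n))) z :=
    hv.hasFDerivAt.comp z hasFDerivAt_fst
  rw [h1.fderiv]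
  rfl

theorem lyl_expand (w : E n) : w = ∑ i, w i • (e i : E n) := by
  ext k
  rw [lyl_coord]

theorem lyl_lap_nonpos {G : Coef n} {U : Set (E n)} (h : IsMet G U) {Φ : E n → ℝ}
    (hΦ : ContDiffOn ℝ ∞ Φ U) {y₀ : E n} (hy₀ : y₀ ∈ U) (hmax : ∀ y ∈ U, Φ y ≤ Φ y₀)
    {b : E n →L[ℝ] E n} (hiso : IsoFr G (y₀, b)) : lap G Φ y₀ ≤ 0 := by
  have hloc : IsLocalMax Φ y₀ := by
    filter_upwards [h.isOpen.mem_nhds hy₀] with y hy using hmax y hy
  have h0 : fderiv ℝ Φ y₀ = 0 := hloc.fderiv_eq_zero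
  have h1 : lap G Φ y₀ = ∑ k, fderiv ℝ (fderiv ℝ Φ) y₀ (b (e k)) (b (e k)) := by
    unfold lap
    have h2 : ∀ k, fderiv ℝ (fderiv ℝ Φ) y₀ (b (e k)) (b (e k)) =
        ∑ i, ∑ j, (b (e k)) i * (b (e k)) j * fderiv ℝ (fderiv ℝ Φ) y₀ (e i) (e j) := by
      intro k
      conv_lhs => rw [lyl_expand (b (e k))]
      simp only [map_sum, map_smul, sum_apply, smul_apply, smul_eq_mul, Finset.mul_sum]
      rw [Finset.sum_comm]
      refine Finset.sum_congr rfl fun i _ => Finset.sum_congr rfl fun j _ => ?_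
      ring
    simp only [h2, h0, zero_apply, sub_zero]
    have h3 : ∀ i j, ginv G y₀ i j = ∑ k, (b (e k)) i * (b (e k)) j := fun i j =>
      ginv_frame h (z := (y₀, b)) hy₀ hiso i j
    simp only [h3, Finset.sum_mul]
    symm
    rw [Finset.sum_comm]
    exact Finset.sum_congr rfl fun i _ => Finset.sum_comm
  rw [h1]
  exact Finset.sum_nonpos fun k _ => lyl_hess h.isOpen hΦ hy₀ hmax _

theorem lyl_algebra {P A L' L κ' m : ℝ} (hm : 1 ≤ m) (hP : 0 ≤ P) (hA : A ≤ L') (hL' : 0 ≤ L')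
    (hL : L' ≤ L) (hκ : 0 ≤ κ') (h : (A - P) ^ 2 ≤ m * (L' + κ') * P) :
    P ≤ 4 * m * (L + κ') := by
  by_contra hcon
  push Not at hcon
  have h1 : 4 * m * (L' + κ') < P := by
    refine lt_of_le_of_lt ?_ hcon
    have : L' + κ' ≤ L + κ' := by linarith
    nlinarith
  have h2 : 4 * L' < P := by
    refine lt_of_le_of_lt ?_ h1
    nlinarith
  have h3 : 3 / 4 * P ≤ P - A := by linarith
  have h4 : 0 < P := by linarith
  have h5 : (3 / 4 * P) ^ 2 ≤ (A - P) ^ 2 := by nlinarith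
  nlinarith

theorem ly_loc {G : Coef n} {U : Set (E n)} (h : IsMet G U) (hn : 1 ≤ n) {κ : ℝ} (hκ : 0 ≤ κ)
    (hc : ∀ y ∈ U, CurvOpGE G (-κ) y) {f : E n → ℝ} (hf : ContDiffOn ℝ ∞ f U) {l β : ℝ}
    (hl : 0 ≤ l) (hβ : 1 < β) (hle : ∀ y ∈ U, f y ≤ 1) (heig : ∀ y ∈ U, lap G f y = -l * f y)
    {y₀ : E n} (hy₀ : y₀ ∈ U)
    (hmax : ∀ y ∈ U, grad2 G (fun y => Real.log (β - f y)) y ≤
      grad2 G (fun y => Real.log (β - f y)) y₀) :
    grad2 G (fun y => Real.log (β - f y)) y₀ ≤ 4 * n * (l * β / (β - 1) + n * κ) := by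
  have hβf : ∀ y ∈ U, 0 < β - f y := fun y hy => by linarith [hle y hy]
  have hvs := lyl_log_smooth hf hβf
  set v : E n → ℝ := fun y => Real.log (β - f y) with hv
  set Φ : E n → ℝ := grad2 G v with hΦ
  have hΦs : ContDiffOn ℝ ∞ Φ U := grad2_smooth h hvs
  obtain ⟨B, hB⟩ := exists_frame h
  have hiso : IsoFr G (y₀, B y₀) := hB.2 y₀ hy₀
  have hU := h.isOpen.mem_nhds hy₀
  have hdv : DifferentiableAt ℝ v y₀ := (hvs.contDiffAt hU).differentiableAt (by simp)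
  have hdf : DifferentiableAt ℝ f y₀ := (hf.contDiffAt hU).differentiableAt (by simp)
  set a : Fin n → ℝ := fun k => fderiv ℝ v y₀ (B y₀ (e k)) with ha
  have hHd : ∀ k, Hd G (e k) (fun z => v z.1) (y₀, B y₀) = a k := fun k =>
    lyl_Hd_fun (z := (y₀, B y₀)) hdv (e k)
  have hPsum : Φ y₀ = ∑ k, a k ^ 2 := by
    have := grad2_frame h hvs (z := (y₀, B y₀)) hy₀ hiso
    simp only [hHd] at this
    exact this.symm
  have hP0 : 0 ≤ Φ y₀ := by
    rw [hPsum]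
    exact Finset.sum_nonneg fun k _ => sq_nonneg _
  have hlap0 : lap G Φ y₀ ≤ 0 := lyl_lap_nonpos h hΦs hy₀ hmax hiso
  have hβ0 : 0 < β - f y₀ := hβf y₀ hy₀
  have hlapv : ∀ y ∈ U, lap G v y = l * f y * (β - f y)⁻¹ - Φ y := by
    intro y hy
    rw [hv, lyl_lap_log h hf hβf hy, heig y hy]
    ring
  have hΦ0 : fderiv ℝ Φ y₀ = 0 := by
    have : IsLocalMax Φ y₀ := by
      filter_upwards [hU] with y hy using hmax y hy
    exact this.fderiv_eq_zero
  have hfv : ∀ w, fderiv ℝ v y₀ w = -(β - f y₀)⁻¹ * fderiv ℝ f y₀ w := by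
    intro w
    rw [hv, lyl_fderiv_log h.isOpen hf hβf hy₀]
    simp
  have hdlap : ∀ j, fderiv ℝ (lap G v) y₀ (B y₀ (e j)) = -(l * β * (β - f y₀)⁻¹) * a j := by
    intro j
    have hev : lap G v =ᶠ[𝓝 y₀] fun y => l * f y * (β - f y)⁻¹ - Φ y := by
      filter_upwards [hU] with y hy using hlapv y hy
    rw [hev.fderiv_eq]
    have h1 := hdf.hasFDerivAt
    have h2 : HasFDerivAt (fun y => β - f y) (-fderiv ℝ f y₀) y₀ := by
      simpa using h1.const_sub β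
    have h3 : HasFDerivAt (fun y => (β - f y)⁻¹) _ y₀ := (hasFDerivAt_inv hβ0.ne').comp y₀ h2
    have h4 : HasFDerivAt (fun y => l * f y * (β - f y)⁻¹) _ y₀ := (h1.const_mul l).mul h3
    have h5 : HasFDerivAt Φ (fderiv ℝ Φ y₀) y₀ :=
      ((hΦs.contDiffAt hU).differentiableAt (by simp)).hasFDerivAt
    have h6 : HasFDerivAt (fun y => l * f y * (β - f y)⁻¹ - Φ y) _ y₀ := h4.sub h5
    rw [h6.fderiv, hΦ0, ha]
    simp only [hfv]
    simp
    field_simp
    ring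
  have hboch := bochner_fun h hvs (z := (y₀, B y₀)) hy₀ hiso
  simp only [hHd, hdlap] at hboch
  set hh : Fin n → Fin n → ℝ := fun k j =>
    Hd G (e k) (Hd G (e j) (fun z => v z.1)) (y₀, B y₀) with hhh
  have hcs : (∑ k, hh k k) ^ 2 ≤ n * ∑ k, ∑ j, hh k j ^ 2 := by
    have h1 : (∑ k, hh k k) ^ 2 ≤ n * ∑ k, hh k k ^ 2 := by
      have := sq_sum_le_card_mul_sum_sq (s := Finset.univ) (f := fun k => hh k k)
      simpa using this
    refine h1.trans (mul_le_mul_of_nonneg_left (Finset.sum_le_sum fun k _ => ?_) (by positivity))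
    exact Finset.single_le_sum (f := fun j => hh k j ^ 2) (fun j _ => sq_nonneg _)
      (Finset.mem_univ k)
  have hlapf : ∑ k, hh k k = l * f y₀ * (β - f y₀)⁻¹ - Φ y₀ := by
    rw [← hlapv y₀ hy₀]
    exact lap_frame h hvs (z := (y₀, B y₀)) hy₀ hiso
  have hcurv : -(n : ℝ) * κ * Φ y₀ ≤ ∑ k, ∑ i, ∑ j, a i * a j *
      rm G y₀ (B y₀ (e i)) (B y₀ (e k)) (B y₀ (e k)) (B y₀ (e j)) := by
    have h1 : ∑ k : Fin n, (-κ * Φ y₀) ≤ ∑ k, ∑ i, ∑ j, a i * a j *
        rm G y₀ (B y₀ (e i)) (B y₀ (e k)) (B y₀ (e k)) (B y₀ (e j)) := by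
      refine Finset.sum_le_sum fun k _ => ?_
      rw [hPsum]
      exact lyl_curv hiso hκ (hc y₀ hy₀) a k
    refine le_trans (le_of_eq ?_) h1
    simp
    ring
  have hmid : ∑ j, a j * (-(l * β * (β - f y₀)⁻¹) * a j) = -(l * β * (β - f y₀)⁻¹) * Φ y₀ := by
    rw [hPsum, Finset.mul_sum]
    exact Finset.sum_congr rfl fun j _ => by ring
  rw [hmid] at hboch
  have hn' : (1 : ℝ) ≤ n := by exact_mod_cast hn
  have hinv : (β - f y₀)⁻¹ ≤ (β - 1)⁻¹ := by
    apply inv_anti₀ (by linarith)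
    linarith [hle y₀ hy₀]
  have hinv0 : 0 < (β - f y₀)⁻¹ := inv_pos.2 hβ0
  refine lyl_algebra (A := l * f y₀ * (β - f y₀)⁻¹) (L' := l * β * (β - f y₀)⁻¹) hn' hP0 ?_ ?_ ?_
    (by positivity) ?_
  · refine mul_le_mul_of_nonneg_right (mul_le_mul_of_nonneg_left ?_ hl) hinv0.le
    linarith
  · have : 0 ≤ l * β := mul_nonneg hl (by linarith)
    positivity
  · rw [div_eq_mul_inv]
    exact mul_le_mul_of_nonneg_left hinv (mul_nonneg hl (by linarith))
  · have h1 : n * ∑ k, ∑ j, hh k j ^ 2 ≤ n * ((l * β * (β - f y₀)⁻¹ + n * κ) * Φ y₀) := by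
      refine mul_le_mul_of_nonneg_left ?_ (by positivity)
      nlinarith
    rw [← hlapf]
    refine (hcs.trans h1).trans (le_of_eq ?_)
    ring

end ANCO
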