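import Pool.Agent.Helper39.Anco.Tr
import Pool.Agent.Helper39.Anco.Valch
import Pool.Agent.Helper39.Anco.ClosC
import Pool.Agent.Helper39.Anco.Frame

/-! ANCO module PATH: a gradient bound controls the variation of a function along curves. -/

open scoped ContDiff Topology Manifold InnerProductSpace
open Set MeasureTheory Filter

set_option maxSynthPendingDepth 3

noncomputable section
namespace ANCO

variable {n : ℕ} {M : Type} [TopologicalSpace M] [ChartedSpace (E n) M]

/-- the parameter set of the part of a curve lying in a chart domain is open -/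
theorem path_open {γ : ℝ → M} (hγ : ContMDiff 𝓘(ℝ, ℝ) (𝓡 n) 1 γ) (x : M) :
    IsOpen (γ ⁻¹' (chartAt (E n) x).source) :=
  (chartAt (E n) x).open_source.preimage hγ.continuous

/-- a `C^1` curve is `C^1` in every chart -/
theorem path_chart [IsManifold (𝓡 n) ∞ M] {γ : ℝ → M} (hγ : ContMDiff 𝓘(ℝ, ℝ) (𝓡 n) 1 γ)
    (x : M) : ContDiffOn ℝ 1 (fun s => chartAt (E n) x (γ s))
      (γ ⁻¹' (chartAt (E n) x).source) := by
  have : IsManifold (𝓡 n) 1 M := IsManifold.of_le (n := ∞) (by simp)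
  have h1 : ContMDiffOn (𝓡 n) (𝓡 n) 1 (chartAt (E n) x) (chartAt (E n) x).source :=
    contMDiffOn_chart
  have h2 : ContMDiffOn 𝓘(ℝ, ℝ) (𝓡 n) 1 ((chartAt (E n) x) ∘ γ)
      (γ ⁻¹' (chartAt (E n) x).source) :=
    h1.comp hγ.contMDiffOn (fun s hs => hs)
  exact contMDiffOn_iff_contDiffOn.1 h2

theorem path_diff [IsManifold (𝓡 n) ∞ M] {γ : ℝ → M} (hγ : ContMDiff 𝓘(ℝ, ℝ) (𝓡 n) 1 γ)
    {x : M} {t : ℝ} (ht : γ t ∈ (chartAt (E n) x).source) :
    DifferentiableAt ℝ (fun s => chartAt (E n) x (γ s)) t :=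
  ((path_chart hγ x).contDiffAt ((path_open hγ x).mem_nhds ht)).differentiableAt (by simp)

/-- the speed of a curve computed in an arbitrary chart -/
theorem path_speed [IsManifold (𝓡 n) ∞ M] (g : RMetric n M) {γ : ℝ → M}
    (hγ : ContMDiff 𝓘(ℝ, ℝ) (𝓡 n) 1 γ) {x : M} {t : ℝ}
    (ht : γ t ∈ (chartAt (E n) x).source) :
    speed g γ t = Real.sqrt (g.g x (chartAt (E n) x (γ t))
      (deriv (fun s => chartAt (E n) x (γ s)) t) (deriv (fun s => chartAt (E n) x (γ s)) t)) := by
  have hy : chartAt (E n) x (γ t) ∈ (tr n M x (γ t)).source := by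
    rw [mem_tr_source]
    refine ⟨(chartAt (E n) x).map_source ht, ?_⟩
    rw [(chartAt (E n) x).left_inv ht]
    exact mem_chart_source (E n) (γ t)
  have hD : DifferentiableAt ℝ (tr n M x (γ t)) (chartAt (E n) x (γ t)) :=
    ((tr_smooth x (γ t)).contDiffAt ((tr n M x (γ t)).open_source.mem_nhds hy)).differentiableAt
      (by simp)
  have heq : (fun s => chartAt (E n) (γ t) (γ s)) =ᶠ[𝓝 t]
      fun s => tr n M x (γ t) (chartAt (E n) x (γ s)) := by
    filter_upwards [(path_open hγ x).mem_nhds ht] with s hs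
    change _ = chartAt (E n) (γ t) ((chartAt (E n) x).symm (chartAt (E n) x (γ s)))
    rw [(chartAt (E n) x).left_inv hs]
  have hder : deriv (fun s => chartAt (E n) (γ t) (γ s)) t =
      fderiv ℝ (tr n M x (γ t)) (chartAt (E n) x (γ t))
        (deriv (fun s => chartAt (E n) x (γ s)) t) := by
    rw [heq.deriv_eq]
    have h := hD.hasFDerivAt.comp_hasDerivAt t (path_diff hγ ht).hasDerivAt
    exact h.deriv
  have hval : chartAt (E n) (γ t) (γ t) = tr n M x (γ t) (chartAt (E n) x (γ t)) := by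
    change _ = chartAt (E n) (γ t) ((chartAt (E n) x).symm (chartAt (E n) x (γ t)))
    rw [(chartAt (E n) x).left_inv ht]
  rw [speed, hder, g.compat x (γ t) _ hy, ← hval]

theorem path_speed_cont [IsManifold (𝓡 n) ∞ M] (g : RMetric n M) {γ : ℝ → M}
    (hγ : ContMDiff 𝓘(ℝ, ℝ) (𝓡 n) 1 γ) : Continuous (speed g γ) := by
  rw [continuous_iff_continuousAt]
  intro t
  have hO := path_open hγ (γ t)
  have ht : t ∈ γ ⁻¹' (chartAt (E n) (γ t)).source := mem_chart_source (E n) (γ t)
  have heq : speed g γ =ᶠ[𝓝 t] fun s => Real.sqrt (g.g (γ t) (chartAt (E n) (γ t) (γ s))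
      (deriv (fun s => chartAt (E n) (γ t) (γ s)) s)
      (deriv (fun s => chartAt (E n) (γ t) (γ s)) s)) := by
    filter_upwards [hO.mem_nhds ht] with s hs
    exact path_speed g hγ hs
  refine ContinuousAt.congr ?_ heq.symm
  have hc : ContinuousAt (fun s => chartAt (E n) (γ t) (γ s)) t :=
    (path_diff hγ (mem_chart_source (E n) (γ t))).continuousAt
  have hd : ContinuousAt (fun s => deriv (fun s => chartAt (E n) (γ t) (γ s)) s) t :=
    ((path_chart hγ (γ t)).continuousOn_deriv_of_isOpen hO le_rfl).continuousAt (hO.mem_nhds ht)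
  have hg : ContinuousAt (g.g (γ t)) (chartAt (E n) (γ t) (γ t)) :=
    ((g.smooth (γ t)).continuousOn).continuousAt
      ((chartAt (E n) (γ t)).open_target.mem_nhds
        ((chartAt (E n) (γ t)).map_source (mem_chart_source (E n) (γ t))))
  have hgc : ContinuousAt (fun s => g.g (γ t) (chartAt (E n) (γ t) (γ s))) t :=
    ContinuousAt.comp (g := g.g (γ t)) hg hc
  exact Real.continuous_sqrt.continuousAt.comp ((hgc.clm_apply hd).clm_apply hd)

/-- the Euclidean Cauchy–Schwarz inequality used for the gradient bound -/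
theorem path_cs (u : E n) (a : Fin n → ℝ) {S : ℝ} (hS : 0 ≤ S) (ha : ∑ i, a i ^ 2 ≤ S ^ 2) :
    |∑ i, u i * a i| ≤ S * ‖u‖ := by
  have h := Finset.sum_mul_sq_le_sq_mul_sq Finset.univ (fun i => u i) a
  have hu : ‖u‖ ^ 2 = ∑ i, u i ^ 2 := by
    rw [EuclideanSpace.norm_sq_eq]
    simp
  have h2 : (∑ i, u i * a i) ^ 2 ≤ (S * ‖u‖) ^ 2 := by
    calc (∑ i, u i * a i) ^ 2 ≤ (∑ i, u i ^ 2) * ∑ i, a i ^ 2 := h
      _ ≤ (∑ i, u i ^ 2) * S ^ 2 :=
        mul_le_mul_of_nonneg_left ha (Finset.sum_nonneg fun i _ => sq_nonneg _)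
      _ = (S * ‖u‖) ^ 2 := by rw [mul_pow, hu, mul_comm]
  exact abs_le_of_sq_le_sq h2 (mul_nonneg hS (norm_nonneg _))

/-- the gradient bound in the chart at a point -/
theorem path_grad [IsManifold (𝓡 n) ∞ M] (g : RMetric n M) {f : M → ℝ} (hf : IsSm n M f) {S : ℝ}
    (hS : 0 ≤ S) (hb : ∀ x, ∑ i, ‖nab g (fnT f) x i‖ ^ 2 ≤ S ^ 2) (x : M) (v : E n) :
    |fderiv ℝ (fun y => f ((chartAt (E n) x).symm y)) (ctr n x) v| ≤
      S * Real.sqrt (g.g x (ctr n x) v v) := by
  have hy : ctr n x ∈ tgt n M x := (chartAt (E n) x).map_source (mem_chart_source (E n) x)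
  have hiso : IsoFr (g.g x) (ctr n x, Bf g x (ctr n x)) := (Bf_spec g x).2 _ hy
  obtain ⟨c, -, hc2⟩ := iso_inv (g.isMet x) (z := (ctr n x, Bf g x (ctr n x))) hy hiso
  have hv : v = Bf g x (ctr n x) (c v) := by
    have := congrArg (fun L : E n →L[ℝ] E n => L v) hc2
    simpa using this.symm
  have hG : g.g x (ctr n x) v v = ‖c v‖ ^ 2 := by
    have h := hiso (c v) (c v)
    simp only at h
    rw [← hv, real_inner_self_eq_norm_sq] at h
    exact h
  have hexp : (c v) = ∑ i, (c v) i • (e i : E n) := by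
    ext j
    simp [e, Pi.single_apply]
  have hlin : fderiv ℝ (fun y => f ((chartAt (E n) x).symm y)) (ctr n x) v =
      ∑ i, (c v) i * fderiv ℝ (fun y => f ((chartAt (E n) x).symm y)) (ctr n x)
        (Bf g x (ctr n x) (e i)) := by
    conv_lhs => rw [hv, hexp]
    simp only [map_sum, map_smul, smul_eq_mul]
  have hsum : ∑ i, (fderiv ℝ (fun y => f ((chartAt (E n) x).symm y)) (ctr n x)
      (Bf g x (ctr n x) (e i))) ^ 2 ≤ S ^ 2 := by
    refine le_trans (le_of_eq ?_) (hb x)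
    refine Finset.sum_congr rfl fun i _ => ?_
    rw [nab_fnT g hf x i, norm_smul]
    have : ‖(eX (∅ : Finset (Fin n)) : X n)‖ = 1 := by
      rw [eX]
      simp
    rw [this, mul_one, Real.norm_eq_abs, sq_abs]
  rw [hlin, hG, Real.sqrt_sq (norm_nonneg _)]
  exact path_cs (c v) _ hS hsum

theorem path_local [IsManifold (𝓡 n) ∞ M] {f : M → ℝ} (hf : IsSm n M f)
    {γ : ℝ → M} (hγ : ContMDiff 𝓘(ℝ, ℝ) (𝓡 n) 1 γ) (x : M) :
    ContDiffOn ℝ 1 (fun s => f (γ s)) (γ ⁻¹' (chartAt (E n) x).source) := by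
  have h1 : ContDiffOn ℝ 1 (fun s => f ((chartAt (E n) x).symm (chartAt (E n) x (γ s))))
      (γ ⁻¹' (chartAt (E n) x).source) :=
    ContDiffOn.comp (g := fun y => f ((chartAt (E n) x).symm y)) ((hf x).of_le (by simp))
      (path_chart hγ x) (fun s hs => (chartAt (E n) x).map_source hs)
  refine h1.congr fun s hs => ?_
  rw [(chartAt (E n) x).left_inv hs]

theorem path_bound [IsManifold (𝓡 n) ∞ M] (g : RMetric n M) {f : M → ℝ} (hf : IsSm n M f) {S : ℝ}
    (hS : 0 ≤ S) (hb : ∀ x, ∑ i, ‖nab g (fnT f) x i‖ ^ 2 ≤ S ^ 2) {γ : ℝ → M}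
    (hγ : ContMDiff 𝓘(ℝ, ℝ) (𝓡 n) 1 γ) :
    |f (γ 1) - f (γ 0)| ≤ S * ∫ t in (0:ℝ)..1, speed g γ t := by
  have hC : ContDiff ℝ 1 (fun s => f (γ s)) := by
    rw [contDiff_iff_contDiffAt]
    intro t
    exact (path_local hf hγ (γ t)).contDiffAt
      ((path_open hγ (γ t)).mem_nhds (mem_chart_source (E n) (γ t)))
  have hder : ∀ t, |deriv (fun s => f (γ s)) t| ≤ S * speed g γ t := by
    intro t
    have hy : ctr n (γ t) ∈ tgt n M (γ t) :=
      (chartAt (E n) (γ t)).map_source (mem_chart_source (E n) (γ t))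
    have hF : DifferentiableAt ℝ (fun y => f ((chartAt (E n) (γ t)).symm y)) (ctr n (γ t)) :=
      ((hf (γ t)).contDiffAt ((chartAt (E n) (γ t)).open_target.mem_nhds hy)).differentiableAt
        (by simp)
    have heq : (fun s => f (γ s)) =ᶠ[𝓝 t]
        fun s => f ((chartAt (E n) (γ t)).symm (chartAt (E n) (γ t) (γ s))) := by
      filter_upwards [(path_open hγ (γ t)).mem_nhds (mem_chart_source (E n) (γ t))] with s hs
      rw [(chartAt (E n) (γ t)).left_inv hs]
    have h := hF.hasFDerivAt.comp_hasDerivAt t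
      (path_diff hγ (mem_chart_source (E n) (γ t))).hasDerivAt
    have h2 : deriv (fun s => f (γ s)) t =
        fderiv ℝ (fun y => f ((chartAt (E n) (γ t)).symm y)) (ctr n (γ t))
          (deriv (fun s => chartAt (E n) (γ t) (γ s)) t) := by
      rw [heq.deriv_eq]
      exact h.deriv
    rw [h2]
    exact path_grad g hf hS hb (γ t) _
  have hint : ∫ t in (0:ℝ)..1, deriv (fun s => f (γ s)) t = f (γ 1) - f (γ 0) :=
    intervalIntegral.integral_deriv_eq_sub (fun t _ => (hC.differentiable (by simp)) t)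
      ((hC.continuous_deriv le_rfl).intervalIntegrable 0 1)
  have hsp := path_speed_cont g hγ
  rw [← hint, ← intervalIntegral.integral_const_mul]
  calc |∫ t in (0:ℝ)..1, deriv (fun s => f (γ s)) t|
      ≤ ∫ t in (0:ℝ)..1, |deriv (fun s => f (γ s)) t| :=
        intervalIntegral.abs_integral_le_integral_abs zero_le_one
    _ ≤ ∫ t in (0:ℝ)..1, S * speed g γ t :=
        intervalIntegral.integral_mono_on zero_le_one
          ((hC.continuous_deriv le_rfl).abs.intervalIntegrable 0 1)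
          ((hsp.const_mul S).intervalIntegrable 0 1) (fun t _ => hder t)

end ANCO
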