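import Pool.Agent.Helper39.Anco.Geo
import Pool.Agent.Helper39.Anco.Wint
import Pool.Agent.Helper39.Anco.Rho
import Pool.Agent.Helper39.Anco.Valch
import Pool.Agent.Helper39.Anco.Clos
import Pool.Agent.Helper39.Anco.ClosB
import Pool.Agent.Helper39.Anco.ClosC
import Pool.Agent.Helper39.Anco.Int
import Pool.Agent.Helper39.Anco.Lap
import Pool.Agent.Helper39.Anco.Lyloc
import Pool.Agent.Helper39.Anco.Path

open scoped ContDiff Topology Manifold InnerProductSpace
open Set MeasureTheory Filter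

set_option maxSynthPendingDepth 3

noncomputable section
namespace ANCO

variable {n : ℕ}

theorem lyg_inner_vac : ⟪(eX ∅ : X n), eX ∅⟫_ℝ = 1 := by simp [eX]

/-- horizontal derivative of the lift of a function -/
theorem lyg_hd_fun {G : Coef n} {U : Set (E n)} (hU : IsOpen U) {f : E n → ℝ}
    (hf : ContDiffOn ℝ ∞ f U) {w : E n → X n} (hw : ∀ y ∈ U, w y = f y • eX ∅)
    {z : Fr n} (hz : z.1 ∈ U) (u : E n) :
    Hd G u (lift w) z = (Hd G u (fun z => f z.1) z) • (eX ∅ : X n) := by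
  have hF1 : ContDiffOn ℝ ∞ (fun z : Fr n => f z.1) (U ×ˢ univ) :=
    hf.comp contDiff_fst.contDiffOn (fun z hz => hz.1)
  have h1 : ∀ z' : Fr n, z'.1 ∈ U → lift w z' = f z'.1 • (eX ∅ : X n) := by
    intro z' hz'
    unfold lift
    rw [hw _ hz', map_smul, rho_vac]
  rw [wint_hd_congr hU hz h1]
  unfold Hd
  rw [fderiv_smul_const (wint_diff hU hF1 hz)]
  rfl

variable {M : Type} [TopologicalSpace M] [ChartedSpace (E n) M]

/-- the function `f` in the chart at `x` -/
def lygc (x : M) (f : M → ℝ) (y : E n) : ℝ := f ((chartAt (E n) x).symm y)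

theorem lyg_cont [IsManifold (𝓡 n) ∞ M] (g : RMetric n M) {f : M → ℝ} (hf : IsSm n M f) :
    Continuous f := by
  have h1T : fnT (fun _ : M => (1 : ℝ)) ∈ TForm n M := fnT_mem (fun x => contDiffOn_const)
  have h := cont_ip g (fnT_mem hf) h1T
  refine h.congr (fun x => ?_)
  rw [val_fnT, val_fnT, one_smul, inner_smul_left, lyg_inner_vac]
  simp

/-- the squared gradient in an arbitrary chart -/
theorem lyg_grad [IsManifold (𝓡 n) ∞ M] (g : RMetric n M) {v : M → ℝ} (hv : IsSm n M v) (x : M)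
    {y : E n} (hy : y ∈ tgt n M x) :
    ∑ i, ‖nab g (fnT v) ((chartAt (E n) x).symm y) i‖ ^ 2 = grad2 (g.g x) (lygc x v) y := by
  have hx : (chartAt (E n) x).symm y ∈ (chartAt (E n) x).source :=
    (chartAt (E n) x).map_target hy
  have h1 := inner_nab_chart g x _ hx (fnT_mem hv) (fnT_mem hv)
  rw [(chartAt (E n) x).right_inv hy] at h1
  have h2 : ∑ i, ‖nab g (fnT v) ((chartAt (E n) x).symm y) i‖ ^ 2 =
      ∑ i, ⟪nab g (fnT v) ((chartAt (E n) x).symm y) i,
        nab g (fnT v) ((chartAt (E n) x).symm y) i⟫_ℝ :=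
    Finset.sum_congr rfl (fun i _ => (real_inner_self_eq_norm_sq _).symm)
  rw [h2, h1]
  have hB : IsoFr (g.g x) (y, Bf g x y) := (Bf_spec g x).2 y hy
  refine Eq.trans ?_ (grad2_frame (g.isMet x) (v := lygc x v) (hv x) (z := (y, Bf g x y)) hy hB)
  refine Finset.sum_congr rfl (fun i _ => ?_)
  rw [lyg_hd_fun (g.isMet x).isOpen (hv x) (w := fnT v x)
    (fun y hy => by simp only [fnT]; rw [if_pos hy]) (z := (y, Bf g x y)) hy]
  rw [inner_smul_left, inner_smul_right, lyg_inner_vac]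
  simp only [conj_trivial, mul_one]
  exact (sq _).symm

/-- the eigenvalue equation in a chart -/
theorem lyg_eig (g : RMetric n M) {f : M → ℝ} (hf : IsSm n M f) {l : ℝ}
    (h : deT g (dT (fnT f)) = l • fnT f) (x : M) {y : E n} (hy : y ∈ tgt n M x) :
    lap (g.g x) (lygc x f) y = -l * lygc x f y := by
  have hB : IsoFr (g.g x) (y, Bf g x y) := (Bf_spec g x).2 y hy
  have h1 := wint_dd_fun (g.isMet x) (hf x) (w := fnT f x) (w' := dT (fnT f) x)
    (fun y hy => by simp only [fnT]; rw [if_pos hy]) (fun y hy => by simp only [dT]; rw [if_pos hy])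
    (z := (y, Bf g x y)) hy hB
  rw [lap_frame (g.isMet x) (hf x) (z := (y, Bf g x y)) hy hB] at h1
  have h2 : deloc (g.g x) (dT (fnT f) x) y = (l * lygc x f y) • (eX ∅ : X n) := by
    have h3 := congrFun (congrFun h x) y
    simp only [deT] at h3
    rw [if_pos hy] at h3
    rw [h3]
    simp only [Pi.smul_apply, fnT]
    rw [if_pos hy, smul_smul]
    rfl
  have h4 : lift (deloc (g.g x) (dT (fnT f) x)) (y, Bf g x y) = (l * lygc x f y) • (eX ∅ : X n) := by
    unfold lift
    simp only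
    rw [h2, map_smul, rho_vac]
  rw [h4] at h1
  have h5 := congrArg (fun w : X n => ⟪w, eX ∅⟫_ℝ) h1
  simp only [inner_smul_left, inner_neg_left, lyg_inner_vac, conj_trivial, mul_one] at h5
  change l * lygc x f y = -(lap (g.g x) (fun y => f ((chartAt (E n) x).symm y)) y) at h5
  change lap (g.g x) (fun y => f ((chartAt (E n) x).symm y)) y = _
  linarith

theorem lyg_main (hn : 1 ≤ n) [IsManifold (𝓡 n) ∞ M] [CompactSpace M] (g : RMetric n M)
    (hD : DiamLE g 1) (hc : g.CurvGE (-1)) (f : M → ℝ) (hf : IsSm n M f) (h0 : ∃ p, f p ≤ 0)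
    (h1 : ∃ p, f p = 1) (hle : ∀ p, f p ≤ 1) (l : ℝ) (hl : 0 ≤ l)
    (heig : deT g (dT (fnT f)) = l • fnT f) (β : ℝ) (hβ : 1 < β) :
    Real.log (β / (β - 1)) ^ 2 ≤ 4 * n * (l * β / (β - 1) + n * 1) := by
  obtain ⟨p, hp⟩ := h0
  obtain ⟨q, hq⟩ := h1
  set v : M → ℝ := fun p => Real.log (β - f p) with hv
  have hpos : ∀ p, 0 < β - f p := fun p => by linarith [hle p]
  have hvs : IsSm n M v := by
    intro x
    exact (contDiffOn_const.sub (hf x)).log (fun y _ => (hpos _).ne')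
  have hT := fnT_mem hvs
  have hcont : Continuous fun x => ∑ i, ‖nab g (fnT v) x i‖ ^ 2 := by
    refine (cont_nab g hT hT).congr (fun x => ?_)
    exact Finset.sum_congr rfl (fun i _ => real_inner_self_eq_norm_sq _)
  obtain ⟨p₀, -, hmax⟩ := isCompact_univ.exists_isMaxOn ⟨p, mem_univ p⟩ hcont.continuousOn
  have hmax' : ∀ x, ∑ i, ‖nab g (fnT v) x i‖ ^ 2 ≤ ∑ i, ‖nab g (fnT v) p₀ i‖ ^ 2 :=
    fun x => hmax (mem_univ x)
  have hctr : ctr n p₀ ∈ tgt n M p₀ := mem_chart_target _ _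
  have hself : (chartAt (E n) p₀).symm (ctr n p₀) = p₀ :=
    (chartAt (E n) p₀).left_inv (mem_chart_source _ _)
  have hloc := ly_loc (g.isMet p₀) hn (κ := 1) zero_le_one (fun y hy => hc p₀ y hy)
    (f := lygc p₀ f) (hf p₀) hl hβ (fun y _ => hle _) (fun y hy => lyg_eig g hf heig p₀ hy)
    (y₀ := ctr n p₀) hctr (by
      intro y hy
      have e1 := lyg_grad g hvs p₀ hy
      have e2 := lyg_grad g hvs p₀ hctr
      rw [hself] at e2
      have e3 := hmax' ((chartAt (E n) p₀).symm y)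
      rw [e1, e2] at e3
      exact e3)
  have e2 := lyg_grad g hvs p₀ hctr
  rw [hself] at e2
  have hloc' : ∑ i, ‖nab g (fnT v) p₀ i‖ ^ 2 ≤ 4 * n * (l * β / (β - 1) + n * 1) := by
    rw [e2]
    exact hloc
  set A : ℝ := 4 * n * (l * β / (β - 1) + n * 1) with hA
  have hA0 : 0 ≤ A := le_trans (Finset.sum_nonneg (fun i _ => by positivity)) hloc'
  have hbound : ∀ x, ∑ i, ‖nab g (fnT v) x i‖ ^ 2 ≤ (Real.sqrt A) ^ 2 := by
    intro x
    rw [Real.sq_sqrt hA0]
    exact (hmax' x).trans hloc'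
  have hS0 : 0 ≤ Real.sqrt A := Real.sqrt_nonneg _
  have hdiff : v p - v q ≤ Real.sqrt A := by
    apply le_of_forall_pos_lt_add
    intro ε hε
    obtain ⟨γ, hγ, hγ0, hγ1, hlen⟩ := hD p q (1 + ε / (Real.sqrt A + 1)) (by
      have : 0 < ε / (Real.sqrt A + 1) := by positivity
      linarith)
    have h3 := path_bound g hvs hS0 hbound hγ
    rw [hγ0, hγ1] at h3
    have h4 : v p - v q ≤ |v q - v p| := by
      rw [abs_sub_comm]
      exact le_abs_self _
    have h5 : Real.sqrt A * ∫ t in (0:ℝ)..1, speed g γ t ≤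
        Real.sqrt A * (1 + ε / (Real.sqrt A + 1)) := mul_le_mul_of_nonneg_left hlen.le hS0
    have h6 : Real.sqrt A * (1 + ε / (Real.sqrt A + 1)) < Real.sqrt A + ε := by
      have h7 : Real.sqrt A * (ε / (Real.sqrt A + 1)) < ε := by
        rw [mul_div_assoc', div_lt_iff₀ (by positivity)]
        nlinarith
      nlinarith
    linarith
  have hlow : Real.log (β / (β - 1)) ≤ v p - v q := by
    simp only [hv]
    rw [Real.log_div (by linarith) (by linarith), hq]
    have : Real.log β ≤ Real.log (β - f p) := Real.log_le_log (by linarith) (by linarith)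
    linarith
  have hlog0 : 0 ≤ Real.log (β / (β - 1)) := by
    apply Real.log_nonneg
    rw [le_div_iff₀ (by linarith)]
    linarith
  calc Real.log (β / (β - 1)) ^ 2 ≤ (Real.sqrt A) ^ 2 :=
        pow_le_pow_left₀ hlog0 (hlow.trans hdiff) 2
    _ = A := Real.sq_sqrt hA0

theorem ly_global (n : ℕ) (hn : 1 ≤ n) : ∃ c : ℝ, 0 < c ∧ ∀ (M : Type) [TopologicalSpace M]
    [ChartedSpace (E n) M] [IsManifold (𝓡 n) ∞ M] [CompactSpace M] (g : RMetric n M),
    DiamLE g 1 → g.CurvGE (-1) → ∀ f : M → ℝ, IsSm n M f → (∃ p, f p ≤ 0) → (∃ p, 0 < f p) →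
    ∀ l : ℝ, 0 ≤ l → deT g (dT (fnT f)) = l • fnT f → c ≤ l := by
  have hn' : (1 : ℝ) ≤ n := by exact_mod_cast hn
  set T : ℝ := Real.sqrt (8 * n ^ 2 + 1) with hT
  have hT0 : 0 < T := Real.sqrt_pos.mpr (by positivity)
  have hT2 : T ^ 2 = 8 * n ^ 2 + 1 := Real.sq_sqrt (by positivity)
  set β : ℝ := Real.exp T / (Real.exp T - 1) with hβd
  have hexp : 1 < Real.exp T := by
    rw [← Real.exp_zero]
    exact Real.exp_lt_exp.mpr hT0
  have hβ1 : β - 1 = 1 / (Real.exp T - 1) := by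
    rw [hβd]
    have : Real.exp T - 1 ≠ 0 := by linarith
    field_simp
    ring
  have hβ : 1 < β := by
    have : 0 < β - 1 := by rw [hβ1]; exact div_pos one_pos (by linarith)
    linarith
  have hβr : β / (β - 1) = Real.exp T := by
    rw [hβ1, hβd]
    have : Real.exp T - 1 ≠ 0 := by linarith
    field_simp
  refine ⟨1 / (4 * n * Real.exp T), by positivity, ?_⟩
  intro M _ _ _ _ g hD hc f hf h0 h1 l hl heig
  obtain ⟨p, hp⟩ := h0
  obtain ⟨q, hq⟩ := h1
  obtain ⟨p₁, -, hmax⟩ := isCompact_univ.exists_isMaxOn ⟨p, mem_univ p⟩ (lyg_cont g hf).continuousOn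
  have hmax' : ∀ x, f x ≤ f p₁ := fun x => hmax (mem_univ x)
  have hA : 0 < f p₁ := lt_of_lt_of_le hq (hmax' q)
  set A := f p₁ with hAd
  have hfT : fnT (fun p => f p / A) = (1 / A) • (fnT f : M → E n → X n) := by
    funext x y
    simp only [fnT, Pi.smul_apply]
    split_ifs
    · rw [smul_smul]
      congr 1
      ring
    · simp
  have hf' : IsSm n M (fun p => f p / A) := fun x => (hf x).div_const A
  have heig' : deT g (dT (fnT (fun p => f p / A))) = l • fnT (fun p => f p / A) := by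
    rw [hfT, dT_smul _ (fnT_mem hf), deT_smul g _ (dT_mem g (fnT_mem hf)), heig, smul_comm]
  have hmain := lyg_main hn g hD hc (fun p => f p / A) hf' ⟨p, div_nonpos_of_nonpos_of_nonneg hp hA.le⟩
    ⟨p₁, div_self hA.ne'⟩ (fun x => (div_le_one hA).mpr (hmax' x)) l hl heig' β hβ
  rw [hβr, Real.log_exp, hT2] at hmain
  have h6 : l * β / (β - 1) = l * Real.exp T := by rw [mul_div_assoc, hβr]
  rw [h6] at hmain
  rw [div_le_iff₀ (by positivity)]
  nlinarith

end ANCO
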