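import Pool.Agent.Helper39.Anco.Cplx
import Pool.Agent.Helper39.Anco.Lyg
import Pool.Agent.Helper39.Anco.Path
import Pool.Agent.Helper39.Anco.Abs1
import Pool.Agent.Helper39.Anco.Abs2
import Pool.Agent.Helper39.Anco.Fock1
import Pool.Agent.Helper39.Anco.Fock2
import Pool.Agent.Helper39.Anco.Mkt

/-!
# Poincaré inequality for functions with a constant depending only on the dimension
-/

open scoped ContDiff Topology Manifold InnerProductSpace
open Set MeasureTheory Filter

set_option maxSynthPendingDepth 3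

noncomputable section
namespace ANCO

/-- `D²` commutes with the degree projections. -/
theorem poin_DD_pr {V : Type} [AddCommGroup V] [Module ℝ V] {n : ℕ} (C : GrCplx V n) (v : V) :
    C.D (C.D (C.pr 0 v)) = C.pr 0 (C.D (C.D v)) := by
  have inj : ∀ u w : V, (∀ t, C.B t u = C.B t w) → u = w := by
    intro u w h
    by_contra hne
    have h0 := C.pos (u - w) (sub_ne_zero.mpr hne)
    have : C.B (u - w) (u - w) = 0 := by
      rw [map_sub (C.B (u - w)), h, sub_self]
    rw [this] at h0
    exact lt_irrefl _ h0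
  have de_pr : ∀ p w, C.de (C.pr (p + 1) w) = C.pr p (C.de w) := by
    intro p w
    apply inj
    intro t
    rw [← C.adj, ← C.pr_symm (p + 1), C.d_pr, C.adj, ← C.pr_symm p]
  have de_pr0 : ∀ w, C.de (C.pr 0 w) = 0 := by
    intro w
    apply inj
    intro t
    rw [← C.adj, ← C.pr_symm 0, C.d_pr0, map_zero, map_zero, LinearMap.zero_apply]
  have de_de : ∀ w, C.de (C.de w) = 0 := by
    intro w
    apply inj
    intro t
    rw [← C.adj, ← C.adj, C.d_d, map_zero, map_zero, LinearMap.zero_apply]
  have hDD : ∀ w, C.D (C.D w) = C.d (C.de w) + C.de (C.d w) := by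
    intro w
    show (C.d + C.de) ((C.d + C.de) w) = _
    simp only [LinearMap.add_apply, map_add, C.d_d, de_de]
    abel
  rw [hDD, hDD, de_pr0, map_zero, zero_add, map_add, C.d_pr0, zero_add, ← C.d_pr, de_pr]

variable {n : ℕ} {M : Type} [TopologicalSpace M] [ChartedSpace (E n) M]

theorem poin_val0 (g : RMetric n M) {s : M → E n → X n} (h : prT 0 s = s) (x : M) :
    val g s x = val g s x ∅ • eX ∅ := by
  have h1 : val g s x = prj 0 (val g s x) := by
    conv_lhs => rw [← h]
    exact val_prT g 0 s x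
  rw [← prj_zero_eq, ← h1]

theorem poin_nab0 (g : RMetric n M) {s : M → E n → X n} (hs : s ∈ TForm n M) (h : prT 0 s = s)
    (x : M) (i : Fin n) : nab g s x i = nab g s x i ∅ • eX ∅ := by
  have h1 : nab g s x i = prj 0 (nab g s x i) := by
    conv_lhs => rw [← h]
    exact nab_prT g 0 hs x i
  rw [← prj_zero_eq, ← h1]

/-- the norm of the differential of a function -/
theorem poin_norm_d (a : Fin n → ℝ) :
    ‖∑ i, eps i (a i • (eX ∅ : X n))‖ ^ 2 = ∑ i, a i ^ 2 := by
  have h1 : ∀ i j : Fin n, ⟪eps i (a i • (eX ∅ : X n)), eps j (a j • (eX ∅ : X n))⟫_ℝ =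
      if i = j then a i ^ 2 else 0 := by
    intro i j
    rw [inner_eps, map_smul, map_smul, inner_smul_left, inner_smul_right]
    have h2 := eps_iota j i (eX ∅ : X n)
    rw [iota_eX] at h2
    simp only [Finset.notMem_empty, if_false, map_zero, zero_add] at h2
    rw [h2]
    by_cases hij : i = j
    · subst hij
      simp only [if_true]
      have : ⟪(eX ∅ : X n), eX ∅⟫_ℝ = 1 := by
        rw [real_inner_self_eq_norm_sq]; simp [eX]
      rw [this]
      simp; ring
    · rw [if_neg (fun h => hij h.symm), if_neg hij]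
      simp
  rw [← real_inner_self_eq_norm_sq, sum_inner]
  apply Finset.sum_congr rfl
  intro i _
  rw [inner_sum]
  simp only [h1]
  simp

section

variable [IsManifold (𝓡 n) ∞ M] [CompactSpace M] [T2Space M] [MeasurableSpace M] [BorelSpace M]

theorem poin_de0 (g : RMetric n M) (f : TForm n M) (hf : prL 0 f = f) : (cplx g).de f = 0 := by
  by_contra hne
  have h1 := (cplx g).pos _ hne
  have h2 : (cplx g).B ((cplx g).de f) ((cplx g).de f) = 0 := by
    rw [← (cplx g).adj]
    have h3 : (cplx g).pr 0 f = f := hf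
    conv_lhs => rw [← h3]
    rw [← (cplx g).pr_symm, (cplx g).d_pr0, map_zero, LinearMap.zero_apply]
  rw [h2] at h1
  exact lt_irrefl _ h1

theorem poin_energy (g : RMetric n M) (f : TForm n M) (hf : prL 0 f = f) :
    (cplx g).B ((cplx g).D f) ((cplx g).D f) = en g f.1 := by
  have hD : (cplx g).D f = (cplx g).d f := by
    show (cplx g).d f + (cplx g).de f = _
    rw [poin_de0 g f hf, add_zero]
  rw [hD]
  show ip g (dT f.1) (dT f.1) = en g f.1
  unfold ip en
  congr 1; funext x
  have h0 := poin_nab0 g f.2 (congrArg Subtype.val hf) x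
  rw [real_inner_self_eq_norm_sq, val_dT g f.2]
  have h1 : ∑ i, eps i (nab g f.1 x i) = ∑ i, eps i ((nab g f.1 x i ∅) • (eX ∅ : X n)) :=
    Finset.sum_congr rfl (fun i _ => by rw [← h0 i])
  rw [h1, poin_norm_d]
  apply Finset.sum_congr rfl
  intro i _
  conv_rhs => rw [h0 i]
  rw [norm_smul]
  simp [eX]

end

theorem poincare (n : ℕ) (hn : 1 ≤ n) : ∃ c > 0, ∀ (M : Type) [TopologicalSpace M]
    [ChartedSpace (E n) M] [IsManifold (𝓡 n) ∞ M] [CompactSpace M] [T2Space M] [ConnectedSpace M]
    [MeasurableSpace M] [BorelSpace M] (g : RMetric n M), DiamLE g 1 → g.CurvGE (-1) →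
    ∀ f : TForm n M, prL 0 f = f → (∫ x, val g f.1 x ∅ ∂(vol g) = 0) →
      c * ip g f.1 f.1 ≤ en g f.1 := by
  obtain ⟨c₀, hc₀, hLY⟩ := ly_global n hn
  refine ⟨c₀ / 2, by positivity, ?_⟩
  intro M _ _ _ _ _ _ _ _ g hd hcurv f hf hint
  by_contra hlt
  push Not at hlt
  have hv := exists_vol g
  have : IsFiniteMeasure (vol g) := hv.1
  set C := cplx g with hC
  have hsymm := C.symm
  have hpos := C.pos
  have hDs := C.D_symm
  have hen := poin_energy g f hf
  -- the constant function one
  have hone : IsSm n M (fun _ : M => (1 : ℝ)) := fun x => contDiffOn_const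
  set o : TForm n M := ⟨fnT (fun _ => 1), fnT_mem hone⟩ with ho
  have hvalo : ∀ x, val g o.1 x = eX ∅ := by
    intro x
    show val g (fnT (fun _ => (1:ℝ))) x = _
    rw [val_fnT, one_smul]
  have hnabo : ∀ x i, nab g o.1 x i = 0 := by
    intro x i
    show nab g (fnT (fun _ => (1:ℝ))) x i = _
    rw [nab_fnT g hone]
    simp
  have hdo : C.d o = 0 := by
    by_contra hne
    have h1 := C.pos _ hne
    have h2 : C.B (C.d o) (C.d o) = 0 := by
      show ip g (dT o.1) (dT o.1) = 0
      unfold ip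
      have : ∀ x, val g (dT o.1) x = 0 := by
        intro x
        rw [val_dT g o.2]
        simp [hnabo]
      simp only [this, inner_zero_left, integral_zero]
    rw [h2] at h1
    exact lt_irrefl _ h1
  -- an eigenvector not orthogonal to f
  have h1 : ∃ l ≤ c₀ / 2, ∃ u, C.D (C.D u) = l • u ∧ C.B f u ≠ 0 := by
    by_contra hno
    push Not at hno
    have h2 : ∀ u ∈ Eig C.D (c₀ / 2), C.B f u = 0 := by
      intro u hu
      have hle : Eig C.D (c₀ / 2) ≤ LinearMap.ker (C.B f) := by
        unfold Eig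
        apply iSup_le; intro l
        apply iSup_le; intro hl
        intro u hu
        rw [LinearMap.mem_ker] at hu ⊢
        apply hno l hl u
        simp only [LinearMap.sub_apply, LinearMap.comp_apply, LinearMap.smul_apply,
          LinearMap.id_apply] at hu
        exact sub_eq_zero.mp hu
      exact hle hu
    have h3 := eig_gap C.B hsymm hpos C.D hDs (cplx_cpt g) (cplx_reg g) (c₀ / 2) f h2
    rw [hen] at h3
    exact absurd h3 (not_le.mpr hlt)
  obtain ⟨l, hl, u, hu, hfu⟩ := h1
  set u₀ := C.pr 0 u with hu₀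
  have hu₀pr : prL 0 u₀ = u₀ := by
    show C.pr 0 (C.pr 0 u) = C.pr 0 u
    rw [C.pr_pr]; simp
  have hu₀D : C.D (C.D u₀) = l • u₀ := by
    rw [hu₀, poin_DD_pr, hu, map_smul]
  have hfu₀ : C.B f u₀ ≠ 0 := by
    rw [hu₀, ← C.pr_symm]
    have : C.pr 0 f = f := hf
    rw [this]; exact hfu
  have hu₀ne : u₀ ≠ 0 := by
    intro h; apply hfu₀; rw [h, map_zero]
  have hdd : C.de (C.d u₀) = l • u₀ := by
    have h2 : C.de u₀ = 0 := poin_de0 g u₀ hu₀pr
    have h3 : C.D u₀ = C.d u₀ := by
      show C.d u₀ + C.de u₀ = _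
      rw [h2, add_zero]
    have h4 : C.D (C.D u₀) = C.de (C.d u₀) := by
      rw [h3]
      show C.d (C.d u₀) + C.de (C.d u₀) = _
      rw [C.d_d, zero_add]
    rw [← h4, hu₀D]
  have hu₀pos := hpos u₀ hu₀ne
  have hlB : l * C.B u₀ u₀ = C.B (C.d u₀) (C.d u₀) := by
    rw [C.adj, hdd, map_smul, smul_eq_mul]
  have hBnn : ∀ w, 0 ≤ C.B w w := by
    intro w
    by_cases hw : w = 0
    · rw [hw]; simp
    · exact (hpos w hw).le
  have hl0 : 0 ≤ l := by
    by_contra hneg
    push Not at hneg
    have := mul_neg_of_neg_of_pos hneg hu₀pos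
    rw [hlB] at this
    exact absurd (hBnn _) (not_le.mpr this)
  obtain ⟨w, hw, hfn⟩ := deg0 u₀.2 (congrArg Subtype.val hu₀pr)
  have hvalu : ∀ x, val g u₀.1 x = w x • eX ∅ := by
    intro x; rw [hfn, val_fnT]
  have heX : ‖(eX ∅ : X n)‖ = 1 := by simp [eX]
  have heXi : ⟪(eX ∅ : X n), eX ∅⟫_ℝ = 1 := by
    rw [real_inner_self_eq_norm_sq, heX]; norm_num
  -- l ≠ 0
  have hlne : l ≠ 0 := by
    intro hl0'
    have h2 : C.B (C.d u₀) (C.d u₀) = 0 := by rw [← hlB, hl0', zero_mul]
    have h3 : C.d u₀ = 0 := by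
      by_contra hne
      have := hpos _ hne
      rw [h2] at this
      exact lt_irrefl _ this
    have h4 : ∀ x, ∑ i, ‖nab g (fnT w) x i‖ ^ 2 ≤ (0 : ℝ) ^ 2 := by
      intro x
      have h5 : val g (dT u₀.1) x = 0 := by
        have : (C.d u₀).1 = 0 := by rw [h3]; rfl
        have h6 : dT u₀.1 = 0 := this
        rw [h6]
        show lift ((0 : M → E n → X n) x) (fr g x) = 0
        simp [lift]
      rw [val_dT g u₀.2] at h5
      have h0 := poin_nab0 g u₀.2 (congrArg Subtype.val hu₀pr) x
      have h7 : ∑ i, eps i (nab g u₀.1 x i) = ∑ i, eps i ((nab g u₀.1 x i ∅) • (eX ∅ : X n)) :=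
        Finset.sum_congr rfl (fun i _ => by rw [← h0 i])
      rw [h7] at h5
      have h8 := poin_norm_d (fun i => nab g u₀.1 x i ∅)
      rw [h5] at h8
      rw [← hfn]
      have h9 : ∑ i, ‖nab g u₀.1 x i‖ ^ 2 = ∑ i, (nab g u₀.1 x i ∅) ^ 2 := by
        apply Finset.sum_congr rfl
        intro i _
        conv_lhs => rw [h0 i]
        rw [norm_smul, heX]
        simp
      rw [h9, ← h8]
      simp
    have hconst : ∀ p q, w p = w q := by
      intro p q
      obtain ⟨γ, hγ, hγ0, hγ1, -⟩ := hd p q 2 (by norm_num)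
      have := path_bound g hw le_rfl h4 hγ
      rw [zero_mul, hγ0, hγ1] at this
      have := abs_nonpos_iff.mp this
      linarith
    apply hfu₀
    show ip g f.1 u₀.1 = 0
    unfold ip
    obtain ⟨p₀⟩ := (inferInstance : Nonempty M)
    have h5 : ∀ x, ⟪val g f.1 x, val g u₀.1 x⟫_ℝ = val g f.1 x ∅ * w p₀ := by
      intro x
      rw [hvalu, poin_val0 g (congrArg Subtype.val hf) x, inner_smul_left, inner_smul_right, heXi,
        hconst x p₀]
      simp [eX]
    simp only [h5]
    rw [integral_mul_const, hint, zero_mul]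
  have hlpos : 0 < l := lt_of_le_of_ne hl0 (Ne.symm hlne)
  have hwint : ∫ x, w x ∂(vol g) = 0 := by
    have h2 : C.B (C.de (C.d u₀)) o = 0 := by
      rw [hsymm, ← C.adj, hdo, map_zero, LinearMap.zero_apply]
    rw [hdd, map_smul, LinearMap.smul_apply, smul_eq_mul] at h2
    have h3 := (mul_eq_zero.mp h2).resolve_left hlne
    have h4 : C.B u₀ o = ∫ x, w x ∂(vol g) := by
      show ip g u₀.1 o.1 = _
      unfold ip
      congr 1; funext x
      rw [hvalu, hvalo, inner_smul_left, heXi]; simp
    rw [← h4, h3]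
  have hwc : Continuous w := by
    have := cont_ip g u₀.2 o.2
    refine this.congr (fun x => ?_)
    rw [hvalu, hvalo, inner_smul_left, heXi]; simp
  have hww : 0 < ∫ x, w x * w x ∂(vol g) := by
    have h2 : C.B u₀ u₀ = ∫ x, w x * w x ∂(vol g) := by
      show ip g u₀.1 u₀.1 = _
      unfold ip
      congr 1; funext x
      rw [hvalu, inner_smul_left, inner_smul_right, heXi]; simp
    rw [← h2]; exact hu₀pos
  have aux : ∀ v : M → ℝ, Continuous v → (∀ x, 0 ≤ v x) → ∫ x, v x ∂(vol g) = 0 →
      ∫ x, v x * v x ∂(vol g) ≤ 0 := by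
    intro v hv hv0 hvi
    obtain ⟨p, hp⟩ := hv.exists_forall_ge_of_hasCompactSupport
      (HasCompactSupport.of_compactSpace v)
    calc ∫ x, v x * v x ∂(vol g) ≤ ∫ x, v p * v x ∂(vol g) := by
          apply integral_mono (integrable_of_cont g (hv.mul hv))
            (integrable_of_cont g (continuous_const.mul hv))
          intro x
          exact mul_le_mul_of_nonneg_right (hp x) (hv0 x)
      _ = 0 := by rw [integral_const_mul, hvi, mul_zero]
  have hneg : ∃ p, w p ≤ 0 := by
    by_contra hno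
    push Not at hno
    exact absurd (aux w hwc (fun x => (hno x).le) hwint) (not_le.mpr hww)
  have hposp : ∃ p, 0 < w p := by
    by_contra hno
    push Not at hno
    have h2 := aux (fun x => -w x) hwc.neg (fun x => by have := hno x; linarith)
      (by rw [integral_neg, hwint, neg_zero])
    simp only [neg_mul_neg] at h2
    exact absurd h2 (not_le.mpr hww)
  have heq : deT g (dT (fnT w)) = l • fnT w := by
    rw [← hfn]
    exact congrArg Subtype.val hdd
  have := hLY M g hd hcurv w hw hneg hposp l hl0 heq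
  linarith

end ANCO
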