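import Pool.Agent.Helper39.Anco.Cplx
import Pool.Agent.Helper39.Anco.Poin
import Pool.Agent.Helper39.Anco.Link
import Pool.Agent.Helper39.Anco.Abs1
import Pool.Agent.Helper39.Anco.Abs2
import Pool.Agent.Helper39.Anco.Abs3
import Pool.Agent.Helper39.Anco.Wint
import Pool.Agent.Helper39.Anco.Mkt
import Pool.Agent.Helper39.Anco.Vol
import Pool.Agent.Helper39.Anco.Cmono
import Pool.Agent.Helper39.Anco.Gp
import Pool.Agent.Helper39.Anco.K6

/-!
# Assembly
-/

open scoped ContDiff Topology Manifold InnerProductSpace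
open Set MeasureTheory Filter

set_option maxSynthPendingDepth 3

noncomputable section
namespace ANCO

/-- rescaling the inner product -/
def scaleC {V : Type} [AddCommGroup V] [Module ℝ V] {n : ℕ} (C : GrCplx V n) (a : ℝ) (ha : 0 < a) :
    GrCplx V n where
  B := a • C.B
  symm u v := by simp [C.symm u v]
  pos u hu := by simpa using mul_pos ha (C.pos u hu)
  pr := C.pr
  pr_pr := C.pr_pr
  pr_sum := C.pr_sum
  pr_symm p u v := by simp [C.pr_symm p u v]
  d := C.d
  de := C.de
  d_d := C.d_d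
  adj u v := by simp [C.adj u v]
  d_pr := C.d_pr
  d_pr0 := C.d_pr0

theorem curvGE_mono {n : ℕ} {M : Type} [TopologicalSpace M] [ChartedSpace (E n) M]
    (g : RMetric n M) {κ κ' : ℝ} (h : κ' ≤ κ) (hg : g.CurvGE κ) : g.CurvGE κ' :=
  fun x y hy => CurvOpGE_mono (g.isMet x) hy h (hg x y hy)

theorem val_deg0 {n : ℕ} {M : Type} [TopologicalSpace M] [ChartedSpace (E n) M]
    (g : RMetric n M) {s : M → E n → X n} (h : prT 0 s = s) (x : M) :
    val g s x = val g s x ∅ • eX ∅ := by
  have h1 : val g s x = prj 0 (val g s x) := by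
    conv_lhs => rw [← h]
    exact val_prT g 0 s x
  rw [← prj_zero_eq, ← h1]

theorem poinc_aux {n : ℕ} {M : Type} [TopologicalSpace M]
    [ChartedSpace (E n) M] [IsManifold (𝓡 n) ∞ M] [CompactSpace M] [T2Space M] [Nonempty M]
    [MeasurableSpace M] [BorelSpace M] (g : RMetric n M) {c : ℝ}
    (hP : ∀ f : TForm n M, prL 0 f = f → (∫ x, val g f.1 x ∅ ∂(vol g) = 0) →
      c * ip g f.1 f.1 ≤ en g f.1) {a : ℝ} (ha : 0 < a) (hav : a * (vol g univ).toReal = 1)
    (f : TForm n M) (hf : prL 0 f = f) :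
    c * (a * ∫ x, (val g f.1 x ∅ - a * ∫ x, val g f.1 x ∅ ∂(vol g)) ^ 2 ∂(vol g)) ≤
      a * ∫ x, ∑ i, ‖nab g f.1 x i‖ ^ 2 ∂(vol g) := by
  have hv := exists_vol g
  haveI : IsFiniteMeasure (vol g) := hv.1
  set m : ℝ := a * ∫ x, val g f.1 x ∅ ∂(vol g) with hm
  have hone : IsSm n M (fun _ : M => (1 : ℝ)) := fun x => contDiffOn_const
  set o : TForm n M := ⟨fnT (fun _ => 1), fnT_mem hone⟩ with ho
  have ho0 : prL 0 o = o := by
    apply Subtype.ext
    funext x y
    show prj 0 (fnT (fun _ => (1:ℝ)) x y) = fnT (fun _ => 1) x y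
    unfold fnT
    split_ifs
    · rw [one_smul, prj_eX]; simp
    · simp
  have hvalo : ∀ x, val g o.1 x = eX ∅ := by
    intro x
    show val g (fnT (fun _ => (1:ℝ))) x = _
    rw [val_fnT, one_smul]
  have hnabo : ∀ x i, nab g o.1 x i = 0 := by
    intro x i
    show nab g (fnT (fun _ => (1:ℝ))) x i = _
    rw [nab_fnT g hone]
    simp
  set f0 : TForm n M := f - m • o with hf0
  have hf00 : prL 0 f0 = f0 := by
    rw [hf0, map_sub, map_smul, hf, ho0]
  have hval : ∀ x, val g f0.1 x = (val g f.1 x ∅ - m) • eX ∅ := by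
    intro x
    have h1 : valL g f0 x = valL g f x - m • valL g o x := by
      rw [hf0, map_sub, map_smul]; rfl
    have h2 : val g f0.1 x = val g f.1 x - m • val g o.1 x := h1
    rw [h2, hvalo, val_deg0 g (congrArg Subtype.val hf) x, sub_smul]
    simp [eX]
  have hnab : ∀ x i, nab g f0.1 x i = nab g f.1 x i := by
    intro x i
    have h1 : nabL g f0 x i = nabL g f x i - m • nabL g o x i := by
      rw [hf0, map_sub, map_smul]; rfl
    have h2 : nab g f0.1 x i = nab g f.1 x i - m • nab g o.1 x i := h1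
    rw [h2, hnabo, smul_zero, sub_zero]
  have heX : ‖(eX ∅ : X n)‖ = 1 := by simp [eX]
  have hcontF : Continuous fun x => val g f.1 x ∅ := by
    have := cont_ip g f.2 o.2
    refine this.congr (fun x => ?_)
    rw [hvalo]
    show ⟪val g f.1 x, EuclideanSpace.single ∅ (1 : ℝ)⟫_ℝ = _
    rw [EuclideanSpace.inner_single_right]
    simp
  have hint0 : ∫ x, val g f0.1 x ∅ ∂(vol g) = 0 := by
    have h1 : ∀ x, val g f0.1 x ∅ = val g f.1 x ∅ - m := by
      intro x; rw [hval]; simp [eX]
    simp only [h1]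
    rw [integral_sub (integrable_of_cont g hcontF) (integrable_const m), integral_const]
    simp only [smul_eq_mul, Measure.real]
    rw [hm]
    have : (vol g univ).toReal * (a * ∫ x, val g f.1 x ∅ ∂(vol g)) =
      (a * (vol g univ).toReal) * ∫ x, val g f.1 x ∅ ∂(vol g) := by ring
    rw [this, hav, one_mul, sub_self]
  have key := hP f0 hf00 hint0
  have e1 : ip g f0.1 f0.1 = ∫ x, (val g f.1 x ∅ - m) ^ 2 ∂(vol g) := by
    unfold ip
    congr 1; funext x
    rw [hval, real_inner_self_eq_norm_sq, norm_smul, heX, mul_one, Real.norm_eq_abs, sq_abs]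
  have e2 : en g f0.1 = ∫ x, ∑ i, ‖nab g f.1 x i‖ ^ 2 ∂(vol g) := by
    unfold en
    simp only [hnab]
  rw [e1, e2] at key
  have := mul_le_mul_of_nonneg_left key ha.le
  linarith

/-- The package of a closed manifold with curvature operator `≥ -κ`, `κ ≤ 1`, diameter `≤ 1`. -/
theorem exists_pkg (n : ℕ) (hn : 1 ≤ n) : ∃ c > 0, ∀ (M : Type) [TopologicalSpace M]
    [ChartedSpace (E n) M] [IsManifold (𝓡 n) ∞ M] [CompactSpace M] [T2Space M] [ConnectedSpace M]
    (g : RMetric n M) (κ : ℝ), 0 ≤ κ → κ ≤ 1 → DiamLE g 1 → g.CurvGE (-κ) →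
    ∃ P : Pkg n (2 * (n : ℝ) ^ 2 * κ) c, ∀ p, bettiA P.C.pr P.C.d p = betti n M p := by
  obtain ⟨c, hc, hP⟩ := poincare n hn
  refine ⟨c, hc, ?_⟩
  intro M _ _ _ _ _ _ g κ hκ0 hκ1 hd hcurv
  letI : MeasurableSpace M := borel M
  haveI : BorelSpace M := ⟨rfl⟩
  have hv := exists_vol g
  haveI : IsFiniteMeasure (vol g) := hv.1
  have hvp : 0 < vol g univ := vol_pos g
  set a : ℝ := ((vol g univ).toReal)⁻¹ with ha_def
  have hvr : 0 < (vol g univ).toReal := ENNReal.toReal_pos hvp.ne' (measure_ne_top _ _)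
  have ha : 0 < a := inv_pos.mpr hvr
  set μ : Measure M := (vol g univ)⁻¹ • vol g with hμ
  haveI : IsProbabilityMeasure μ := by
    constructor
    rw [hμ, Measure.smul_apply, smul_eq_mul, ENNReal.inv_mul_cancel hvp.ne' (measure_ne_top _ _)]
  have hint : ∀ f : M → ℝ, ∫ x, f x ∂μ = a * ∫ x, f x ∂(vol g) := by
    intro f
    rw [hμ, integral_smul_measure, smul_eq_mul, ENNReal.toReal_inv]
  have hP' := hP M g hd (curvGE_mono g (by linarith) hcurv)
  have hsymm := (cplx g).symm
  have hpos := (cplx g).pos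
  have hD := (cplx g).D_symm
  refine ⟨{
    M := M
    μ := μ
    V := TForm n M
    C := scaleC (cplx g) a ha
    val := valL g
    nab := nabL g
    B_eq := by
      intro s t
      rw [hint]; rfl
    cont_ip := fun s t => cont_ip g s.2 t.2
    cont_nab := fun s t => cont_nab g s.2 t.2
    val_inj := by
      intro s t hst
      by_contra hne
      have h0 : (s - t) ≠ 0 := sub_ne_zero.mpr hne
      have h1 := (cplx g).pos (s - t) h0
      have h2 : valL g (s - t) = 0 := by rw [map_sub, hst, sub_self]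
      have h3 : (cplx g).B (s - t) (s - t) = 0 := by
        show ip g (s - t).1 (s - t).1 = 0
        unfold ip
        have h4 : ∀ x, val g (s - t).1 x = 0 := fun x => congrFun h2 x
        simp only [h4, inner_zero_left, integral_zero]
      rw [h3] at h1
      exact lt_irrefl _ h1
    val_pr := fun p s x => val_prT g p s.1 x
    val_d := fun s x => val_dT g s.2 x
    val_de := fun s x => val_deT g s.2 x
    weitz := by
      intro s
      rw [hint]
      have h := weitz_int g hκ0 hcurv s.2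
      have h' : (∫ x, ∑ i, ‖nabL g s x i‖ ^ 2 ∂(vol g)) = en g s.1 := rfl
      rw [h']
      show a * en g s.1 ≤ a * ip g (dT s.1) (dT s.1) + a * ip g (deT g s.1) (deT g s.1)
        + 2 * (n : ℝ) ^ 2 * κ * (a * ip g s.1 s.1)
      have := mul_le_mul_of_nonneg_left h ha.le
      linarith
    gp := by
      intro Ψ hΨ heq s t
      obtain ⟨u, hu, h1, h2⟩ := gp g Ψ hΨ heq s.2 t.2
      exact ⟨⟨u, hu⟩, h1, h2⟩
    poinc := by
      intro f hf
      have hav : a * (vol g univ).toReal = 1 := by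
        rw [ha_def]; exact inv_mul_cancel₀ hvr.ne'
      have := poinc_aux g hP' ha hav f hf
      simp only [hint]
      exact this
    eig_fin := fun Λ => eig_finite (cplx g).B hsymm hpos (cplx g).D hD (cplx_cpt g) Λ
    eig_gap := by
      intro Λ v hv
      have hv' : ∀ e ∈ Eig (cplx g).D Λ, (cplx g).B v e = 0 := by
        intro e he
        have := hv e he
        have h2 : a * (cplx g).B v e = 0 := this
        exact (mul_eq_zero.mp h2).resolve_left ha.ne'
      have h := eig_gap (cplx g).B hsymm hpos (cplx g).D hD (cplx_cpt g) (cplx_reg g) Λ v hv'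
      show Λ * (a * (cplx g).B v v) ≤ a * (cplx g).B ((cplx g).D v) ((cplx g).D v)
      have := mul_le_mul_of_nonneg_left h ha.le
      linarith
    eig_le := by
      intro Λ v hv
      have h := eig_le (cplx g).B hsymm hpos (cplx g).D hD Λ v hv
      show a * (cplx g).B ((cplx g).D v) ((cplx g).D v) ≤ Λ * (a * (cplx g).B v v)
      have := mul_le_mul_of_nonneg_left h ha.le
      linarith
    eig_solve := by
      intro v hv
      have hv' : ∀ e ∈ Eig (cplx g).D 0, (cplx g).B v e = 0 := by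
        intro e he
        have := hv e he
        have h2 : a * (cplx g).B v e = 0 := this
        exact (mul_eq_zero.mp h2).resolve_left ha.ne'
      exact eig_solve (cplx g).B hsymm hpos (cplx g).D hD (cplx_cpt g) (cplx_reg g) v hv' }, ?_⟩
  intro p
  exact (betti_link g p).symm

/-- **Main theorem, quantitative form**: for every `n` there is `ε(n) > 0` such that every closed
connected `n`-manifold with a metric of diameter `≤ 1` and curvature operator `≥ -ε(n)` has
nonnegative Euler characteristic. -/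
theorem euler_nonneg_of_pinched (n : ℕ) : ∃ ε > 0, ∀ (M : Type) [TopologicalSpace M]
    [ChartedSpace (E n) M] [IsManifold (𝓡 n) ∞ M] [CompactSpace M] [T2Space M] [ConnectedSpace M]
    (g : RMetric n M), DiamLE g 1 → g.CurvGE (-ε) → 0 ≤ eulerChar n M := by
  rcases Nat.eq_zero_or_pos n with h0 | hn
  · subst h0
    refine ⟨1, one_pos, ?_⟩
    intro M _ _ _ _ _ _ g _ _
    simp [eulerChar]
  · obtain ⟨c, hc, hpk⟩ := exists_pkg n hn
    obtain ⟨κ₀, hκ₀, hmain⟩ := main_pkg n c hc
    have hn2 : (0 : ℝ) < 2 * (n : ℝ) ^ 2 := by positivity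
    refine ⟨min 1 (κ₀ / (2 * (n : ℝ) ^ 2)), by positivity, ?_⟩
    intro M _ _ _ _ _ _ g hd hcurv
    obtain ⟨P, hP⟩ := hpk M g (min 1 (κ₀ / (2 * (n : ℝ) ^ 2))) (by positivity) (min_le_left _ _)
      hd hcurv
    have h := hmain (2 * (n : ℝ) ^ 2 * min 1 (κ₀ / (2 * (n : ℝ) ^ 2))) (by positivity) (by
      have := min_le_right 1 (κ₀ / (2 * (n : ℝ) ^ 2))
      calc 2 * (n : ℝ) ^ 2 * min 1 (κ₀ / (2 * (n : ℝ) ^ 2))
          ≤ 2 * (n : ℝ) ^ 2 * (κ₀ / (2 * (n : ℝ) ^ 2)) := mul_le_mul_of_nonneg_left this hn2.le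
        _ = κ₀ := by field_simp) P
    unfold eulerChar
    simpa only [hP] using h

end ANCO
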