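import Pool.Agent.Helper39.Anco.Defs

/-!
# Fock space: total exterior algebra in components

`X n` has the orthonormal basis `e_I`, `I : Finset (Fin n)`.
-/

open scoped ContDiff Topology Manifold InnerProductSpace
open Set

set_option maxSynthPendingDepth 3

noncomputable section
namespace ANCO

/-- Total exterior forms on `ℝ^n`, in components. -/
abbrev X (n : ℕ) := EuclideanSpace ℝ (Finset (Fin n))

variable {n : ℕ}

/-- The standard basis of `E n`. -/
def e (i : Fin n) : E n := EuclideanSpace.single i (1 : ℝ)

/-- The standard basis of `X n`. -/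
def eX (I : Finset (Fin n)) : X n := EuclideanSpace.single I (1 : ℝ)

/-- The sign `(-1)^{#{j ∈ I : j < i}}`. -/
def sg (i : Fin n) (I : Finset (Fin n)) : ℝ := (-1) ^ (I.filter (· < i)).card

/-- Exterior multiplication by `e^i`. -/
def eps (i : Fin n) : X n →L[ℝ] X n :=
  LinearMap.toContinuousLinearMap
    { toFun := fun w => WithLp.toLp 2 (fun J => if i ∈ J then sg i J * w (J.erase i) else 0)
      map_add' := by
        intro a b; ext J
        by_cases h : i ∈ J <;> simp [h, mul_add]
      map_smul' := by
        intro c a; ext J
        by_cases h : i ∈ J <;> simp [h, mul_left_comm] }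

/-- Contraction with `e_i`. -/
def iota (i : Fin n) : X n →L[ℝ] X n :=
  LinearMap.toContinuousLinearMap
    { toFun := fun w => WithLp.toLp 2 (fun J => if i ∈ J then 0 else sg i J * w (insert i J))
      map_add' := by
        intro a b; ext J
        by_cases h : i ∈ J <;> simp [h, mul_add]
      map_smul' := by
        intro c a; ext J
        by_cases h : i ∈ J <;> simp [h, mul_left_comm] }

/-- Exterior multiplication by a covector. -/
def epsv (α : E n →L[ℝ] ℝ) : X n →L[ℝ] X n := ∑ i, α (e i) • eps i

/-- Contraction with a vector. -/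
def iotav (v : E n) : X n →L[ℝ] X n := ∑ i, v i • iota i

/-- Projection onto degree `p`. -/
def prj (p : ℕ) : X n →L[ℝ] X n :=
  LinearMap.toContinuousLinearMap
    { toFun := fun w => WithLp.toLp 2 (fun J => if J.card = p then w J else 0)
      map_add' := by
        intro a b; ext J
        by_cases h : J.card = p <;> simp [h]
      map_smul' := by
        intro c a; ext J
        by_cases h : J.card = p <;> simp [h] }

/-- Parity operator. -/
def par : X n →L[ℝ] X n :=
  LinearMap.toContinuousLinearMap
    { toFun := fun w => WithLp.toLp 2 (fun J => (-1) ^ J.card * w J)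
      map_add' := by
        intro a b; ext J
        simp [mul_add]
      map_smul' := by
        intro c a; ext J
        simp [mul_left_comm] }

/-- Left Clifford multiplication by `e_i`. -/
def gam (i : Fin n) : X n →L[ℝ] X n := eps i - iota i

/-- Right Clifford multiplication (up to sign) by `e_i`; commutes with all `gam j`. -/
def gar (i : Fin n) : X n →L[ℝ] X n := (eps i + iota i) ∘L par

/-- Ordered product of the `gam i`, `i ∈ I`. -/
def gamI (I : Finset (Fin n)) : X n →L[ℝ] X n :=
  ((I.sort (· ≤ ·)).map gam).foldr (fun a b => a ∘L b) (ContinuousLinearMap.id ℝ (X n))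

/-- Left Clifford multiplication `x ↦ L_x` as a continuous linear map. -/
def LX : X n →L[ℝ] X n →L[ℝ] X n :=
  LinearMap.toContinuousLinearMap
    { toFun := fun x => ∑ I, x I • gamI I
      map_add' := by
        intro a b
        simp [add_smul, Finset.sum_add_distrib]
      map_smul' := by
        intro c a
        simp [mul_smul, Finset.smul_sum] }

/-- Components of an alternating form. -/
def cmp (p : ℕ) : Alt n p →ₗ[ℝ] X n where
  toFun w := WithLp.toLp 2 (fun I => if h : I.card = p then w (fun a => e (I.orderEmbOfFin h a))
    else 0)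
  map_add' := by
    intro a b; ext I
    by_cases h : I.card = p <;> simp [h]
  map_smul' := by
    intro c a; ext I
    by_cases h : I.card = p <;> simp [h]

open Classical in
/-- A left inverse of `cmp p`. -/
def dec (p : ℕ) : X n →ₗ[ℝ] Alt n p :=
  if h : ∃ f : X n →ₗ[ℝ] Alt n p, ∀ w, f (cmp p w) = w then h.choose else 0

/-- Pull-back of total forms by a linear map, in components. -/
def rho (b : E n →L[ℝ] E n) : X n →L[ℝ] X n :=
  LinearMap.toContinuousLinearMap (∑ p ∈ Finset.range (n + 1),
    (cmp p) ∘ₗ (ContinuousAlternatingMap.compContinuousLinearMapₗ b) ∘ₗ (dec p) ∘ₗ (prj p).toLinearMap)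

/-- The derivation action of an endomorphism on forms: the derivative of `rho` at `1`. -/
def act (A : E n →L[ℝ] E n) : X n →L[ℝ] X n := ∑ k, ∑ l, (A (e k)) l • (eps k ∘L iota l)

/-- Linear isometries of `E n`. -/
def IsOrth (k : E n →L[ℝ] E n) : Prop := ∀ u v, ⟪k u, k v⟫_ℝ = ⟪u, v⟫_ℝ

end ANCO
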