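import Pool.Agent.Helper39.Anco.Fock

/-!
# Local and global Riemannian geometry: internal definitions
-/

open scoped ContDiff Topology Manifold InnerProductSpace
open Set MeasureTheory

set_option maxSynthPendingDepth 3

noncomputable section
namespace ANCO

variable {n : ℕ}

/-! ### Local geometry in an open subset of `E n` -/

/-- `G` is a smooth Riemannian metric on the open set `U`. -/
structure IsMet (G : Coef n) (U : Set (E n)) : Prop where
  isOpen : IsOpen U
  smooth : ContDiffOn ℝ ∞ G U
  symm : ∀ y ∈ U, ∀ u v, G y u v = G y v u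
  pos : ∀ y ∈ U, ∀ u, u ≠ 0 → 0 < G y u u

/-- Points of the (full) frame bundle of an open set of `E n`: `(y, b)`, `b : ℝ^n → T_y`. -/
abbrev Fr (n : ℕ) := E n × (E n →L[ℝ] E n)

/-- `z = (y, b)` is an orthonormal frame for `G`. -/
def IsoFr (G : Coef n) (z : Fr n) : Prop := ∀ u v, G z.1 (z.2 u) (z.2 v) = ⟪u, v⟫_ℝ

/-- The lift of a total form (in coordinates) to the frame bundle: `(y, b) ↦ b^* w(y)`. -/
def lift (w : E n → X n) (z : Fr n) : X n := rho z.2 (w z.1)

/-- The canonical horizontal vector field associated with `u : ℝ^n`. -/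
def hv (G : Coef n) (u : E n) (z : Fr n) : Fr n := (z.2 u, -((christ G z.1 (z.2 u)) ∘L z.2))

/-- The horizontal derivative of a function on the frame bundle. -/
def Hd {W : Type} [NormedAddCommGroup W] [NormedSpace ℝ W] (G : Coef n) (u : E n) (F : Fr n → W)
    (z : Fr n) : W := fderiv ℝ F z (hv G u z)

/-- Covariant derivative in coordinates. -/
def cov (G : Coef n) (w : E n → X n) (y u : E n) : X n :=
  fderiv ℝ w y u - act (christ G y u) (w y)

/-- Inverse metric coefficients `g^{jk}`. -/
def ginv (G : Coef n) (y : E n) (j k : Fin n) : ℝ :=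
  (ContinuousLinearMap.inverse (G y) (EuclideanSpace.proj k)) j

/-- Exterior derivative in coordinates. -/
def dloc (w : E n → X n) (y : E n) : X n := ∑ i, eps i (fderiv ℝ w y (e i))

/-- Codifferential in coordinates. -/
def deloc (G : Coef n) (w : E n → X n) (y : E n) : X n :=
  -∑ j, ∑ k, ginv G y j k • iota j (cov G w y (e k))

/-- Rough Laplacian `∑ H_i H_i` of the lift, at a frame. -/
def rough (G : Coef n) (w : E n → X n) (z : Fr n) : X n :=
  ∑ i, Hd G (e i) (Hd G (e i) (lift w)) z

/-- The Weitzenböck curvature term at a frame `z = (y,b)`: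
`∑ Rm(b e_i, b e_j, b e_k, b e_l) ε_i ι_j ε_k ι_l`. -/
def weitz (G : Coef n) (z : Fr n) : X n →L[ℝ] X n :=
  ∑ i, ∑ j, ∑ k, ∑ l, rm G z.1 (z.2 (e i)) (z.2 (e j)) (z.2 (e k)) (z.2 (e l)) •
    (eps i ∘L iota j ∘L eps k ∘L iota l)

/-- A smooth field of orthonormal frames on `U`. -/
def IsFrameField (G : Coef n) (U : Set (E n)) (B : E n → E n →L[ℝ] E n) : Prop :=
  ContDiffOn ℝ ∞ B U ∧ ∀ y ∈ U, IsoFr G (y, B y)

/-- Coefficients of the first order system `dloc + deloc`. -/
def Acoef (G : Coef n) (k : Fin n) (y : E n) : X n →L[ℝ] X n :=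
  eps k - ∑ j, ginv G y j k • iota j

/-- Zeroth order coefficient of the first order system `dloc + deloc`. -/
def Bcoef (G : Coef n) (y : E n) : X n →L[ℝ] X n :=
  ∑ j, ∑ k, ginv G y j k • (iota j ∘L act (christ G y (e k)))

/-- Laplacian of a function, in coordinates. -/
def lap (G : Coef n) (v : E n → ℝ) (y : E n) : ℝ :=
  ∑ i, ∑ j, ginv G y i j * (fderiv ℝ (fderiv ℝ v) y (e i) (e j) - fderiv ℝ v y (christ G y (e i) (e j)))

/-- Squared norm of the gradient of a function, in coordinates. -/
def grad2 (G : Coef n) (v : E n → ℝ) (y : E n) : ℝ :=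
  ∑ i, ∑ j, ginv G y i j * (fderiv ℝ v y (e i) * fderiv ℝ v y (e j))

/-! ### Global objects -/

section Global

variable (n) (M : Type) [TopologicalSpace M] [ChartedSpace (E n) M]

/-- Smooth total forms on `M`, in components: compatible families. -/
def TForm : Submodule ℝ (M → E n → X n) where
  carrier := {w | (∀ x, ∀ y ∉ tgt n M x, w x y = 0) ∧
    (∀ x, ContDiffOn ℝ ∞ (w x) (tgt n M x)) ∧
    ∀ x x', ∀ y ∈ (tr n M x x').source,
      w x y = rho (fderiv ℝ (tr n M x x') y) (w x' (tr n M x x' y))}
  add_mem' := by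
    rintro a b ⟨ha1, ha2, ha3⟩ ⟨hb1, hb2, hb3⟩
    refine ⟨fun x y hy => by simp [ha1 x y hy, hb1 x y hy], fun x => (ha2 x).add (hb2 x), ?_⟩
    intro x x' y hy
    simp only [Pi.add_apply]
    rw [ha3 x x' y hy, hb3 x x' y hy, map_add]
  zero_mem' := by
    refine ⟨fun x y _ => rfl, fun x => contDiffOn_const, ?_⟩
    intro x x' y hy
    simp
  smul_mem' := by
    rintro c a ⟨ha1, ha2, ha3⟩
    refine ⟨fun x y hy => by simp [ha1 x y hy], fun x => (ha2 x).const_smul c, ?_⟩
    intro x x' y hy
    simp only [Pi.smul_apply]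
    rw [ha3 x x' y hy, map_smul]

/-- Smooth real functions on `M`. -/
def IsSm (f : M → ℝ) : Prop :=
  ∀ x, ContDiffOn ℝ ∞ (fun y => f ((chartAt (E n) x).symm y)) (tgt n M x)

variable {n M}

open Classical in
/-- A smooth orthonormal frame field in the chart at `x`. -/
def Bf (g : RMetric n M) (x : M) : E n → E n →L[ℝ] E n :=
  if h : ∃ B, IsFrameField (g.g x) (tgt n M x) B then h.choose else 0

/-- The point of the model corresponding to `x` in its own chart. -/
abbrev ctr (n : ℕ) {M : Type} [TopologicalSpace M] [ChartedSpace (E n) M] (x : M) : E n :=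
  chartAt (E n) x x

/-- The chosen orthonormal frame at `x` (in the chart at `x`). -/
def fr (g : RMetric n M) (x : M) : Fr n := (ctr n x, Bf g x (ctr n x))

/-- Value of a total form at `x` in the chosen frame. -/
def val (g : RMetric n M) (s : M → E n → X n) (x : M) : X n := lift (s x) (fr g x)

/-- Covariant derivative of a total form at `x` in the chosen frame. -/
def nab (g : RMetric n M) (s : M → E n → X n) (x : M) (i : Fin n) : X n :=
  Hd (g.g x) (e i) (lift (s x)) (fr g x)

/-- Riemannian density in the chart at `x`. -/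
def dens (g : RMetric n M) (x : M) (y : E n) : ℝ := |LinearMap.det (Bf g x y).toLinearMap|⁻¹

/-- The characterising property of the Riemannian volume measure. -/
def IsVol (g : RMetric n M) [MeasurableSpace M] (μ : Measure M) : Prop :=
  IsFiniteMeasure μ ∧ ∀ x, ∀ f : M → ENNReal, Measurable f →
    (∀ p ∉ (chartAt (E n) x).source, f p = 0) →
      ∫⁻ p, f p ∂μ = ∫⁻ y in tgt n M x, f ((chartAt (E n) x).symm y) * ENNReal.ofReal (dens g x y)

open Classical in
/-- The Riemannian volume measure. -/
def vol (g : RMetric n M) [MeasurableSpace M] : Measure M :=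
  if h : ∃ μ, IsVol g μ then h.choose else 0

/-- `L²` inner product of total forms. -/
def ip (g : RMetric n M) [MeasurableSpace M] (s t : M → E n → X n) : ℝ :=
  ∫ x, ⟪val g s x, val g t x⟫_ℝ ∂(vol g)

/-- Dirichlet energy of total forms. -/
def en (g : RMetric n M) [MeasurableSpace M] (s : M → E n → X n) : ℝ :=
  ∫ x, ∑ i, ‖nab g s x i‖ ^ 2 ∂(vol g)

/-- the weight of the `L²` product in the chart at `x` -/
def Mw (g : RMetric n M) (x : M) (y : E n) : X n →L[ℝ] X n :=
  dens g x y • ((ContinuousLinearMap.adjoint (rho (Bf g x y))) ∘L rho (Bf g x y))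

open Classical in
/-- Exterior derivative on families. -/
def dT (s : M → E n → X n) (x : M) (y : E n) : X n :=
  if y ∈ tgt n M x then dloc (s x) y else 0

open Classical in
/-- Codifferential on families. -/
def deT (g : RMetric n M) (s : M → E n → X n) (x : M) (y : E n) : X n :=
  if y ∈ tgt n M x then deloc (g.g x) (s x) y else 0

open Classical in
/-- A function as a total form of degree `0`. -/
def fnT (f : M → ℝ) (x : M) (y : E n) : X n :=
  if y ∈ tgt n M x then f ((chartAt (E n) x).symm y) • eX ∅ else 0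

/-- Projection to degree `p` on families. -/
def prT (p : ℕ) (s : M → E n → X n) (x : M) (y : E n) : X n := prj p (s x y)

/-- Multiplication of a family by a function. -/
def mulT (f : M → ℝ) (s : M → E n → X n) (x : M) (y : E n) : X n :=
  f ((chartAt (E n) x).symm y) • s x y

open Classical in
/-- Extension by zero of a total form given in the chart at `x`. -/
def extT (x : M) (w : E n → X n) (x' : M) (y : E n) : X n :=
  if y ∈ (tr n M x' x).source then rho (fderiv ℝ (tr n M x' x) y) (w (tr n M x' x y)) else 0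

end Global

end ANCO
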