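import Pool.Agent.Helper39.Anco.K1
import Pool.Agent.Helper39.Anco.K2
import Pool.Agent.Helper39.Anco.K3

open scoped ContDiff Topology InnerProductSpace
open Set MeasureTheory

set_option maxSynthPendingDepth 3

noncomputable section
namespace ANCO

variable {n : ℕ} {κ c : ℝ}

/-! ## Cauchy–Schwarz for an abstract positive form -/

theorem k4_cs {V : Type} [AddCommGroup V] [Module ℝ V] (B : V →ₗ[ℝ] V →ₗ[ℝ] ℝ)
    (hsymm : ∀ u v, B u v = B v u) (hpos : ∀ u, u ≠ 0 → 0 < B u u) (u v : V) :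
    (B u v) ^ 2 ≤ B u u * B v v := by
  by_cases hv : v = 0
  · subst hv; simp
  have hvv := hpos v hv
  set t : ℝ := B u v / B v v with ht
  have h0 : 0 ≤ B (u - t • v) (u - t • v) := by
    by_cases h : u - t • v = 0
    · rw [h]; simp
    · exact (hpos _ h).le
  have h1 : B (u - t • v) (u - t • v) = B u u - 2 * t * B u v + t ^ 2 * B v v := by
    simp only [map_sub, map_smul, LinearMap.sub_apply, LinearMap.smul_apply, smul_eq_mul]
    rw [hsymm v u]; ring
  rw [h1] at h0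
  have h2 : t * B v v = B u v := by rw [ht]; field_simp
  have h3 : (B u u - 2 * t * B u v + t ^ 2 * B v v) * B v v = B u u * B v v - (B u v) ^ 2 := by
    have : t ^ 2 * B v v * B v v = (t * B v v) ^ 2 := by ring
    have h4 : 2 * t * B u v * B v v = 2 * (t * B v v) * B u v := by ring
    calc (B u u - 2 * t * B u v + t ^ 2 * B v v) * B v v
        = B u u * B v v - 2 * t * B u v * B v v + t ^ 2 * B v v * B v v := by ring
      _ = B u u * B v v - (B u v) ^ 2 := by rw [this, h4, h2]; ring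
  nlinarith [mul_nonneg h0 hvv.le]

theorem k4_cs_abs {V : Type} [AddCommGroup V] [Module ℝ V] (B : V →ₗ[ℝ] V →ₗ[ℝ] ℝ)
    (hsymm : ∀ u v, B u v = B v u) (hpos : ∀ u, u ≠ 0 → 0 < B u u) (u v : V) {a b : ℝ}
    (ha : 0 ≤ a) (hb : 0 ≤ b) (hu : B u u ≤ a ^ 2) (hv : B v v ≤ b ^ 2) : |B u v| ≤ a * b := by
  have h := k4_cs B hsymm hpos u v
  have hvv : 0 ≤ B v v := by
    by_cases h : v = 0
    · rw [h]; simp
    · exact (hpos _ h).le
  apply abs_le_of_sq_le_sq _ (mul_nonneg ha hb)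
  calc (B u v) ^ 2 ≤ B u u * B v v := h
    _ ≤ a ^ 2 * b ^ 2 := by gcongr
    _ = (a * b) ^ 2 := by ring

/-- almost orthonormal vectors are independent -/
theorem k4_indep {m : ℕ} (v : Fin m → X n) (η : ℝ) (hη : η * m < 1)
    (hv : ∀ a b, |⟪v a, v b⟫_ℝ - (if a = b then 1 else 0)| ≤ η) : m ≤ 2 ^ n := by
  have hli : LinearIndependent ℝ v := by
    rw [Fintype.linearIndependent_iff]
    intro g hg
    by_contra hcon
    push Not at hcon
    obtain ⟨i, hi⟩ := hcon
    have : Nonempty (Fin m) := ⟨i⟩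
    obtain ⟨a₀, ha₀⟩ := Finite.exists_max (fun a => |g a|)
    have hpos : 0 < |g a₀| := lt_of_lt_of_le (abs_pos.mpr hi) (ha₀ i)
    have h0 : ∑ a, g a * ⟪v a, v a₀⟫_ℝ = 0 := by
      have := congrArg (fun w => ⟪w, v a₀⟫_ℝ) hg
      simpa [sum_inner, inner_smul_left] using this
    have h1 : g a₀ = - ∑ a, g a * (⟪v a, v a₀⟫_ℝ - (if a = a₀ then 1 else 0)) := by
      have : ∑ a, g a * (⟪v a, v a₀⟫_ℝ - (if a = a₀ then (1 : ℝ) else 0))
          = ∑ a, g a * ⟪v a, v a₀⟫_ℝ - ∑ a, g a * (if a = a₀ then (1 : ℝ) else 0) := by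
        rw [← Finset.sum_sub_distrib]; congr 1; ext a; ring
      rw [this, h0]; simp
    have h2 : |g a₀| ≤ ∑ a : Fin m, |g a₀| * η := by
      calc |g a₀| = |∑ a, g a * (⟪v a, v a₀⟫_ℝ - (if a = a₀ then 1 else 0))| := by
            conv_lhs => rw [h1]
            rw [abs_neg]
        _ ≤ ∑ a, |g a * (⟪v a, v a₀⟫_ℝ - (if a = a₀ then 1 else 0))| := Finset.abs_sum_le_sum_abs _ _
        _ ≤ ∑ a : Fin m, |g a₀| * η := by
            apply Finset.sum_le_sum
            intro a _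
            rw [abs_mul]
            exact mul_le_mul (ha₀ a) (hv a a₀) (abs_nonneg _) (abs_nonneg _)
    rw [Finset.sum_const, Finset.card_univ, Fintype.card_fin, nsmul_eq_mul] at h2
    have : (m : ℝ) * (|g a₀| * η) = |g a₀| * (η * m) := by ring
    rw [this] at h2
    nlinarith
  have := hli.fintype_card_le_finrank
  simpa [X] using this

/-- at most `2^n` orthonormal sections of small energy -/
theorem mult_bound (n : ℕ) (c : ℝ) (hc : 0 < c) : ∃ L > 0, ∀ (κ : ℝ) (P : Pkg n κ c) (N : ℕ)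
    (s : Fin N → P.V), (∀ a b, P.C.B (s a) (s b) = if a = b then 1 else 0) →
    (∀ a, P.Q (s a) ≤ L) → N ≤ 2 ^ n := by
  set m : ℕ := 2 ^ n + 1 with hm
  have hm1 : (1 : ℝ) ≤ m := by
    rw [hm]; push_cast; linarith [show (0 : ℝ) ≤ 2 ^ n by positivity]
  set t : ℝ := 1 / (60 * (m : ℝ) ^ 2) with ht
  have htpos : 0 < t := by positivity
  have htm : t * (60 * (m : ℝ) ^ 2) = 1 := by rw [ht]; field_simp
  have ht1 : t ≤ 1 / 60 := by
    rw [ht]; apply one_div_le_one_div_of_le (by norm_num); nlinarith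
  refine ⟨c * t ^ 2, by positivity, ?_⟩
  intro κ P N s hs hQ
  by_contra hN
  push Not at hN
  have hle : m ≤ N := by omega
  -- truncated sections
  have hQ' : ∀ a : Fin m, P.Q (s (Fin.castLE hle a)) ≤ c * t ^ 2 := fun a => hQ _
  have ht2 : t ^ 2 ≤ 1 := by nlinarith
  have hcL : c * t ^ 2 ≤ c := by nlinarith
  choose u hu1 hu2 hu3 using fun a : Fin m =>
    P.trunc hc (s (Fin.castLE hle a)) (by rw [hs]; simp) ((hQ' a).trans hcL)
  have hd : ∀ a, P.C.B (s (Fin.castLE hle a) - u a) (s (Fin.castLE hle a) - u a) ≤ (3 * t) ^ 2 := by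
    intro a
    refine (hu3 a).trans ?_
    rw [div_le_iff₀ hc]
    have := hQ' a
    nlinarith
  have hs1 : ∀ a : Fin m, P.C.B (s (Fin.castLE hle a)) (s (Fin.castLE hle a)) ≤ 1 ^ 2 := by
    intro a; rw [hs]; simp
  have hmean : ∀ a b : Fin m, |P.C.B (u a) (u b) - (if a = b then 1 else 0)| ≤ 7 * t := by
    intro a b
    set A := s (Fin.castLE hle a)
    set B' := s (Fin.castLE hle b)
    have hAB : P.C.B A B' = if a = b then 1 else 0 := by
      have := hs (Fin.castLE hle a) (Fin.castLE hle b)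
      rw [this]; simp
    have e1 : P.C.B (u a) (u b) - (if a = b then (1 : ℝ) else 0)
        = - P.C.B (A - u a) B' - P.C.B A (B' - u b) + P.C.B (A - u a) (B' - u b) := by
      rw [← hAB]
      simp only [map_sub, LinearMap.sub_apply]; ring
    have b1 := k4_cs_abs P.C.B P.C.symm P.C.pos (A - u a) B' (a := 3 * t) (b := 1) (by positivity)
      (by norm_num) (hd a) (hs1 b)
    have b2 := k4_cs_abs P.C.B P.C.symm P.C.pos A (B' - u b) (a := 1) (b := 3 * t) (by norm_num)
      (by positivity) (hs1 a) (hd b)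
    have b3 := k4_cs_abs P.C.B P.C.symm P.C.pos (A - u a) (B' - u b) (a := 3 * t) (b := 3 * t)
      (by positivity) (by positivity) (hd a) (hd b)
    rw [e1]
    rw [abs_le] at b1 b2 b3 ⊢
    constructor <;> nlinarith
  -- Gram functions
  have hG : ∀ a b : Fin m, ∀ x, ⟪psi (P.val (s (Fin.castLE hle a)) x),
      psi (P.val (s (Fin.castLE hle b)) x)⟫_ℝ = ⟪P.val (u a) x, P.val (u b) x⟫_ℝ := by
    intro a b x; rw [hu1, hu1]
  have hGm : ∀ a b : Fin m, ∫ x, ⟪P.val (u a) x, P.val (u b) x⟫_ℝ ∂P.μ = P.C.B (u a) (u b) :=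
    fun a b => (P.B_eq _ _).symm
  have hvar : ∀ a b : Fin m, ∫ x, (⟪P.val (u a) x, P.val (u b) x⟫_ℝ - P.C.B (u a) (u b)) ^ 2 ∂P.μ
      ≤ 36 * t ^ 2 := by
    intro a b
    have h := P.gram hc (s (Fin.castLE hle a)) (s (Fin.castLE hle b))
    simp only [hG] at h
    rw [hGm] at h
    refine h.trans ?_
    rw [div_le_iff₀ hc]
    have h1 := hQ' a
    have h2 := hQ' b
    nlinarith
  have hcont : ∀ a b : Fin m, Continuous
      (fun x => (⟪P.val (u a) x, P.val (u b) x⟫_ℝ - P.C.B (u a) (u b)) ^ 2) := by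
    intro a b
    exact ((P.cont_ip (u a) (u b)).sub continuous_const).pow 2
  obtain ⟨x, hx⟩ := P.exists_le_mean
    (fun x => ∑ a : Fin m, ∑ b : Fin m, (⟪P.val (u a) x, P.val (u b) x⟫_ℝ - P.C.B (u a) (u b)) ^ 2)
    (continuous_finsetSum _ fun a _ => continuous_finsetSum _ fun b _ => hcont a b)
  have hint : ∀ a b : Fin m, Integrable
      (fun x => (⟪P.val (u a) x, P.val (u b) x⟫_ℝ - P.C.B (u a) (u b)) ^ 2) P.μ := by
    intro a b
    exact (hcont a b).integrable_of_hasCompactSupport (HasCompactSupport.of_compactSpace _)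
  rw [integral_finsetSum _ (fun a _ => integrable_finsetSum _ fun b _ => hint a b)] at hx
  have hsum : ∑ a : Fin m, ∫ x, ∑ b : Fin m,
      (⟪P.val (u a) x, P.val (u b) x⟫_ℝ - P.C.B (u a) (u b)) ^ 2 ∂P.μ ≤ (6 * m * t) ^ 2 := by
    calc _ ≤ ∑ a : Fin m, ∑ b : Fin m, 36 * t ^ 2 := by
          apply Finset.sum_le_sum
          intro a _
          rw [integral_finsetSum _ (fun b _ => hint a b)]
          exact Finset.sum_le_sum fun b _ => hvar a b
      _ = (6 * m * t) ^ 2 := by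
          simp only [Finset.sum_const, Finset.card_univ, Fintype.card_fin, nsmul_eq_mul]
          ring
  have hx2 := hx.trans hsum
  have hxab : ∀ a b : Fin m, |⟪P.val (u a) x, P.val (u b) x⟫_ℝ - P.C.B (u a) (u b)| ≤ 6 * m * t := by
    intro a b
    apply abs_le_of_sq_le_sq _ (by positivity)
    refine le_trans ?_ hx2
    have h1 : (⟪P.val (u a) x, P.val (u b) x⟫_ℝ - P.C.B (u a) (u b)) ^ 2 ≤
        ∑ b : Fin m, (⟪P.val (u a) x, P.val (u b) x⟫_ℝ - P.C.B (u a) (u b)) ^ 2 :=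
      Finset.single_le_sum (f := fun b => (⟪P.val (u a) x, P.val (u b) x⟫_ℝ - P.C.B (u a) (u b)) ^ 2)
        (fun _ _ => sq_nonneg _) (Finset.mem_univ b)
    refine h1.trans ?_
    exact Finset.single_le_sum
      (f := fun a => ∑ b : Fin m, (⟪P.val (u a) x, P.val (u b) x⟫_ℝ - P.C.B (u a) (u b)) ^ 2)
      (fun _ _ => Finset.sum_nonneg fun _ _ => sq_nonneg _) (Finset.mem_univ a)
  have key := k4_indep (n := n) (m := m) (fun a => P.val (u a) x)
    (6 * m * t + 7 * t) (by nlinarith) (fun a b => by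
      have h1 := hxab a b
      have h2 := hmean a b
      rw [abs_le] at h1 h2 ⊢
      constructor <;> linarith)
  omega

end ANCO
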