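import Pool.Agent.Helper39.Anco.Geo

open scoped ContDiff Topology Manifold InnerProductSpace
open Set MeasureTheory Filter

set_option maxSynthPendingDepth 3

noncomputable section
namespace ANCO

variable {n : ℕ}

/-- coordinates in the target -/
abbrev Wd (ι : Type) [Fintype ι] := EuclideanSpace ℝ ι

/-- `k` is locally square integrable in the open set `U`. -/
def LocL2 {ι : Type} [Fintype ι] (U : Set (E n)) (k : E n → Wd ι) : Prop :=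
  ∀ K ⊆ U, IsCompact K → MemLp k 2 (volume.restrict K)

/-- test functions in `U` -/
def Test {ι : Type} [Fintype ι] (U : Set (E n)) (ψ : E n → Wd ι) : Prop :=
  ContDiff ℝ ∞ ψ ∧ HasCompactSupport ψ ∧ tsupport ψ ⊆ U

/-- `k'` is the weak derivative of `k` in the direction `e j` in `U`. -/
def WDer {ι : Type} [Fintype ι] (U : Set (E n)) (j : Fin n) (k k' : E n → Wd ι) : Prop :=
  ∀ ψ : E n → Wd ι, Test U ψ → ∫ y, ⟪k y, fderiv ℝ ψ y (e j)⟫_ℝ = -∫ y, ⟪k' y, ψ y⟫_ℝ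

/-- local Sobolev regularity of order `m` -/
def HLoc {ι : Type} [Fintype ι] (U : Set (E n)) : ℕ → (E n → Wd ι) → Prop
  | 0, k => LocL2 U k
  | m + 1, k => LocL2 U k ∧ ∀ j, ∃ k', WDer U j k k' ∧ HLoc U m k'

/-- Symbol condition. -/
def SymbCond {ι : Type} [Fintype ι]
    (A : Fin n → E n → (EuclideanSpace ℝ ι →L[ℝ] EuclideanSpace ℝ ι)) (U : Set (E n)) : Prop :=
  ∀ y ∈ U, ∃ S : E n →L[ℝ] E n, Function.Injective S ∧ ∀ (ξ : E n) (x : EuclideanSpace ℝ ι),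
    (∑ j, ξ j • A j y) ((∑ j, ξ j • A j y) x) = -(‖S ξ‖ ^ 2) • x

/-- weak form: `∫ ⟪k, ∑ A_j ∂_j ψ + B ψ⟫ = ∫ ⟪f, ψ⟫` for test functions in `U` -/
def WeakSol {ι : Type} [Fintype ι] (U : Set (E n)) (A : Fin n → E n → (Wd ι →L[ℝ] Wd ι))
    (B : E n → (Wd ι →L[ℝ] Wd ι)) (k f : E n → Wd ι) : Prop :=
  ∀ ψ : E n → Wd ι, Test U ψ →
    ∫ y, ⟪k y, ∑ j, A j y (fderiv ℝ ψ y (e j)) + B y (ψ y)⟫_ℝ = ∫ y, ⟪f y, ψ y⟫_ℝ

end ANCO
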