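import Pool.Agent.Helper39.Anco.CoreReal
import Pool.Agent.Helper39.Anco.LTools

open scoped ContDiff Topology Manifold InnerProductSpace
open Set MeasureTheory Filter

set_option maxSynthPendingDepth 3

noncomputable section
namespace ANCO

variable {n : ℕ}

/-! ## L7 LA : file Anco/La.lean -/

/-- frozen coefficients: a small ball and a cutoff -/
theorem la_cut {G : Type*} [NormedAddCommGroup G] [NormedSpace ℝ G] {U : Set (E n)} (hU : IsOpen U)
    {L : Fin n → E n → G} (hL : ∀ j, ContDiffOn ℝ ∞ (L j) U) {y₀ : E n} (hy₀ : y₀ ∈ U) {ε : ℝ}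
    (hε : 0 < ε) : ∃ r > 0, Metric.closedBall y₀ r ⊆ U ∧ ∃ η : E n → ℝ, ContDiff ℝ ∞ η ∧
      HasCompactSupport η ∧ tsupport η ⊆ U ∧ (∀ y ∈ Metric.closedBall y₀ r, η y = 1) ∧
      (∀ j y, ‖η y • (L j y - L j y₀)‖ ≤ ε) := by
  have h1 : ∀ᶠ y in 𝓝 y₀, y ∈ U ∧ ∀ j, ‖L j y - L j y₀‖ < ε := by
    refine Filter.Eventually.and (hU.mem_nhds hy₀) ?_
    rw [eventually_all]
    intro j
    have hc : ContinuousAt (L j) y₀ := ((hL j).continuousOn.continuousAt (hU.mem_nhds hy₀))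
    have := (hc.sub_const (L j y₀) : ContinuousAt (fun y => L j y - L j y₀) y₀).norm
    have h2 : (fun y => ‖L j y - L j y₀‖) y₀ < ε := by simpa using hε
    exact this.eventually_lt continuousAt_const h2
  obtain ⟨δ, hδ, hball⟩ := Metric.eventually_nhds_iff_ball.1 h1
  let f : ContDiffBump y₀ := ⟨δ/3, δ/2, by positivity, by linarith⟩
  refine ⟨δ/3, by positivity, ?_, f, f.contDiff, f.hasCompactSupport, ?_, ?_, ?_⟩
  · intro y hy
    exact (hball y (Metric.closedBall_subset_ball (by linarith) hy)).1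
  · rw [f.tsupport_eq]
    intro y hy
    have h5 : f.rOut < δ := by
      show δ/2 < δ
      linarith
    exact (hball y (Metric.closedBall_subset_ball h5 hy)).1
  · intro y hy
    exact f.one_of_mem_closedBall hy
  · intro j y
    by_cases hy : y ∈ Metric.ball y₀ δ
    · rw [norm_smul, Real.norm_eq_abs, abs_of_nonneg f.nonneg]
      calc f y * ‖L j y - L j y₀‖ ≤ 1 * ε :=
            mul_le_mul f.le_one ((hball y hy).2 j).le (norm_nonneg _) zero_le_one
        _ = ε := one_mul _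
    · have h3 : f y = 0 := by
        apply f.zero_of_le_dist
        have h4 : δ ≤ dist y y₀ := by
          rw [Metric.mem_ball] at hy
          exact not_lt.1 hy
        have h5 : f.rOut ≤ δ := by
          show δ/2 ≤ δ
          linarith
        linarith
      rw [h3, zero_smul, norm_zero]
      exact hε.le

/-- scalar cutoff times a smooth function on `U`, general target -/
theorem la_smooth {G : Type*} [NormedAddCommGroup G] [NormedSpace ℝ G] {U : Set (E n)}
    (hU : IsOpen U) {η : E n → ℝ} (hη : ContDiff ℝ ∞ η) (hc : HasCompactSupport η)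
    (hs : tsupport η ⊆ U) {f : E n → G} (hf : ContDiffOn ℝ ∞ f U) :
    ContDiff ℝ ∞ (fun y => η y • f y) ∧ HasCompactSupport (fun y => η y • f y) := by
  have hL : ContDiffOn ℝ ∞ (fun y => (ContinuousLinearMap.lsmul ℝ ℝ :
      ℝ →L[ℝ] G →L[ℝ] G).flip (f y)) U :=
    (ContinuousLinearMap.contDiff _).comp_contDiffOn hf
  exact ⟨lt_smooth_clm hU hL hη hs, hc.smul_right⟩

theorem la_memLp {ι : Type} [Fintype ι] {U : Set (E n)} {ψ : E n → Wd ι} (hψ : Test U ψ) :
    MemLp ψ 2 := hψ.1.continuous.memLp_of_hasCompactSupport hψ.2.1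

theorem la_sq_int {ι : Type} [Fintype ι] {ψ : E n → Wd ι} (hψ : MemLp ψ 2) :
    Integrable (fun y => ‖ψ y‖ ^ 2) := by
  have := hψ.integrable_norm_pow (p := 2) (by norm_num)
  simpa using this

theorem local_apriori {ι : Type} [Fintype ι] {U : Set (E n)} (hU : IsOpen U)
    {A : Fin n → E n → (Wd ι →L[ℝ] Wd ι)} {B : E n → (Wd ι →L[ℝ] Wd ι)}
    (hA : ∀ j, ContDiffOn ℝ ∞ (A j) U) (hB : ContDiffOn ℝ ∞ B U) (hs : SymbCond A U)
    {y₀ : E n} (hy₀ : y₀ ∈ U) : ∃ r > 0, ∃ C, Metric.closedBall y₀ r ⊆ U ∧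
      ∀ w : E n → Wd ι, Test (Metric.ball y₀ r) w →
        ∑ j, ∫ y, ‖fderiv ℝ w y (e j)‖ ^ 2 ≤
          C * ((∫ y, ‖∑ j, A j y (fderiv ℝ w y (e j)) + B y (w y)‖ ^ 2) + ∫ y, ‖w y‖ ^ 2) := by
  obtain ⟨S, hS, hsym⟩ := hs y₀ hy₀
  obtain ⟨ε, hε, hcore⟩ := core_real (fun j => A j y₀) S hS hsym
  obtain ⟨r, hr, hrU, η, hη, hηc, hηU, hη1, hηε⟩ := la_cut hU hA hy₀ hε
  have hbs : ∀ j, ContDiff ℝ ∞ (fun y => η y • (A j y - A j y₀)) ∧
      HasCompactSupport (fun y => η y • (A j y - A j y₀)) := fun j =>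
    la_smooth hU hη hηc hηU ((hA j).sub contDiffOn_const)
  obtain ⟨C, hC⟩ := hcore (fun j y => η y • (A j y - A j y₀)) (fun j => (hbs j).1)
    (fun j => (hbs j).2) (fun j y => hηε j y)
  -- the lower order term
  set Q : E n → (Wd ι →L[ℝ] Wd ι) := fun y => (∑ j, fderiv ℝ (A j) y (e j)) - B y with hQ
  have hQc : ContinuousOn Q U := by
    refine ContinuousOn.sub ?_ hB.continuousOn
    refine continuousOn_finsetSum _ fun j _ => ?_
    have h1 := (hA j).fderiv_of_isOpen hU (m := ∞) (by simp)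
    exact h1.continuousOn.clm_apply continuousOn_const
  obtain ⟨M, hM⟩ := (isCompact_closedBall y₀ r).exists_bound_of_continuousOn (hQc.mono hrU)
  refine ⟨r, hr, |C| * (2 + (2 * M ^ 2 + 1)), hrU, ?_⟩
  intro w hw
  have hwU : Test U w := lt_test_mono (Metric.ball_subset_closedBall.trans hrU) hw
  have hwu : Test univ w := lt_test_mono (subset_univ _) hw
  have hAw : ∀ j, Test U (fun y => A j y (w y)) := fun j => lt_test_mul hU (hA j) hwU
  have hDw : Test U (fun y => ∑ j, A j y (fderiv ℝ w y (e j)) + B y (w y)) :=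
    lt_test_add (lt_test_sum _ fun j _ => lt_test_mul hU (hA j) (lt_test_fderiv hwU (e j)))
      (lt_test_mul hU hB hwU)
  set f : E n → Wd ι := fun y => ∑ j, fderiv ℝ (fun y => A j y (w y)) y (e j) with hf
  have hft : Test U f := lt_test_sum _ fun j _ => lt_test_fderiv (hAw j) (e j)
  have hwsupp : ∀ y, w y ≠ 0 → y ∈ Metric.closedBall y₀ r := fun y hy =>
    Metric.ball_subset_closedBall (hw.2.2 (subset_tsupport _ hy))
  -- pointwise formula for `f`
  have hfpt : ∀ y, f y = (∑ j, A j y (fderiv ℝ w y (e j)) + B y (w y)) + Q y (w y) := by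
    intro y
    by_cases hy : y ∈ U
    · have h1 : ∀ j, fderiv ℝ (fun y => A j y (w y)) y (e j) =
          A j y (fderiv ℝ w y (e j)) + fderiv ℝ (A j) y (e j) (w y) := by
        intro j
        have h2 : HasFDerivAt (A j) (fderiv ℝ (A j) y) y :=
          (((hA j).contDiffAt (hU.mem_nhds hy)).differentiableAt (by simp)).hasFDerivAt
        have h3 : HasFDerivAt w (fderiv ℝ w y) y :=
          (hw.1.contDiffAt.differentiableAt (by simp)).hasFDerivAt
        rw [(h2.clm_apply h3).fderiv]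
        simp
      rw [hf, hQ]
      simp only [h1, Finset.sum_add_distrib, sub_apply, sum_apply]
      abel
    · have hy' : y ∉ tsupport w := fun h => hy (hwU.2.2 h)
      have h0 : w =ᶠ[𝓝 y] fun _ => 0 := notMem_tsupport_iff_eventuallyEq.mp hy'
      have h1 : w y = 0 := h0.self_of_nhds
      have h2 : fderiv ℝ w y = 0 := by
        rw [h0.fderiv_eq]; simp
      have h3 : ∀ j, fderiv ℝ (fun y => A j y (w y)) y = 0 := by
        intro j
        have h4 : (fun y => A j y (w y)) =ᶠ[𝓝 y] fun _ => 0 := by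
          filter_upwards [h0] with z hz
          rw [hz, map_zero]
        rw [h4.fderiv_eq]; simp
      rw [hf]
      simp only [h3, h2, h1]
      simp
  have hfle : ∀ y, ‖f y‖ ^ 2 ≤ 2 * ‖∑ j, A j y (fderiv ℝ w y (e j)) + B y (w y)‖ ^ 2 +
      2 * M ^ 2 * ‖w y‖ ^ 2 := by
    intro y
    have h1 : ‖Q y (w y)‖ ≤ M * ‖w y‖ := by
      by_cases hy : w y = 0
      · simp [hy]
      · exact (ContinuousLinearMap.le_opNorm _ _).trans
          (mul_le_mul_of_nonneg_right (hM y (hwsupp y hy)) (norm_nonneg _))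
    rw [hfpt y]
    have h2 := norm_add_le (∑ j, A j y (fderiv ℝ w y (e j)) + B y (w y)) (Q y (w y))
    have h3 : ‖Q y (w y)‖ ^ 2 ≤ (M * ‖w y‖) ^ 2 := pow_le_pow_left₀ (norm_nonneg _) h1 2
    have h4 := pow_le_pow_left₀ (norm_nonneg _) h2 2
    have h5 := sq_nonneg (‖∑ j, A j y (fderiv ℝ w y (e j)) + B y (w y)‖ - ‖Q y (w y)‖)
    nlinarith
  -- the weak equation
  have hweak : ∀ ψ : E n → Wd ι, Test univ ψ →
      ∫ y, ∑ j, ⟪(A j y₀ + η y • (A j y - A j y₀)) (w y), fderiv ℝ ψ y (e j)⟫_ℝ =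
        -∫ y, ⟪f y, ψ y⟫_ℝ := by
    intro ψ hψ
    have hAu : ∀ j, Test univ (fun y => A j y (w y)) := fun j =>
      lt_test_mono (subset_univ _) (hAw j)
    have h1 : ∀ y, ∑ j, ⟪(A j y₀ + η y • (A j y - A j y₀)) (w y), fderiv ℝ ψ y (e j)⟫_ℝ =
        ∑ j, ⟪A j y (w y), fderiv ℝ ψ y (e j)⟫_ℝ := by
      intro y
      by_cases hy : w y = 0
      · simp [hy]
      · rw [hη1 y (hwsupp y hy)]
        simp
    have h2 : ∀ j, Integrable (fun y => ⟪A j y (w y), fderiv ℝ ψ y (e j)⟫_ℝ) := fun j =>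
      lt_integrable_inner (lt_locL2_of_continuousOn (hAu j).1.continuous.continuousOn)
        (lt_test_fderiv hψ (e j))
    have h3 : ∀ j, ∫ y, ⟪A j y (w y), fderiv ℝ ψ y (e j)⟫_ℝ =
        -∫ y, ⟪fderiv ℝ (fun y => A j y (w y)) y (e j), ψ y⟫_ℝ := fun j =>
      lt_wder_smooth isOpen_univ (hAu j).1.contDiffOn j ψ hψ
    have h4 : ∀ j, Integrable (fun y => ⟪fderiv ℝ (fun y => A j y (w y)) y (e j), ψ y⟫_ℝ) :=
      fun j => lt_integrable_inner
        (lt_locL2_of_continuousOn (lt_test_fderiv (hAu j) (e j)).1.continuous.continuousOn) hψ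
    simp only [h1]
    rw [integral_finsetSum _ fun j _ => h2 j]
    simp only [h3]
    rw [Finset.sum_neg_distrib, ← integral_finsetSum _ fun j _ => h4 j]
    congr 1
    apply integral_congr_ae
    exact Eventually.of_forall fun y => by
      rw [hf]
      simp only [sum_inner]
  obtain ⟨w', hw'm, hw'd, hw'C⟩ := hC w f (la_memLp hwU) (la_memLp hft) hweak
  -- compare the weak derivative and the derivative
  have hcmp : ∀ j, ∫ y, ‖fderiv ℝ w y (e j)‖ ^ 2 ≤ ∫ y, ‖w' j y‖ ^ 2 := by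
    intro j
    have hd : Test univ (fun y => fderiv ℝ w y (e j)) := lt_test_fderiv hwu (e j)
    have h1 := hw'd j _ hd
    have h2 := lt_wder_smooth isOpen_univ hwu.1.contDiffOn j _ hd
    rw [h1] at h2
    have h3 : ∫ y, ⟪fderiv ℝ w y (e j), fderiv ℝ w y (e j)⟫_ℝ =
        ∫ y, ⟪w' j y, fderiv ℝ w y (e j)⟫_ℝ := (neg_injective h2).symm
    have i1 := la_sq_int (la_memLp hd)
    have i2 := la_sq_int (hw'm j)
    have h4 : ∫ y, ⟪w' j y, fderiv ℝ w y (e j)⟫_ℝ ≤
        ∫ y, ((1/2) * ‖w' j y‖ ^ 2 + (1/2) * ‖fderiv ℝ w y (e j)‖ ^ 2) := by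
      refine integral_mono (lt_integrable_inner (U := univ) (fun K _ _ => (hw'm j).restrict K) hd)
        ((i2.const_mul _).add (i1.const_mul _)) (fun y => ?_)
      have h5 := real_inner_le_norm (w' j y) (fderiv ℝ w y (e j))
      have h6 := sq_nonneg (‖w' j y‖ - ‖fderiv ℝ w y (e j)‖)
      simp only
      nlinarith
    rw [integral_add (i2.const_mul _) (i1.const_mul _), integral_const_mul, integral_const_mul,
      ← h3] at h4
    simp only [real_inner_self_eq_norm_sq] at h4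
    linarith
  have h1 : ∫ y, ‖f y‖ ^ 2 ≤ 2 * (∫ y, ‖∑ j, A j y (fderiv ℝ w y (e j)) + B y (w y)‖ ^ 2) +
      2 * M ^ 2 * ∫ y, ‖w y‖ ^ 2 := by
    have i1 := la_sq_int (la_memLp hft)
    have i2 := la_sq_int (la_memLp hDw)
    have i3 := la_sq_int (la_memLp hwU)
    have i4 : Integrable (fun y => 2 * ‖∑ j, A j y (fderiv ℝ w y (e j)) + B y (w y)‖ ^ 2 +
      2 * M ^ 2 * ‖w y‖ ^ 2) := (i2.const_mul 2).add (i3.const_mul (2 * M ^ 2))
    have h2 := integral_mono i1 i4 hfle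
    rwa [integral_add (i2.const_mul _) (i3.const_mul _), integral_const_mul,
      integral_const_mul] at h2
  have h2 : 0 ≤ ∫ y, ‖∑ j, A j y (fderiv ℝ w y (e j)) + B y (w y)‖ ^ 2 :=
    integral_nonneg fun y => by positivity
  have h3 : 0 ≤ ∫ y, ‖w y‖ ^ 2 := integral_nonneg fun y => by positivity
  have h4 : 0 ≤ ∫ y, ‖f y‖ ^ 2 := integral_nonneg fun y => by positivity
  set X := ∫ y, ‖∑ j, A j y (fderiv ℝ w y (e j)) + B y (w y)‖ ^ 2 with hX
  set Y := ∫ y, ‖w y‖ ^ 2 with hY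
  set Z := ∫ y, ‖f y‖ ^ 2 with hZ
  calc ∑ j, ∫ y, ‖fderiv ℝ w y (e j)‖ ^ 2 ≤ ∑ j, ∫ y, ‖w' j y‖ ^ 2 :=
        Finset.sum_le_sum fun j _ => hcmp j
    _ ≤ C * (Z + Y) := hw'C
    _ ≤ |C| * (Z + Y) := mul_le_mul_of_nonneg_right (le_abs_self C) (by linarith)
    _ ≤ |C| * ((2 + (2 * M ^ 2 + 1)) * (X + Y)) := by
        apply mul_le_mul_of_nonneg_left _ (abs_nonneg C)
        have h5 : 0 ≤ M ^ 2 * X := by positivity
        nlinarith
    _ = |C| * (2 + (2 * M ^ 2 + 1)) * (X + Y) := by ring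

end ANCO
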