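import Pool.Agent.Helper39.Anco.Boot
import Pool.Agent.Helper39.Anco.Sob

open scoped ContDiff Topology Manifold InnerProductSpace
open Set MeasureTheory Filter

set_option maxSynthPendingDepth 3

noncomputable section
namespace ANCO

variable {n : ℕ}

/-! ## L6 LR : file Anco/Lr.lean -/

theorem local_reg {ι : Type} [Fintype ι] {U : Set (E n)} (hU : IsOpen U)
    {A : Fin n → E n → (Wd ι →L[ℝ] Wd ι)} {B : E n → (Wd ι →L[ℝ] Wd ι)}
    (hA : ∀ j, ContDiffOn ℝ ∞ (A j) U) (hB : ContDiffOn ℝ ∞ B U) (hs : SymbCond A U)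
    {k f : E n → Wd ι} (hk : LocL2 U k) (hf : ContDiffOn ℝ ∞ f U) (hw : WeakSol U A B k f) :
    ∃ k' : E n → Wd ι, ContDiffOn ℝ ∞ k' U ∧ (∀ᵐ y ∂(volume.restrict U), k y = k' y) :=
  smooth_of_HLoc hU (weak_HLoc hU hA hB hs hk hf hw)

end ANCO
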