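import Pool.Agent.Helper39.Anco.LDefs

/-!
# MUL: Fourier multipliers and multiplication operators on `L²`
-/

open scoped ContDiff Topology Manifold InnerProductSpace SchwartzMap
open Set MeasureTheory Filter FourierTransform

set_option maxSynthPendingDepth 3

noncomputable section
namespace ANCO

variable {n : ℕ}

/-- complex valued `L²` functions on `ℝⁿ` -/
abbrev L2c (n : ℕ) := Lp ℂ 2 (volume : Measure (E n))

open Classical in
/-- multiplication by a bounded function, as an operator on `L²` -/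
def mulOp (b : E n → ℂ) : L2c n →L[ℂ] L2c n :=
  if h : MemLp b ⊤ (volume : Measure (E n)) then
    (ContinuousLinearMap.lsmul ℂ ℂ).holderL volume ⊤ 2 2 (h.toLp b) else 0

/-- Fourier multiplier as an operator on `L²` -/
def fmOp (m : E n → ℂ) : L2c n →L[ℂ] L2c n :=
  ((Lp.fourierTransformₗᵢ (E n) ℂ).symm.toContinuousLinearEquiv : L2c n →L[ℂ] L2c n) ∘L
    mulOp m ∘L ((Lp.fourierTransformₗᵢ (E n) ℂ).toContinuousLinearEquiv : L2c n →L[ℂ] L2c n)

theorem mul_memLp {b : E n → ℂ} (hb : b.HasTemperateGrowth) {C : ℝ} (hC : ∀ y, ‖b y‖ ≤ C) :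
    MemLp b ⊤ (volume : Measure (E n)) :=
  memLp_top_of_bound hb.1.continuous.aestronglyMeasurable C (ae_of_all _ hC)

theorem mulOp_coeFn {b : E n → ℂ} (h : MemLp b ⊤ (volume : Measure (E n))) (f : L2c n) :
    ∀ᵐ y, mulOp b f y = b y * f y := by
  rw [mulOp, dif_pos h]
  have h1 := (ContinuousLinearMap.lsmul ℂ ℂ (E := ℂ)).coeFn_holder (r := 2) (h.toLp b) f
  have h2 := h.coeFn_toLp
  filter_upwards [h1, h2] with y hy1 hy2
  rw [ContinuousLinearMap.holderL_apply_apply, hy1, hy2]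
  rfl

theorem norm_mulOp_le {b : E n → ℂ} {C : ℝ} (hC : ∀ y, ‖b y‖ ≤ C) : ‖mulOp b‖ ≤ C := by
  have hC0 : 0 ≤ C := le_trans (norm_nonneg _) (hC 0)
  by_cases h : MemLp b ⊤ (volume : Measure (E n))
  · refine ContinuousLinearMap.opNorm_le_bound _ hC0 fun f => ?_
    rw [← Real.norm_of_nonneg hC0]
    have hm := mulOp_coeFn h f
    rw [Real.norm_of_nonneg hC0]
    refine Lp.norm_le_mul_norm_of_ae_le_mul ?_
    filter_upwards [hm] with y hy
    rw [hy, norm_mul]
    exact mul_le_mul_of_nonneg_right (hC y) (norm_nonneg _)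
  · rw [mulOp, dif_neg h]
    simpa using hC0

theorem mulOp_coe {b : E n → ℂ} (hb : b.HasTemperateGrowth) {C : ℝ} (hC : ∀ y, ‖b y‖ ≤ C)
    (f : L2c n) : ((mulOp b f : L2c n) : 𝓢'(E n, ℂ)) =
      TemperedDistribution.smulLeftCLM ℂ b (f : 𝓢'(E n, ℂ)) := by
  have h := mul_memLp hb hC
  have hm := mulOp_coeFn h f
  ext u
  rw [Lp.toTemperedDistribution_apply, TemperedDistribution.smulLeftCLM_apply_apply,
    Lp.toTemperedDistribution_apply]
  apply integral_congr_ae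
  filter_upwards [hm] with y hy
  rw [hy, SchwartzMap.smulLeftCLM_apply_apply hb]
  simp only [smul_eq_mul]
  ring

theorem norm_fmOp_le {m : E n → ℂ} {C : ℝ} (hC : ∀ y, ‖m y‖ ≤ C) : ‖fmOp m‖ ≤ C := by
  have hC0 : 0 ≤ C := le_trans (norm_nonneg _) (hC 0)
  refine ContinuousLinearMap.opNorm_le_bound _ hC0 fun f => ?_
  have h1 : fmOp m f = (Lp.fourierTransformₗᵢ (E n) ℂ).symm
      (mulOp m ((Lp.fourierTransformₗᵢ (E n) ℂ) f)) := rfl
  rw [h1, LinearIsometryEquiv.norm_map]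
  refine ((mulOp m).le_opNorm _).trans ?_
  rw [LinearIsometryEquiv.norm_map]
  exact mul_le_mul_of_nonneg_right (norm_mulOp_le hC) (norm_nonneg _)

theorem fmOp_coe {m : E n → ℂ} (hm : m.HasTemperateGrowth) {C : ℝ} (hC : ∀ y, ‖m y‖ ≤ C)
    (f : L2c n) : ((fmOp m f : L2c n) : 𝓢'(E n, ℂ)) =
      TemperedDistribution.fourierMultiplierCLM ℂ m (f : 𝓢'(E n, ℂ)) := by
  have h1 : fmOp m f = 𝓕⁻ (mulOp m (𝓕 f)) := rfl
  rw [h1, ← Lp.fourierInv_toTemperedDistribution_eq, mulOp_coe hm hC,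
    TemperedDistribution.fourierMultiplierCLM_apply, Lp.fourier_toTemperedDistribution_eq]

theorem coe_inj {f g : L2c n} (h : (f : 𝓢'(E n, ℂ)) = (g : 𝓢'(E n, ℂ))) : f = g := by
  have h1 := Lp.ker_toTemperedDistributionCLM_eq_bot (F := ℂ) (p := 2)
    (μ := (volume : Measure (E n)))
  have h2 : Function.Injective (Lp.toTemperedDistributionCLM ℂ (volume : Measure (E n)) 2) :=
    LinearMap.ker_eq_bot.1 h1
  exact h2 h

/-- a bounded Fourier multiplier of temperate growth acts on `L²` -/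
theorem multiplier_L2 (m : E n → ℂ) (hm : m.HasTemperateGrowth) (C : ℝ) (hC : ∀ ξ, ‖m ξ‖ ≤ C)
    (f : Lp ℂ 2 (volume : Measure (E n))) : ∃ h : Lp ℂ 2 (volume : Measure (E n)),
    (h : 𝓢'(E n, ℂ)) = TemperedDistribution.fourierMultiplierCLM ℂ m (f : 𝓢'(E n, ℂ)) ∧
    ‖h‖ ≤ C * ‖f‖ :=
  ⟨fmOp m f, fmOp_coe hm hC f, ((fmOp m).le_opNorm f).trans
    (mul_le_mul_of_nonneg_right (norm_fmOp_le hC) (norm_nonneg _))⟩

/-- multiplication by a bounded function of temperate growth acts on `L²` -/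
theorem smul_L2 (b : E n → ℂ) (hb : b.HasTemperateGrowth) (C : ℝ) (hC : ∀ y, ‖b y‖ ≤ C)
    (f : Lp ℂ 2 (volume : Measure (E n))) : ∃ h : Lp ℂ 2 (volume : Measure (E n)),
    (h : 𝓢'(E n, ℂ)) = TemperedDistribution.smulLeftCLM ℂ b (f : 𝓢'(E n, ℂ)) ∧
    ‖h‖ ≤ C * ‖f‖ ∧ (∀ᵐ y, h y = b y * f y) :=
  ⟨mulOp b f, mulOp_coe hb hC f, ((mulOp b).le_opNorm f).trans
    (mul_le_mul_of_nonneg_right (norm_mulOp_le hC) (norm_nonneg _)),
    mulOp_coeFn (mul_memLp hb hC) f⟩

theorem mul_fderiv_growth {F : Type} [NormedAddCommGroup F] [NormedSpace ℝ F] {b : E n → F}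
    (hb : b.HasTemperateGrowth) : (fderiv ℝ b).HasTemperateGrowth := by
  refine ⟨(contDiff_infty_iff_fderiv.1 hb.1).2, fun m => ?_⟩
  obtain ⟨k, C, h⟩ := hb.2 (m + 1)
  refine ⟨k, C, fun x => ?_⟩
  rw [norm_iteratedFDeriv_fderiv]
  exact h x

theorem mul_fderiv_growth_apply {b : E n → ℂ} (hb : b.HasTemperateGrowth) (v : E n) :
    (fun y => fderiv ℝ b y v).HasTemperateGrowth :=
  ((ContinuousLinearMap.apply ℝ ℂ v).hasTemperateGrowth).comp (mul_fderiv_growth hb)

open LineDeriv in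
/-- Leibniz rule for tempered distributions -/
theorem lineDeriv_smul (b : E n → ℂ) (hb : b.HasTemperateGrowth) (v : E n) (f : 𝓢'(E n, ℂ)) :
    ∂_{v} (TemperedDistribution.smulLeftCLM ℂ b f) =
      TemperedDistribution.smulLeftCLM ℂ (fun y => fderiv ℝ b y v) f +
      TemperedDistribution.smulLeftCLM ℂ b (∂_{v} f) := by
  have hb' : (fun y => fderiv ℝ b y v).HasTemperateGrowth := mul_fderiv_growth_apply hb v
  ext u
  have key : SchwartzMap.smulLeftCLM ℂ b (-(∂_{v} u)) =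
      SchwartzMap.smulLeftCLM ℂ (fun y => fderiv ℝ b y v) u +
        -(∂_{v} (SchwartzMap.smulLeftCLM ℂ b u)) := by
    ext y
    have e1 : fderiv ℝ (SchwartzMap.smulLeftCLM ℂ b u) y v =
        fderiv ℝ b y v * u y + b y * fderiv ℝ u y v := by
      have h0 : (SchwartzMap.smulLeftCLM ℂ b u : E n → ℂ) = fun y => b y * u y := by
        ext z
        rw [SchwartzMap.smulLeftCLM_apply_apply hb]
        rfl
      rw [h0, fderiv_fun_mul (hb.1.differentiable (by simp) y) (u.differentiable y)]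
      simp only [_root_.add_apply, _root_.smul_apply, smul_eq_mul]
      ring
    rw [SchwartzMap.smulLeftCLM_apply_apply hb, _root_.add_apply,
      SchwartzMap.smulLeftCLM_apply_apply hb', _root_.neg_apply, _root_.neg_apply,
      SchwartzMap.lineDerivOp_apply_eq_fderiv, SchwartzMap.lineDerivOp_apply_eq_fderiv, e1]
    simp only [smul_eq_mul]
    ring
  have key2 : ∂_{v} (TemperedDistribution.smulLeftCLM ℂ b f) u =
      f (SchwartzMap.smulLeftCLM ℂ b (-(∂_{v} u))) := rfl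
  have key3 : (TemperedDistribution.smulLeftCLM ℂ (fun y => fderiv ℝ b y v) f +
      TemperedDistribution.smulLeftCLM ℂ b (∂_{v} f)) u =
      f (SchwartzMap.smulLeftCLM ℂ (fun y => fderiv ℝ b y v) u) +
        f (-(∂_{v} (SchwartzMap.smulLeftCLM ℂ b u))) := rfl
  rw [key2, key3, key, map_add]

end ANCO
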