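import Pool.Agent.Helper39.Anco.Lr
import Pool.Agent.Helper39.Anco.LTools

open scoped ContDiff Topology Manifold InnerProductSpace
open Set MeasureTheory Filter

set_option maxSynthPendingDepth 3

noncomputable section
namespace ANCO

variable {n : ℕ}

/-! ## L6b PAIR : file Anco/Pair.lean -/

section pairmaps
variable {ι : Type} [Fintype ι]

/-- first component -/
def pairP1 : Wd (ι ⊕ ι) →L[ℝ] Wd ι :=
  LinearMap.toContinuousLinearMap
    { toFun := fun x => WithLp.toLp 2 (fun i => x (Sum.inl i))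
      map_add' := fun x y => by ext i; simp
      map_smul' := fun c x => by ext i; simp }

/-- second component -/
def pairP2 : Wd (ι ⊕ ι) →L[ℝ] Wd ι :=
  LinearMap.toContinuousLinearMap
    { toFun := fun x => WithLp.toLp 2 (fun i => x (Sum.inr i))
      map_add' := fun x y => by ext i; simp
      map_smul' := fun c x => by ext i; simp }

/-- first inclusion -/
def pairI1 : Wd ι →L[ℝ] Wd (ι ⊕ ι) :=
  LinearMap.toContinuousLinearMap
    { toFun := fun x => WithLp.toLp 2 (Sum.elim (fun i => x i) (fun _ => 0))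
      map_add' := fun x y => by ext i; rcases i with i | i <;> simp
      map_smul' := fun c x => by ext i; rcases i with i | i <;> simp }

/-- second inclusion -/
def pairI2 : Wd ι →L[ℝ] Wd (ι ⊕ ι) :=
  LinearMap.toContinuousLinearMap
    { toFun := fun x => WithLp.toLp 2 (Sum.elim (fun _ => 0) (fun i => x i))
      map_add' := fun x y => by ext i; rcases i with i | i <;> simp
      map_smul' := fun c x => by ext i; rcases i with i | i <;> simp }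

theorem pair_P1_apply (x : Wd (ι ⊕ ι)) (i : ι) : pairP1 x i = x (Sum.inl i) := rfl
theorem pair_P2_apply (x : Wd (ι ⊕ ι)) (i : ι) : pairP2 x i = x (Sum.inr i) := rfl
theorem pair_I1_inl (x : Wd ι) (i : ι) : pairI1 x (Sum.inl i) = x i := rfl
theorem pair_I1_inr (x : Wd ι) (i : ι) : pairI1 x (Sum.inr i) = 0 := rfl
theorem pair_I2_inl (x : Wd ι) (i : ι) : pairI2 x (Sum.inl i) = 0 := rfl
theorem pair_I2_inr (x : Wd ι) (i : ι) : pairI2 x (Sum.inr i) = x i := rfl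

theorem pair_P1I1 (x : Wd ι) : pairP1 (pairI1 x) = x := by ext i; rfl
theorem pair_P1I2 (x : Wd ι) : pairP1 (pairI2 x) = 0 := by ext i; rfl
theorem pair_P2I1 (x : Wd ι) : pairP2 (pairI1 x) = 0 := by ext i; rfl
theorem pair_P2I2 (x : Wd ι) : pairP2 (pairI2 x) = x := by ext i; rfl
theorem pair_sum (x : Wd (ι ⊕ ι)) : pairI1 (pairP1 x) + pairI2 (pairP2 x) = x := by
  ext i
  rcases i with i | i
  · simp [pair_I1_inl, pair_I2_inl, pair_P1_apply]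
  · simp [pair_I1_inr, pair_I2_inr, pair_P2_apply]

theorem pair_inner (x y : Wd (ι ⊕ ι)) :
    ⟪x, y⟫_ℝ = ⟪pairP1 x, pairP1 y⟫_ℝ + ⟪pairP2 x, pairP2 y⟫_ℝ := by
  simp only [PiLp.inner_apply, Fintype.sum_sum_type]
  rfl

end pairmaps

theorem pair_int {g1 g2 g3 : E n → ℝ} (h1 : Integrable g1) (h2 : Integrable g2)
    (h3 : Integrable g3) (a b : ℝ) : Integrable (fun y => g1 y + a * g2 y + b * g3 y) ∧
    ∫ y, (g1 y + a * g2 y + b * g3 y) = (∫ y, g1 y) + a * (∫ y, g2 y) + b * ∫ y, g3 y := by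
  have e1 : Integrable (fun y => g1 y + a * g2 y) := h1.add (h2.const_mul a)
  have e2 : Integrable (fun y => b * g3 y) := h3.const_mul b
  refine ⟨e1.add e2, ?_⟩
  rw [integral_add e1 e2, integral_add h1 (h2.const_mul a), integral_const_mul,
    integral_const_mul]

theorem local_reg_pair {ι : Type} [Fintype ι] {U : Set (E n)} (hU : IsOpen U)
    {A : Fin n → E n → (Wd ι →L[ℝ] Wd ι)} {B : E n → (Wd ι →L[ℝ] Wd ι)}
    (hA : ∀ j, ContDiffOn ℝ ∞ (A j) U) (hB : ContDiffOn ℝ ∞ B U) (hs : SymbCond A U)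
    (a b c d : ℝ) {k₁ k₂ f₁ f₂ : E n → Wd ι} (hk₁ : LocL2 U k₁) (hk₂ : LocL2 U k₂)
    (hf₁ : ContDiffOn ℝ ∞ f₁ U) (hf₂ : ContDiffOn ℝ ∞ f₂ U)
    (hw₁ : ∀ ψ : E n → Wd ι, Test U ψ →
      (∫ y, ⟪k₁ y, ∑ j, A j y (fderiv ℝ ψ y (e j)) + B y (ψ y)⟫_ℝ) + a * (∫ y, ⟪k₁ y, ψ y⟫_ℝ) +
        b * (∫ y, ⟪k₂ y, ψ y⟫_ℝ) = ∫ y, ⟪f₁ y, ψ y⟫_ℝ)
    (hw₂ : ∀ ψ : E n → Wd ι, Test U ψ →
      (∫ y, ⟪k₂ y, ∑ j, A j y (fderiv ℝ ψ y (e j)) + B y (ψ y)⟫_ℝ) + c * (∫ y, ⟪k₁ y, ψ y⟫_ℝ) +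
        d * (∫ y, ⟪k₂ y, ψ y⟫_ℝ) = ∫ y, ⟪f₂ y, ψ y⟫_ℝ) :
    ∃ k₁' k₂' : E n → Wd ι, ContDiffOn ℝ ∞ k₁' U ∧ ContDiffOn ℝ ∞ k₂' U ∧
      (∀ᵐ y ∂(volume.restrict U), k₁ y = k₁' y) ∧ (∀ᵐ y ∂(volume.restrict U), k₂ y = k₂' y) := by
  classical
  -- the big system
  set A' : Fin n → E n → (Wd (ι ⊕ ι) →L[ℝ] Wd (ι ⊕ ι)) := fun j y =>
    pairI1 ∘L (A j y) ∘L pairP1 + pairI2 ∘L (A j y) ∘L pairP2 with hA'
  set B' : E n → (Wd (ι ⊕ ι) →L[ℝ] Wd (ι ⊕ ι)) := fun y =>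
    (pairI1 ∘L (B y) ∘L pairP1 + pairI2 ∘L (B y) ∘L pairP2) +
      (a • (pairI1 ∘L pairP1) + b • (pairI2 ∘L pairP1) + c • (pairI1 ∘L pairP2) +
        d • (pairI2 ∘L pairP2)) with hB'
  set k : E n → Wd (ι ⊕ ι) := fun y => pairI1 (k₁ y) + pairI2 (k₂ y) with hk
  set f : E n → Wd (ι ⊕ ι) := fun y => pairI1 (f₁ y) + pairI2 (f₂ y) with hf
  have hdiag : ∀ {L : E n → (Wd ι →L[ℝ] Wd ι)}, ContDiffOn ℝ ∞ L U →
      ContDiffOn ℝ ∞ (fun y => (pairI1 ∘L (L y) ∘L pairP1 + pairI2 ∘L (L y) ∘L pairP2 :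
        Wd (ι ⊕ ι) →L[ℝ] Wd (ι ⊕ ι))) U := by
    intro L hL
    exact (contDiffOn_const.clm_comp (hL.clm_comp contDiffOn_const)).add
      (contDiffOn_const.clm_comp (hL.clm_comp contDiffOn_const))
  have hA's : ∀ j, ContDiffOn ℝ ∞ (A' j) U := fun j => hdiag (hA j)
  have hB's : ContDiffOn ℝ ∞ B' U := (hdiag hB).add contDiffOn_const
  have hsum : ∀ (ξ : E n) (y : E n) (x : Wd (ι ⊕ ι)), (∑ j, ξ j • A' j y) x =
      pairI1 ((∑ j, ξ j • A j y) (pairP1 x)) + pairI2 ((∑ j, ξ j • A j y) (pairP2 x)) := by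
    intro ξ y x
    simp only [sum_apply, map_sum, ← Finset.sum_add_distrib]
    apply Finset.sum_congr rfl
    intro j _
    simp [hA', smul_add]
  have hs' : SymbCond A' U := by
    intro y hy
    obtain ⟨S, hS, hsym⟩ := hs y hy
    refine ⟨S, hS, fun ξ x => ?_⟩
    rw [hsum, hsum]
    simp only [map_add, pair_P1I1, pair_P1I2, pair_P2I1, pair_P2I2, add_zero, zero_add, hsym]
    simp only [map_smul]
    rw [← smul_add, pair_sum]
  have hk' : LocL2 U k := lt_locL2_add (lt_locL2_clm pairI1 hk₁) (lt_locL2_clm pairI2 hk₂)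
  have hf' : ContDiffOn ℝ ∞ f U :=
    ((pairI1 (ι := ι)).contDiff.comp_contDiffOn hf₁).add
      ((pairI2 (ι := ι)).contDiff.comp_contDiffOn hf₂)
  have hP1k : ∀ y, pairP1 (k y) = k₁ y := fun y => by
    rw [hk]; simp only [map_add, pair_P1I1, pair_P1I2, add_zero]
  have hP2k : ∀ y, pairP2 (k y) = k₂ y := fun y => by
    rw [hk]; simp only [map_add, pair_P2I1, pair_P2I2, zero_add]
  have hP1f : ∀ y, pairP1 (f y) = f₁ y := fun y => by
    rw [hf]; simp only [map_add, pair_P1I1, pair_P1I2, add_zero]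
  have hP2f : ∀ y, pairP2 (f y) = f₂ y := fun y => by
    rw [hf]; simp only [map_add, pair_P2I1, pair_P2I2, zero_add]
  have hweak : WeakSol U A' B' k f := by
    intro Ψ hΨ
    have hψ₁ : Test U (fun y => pairP1 (Ψ y)) := lt_test_clm pairP1 hΨ
    have hψ₂ : Test U (fun y => pairP2 (Ψ y)) := lt_test_clm pairP2 hΨ
    have hΨd : ∀ y, DifferentiableAt ℝ Ψ y := fun y =>
      hΨ.1.contDiffAt.differentiableAt (by simp)
    have hd1 : ∀ y v, fderiv ℝ (fun y => pairP1 (Ψ y)) y v = pairP1 (fderiv ℝ Ψ y v) := by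
      intro y v
      have := ((pairP1 (ι := ι)).hasFDerivAt.comp y (hΨd y).hasFDerivAt).fderiv
      have h2 : (fun y => pairP1 (Ψ y)) = (⇑(pairP1 (ι := ι)) ∘ Ψ) := rfl
      rw [h2, this]; rfl
    have hd2 : ∀ y v, fderiv ℝ (fun y => pairP2 (Ψ y)) y v = pairP2 (fderiv ℝ Ψ y v) := by
      intro y v
      have := ((pairP2 (ι := ι)).hasFDerivAt.comp y (hΨd y).hasFDerivAt).fderiv
      have h2 : (fun y => pairP2 (Ψ y)) = (⇑(pairP2 (ι := ι)) ∘ Ψ) := rfl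
      rw [h2, this]; rfl
    have h1 := hw₁ _ hψ₁
    have h2 := hw₂ _ hψ₂
    simp only [hd1] at h1
    simp only [hd2] at h2
    -- tests for integrability
    have hT1 : Test U (fun y => ∑ j, A j y (pairP1 (fderiv ℝ Ψ y (e j))) + B y (pairP1 (Ψ y))) :=
      lt_test_add (lt_test_sum _ fun j _ => lt_test_mul hU (hA j)
        (lt_test_clm pairP1 (lt_test_fderiv hΨ (e j)))) (lt_test_mul hU hB hψ₁)
    have hT2 : Test U (fun y => ∑ j, A j y (pairP2 (fderiv ℝ Ψ y (e j))) + B y (pairP2 (Ψ y))) :=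
      lt_test_add (lt_test_sum _ fun j _ => lt_test_mul hU (hA j)
        (lt_test_clm pairP2 (lt_test_fderiv hΨ (e j)))) (lt_test_mul hU hB hψ₂)
    have i1 := lt_integrable_inner hk₁ hT1
    have i2 := lt_integrable_inner hk₂ hT2
    have i7 := lt_integrable_inner (lt_locL2_of_continuousOn hf₁.continuousOn) hψ₁
    have i8 := lt_integrable_inner (lt_locL2_of_continuousOn hf₂.continuousOn) hψ₂
    have hpt : ∀ y, ⟪k y, ∑ j, A' j y (fderiv ℝ Ψ y (e j)) + B' y (Ψ y)⟫_ℝ =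
        ((⟪k₁ y, ∑ j, A j y (pairP1 (fderiv ℝ Ψ y (e j))) + B y (pairP1 (Ψ y))⟫_ℝ +
          a * ⟪k₁ y, pairP1 (Ψ y)⟫_ℝ + b * ⟪k₂ y, pairP1 (Ψ y)⟫_ℝ)) +
        (⟪k₂ y, ∑ j, A j y (pairP2 (fderiv ℝ Ψ y (e j))) + B y (pairP2 (Ψ y))⟫_ℝ +
          c * ⟪k₁ y, pairP2 (Ψ y)⟫_ℝ + d * ⟪k₂ y, pairP2 (Ψ y)⟫_ℝ) := by
      intro y
      rw [pair_inner, hP1k, hP2k]
      have e1 : pairP1 (∑ j, A' j y (fderiv ℝ Ψ y (e j)) + B' y (Ψ y)) =
          ∑ j, A j y (pairP1 (fderiv ℝ Ψ y (e j))) + B y (pairP1 (Ψ y)) +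
            (a • pairP1 (Ψ y) + c • pairP2 (Ψ y)) := by
        simp [hA', hB', pair_P1I1, pair_P1I2]
        abel
      have e2 : pairP2 (∑ j, A' j y (fderiv ℝ Ψ y (e j)) + B' y (Ψ y)) =
          ∑ j, A j y (pairP2 (fderiv ℝ Ψ y (e j))) + B y (pairP2 (Ψ y)) +
            (b • pairP1 (Ψ y) + d • pairP2 (Ψ y)) := by
        simp [hA', hB', pair_P2I1, pair_P2I2]
        abel
      rw [e1, e2]
      simp only [inner_add_right, inner_smul_right]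
      ring
    simp only [hpt]
    have hpt2 : ∀ y, ⟪f y, Ψ y⟫_ℝ = ⟪f₁ y, pairP1 (Ψ y)⟫_ℝ + ⟪f₂ y, pairP2 (Ψ y)⟫_ℝ := by
      intro y
      rw [pair_inner, hP1f, hP2f]
    simp only [hpt2]
    obtain ⟨p1, q1⟩ := pair_int i1 (lt_integrable_inner hk₁ hψ₁) (lt_integrable_inner hk₂ hψ₁) a b
    obtain ⟨p2, q2⟩ := pair_int i2 (lt_integrable_inner hk₁ hψ₂) (lt_integrable_inner hk₂ hψ₂) c d
    rw [integral_add p1 p2, integral_add i7 i8, ← h1, ← h2, q1, q2]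
  obtain ⟨k', hk's, hk'e⟩ := local_reg hU hA's hB's hs' hk' hf' hweak
  refine ⟨fun y => pairP1 (k' y), fun y => pairP2 (k' y),
    (pairP1 (ι := ι)).contDiff.comp_contDiffOn hk's,
    (pairP2 (ι := ι)).contDiff.comp_contDiffOn hk's, ?_, ?_⟩
  · filter_upwards [hk'e] with y hy
    rw [← hP1k, hy]
  · filter_upwards [hk'e] with y hy
    rw [← hP2k, hy]

end ANCO
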